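import Pool.Agent.Lib.MP_95e9b3_coG.Defs

/-! # Route G: costs, flows from two connectors, R2, the final gain -/

set_option autoImplicit false

namespace Pool.Agent.Lib.MP_95e9b3_coG

open Finset Pool.Agent.Lib.MP_95e9b3_coC
open scoped symmDiff

variable {V E : Type} [Fintype V] [DecidableEq V] [Fintype E] [DecidableEq E]

omit [Fintype V] [DecidableEq V] in
private theorem bcost_split (w : E → ℕ) (M C : Finset E) :
    (∑ e ∈ C, (w e : ℚ)) = (∑ e ∈ univ \ M, if e ∈ C then (w e : ℚ) else 0)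
      + ∑ e ∈ M, if e ∈ C then (w e : ℚ) else 0 := by
  rw [Finset.sum_sdiff (Finset.subset_univ M), Finset.sum_ite_mem, Finset.univ_inter]

omit [Fintype V] [DecidableEq V] in
theorem bcost_total (w : E → ℕ) (M : Finset E) :
    (∑ e, (w e : ℚ)) = (∑ e ∈ univ \ M, (w e : ℚ)) + ∑ e ∈ M, (w e : ℚ) := by
  rw [Finset.sum_sdiff (Finset.subset_univ M)]

private theorem bcost_cases : ∀ z : K4, z ≠ 0 →
    (z.1 = 1 ∧ ¬ z.2 = 1) ∨ (¬ z.1 = 1 ∧ z.2 = 1) ∨ (z.1 = 1 ∧ z.2 = 1) := by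
  decide

/-- BLOCK Cost: three even sets `F ∆ X_i` -/
theorem costZ (G : MG V E) (w : E → ℕ) (M : Finset E) (hF : G.Ev (univ \ M)) (x : E → K4)
    (hx : G.Fl x) (hnz : ∀ e ∈ M, x e ≠ 0) :
    G.Cov w (2 * (∑ e ∈ M, (w e : ℚ)) + (∑ e ∈ univ \ M, (w e : ℚ))
      + 2 * ∑ e ∈ (univ \ M).filter (fun e => x e = 0), (w e : ℚ)) := by
  classical
  set F := univ \ M with hFdef
  have hX : G.Ev (univ.filter (fun e => (x e).1 = 1)) := G.Fl_hom x hx (AddMonoidHom.fst _ _)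
  have hY : G.Ev (univ.filter (fun e => (x e).2 = 1)) := G.Fl_hom x hx (AddMonoidHom.snd _ _)
  set X := univ.filter (fun e => (x e).1 = 1) with hXdef
  set Y := univ.filter (fun e => (x e).2 = 1) with hYdef
  have memF : ∀ e, e ∈ F ↔ e ∉ M := by
    intro e; rw [hFdef, Finset.mem_sdiff]; simp
  have memX : ∀ e, e ∈ X ↔ (x e).1 = 1 := by
    intro e; rw [hXdef, Finset.mem_filter]; simp
  have memY : ∀ e, e ∈ Y ↔ (x e).2 = 1 := by
    intro e; rw [hYdef, Finset.mem_filter]; simp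
  have m1 : ∀ e, e ∈ X ∆ F ↔ (((x e).1 = 1 ∧ e ∉ F) ∨ (e ∈ F ∧ ¬ (x e).1 = 1)) := by
    intro e; rw [Finset.mem_symmDiff, memX]
  have m2 : ∀ e, e ∈ Y ∆ F ↔ (((x e).2 = 1 ∧ e ∉ F) ∨ (e ∈ F ∧ ¬ (x e).2 = 1)) := by
    intro e; rw [Finset.mem_symmDiff, memY]
  have m3 : ∀ e, e ∈ (X ∆ Y) ∆ F ↔
      ((((x e).1 = 1 ∧ ¬ (x e).2 = 1) ∨ ((x e).2 = 1 ∧ ¬ (x e).1 = 1)) ∧ e ∉ F) ∨
      (e ∈ F ∧ ¬ (((x e).1 = 1 ∧ ¬ (x e).2 = 1) ∨ ((x e).2 = 1 ∧ ¬ (x e).1 = 1))) := by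
    intro e
    rw [Finset.mem_symmDiff, Finset.mem_symmDiff, memX, memY]
  refine ⟨[X ∆ F, Y ∆ F, (X ∆ Y) ∆ F], ?_, ?_, ?_⟩
  · intro C hC
    simp only [List.mem_cons, List.not_mem_nil, or_false] at hC
    rcases hC with rfl | rfl | rfl
    · exact G.Ev_symm X F hX hF
    · exact G.Ev_symm Y F hY hF
    · exact G.Ev_symm _ F (G.Ev_symm X Y hX hY) hF
  · intro e
    by_cases heF : e ∈ F
    · by_cases h1 : (x e).1 = 1
      · by_cases h2 : (x e).2 = 1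
        · exact ⟨(X ∆ Y) ∆ F, by simp, (m3 e).2 (Or.inr ⟨heF, by tauto⟩)⟩
        · exact ⟨Y ∆ F, by simp, (m2 e).2 (Or.inr ⟨heF, h2⟩)⟩
      · exact ⟨X ∆ F, by simp, (m1 e).2 (Or.inr ⟨heF, h1⟩)⟩
    · have heM : e ∈ M := by
        by_contra h
        exact heF ((memF e).2 h)
      rcases bcost_cases (x e) (hnz e heM) with h | h | h
      · exact ⟨X ∆ F, by simp, (m1 e).2 (Or.inl ⟨h.1, heF⟩)⟩
      · exact ⟨Y ∆ F, by simp, (m2 e).2 (Or.inl ⟨h.2, heF⟩)⟩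
      · exact ⟨X ∆ F, by simp, (m1 e).2 (Or.inl ⟨h.1, heF⟩)⟩
  · have e1 : ((([X ∆ F, Y ∆ F, (X ∆ Y) ∆ F].map (fun C => ∑ e ∈ C, w e)).sum : ℕ) : ℚ)
        = (∑ e ∈ X ∆ F, (w e : ℚ)) + (∑ e ∈ Y ∆ F, (w e : ℚ))
          + ∑ e ∈ (X ∆ Y) ∆ F, (w e : ℚ) := by
      simp only [List.map_cons, List.map_nil, List.sum_cons, List.sum_nil, Nat.cast_add,
        Nat.cast_sum, add_zero]
      ring
    rw [e1, bcost_split w M (X ∆ F), bcost_split w M (Y ∆ F), bcost_split w M ((X ∆ Y) ∆ F),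
      ← hFdef]
    have e2 : (∑ e ∈ F, if e ∈ X ∆ F then (w e : ℚ) else 0)
        + (∑ e ∈ F, if e ∈ Y ∆ F then (w e : ℚ) else 0)
        + (∑ e ∈ F, if e ∈ (X ∆ Y) ∆ F then (w e : ℚ) else 0)
        = (∑ e ∈ F, (w e : ℚ)) + 2 * ∑ e ∈ F, if x e = 0 then (w e : ℚ) else 0 := by
      rw [Finset.mul_sum, ← Finset.sum_add_distrib, ← Finset.sum_add_distrib,
        ← Finset.sum_add_distrib]
      refine Finset.sum_congr rfl fun e he => ?_
      by_cases h0 : x e = 0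
      · have a1 : ¬ (x e).1 = 1 := by rw [h0]; decide
        have a2 : ¬ (x e).2 = 1 := by rw [h0]; decide
        have h1 : e ∈ X ∆ F := (m1 e).2 (Or.inr ⟨he, a1⟩)
        have h2 : e ∈ Y ∆ F := (m2 e).2 (Or.inr ⟨he, a2⟩)
        have h3 : e ∈ (X ∆ Y) ∆ F := (m3 e).2 (Or.inr ⟨he, by tauto⟩)
        rw [if_pos h1, if_pos h2, if_pos h3, if_pos h0]
        ring
      · rcases bcost_cases (x e) h0 with ⟨a1, a2⟩ | ⟨a1, a2⟩ | ⟨a1, a2⟩
        · have h1 : e ∉ X ∆ F := by rw [m1]; tauto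
          have h2 : e ∈ Y ∆ F := (m2 e).2 (Or.inr ⟨he, a2⟩)
          have h3 : e ∉ (X ∆ Y) ∆ F := by rw [m3]; tauto
          rw [if_neg h1, if_pos h2, if_neg h3, if_neg h0]
          ring
        · have h1 : e ∈ X ∆ F := (m1 e).2 (Or.inr ⟨he, a1⟩)
          have h2 : e ∉ Y ∆ F := by rw [m2]; tauto
          have h3 : e ∉ (X ∆ Y) ∆ F := by rw [m3]; tauto
          rw [if_pos h1, if_neg h2, if_neg h3, if_neg h0]
          ring
        · have h1 : e ∉ X ∆ F := by rw [m1]; tauto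
          have h2 : e ∉ Y ∆ F := by rw [m2]; tauto
          have h3 : e ∈ (X ∆ Y) ∆ F := (m3 e).2 (Or.inr ⟨he, by tauto⟩)
          rw [if_neg h1, if_neg h2, if_pos h3, if_neg h0]
          ring
    have e3 : (∑ e ∈ M, if e ∈ X ∆ F then (w e : ℚ) else 0)
        + (∑ e ∈ M, if e ∈ Y ∆ F then (w e : ℚ) else 0)
        + (∑ e ∈ M, if e ∈ (X ∆ Y) ∆ F then (w e : ℚ) else 0)
        = 2 * (∑ e ∈ M, (w e : ℚ)) := by
      rw [Finset.mul_sum, ← Finset.sum_add_distrib, ← Finset.sum_add_distrib]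
      refine Finset.sum_congr rfl fun e he => ?_
      have heF : e ∉ F := fun h => (memF e).1 h he
      rcases bcost_cases (x e) (hnz e he) with ⟨a1, a2⟩ | ⟨a1, a2⟩ | ⟨a1, a2⟩
      · have h1 : e ∈ X ∆ F := (m1 e).2 (Or.inl ⟨a1, heF⟩)
        have h2 : e ∉ Y ∆ F := by rw [m2]; tauto
        have h3 : e ∈ (X ∆ Y) ∆ F := (m3 e).2 (Or.inl ⟨by tauto, heF⟩)
        rw [if_pos h1, if_neg h2, if_pos h3]
        ring
      · have h1 : e ∉ X ∆ F := by rw [m1]; tauto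
        have h2 : e ∈ Y ∆ F := (m2 e).2 (Or.inl ⟨a2, heF⟩)
        have h3 : e ∈ (X ∆ Y) ∆ F := (m3 e).2 (Or.inl ⟨by tauto, heF⟩)
        rw [if_neg h1, if_pos h2, if_pos h3]
        ring
      · have h1 : e ∈ X ∆ F := (m1 e).2 (Or.inl ⟨a1, heF⟩)
        have h2 : e ∈ Y ∆ F := (m2 e).2 (Or.inl ⟨a2, heF⟩)
        have h3 : e ∉ (X ∆ Y) ∆ F := by rw [m3]; tauto
        rw [if_pos h1, if_pos h2, if_neg h3]
        ring
    rw [Finset.sum_filter]
    linarith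

private theorem bcost_other : ∀ k : K4, k ≠ 0 → ∃ l m : K4, l ≠ 0 ∧ m ≠ 0 ∧ k ≠ l ∧ k ≠ m ∧
    l ≠ m ∧ ∀ z : K4, z ≠ 0 → z = k ∨ z = l ∨ z = m := by
  decide

/-- BLOCK Cost -/
theorem costJ (G : MG V E) (w : E → ℕ) (M : Finset E) (hF : G.Ev (univ \ M)) (x : E → K4)
    (hx : G.Fl x) (hnz : ∀ e ∈ M, x e ≠ 0) (k : K4) (hk : k ≠ 0) :
    G.Cov w (3 / 2 * (∑ e, (w e : ℚ)) + 3 / 2 * ∑ e ∈ M.filter (fun e => x e = k), (w e : ℚ)) := by
  classical
  obtain ⟨l, m, hl, hm, hkl, hkm, hlm, hall⟩ := bcost_other k hk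
  have hsum : (∑ e ∈ M, (w e : ℚ)) = (∑ e ∈ M.filter (fun e => x e = k), (w e : ℚ))
      + (∑ e ∈ M.filter (fun e => x e = l), (w e : ℚ))
      + ∑ e ∈ M.filter (fun e => x e = m), (w e : ℚ) := by
    rw [Finset.sum_filter, Finset.sum_filter, Finset.sum_filter, ← Finset.sum_add_distrib,
      ← Finset.sum_add_distrib]
    refine Finset.sum_congr rfl fun e he => ?_
    rcases hall (x e) (hnz e he) with h | h | h
    · rw [if_pos h, if_neg (fun h' => hkl (h.symm.trans h')),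
        if_neg (fun h' => hkm (h.symm.trans h'))]
      ring
    · rw [if_pos h, if_neg (fun h' => hkl (h'.symm.trans h)),
        if_neg (fun h' => hlm (h.symm.trans h'))]
      ring
    · rw [if_pos h, if_neg (fun h' => hkm (h'.symm.trans h)),
        if_neg (fun h' => hlm (h'.symm.trans h))]
      ring
  have ht := bcost_total w M
  rcases le_total (∑ e ∈ M.filter (fun e => x e = m), (w e : ℚ))
    (∑ e ∈ M.filter (fun e => x e = l), (w e : ℚ)) with h | h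
  · refine G.Cov_mono w _ _ ?_ (G.costC w M hF x hx hnz k l hk hl hkl)
    linarith
  · refine G.Cov_mono w _ _ ?_ (G.costC w M hF x hx hnz k m hk hm hkm)
    linarith

private theorem bcost_add1 : ∀ k l : K4, k ≠ l → l + k ≠ 0 := by decide

private theorem bcost_add2 : ∀ k l : K4, l ≠ 0 → l + k ≠ k := by decide

/-- a join inside a connecting set -/
theorem join_conn (G : MG V E) (A J0 : Finset E) (h : ∀ a b, G.Rch A a b) :
    ∃ J ⊆ A, G.Sim J J0 := by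
  refine G.join_exists A J0 ?_
  intro U hU
  have h1 : G.cut U = ∅ := by
    by_contra hne
    obtain ⟨e, he⟩ := Finset.nonempty_iff_ne_empty.2 hne
    have h2 := fun h3 => G.closed_Rch A U hU (G.s e) (G.t e) h3 (h _ _)
    have h4 := fun h3 => G.closed_Rch A U hU (G.t e) (G.s e) h3 (h _ _)
    exact ((G.mem_cut U e).1 he) ⟨h2, h4⟩
  rw [h1, Finset.inter_empty, Finset.card_empty]
  decide

/-- BLOCK Cost: flows from two connectors -/
theorem flowS (G : MG V E) (M S : Finset E) (_hS : S ⊆ M)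
    (h1 : ∀ a b, G.Rch ((univ \ M) ∪ S) a b) (h2 : ∀ a b, G.Rch ((univ \ M) ∪ (M \ S)) a b)
    (k : K4) (hk : k ≠ 0) :
    ∃ x : E → K4, G.Fl x ∧ (∀ e ∈ M, x e ≠ 0) ∧ ∀ e ∈ M, x e = k → e ∈ S := by
  classical
  obtain ⟨l, m, hl, hm, hkl, hkm, hlm, hall⟩ := bcost_other k hk
  obtain ⟨J1, hJ1, hs1⟩ := join_conn G _ M h1
  obtain ⟨J2, hJ2, hs2⟩ := join_conn G _ M h2
  have hA1 : G.Ev (M ∆ J1) := (G.Sim_iff M J1).1 (G.Sim_symm _ _ hs1)
  have hA2 : G.Ev (M ∆ J2) := (G.Sim_iff M J2).1 (G.Sim_symm _ _ hs2)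
  refine ⟨fun e => (if e ∈ M ∆ J1 then l else 0) + (if e ∈ M ∆ J2 then k else 0),
    G.Fl_add _ _ (G.Fl_ind _ hA1 l) (G.Fl_ind _ hA2 k), ?_, ?_⟩
  · intro e he
    by_cases h3 : e ∈ J1
    · have h4 : e ∈ S := by
        rcases Finset.mem_union.1 (hJ1 h3) with h | h
        · exact absurd he (Finset.mem_sdiff.1 h).2
        · exact h
      have h5 : e ∉ J2 := by
        intro h5
        rcases Finset.mem_union.1 (hJ2 h5) with h | h
        · exact (Finset.mem_sdiff.1 h).2 he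
        · exact (Finset.mem_sdiff.1 h).2 h4
      have h6 : e ∉ M ∆ J1 := by rw [Finset.mem_symmDiff]; tauto
      have h7 : e ∈ M ∆ J2 := by rw [Finset.mem_symmDiff]; tauto
      simp only [if_neg h6, if_pos h7, zero_add]
      exact hk
    · have h6 : e ∈ M ∆ J1 := by rw [Finset.mem_symmDiff]; tauto
      simp only [if_pos h6]
      split_ifs
      · exact bcost_add1 k l hkl
      · rw [add_zero]; exact hl
  · intro e he hxe
    by_contra h4
    have h3 : e ∉ J1 := by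
      intro h3
      rcases Finset.mem_union.1 (hJ1 h3) with h | h
      · exact (Finset.mem_sdiff.1 h).2 he
      · exact h4 h
    have h6 : e ∈ M ∆ J1 := by rw [Finset.mem_symmDiff]; tauto
    simp only [if_pos h6] at hxe
    split_ifs at hxe
    · exact bcost_add2 k l hl hxe
    · rw [add_zero] at hxe; exact hkl hxe.symm

/-- the complement of a perfect matching of a cubic graph is even -/
theorem Ev_F (G : MG V E) (hG : C3 G) (M : Finset E) (hM : PM G M) : G.Ev (univ \ M) := by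
  intro v
  have h := G.dg_sdiff M univ (Finset.subset_univ M) v
  rw [hG.deg v, hM.deg v] at h
  have h2 : G.dg (univ \ M) v = 2 := by omega
  rw [h2]
  decide

omit [Fintype E] [DecidableEq E] in
private theorem wt_cast (w : E → ℕ) (A : Finset E) : wt w A = ((∑ e ∈ A, (w e : ℚ) : ℚ) : ℝ) := by
  unfold wt
  push_cast
  rfl

/-- one connector -/
theorem R2_one (G : MG V E) (hG : C3 G) (M : Finset E) (hM : PM G M) (w : E → ℕ)
    (S₁ S₂ : Finset E) (hS1 : S₁ ⊆ M) (hS2 : S₂ ⊆ M) (hd : Disjoint S₁ S₂)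
    (h1 : ∀ a b, G.Rch ((univ \ M) ∪ S₁) a b) (h2 : ∀ a b, G.Rch ((univ \ M) ∪ S₂) a b)
    (l : ℚ) (hl : ¬ G.Cov w l) :
    2 / 3 * ((l : ℝ) - 3 / 2 * wt w univ) ≤ wt w S₁ := by
  classical
  have h2' : ∀ a b, G.Rch ((univ \ M) ∪ (M \ S₁)) a b := by
    intro a b
    refine G.Rch_mono _ _ ?_ a b (h2 a b)
    refine Finset.union_subset_union_right ?_
    intro e he
    exact Finset.mem_sdiff.2 ⟨hS2 he, fun h => Finset.disjoint_left.1 hd h he⟩
  obtain ⟨x, hx, hnz, hk⟩ := flowS G M S₁ hS1 h1 h2' (1, 0) (by decide)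
  have hc := costJ G w M (Ev_F G hG M hM) x hx hnz (1, 0) (by decide)
  have hlt : l < 3 / 2 * (∑ e, (w e : ℚ))
      + 3 / 2 * ∑ e ∈ M.filter (fun e => x e = (1, 0)), (w e : ℚ) := by
    by_contra h
    exact hl (G.Cov_mono w _ _ (not_lt.1 h) hc)
  have hle : (∑ e ∈ M.filter (fun e => x e = (1, 0)), (w e : ℚ)) ≤ ∑ e ∈ S₁, (w e : ℚ) := by
    refine Finset.sum_le_sum_of_subset_of_nonneg ?_ (fun e _ _ => Nat.cast_nonneg _)
    intro e he
    exact hk e (Finset.mem_filter.1 he).1 (Finset.mem_filter.1 he).2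
  have h3 : l - 3 / 2 * (∑ e, (w e : ℚ)) ≤ 3 / 2 * ∑ e ∈ S₁, (w e : ℚ) := by linarith
  have h4 : ((l - 3 / 2 * (∑ e, (w e : ℚ)) : ℚ) : ℝ) ≤ ((3 / 2 * ∑ e ∈ S₁, (w e : ℚ) : ℚ) : ℝ) := by
    exact_mod_cast h3
  rw [wt_cast w univ, wt_cast w S₁]
  push_cast at h4 ⊢
  linarith

/-- BLOCK R2 -/
theorem R2 (G : MG V E) (hG : C3 G) (M : Finset E) (hM : PM G M) (w : E → ℕ)
    (S₁ S₂ : Finset E) (hS1 : S₁ ⊆ M) (hS2 : S₂ ⊆ M) (hd : Disjoint S₁ S₂)
    (h1 : ∀ a b, G.Rch ((univ \ M) ∪ S₁) a b) (h2 : ∀ a b, G.Rch ((univ \ M) ∪ S₂) a b)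
    (l : ℚ) (hl : ¬ G.Cov w l) :
    4 / 3 * ((l : ℝ) - 3 / 2 * wt w univ) ≤ wt w S₁ + wt w S₂ := by
  have a := R2_one G hG M hM w S₁ S₂ hS1 hS2 hd h1 h2 l hl
  have b := R2_one G hG M hM w S₂ S₁ hS2 hS1 hd.symm h2 h1 l hl
  linarith

/-- BLOCK Fin: the cover from a 4-edge-connected contraction -/
theorem gain4 (G : MG V E) (hG : C3 G) (M : Finset E) (hM : PM G M) (w : E → ℕ) :
    G.Cov w ((∑ e, (w e : ℚ)) + (∑ e ∈ M, (w e : ℚ)) + 2 * ∑ e ∈ Zs G w, (w e : ℚ)) := by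
  classical
  have memZ : ∀ x, x ∈ Zs G w ↔ ∃ U : Finset V, (G.cut U).card = 3 ∧ x ∈ G.cut U ∧
      ∃ y ∈ G.cut U, y ≠ x ∧ w x ≤ w y := by
    intro x
    unfold Zs
    simp only [Finset.mem_filter, Finset.mem_univ, true_and]
  obtain ⟨x, hx, hnz⟩ := G.flow_exists (Zs G w \ M) (by
    intro U hU
    by_cases h0 : (G.cut U).card = 0
    · exact Or.inl h0
    right
    have hne : U.Nonempty := by
      rw [Finset.nonempty_iff_ne_empty]
      rintro rfl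
      apply h0
      rw [Finset.card_eq_zero]
      ext e
      rw [G.mem_cut]
      simp
    have hnu : U ≠ univ := by
      rintro rfl
      apply h0
      rw [Finset.card_eq_zero]
      ext e
      rw [G.mem_cut]
      simp
    have h3 := hG.cut U hne hnu
    rcases Nat.lt_or_ge 3 (G.cut U).card with h | h
    · exact h
    exfalso
    have hc : (G.cut U).card = 3 := le_antisymm h h3
    have hm := hM.three U hc
    have hF : ((G.cut U) \ M).card = 2 := by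
      have h5 := Finset.card_sdiff_add_card_inter (G.cut U) M
      rw [Finset.inter_comm, hm, hc] at h5
      omega
    obtain ⟨a, b, hab, hF2⟩ := Finset.card_eq_two.1 hF
    have ha : a ∈ (G.cut U) \ M := by rw [hF2]; simp
    have hb : b ∈ (G.cut U) \ M := by rw [hF2]; simp
    rw [Finset.mem_sdiff] at ha hb
    rcases le_total (w a) (w b) with hw | hw
    · have h6 : a ∈ (Zs G w \ M) ∩ G.cut U := by
        rw [Finset.mem_inter, Finset.mem_sdiff]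
        exact ⟨⟨(memZ a).2 ⟨U, hc, ha.1, b, hb.1, hab.symm, hw⟩, ha.2⟩, ha.1⟩
      rw [hU] at h6
      exact absurd h6 (Finset.notMem_empty a)
    · have h6 : b ∈ (Zs G w \ M) ∩ G.cut U := by
        rw [Finset.mem_inter, Finset.mem_sdiff]
        exact ⟨⟨(memZ b).2 ⟨U, hc, hb.1, a, ha.1, hab, hw⟩, hb.2⟩, hb.1⟩
      rw [hU] at h6
      exact absurd h6 (Finset.notMem_empty b))
  have hnzM : ∀ e ∈ M, x e ≠ 0 := by
    intro e he
    exact hnz e (fun h => (Finset.mem_sdiff.1 h).2 he)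
  refine G.Cov_mono w _ _ ?_ (costZ G w M (Ev_F G hG M hM) x hx hnzM)
  have h1 : (∑ e ∈ (univ \ M).filter (fun e => x e = 0), (w e : ℚ)) ≤ ∑ e ∈ Zs G w, (w e : ℚ) := by
    refine Finset.sum_le_sum_of_subset_of_nonneg ?_ (fun e _ _ => Nat.cast_nonneg _)
    intro e he
    by_contra h
    exact hnz e (fun h' => h (Finset.mem_sdiff.1 h').1) (Finset.mem_filter.1 he).2
  have h2 := bcost_total w M
  linarith

end Pool.Agent.Lib.MP_95e9b3_coG
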