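import Pool.Agent.Lib.MP_95e9b3_coG.CountB

/-!
# Route G, block Count: expectations
-/

set_option autoImplicit false

namespace Pool.Agent.Lib.MP_95e9b3_coG

open Finset Pool.Agent.Lib.MP_95e9b3_coC

variable {V E : Type} [Fintype V] [DecidableEq V] [Fintype E] [DecidableEq E]

open Classical in
/-- indicator of: some but not all vertices of `X` are good -/
noncomputable def pa (G : MG V E) (M : Finset E) (w : E → ℕ) (Y : ℕ → Finset E) (t : ℕ)
    (X : Finset V) : ℝ :=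
  if (∃ v ∈ X, Gd G M w Y t v) ∧ ¬ ∀ v ∈ X, Gd G M w Y t v then 1 else 0

/-- heavy half-edges of `M` at the vertices of `X` which are not good -/
noncomputable def tX (G : MG V E) (M : Finset E) (w : E → ℕ) (Y : ℕ → Finset E) (t : ℕ)
    (X : Finset V) : ℕ := ∑ v ∈ X ∩ NG G M w Y t, G.dg (M ∩ hv w t) v

/-- mean number of edges of `M` in `D` -/
theorem cnt_mean (G : MG V E) (μ : Finset E → ℝ) (hμ : Law G μ) (D : Finset E) :
    ∑ M, μ M * ((M ∩ D).card : ℝ) = (D.card : ℝ) / 3 := by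
  have h1 : ∀ M : Finset E, μ M * ((M ∩ D).card : ℝ) = ∑ e ∈ D, (if e ∈ M then μ M else 0) := by
    intro M
    rw [← sum_filter, filter_mem_eq_inter, sum_const, nsmul_eq_mul, inter_comm, mul_comm]
  rw [sum_congr rfl fun M _ => h1 M, sum_comm, sum_congr rfl fun e _ => hμ.marg e, sum_const,
    nsmul_eq_mul]
  ring

theorem cnt_odd (G : MG V E) (hG : C3 G) (M : Finset E) (hM : PM G M) (X : Finset V)
    (h5 : (G.cut X).card = 5) : ∃ k, (M ∩ G.cut X).card = 2 * k + 1 := by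
  have h1 := G.sum_dg M X
  have h2 := G.sum_dg univ X
  rw [sum_congr rfl fun v _ => hM.deg v, sum_const, smul_eq_mul, mul_one] at h1
  rw [sum_congr rfl fun v _ => hG.deg v, sum_const, smul_eq_mul, univ_inter, h5] at h2
  refine ⟨(M ∩ G.cut X).card / 2, ?_⟩
  omega

/-- inequality for one special set and one matching -/
theorem cnt_point (G : MG V E) (hG : C3 G) (M : Finset E) (hM : PM G M) (w : E → ℕ)
    (Y : ℕ → Finset E) (t : ℕ) (X : Finset V) (hX : Spl G w t X) :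
    ∃ α β : ℝ, (α = -(1 / 10) ∧ β = 0 ∧ (lt w t ∩ G.cut X).card = 0 ∨
        α = -(1 / 12) ∧ β = 1 / 24 ∧ (lt w t ∩ G.cut X).card = 1) ∧
    al G M w Y t X * bo G w t X ≤ (1 / 15) * (tX G M w Y t X : ℝ) + (1 / 3) * pa G M w Y t X +
      α * (5 / 3 - ((M ∩ G.cut X).card : ℝ)) +
      β * (4 / 3 - ((M ∩ (hv w t ∩ G.cut X)).card : ℝ)) := by
  classical
  set a := (M ∩ G.cut X).card with ha
  set h := (M ∩ (hv w t ∩ G.cut X)).card with hh
  set q := (M ∩ (lt w t ∩ G.cut X)).card with hq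
  set l := (lt w t ∩ G.cut X).card with hl
  have hql : q ≤ l := card_le_card inter_subset_right
  have hone := hX.one
  have haq : a = q + h := by
    rw [ha, hq, hh, ← card_union_of_disjoint]
    · congr 1
      ext e
      rw [mem_union, mem_inter, mem_inter, mem_inter, mem_inter, mem_inter, mem_lt, mem_hv]
      constructor
      · rintro ⟨h1, h2⟩
        rcases Nat.lt_or_ge t (w e) with h3 | h3
        · exact Or.inr ⟨h1, h3, h2⟩
        · exact Or.inl ⟨h1, h3, h2⟩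
      · rintro (h1 | h1)
        · exact ⟨h1.1, h1.2.2⟩
        · exact ⟨h1.1, h1.2.2⟩
    · rw [disjoint_left]
      intro e he he'
      rw [mem_inter, mem_inter, mem_lt] at he
      rw [mem_inter, mem_inter, mem_hv] at he'
      omega
  obtain ⟨k, hk⟩ := cnt_odd G hG M hM X hX.five
  rw [← ha] at hk
  have haR : (a : ℝ) = (q : ℝ) + (h : ℝ) := by exact_mod_cast haq
  have hqR : (q : ℝ) ≤ (l : ℝ) := by exact_mod_cast hql
  have hq0 : (0 : ℝ) ≤ (q : ℝ) := Nat.cast_nonneg _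
  have hh0 : (0 : ℝ) ≤ (h : ℝ) := Nat.cast_nonneg _
  have ht0 : (0 : ℝ) ≤ (tX G M w Y t X : ℝ) := Nat.cast_nonneg _
  -- the three situations
  have hall : (∀ v ∈ X, Gd G M w Y t v) → a = 5 ∧ q = l := by
    intro hg
    have h1 := cnt_spl_all G hG M hM w Y t X hX hg
    constructor
    · rw [ha, inter_eq_right.mpr h1]
      exact hX.five
    · rw [hq, inter_eq_right.mpr (inter_subset_right.trans h1)]
  have hnone : (¬ ∃ v ∈ X, Gd G M w Y t v) → h ≤ tX G M w Y t X := by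
    intro hg
    have h1 : X ∩ NG G M w Y t = X := by
      rw [inter_eq_left]
      intro v hv
      rw [mem_NG]
      exact fun h2 => hg ⟨v, hv, h2⟩
    unfold tX
    rw [h1, G.sum_dg, hh]
    have h2 : M ∩ (hv w t ∩ G.cut X) = (M ∩ hv w t) ∩ G.cut X := by
      rw [inter_assoc]
    rw [h2]
    exact Nat.le_add_left _ _
  have hl01 : l = 0 ∨ l = 1 := by omega
  rcases hl01 with hl0 | hl1
  · refine ⟨-(1 / 10), 0, Or.inl ⟨rfl, rfl, hl0⟩, ?_⟩
    have hq1 : q = 0 := by omega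
    unfold al pa bo
    rw [← hl, hl0]
    by_cases hA : ∀ v ∈ X, Gd G M w Y t v
    · rw [if_pos hA, if_neg (fun h1 => h1.2 hA)]
      have h1 := (hall hA).1
      rw [h1]
      push_cast
      linarith
    · rw [if_neg hA]
      by_cases hB : ∃ v ∈ X, Gd G M w Y t v
      · rw [if_pos ⟨hB, hA⟩]
        have h1 : (0 : ℝ) ≤ (a : ℝ) := Nat.cast_nonneg _
        linarith
      · rw [if_neg (fun h1 => hB h1.1)]
        have h1 := hnone hB
        have h2 : 1 ≤ h := by omega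
        have h1R : (h : ℝ) ≤ (tX G M w Y t X : ℝ) := by exact_mod_cast h1
        have h2R : (1 : ℝ) ≤ (h : ℝ) := by exact_mod_cast h2
        have h3R : (a : ℝ) = (h : ℝ) := by
          have : a = h := by omega
          exact_mod_cast this
        linarith
  · refine ⟨-(1 / 12), 1 / 24, Or.inr ⟨rfl, rfl, hl1⟩, ?_⟩
    unfold al pa bo
    rw [← hl, hl1]
    by_cases hA : ∀ v ∈ X, Gd G M w Y t v
    · rw [if_pos hA, if_neg (fun h1 => h1.2 hA)]
      have h1 := hall hA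
      have h2 : h = 4 := by omega
      rw [h1.1, h2]
      push_cast
      linarith
    · rw [if_neg hA]
      by_cases hB : ∃ v ∈ X, Gd G M w Y t v
      · rw [if_pos ⟨hB, hA⟩]
        linarith
      · rw [if_neg (fun h1 => hB h1.1)]
        have h1 := hnone hB
        have h1R : (h : ℝ) ≤ (tX G M w Y t X : ℝ) := by exact_mod_cast h1
        have hq01 : q = 0 ∨ q = 1 := by omega
        rcases hq01 with h2 | h2
        · have h3 : 1 ≤ h := by omega
          have h3R : (1 : ℝ) ≤ (h : ℝ) := by exact_mod_cast h3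
          have h2R : (q : ℝ) = 0 := by exact_mod_cast h2
          linarith
        · have h2R : (q : ℝ) = 1 := by exact_mod_cast h2
          linarith

/-- inequality for one special set in the mean -/
theorem cnt_one (G : MG V E) (hG : C3 G) (μ : Finset E → ℝ) (hμ : Law G μ) (w : E → ℕ)
    (Y : Finset E → ℕ → Finset E) (t : ℕ) (X : Finset V) (hX : Spl G w t X) :
    ∑ M, μ M * (al G M w (Y M) t X * bo G w t X) ≤
      ∑ M, μ M * ((1 / 15) * (tX G M w (Y M) t X : ℝ) + (1 / 3) * pa G M w (Y M) t X) := by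
  have hone := hX.one
  have hl01 : (lt w t ∩ G.cut X).card = 0 ∨ (lt w t ∩ G.cut X).card = 1 := by omega
  have hlh : (lt w t ∩ G.cut X).card + (hv w t ∩ G.cut X).card = 5 := by
    rw [← hX.five, ← card_union_of_disjoint]
    · congr 1
      ext e
      rw [mem_union, mem_inter, mem_inter, mem_lt, mem_hv]
      constructor
      · rintro (h | h)
        · exact h.2
        · exact h.2
      · intro h
        rcases Nat.lt_or_ge t (w e) with h3 | h3
        · exact Or.inr ⟨h3, h⟩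
        · exact Or.inl ⟨h3, h⟩
    · rw [disjoint_left]
      intro e he he'
      rw [mem_inter, mem_lt] at he
      rw [mem_inter, mem_hv] at he'
      omega
  -- one choice of the multipliers for all matchings
  have hab : ∃ α β : ℝ, (β = 0 ∨ (hv w t ∩ G.cut X).card = 4) ∧ ∀ M, PM G M →
      al G M w (Y M) t X * bo G w t X ≤
      (1 / 15) * (tX G M w (Y M) t X : ℝ) + (1 / 3) * pa G M w (Y M) t X +
      α * (5 / 3 - ((M ∩ G.cut X).card : ℝ)) +
      β * (4 / 3 - ((M ∩ (hv w t ∩ G.cut X)).card : ℝ)) := by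
    rcases hl01 with h0 | h1
    · refine ⟨-(1 / 10), 0, Or.inl rfl, fun M hM => ?_⟩
      obtain ⟨α, β, h2, h3⟩ := cnt_point G hG M hM w (Y M) t X hX
      rcases h2 with ⟨h4, h5, _⟩ | ⟨_, _, h6⟩
      · rw [h4, h5] at h3
        exact h3
      · omega
    · refine ⟨-(1 / 12), 1 / 24, Or.inr (by omega), fun M hM => ?_⟩
      obtain ⟨α, β, h2, h3⟩ := cnt_point G hG M hM w (Y M) t X hX
      rcases h2 with ⟨_, _, h6⟩ | ⟨h4, h5, _⟩
      · omega
      · rw [h4, h5] at h3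
        exact h3
  obtain ⟨α, β, hβ, hp⟩ := hab
  have h1 : ∑ M, μ M * (al G M w (Y M) t X * bo G w t X) ≤
      ∑ M, μ M * (((1 / 15) * (tX G M w (Y M) t X : ℝ) + (1 / 3) * pa G M w (Y M) t X) +
      (α * (5 / 3 - ((M ∩ G.cut X).card : ℝ)) +
      β * (4 / 3 - ((M ∩ (hv w t ∩ G.cut X)).card : ℝ)))) := by
    refine sum_le_sum fun M _ => ?_
    by_cases h : μ M = 0
    · rw [h, zero_mul, zero_mul]
    · refine mul_le_mul_of_nonneg_left ?_ (hμ.nonneg M)
      have := hp M (hμ.supp M h)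
      linarith
  refine h1.trans (le_of_eq ?_)
  have h2 : ∀ M, μ M * (((1 / 15) * (tX G M w (Y M) t X : ℝ) + (1 / 3) * pa G M w (Y M) t X) +
      (α * (5 / 3 - ((M ∩ G.cut X).card : ℝ)) +
      β * (4 / 3 - ((M ∩ (hv w t ∩ G.cut X)).card : ℝ)))) =
      μ M * ((1 / 15) * (tX G M w (Y M) t X : ℝ) + (1 / 3) * pa G M w (Y M) t X) +
      ((α * (5 / 3) + β * (4 / 3)) * μ M - α * (μ M * ((M ∩ G.cut X).card : ℝ)) -
        β * (μ M * ((M ∩ (hv w t ∩ G.cut X)).card : ℝ))) := by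
    intro M
    ring
  rw [sum_congr rfl fun M _ => h2 M, sum_add_distrib, sum_sub_distrib, sum_sub_distrib,
    ← mul_sum, ← mul_sum, ← mul_sum, hμ.one, cnt_mean G μ hμ, cnt_mean G μ hμ, hX.five]
  rcases hβ with h3 | h3
  · rw [h3]
    push_cast
    ring
  · rw [h3]
    push_cast
    ring

theorem cnt_sum_tX (G : MG V E) (M : Finset E) (w : E → ℕ) (Y : ℕ → Finset E) (t : ℕ) :
    ∑ X ∈ SS G w t, tX G M w Y t X ≤ TT G M w Y t := by
  unfold tX TT
  rw [← sum_biUnion]
  · refine sum_le_sum_of_subset ?_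
    intro v hv
    rw [mem_biUnion] at hv
    obtain ⟨X, _, hv⟩ := hv
    exact (mem_inter.mp hv).2
  · intro X hX X' hX' hne
    have h1 := cnt_spl_disj G w t X X' ((mem_SS G w t X).mp hX) ((mem_SS G w t X').mp hX') hne
    exact disjoint_of_subset_left inter_subset_left
      (disjoint_of_subset_right inter_subset_left h1)

theorem cnt_sum_pa (G : MG V E) (M : Finset E) (w : E → ℕ) (Y : ℕ → Finset E) (t : ℕ) :
    2 * ∑ X ∈ SS G w t, pa G M w Y t X ≤ (La G M w Y t : ℝ) := by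
  classical
  rw [mul_sum]
  have h1 : ∀ X ∈ SS G w t, 2 * pa G M w Y t X ≤
      (((LaS G M w Y t).filter (fun e => G.s e ∈ X ∧ G.t e ∈ X)).card : ℝ) := by
    intro X hX
    rw [mem_SS] at hX
    unfold pa
    split_ifs with h
    · have h2 := cnt_spl_part G M w Y t X hX h.1 h.2
      have h3 : (2 : ℝ) ≤
        (((LaS G M w Y t).filter (fun e => G.s e ∈ X ∧ G.t e ∈ X)).card : ℝ) := by
        exact_mod_cast h2
      linarith
    · rw [mul_zero]
      exact Nat.cast_nonneg _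
  refine (sum_le_sum h1).trans ?_
  rw [← Nat.cast_sum, ← card_biUnion]
  · rw [La_eq]
    have h2 : (SS G w t).biUnion (fun X => (LaS G M w Y t).filter
        (fun e => G.s e ∈ X ∧ G.t e ∈ X)) ⊆ LaS G M w Y t := by
      intro e he
      rw [mem_biUnion] at he
      obtain ⟨X, _, he⟩ := he
      exact (mem_filter.mp he).1
    exact_mod_cast card_le_card h2
  · intro X hX X' hX' hne
    have h2 := cnt_spl_disj G w t X X' ((mem_SS G w t X).mp hX) ((mem_SS G w t X').mp hX') hne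
    refine disjoint_left.mpr ?_
    intro e he he'
    rw [mem_filter] at he he'
    exact disjoint_left.mp h2 he.2.1 he'.2.1

theorem cnt_NN_le (G : MG V E) (M : Finset E) (w : E → ℕ) (Y : ℕ → Finset E) (t : ℕ) :
    NN G M w Y t ≤ TT G M w Y t := by
  classical
  unfold NN TT MG.dg
  rw [sum_comm, card_filter]
  refine sum_le_sum fun e _ => ?_
  by_cases h : ¬ (Gd G M w Y t (G.s e) ∧ Gd G M w Y t (G.t e))
  · rw [if_pos h]
    have h1 : G.s e ∈ NG G M w Y t ∨ G.t e ∈ NG G M w Y t := by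
      rw [mem_NG, mem_NG]
      by_contra h2
      push Not at h2
      exact h h2
    have h2 : ∀ v, v = G.s e ∨ v = G.t e → 1 ≤ G.inc e v := by
      intro v hv
      unfold MG.inc
      rcases hv with rfl | rfl
      · rw [if_pos rfl]
        exact Nat.le_add_right _ _
      · rw [if_pos (rfl : G.t e = G.t e)]
        exact Nat.le_add_left _ _
    rcases h1 with h1 | h1
    · exact (h2 _ (Or.inl rfl)).trans (single_le_sum (f := fun v => G.inc e v)
        (fun _ _ => Nat.zero_le _) h1)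
    · exact (h2 _ (Or.inr rfl)).trans (single_le_sum (f := fun v => G.inc e v)
        (fun _ _ => Nat.zero_le _) h1)
  · rw [if_neg h]
    exact Nat.zero_le _

/-- BLOCK Count, general form: all good parts have at least five boundary edges -/
theorem count_gen (G : MG V E) (hG : C3 G) (μ : Finset E → ℝ) (hμ : Law G μ) (w : E → ℕ)
    (Y : Finset E → ℕ → Finset E) (t : ℕ)
    (h5 : ∀ M, μ M ≠ 0 → ∀ v, Gd G M w (Y M) t v → 5 ≤ (G.cut (pt G M (Y M) t v)).card)
    (hY : ∀ M, μ M ≠ 0 → Cl G M w (Y M)) :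
    ∑ M, μ M * (rho G M w (Y M) t - 2 / 3 * ((M ∩ hv w t).card : ℝ)) ≤
      - (1 / 60) * (∑ M, μ M * ((NN G M w (Y M) t : ℝ) + (La G M w (Y M) t : ℝ)))
      + 2 * ∑ M, μ M * (NS G M w (Y M) t : ℝ) := by
  have h1 : ∑ M, μ M * (rho G M w (Y M) t - 2 / 3 * ((M ∩ hv w t).card : ℝ)) ≤
      ∑ M, μ M * ((- (1 / 12) * (TT G M w (Y M) t : ℝ) - (1 / 4) * (La G M w (Y M) t : ℝ)
      + 2 * (NS G M w (Y M) t : ℝ)) + (∑ X ∈ SS G w t, al G M w (Y M) t X * bo G w t X)) := by
    refine sum_le_sum fun M _ => ?_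
    by_cases h : μ M = 0
    · rw [h, zero_mul, zero_mul]
    · refine mul_le_mul_of_nonneg_left ?_ (hμ.nonneg M)
      have := cnt_star G hG M (hμ.supp M h) w (Y M) (hY M h) t (h5 M h)
      linarith
  have h2 : ∑ M, μ M * (∑ X ∈ SS G w t, al G M w (Y M) t X * bo G w t X) ≤
      ∑ M, μ M * ((1 / 15) * (TT G M w (Y M) t : ℝ) + (1 / 6) * (La G M w (Y M) t : ℝ)) := by
    have e1 : ∑ M, μ M * (∑ X ∈ SS G w t, al G M w (Y M) t X * bo G w t X) =
        ∑ X ∈ SS G w t, ∑ M, μ M * (al G M w (Y M) t X * bo G w t X) := by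
      rw [sum_comm]
      exact sum_congr rfl fun M _ => by rw [mul_sum]
    have e2 : ∑ X ∈ SS G w t, ∑ M, μ M *
        ((1 / 15) * (tX G M w (Y M) t X : ℝ) + (1 / 3) * pa G M w (Y M) t X) =
        ∑ M, μ M * ((1 / 15) * ((∑ X ∈ SS G w t, tX G M w (Y M) t X : ℕ) : ℝ) +
          (1 / 3) * ∑ X ∈ SS G w t, pa G M w (Y M) t X) := by
      rw [sum_comm]
      refine sum_congr rfl fun M _ => ?_
      rw [← mul_sum, sum_add_distrib, ← mul_sum, ← mul_sum]
      push_cast
      rfl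
    rw [e1]
    refine (sum_le_sum fun X hX => cnt_one G hG μ hμ w Y t X ((mem_SS G w t X).mp hX)).trans ?_
    rw [e2]
    refine sum_le_sum fun M _ => mul_le_mul_of_nonneg_left ?_ (hμ.nonneg M)
    have h3 := cnt_sum_pa G M w (Y M) t
    have h4 : ((∑ X ∈ SS G w t, tX G M w (Y M) t X : ℕ) : ℝ) ≤ (TT G M w (Y M) t : ℝ) := by
      exact_mod_cast cnt_sum_tX G M w (Y M) t
    linarith
  have h3 : ∑ M, μ M * ((- (1 / 12) * (TT G M w (Y M) t : ℝ) - (1 / 4) * (La G M w (Y M) t : ℝ)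
      + 2 * (NS G M w (Y M) t : ℝ)) + (∑ X ∈ SS G w t, al G M w (Y M) t X * bo G w t X)) =
      ∑ M, μ M * (- (1 / 12) * (TT G M w (Y M) t : ℝ) - (1 / 4) * (La G M w (Y M) t : ℝ)
      + 2 * (NS G M w (Y M) t : ℝ)) +
      ∑ M, μ M * (∑ X ∈ SS G w t, al G M w (Y M) t X * bo G w t X) := by
    rw [← sum_add_distrib]
    exact sum_congr rfl fun M _ => by ring
  rw [h3] at h1
  have h4 : ∑ M, μ M * (- (1 / 12) * (TT G M w (Y M) t : ℝ) - (1 / 4) * (La G M w (Y M) t : ℝ)
      + 2 * (NS G M w (Y M) t : ℝ)) +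
      ∑ M, μ M * ((1 / 15) * (TT G M w (Y M) t : ℝ) + (1 / 6) * (La G M w (Y M) t : ℝ)) ≤
      ∑ M, (- (1 / 60) * (μ M * ((NN G M w (Y M) t : ℝ) + (La G M w (Y M) t : ℝ))) +
        2 * (μ M * (NS G M w (Y M) t : ℝ))) := by
    rw [← sum_add_distrib]
    refine sum_le_sum fun M _ => ?_
    have h5 : (NN G M w (Y M) t : ℝ) ≤ (TT G M w (Y M) t : ℝ) := by
      exact_mod_cast cnt_NN_le G M w (Y M) t
    have h6 : (0 : ℝ) ≤ (La G M w (Y M) t : ℝ) := Nat.cast_nonneg _
    have h7 := hμ.nonneg M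
    have h8 : μ M * ((- (1 / 12) * (TT G M w (Y M) t : ℝ) - (1 / 4) * (La G M w (Y M) t : ℝ)
      + 2 * (NS G M w (Y M) t : ℝ)) +
      ((1 / 15) * (TT G M w (Y M) t : ℝ) + (1 / 6) * (La G M w (Y M) t : ℝ))) ≤
      μ M * (- (1 / 60) * ((NN G M w (Y M) t : ℝ) + (La G M w (Y M) t : ℝ)) +
        2 * (NS G M w (Y M) t : ℝ)) := by
      refine mul_le_mul_of_nonneg_left ?_ h7
      linarith
    linarith
  rw [sum_add_distrib, ← mul_sum, ← mul_sum] at h4
  linarith

/-- BLOCK Count -/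
theorem count (G : MG V E) (hG : C3 G) (μ : Finset E → ℝ) (hμ : Law G μ) (w : E → ℕ)
    (Y : Finset E → ℕ → Finset E) (h5 : ∀ M, μ M ≠ 0 → H5 G M)
    (hY : ∀ M, μ M ≠ 0 → Cl G M w (Y M)) (t : ℕ) :
    ∑ M, μ M * (rho G M w (Y M) t - 2 / 3 * ((M ∩ hv w t).card : ℝ)) ≤
      - (1 / 60) * (∑ M, μ M * ((NN G M w (Y M) t : ℝ) + (La G M w (Y M) t : ℝ)))
      + 2 * ∑ M, μ M * (NS G M w (Y M) t : ℝ) := by
  refine count_gen G hG μ hμ w Y t (fun M hM v hv => ?_) hY
  refine h5 M hM _ ⟨v, cnt_self G M (Y M) t v⟩ hv.1.2 (cnt_cut G M (Y M) t _ ?_)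
  exact mem_image_of_mem _ (mem_univ _)

end Pool.Agent.Lib.MP_95e9b3_coG
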