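import Pool.Agent.Lib.MP_95e9b3_coG.Count

/-!
# Route G, block Count, 4-cuts (helper25, after helper85's Count and note helper61c)

Good parts with four boundary edges are allowed if they contain an inner heavy edge of the
matching, or the root vertex `r`.
-/

set_option autoImplicit false
set_option linter.unusedSectionVars false

namespace Pool.Agent.Lib.MP_95e9b3_coG

open Finset Pool.Agent.Lib.MP_95e9b3_coC

variable {V E : Type} [Fintype V] [DecidableEq V] [Fintype E] [DecidableEq E]

/-- a cut contained in a good perfect matching has at least four edges -/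
theorem cnt_four_le (G : MG V E) (hG : C3 G) (M : Finset E) (hM : PM G M) (U : Finset V)
    (hne : U.Nonempty) (hu : U ≠ univ) (hU : G.cut U ⊆ M) : 4 ≤ (G.cut U).card := by
  have h1 := hG.cut U hne hu
  by_contra h
  have h2 : (G.cut U).card = 3 := by omega
  have h3 := hM.three U h2
  rw [inter_eq_right.mpr hU, h2] at h3
  omega

/-- the count for one matching, 4-cuts allowed -/
theorem cnt_star4 (G : MG V E) (hG : C3 G) (M : Finset E) (hM : PM G M) (w : E → ℕ)
    (Y : ℕ → Finset E) (hY : Cl G M w Y) (t : ℕ) (r : V)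
    (h4 : ∀ v, Gd G M w Y t v → r ∉ pt G M Y t v → (G.cut (pt G M Y t v)).card = 4 →
      ∃ e ∈ M, t < w e ∧ G.s e ∈ pt G M Y t v ∧ G.t e ∈ pt G M Y t v) :
    rho G M w Y t - 2 / 3 * ((M ∩ hv w t).card : ℝ) ≤
      - (1 / 12) * (TT G M w Y t : ℝ) - (1 / 4) * (La G M w Y t : ℝ)
      + (∑ X ∈ SS G w t, al G M w Y t X * bo G w t X) + 2 * (NS G M w Y t : ℝ) := by
  classical
  -- the sum over the special sets is nonnegative
  have hbo : ∀ X ∈ SS G w t, 0 ≤ al G M w Y t X * bo G w t X := by
    intro X hX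
    rw [mem_SS] at hX
    have h1 : ((lt w t ∩ G.cut X).card : ℝ) ≤ 1 := by exact_mod_cast hX.one
    unfold al bo
    split_ifs
    · rw [one_mul]; linarith
    · rw [zero_mul]
  have hnc : G.nc ((univ \ M) ∪ Y t) = (parts G M Y t).card := rfl
  by_cases hp : (parts G M Y t).card ≤ 1
  · -- at most one part
    have hone : ∀ u v, pt G M Y t u = pt G M Y t v := by
      intro u v
      exact card_le_one.mp hp _ (mem_image_of_mem _ (mem_univ _)) _
        (mem_image_of_mem _ (mem_univ _))
    have hLa : La G M w Y t = 0 := by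
      rw [La_eq, card_eq_zero, eq_empty_iff_forall_notMem]
      intro e he
      rw [mem_LaS] at he
      exact he.2 (cnt_gd_congr G M w Y t _ _ (hone _ _))
    have hrho : rho G M w Y t ≤ 0 := by
      unfold rho
      rw [hnc]
      have h1 : ((parts G M Y t).card : ℝ) ≤ 1 := by exact_mod_cast hp
      have h2 : (0 : ℝ) ≤ (((M ∩ lt w t) \ Y t).card : ℝ) := Nat.cast_nonneg _
      linarith
    have htot : TT G M w Y t ≤ 2 * (M ∩ hv w t).card := by
      rw [← G.sum_dg_univ (M ∩ hv w t)]
      unfold TT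
      exact sum_le_sum_of_subset (subset_univ _)
    have htotR : (TT G M w Y t : ℝ) ≤ 2 * ((M ∩ hv w t).card : ℝ) := by exact_mod_cast htot
    have h1 := sum_nonneg hbo
    have h2 : (0 : ℝ) ≤ (NS G M w Y t : ℝ) := Nat.cast_nonneg _
    have h4 : (0 : ℝ) ≤ ((M ∩ hv w t).card : ℝ) := Nat.cast_nonneg _
    rw [hLa]
    push_cast
    linarith
  · push Not at hp
    -- parts are not everything
    have hne : ∀ X ∈ parts G M Y t, X ≠ univ := by
      intro X hX hXu
      have h1 : ∀ Z ∈ parts G M Y t, Z = X := by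
        intro Z hZ
        unfold parts at hZ
        obtain ⟨u, _, rfl⟩ := mem_image.mp hZ
        exact (cnt_part_iff G M Y t X hX u).mp (by rw [hXu]; exact mem_univ _)
      have h2 : (parts G M Y t).card ≤ 1 := by
        rw [card_le_one]
        intro a ha b hb
        rw [h1 a ha, h1 b hb]
      omega
    set P := parts G M Y t with hP
    -- numbers of light and heavy boundary edges, heavy half-edges
    set l : Finset V → ℕ := fun X => ((M ∩ lt w t) ∩ G.cut X).card with hl
    set h : Finset V → ℕ := fun X => ((M ∩ hv w t) ∩ G.cut X).card with hh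
    set s : Finset V → ℕ := fun X => ∑ v ∈ X, G.dg (M ∩ hv w t) v with hs
    have hlh : ∀ X ∈ P, l X + h X = (G.cut X).card := by
      intro X hX
      rw [hl, hh]
      have h1 : Disjoint ((M ∩ lt w t) ∩ G.cut X) ((M ∩ hv w t) ∩ G.cut X) := by
        rw [disjoint_left]
        intro e he he'
        rw [mem_inter, mem_inter, mem_lt] at he
        rw [mem_inter, mem_inter, mem_hv] at he'
        omega
      show ((M ∩ lt w t) ∩ G.cut X).card + ((M ∩ hv w t) ∩ G.cut X).card = _
      rw [← card_union_of_disjoint h1]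
      congr 1
      ext e
      rw [mem_union, mem_inter, mem_inter, mem_inter, mem_inter, mem_lt, mem_hv]
      constructor
      · rintro (h2 | h2)
        · exact h2.2
        · exact h2.2
      · intro he
        have h2 := cnt_cut G M Y t X hX he
        rcases Nat.lt_or_ge t (w e) with h3 | h3
        · exact Or.inr ⟨⟨h2, h3⟩, he⟩
        · exact Or.inl ⟨⟨h2, h3⟩, he⟩
    have hl' : ∀ X ∈ P, l X = (lt w t ∩ G.cut X).card := by
      intro X hX
      show ((M ∩ lt w t) ∩ G.cut X).card = _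
      congr 1
      ext e
      rw [mem_inter, mem_inter, mem_inter]
      constructor
      · rintro ⟨⟨_, h2⟩, h3⟩
        exact ⟨h2, h3⟩
      · rintro ⟨h2, h3⟩
        exact ⟨⟨cnt_cut G M Y t X hX h3, h2⟩, h3⟩
    have hsX : ∀ X, s X =
        2 * ((M ∩ hv w t).filter (fun e => G.s e ∈ X ∧ G.t e ∈ X)).card + h X := fun X => by
      rw [hs, hh]
      exact G.sum_dg _ _
    have hsl : ∑ X ∈ P, l X ≤ 2 * ((M ∩ lt w t) \ Y t).card := by
      rw [hl, hP]
      rw [cnt_sum_parts]
      refine Nat.mul_le_mul_left 2 (card_le_card ?_)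
      intro e he
      rw [mem_filter] at he
      rw [mem_sdiff]
      exact ⟨he.1, fun h1 => he.2 (cnt_Y G M Y t e h1)⟩
    have hfib : ∀ X ∈ P, univ.filter (fun v => pt G M Y t v = X) = X := by
      intro X hX
      ext v
      rw [mem_filter, cnt_part_iff G M Y t X hX v]
      exact ⟨fun h1 => h1.2, fun h1 => ⟨mem_univ _, h1⟩⟩
    have hss : ∑ X ∈ P, s X = 2 * (M ∩ hv w t).card := by
      rw [← G.sum_dg_univ (M ∩ hv w t)]
      have h1 : ∀ v ∈ (univ : Finset V), pt G M Y t v ∈ P := fun v _ =>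
        mem_image_of_mem _ (mem_univ _)
      rw [← sum_fiberwise_of_maps_to h1 (fun v => G.dg (M ∩ hv w t) v)]
      refine sum_congr rfl fun X hX => ?_
      rw [hfib X hX]
    -- good and other parts
    set g : Finset V → Prop := fun X => Sm G X ∧ Closed G M w t X with hg
    have hgood : ∀ v, Gd G M w Y t v ↔ g (pt G M Y t v) := fun v => Iff.rfl
    have hTle : TT G M w Y t ≤ ∑ X ∈ P.filter (fun X => ¬ g X), s X := by
      have h1 : ∀ v ∈ NG G M w Y t, pt G M Y t v ∈ P.filter (fun X => ¬ g X) := by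
        intro v hv
        rw [mem_NG] at hv
        rw [mem_filter]
        exact ⟨mem_image_of_mem _ (mem_univ _), fun h2 => hv ((hgood v).mpr h2)⟩
      unfold TT
      rw [← sum_fiberwise_of_maps_to h1]
      refine sum_le_sum fun X hX => ?_
      rw [mem_filter] at hX
      refine sum_le_sum_of_subset ?_
      intro v hv
      rw [mem_filter] at hv
      exact (cnt_part_iff G M Y t X hX.1 v).mpr hv.2
    have hLale : La G M w Y t ≤ ∑ X ∈ P.filter (fun X => ¬ g X), l X := by
      rw [La_eq]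
      have h1 : LaS G M w Y t ⊆ (P.filter (fun X => ¬ g X)).biUnion
          (fun X => (M ∩ lt w t) ∩ G.cut X) := by
        intro e he
        rw [mem_LaS] at he
        rw [mem_biUnion]
        have key : ∀ v, v = G.s e ∨ v = G.t e → ¬ Gd G M w Y t v →
            ∃ a ∈ P.filter (fun X => ¬ g X), e ∈ (M ∩ lt w t) ∩ G.cut a := by
          intro v hv hng
          refine ⟨pt G M Y t v, ?_, ?_⟩
          · rw [mem_filter]
            exact ⟨mem_image_of_mem _ (mem_univ _), fun h2 => hng ((hgood v).mpr h2)⟩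
          · rw [mem_inter, mem_inter, mem_lt, MG.mem_cut, cnt_mem_iff, cnt_mem_iff]
            refine ⟨he.1, ?_⟩
            intro h2
            apply he.2
            rcases hv with rfl | rfl
            · exact cnt_gd_congr G M w Y t _ _ (h2.mp rfl).symm
            · exact cnt_gd_congr G M w Y t _ _ (h2.mpr rfl)
        by_cases h2 : Gd G M w Y t (G.s e)
        · exact key _ (Or.inr rfl) (fun h3 => he.2 ⟨fun _ => h3, fun _ => h2⟩)
        · exact key _ (Or.inl rfl) h2
      exact (card_le_card h1).trans card_biUnion_le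
    -- bonus of the good parts, bonus of the root part
    set bn : Finset V → ℝ := fun X => if (G.cut X).card = 5 ∧ l X ≤ 1 then bo G w t X else 0 with hbn
    set rt : Finset V → ℝ := fun X => if r ∈ X then 2 else 0 with hrt
    have hbn0 : ∀ X ∈ P, 0 ≤ bn X := by
      intro X hX
      rw [hbn]
      show 0 ≤ (if (G.cut X).card = 5 ∧ l X ≤ 1 then bo G w t X else 0)
      split_ifs with hc
      · unfold bo
        rw [← hl' X hX]
        have h1 : (l X : ℝ) ≤ 1 := by exact_mod_cast hc.2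
        linarith
      · exact le_refl _
    have hgoodb : ∀ X ∈ P.filter g, 2 - (l X : ℝ) / 2 - (s X : ℝ) / 3 ≤ bn X + rt X := by
      intro X hX
      rw [mem_filter] at hX
      have h0 := hbn0 X hX.1
      have hl0 : (0 : ℝ) ≤ (l X : ℝ) := Nat.cast_nonneg _
      have hs0 : (0 : ℝ) ≤ (s X : ℝ) := Nat.cast_nonneg _
      by_cases hr : r ∈ X
      · rw [hrt]
        show _ ≤ bn X + (if r ∈ X then 2 else 0)
        rw [if_pos hr]
        linarith
      · have hrX : rt X = 0 := if_neg hr
        rw [hrX, add_zero]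
        have hXv : ∃ v, X = pt G M Y t v := by
          have h2 := hX.1
          rw [hP] at h2
          unfold parts at h2
          obtain ⟨v, _, hv⟩ := mem_image.mp h2
          exact ⟨v, hv.symm⟩
        obtain ⟨v, hXv⟩ := hXv
        have h1 : 4 ≤ (G.cut X).card := by
          refine cnt_four_le G hG M hM X ?_ (hne X hX.1) (cnt_cut G M Y t X hX.1)
          rw [hXv]
          exact ⟨v, cnt_self G M Y t v⟩
        have h2 := hlh X hX.1
        have h2R : (l X : ℝ) + (h X : ℝ) = ((G.cut X).card : ℝ) := by exact_mod_cast h2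
        have hsh : h X ≤ s X := by
          rw [hsX X]
          exact Nat.le_add_left _ _
        have hshR : (h X : ℝ) ≤ (s X : ℝ) := by exact_mod_cast hsh
        rw [hbn]
        show _ ≤ (if (G.cut X).card = 5 ∧ l X ≤ 1 then bo G w t X else 0)
        split_ifs with hc
        · unfold bo
          rw [← hl' X hX.1]
          rw [hc.1] at h2R
          push_cast at h2R
          linarith
        · rcases Nat.lt_or_ge 5 (G.cut X).card with h3 | h3
          · have h3R : (6 : ℝ) ≤ ((G.cut X).card : ℝ) := by exact_mod_cast h3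
            linarith
          · rcases Nat.lt_or_ge 4 (G.cut X).card with h5 | h5
            · have h6 : (G.cut X).card = 5 := le_antisymm h3 h5
              have h7 : 2 ≤ l X := by
                by_contra h7
                exact hc ⟨h6, by omega⟩
              have h7R : (2 : ℝ) ≤ (l X : ℝ) := by exact_mod_cast h7
              rw [h6] at h2R
              push_cast at h2R
              linarith
            · have h6 : (G.cut X).card = 4 := le_antisymm h5 h1
              have h7 : ∃ e ∈ M, t < w e ∧ G.s e ∈ X ∧ G.t e ∈ X := by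
                rw [hXv] at h6 hr ⊢
                exact h4 v ((hgood v).mpr (hXv ▸ hX.2)) hr h6
              obtain ⟨e, heM, hew, hes, het⟩ := h7
              have h8 : 1 ≤ ((M ∩ hv w t).filter (fun e => G.s e ∈ X ∧ G.t e ∈ X)).card := by
                refine card_pos.mpr ⟨e, ?_⟩
                rw [mem_filter, mem_inter, mem_hv]
                exact ⟨⟨heM, hew⟩, hes, het⟩
              have h9 : h X + 2 ≤ s X := by
                rw [hsX X]
                omega
              have h9R : (h X : ℝ) + 2 ≤ (s X : ℝ) := by exact_mod_cast h9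
              rw [h6] at h2R
              push_cast at h2R
              linarith
    have hbadb : ∀ X ∈ P.filter (fun X => ¬ g X), 2 - (l X : ℝ) / 2 - (s X : ℝ) / 3 ≤
        - (1 / 4) * (l X : ℝ) - (1 / 12) * (s X : ℝ)
          + 2 * (if Sm G X ∧ ¬ Closed G M w t X then 1 else 0) := by
      intro X hX
      rw [mem_filter] at hX
      have h2 := hlh X hX.1
      have h2R : (l X : ℝ) + (h X : ℝ) = ((G.cut X).card : ℝ) := by exact_mod_cast h2
      have hsh : h X ≤ s X := by
        rw [hsX X]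
        exact Nat.le_add_left _ _
      have hshR : (h X : ℝ) ≤ (s X : ℝ) := by exact_mod_cast hsh
      by_cases hsm : Sm G X
      · have h3 : Sm G X ∧ ¬ Closed G M w t X := ⟨hsm, fun h4 => hX.2 ⟨hsm, h4⟩⟩
        rw [if_pos h3]
        have h4 : (0 : ℝ) ≤ (l X : ℝ) := Nat.cast_nonneg _
        have h5 : (0 : ℝ) ≤ (s X : ℝ) := Nat.cast_nonneg _
        linarith
      · rw [if_neg (fun h3 => hsm h3.1)]
        have h3 : 8 ≤ (G.cut X).card := by
          by_contra h4
          exact hsm ⟨by omega, hne X hX.1⟩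
        have h3R : (8 : ℝ) ≤ ((G.cut X).card : ℝ) := by exact_mod_cast h3
        linarith
    have hNS : ∑ X ∈ P.filter (fun X => ¬ g X),
        (if Sm G X ∧ ¬ Closed G M w t X then (1 : ℝ) else 0) = (NS G M w Y t : ℝ) := by
      rw [sum_boole, filter_filter]
      unfold NS
      congr 2
      ext X
      rw [mem_filter, mem_filter]
      constructor
      · rintro ⟨h1, _, h2⟩
        exact ⟨h1, h2⟩
      · rintro ⟨h1, h2⟩
        exact ⟨h1, fun h3 => h2.2 h3.2, h2⟩
    have hbns : ∑ X ∈ P.filter g, bn X ≤ ∑ X ∈ SS G w t, al G M w Y t X * bo G w t X := by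
      rw [hbn]
      rw [← sum_filter]
      have h1 : ∀ X ∈ (P.filter g).filter (fun X => (G.cut X).card = 5 ∧ l X ≤ 1),
          bo G w t X = al G M w Y t X * bo G w t X := by
        intro X hX
        rw [mem_filter, mem_filter] at hX
        have h2 : ∀ v ∈ X, Gd G M w Y t v := by
          intro v hv
          rw [hgood, (cnt_part_iff G M Y t X hX.1.1 v).mp hv]
          exact hX.1.2
        unfold al
        rw [if_pos h2, one_mul]
      rw [sum_congr rfl h1]
      refine sum_le_sum_of_subset_of_nonneg ?_ (fun X hX _ => hbo X hX)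
      intro X hX
      rw [mem_filter, mem_filter] at hX
      rw [mem_SS]
      have h2 := hl' X hX.1.1
      have h3 := hX.1.1
      rw [hP] at h3
      unfold parts at h3
      obtain ⟨v, _, rfl⟩ := mem_image.mp h3
      exact cnt_spl_pt G hG M hM w Y hY t v ((hgood v).mpr hX.1.2) hX.2.1 (h2 ▸ hX.2.2)
    have hrts : ∑ X ∈ P.filter g, rt X ≤ 2 := by
      have h1 : ∑ X ∈ P.filter g, rt X = 2 * (((P.filter g).filter (fun X => r ∈ X)).card : ℝ) := by
        rw [hrt, ← sum_filter, sum_const, nsmul_eq_mul, mul_comm]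
      have h2 : ((P.filter g).filter (fun X => r ∈ X)).card ≤ 1 := by
        rw [card_le_one]
        intro a ha b hb
        rw [mem_filter, mem_filter] at ha hb
        rw [← (cnt_part_iff G M Y t a ha.1.1 r).mp ha.2,
          ← (cnt_part_iff G M Y t b hb.1.1 r).mp hb.2]
      have h2R : (((P.filter g).filter (fun X => r ∈ X)).card : ℝ) ≤ 1 := by exact_mod_cast h2
      rw [h1]
      linarith
    -- summation
    have hsum1 : ∑ X ∈ P, (2 - (l X : ℝ) / 2 - (s X : ℝ) / 3) =
        2 * (P.card : ℝ) - (1 / 2) * ((∑ X ∈ P, l X : ℕ) : ℝ) -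
          (1 / 3) * ((∑ X ∈ P, s X : ℕ) : ℝ) := by
      push_cast
      rw [sum_sub_distrib, sum_sub_distrib, sum_const, nsmul_eq_mul, mul_sum, mul_sum]
      have e1 : ∀ X ∈ P, (l X : ℝ) / 2 = 1 / 2 * (l X : ℝ) := fun X _ => by ring
      have e2 : ∀ X ∈ P, (s X : ℝ) / 3 = 1 / 3 * (s X : ℝ) := fun X _ => by ring
      rw [sum_congr rfl e1, sum_congr rfl e2]
      ring
    have hsplit : ∑ X ∈ P, (2 - (l X : ℝ) / 2 - (s X : ℝ) / 3) =
        ∑ X ∈ P.filter g, (2 - (l X : ℝ) / 2 - (s X : ℝ) / 3) +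
          ∑ X ∈ P.filter (fun X => ¬ g X), (2 - (l X : ℝ) / 2 - (s X : ℝ) / 3) :=
      (sum_filter_add_sum_filter_not P g _).symm
    have hsum3 := sum_le_sum hgoodb
    have hsum4 := sum_le_sum hbadb
    rw [sum_add_distrib] at hsum3
    have e4 : ∑ X ∈ P.filter (fun X => ¬ g X), (- (1 / 4) * (l X : ℝ) - (1 / 12) * (s X : ℝ)
          + 2 * (if Sm G X ∧ ¬ Closed G M w t X then (1 : ℝ) else 0)) =
        - (1 / 4) * ∑ X ∈ P.filter (fun X => ¬ g X), (l X : ℝ) -
          (1 / 12) * ∑ X ∈ P.filter (fun X => ¬ g X), (s X : ℝ) + 2 * (NS G M w Y t : ℝ) := by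
      rw [sum_add_distrib, sum_sub_distrib, ← mul_sum, ← mul_sum, ← mul_sum, hNS]
    rw [e4] at hsum4
    have hslR : ((∑ X ∈ P, l X : ℕ) : ℝ) ≤ 2 * (((M ∩ lt w t) \ Y t).card : ℝ) := by
      exact_mod_cast hsl
    have hssR : ((∑ X ∈ P, s X : ℕ) : ℝ) = 2 * ((M ∩ hv w t).card : ℝ) := by
      exact_mod_cast hss
    have hTleR : (TT G M w Y t : ℝ) ≤ ∑ X ∈ P.filter (fun X => ¬ g X), (s X : ℝ) := by
      exact_mod_cast hTle
    have hLaR : (La G M w Y t : ℝ) ≤ ∑ X ∈ P.filter (fun X => ¬ g X), (l X : ℝ) := by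
      exact_mod_cast hLale
    unfold rho
    rw [hnc]
    linarith

/-- expectations: from the count for one matching to the count for a law -/
theorem count_of_star (G : MG V E) (hG : C3 G) (μ : Finset E → ℝ) (hμ : Law G μ) (w : E → ℕ)
    (Y : Finset E → ℕ → Finset E) (t : ℕ)
    (hst : ∀ M, μ M ≠ 0 → rho G M w (Y M) t - 2 / 3 * ((M ∩ hv w t).card : ℝ) ≤
      - (1 / 12) * (TT G M w (Y M) t : ℝ) - (1 / 4) * (La G M w (Y M) t : ℝ)
      + (∑ X ∈ SS G w t, al G M w (Y M) t X * bo G w t X) + 2 * (NS G M w (Y M) t : ℝ)) :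
    ∑ M, μ M * (rho G M w (Y M) t - 2 / 3 * ((M ∩ hv w t).card : ℝ)) ≤
      - (1 / 60) * (∑ M, μ M * ((NN G M w (Y M) t : ℝ) + (La G M w (Y M) t : ℝ)))
      + 2 * ∑ M, μ M * (NS G M w (Y M) t : ℝ) := by
  have h1 : ∑ M, μ M * (rho G M w (Y M) t - 2 / 3 * ((M ∩ hv w t).card : ℝ)) ≤
      ∑ M, μ M * ((- (1 / 12) * (TT G M w (Y M) t : ℝ) - (1 / 4) * (La G M w (Y M) t : ℝ)
      + 2 * (NS G M w (Y M) t : ℝ)) + (∑ X ∈ SS G w t, al G M w (Y M) t X * bo G w t X)) := by
    refine sum_le_sum fun M _ => ?_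
    by_cases h : μ M = 0
    · rw [h, zero_mul, zero_mul]
    · refine mul_le_mul_of_nonneg_left ?_ (hμ.nonneg M)
      have := hst M h
      linarith
  have h2 : ∑ M, μ M * (∑ X ∈ SS G w t, al G M w (Y M) t X * bo G w t X) ≤
      ∑ M, μ M * ((1 / 15) * (TT G M w (Y M) t : ℝ) + (1 / 6) * (La G M w (Y M) t : ℝ)) := by
    have e1 : ∑ M, μ M * (∑ X ∈ SS G w t, al G M w (Y M) t X * bo G w t X) =
        ∑ X ∈ SS G w t, ∑ M, μ M * (al G M w (Y M) t X * bo G w t X) := by
      rw [sum_comm]
      exact sum_congr rfl fun M _ => by rw [mul_sum]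
    have e2 : ∑ X ∈ SS G w t, ∑ M, μ M *
        ((1 / 15) * (tX G M w (Y M) t X : ℝ) + (1 / 3) * pa G M w (Y M) t X) =
        ∑ M, μ M * ((1 / 15) * ((∑ X ∈ SS G w t, tX G M w (Y M) t X : ℕ) : ℝ) +
          (1 / 3) * ∑ X ∈ SS G w t, pa G M w (Y M) t X) := by
      rw [sum_comm]
      refine sum_congr rfl fun M _ => ?_
      rw [← mul_sum, sum_add_distrib, ← mul_sum, ← mul_sum]
      push_cast
      rfl
    rw [e1]
    refine (sum_le_sum fun X hX => cnt_one G hG μ hμ w Y t X ((mem_SS G w t X).mp hX)).trans ?_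
    rw [e2]
    refine sum_le_sum fun M _ => mul_le_mul_of_nonneg_left ?_ (hμ.nonneg M)
    have h3 := cnt_sum_pa G M w (Y M) t
    have h4 : ((∑ X ∈ SS G w t, tX G M w (Y M) t X : ℕ) : ℝ) ≤ (TT G M w (Y M) t : ℝ) := by
      exact_mod_cast cnt_sum_tX G M w (Y M) t
    linarith
  have h3 : ∑ M, μ M * ((- (1 / 12) * (TT G M w (Y M) t : ℝ) - (1 / 4) * (La G M w (Y M) t : ℝ)
      + 2 * (NS G M w (Y M) t : ℝ)) + (∑ X ∈ SS G w t, al G M w (Y M) t X * bo G w t X)) =
      ∑ M, μ M * (- (1 / 12) * (TT G M w (Y M) t : ℝ) - (1 / 4) * (La G M w (Y M) t : ℝ)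
      + 2 * (NS G M w (Y M) t : ℝ)) +
      ∑ M, μ M * (∑ X ∈ SS G w t, al G M w (Y M) t X * bo G w t X) := by
    rw [← sum_add_distrib]
    exact sum_congr rfl fun M _ => by ring
  rw [h3] at h1
  have h4 : ∑ M, μ M * (- (1 / 12) * (TT G M w (Y M) t : ℝ) - (1 / 4) * (La G M w (Y M) t : ℝ)
      + 2 * (NS G M w (Y M) t : ℝ)) +
      ∑ M, μ M * ((1 / 15) * (TT G M w (Y M) t : ℝ) + (1 / 6) * (La G M w (Y M) t : ℝ)) ≤
      ∑ M, (- (1 / 60) * (μ M * ((NN G M w (Y M) t : ℝ) + (La G M w (Y M) t : ℝ))) +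
        2 * (μ M * (NS G M w (Y M) t : ℝ))) := by
    rw [← sum_add_distrib]
    refine sum_le_sum fun M _ => ?_
    have h5 : (NN G M w (Y M) t : ℝ) ≤ (TT G M w (Y M) t : ℝ) := by
      exact_mod_cast cnt_NN_le G M w (Y M) t
    have h6 : (0 : ℝ) ≤ (La G M w (Y M) t : ℝ) := Nat.cast_nonneg _
    have h7 := hμ.nonneg M
    have h8 : μ M * ((- (1 / 12) * (TT G M w (Y M) t : ℝ) - (1 / 4) * (La G M w (Y M) t : ℝ)
      + 2 * (NS G M w (Y M) t : ℝ)) +
      ((1 / 15) * (TT G M w (Y M) t : ℝ) + (1 / 6) * (La G M w (Y M) t : ℝ))) ≤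
      μ M * (- (1 / 60) * ((NN G M w (Y M) t : ℝ) + (La G M w (Y M) t : ℝ)) +
        2 * (NS G M w (Y M) t : ℝ)) := by
      refine mul_le_mul_of_nonneg_left ?_ h7
      linarith
    linarith
  rw [sum_add_distrib, ← mul_sum, ← mul_sum] at h4
  linarith

/-- BLOCK Count, 4-cuts: every good part with four boundary edges contains an inner heavy edge of
the matching or the root -/
theorem count4 (G : MG V E) (hG : C3 G) (μ : Finset E → ℝ) (hμ : Law G μ) (w : E → ℕ)
    (Y : Finset E → ℕ → Finset E) (t : ℕ) (r : V)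
    (h4 : ∀ M, μ M ≠ 0 → ∀ v, Gd G M w (Y M) t v → r ∉ pt G M (Y M) t v →
      (G.cut (pt G M (Y M) t v)).card = 4 →
      ∃ e ∈ M, t < w e ∧ G.s e ∈ pt G M (Y M) t v ∧ G.t e ∈ pt G M (Y M) t v)
    (hY : ∀ M, μ M ≠ 0 → Cl G M w (Y M)) :
    ∑ M, μ M * (rho G M w (Y M) t - 2 / 3 * ((M ∩ hv w t).card : ℝ)) ≤
      - (1 / 60) * (∑ M, μ M * ((NN G M w (Y M) t : ℝ) + (La G M w (Y M) t : ℝ)))
      + 2 * ∑ M, μ M * (NS G M w (Y M) t : ℝ) :=
  count_of_star G hG μ hμ w Y t (fun M h =>
    cnt_star4 G hG M (hμ.supp M h) w (Y M) (hY M h) t r (h4 M h))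

end Pool.Agent.Lib.MP_95e9b3_coG
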