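import Pool.Agent.Lib.MP_95e9b3_coG.Defs
import Pool.Agent.Lib.MP_95e9b3_coC.Rank

/-!
# Route G, block Count, part A: parts, special sets

A vertex set `X` is special (level `t`) if its cut has 5 edges, at most one of them light, and every
proper nonempty subset `S` of `X` has at least two light edges to `X \ S`. Special sets do not
depend on the matching and are pairwise disjoint. Good parts with 5 boundary edges, at most one of
them light, are special.
-/

set_option autoImplicit false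

namespace Pool.Agent.Lib.MP_95e9b3_coG

open Finset Pool.Agent.Lib.MP_95e9b3_coC

variable {V E : Type} [Fintype V] [DecidableEq V] [Fintype E] [DecidableEq E]

theorem cnt_self (G : MG V E) (M : Finset E) (Y : ℕ → Finset E) (t : ℕ) (v : V) :
    v ∈ pt G M Y t v := by
  unfold pt
  rw [MG.mem_cv]
  exact G.Rch_refl _ _

theorem cnt_mem_iff (G : MG V E) (M : Finset E) (Y : ℕ → Finset E) (t : ℕ) (u v : V) :
    u ∈ pt G M Y t v ↔ pt G M Y t u = pt G M Y t v := by
  unfold pt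
  rw [MG.mem_cv, MG.cv_eq]
  exact ⟨fun h => G.Rch_symm _ _ _ h, fun h => G.Rch_symm _ _ _ h⟩

theorem cnt_part_iff (G : MG V E) (M : Finset E) (Y : ℕ → Finset E) (t : ℕ) (X : Finset V)
    (hX : X ∈ parts G M Y t) (u : V) : u ∈ X ↔ pt G M Y t u = X := by
  unfold parts at hX
  obtain ⟨v, _, rfl⟩ := mem_image.mp hX
  exact cnt_mem_iff G M Y t u v

theorem cnt_F (G : MG V E) (M : Finset E) (Y : ℕ → Finset E) (t : ℕ) (e : E) (he : e ∉ M) :
    pt G M Y t (G.s e) = pt G M Y t (G.t e) := by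
  unfold pt
  rw [MG.cv_eq]
  exact G.Rch_edge _ e (mem_union_left _ (mem_sdiff.mpr ⟨mem_univ _, he⟩))

theorem cnt_Y (G : MG V E) (M : Finset E) (Y : ℕ → Finset E) (t : ℕ) (e : E) (he : e ∈ Y t) :
    pt G M Y t (G.s e) = pt G M Y t (G.t e) := by
  unfold pt
  rw [MG.cv_eq]
  exact G.Rch_edge _ e (mem_union_right _ he)

theorem cnt_cut (G : MG V E) (M : Finset E) (Y : ℕ → Finset E) (t : ℕ) (X : Finset V)
    (hX : X ∈ parts G M Y t) : G.cut X ⊆ M := by
  intro e he
  by_contra h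
  have h1 := cnt_F G M Y t e h
  rw [MG.mem_cut, cnt_part_iff G M Y t X hX, cnt_part_iff G M Y t X hX, h1] at he
  exact he Iff.rfl

theorem cnt_gd_congr (G : MG V E) (M : Finset E) (w : E → ℕ) (Y : ℕ → Finset E) (t : ℕ) (u v : V)
    (h : pt G M Y t u = pt G M Y t v) : Gd G M w Y t u ↔ Gd G M w Y t v := by
  unfold Gd
  rw [h]

theorem cnt_F_gd (G : MG V E) (M : Finset E) (w : E → ℕ) (Y : ℕ → Finset E) (t : ℕ) (e : E)
    (he : e ∉ M) : Gd G M w Y t (G.s e) ↔ Gd G M w Y t (G.t e) :=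
  cnt_gd_congr G M w Y t _ _ (cnt_F G M Y t e he)

/-- heavy edges at good vertices are in `M` -/
theorem cnt_heavy (G : MG V E) (M : Finset E) (w : E → ℕ) (Y : ℕ → Finset E) (t : ℕ) (e : E)
    (he : t < w e) (h : Gd G M w Y t (G.s e) ∨ Gd G M w Y t (G.t e)) : e ∈ M := by
  by_contra hM
  have h1 := cnt_F_gd G M w Y t e hM
  have h2 : Gd G M w Y t (G.s e) := by tauto
  have h3 := h2.2 e hM (cnt_self G M Y t _)
  omega

theorem cnt_degF (G : MG V E) (hG : C3 G) (M : Finset E) (hM : PM G M) (v : V) :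
    G.dg (univ \ M) v = 2 := by
  have h1 := G.dg_sdiff M univ (subset_univ _) v
  have h2 := hG.deg v
  have h3 := hM.deg v
  omega

theorem cnt_EvF (G : MG V E) (hG : C3 G) (M : Finset E) (hM : PM G M) : G.Ev (univ \ M) := by
  intro v
  rw [cnt_degF G hG M hM v]
  exact ⟨1, rfl⟩

/-- light edges inside `X` leaving `S` -/
def inn (G : MG V E) (w : E → ℕ) (t : ℕ) (X S : Finset V) : Finset E :=
  univ.filter (fun e => w e ≤ t ∧ G.s e ∈ X ∧ G.t e ∈ X ∧ ¬ (G.s e ∈ S ↔ G.t e ∈ S))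

theorem mem_inn (G : MG V E) (w : E → ℕ) (t : ℕ) (X S : Finset V) (e : E) :
    e ∈ inn G w t X S ↔ w e ≤ t ∧ G.s e ∈ X ∧ G.t e ∈ X ∧ ¬ (G.s e ∈ S ↔ G.t e ∈ S) := by
  unfold inn
  rw [mem_filter]
  exact ⟨fun h => h.2, fun h => ⟨mem_univ _, h⟩⟩

theorem mem_lt (w : E → ℕ) (t : ℕ) (e : E) : e ∈ lt w t ↔ w e ≤ t := by
  unfold lt
  rw [mem_filter]
  exact ⟨fun h => h.2, fun h => ⟨mem_univ _, h⟩⟩

theorem mem_hv (w : E → ℕ) (t : ℕ) (e : E) : e ∈ hv w t ↔ t < w e := by
  unfold hv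
  rw [mem_filter]
  exact ⟨fun h => h.2, fun h => ⟨mem_univ _, h⟩⟩

/-- special sets -/
structure Spl (G : MG V E) (w : E → ℕ) (t : ℕ) (X : Finset V) : Prop where
  ne : X.Nonempty
  five : (G.cut X).card = 5
  one : (lt w t ∩ G.cut X).card ≤ 1
  two : ∀ S ⊆ X, S.Nonempty → S ≠ X → 2 ≤ (inn G w t X S).card

theorem cnt_spl_sub (G : MG V E) (w : E → ℕ) (t : ℕ) (X X' : Finset V) (h : Spl G w t X)
    (h' : Spl G w t X') (hd : ¬ Disjoint X X') : X ⊆ X' := by
  by_contra hs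
  have hS : X ∩ X' ≠ X := fun h => hs (inter_eq_left.mp h)
  have hne : (X ∩ X').Nonempty := not_disjoint_iff_nonempty_inter.mp hd
  have h2 := h.two (X ∩ X') inter_subset_left hne hS
  have h3 : inn G w t X (X ∩ X') ⊆ lt w t ∩ G.cut X' := by
    intro e he
    rw [mem_inn, mem_inter, mem_inter] at he
    rw [mem_inter, mem_lt, MG.mem_cut]
    tauto
  have h4 := card_le_card h3
  have h5 := h'.one
  omega

theorem cnt_spl_disj (G : MG V E) (w : E → ℕ) (t : ℕ) (X X' : Finset V) (h : Spl G w t X)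
    (h' : Spl G w t X') (hne : X ≠ X') : Disjoint X X' := by
  by_contra hd
  exact hne (Subset.antisymm (cnt_spl_sub G w t X X' h h' hd)
    (cnt_spl_sub G w t X' X h' h (fun h1 => hd h1.symm)))

/-- good parts with 5 boundary edges, at most one of them light, are special -/
theorem cnt_spl_pt (G : MG V E) (hG : C3 G) (M : Finset E) (hM : PM G M) (w : E → ℕ)
    (Y : ℕ → Finset E) (hY : Cl G M w Y) (t : ℕ) (v : V) (hv : Gd G M w Y t v)
    (h5 : (G.cut (pt G M Y t v)).card = 5)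
    (h1 : (lt w t ∩ G.cut (pt G M Y t v)).card ≤ 1) : Spl G w t (pt G M Y t v) := by
  refine ⟨⟨v, cnt_self G M Y t v⟩, h5, h1, ?_⟩
  intro S hS hne hSX
  obtain ⟨a, ha⟩ := hne
  have hb : ∃ b ∈ pt G M Y t v, b ∉ S := by
    by_contra h
    push Not at h
    exact hSX (Subset.antisymm hS h)
  obtain ⟨b, hbX, hbS⟩ := hb
  have hboth : ∀ e, pt G M Y t (G.s e) = pt G M Y t (G.t e) → ¬ (G.s e ∈ S ↔ G.t e ∈ S) →
      G.s e ∈ pt G M Y t v ∧ G.t e ∈ pt G M Y t v := by
    intro e he h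
    rw [cnt_mem_iff, cnt_mem_iff]
    have h2 : G.s e ∈ S → pt G M Y t (G.s e) = pt G M Y t v := fun h =>
      (cnt_mem_iff G M Y t _ _).mp (hS h)
    have h3 : G.t e ∈ S → pt G M Y t (G.t e) = pt G M Y t v := fun h =>
      (cnt_mem_iff G M Y t _ _).mp (hS h)
    by_cases hs : G.s e ∈ S
    · exact ⟨h2 hs, he ▸ h2 hs⟩
    · have ht : G.t e ∈ S := by tauto
      exact ⟨he ▸ h3 ht, h3 ht⟩
  by_cases hF : (univ \ M) ∩ G.cut S = ∅
  · obtain ⟨S₁, hS1, S₂, hS2, hd, hR⟩ := hY.two t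
    have hab : G.Rch ((univ \ M) ∪ Y t) a b := by
      have h2 := (cnt_mem_iff G M Y t a v).mp (hS ha)
      have h3 := (cnt_mem_iff G M Y t b v).mp hbX
      have h4 := h2.trans h3.symm
      unfold pt at h4
      exact (G.cv_eq _ _ _).mp h4
    obtain ⟨hR1, hR2⟩ := hR a b hab
    have key : ∀ Q : Finset E, Q ⊆ Y t → G.Rch ((univ \ M) ∪ Q) a b →
        ∃ e ∈ Q, e ∈ inn G w t (pt G M Y t v) S := by
      intro Q hQ hRQ
      by_contra hcon
      push Not at hcon
      apply hbS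
      refine G.closed_Rch _ S ?_ a b ha hRQ
      rw [eq_empty_iff_forall_notMem]
      intro e he
      rw [mem_inter, mem_union] at he
      rcases he.1 with h2 | h2
      · have h3 : e ∈ (univ \ M) ∩ G.cut S := mem_inter.mpr ⟨h2, he.2⟩
        rw [hF] at h3
        exact notMem_empty _ h3
      · have h3 := he.2
        rw [MG.mem_cut] at h3
        have h4 := hboth e (cnt_Y G M Y t e (hQ h2)) h3
        apply hcon e h2
        rw [mem_inn]
        exact ⟨(mem_lt w t e).mp (mem_inter.mp (hY.sub t (hQ h2))).2, h4.1, h4.2, h3⟩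
    obtain ⟨e1, he1, hi1⟩ := key S₁ hS1 hR1
    obtain ⟨e2, he2, hi2⟩ := key S₂ hS2 hR2
    have hne : e1 ≠ e2 := by
      rintro rfl
      exact disjoint_left.mp hd he1 he2
    have h2 : ({e1, e2} : Finset E) ⊆ inn G w t (pt G M Y t v) S := by
      intro e he
      rw [mem_insert, mem_singleton] at he
      rcases he with rfl | rfl
      · exact hi1
      · exact hi2
    have h3 := card_le_card h2
    rw [card_pair hne] at h3
    exact h3
  · have hev := G.Ev_cut _ (cnt_EvF G hG M hM) S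
    have hpos : 0 < ((univ \ M) ∩ G.cut S).card := card_pos.mpr (nonempty_iff_ne_empty.mpr hF)
    have h2 : (univ \ M) ∩ G.cut S ⊆ inn G w t (pt G M Y t v) S := by
      intro e he
      rw [mem_inter, mem_sdiff, MG.mem_cut] at he
      have h4 := hboth e (cnt_F G M Y t e he.1.2) he.2
      rw [mem_inn]
      exact ⟨hv.2 e he.1.2 h4.1, h4.1, h4.2, he.2⟩
    have h3 := card_le_card h2
    obtain ⟨k, hk⟩ := hev
    omega

/-- a special set all of whose vertices are good has its cut in `M` -/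
theorem cnt_spl_all (G : MG V E) (hG : C3 G) (M : Finset E) (hM : PM G M) (w : E → ℕ)
    (Y : ℕ → Finset E) (t : ℕ) (X : Finset V) (hX : Spl G w t X)
    (hg : ∀ v ∈ X, Gd G M w Y t v) : G.cut X ⊆ M := by
  have hev := G.Ev_cut _ (cnt_EvF G hG M hM) X
  have h1 : (univ \ M) ∩ G.cut X ⊆ lt w t ∩ G.cut X := by
    intro e he
    rw [mem_inter, mem_sdiff] at he
    rw [mem_inter, mem_lt]
    refine ⟨?_, he.2⟩
    by_contra hw
    apply he.1.2
    refine cnt_heavy G M w Y t e (not_le.mp hw) ?_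
    have h2 := he.2
    rw [MG.mem_cut] at h2
    by_cases hs : G.s e ∈ X
    · exact Or.inl (hg _ hs)
    · exact Or.inr (hg _ (by tauto))
  have h2 := card_le_card h1
  have h3 := hX.one
  have h4 : ((univ \ M) ∩ G.cut X).card = 0 := by
    obtain ⟨k, hk⟩ := hev
    omega
  intro e he
  by_contra hM'
  have h5 : e ∈ (univ \ M) ∩ G.cut X :=
    mem_inter.mpr ⟨mem_sdiff.mpr ⟨mem_univ _, hM'⟩, he⟩
  rw [card_eq_zero.mp h4] at h5
  exact notMem_empty _ h5

open Classical in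
/-- light edges of `M` with exactly one good end -/
noncomputable def LaS (G : MG V E) (M : Finset E) (w : E → ℕ) (Y : ℕ → Finset E) (t : ℕ) :
    Finset E :=
  (M ∩ lt w t).filter (fun e => ¬ (Gd G M w Y t (G.s e) ↔ Gd G M w Y t (G.t e)))

theorem La_eq (G : MG V E) (M : Finset E) (w : E → ℕ) (Y : ℕ → Finset E) (t : ℕ) :
    La G M w Y t = (LaS G M w Y t).card := rfl

theorem mem_LaS (G : MG V E) (M : Finset E) (w : E → ℕ) (Y : ℕ → Finset E) (t : ℕ) (e : E) :
    e ∈ LaS G M w Y t ↔ (e ∈ M ∧ w e ≤ t) ∧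
      ¬ (Gd G M w Y t (G.s e) ↔ Gd G M w Y t (G.t e)) := by
  classical
  unfold LaS
  rw [mem_filter, mem_inter, mem_lt]

/-- a special set with good and not good vertices contains two edges of `LaS` -/
theorem cnt_spl_part (G : MG V E) (M : Finset E) (w : E → ℕ)
    (Y : ℕ → Finset E) (t : ℕ) (X : Finset V) (hX : Spl G w t X)
    (h1 : ∃ v ∈ X, Gd G M w Y t v) (h2 : ¬ ∀ v ∈ X, Gd G M w Y t v) :
    2 ≤ ((LaS G M w Y t).filter (fun e => G.s e ∈ X ∧ G.t e ∈ X)).card := by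
  classical
  have h3 := hX.two (X.filter (fun v => Gd G M w Y t v)) (filter_subset _ _)
    (by obtain ⟨v, hv, hg⟩ := h1; exact ⟨v, mem_filter.mpr ⟨hv, hg⟩⟩)
    (by
      intro h
      apply h2
      intro v hv
      rw [← h] at hv
      exact (mem_filter.mp hv).2)
  refine h3.trans (card_le_card ?_)
  intro e he
  rw [mem_inn, mem_filter, mem_filter] at he
  rw [mem_filter, mem_LaS]
  have h4 : ¬ (Gd G M w Y t (G.s e) ↔ Gd G M w Y t (G.t e)) := by tauto
  refine ⟨⟨⟨?_, he.1⟩, h4⟩, he.2.1, he.2.2.1⟩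
  by_contra hM
  exact h4 (cnt_F_gd G M w Y t e hM)

end Pool.Agent.Lib.MP_95e9b3_coG
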