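import Pool.Agent.Lib.MP_95e9b3_coG.CountA

/-!
# Route G, block Count, part B: the inequality for one matching
-/

set_option autoImplicit false

namespace Pool.Agent.Lib.MP_95e9b3_coG

open Finset Pool.Agent.Lib.MP_95e9b3_coC

variable {V E : Type} [Fintype V] [DecidableEq V] [Fintype E] [DecidableEq E]

/-- double counting of the edges between different parts -/
theorem cnt_sum_parts (G : MG V E) (M : Finset E) (Y : ℕ → Finset E) (t : ℕ) (J : Finset E) :
    ∑ X ∈ parts G M Y t, (J ∩ G.cut X).card =
      2 * (J.filter (fun e => pt G M Y t (G.s e) ≠ pt G M Y t (G.t e))).card := by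
  have h1 : ∀ X, (J ∩ G.cut X).card = ∑ e ∈ J, if e ∈ G.cut X then 1 else 0 := by
    intro X
    rw [← filter_mem_eq_inter, card_filter]
  rw [sum_congr rfl fun X _ => h1 X, sum_comm, card_filter, mul_sum]
  refine sum_congr rfl fun e _ => ?_
  rw [← card_filter]
  by_cases h : pt G M Y t (G.s e) = pt G M Y t (G.t e)
  · rw [if_neg (fun h2 => h2 h), mul_zero, card_eq_zero, filter_eq_empty_iff]
    intro X hX hc
    rw [MG.mem_cut, cnt_part_iff G M Y t X hX, cnt_part_iff G M Y t X hX, h] at hc
    exact hc Iff.rfl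
  · rw [if_pos h, mul_one]
    have h2 : (parts G M Y t).filter (fun X => e ∈ G.cut X) =
        {pt G M Y t (G.s e), pt G M Y t (G.t e)} := by
      ext X
      rw [mem_filter, mem_insert, mem_singleton]
      constructor
      · rintro ⟨hX, hc⟩
        rw [MG.mem_cut, cnt_part_iff G M Y t X hX, cnt_part_iff G M Y t X hX] at hc
        by_cases h3 : pt G M Y t (G.s e) = X
        · exact Or.inl h3.symm
        · right
          by_contra h4
          exact hc ⟨fun h5 => absurd h5 h3, fun h5 => absurd h5.symm h4⟩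
      · intro hX
        have hXP : X ∈ parts G M Y t := by
          unfold parts
          rcases hX with rfl | rfl
          · exact mem_image_of_mem _ (mem_univ _)
          · exact mem_image_of_mem _ (mem_univ _)
        refine ⟨hXP, ?_⟩
        rw [MG.mem_cut, cnt_part_iff G M Y t X hXP, cnt_part_iff G M Y t X hXP]
        intro hc
        rcases hX with rfl | rfl
        · exact h (hc.mp rfl).symm
        · exact h (hc.mpr rfl)
    rw [h2, card_pair h]

open Classical in
/-- vertices which are not good -/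
noncomputable def NG (G : MG V E) (M : Finset E) (w : E → ℕ) (Y : ℕ → Finset E) (t : ℕ) :
    Finset V := univ.filter (fun v => ¬ Gd G M w Y t v)

theorem mem_NG (G : MG V E) (M : Finset E) (w : E → ℕ) (Y : ℕ → Finset E) (t : ℕ) (v : V) :
    v ∈ NG G M w Y t ↔ ¬ Gd G M w Y t v := by
  classical
  unfold NG
  rw [mem_filter]
  exact ⟨fun h => h.2, fun h => ⟨mem_univ _, h⟩⟩

/-- number of heavy half-edges of `M` at vertices which are not good -/
noncomputable def TT (G : MG V E) (M : Finset E) (w : E → ℕ) (Y : ℕ → Finset E) (t : ℕ) : ℕ :=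
  ∑ v ∈ NG G M w Y t, G.dg (M ∩ hv w t) v

open Classical in
/-- special sets -/
noncomputable def SS (G : MG V E) (w : E → ℕ) (t : ℕ) : Finset (Finset V) :=
  univ.filter (fun X => Spl G w t X)

theorem mem_SS (G : MG V E) (w : E → ℕ) (t : ℕ) (X : Finset V) : X ∈ SS G w t ↔ Spl G w t X := by
  classical
  unfold SS
  rw [mem_filter]
  exact ⟨fun h => h.2, fun h => ⟨mem_univ _, h⟩⟩

open Classical in
/-- indicator of: all vertices of `X` are good -/
noncomputable def al (G : MG V E) (M : Finset E) (w : E → ℕ) (Y : ℕ → Finset E) (t : ℕ)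
    (X : Finset V) : ℝ := if ∀ v ∈ X, Gd G M w Y t v then 1 else 0

/-- bonus of a special set -/
noncomputable def bo (G : MG V E) (w : E → ℕ) (t : ℕ) (X : Finset V) : ℝ :=
  (2 - ((lt w t ∩ G.cut X).card : ℝ)) / 6

/-- the count for one matching -/
theorem cnt_star (G : MG V E) (hG : C3 G) (M : Finset E) (hM : PM G M) (w : E → ℕ)
    (Y : ℕ → Finset E) (hY : Cl G M w Y) (t : ℕ)
    (h5 : ∀ v, Gd G M w Y t v → 5 ≤ (G.cut (pt G M Y t v)).card) :
    rho G M w Y t - 2 / 3 * ((M ∩ hv w t).card : ℝ) ≤
      - (1 / 12) * (TT G M w Y t : ℝ) - (1 / 4) * (La G M w Y t : ℝ)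
      + (∑ X ∈ SS G w t, al G M w Y t X * bo G w t X) + 2 * (NS G M w Y t : ℝ) := by
  classical
  -- the sum over the special sets is nonnegative
  have hbo : ∀ X ∈ SS G w t, 0 ≤ al G M w Y t X * bo G w t X := by
    intro X hX
    rw [mem_SS] at hX
    have h1 : ((lt w t ∩ G.cut X).card : ℝ) ≤ 1 := by exact_mod_cast hX.one
    unfold al bo
    split_ifs
    · rw [one_mul]; linarith
    · rw [zero_mul]
  -- total number of half-edges
  have htot : (∑ v ∈ univ.filter (fun v => Gd G M w Y t v), G.dg (M ∩ hv w t) v) +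
      TT G M w Y t = 2 * (M ∩ hv w t).card := by
    rw [← G.sum_dg_univ (M ∩ hv w t)]
    unfold TT NG
    exact sum_filter_add_sum_filter_not univ (fun v => Gd G M w Y t v) _
  set S : ℕ := ∑ v ∈ univ.filter (fun v => Gd G M w Y t v), G.dg (M ∩ hv w t) v with hS
  have htotR : (S : ℝ) + (TT G M w Y t : ℝ) = 2 * ((M ∩ hv w t).card : ℝ) := by
    exact_mod_cast htot
  have hnc : G.nc ((univ \ M) ∪ Y t) = (parts G M Y t).card := rfl
  by_cases hp : (parts G M Y t).card ≤ 1
  · -- at most one part
    have hone : ∀ u v, pt G M Y t u = pt G M Y t v := by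
      intro u v
      exact card_le_one.mp hp _ (mem_image_of_mem _ (mem_univ _)) _
        (mem_image_of_mem _ (mem_univ _))
    have hLa : La G M w Y t = 0 := by
      rw [La_eq, card_eq_zero, eq_empty_iff_forall_notMem]
      intro e he
      rw [mem_LaS] at he
      exact he.2 (cnt_gd_congr G M w Y t _ _ (hone _ _))
    have hrho : rho G M w Y t ≤ 0 := by
      unfold rho
      rw [hnc]
      have h1 : ((parts G M Y t).card : ℝ) ≤ 1 := by exact_mod_cast hp
      have h2 : (0 : ℝ) ≤ (((M ∩ lt w t) \ Y t).card : ℝ) := Nat.cast_nonneg _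
      linarith
    have h1 := sum_nonneg hbo
    have h2 : (0 : ℝ) ≤ (NS G M w Y t : ℝ) := Nat.cast_nonneg _
    have h3 : (0 : ℝ) ≤ (S : ℝ) := Nat.cast_nonneg _
    have h4 : (0 : ℝ) ≤ ((M ∩ hv w t).card : ℝ) := Nat.cast_nonneg _
    rw [hLa]
    push_cast
    linarith
  · push Not at hp
    -- parts are not everything
    have hne : ∀ X ∈ parts G M Y t, X ≠ univ := by
      intro X hX hXu
      have h1 : ∀ Z ∈ parts G M Y t, Z = X := by
        intro Z hZ
        unfold parts at hZ
        obtain ⟨u, _, rfl⟩ := mem_image.mp hZ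
        exact (cnt_part_iff G M Y t X hX u).mp (by rw [hXu]; exact mem_univ _)
      have h2 : (parts G M Y t).card ≤ 1 := by
        rw [card_le_one]
        intro a ha b hb
        rw [h1 a ha, h1 b hb]
      omega
    set P := parts G M Y t with hP
    -- numbers of light and heavy boundary edges
    set l : Finset V → ℕ := fun X => ((M ∩ lt w t) ∩ G.cut X).card with hl
    set h : Finset V → ℕ := fun X => ((M ∩ hv w t) ∩ G.cut X).card with hh
    have hlh : ∀ X ∈ P, l X + h X = (G.cut X).card := by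
      intro X hX
      rw [hl, hh]
      have h1 : Disjoint ((M ∩ lt w t) ∩ G.cut X) ((M ∩ hv w t) ∩ G.cut X) := by
        rw [disjoint_left]
        intro e he he'
        rw [mem_inter, mem_inter, mem_lt] at he
        rw [mem_inter, mem_inter, mem_hv] at he'
        omega
      show ((M ∩ lt w t) ∩ G.cut X).card + ((M ∩ hv w t) ∩ G.cut X).card = _
      rw [← card_union_of_disjoint h1]
      congr 1
      ext e
      rw [mem_union, mem_inter, mem_inter, mem_inter, mem_inter, mem_lt, mem_hv]
      constructor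
      · rintro (h2 | h2)
        · exact h2.2
        · exact h2.2
      · intro he
        have h2 := cnt_cut G M Y t X hX he
        rcases Nat.lt_or_ge t (w e) with h3 | h3
        · exact Or.inr ⟨⟨h2, h3⟩, he⟩
        · exact Or.inl ⟨⟨h2, h3⟩, he⟩
    have hl' : ∀ X ∈ P, l X = (lt w t ∩ G.cut X).card := by
      intro X hX
      show ((M ∩ lt w t) ∩ G.cut X).card = _
      congr 1
      ext e
      rw [mem_inter, mem_inter, mem_inter]
      constructor
      · rintro ⟨⟨_, h2⟩, h3⟩
        exact ⟨h2, h3⟩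
      · rintro ⟨h2, h3⟩
        exact ⟨⟨cnt_cut G M Y t X hX h3, h2⟩, h3⟩
    have hsl : ∑ X ∈ P, l X ≤ 2 * ((M ∩ lt w t) \ Y t).card := by
      rw [hl, hP]
      rw [cnt_sum_parts]
      refine Nat.mul_le_mul_left 2 (card_le_card ?_)
      intro e he
      rw [mem_filter] at he
      rw [mem_sdiff]
      exact ⟨he.1, fun h1 => he.2 (cnt_Y G M Y t e h1)⟩
    have hsh : ∑ X ∈ P, h X ≤ 2 * (M ∩ hv w t).card := by
      rw [hh, hP]
      rw [cnt_sum_parts]
      exact Nat.mul_le_mul_left 2 (card_le_card (filter_subset _ _))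
    -- good and other parts
    set g : Finset V → Prop := fun X => Sm G X ∧ Closed G M w t X with hg
    have hgood : ∀ v, Gd G M w Y t v ↔ g (pt G M Y t v) := fun v => Iff.rfl
    have hsplit : ∀ f : Finset V → ℝ, ∑ X ∈ P, f X =
        ∑ X ∈ P.filter g, f X + ∑ X ∈ P.filter (fun X => ¬ g X), f X := by
      intro f
      exact (sum_filter_add_sum_filter_not P g f).symm
    have hSle : ∑ X ∈ P.filter g, h X ≤ S := by
      rw [hS]
      have h1 : ∀ v ∈ univ.filter (fun v => Gd G M w Y t v), pt G M Y t v ∈ P.filter g := by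
        intro v hv
        rw [mem_filter] at hv ⊢
        exact ⟨mem_image_of_mem _ (mem_univ _), (hgood v).mp hv.2⟩
      rw [← sum_fiberwise_of_maps_to h1]
      refine sum_le_sum fun X hX => ?_
      rw [mem_filter] at hX
      have h2 : (univ.filter (fun v => Gd G M w Y t v)).filter (fun v => pt G M Y t v = X) = X := by
        ext v
        rw [mem_filter, mem_filter]
        constructor
        · rintro ⟨_, h3⟩
          exact (cnt_part_iff G M Y t X hX.1 v).mpr h3
        · intro h3
          have h4 := (cnt_part_iff G M Y t X hX.1 v).mp h3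
          refine ⟨⟨mem_univ _, ?_⟩, h4⟩
          rw [hgood, h4]
          exact hX.2
      rw [h2, G.sum_dg]
      exact Nat.le_add_left _ _
    have hLale : La G M w Y t ≤ ∑ X ∈ P.filter (fun X => ¬ g X), l X := by
      rw [La_eq]
      have h1 : LaS G M w Y t ⊆ (P.filter (fun X => ¬ g X)).biUnion
          (fun X => (M ∩ lt w t) ∩ G.cut X) := by
        intro e he
        rw [mem_LaS] at he
        rw [mem_biUnion]
        have key : ∀ v, v = G.s e ∨ v = G.t e → ¬ Gd G M w Y t v →
            ∃ a ∈ P.filter (fun X => ¬ g X), e ∈ (M ∩ lt w t) ∩ G.cut a := by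
          intro v hv hng
          refine ⟨pt G M Y t v, ?_, ?_⟩
          · rw [mem_filter]
            exact ⟨mem_image_of_mem _ (mem_univ _), fun h2 => hng ((hgood v).mpr h2)⟩
          · rw [mem_inter, mem_inter, mem_lt, MG.mem_cut, cnt_mem_iff, cnt_mem_iff]
            refine ⟨he.1, ?_⟩
            intro h2
            apply he.2
            rcases hv with rfl | rfl
            · exact cnt_gd_congr G M w Y t _ _ (h2.mp rfl).symm
            · exact cnt_gd_congr G M w Y t _ _ (h2.mpr rfl)
        by_cases h2 : Gd G M w Y t (G.s e)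
        · exact key _ (Or.inr rfl) (fun h3 => he.2 ⟨fun _ => h3, fun _ => h2⟩)
        · exact key _ (Or.inl rfl) h2
      exact (card_le_card h1).trans card_biUnion_le
    -- bonus of the good parts
    set bn : Finset V → ℝ := fun X => if (G.cut X).card = 5 ∧ l X ≤ 1 then bo G w t X else 0 with hbn
    have hgoodb : ∀ X ∈ P.filter g, 2 - (l X : ℝ) / 2 - (h X : ℝ) / 4 ≤ (h X : ℝ) / 12 + bn X := by
      intro X hX
      rw [mem_filter] at hX
      have h1 : 5 ≤ (G.cut X).card := by
        have h2 := hX.1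
        rw [hP] at h2
        unfold parts at h2
        obtain ⟨v, _, rfl⟩ := mem_image.mp h2
        exact h5 v ((hgood v).mpr hX.2)
      have h2 := hlh X hX.1
      have h2R : (l X : ℝ) + (h X : ℝ) = ((G.cut X).card : ℝ) := by exact_mod_cast h2
      have hl0 : (0 : ℝ) ≤ (l X : ℝ) := Nat.cast_nonneg _
      rw [hbn]
      show _ ≤ (h X : ℝ) / 12 + (if (G.cut X).card = 5 ∧ l X ≤ 1 then bo G w t X else 0)
      split_ifs with hc
      · unfold bo
        rw [← hl' X hX.1]
        rw [hc.1] at h2R
        push_cast at h2R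
        linarith
      · rcases Nat.lt_or_ge 5 (G.cut X).card with h3 | h3
        · have h3R : (6 : ℝ) ≤ ((G.cut X).card : ℝ) := by exact_mod_cast h3
          linarith
        · have h4 : (G.cut X).card = 5 := le_antisymm h3 h1
          have h6 : 2 ≤ l X := by
            by_contra h7
            exact hc ⟨h4, by omega⟩
          have h6R : (2 : ℝ) ≤ (l X : ℝ) := by exact_mod_cast h6
          rw [h4] at h2R
          push_cast at h2R
          linarith
    have hbadb : ∀ X ∈ P.filter (fun X => ¬ g X), 2 - (l X : ℝ) / 2 - (h X : ℝ) / 4 ≤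
        - (1 / 4) * (l X : ℝ) + 2 * (if Sm G X ∧ ¬ Closed G M w t X then 1 else 0) := by
      intro X hX
      rw [mem_filter] at hX
      have h2 := hlh X hX.1
      have h2R : (l X : ℝ) + (h X : ℝ) = ((G.cut X).card : ℝ) := by exact_mod_cast h2
      by_cases hs : Sm G X
      · have h3 : Sm G X ∧ ¬ Closed G M w t X := ⟨hs, fun h4 => hX.2 ⟨hs, h4⟩⟩
        rw [if_pos h3]
        have h4 : (0 : ℝ) ≤ ((G.cut X).card : ℝ) := Nat.cast_nonneg _
        linarith
      · rw [if_neg (fun h3 => hs h3.1)]
        have h3 : 8 ≤ (G.cut X).card := by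
          by_contra h4
          exact hs ⟨by omega, hne X hX.1⟩
        have h3R : (8 : ℝ) ≤ ((G.cut X).card : ℝ) := by exact_mod_cast h3
        linarith
    have hNS : ∑ X ∈ P.filter (fun X => ¬ g X),
        (if Sm G X ∧ ¬ Closed G M w t X then (1 : ℝ) else 0) = (NS G M w Y t : ℝ) := by
      rw [sum_boole, filter_filter]
      unfold NS
      congr 2
      ext X
      rw [mem_filter, mem_filter]
      constructor
      · rintro ⟨h1, _, h2⟩
        exact ⟨h1, h2⟩
      · rintro ⟨h1, h2⟩
        exact ⟨h1, fun h3 => h2.2 h3.2, h2⟩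
    have hbns : ∑ X ∈ P.filter g, bn X ≤ ∑ X ∈ SS G w t, al G M w Y t X * bo G w t X := by
      rw [hbn]
      rw [← sum_filter]
      have h1 : ∀ X ∈ (P.filter g).filter (fun X => (G.cut X).card = 5 ∧ l X ≤ 1),
          bo G w t X = al G M w Y t X * bo G w t X := by
        intro X hX
        rw [mem_filter, mem_filter] at hX
        have h2 : ∀ v ∈ X, Gd G M w Y t v := by
          intro v hv
          rw [hgood, (cnt_part_iff G M Y t X hX.1.1 v).mp hv]
          exact hX.1.2
        unfold al
        rw [if_pos h2, one_mul]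
      rw [sum_congr rfl h1]
      refine sum_le_sum_of_subset_of_nonneg ?_ (fun X hX _ => hbo X hX)
      intro X hX
      rw [mem_filter, mem_filter] at hX
      rw [mem_SS]
      have h2 := hl' X hX.1.1
      have h3 := hX.1.1
      rw [hP] at h3
      unfold parts at h3
      obtain ⟨v, _, rfl⟩ := mem_image.mp h3
      exact cnt_spl_pt G hG M hM w Y hY t v ((hgood v).mpr hX.1.2) hX.2.1 (h2 ▸ hX.2.2)
    -- summation
    have hsum1 : ∑ X ∈ P, (2 - (l X : ℝ) / 2 - (h X : ℝ) / 4) =
        2 * (P.card : ℝ) - (1 / 2) * ((∑ X ∈ P, l X : ℕ) : ℝ) -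
          (1 / 4) * ((∑ X ∈ P, h X : ℕ) : ℝ) := by
      push_cast
      rw [sum_sub_distrib, sum_sub_distrib, sum_const, nsmul_eq_mul, mul_sum, mul_sum]
      have e1 : ∀ X ∈ P, (l X : ℝ) / 2 = 1 / 2 * (l X : ℝ) := fun X _ => by ring
      have e2 : ∀ X ∈ P, (h X : ℝ) / 4 = 1 / 4 * (h X : ℝ) := fun X _ => by ring
      rw [sum_congr rfl e1, sum_congr rfl e2]
      ring
    have hsum2 := hsplit (fun X => 2 - (l X : ℝ) / 2 - (h X : ℝ) / 4)
    have hsum3 := sum_le_sum hgoodb
    have hsum4 := sum_le_sum hbadb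
    rw [sum_add_distrib, ← mul_sum, ← mul_sum, hNS] at hsum4
    have e3 : ∑ X ∈ P.filter g, ((h X : ℝ) / 12 + bn X) =
        (1 / 12) * ((∑ X ∈ P.filter g, h X : ℕ) : ℝ) + ∑ X ∈ P.filter g, bn X := by
      push_cast
      rw [sum_add_distrib, mul_sum]
      congr 1
      exact sum_congr rfl fun X _ => by ring
    rw [e3] at hsum3
    have hslR : ((∑ X ∈ P, l X : ℕ) : ℝ) ≤ 2 * (((M ∩ lt w t) \ Y t).card : ℝ) := by
      exact_mod_cast hsl
    have hshR : ((∑ X ∈ P, h X : ℕ) : ℝ) ≤ 2 * ((M ∩ hv w t).card : ℝ) := by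
      exact_mod_cast hsh
    have hSleR : ((∑ X ∈ P.filter g, h X : ℕ) : ℝ) ≤ (S : ℝ) := by exact_mod_cast hSle
    have hLaR : (La G M w Y t : ℝ) ≤ ∑ X ∈ P.filter (fun X => ¬ g X), (l X : ℝ) := by
      exact_mod_cast hLale
    unfold rho
    rw [hnc]
    linarith

end Pool.Agent.Lib.MP_95e9b3_coG
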