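import Pool.Agent.Lib.MP_95e9b3_coC.Final

/-!
# Route G: definitions

`G : MG V E` a multigraph, `w : E → ℕ` weights, `M` a perfect matching, `F = univ \ M`.
Levels `t : ℕ`: the edges with `w e ≤ t` are light, those with `t < w e` are heavy.
`Y : ℕ → Finset E`: cluster family of `M` (see `Cl`); the parts of level `t` are the vertex sets
of the components of `F ∪ Y t`.
-/

set_option autoImplicit false

namespace Pool.Agent.Lib.MP_95e9b3_coG

open Finset Pool.Agent.Lib.MP_95e9b3_coC

variable {V E : Type} [Fintype V] [DecidableEq V] [Fintype E] [DecidableEq E]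

/-- cubic, connected, every cut has at least 3 edges -/
structure C3 (G : MG V E) : Prop where
  deg : ∀ v, G.dg univ v = 3
  cut : ∀ U : Finset V, U.Nonempty → U ≠ univ → 3 ≤ (G.cut U).card

/-- every 4-cut has two edges with a common end -/
def N4 (G : MG V E) : Prop :=
  ∀ U : Finset V, (G.cut U).card = 4 → ∃ v, 2 ≤ G.dg (G.cut U) v

/-- perfect matchings with exactly one edge in every 3-cut -/
structure PM (G : MG V E) (M : Finset E) : Prop where
  deg : ∀ v, G.dg M v = 1
  three : ∀ U : Finset V, (G.cut U).card = 3 → (M ∩ G.cut U).card = 1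

/-- all cuts contained in `M` have at least 5 edges -/
def H5 (G : MG V E) (M : Finset E) : Prop :=
  ∀ U : Finset V, U.Nonempty → U ≠ univ → G.cut U ⊆ M → 5 ≤ (G.cut U).card

/-- probability laws on good perfect matchings with all marginals `1/3` -/
structure Law (G : MG V E) (μ : Finset E → ℝ) : Prop where
  nonneg : ∀ M, 0 ≤ μ M
  supp : ∀ M, μ M ≠ 0 → PM G M
  one : ∑ M, μ M = 1
  marg : ∀ e, ∑ M, (if e ∈ M then μ M else 0) = 1 / 3

/-- light edges of level `t` -/
def lt (w : E → ℕ) (t : ℕ) : Finset E := univ.filter (fun e => w e ≤ t)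

/-- heavy edges of level `t` -/
def hv (w : E → ℕ) (t : ℕ) : Finset E := univ.filter (fun e => t < w e)

/-- cluster families -/
structure Cl (G : MG V E) (M : Finset E) (w : E → ℕ) (Y : ℕ → Finset E) : Prop where
  sub : ∀ t, Y t ⊆ M ∩ lt w t
  mono : ∀ s t, s ≤ t → Y s ⊆ Y t
  sat : ∀ t, ∀ e ∈ M, w e ≤ t → G.Rch ((univ \ M) ∪ Y t) (G.s e) (G.t e) → e ∈ Y t
  two : ∀ t, ∃ S₁ ⊆ Y t, ∃ S₂ ⊆ Y t, Disjoint S₁ S₂ ∧
    ∀ a b, G.Rch ((univ \ M) ∪ Y t) a b →
      G.Rch ((univ \ M) ∪ S₁) a b ∧ G.Rch ((univ \ M) ∪ S₂) a b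

/-- the part of `v` at level `t` -/
noncomputable def pt (G : MG V E) (M : Finset E) (Y : ℕ → Finset E) (t : ℕ) (v : V) : Finset V :=
  G.cv ((univ \ M) ∪ Y t) v

/-- the parts of level `t` -/
noncomputable def parts (G : MG V E) (M : Finset E) (Y : ℕ → Finset E) (t : ℕ) :
    Finset (Finset V) := univ.image (pt G M Y t)

/-- small vertex sets: at most 7 boundary edges, not everything -/
def Sm (G : MG V E) (X : Finset V) : Prop := (G.cut X).card ≤ 7 ∧ X ≠ univ

/-- closed: all edges of `F` in `X` are light -/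
def Closed (G : MG V E) (M : Finset E) (w : E → ℕ) (t : ℕ) (X : Finset V) : Prop :=
  ∀ e, e ∉ M → G.s e ∈ X → w e ≤ t

/-- good vertices: their part is small and closed -/
def Gd (G : MG V E) (M : Finset E) (w : E → ℕ) (Y : ℕ → Finset E) (t : ℕ) (v : V) : Prop :=
  Sm G (pt G M Y t v) ∧ Closed G M w t (pt G M Y t v)

open Classical in
/-- number of small parts which are not closed -/
noncomputable def NS (G : MG V E) (M : Finset E) (w : E → ℕ) (Y : ℕ → Finset E) (t : ℕ) : ℕ :=
  ((parts G M Y t).filter (fun X => Sm G X ∧ ¬ Closed G M w t X)).card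

open Classical in
/-- number of heavy edges of `M` with an end which is not good -/
noncomputable def NN (G : MG V E) (M : Finset E) (w : E → ℕ) (Y : ℕ → Finset E) (t : ℕ) : ℕ :=
  ((M ∩ hv w t).filter (fun e => ¬ (Gd G M w Y t (G.s e) ∧ Gd G M w Y t (G.t e)))).card

open Classical in
/-- number of light edges of `M` with exactly one good end -/
noncomputable def La (G : MG V E) (M : Finset E) (w : E → ℕ) (Y : ℕ → Finset E) (t : ℕ) : ℕ :=
  ((M ∩ lt w t).filter (fun e => ¬ (Gd G M w Y t (G.s e) ↔ Gd G M w Y t (G.t e)))).card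

/-- `2 (number of parts - 1) - number of light edges of M between different parts` -/
noncomputable def rho (G : MG V E) (M : Finset E) (w : E → ℕ) (Y : ℕ → Finset E) (t : ℕ) : ℝ :=
  2 * ((G.nc ((univ \ M) ∪ Y t) : ℝ) - 1) - (((M ∩ lt w t) \ Y t).card : ℝ)

/-- the edges which are not the strictly heaviest edge of some 3-cut containing them -/
noncomputable def Zs (G : MG V E) (w : E → ℕ) : Finset E := by
  classical
  exact univ.filter (fun x => ∃ U : Finset V, (G.cut U).card = 3 ∧ x ∈ G.cut U ∧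
    ∃ y ∈ G.cut U, y ≠ x ∧ w x ≤ w y)

/-- total weight of a set of edges -/
def wt (w : E → ℕ) (A : Finset E) : ℝ := ∑ e ∈ A, (w e : ℝ)

end Pool.Agent.Lib.MP_95e9b3_coG
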