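import Mathlib

namespace Pool.Agent.Lib.MP_95e9b3_coG

open Finset

/-- the sign of an element of ZMod 2 -/
noncomputable def sg (a : ZMod 2) : ℝ := if a = 0 then 1 else -1

/-- the three nonzero linear forms on ZMod 2 x ZMod 2 -/
def lam (k : Fin 3) (x : ZMod 2 × ZMod 2) : ZMod 2 :=
  if k = 0 then x.1 else if k = 1 then x.2 else x.1 + x.2

private lemma FL_ind (s y : ZMod 2 × ZMod 2) :
    (if y = s then (1 : ℝ) else 0)
      = (1 + sg (lam 0 s) * sg (lam 0 y) + sg (lam 1 s) * sg (lam 1 y)
          + sg (lam 2 s) * sg (lam 2 y)) / 4 := by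
  obtain ⟨s1, s2⟩ := s
  obtain ⟨y1, y2⟩ := y
  fin_cases s1 <;> fin_cases s2 <;> fin_cases y1 <;> fin_cases y2 <;>
    simp (config := { decide := true }) [sg] <;> norm_num

/-- the weight of the elements of S with label s -/
noncomputable def dst {ι : Type*} [Fintype ι] [DecidableEq ι] (w : ι → ℝ) (S : Finset ι)
    (y : ι → ZMod 2 × ZMod 2) (s : ZMod 2 × ZMod 2) : ℝ :=
  ∑ e ∈ S.filter (fun e => y e = s), w e

private lemma FL_const {ι : Type*} [Fintype ι] [DecidableEq ι] (w : ι → ℝ)
    (y : ι → ZMod 2 × ZMod 2)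
    (h : ∀ k : Fin 3, ∑ e, w e * sg (lam k (y e)) = 0) (s : ZMod 2 × ZMod 2) :
    dst w univ y s = (∑ e, w e) / 4 := by
  unfold dst
  rw [Finset.sum_filter]
  have h1 : ∀ e, (if y e = s then w e else 0)
      = (w e + sg (lam 0 s) * (w e * sg (lam 0 (y e))) + sg (lam 1 s) * (w e * sg (lam 1 (y e)))
          + sg (lam 2 s) * (w e * sg (lam 2 (y e)))) / 4 := by
    intro e
    have := FL_ind s (y e)
    have h2 : (if y e = s then w e else 0) = w e * (if y e = s then (1 : ℝ) else 0) := by
      split_ifs <;> simp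
    rw [h2, this]; ring
  rw [Finset.sum_congr rfl (fun e _ => h1 e), ← Finset.sum_div]
  rw [Finset.sum_add_distrib, Finset.sum_add_distrib, Finset.sum_add_distrib]
  rw [← Finset.mul_sum, ← Finset.mul_sum, ← Finset.mul_sum, h 0, h 1, h 2]
  ring

private lemma FL_split {ι : Type*} [Fintype ι] [DecidableEq ι] (w : ι → ℝ)
    (y : ι → ZMod 2 × ZMod 2) (q : ι → Prop) [DecidablePred q] (S : Finset ι)
    (s : ZMod 2 × ZMod 2) :
    dst w S y s = dst w (S.filter q) y s + dst w (S.filter (fun e => ¬ q e)) y s := by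
  unfold dst
  rw [← Finset.sum_filter_add_sum_filter_not (S.filter (fun e => y e = s)) q]
  congr 1
  · apply Finset.sum_congr _ (fun _ _ => rfl)
    ext e; simp; tauto
  · apply Finset.sum_congr _ (fun _ _ => rfl)
    ext e; simp; tauto

/-- invariance of the two parts under a flip -/
private lemma FL_inv {ι : Type*} [Fintype ι] [DecidableEq ι] (w : ι → ℝ)
    (y : ι → ZMod 2 × ZMod 2) (b : ι → Bool) (d : ZMod 2 × ZMod 2)
    (h0 : ∀ k : Fin 3, ∑ e, w e * sg (lam k (y e)) = 0)
    (h1 : ∀ k : Fin 3, ∑ e, w e * sg (lam k (y e + if b e = true then d else 0)) = 0)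
    (c : Bool) (s : ZMod 2 × ZMod 2) :
    dst w (univ.filter (fun e => b e = c)) y (s + d) = dst w (univ.filter (fun e => b e = c)) y s := by
  have hdd : d + d = 0 := by
    obtain ⟨d1, d2⟩ := d
    ext <;> simp <;> exact CharTwo.add_self_eq_zero _
  have key : ∀ s, dst w (univ.filter (fun e => b e = true)) y (s + d)
      = dst w (univ.filter (fun e => b e = true)) y s := by
    intro s
    have a0 := FL_const w y h0 s
    have a1 := FL_const w _ h1 s
    rw [FL_split w _ (fun e => b e = true)] at a0 a1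
    have e1 : dst w (univ.filter (fun e => b e = true))
        (fun e => y e + if b e = true then d else 0) s
        = dst w (univ.filter (fun e => b e = true)) y (s + d) := by
      unfold dst
      apply Finset.sum_congr _ (fun _ _ => rfl)
      ext e
      simp only [Finset.mem_filter, Finset.mem_univ, true_and]
      constructor
      · rintro ⟨hb, hs⟩
        refine ⟨hb, ?_⟩
        rw [if_pos hb] at hs
        rw [← hs, add_assoc, hdd, add_zero]
      · rintro ⟨hb, hs⟩
        refine ⟨hb, ?_⟩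
        rw [if_pos hb, hs, add_assoc, hdd, add_zero]
    have e2 : dst w (univ.filter (fun e => ¬ b e = true))
        (fun e => y e + if b e = true then d else 0) s
        = dst w (univ.filter (fun e => ¬ b e = true)) y s := by
      unfold dst
      apply Finset.sum_congr _ (fun _ _ => rfl)
      ext e
      simp only [Finset.mem_filter, Finset.mem_univ, true_and]
      constructor
      · rintro ⟨hb, hs⟩
        refine ⟨hb, ?_⟩
        rw [if_neg hb, add_zero] at hs
        exact hs
      · rintro ⟨hb, hs⟩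
        refine ⟨hb, ?_⟩
        rw [if_neg hb, add_zero]
        exact hs
    rw [e1, e2] at a1
    linarith
  cases c
  · have a0 := FL_const w y h0 s
    have a1 := FL_const w y h0 (s + d)
    rw [FL_split w _ (fun e => b e = true)] at a0 a1
    have := key s
    have e3 : (univ.filter (fun e => b e = false)) = (univ.filter (fun e => ¬ b e = true)) := by
      ext e; simp
    rw [e3]
    linarith
  · exact key s

/-- pure counting: 2 + 3 + 2 -/
private lemma FL_count (i o k : ZMod 2 × ZMod 2 → ℝ) (nI nO nK : ZMod 2 × ZMod 2 → ℕ) (q : ℝ)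
    (hi : ∀ s, 0 ≤ i s) (ho : ∀ s, 0 ≤ o s) (hk : ∀ s, 0 ≤ k s)
    (pI : ∀ s, 0 < i s → 1 ≤ nI s) (pO : ∀ s, 0 < o s → 1 ≤ nO s) (pK : ∀ s, 0 < k s → 1 ≤ nK s)
    (hq : ∀ s, i s + o s + k s = q)
    (hI : ∀ s, i (s + (1, 0)) = i s) (hO : ∀ s, o (s + (0, 1)) = o s)
    (neI : ∃ s, 0 < i s) (neO : ∃ s, 0 < o s)
    (tot : ∑ s, (nI s + nO s + nK s) ≤ 7) :
    ∑ s, (nI s + nO s + nK s) = 7 ∧
      ∃ t, nK t = 1 ∧ k t = q ∧ (∀ s, i s < q) ∧ (∀ s, o s < q) := by
  have i1 : i (1, 0) = i (0, 0) := by simpa using hI (0, 0)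
  have i2 : i (1, 1) = i (0, 1) := by simpa using hI (0, 1)
  have o1 : o (0, 1) = o (0, 0) := by simpa using hO (0, 0)
  have o2 : o (1, 1) = o (1, 0) := by simpa using hO (1, 0)
  have q00 := hq (0, 0)
  have q01 := hq (0, 1)
  have q10 := hq (1, 0)
  have q11 := hq (1, 1)
  have k00 := hk (0, 0)
  have k01 := hk (0, 1)
  have k10 := hk (1, 0)
  have k11 := hk (1, 1)
  rw [Fintype.sum_prod_type] at tot ⊢
  have hsum : ∀ f : ZMod 2 → ℕ, ∑ x, f x = f 0 + f 1 := fun f => Fin.sum_univ_two f
  rw [hsum, hsum, hsum] at tot ⊢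
  have all4 : ∀ P : ZMod 2 × ZMod 2 → Prop, P (0, 0) → P (0, 1) → P (1, 0) → P (1, 1) → ∀ s, P s := by
    intro P h1 h2 h3 h4 s
    obtain ⟨s1, s2⟩ := s
    fin_cases s1 <;> fin_cases s2 <;> assumption
  have ex4 : ∀ P : ZMod 2 × ZMod 2 → Prop, (∃ s, P s) → P (0, 0) ∨ P (0, 1) ∨ P (1, 0) ∨ P (1, 1) := by
    rintro P ⟨⟨s1, s2⟩, hs⟩
    fin_cases s1 <;> fin_cases s2
    · exact Or.inl hs
    · exact Or.inr (Or.inl hs)
    · exact Or.inr (Or.inr (Or.inl hs))
    · exact Or.inr (Or.inr (Or.inr hs))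
  have neI' := ex4 _ neI
  have neO' := ex4 _ neO
  rw [i1, i2] at neI'
  rw [o1, o2] at neO'
  rw [i1] at q10
  rw [i2] at q11
  rw [o1] at q01
  rw [o2] at q11
  have pI00 := pI (0, 0)
  have pI01 := pI (0, 1)
  have pI10 := pI (1, 0)
  have pI11 := pI (1, 1)
  rw [i1] at pI10
  rw [i2] at pI11
  have pO00 := pO (0, 0)
  have pO01 := pO (0, 1)
  have pO10 := pO (1, 0)
  have pO11 := pO (1, 1)
  rw [o1] at pO01
  rw [o2] at pO11
  have pK00 := pK (0, 0)
  have pK01 := pK (0, 1)
  have pK10 := pK (1, 0)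
  have pK11 := pK (1, 1)
  rcases (hi (0, 0)).eq_or_lt with hα | hα <;> rcases (hi (0, 1)).eq_or_lt with hβ | hβ <;>
    rcases (ho (0, 0)).eq_or_lt with hγ | hγ <;> rcases (ho (1, 0)).eq_or_lt with hδ | hδ
  · exfalso; rcases neI' with h | h | h | h <;> linarith
  · exfalso; rcases neI' with h | h | h | h <;> linarith
  · exfalso; rcases neI' with h | h | h | h <;> linarith
  · exfalso; rcases neI' with h | h | h | h <;> linarith
  · exfalso; rcases neO' with h | h | h | h <;> linarith
  · -- beta > 0, delta > 0 : free class (0,0)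
    have a1 := pI01 hβ
    have a2 := pI11 hβ
    have a3 := pO10 hδ
    have a4 := pO11 hδ
    have a5 := pK00 (by linarith)
    have a6 := pK01 (by linarith)
    have a7 := pK10 (by linarith)
    refine ⟨by omega, (0, 0), by omega, by linarith, ?_, ?_⟩
    · refine all4 _ ?_ ?_ ?_ ?_ <;> linarith
    · refine all4 _ ?_ ?_ ?_ ?_ <;> linarith
  · -- beta > 0, gamma > 0 : free class (1,0)
    have a1 := pI01 hβ
    have a2 := pI11 hβ
    have a3 := pO00 hγ
    have a4 := pO01 hγ
    have a5 := pK10 (by linarith)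
    have a6 := pK11 (by linarith)
    have a7 := pK00 (by linarith)
    refine ⟨by omega, (1, 0), by omega, by linarith, ?_, ?_⟩
    · refine all4 _ ?_ ?_ ?_ ?_ <;> linarith
    · refine all4 _ ?_ ?_ ?_ ?_ <;> linarith
  · exfalso
    have a1 := pI01 hβ
    have a2 := pI11 hβ
    have a3 := pO00 hγ
    have a4 := pO01 hγ
    have a5 := pO10 hδ
    have a6 := pO11 hδ
    have a7 := pK00 (by linarith)
    have a8 := pK10 (by linarith)
    omega
  · exfalso; rcases neO' with h | h | h | h <;> linarith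
  · -- alpha > 0, delta > 0 : free class (0,1)
    have a1 := pI00 hα
    have a2 := pI10 hα
    have a3 := pO10 hδ
    have a4 := pO11 hδ
    have a5 := pK01 (by linarith)
    have a6 := pK00 (by linarith)
    have a7 := pK11 (by linarith)
    refine ⟨by omega, (0, 1), by omega, by linarith, ?_, ?_⟩
    · refine all4 _ ?_ ?_ ?_ ?_ <;> linarith
    · refine all4 _ ?_ ?_ ?_ ?_ <;> linarith
  · -- alpha > 0, gamma > 0 : free class (1,1)
    have a1 := pI00 hα
    have a2 := pI10 hα
    have a3 := pO00 hγ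
    have a4 := pO01 hγ
    have a5 := pK11 (by linarith)
    have a6 := pK10 (by linarith)
    have a7 := pK01 (by linarith)
    refine ⟨by omega, (1, 1), by omega, by linarith, ?_, ?_⟩
    · refine all4 _ ?_ ?_ ?_ ?_ <;> linarith
    · refine all4 _ ?_ ?_ ?_ ?_ <;> linarith
  · exfalso
    have a1 := pI00 hα
    have a2 := pI10 hα
    have a3 := pO00 hγ
    have a4 := pO01 hγ
    have a5 := pO10 hδ
    have a6 := pO11 hδ
    have a7 := pK01 (by linarith)
    have a8 := pK11 (by linarith)
    omega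
  · exfalso; rcases neO' with h | h | h | h <;> linarith
  · exfalso
    have a1 := pI00 hα
    have a2 := pI10 hα
    have a3 := pI01 hβ
    have a4 := pI11 hβ
    have a5 := pO10 hδ
    have a6 := pO11 hδ
    have a7 := pK00 (by linarith)
    have a8 := pK01 (by linarith)
    omega
  · exfalso
    have a1 := pI00 hα
    have a2 := pI10 hα
    have a3 := pI01 hβ
    have a4 := pI11 hβ
    have a5 := pO00 hγ
    have a6 := pO01 hγ
    have a7 := pK10 (by linarith)
    have a8 := pK11 (by linarith)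
    omega
  · exfalso
    have a1 := pI00 hα
    have a2 := pI10 hα
    have a3 := pI01 hβ
    have a4 := pI11 hβ
    have a5 := pO00 hγ
    have a6 := pO01 hγ
    have a7 := pO10 hδ
    have a8 := pO11 hδ
    omega


/-- p changed by d at l and at s -/
def chg {R : Type*} [DecidableEq R] (p : R → ZMod 2 × ZMod 2) (l s : R) (d : ZMod 2 × ZMod 2) :
    R → ZMod 2 × ZMod 2 :=
  fun r => if r = l ∨ r = s then p r + d else p r

/-- the character sum of a circle of gaps -/
noncomputable def fval {ι R : Type*} [Fintype ι] (D : ι → Finset R) (w : ι → ℝ)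
    (p : R → ZMod 2 × ZMod 2) (k : Fin 3) : ℝ :=
  ∑ e, w e * sg (lam k (∑ r ∈ D e, p r))

private lemma FL_chg {R : Type*} [DecidableEq R] (p : R → ZMod 2 × ZMod 2) (l s : R) (hls : s ≠ l)
    (d : ZMod 2 × ZMod 2) (S : Finset R) :
    ∑ r ∈ S, chg p l s d r
      = ∑ r ∈ S, p r + (if (xor (decide (l ∈ S)) (decide (s ∈ S))) = true then d else 0) := by
  have hdd : d + d = 0 := by
    obtain ⟨d1, d2⟩ := d
    ext <;> simp <;> exact CharTwo.add_self_eq_zero _
  have h1 : ∀ r ∈ S, chg p l s d r = p r + ((if r = l then d else 0) + (if r = s then d else 0)) := by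
    intro r _
    unfold chg
    by_cases h1 : r = l
    · have h2 : r ≠ s := fun h => hls (h ▸ h1)
      simp [h1, hls.symm]
    · by_cases h2 : r = s
      · simp [h2, hls]
      · simp [h1, h2]
  rw [Finset.sum_congr rfl h1, Finset.sum_add_distrib, Finset.sum_add_distrib]
  rw [Finset.sum_ite_eq' S l, Finset.sum_ite_eq' S s]
  by_cases a : l ∈ S <;> by_cases b : s ∈ S <;> simp [a, b, hdd]

private lemma FL_pos_mem {ι : Type*} [Fintype ι] [DecidableEq ι] (w : ι → ℝ) (hw : ∀ e, 0 ≤ w e)
    (S : Finset ι) (y : ι → ZMod 2 × ZMod 2) (s : ZMod 2 × ZMod 2) (h : 0 < dst w S y s) :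
    1 ≤ ((S.filter (fun e => 0 < w e)).filter (fun e => y e = s)).card := by
  rw [Nat.one_le_iff_ne_zero, Finset.card_ne_zero]
  by_contra hne
  rw [Finset.not_nonempty_iff_eq_empty] at hne
  have : dst w S y s = 0 := by
    unfold dst
    apply Finset.sum_eq_zero
    intro e he
    by_contra h0
    have h1 : 0 < w e := lt_of_le_of_ne (hw e) (Ne.symm h0)
    have h2 : e ∈ (S.filter (fun e => 0 < w e)).filter (fun e => y e = s) := by
      simp only [Finset.mem_filter] at he ⊢
      exact ⟨⟨he.1, h1⟩, he.2⟩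
    rw [hne] at h2
    exact absurd h2 (Finset.notMem_empty e)
  linarith

private lemma FL_dst_nonneg {ι : Type*} [Fintype ι] [DecidableEq ι] (w : ι → ℝ) (hw : ∀ e, 0 ≤ w e)
    (S : Finset ι) (y : ι → ZMod 2 × ZMod 2) (s : ZMod 2 × ZMod 2) : 0 ≤ dst w S y s :=
  Finset.sum_nonneg (fun e _ => hw e)

private lemma FL_le_dst {ι : Type*} [Fintype ι] [DecidableEq ι] (w : ι → ℝ) (hw : ∀ e, 0 ≤ w e)
    (S : Finset ι) (y : ι → ZMod 2 × ZMod 2) (e : ι) (he : e ∈ S) : w e ≤ dst w S y (y e) := by
  unfold dst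
  exact Finset.single_le_sum (f := w) (fun e _ => hw e) (by simp [he])

private lemma FL_card_fib {ι : Type*} [DecidableEq ι] (S : Finset ι)
    (y : ι → ZMod 2 × ZMod 2) : ∑ s, (S.filter (fun e => y e = s)).card = S.card :=
  (Finset.card_eq_sum_card_fiberwise (f := y) (s := S) (t := univ) (fun _ _ => by simp)).symm

/-- the abstract contradiction: two disjoint invariant sets -/
private lemma FL_two {ι : Type*} [Fintype ι] [DecidableEq ι] (w : ι → ℝ) (hw : ∀ e, 0 ≤ w e)
    (y : ι → ZMod 2 × ZMod 2) (A B : ι → Bool) (a0 b0 : Bool) (g bi bo : ι) (hwg : ∀ e, w e ≤ w g)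
    (h0 : ∀ k : Fin 3, ∑ e, w e * sg (lam k (y e)) = 0)
    (h1 : ∀ k : Fin 3, ∑ e, w e * sg (lam k (y e + if A e = true then (1, 0) else 0)) = 0)
    (h2 : ∀ k : Fin 3, ∑ e, w e * sg (lam k (y e + if B e = true then (0, 1) else 0)) = 0)
    (hdis : ∀ e, ¬ (A e = a0 ∧ B e = b0))
    (hbi : A bi = a0) (hbo : B bo = b0) (wbi : 0 < w bi) (wbo : 0 < w bo)
    (hc : (univ.filter (fun e => 0 < w e)).card ≤ 7)
    (h7 : (univ.filter (fun e => 0 < w e)).card = 7 → bi = g ∨ bo = g) : False := by
  classical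
  set I : Finset ι := univ.filter (fun e => A e = a0) with hI
  set O : Finset ι := univ.filter (fun e => B e = b0) with hO
  set K : Finset ι := univ.filter (fun e => A e ≠ a0 ∧ B e ≠ b0) with hK
  have hq : ∀ s, dst w I y s + dst w O y s + dst w K y s = (∑ e, w e) / 4 := by
    intro s
    have c0 := FL_const w y h0 s
    rw [FL_split w y (fun e => A e = a0), FL_split w y (fun e => B e = b0)
      (univ.filter (fun e => ¬ A e = a0))] at c0
    have e1 : (univ.filter (fun e => ¬ A e = a0)).filter (fun e => B e = b0) = O := by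
      ext e
      simp only [hO, Finset.mem_filter, Finset.mem_univ, true_and]
      constructor
      · exact fun h => h.2
      · exact fun h => ⟨fun h' => hdis e ⟨h', h⟩, h⟩
    have e2 : (univ.filter (fun e => ¬ A e = a0)).filter (fun e => ¬ B e = b0) = K := by
      ext e
      simp only [hK, Finset.mem_filter, Finset.mem_univ, true_and, ne_eq]
    rw [e1, e2] at c0
    linarith
  have cnt : ∑ s, (((I.filter (fun e => 0 < w e)).filter (fun e => y e = s)).card
      + ((O.filter (fun e => 0 < w e)).filter (fun e => y e = s)).card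
      + ((K.filter (fun e => 0 < w e)).filter (fun e => y e = s)).card)
      = (univ.filter (fun e => 0 < w e)).card := by
    rw [Finset.sum_add_distrib, Finset.sum_add_distrib, FL_card_fib, FL_card_fib, FL_card_fib]
    rw [← Finset.card_union_of_disjoint, ← Finset.card_union_of_disjoint]
    · congr 1
      ext e
      simp only [hI, hO, hK, Finset.mem_union, Finset.mem_filter, Finset.mem_univ, true_and]
      tauto
    · rw [Finset.disjoint_left]
      intro e he he'
      simp only [hI, hO, hK, Finset.mem_union, Finset.mem_filter, Finset.mem_univ, true_and] at he he'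
      tauto
    · rw [Finset.disjoint_left]
      intro e he he'
      simp only [hI, hO, Finset.mem_filter, Finset.mem_univ, true_and] at he he'
      exact hdis e ⟨he.1, he'.1⟩
  obtain ⟨c7, t, ht1, ht2, hti, hto⟩ := FL_count (dst w I y) (dst w O y) (dst w K y)
    (fun s => ((I.filter (fun e => 0 < w e)).filter (fun e => y e = s)).card)
    (fun s => ((O.filter (fun e => 0 < w e)).filter (fun e => y e = s)).card)
    (fun s => ((K.filter (fun e => 0 < w e)).filter (fun e => y e = s)).card)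
    ((∑ e, w e) / 4)
    (FL_dst_nonneg w hw I y) (FL_dst_nonneg w hw O y) (FL_dst_nonneg w hw K y)
    (FL_pos_mem w hw I y) (FL_pos_mem w hw O y) (FL_pos_mem w hw K y) hq
    (FL_inv w y A (1, 0) h0 h1 a0) (FL_inv w y B (0, 1) h0 h2 b0)
    ⟨y bi, lt_of_lt_of_le wbi (FL_le_dst w hw I y bi (by simp [hI, hbi]))⟩
    ⟨y bo, lt_of_lt_of_le wbo (FL_le_dst w hw O y bo (by simp [hO, hbo]))⟩
    (by rw [cnt]; exact hc)
  rw [cnt] at c7
  -- the class t of K consists of one positive gap
  obtain ⟨e', he'⟩ := Finset.card_eq_one.1 ht1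
  have he'w : w e' = (∑ e, w e) / 4 := by
    rw [← ht2]
    unfold dst
    have : ∑ e ∈ K.filter (fun e => y e = t), w e
        = ∑ e ∈ (K.filter (fun e => 0 < w e)).filter (fun e => y e = t), w e := by
      symm
      apply Finset.sum_subset
      · intro e he
        simp only [Finset.mem_filter] at he ⊢
        exact ⟨he.1.1, he.2⟩
      · intro e he hne
        simp only [Finset.mem_filter] at he hne
        by_contra h
        exact hne ⟨⟨he.1, lt_of_le_of_ne (hw e) (Ne.symm h)⟩, he.2⟩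
    rw [this, he']
    simp
  rcases h7 c7 with h | h
  · have := FL_le_dst w hw I y bi (by simp [hI, hbi])
    have := hti (y bi)
    have := hwg e'
    rw [h] at *
    linarith
  · have := FL_le_dst w hw O y bo (by simp [hO, hbo])
    have := hto (y bo)
    have := hwg e'
    rw [h] at *
    linarith

/-- a root edge that is alone between two positive gaps -/
private lemma FL_block {ι R : Type*} [Fintype R] [DecidableEq ι] [DecidableEq R]
    (D : ι → Finset R) (hch : ∀ e e', D e ⊆ D e' ∨ D e' ⊆ D e) (hinj : Function.Injective D)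
    (hu : ∀ e, D e ≠ univ) (g : ι) (hg : D g = ∅) (P : Finset ι) (gP : g ∈ P)
    (h4 : 4 ≤ P.card) (hR : Fintype.card R ≤ 7) :
    ∃ l bm bp, bm ∈ P ∧ bp ∈ P ∧ l ∉ D bm ∧
      (insert l (D bm) = D bp ∨ (insert l (D bm) = univ ∧ bp = g)) ∧ (P.card = 7 → bm = g) := by
  have cinj : ∀ e e', (D e).card = (D e').card → e = e' := by
    intro e e' h
    rcases hch e e' with h1 | h1
    · exact hinj (Finset.eq_of_subset_of_card_le h1 h.ge)
    · exact (hinj (Finset.eq_of_subset_of_card_le h1 h.le)).symm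
  have clt : ∀ e, (D e).card < Fintype.card R := by
    intro e
    rw [Finset.card_lt_iff_ne_univ]
    exact hu e
  have cg : (D g).card = 0 := by rw [hg]; simp
  have step : ∀ e e', (D e').card = (D e).card + 1 → ∃ l, l ∉ D e ∧ insert l (D e) = D e' := by
    intro e e' h
    have hsub : D e ⊆ D e' := by
      rcases hch e e' with h1 | h1
      · exact h1
      · have := Finset.card_le_card h1
        omega
    exact Finset.exists_eq_insert_iff.2 ⟨hsub, h.symm⟩
  by_cases h7 : P.card = 7
  · -- all blocks are singletons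
    have himg : P.image (fun e => (D e).card) = Finset.range 7 := by
      apply Finset.eq_of_subset_of_card_le
      · intro x hx
        simp only [Finset.mem_image, Finset.mem_range] at hx ⊢
        obtain ⟨e, _, rfl⟩ := hx
        have := clt e
        omega
      · rw [Finset.card_image_of_injOn (fun e _ e' _ h => cinj e e' h), h7]
        simp
    have : (1 : ℕ) ∈ P.image (fun e => (D e).card) := by
      rw [himg]; simp
    obtain ⟨bp, hbp, hb1⟩ := Finset.mem_image.1 this
    obtain ⟨l, hl, hl2⟩ := step g bp (by omega)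
    exact ⟨l, g, bp, gP, hbp, hl, Or.inl hl2, fun _ => rfl⟩
  · by_contra hno
    push Not at hno
    have hno' : ∀ e ∈ P, ∀ e' ∈ P, (D e').card ≠
        (if (D e).card + 1 = Fintype.card R then 0 else (D e).card + 1) := by
      intro e he e' he' h
      split_ifs at h with hc
      · have : e' = g := cinj e' g (by omega)
        obtain ⟨l, hl, hl2⟩ := Finset.exists_eq_insert_iff.2
          ⟨Finset.subset_univ (D e), by rw [Finset.card_univ]; exact hc⟩
        exact h7 (hno l e e' he he' hl (Or.inr ⟨hl2, this⟩)).1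
      · obtain ⟨l, hl, hl2⟩ := step e e' h
        exact h7 (hno l e e' he he' hl (Or.inl hl2)).1
    have d1 : Disjoint (P.image (fun e => (D e).card))
        (P.image (fun e => if (D e).card + 1 = Fintype.card R then 0 else (D e).card + 1)) := by
      rw [Finset.disjoint_left]
      intro x hx hx'
      obtain ⟨e', he', rfl⟩ := Finset.mem_image.1 hx
      obtain ⟨e, he, h⟩ := Finset.mem_image.1 hx'
      exact hno' e he e' he' h.symm
    have c1 : (P.image (fun e => (D e).card)).card = P.card :=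
      Finset.card_image_of_injOn (fun e _ e' _ h => cinj e e' h)
    have c2 : (P.image (fun e => if (D e).card + 1 = Fintype.card R then 0
        else (D e).card + 1)).card = P.card := by
      apply Finset.card_image_of_injOn
      intro e _ e' _ h
      apply cinj
      have h1 := clt e
      have h2 := clt e'
      have h' : (if (D e).card + 1 = Fintype.card R then 0 else (D e).card + 1)
          = (if (D e').card + 1 = Fintype.card R then 0 else (D e').card + 1) := h
      split_ifs at h' <;> omega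
    have hsub : (P.image (fun e => (D e).card)) ∪
        (P.image (fun e => if (D e).card + 1 = Fintype.card R then 0 else (D e).card + 1))
        ⊆ Finset.range (Fintype.card R) := by
      intro x hx
      rw [Finset.mem_range]
      rcases Finset.mem_union.1 hx with h | h
      · obtain ⟨e, _, rfl⟩ := Finset.mem_image.1 h
        exact clt e
      · obtain ⟨e, _, rfl⟩ := Finset.mem_image.1 h
        have h1 := clt e
        split_ifs <;> omega
    have := Finset.card_le_card hsub
    rw [Finset.card_union_of_disjoint d1, c1, c2, Finset.card_range] at this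
    omega


private lemma FL_flip {ι R : Type*} [Fintype R] [DecidableEq R]
    (D : ι → Finset R) (hch : ∀ e e', D e ⊆ D e' ∨ D e' ⊆ D e)
    (hu : ∀ e, D e ≠ univ) (g : ι) (hg : D g = ∅) (l : R) (bm bp : ι) (hl : l ∉ D bm)
    (hb : insert l (D bm) = D bp ∨ (insert l (D bm) = univ ∧ bp = g)) (s1 s2 : R)
    (h1 : s1 ≠ l) (h2 : s2 ≠ l) :
    (∀ e, ¬ (xor (decide (l ∈ D e)) (decide (s1 ∈ D e))
              = xor (decide (l ∈ D bp)) (decide (s1 ∈ D bp)) ∧
            xor (decide (l ∈ D e)) (decide (s2 ∈ D e))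
              = xor (decide (l ∈ D bm)) (decide (s2 ∈ D bm)))) ∨
    (∀ e, ¬ (xor (decide (l ∈ D e)) (decide (s1 ∈ D e))
              = xor (decide (l ∈ D bm)) (decide (s1 ∈ D bm)) ∧
            xor (decide (l ∈ D e)) (decide (s2 ∈ D e))
              = xor (decide (l ∈ D bp)) (decide (s2 ∈ D bp)))) := by
  by_contra hno
  push Not at hno
  obtain ⟨⟨e, ha, hb1⟩, ⟨e', ha', hb1'⟩⟩ := hno
  rcases hb with hb | ⟨hb, rfl⟩
  · -- linear case
    have key : ∀ e, (l ∉ D e ∧ D e ⊆ D bm) ∨ (l ∈ D e ∧ D bm ⊆ D e) := by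
      intro e
      by_cases hle : l ∈ D e
      · right
        refine ⟨hle, ?_⟩
        rcases hch e bm with h | h
        · exact absurd (h hle) hl
        · exact h
      · left
        refine ⟨hle, ?_⟩
        rcases hch e bp with h | h
        · intro x hx
          have := h hx
          rw [← hb, Finset.mem_insert] at this
          rcases this with rfl | h3
          · exact absurd hx hle
          · exact h3
        · exact absurd (h (by rw [← hb]; exact Finset.mem_insert_self _ _)) hle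
    have hp : ∀ s, s ≠ l → (s ∈ D bp ↔ s ∈ D bm) := by
      intro s hs
      rw [← hb, Finset.mem_insert]
      constructor
      · rintro (h | h)
        · exact absurd h hs
        · exact h
      · exact Or.inr
    have hlp : l ∈ D bp := by rw [← hb]; exact Finset.mem_insert_self _ _
    have p1 := hp s1 h1
    have p2 := hp s2 h2
    have c := hch e e'
    have c1 : (s1 ∈ D e → s1 ∈ D e') ∧ (s2 ∈ D e → s2 ∈ D e') ∨
        (s1 ∈ D e' → s1 ∈ D e) ∧ (s2 ∈ D e' → s2 ∈ D e) := by
      rcases c with h | h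
      · exact Or.inl ⟨fun x => h x, fun x => h x⟩
      · exact Or.inr ⟨fun x => h x, fun x => h x⟩
    have k1 : (l ∉ D e ∧ (s1 ∈ D e → s1 ∈ D bm) ∧ (s2 ∈ D e → s2 ∈ D bm)) ∨
        (l ∈ D e ∧ (s1 ∈ D bm → s1 ∈ D e) ∧ (s2 ∈ D bm → s2 ∈ D e)) := by
      rcases key e with h | h
      · exact Or.inl ⟨h.1, fun x => h.2 x, fun x => h.2 x⟩
      · exact Or.inr ⟨h.1, fun x => h.2 x, fun x => h.2 x⟩
    have k2 : (l ∉ D e' ∧ (s1 ∈ D e' → s1 ∈ D bm) ∧ (s2 ∈ D e' → s2 ∈ D bm)) ∨
        (l ∈ D e' ∧ (s1 ∈ D bm → s1 ∈ D e') ∧ (s2 ∈ D bm → s2 ∈ D e')) := by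
      rcases key e' with h | h
      · exact Or.inl ⟨h.1, fun x => h.2 x, fun x => h.2 x⟩
      · exact Or.inr ⟨h.1, fun x => h.2 x, fun x => h.2 x⟩
    clear c hp key hch hu hg hb
    by_cases q1 : l ∈ D e <;> by_cases q2 : l ∈ D e' <;> by_cases q3 : s1 ∈ D e <;>
      by_cases q4 : s1 ∈ D e' <;> by_cases q5 : s2 ∈ D e <;> by_cases q6 : s2 ∈ D e' <;>
      by_cases q7 : s1 ∈ D bm <;> by_cases q8 : s2 ∈ D bm <;> simp_all
  · -- wrap around
    have key : ∀ e, l ∉ D e := by
      intro e hle
      rcases hch e bm with h | h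
      · exact hl (h hle)
      · apply hu e
        rw [← Finset.univ_subset_iff, ← hb]
        exact Finset.insert_subset hle h
    have hp : ∀ s, s ≠ l → s ∈ D bm := by
      intro s hs
      have : s ∈ insert l (D bm) := by rw [hb]; exact Finset.mem_univ _
      rcases Finset.mem_insert.1 this with h | h
      · exact absurd h hs
      · exact h
    have p1 := hp s1 h1
    have p2 := hp s2 h2
    have c := hch e e'
    have c1 : (s1 ∈ D e → s1 ∈ D e') ∧ (s2 ∈ D e → s2 ∈ D e') ∨
        (s1 ∈ D e' → s1 ∈ D e) ∧ (s2 ∈ D e' → s2 ∈ D e) := by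
      rcases c with h | h
      · exact Or.inl ⟨fun x => h x, fun x => h x⟩
      · exact Or.inr ⟨fun x => h x, fun x => h x⟩
    have k1 := key e
    have k2 := key e'
    clear c hp key hch hu hb
    by_cases q3 : s1 ∈ D e <;>
      by_cases q4 : s1 ∈ D e' <;> by_cases q5 : s2 ∈ D e <;> by_cases q6 : s2 ∈ D e' <;>
      simp_all

private lemma FL_flip_ne {ι R : Type*} [Fintype R] [DecidableEq R]
    (D : ι → Finset R) (g : ι) (hg : D g = ∅) (l : R) (bm bp : ι) (hl : l ∉ D bm)
    (hb : insert l (D bm) = D bp ∨ (insert l (D bm) = univ ∧ bp = g)) (s : R)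
    (hs : s ≠ l) :
    xor (decide (l ∈ D bp)) (decide (s ∈ D bp)) ≠ xor (decide (l ∈ D bm)) (decide (s ∈ D bm)) := by
  rcases hb with hb | ⟨hb, rfl⟩
  · rw [← hb]
    by_cases h : s ∈ D bm <;> simp [h, hl, hs]
  · have : s ∈ D bm := by
      have : s ∈ insert l (D bm) := by rw [hb]; exact Finset.mem_univ _
      rcases Finset.mem_insert.1 this with h | h
      · exact absurd h hs
      · exact h
    rw [hg]
    simp [hl, this]

/-- state j of the pattern p -/
def stt {R : Type*} [DecidableEq R] (p : R → ZMod 2 × ZMod 2) (l s1 s2 : R) (j : Fin 3) :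
    R → ZMod 2 × ZMod 2 :=
  if j = 0 then p else if j = 1 then chg p l s1 (1, 0) else chg p l s2 (0, 1)

lemma stt_zero {R : Type*} [DecidableEq R] (p : R → ZMod 2 × ZMod 2) (l s1 s2 : R) :
    stt p l s1 s2 0 = p := by
  unfold stt; rw [if_pos rfl]

lemma stt_one {R : Type*} [DecidableEq R] (p : R → ZMod 2 × ZMod 2) (l s1 s2 : R) :
    stt p l s1 s2 1 = chg p l s1 (1, 0) := by
  unfold stt; rw [if_neg (by decide), if_pos rfl]

lemma stt_two {R : Type*} [DecidableEq R] (p : R → ZMod 2 × ZMod 2) (l s1 s2 : R) :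
    stt p l s1 s2 2 = chg p l s2 (0, 1) := by
  unfold stt; rw [if_neg (by decide), if_neg (by decide)]

/-- exact form of the finite lemma -/
private lemma FL_exact {ι R : Type*} [Fintype ι] [Fintype R] [DecidableEq ι] [DecidableEq R]
    [Nonempty R] (hR : Fintype.card R ≤ 7)
    (D : ι → Finset R) (hch : ∀ e e', D e ⊆ D e' ∨ D e' ⊆ D e) (hinj : Function.Injective D)
    (hu : ∀ e, D e ≠ univ) (g : ι) (hg : D g = ∅)
    (w : ι → ℝ) (hw : ∀ e, 0 ≤ w e) (hwg : ∀ e, w e ≤ w g) (hpos : 0 < w g) :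
    ∃ l : R, ∀ (p : R → ZMod 2 × ZMod 2) (s1 s2 : R), s1 ≠ l → s2 ≠ l →
      ∃ (j k : Fin 3), fval D w (stt p l s1 s2 j) k ≠ 0 := by
  classical
  by_contra hno
  push Not at hno
  have base : ∀ l : R, ∃ (p : R → ZMod 2 × ZMod 2) (s1 s2 : R), s1 ≠ l ∧ s2 ≠ l ∧
      (∀ k : Fin 3, ∑ e, w e * sg (lam k (∑ r ∈ D e, p r)) = 0) ∧
      (∀ k : Fin 3, ∑ e, w e * sg (lam k (∑ r ∈ D e, p r
        + if (xor (decide (l ∈ D e)) (decide (s1 ∈ D e))) = true then (1, 0) else 0)) = 0) ∧
      (∀ k : Fin 3, ∑ e, w e * sg (lam k (∑ r ∈ D e, p r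
        + if (xor (decide (l ∈ D e)) (decide (s2 ∈ D e))) = true then (0, 1) else 0)) = 0) := by
    intro l
    obtain ⟨p, s1, s2, h1, h2, h⟩ := hno l
    refine ⟨p, s1, s2, h1, h2, ?_, ?_, ?_⟩
    · intro k
      exact h 0 k
    · intro k
      have := h 1 k
      rw [stt_one] at this
      unfold fval at this
      rw [← this]
      apply Finset.sum_congr rfl
      intro e _
      rw [FL_chg p l s1 h1]
    · intro k
      have := h 2 k
      rw [stt_two] at this
      unfold fval at this
      rw [← this]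
      apply Finset.sum_congr rfl
      intro e _
      rw [FL_chg p l s2 h2]
  -- number of positive gaps
  set P : Finset ι := univ.filter (fun e => 0 < w e) with hP
  have gP : g ∈ P := by simp [hP, hpos]
  have hcard : P.card ≤ 7 := by
    have h1 : P.card ≤ Fintype.card R := by
      have : (P.image (fun e => (D e).card)) ⊆ Finset.range (Fintype.card R) := by
        intro x hx
        obtain ⟨e, _, rfl⟩ := Finset.mem_image.1 hx
        rw [Finset.mem_range, Finset.card_lt_iff_ne_univ]
        exact hu e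
      have h2 := Finset.card_le_card this
      rw [Finset.card_image_of_injOn, Finset.card_range] at h2
      · exact h2
      · intro e _ e' _ h
        rcases hch e e' with h1 | h1
        · exact hinj (Finset.eq_of_subset_of_card_le h1 (le_of_eq h.symm))
        · exact (hinj (Finset.eq_of_subset_of_card_le h1 (le_of_eq h))).symm
    omega
  have h4 : 4 ≤ P.card := by
    obtain ⟨l⟩ := ‹Nonempty R›
    obtain ⟨p, s1, s2, _, _, hb, _, _⟩ := base l
    have hW : 0 < (∑ e, w e) / 4 := by
      have : w g ≤ ∑ e, w e := Finset.single_le_sum (fun e _ => hw e) (Finset.mem_univ g)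
      linarith
    have h1 : ∀ s, 1 ≤ (P.filter (fun e => (∑ r ∈ D e, p r) = s)).card := by
      intro s
      apply FL_pos_mem w hw univ
      rw [FL_const w _ hb s]
      exact hW
    have h2 := FL_card_fib P (fun e => ∑ r ∈ D e, p r)
    have h3 : ∑ s : ZMod 2 × ZMod 2, 1 ≤ P.card := by
      rw [← h2]
      exact Finset.sum_le_sum (fun s _ => h1 s)
    have h5 : ∑ s : ZMod 2 × ZMod 2, 1 = 4 := by
      rw [Finset.sum_const, Finset.card_univ]
      rfl
    omega
  obtain ⟨l, bm, bp, hbm, hbp, hl, hb, h7⟩ := FL_block D hch hinj hu g hg P gP h4 hR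
  obtain ⟨p, s1, s2, hs1, hs2, h0, h1, h2⟩ := base l
  have wbm : 0 < w bm := (Finset.mem_filter.1 hbm).2
  have wbp : 0 < w bp := (Finset.mem_filter.1 hbp).2
  rcases FL_flip D hch hu g hg l bm bp hl hb s1 s2 hs1 hs2 with hd | hd
  · exact FL_two w hw _ (fun e => xor (decide (l ∈ D e)) (decide (s1 ∈ D e)))
      (fun e => xor (decide (l ∈ D e)) (decide (s2 ∈ D e))) _ _ g bp bm hwg h0 h1 h2 hd rfl rfl
      wbp wbm hcard (fun h => Or.inr (h7 h))
  · exact FL_two w hw _ (fun e => xor (decide (l ∈ D e)) (decide (s1 ∈ D e)))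
      (fun e => xor (decide (l ∈ D e)) (decide (s2 ∈ D e))) _ _ g bm bp hwg h0 h1 h2 hd rfl rfl
      wbm wbp hcard (fun h => Or.inl (h7 h))


private lemma FL_unif {ι R : Type*} [Fintype ι] [Fintype R] [DecidableEq ι] [DecidableEq R]
    [Nonempty R] (hR : Fintype.card R ≤ 7)
    (D : ι → Finset R) (hch : ∀ e e', D e ⊆ D e' ∨ D e' ⊆ D e) (hinj : Function.Injective D)
    (hu : ∀ e, D e ≠ univ) (g : ι) (hg : D g = ∅) :
    ∃ c : ℝ, 0 < c ∧ ∀ w : ι → ℝ, (∀ e, 0 ≤ w e) → (∀ e, w e ≤ w g) →
      ∃ l : R, ∀ (p : R → ZMod 2 × ZMod 2) (s1 s2 : R), s1 ≠ l → s2 ≠ l →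
        ∃ (j k : Fin 3), c * w g ≤ |fval D w (stt p l s1 s2 j) k| := by
  classical
  have hne : (univ : Finset (Fin 3 × Fin 3)).Nonempty := ⟨(0, 0), Finset.mem_univ _⟩
  have hne1 : (univ : Finset R).Nonempty := Finset.univ_nonempty
  have hne2 : (univ : Finset ((R → ZMod 2 × ZMod 2) × R × R)).Nonempty := Finset.univ_nonempty
  let G : R → ((R → ZMod 2 × ZMod 2) × R × R) → (ι → ℝ) → ℝ := fun l t w =>
    if t.2.1 = l ∨ t.2.2 = l then 1 else
      univ.sup' hne (fun u : Fin 3 × Fin 3 => |fval D w (stt t.1 l t.2.1 t.2.2 u.1) u.2|)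
  let F : (ι → ℝ) → ℝ := fun w => univ.sup' hne1 (fun l => univ.inf' hne2 (fun t => G l t w))
  have cf : ∀ p k, Continuous (fun w : ι → ℝ => fval D w p k) := by
    intro p k
    unfold fval
    exact continuous_finsetSum _ (fun e _ => (continuous_apply e).mul continuous_const)
  have cG : ∀ l t, Continuous (G l t) := by
    intro l t
    simp only [G]
    split_ifs
    · exact continuous_const
    · exact Continuous.finset_sup'_apply hne (fun u _ => (cf _ _).abs)
  have cF : Continuous F :=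
    Continuous.finset_sup'_apply hne1 (fun l _ => Continuous.finset_inf'_apply hne2
      (fun t _ => cG l t))
  let K : Set (ι → ℝ) := {w | w g = 1} ∩ Set.pi Set.univ (fun _ => Set.Icc (0 : ℝ) 1)
  have hK : IsCompact K := by
    apply IsCompact.inter_left (isCompact_univ_pi (fun _ => isCompact_Icc))
    exact isClosed_eq (continuous_apply g) continuous_const
  have hKne : K.Nonempty := ⟨fun _ => 1, rfl, fun _ _ => ⟨zero_le_one, le_refl _⟩⟩
  obtain ⟨x, hx, hmin⟩ := hK.exists_isMinOn hKne cF.continuousOn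
  have hFpos : 0 < F x := by
    obtain ⟨l, hl⟩ := FL_exact hR D hch hinj hu g hg x (fun e => (hx.2 e (Set.mem_univ e)).1)
      (fun e => by
        have h1 : x g = 1 := hx.1
        rw [h1]
        exact (hx.2 e (Set.mem_univ e)).2)
      (by
        have h1 : x g = 1 := hx.1
        rw [h1]; exact one_pos)
    apply (Finset.lt_sup'_iff hne1).2
    refine ⟨l, Finset.mem_univ _, ?_⟩
    apply (Finset.lt_inf'_iff hne2).2
    intro t _
    simp only [G]
    split_ifs with h
    · exact one_pos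
    · push Not at h
      obtain ⟨j, k, hjk⟩ := hl t.1 t.2.1 t.2.2 h.1 h.2
      apply (Finset.lt_sup'_iff hne).2
      exact ⟨(j, k), Finset.mem_univ _, abs_pos.2 hjk⟩
  refine ⟨F x, hFpos, ?_⟩
  intro w hw hwg
  rcases (hw g).eq_or_lt with h0 | h0
  · obtain ⟨l⟩ := ‹Nonempty R›
    refine ⟨l, fun p s1 s2 _ _ => ⟨0, 0, ?_⟩⟩
    rw [← h0, mul_zero]
    exact abs_nonneg _
  · have hw' : (fun e => w e / w g) ∈ K := by
      refine ⟨div_self h0.ne', fun e _ => ⟨div_nonneg (hw e) h0.le, ?_⟩⟩
      rw [div_le_one h0]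
      exact hwg e
    have h1 : F x ≤ F (fun e => w e / w g) := hmin hw'
    obtain ⟨l, _, hl⟩ := (Finset.le_sup'_iff hne1).1 h1
    refine ⟨l, fun p s1 s2 hs1 hs2 => ?_⟩
    have h2 := (Finset.le_inf'_iff hne2 _).1 hl (p, s1, s2) (Finset.mem_univ _)
    simp only [G] at h2
    rw [if_neg (by push Not; exact ⟨hs1, hs2⟩)] at h2
    obtain ⟨u, _, hu⟩ := (Finset.le_sup'_iff hne).1 h2
    refine ⟨u.1, u.2, ?_⟩
    have h3 : fval D (fun e => w e / w g) (stt p l s1 s2 u.1) u.2
        = fval D w (stt p l s1 s2 u.1) u.2 / w g := by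
      unfold fval
      rw [Finset.sum_div]
      exact Finset.sum_congr rfl (fun e _ => by ring)
    rw [h3, abs_div, abs_of_pos h0, le_div_iff₀ h0] at hu
    exact hu

private lemma FL_stt_comp {R R' : Type*} [DecidableEq R] [DecidableEq R'] (e : R ≃ R')
    (p : R → ZMod 2 × ZMod 2) (l s1 s2 : R) (j : Fin 3) :
    stt (fun r => p (e.symm r)) (e l) (e s1) (e s2) j = fun r => stt p l s1 s2 j (e.symm r) := by
  funext r
  unfold stt chg
  have h1 : ∀ x, (r = e x) = (e.symm r = x) := by
    intro x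
    rw [eq_iff_iff]
    constructor
    · rintro rfl; simp
    · intro h; rw [← h]; simp
  split_ifs <;> simp_all

/-- **The finite lemma** on effective circles with at most seven root edges. -/
theorem finiteLemma : ∃ c : ℝ, 0 < c ∧ ∀ (ι R : Type) [Fintype ι] [Fintype R] [DecidableEq ι]
    [DecidableEq R] [Nonempty R], Fintype.card R ≤ 7 →
    ∀ (D : ι → Finset R), (∀ e e', D e ⊆ D e' ∨ D e' ⊆ D e) → Function.Injective D →
    (∀ e, D e ≠ univ) → ∀ g : ι, D g = ∅ →
    ∀ w : ι → ℝ, (∀ e, 0 ≤ w e) → (∀ e, w e ≤ w g) →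
      ∃ l : R, ∀ (p : R → ZMod 2 × ZMod 2) (s1 s2 : R), s1 ≠ l → s2 ≠ l →
        ∃ (j k : Fin 3), c * w g ≤ |fval D w (stt p l s1 s2 j) k| := by
  classical
  -- the finite set of all combinatorial types
  let T := Σ n : Fin 8, Σ k : Fin 8, (Fin n → Finset (Fin k)) × Fin n
  have hT : ∀ t : T, ∃ c : ℝ, 0 < c ∧ ∀ (_ : Nonempty (Fin t.2.1)),
      (∀ e e', t.2.2.1 e ⊆ t.2.2.1 e' ∨ t.2.2.1 e' ⊆ t.2.2.1 e) → Function.Injective t.2.2.1 →
      (∀ e, t.2.2.1 e ≠ univ) → t.2.2.1 t.2.2.2 = ∅ →
      ∀ w : Fin t.1 → ℝ, (∀ e, 0 ≤ w e) → (∀ e, w e ≤ w t.2.2.2) →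
      ∃ l, ∀ (p : Fin t.2.1 → ZMod 2 × ZMod 2) (s1 s2), s1 ≠ l → s2 ≠ l →
        ∃ (j k : Fin 3), c * w t.2.2.2 ≤ |fval t.2.2.1 w (stt p l s1 s2 j) k| := by
    intro t
    by_cases h : (Nonempty (Fin t.2.1) ∧ (∀ e e', t.2.2.1 e ⊆ t.2.2.1 e' ∨ t.2.2.1 e' ⊆ t.2.2.1 e) ∧
        Function.Injective t.2.2.1 ∧ (∀ e, t.2.2.1 e ≠ univ) ∧ t.2.2.1 t.2.2.2 = ∅)
    · obtain ⟨h1, h2, h3, h4, h5⟩ := h
      obtain ⟨c, hc, hc'⟩ := FL_unif (R := Fin t.2.1)
        (by rw [Fintype.card_fin]; have := t.2.1.2; omega) t.2.2.1 h2 h3 h4 t.2.2.2 h5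
      exact ⟨c, hc, fun _ _ _ _ _ => hc'⟩
    · refine ⟨1, one_pos, fun h1 h2 h3 h4 h5 => absurd ⟨h1, h2, h3, h4, h5⟩ h⟩
  choose c hc hc' using hT
  obtain ⟨c0, hc0, hle⟩ : ∃ c0 : ℝ, 0 < c0 ∧ ∀ t : T, c0 ≤ c t := by
    by_cases hne : Nonempty T
    · obtain ⟨t0, ht0⟩ := Finite.exists_min c
      exact ⟨c t0, hc t0, ht0⟩
    · exact ⟨1, one_pos, fun t => absurd ⟨t⟩ hne⟩
  refine ⟨c0, hc0, ?_⟩
  intro ι R _ _ _ _ _ hR D hch hinj hu g hg w hw hwg
  let a := Fintype.equivFin ι
  let b := Fintype.equivFin R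
  have hn : Fintype.card ι < 8 := by
    have h1 : Fintype.card ι ≤ Fintype.card R := by
      have : ((univ : Finset ι).image (fun e => (D e).card)) ⊆ Finset.range (Fintype.card R) := by
        intro x hx
        obtain ⟨e, _, rfl⟩ := Finset.mem_image.1 hx
        rw [Finset.mem_range, Finset.card_lt_iff_ne_univ]
        exact hu e
      have h2 := Finset.card_le_card this
      rw [Finset.card_image_of_injOn, Finset.card_range, Finset.card_univ] at h2
      · exact h2
      · intro e _ e' _ h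
        rcases hch e e' with h1 | h1
        · exact hinj (Finset.eq_of_subset_of_card_le h1 (le_of_eq h.symm))
        · exact (hinj (Finset.eq_of_subset_of_card_le h1 (le_of_eq h))).symm
    omega
  let D' : Fin (Fintype.card ι) → Finset (Fin (Fintype.card R)) :=
    fun i => (D (a.symm i)).map b.toEmbedding
  let t : T := ⟨⟨Fintype.card ι, hn⟩, ⟨Fintype.card R, by omega⟩, (D', a g)⟩
  have hmem : ∀ i r, r ∈ D' i ↔ b.symm r ∈ D (a.symm i) := by
    intro i r
    simp only [D', Finset.mem_map_equiv]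
  obtain ⟨l', hl'⟩ := hc' t (Nonempty.map b inferInstance)
    (by
      intro e e'
      rcases hch (a.symm e) (a.symm e') with h | h
      · exact Or.inl (Finset.map_subset_map.2 h)
      · exact Or.inr (Finset.map_subset_map.2 h))
    (by
      intro e e' h
      have := Finset.map_injective _ h
      exact a.symm.injective (hinj this))
    (by
      intro e h
      apply hu (a.symm e)
      rw [Finset.eq_univ_iff_forall]
      intro r
      have h1 : b r ∈ D' e := by
        have h2 : D' e = univ := h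
        rw [h2]; exact Finset.mem_univ _
      rw [hmem] at h1
      simpa using h1)
    (by
      change (D (a.symm (a g))).map b.toEmbedding = ∅
      rw [Equiv.symm_apply_apply, hg, Finset.map_empty])
    (fun i => w (a.symm i)) (fun i => hw _)
    (fun i => by
      change w (a.symm i) ≤ w (a.symm (a g))
      rw [Equiv.symm_apply_apply]
      exact hwg _)
  refine ⟨b.symm l', fun p s1 s2 h1 h2 => ?_⟩
  obtain ⟨j, k, hjk⟩ := hl' (fun r => p (b.symm r)) (b s1) (b s2)
    (fun h => h1 (by rw [← h]; simp)) (fun h => h2 (by rw [← h]; simp))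
  refine ⟨j, k, ?_⟩
  have e1 : w (a.symm (a g)) = w g := by rw [Equiv.symm_apply_apply]
  have e2 : fval D' (fun i => w (a.symm i)) (stt (fun r => p (b.symm r)) l' (b s1) (b s2) j) k
      = fval D w (stt p (b.symm l') s1 s2 j) k := by
    have h3 := FL_stt_comp b p (b.symm l') s1 s2 j
    rw [Equiv.apply_symm_apply] at h3
    rw [h3]
    unfold fval
    rw [← Equiv.sum_comp a]
    apply Finset.sum_congr rfl
    intro e _
    have h5 : ∑ r ∈ D' (a e), stt p (b.symm l') s1 s2 j (b.symm r)
        = ∑ r ∈ D e, stt p (b.symm l') s1 s2 j r := by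
      simp only [D', Equiv.symm_apply_apply, Finset.sum_map, Equiv.coe_toEmbedding]
    change w (a.symm (a e)) * sg (lam k (∑ r ∈ D' (a e), stt p (b.symm l') s1 s2 j (b.symm r))) = _
    rw [h5, Equiv.symm_apply_apply]
  have h4 : c t * w (a.symm (a g))
      ≤ |fval D' (fun i => w (a.symm i)) (stt (fun r => p (b.symm r)) l' (b s1) (b s2) j) k| := hjk
  rw [e1, e2] at h4
  exact le_trans (mul_le_mul_of_nonneg_right (hle t) (hw g)) h4

end Pool.Agent.Lib.MP_95e9b3_coG
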