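import Pool.Agent.Lib.MP_95e9b3_coG.Defs
import Pool.Agent.Lib.MP_95e9b3_coC.Rank

/-!
# Route G, block Fin: Lemma F

For every perfect matching `M` of the law and every level `t` the number of heavy edges of
`Zs ∩ M` is at most `2 NN + La`.
-/

set_option autoImplicit false

namespace Pool.Agent.Lib.MP_95e9b3_coG

open Finset Pool.Agent.Lib.MP_95e9b3_coC
open scoped symmDiff

variable {V E : Type} [Fintype V] [DecidableEq V] [Fintype E] [DecidableEq E]

theorem lemF_pt_eq (G : MG V E) (M : Finset E) (Y : ℕ → Finset E) (t : ℕ) (a b : V)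
    (h : G.Rch (univ \ M) a b) : pt G M Y t a = pt G M Y t b := by
  unfold pt
  rw [G.cv_eq]
  exact G.Rch_mono _ _ subset_union_left a b h

theorem lemF_gd_iff (G : MG V E) (M : Finset E) (w : E → ℕ) (Y : ℕ → Finset E) (t : ℕ) (a b : V)
    (h : G.Rch (univ \ M) a b) : Gd G M w Y t a ↔ Gd G M w Y t b := by
  unfold Gd
  rw [lemF_pt_eq G M Y t a b h]

theorem lemF_F_gd (G : MG V E) (M : Finset E) (w : E → ℕ) (Y : ℕ → Finset E) (t : ℕ) (e : E)
    (he : e ∉ M) : Gd G M w Y t (G.s e) ↔ Gd G M w Y t (G.t e) := by
  apply lemF_gd_iff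
  exact G.Rch_edge _ e (by simp [he])

/-- an edge of `F` at a good vertex is light -/
theorem lemF_light (G : MG V E) (M : Finset E) (w : E → ℕ) (Y : ℕ → Finset E) (t : ℕ) (e : E)
    (he : e ∉ M) (h : Gd G M w Y t (G.s e)) : w e ≤ t := by
  refine h.2 e he ?_
  unfold pt
  rw [G.mem_cv]
  exact G.Rch_refl _ _

theorem lemF_Ev_F (G : MG V E) (hG : C3 G) (M : Finset E) (hM : PM G M) : G.Ev (univ \ M) := by
  intro v
  have h1 := G.dg_sdiff M univ (subset_univ _) v
  rw [hG.deg v, hM.deg v] at h1
  rw [Nat.even_iff]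
  omega

open Classical in
/-- degrees inside a component -/
theorem lemF_dg_ce (G : MG V E) (F : Finset E) (a v : V) :
    G.dg (G.ce F a) v = if G.Rch F a v then G.dg F v else 0 := by
  unfold MG.dg
  have hF : G.ce F a = F.filter (fun e => G.Rch F a (G.s e)) := by
    ext e
    rw [G.mem_ce]
    simp
  rw [hF, Finset.sum_filter]
  by_cases h : G.Rch F a v
  · rw [if_pos h]
    refine Finset.sum_congr rfl fun e he => ?_
    by_cases h1 : G.Rch F a (G.s e)
    · rw [if_pos h1]
    · rw [if_neg h1]
      symm
      unfold MG.inc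
      have h2 : G.s e ≠ v := fun h2 => h1 (h2 ▸ h)
      have h3 : G.t e ≠ v := by
        intro h3
        apply h1
        refine G.Rch_trans F a v (G.s e) h ?_
        rw [← h3]
        exact G.Rch_symm F _ _ (G.Rch_edge F e he)
      simp [h2, h3]
  · rw [if_neg h]
    refine Finset.sum_eq_zero fun e he => ?_
    by_cases h1 : G.Rch F a (G.s e)
    · rw [if_pos h1]
      unfold MG.inc
      have h2 : G.s e ≠ v := fun h2 => h (h2 ▸ h1)
      have h3 : G.t e ≠ v := by
        intro h3
        apply h
        rw [← h3]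
        exact G.Rch_trans F a _ _ h1 (G.Rch_edge F e he)
      simp [h2, h3]
    · rw [if_neg h1]

theorem lemF_Ev_ce (G : MG V E) (F : Finset E) (hF : G.Ev F) (a : V) : G.Ev (G.ce F a) := by
  intro v
  rw [lemF_dg_ce]
  split_ifs
  · exact hF v
  · exact Even.zero

/-- the key fact: a heavy edge `x` of `M` which is not the largest edge of a 3-cut: there is a cut
containing `x` and no other edge with both ends good -/
theorem lemF_key (G : MG V E) (hG : C3 G) (M : Finset E) (hM : PM G M) (w : E → ℕ)
    (Y : ℕ → Finset E) (t : ℕ) (x : E) (hx : x ∈ Zs G w) (hxM : x ∈ M) (hxt : t < w x) :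
    ∃ U : Finset V, x ∈ G.cut U ∧ ∀ e ∈ G.cut U, Gd G M w Y t (G.s e) → e = x := by
  classical
  unfold Zs at hx
  rw [mem_filter] at hx
  obtain ⟨_, U, hU, hxU, y, hyU, hyx, hxy⟩ := hx
  refine ⟨U, hxU, ?_⟩
  have hMU := hM.three U hU
  have hMU2 : M ∩ G.cut U = {x} := by
    rw [Finset.card_eq_one] at hMU
    obtain ⟨a, ha⟩ := hMU
    have : x ∈ M ∩ G.cut U := by simp [hxM, hxU]
    rw [ha, mem_singleton] at this
    rw [ha, this]
  have hnM : ∀ e ∈ G.cut U, e ≠ x → e ∉ M := by
    intro e he hne heM
    have : e ∈ M ∩ G.cut U := by simp [heM, he]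
    rw [hMU2, mem_singleton] at this
    exact hne this
  intro e he hgd
  by_contra hne
  have heM := hnM e he hne
  have hyM := hnM y hyU hyx
  -- e and y are in the same component of F
  have hFev := lemF_Ev_F G hG M hM
  have hR : G.Rch (univ \ M) (G.s e) (G.s y) := by
    by_contra hno
    -- the component of e contains e but not y, so meets the cut in exactly e
    have hC := lemF_Ev_ce G (univ \ M) hFev (G.s e)
    have hcut := G.Ev_cut _ hC U
    have hsub : G.ce (univ \ M) (G.s e) ∩ G.cut U = {e} := by
      ext f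
      rw [mem_inter, G.mem_ce, mem_singleton]
      constructor
      · rintro ⟨⟨hfF, hfR⟩, hfU⟩
        by_contra hfe
        have hfx : f ≠ x := by
          intro h
          rw [h] at hfF
          simp [hxM] at hfF
        have hfy : f ≠ y := by
          intro h
          rw [h] at hfR
          exact hno hfR
        have hey : e ≠ y := by
          intro h
          apply hno
          rw [h]
          exact G.Rch_refl _ _
        have h4 : ({f, x, y, e} : Finset E) ⊆ G.cut U := by
          intro a ha
          simp only [mem_insert, mem_singleton] at ha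
          rcases ha with rfl | rfl | rfl | rfl
          · exact hfU
          · exact hxU
          · exact hyU
          · exact he
        have h5 := Finset.card_le_card h4
        rw [hU] at h5
        have h6 : ({f, x, y, e} : Finset E).card = 4 := by
          rw [Finset.card_insert_of_notMem, Finset.card_insert_of_notMem,
            Finset.card_insert_of_notMem, Finset.card_singleton]
          · simp only [mem_singleton]
            exact fun h => hey h.symm
          · simp only [mem_insert, mem_singleton]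
            push Not
            exact ⟨fun h => hyx h.symm, fun h => hne h.symm⟩
          · simp only [mem_insert, mem_singleton]
            push Not
            exact ⟨hfx, hfy, hfe⟩
        omega
      · rintro rfl
        exact ⟨⟨by simp [heM], G.Rch_refl _ _⟩, he⟩
    rw [hsub, Finset.card_singleton] at hcut
    exact absurd hcut (by decide)
  have h1 : Gd G M w Y t (G.s y) := (lemF_gd_iff G M w Y t _ _ hR).1 hgd
  have h2 := lemF_light G M w Y t y hyM h1
  omega

open Classical in
/-- the good vertices -/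
noncomputable def lemFsetU (G : MG V E) (M : Finset E) (w : E → ℕ) (Y : ℕ → Finset E) (t : ℕ) :
    Finset V := univ.filter (fun v => Gd G M w Y t v)

open Classical in
/-- edges with exactly one good end -/
noncomputable def lemFsetX (G : MG V E) (M : Finset E) (w : E → ℕ) (Y : ℕ → Finset E) (t : ℕ) :
    Finset E := univ.filter (fun e => ¬ (Gd G M w Y t (G.s e) ↔ Gd G M w Y t (G.t e)))

open Classical in
/-- edges with two good ends, not heavy edges of `Zs ∩ M` -/
noncomputable def lemFsetF (G : MG V E) (M : Finset E) (w : E → ℕ) (Y : ℕ → Finset E) (t : ℕ) :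
    Finset E := univ.filter (fun e => (Gd G M w Y t (G.s e) ∧ Gd G M w Y t (G.t e)) ∧
      ¬ (e ∈ Zs G w ∧ e ∈ M ∧ t < w e))

open Classical in
/-- heavy edges of `Zs ∩ M` with two good ends -/
noncomputable def lemFsetB (G : MG V E) (M : Finset E) (w : E → ℕ) (Y : ℕ → Finset E) (t : ℕ) :
    Finset E := univ.filter (fun e => (Gd G M w Y t (G.s e) ∧ Gd G M w Y t (G.t e)) ∧
      (e ∈ Zs G w ∧ e ∈ M ∧ t < w e))

theorem lemF_X_card (G : MG V E) (M : Finset E) (w : E → ℕ) (Y : ℕ → Finset E) (t : ℕ) :
    (lemFsetX G M w Y t).card ≤ NN G M w Y t + La G M w Y t := by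
  classical
  unfold NN La
  refine le_trans (Finset.card_le_card ?_) (Finset.card_union_le _ _)
  intro e he
  unfold lemFsetX at he
  rw [mem_filter] at he
  have h1 := he.2
  have heM : e ∈ M := by
    by_contra h
    exact h1 (lemF_F_gd G M w Y t e h)
  rw [mem_union, mem_filter, mem_filter, mem_inter, mem_inter]
  by_cases h2 : t < w e
  · left
    refine ⟨⟨heM, by simp [hv, h2]⟩, fun h3 => h1 ⟨fun _ => h3.2, fun _ => h3.1⟩⟩
  · right
    exact ⟨⟨heM, by simp [lt]; omega⟩, h1⟩

theorem lemF_count (G : MG V E) (hG : C3 G) (M : Finset E) (hM : PM G M) (w : E → ℕ)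
    (Y : ℕ → Finset E) (t : ℕ) : (lemFsetB G M w Y t).card ≤ (lemFsetX G M w Y t).card := by
  classical
  set U := lemFsetU G M w Y t with hUdef
  set F := lemFsetF G M w Y t with hFdef
  set P := lemFsetB G M w Y t with hPdef
  set X := lemFsetX G M w Y t with hXdef
  have mU : ∀ v, v ∈ U ↔ Gd G M w Y t v := by
    intro v
    rw [hUdef]
    unfold lemFsetU
    simp
  have mF : ∀ e, e ∈ F ↔ (Gd G M w Y t (G.s e) ∧ Gd G M w Y t (G.t e)) ∧
      ¬ (e ∈ Zs G w ∧ e ∈ M ∧ t < w e) := by
    intro e
    rw [hFdef]
    unfold lemFsetF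
    simp
  have mP : ∀ e, e ∈ P ↔ (Gd G M w Y t (G.s e) ∧ Gd G M w Y t (G.t e)) ∧
      (e ∈ Zs G w ∧ e ∈ M ∧ t < w e) := by
    intro e
    rw [hPdef]
    unfold lemFsetB
    simp
  have mX : ∀ e, e ∈ X ↔ ¬ (Gd G M w Y t (G.s e) ↔ Gd G M w Y t (G.t e)) := by
    intro e
    rw [hXdef]
    unfold lemFsetX
    simp
  rcases P.eq_empty_or_nonempty with hP0 | hPne
  · rw [hP0]
    simp
  have hd : Disjoint F P := by
    rw [Finset.disjoint_left]
    intro e h1 h2
    rw [mF] at h1
    rw [mP] at h2
    exact h1.2 h2.2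
  have hFP : ∀ e ∈ F ∪ P, Gd G M w Y t (G.s e) ∧ Gd G M w Y t (G.t e) := by
    intro e he
    rw [mem_union, mF, mP] at he
    rcases he with he | he
    · exact he.1
    · exact he.1
  have hac : ∀ C ⊆ F ∪ P, G.Ev C → Disjoint C P := by
    intro C hC hCe
    rw [Finset.disjoint_left]
    intro x hxC hxP
    rw [mP] at hxP
    obtain ⟨W, hxW, hW⟩ := lemF_key G hG M hM w Y t x hxP.2.1 hxP.2.2.1 hxP.2.2.2
    have h1 := G.Ev_cut C hCe W
    have h2 : C ∩ G.cut W = {x} := by
      ext e
      rw [mem_inter, mem_singleton]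
      constructor
      · rintro ⟨h3, h4⟩
        exact hW e h4 (hFP e (hC h3)).1
      · rintro rfl
        exact ⟨hxC, hxW⟩
    rw [h2, Finset.card_singleton] at h1
    exact absurd h1 (by decide)
  have hUcut : (F ∪ P) ∩ G.cut U = ∅ := by
    ext e
    rw [mem_inter]
    constructor
    · rintro ⟨h1, h2⟩
      have h3 := hFP e h1
      rw [G.mem_cut, mU, mU] at h2
      exact absurd ⟨fun _ => h3.2, fun _ => h3.1⟩ h2
    · intro h
      simp at h
  have hUne : U.Nonempty := by
    obtain ⟨e, he⟩ := hPne
    exact ⟨G.s e, (mU _).2 ((mP e).1 he).1.1⟩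
  have hfc := G.forest_count F P hd hac U hUcut hUne
  have hPf : P.filter (fun e => G.s e ∈ U) = P := by
    ext e
    rw [mem_filter]
    constructor
    · exact fun h => h.1
    · exact fun h => ⟨h, (mU _).2 ((mP e).1 h).1.1⟩
  rw [hPf] at hfc
  set 𝒞 := U.image (G.cv F) with h𝒞
  have hPc : 1 ≤ P.card := hPne.card_pos
  -- every component is a proper nonempty set with at least 3 boundary edges
  have h3 : ∀ A ∈ 𝒞, 3 ≤ (G.cut A).card := by
    intro A hA
    rw [h𝒞, mem_image] at hA
    obtain ⟨v, hv, rfl⟩ := hA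
    refine hG.cut _ ⟨v, (G.mem_cv F v v).2 (G.Rch_refl F v)⟩ ?_
    intro huniv
    have h4 : 𝒞 = {G.cv F v} := by
      ext B
      rw [h𝒞, mem_image, mem_singleton]
      constructor
      · rintro ⟨u, hu, rfl⟩
        rw [G.cv_eq]
        have h5 : u ∈ G.cv F v := by
          rw [huniv]
          exact mem_univ u
        rw [G.mem_cv] at h5
        exact G.Rch_symm F v u h5
      · rintro rfl
        exact ⟨v, hv, rfl⟩
    rw [h4, Finset.card_singleton] at hfc
    omega
  have h6 : 3 * 𝒞.card ≤ ∑ A ∈ 𝒞, (G.cut A).card := by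
    calc 3 * 𝒞.card = ∑ A ∈ 𝒞, 3 := by rw [Finset.sum_const, smul_eq_mul, mul_comm]
      _ ≤ _ := Finset.sum_le_sum h3
  have h7 : ∑ A ∈ 𝒞, (G.cut A).card ≤ 2 * P.card + X.card := by
    have h8 : ∀ A : Finset V, (G.cut A).card = ∑ e, if e ∈ G.cut A then 1 else 0 := by
      intro A
      rw [Finset.sum_boole, Finset.filter_mem_eq_inter, Finset.univ_inter]
      rfl
    simp only [h8]
    rw [Finset.sum_comm]
    have h9 : 2 * P.card + X.card = ∑ e, (2 * (if e ∈ P then 1 else 0) +
        (if e ∈ X then 1 else 0)) := by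
      rw [Finset.sum_add_distrib, ← Finset.mul_sum, Finset.sum_boole, Finset.sum_boole,
        Finset.filter_mem_eq_inter, Finset.filter_mem_eq_inter, Finset.univ_inter,
        Finset.univ_inter]
      rfl
    rw [h9]
    refine Finset.sum_le_sum fun e _ => ?_
    rw [Finset.sum_boole]
    by_cases heF : e ∈ F
    · have h10 : {x ∈ 𝒞 | e ∈ G.cut x} = ∅ := by
        ext A
        rw [mem_filter]
        constructor
        · rintro ⟨hA, heA⟩
          rw [h𝒞, mem_image] at hA
          obtain ⟨v, hv, rfl⟩ := hA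
          have h11 := G.cv_cut F v
          have h12 : e ∈ F ∩ G.cut (G.cv F v) := mem_inter.2 ⟨heF, heA⟩
          rw [h11] at h12
          exact absurd h12 (Finset.notMem_empty _)
        · intro h
          simp at h
      rw [h10]
      simp
    · -- at most the components of the good ends
      have h10 : {x ∈ 𝒞 | e ∈ G.cut x} ⊆
          (if Gd G M w Y t (G.s e) then {G.cv F (G.s e)} else ∅) ∪
          (if Gd G M w Y t (G.t e) then {G.cv F (G.t e)} else ∅) := by
        intro A hA
        rw [mem_filter, h𝒞, mem_image] at hA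
        obtain ⟨⟨v, hv, rfl⟩, heA⟩ := hA
        have hgood : ∀ b, b ∈ G.cv F v → Gd G M w Y t b := by
          intro b hb
          rw [G.mem_cv] at hb
          rw [← mU]
          refine G.closed_Rch F U ?_ v b hv hb
          ext f
          rw [mem_inter]
          constructor
          · rintro ⟨hf1, hf2⟩
            have : f ∈ (F ∪ P) ∩ G.cut U := mem_inter.2 ⟨mem_union_left _ hf1, hf2⟩
            rw [hUcut] at this
            exact this
          · intro h
            simp at h
        rw [G.mem_cut] at heA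
        rw [mem_union]
        by_cases hs : G.s e ∈ G.cv F v
        · left
          rw [if_pos (hgood _ hs), mem_singleton, G.cv_eq]
          rw [G.mem_cv] at hs
          exact hs
        · have ht : G.t e ∈ G.cv F v := by
            by_contra ht
            exact heA ⟨fun h => absurd h hs, fun h => absurd h ht⟩
          right
          rw [if_pos (hgood _ ht), mem_singleton, G.cv_eq]
          rw [G.mem_cv] at ht
          exact ht
      have h13 := le_trans (Finset.card_le_card h10) (Finset.card_union_le _ _)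
      refine le_trans h13 ?_
      by_cases hs : Gd G M w Y t (G.s e)
      · by_cases ht : Gd G M w Y t (G.t e)
        · have hP : e ∈ P := by
            rw [mP]
            refine ⟨⟨hs, ht⟩, ?_⟩
            by_contra hno
            exact heF ((mF e).2 ⟨⟨hs, ht⟩, hno⟩)
          rw [if_pos hs, if_pos ht, if_pos hP]
          simp
        · have hX : e ∈ X := by
            rw [mX]
            exact fun h => ht (h.1 hs)
          rw [if_pos hs, if_neg ht, if_pos hX]
          simp
      · by_cases ht : Gd G M w Y t (G.t e)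
        · have hX : e ∈ X := by
            rw [mX]
            exact fun h => hs (h.2 ht)
          rw [if_neg hs, if_pos ht, if_pos hX]
          simp
        · rw [if_neg hs, if_neg ht]
          simp
  omega

/-- pointwise bound -/
theorem lemF_point (G : MG V E) (hG : C3 G) (M : Finset E) (hM : PM G M) (w : E → ℕ)
    (Y : ℕ → Finset E) (t : ℕ) :
    ((Zs G w ∩ hv w t) ∩ M).card ≤ 2 * NN G M w Y t + La G M w Y t := by
  classical
  have h1 := lemF_count G hG M hM w Y t
  have h2 := lemF_X_card G M w Y t
  have h3 : ((Zs G w ∩ hv w t) ∩ M).card ≤ NN G M w Y t + (lemFsetB G M w Y t).card := by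
    unfold NN
    refine le_trans (Finset.card_le_card ?_) (Finset.card_union_le _ _)
    intro e he
    rw [mem_inter, mem_inter] at he
    obtain ⟨⟨hz, hh⟩, hm⟩ := he
    rw [mem_union, mem_filter, mem_inter]
    by_cases hg : Gd G M w Y t (G.s e) ∧ Gd G M w Y t (G.t e)
    · right
      unfold lemFsetB
      rw [mem_filter]
      refine ⟨mem_univ _, hg, hz, hm, ?_⟩
      unfold hv at hh
      rw [mem_filter] at hh
      exact hh.2
    · left
      exact ⟨⟨hm, hh⟩, hg⟩
  omega

/-- BLOCK Fin: helper42's Lemma F -/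
theorem lemF (G : MG V E) (hG : C3 G) (μ : Finset E → ℝ) (hμ : Law G μ) (w : E → ℕ)
    (Y : Finset E → ℕ → Finset E) (_hY : ∀ M, μ M ≠ 0 → Cl G M w (Y M)) (T : ℕ)
    (hT : ∀ e, w e ≤ T) :
    wt w (Zs G w) ≤ 3 * ∑ M, μ M * ∑ t ∈ range T,
      (2 * (NN G M w (Y M) t : ℝ) + (La G M w (Y M) t : ℝ)) := by
  classical
  -- layer cake
  have h1 : ∀ e, (w e : ℝ) = ∑ t ∈ range T, (if t < w e then (1 : ℝ) else 0) := by
    intro e
    rw [Finset.sum_boole]
    have : (range T).filter (fun t => t < w e) = range (w e) := by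
      ext t
      rw [mem_filter, mem_range, mem_range]
      have := hT e
      constructor
      · exact fun h => h.2
      · exact fun h => ⟨by omega, h⟩
    rw [this, card_range]
  have h2 : ∀ (e : E), (1 : ℝ) = 3 * ∑ M, (if e ∈ M then μ M else 0) := by
    intro e
    rw [hμ.marg e]
    norm_num
  have h3 : wt w (Zs G w) = 3 * ∑ M, μ M * ∑ t ∈ range T, (((Zs G w ∩ hv w t) ∩ M).card : ℝ) := by
    unfold wt
    have h4 : ∀ e, (w e : ℝ) = 3 * ∑ M, μ M * ∑ t ∈ range T,
        (if t < w e then (if e ∈ M then (1 : ℝ) else 0) else 0) := by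
      intro e
      have h5 : (w e : ℝ) = (w e : ℝ) * (3 * ∑ M, (if e ∈ M then μ M else 0)) := by
        rw [← h2 e, mul_one]
      rw [h5, mul_left_comm, Finset.mul_sum]
      congr 1
      refine Finset.sum_congr rfl fun M _ => ?_
      by_cases hm : e ∈ M
      · simp only [if_pos hm]
        rw [mul_comm, ← h1 e]
      · simp only [if_neg hm]
        simp
    rw [Finset.sum_congr rfl fun e _ => h4 e, ← Finset.mul_sum, Finset.sum_comm]
    congr 1
    refine Finset.sum_congr rfl fun M _ => ?_
    rw [← Finset.mul_sum, Finset.sum_comm]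
    congr 1
    refine Finset.sum_congr rfl fun t _ => ?_
    have h6 : ∀ e, (if t < w e then (if e ∈ M then (1 : ℝ) else 0) else 0) =
        if (t < w e ∧ e ∈ M) then (1 : ℝ) else 0 := by
      intro e
      by_cases ha : t < w e <;> by_cases hb : e ∈ M <;> simp [ha, hb]
    simp only [h6]
    rw [Finset.sum_boole]
    congr 2
    ext e
    rw [mem_filter, mem_inter, mem_inter]
    unfold hv
    rw [mem_filter]
    simp only [mem_univ, true_and]
    tauto
  rw [h3]
  refine mul_le_mul_of_nonneg_left ?_ (by norm_num)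
  refine Finset.sum_le_sum fun M _ => ?_
  by_cases hM0 : μ M = 0
  · rw [hM0]
    simp
  · refine mul_le_mul_of_nonneg_left ?_ (hμ.nonneg M)
    refine Finset.sum_le_sum fun t _ => ?_
    have h := lemF_point G hG M (hμ.supp M hM0) w (Y M) t
    exact_mod_cast h

end Pool.Agent.Lib.MP_95e9b3_coG
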