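import Pool.Agent.Lib.MP_95e9b3_coG.Red2

/-!
# Reduction of all bridgeless multigraphs and of simple graphs
-/

set_option autoImplicit false
set_option linter.unusedSectionVars false
set_option linter.unusedVariables false

namespace Pool.Agent.Lib.MP_95e9b3_coG

open Finset Pool.Agent.Lib.MP_95e9b3_coC
open Pool.Agent.Lib.MP_95e9b3_coC.MG
open scoped symmDiff

private theorem card_del {E : Type} [Fintype E] [DecidableEq E] (e : E) :
    Fintype.card {g : E // g ≠ e} + 1 = Fintype.card E := by
  have h1 : Fintype.card {g : E // g ≠ e} = (Finset.univ.erase e).card :=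
    Fintype.card_of_subtype _ (fun x => by
      rw [Finset.mem_erase]
      exact ⟨fun h => h.1, fun h => ⟨h, Finset.mem_univ _⟩⟩)
  rw [h1, Finset.card_erase_of_mem (Finset.mem_univ e), Finset.card_univ]
  have h2 : 0 < Fintype.card E := Fintype.card_pos_iff.mpr ⟨e⟩
  omega

private theorem sum_del {E : Type} [Fintype E] [DecidableEq E] (e : E) (φ : E → ℚ) :
    φ e + ∑ g : {g : E // g ≠ e}, φ g = ∑ g, φ g := by
  have h1 : ∑ g ∈ Finset.univ.erase e, φ g = ∑ g : {g : E // g ≠ e}, φ g :=
    Finset.sum_subtype _ (fun x => by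
      rw [Finset.mem_erase]
      exact ⟨fun h => h.1, fun h => ⟨h, Finset.mem_univ _⟩⟩) φ
  rw [← h1]
  exact Finset.add_sum_erase _ φ (Finset.mem_univ e)

theorem red_multi (c : ℚ) (hc1 : 1 ≤ c)
    (H : ∀ (V E : Type) [Fintype V] [DecidableEq V] [Fintype E] [DecidableEq E] (G : MG V E),
      C3 G → ∀ w : E → ℕ, G.Cov w (c * ∑ e, (w e : ℚ))) :
    ∀ (n : ℕ) (V E : Type) [Fintype V] [DecidableEq V] [Fintype E]
    [DecidableEq E] (G : MG V E) (w : E → ℕ), G.Br0 →
    ∑ v, (G.dg Finset.univ v - 3) + Fintype.card E ≤ n →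
    G.Cov w (c * (∑ e, (w e : ℚ))) := by
  intro n
  induction n using Nat.strong_induction_on with
  | _ n ih =>
  intro V E _ _ _ _ G w hb hn
  by_cases h1 : ∃ e, G.s e = G.t e
  · obtain ⟨e, he⟩ := h1
    have hinc : ∀ v, G.inc e v = 0 ∨ G.inc e v = 2 := by
      intro v
      unfold inc
      rw [he]
      by_cases h : G.t e = v
      · rw [if_pos h]; right; rfl
      · rw [if_neg h]; left; rfl
    have hcE := card_del e
    have hdd : ∀ v, (G.del e).dg Finset.univ v + G.inc e v = G.dg Finset.univ v :=
      fun v => G.dg_del e v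
    have hm : ∑ v, ((G.del e).dg Finset.univ v - 3) ≤ ∑ v, (G.dg Finset.univ v - 3) := by
      apply Finset.sum_le_sum
      intro v _
      have := hdd v
      omega
    have h3 := ih (n - 1) (by omega) V {g : E // g ≠ e} (G.del e) (fun g => w g)
      (G.Br0_del hb e he) (by omega)
    have h4 := G.Cov_del e he w _ h3
    refine G.Cov_mono w _ _ ?_ h4
    have h5 := sum_del e (fun g => (w g : ℚ))
    have h6 : (0 : ℚ) ≤ (w e : ℚ) := Nat.cast_nonneg _
    rw [← h5]
    have h7 : (w e : ℚ) ≤ c * (w e : ℚ) := le_mul_of_one_le_left h6 hc1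
    rw [mul_add]
    linarith
  · have hl : ∀ e, G.s e ≠ G.t e := fun e he => h1 ⟨e, he⟩
    have hle : ∀ g v, G.inc g v ≤ 1 := by
      intro g v
      unfold inc
      by_cases h : G.s g = v
      · rw [if_pos h, if_neg (fun h2 => hl g (by rw [h, h2]))]
      · rw [if_neg h]
        split_ifs
        · exact le_rfl
        · exact Nat.zero_le _
    by_cases h2 : ∃ v, 4 ≤ G.dg Finset.univ v
    · obtain ⟨v, hv⟩ := h2
      have hex : ∃ e0, G.inc e0 v ≠ 0 := by
        by_contra hno
        have h3 : G.dg Finset.univ v = 0 := by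
          unfold dg
          apply Finset.sum_eq_zero
          intro e _
          by_contra h4
          exact hno ⟨e, h4⟩
        omega
      obtain ⟨e0, he0⟩ := hex
      obtain ⟨f, hf1, hf2, hf3⟩ := G.split_exists hb hl v hv e0 he0
      obtain ⟨d1, d2, d3⟩ := G.dg_spl hl v e0 f hf1 he0 hf2
      have hm : ∑ u, ((G.spl v e0 f).dg Finset.univ u - 3) < ∑ u, (G.dg Finset.univ u - 3) := by
        rw [Fintype.sum_option, d1]
        have h3 : ∑ u : V, ((G.spl v e0 f).dg Finset.univ (some u) - 3) <
            ∑ u, (G.dg Finset.univ u - 3) := by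
          refine Finset.sum_lt_sum (fun u _ => ?_) ⟨v, Finset.mem_univ _, ?_⟩
          · by_cases h : u = v
            · rw [h]; omega
            · rw [d3 u h]
          · omega
        omega
      have h3 := ih (n - 1) (by omega) (Option V) E (G.spl v e0 f) w hf3 (by omega)
      exact G.Cov_of_spl v e0 f w _ h3
    · by_cases h3 : ∃ v, G.dg Finset.univ v = 2
      · obtain ⟨v, hv⟩ := h3
        have hcard : (Finset.univ.filter (fun g => G.inc g v ≠ 0)).card = 2 := by
          rw [← hv]
          unfold dg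
          rw [Finset.card_filter]
          apply Finset.sum_congr rfl
          intro g _
          have h4 := hle g v
          by_cases h5 : G.inc g v = 0
          · rw [if_neg (fun h => h h5), h5]
          · rw [if_pos h5]
            omega
        obtain ⟨e, f, hef, hs⟩ := Finset.card_eq_two.mp hcard
        have he : G.inc e v ≠ 0 := by
          have h4 : e ∈ Finset.univ.filter (fun g => G.inc g v ≠ 0) := by
            rw [hs]
            exact Finset.mem_insert_self _ _
          exact (Finset.mem_filter.mp h4).2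
        have hf : G.inc f v ≠ 0 := by
          have h4 : f ∈ Finset.univ.filter (fun g => G.inc g v ≠ 0) := by
            rw [hs]
            exact Finset.mem_insert_of_mem (Finset.mem_singleton_self _)
          exact (Finset.mem_filter.mp h4).2
        obtain ⟨d1, d2⟩ := G.dg_sup hl v e f hef he hf hv
        have hcE := card_del f
        have hm : ∑ u, ((G.sup v e f).dg Finset.univ u - 3) ≤ ∑ u, (G.dg Finset.univ u - 3) := by
          apply Finset.sum_le_sum
          intro u _
          by_cases h : u = v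
          · rw [h, d1]
            omega
          · rw [d2 u h]
        have h4 := ih (n - 1) (by omega) V {g : E // g ≠ f} (G.sup v e f)
          (fun g => if (g : E) = e then w e + w f else w g) (G.Br0_sup hb hl v e f hef he hf hv)
          (by omega)
        refine G.Cov_mono w _ _ (le_of_eq ?_) (G.Cov_sup hl v e f hef he hf hv w _ h4)
        have h5 := sum_del f (fun g => (w g : ℚ))
        have h6 := sum_del f (fun g => ((if g = e then w e + w f else w g : ℕ) : ℚ))
        have h7 : ∑ g : E, ((if g = e then w e + w f else w g : ℕ) : ℚ) =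
            ∑ g : E, (w g : ℚ) + (w f : ℚ) := by
          have h8 : ∀ g : E, ((if g = e then w e + w f else w g : ℕ) : ℚ) =
              (w g : ℚ) + (if g = e then (w f : ℚ) else 0) := by
            intro g
            by_cases h : g = e
            · rw [if_pos h, if_pos h, h]
              push_cast
              ring
            · rw [if_neg h, if_neg h, add_zero]
          rw [Finset.sum_congr rfl (fun g _ => h8 g), Finset.sum_add_distrib,
            Finset.sum_ite_eq' Finset.univ e (fun _ => (w f : ℚ)), if_pos (Finset.mem_univ e)]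
        rw [if_neg (fun h => hef h.symm)] at h6
        have h9 : ∑ g : {g : E // g ≠ f}, ((if (g : E) = e then w e + w f else w g : ℕ) : ℚ) =
            ∑ g : E, (w g : ℚ) := by
          linarith
        rw [h9]
      · have hd : ∀ v, G.dg Finset.univ v = 0 ∨ G.dg Finset.univ v = 3 := by
          intro v
          have h4 : ¬ 4 ≤ G.dg Finset.univ v := fun h => h2 ⟨v, h⟩
          have h5 : G.dg Finset.univ v ≠ 2 := fun h => h3 ⟨v, h⟩
          have h6 : G.dg Finset.univ v ≠ 1 := by
            intro h
            have h7 := G.dg_eq Finset.univ v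
            rw [Finset.univ_inter, h] at h7
            have h8 : (Finset.univ.filter (fun e => G.s e = v ∧ G.t e = v)) = ∅ := by
              apply Finset.eq_empty_of_forall_notMem
              intro e he
              have h9 := (Finset.mem_filter.mp he).2
              exact hl e (by rw [h9.1, h9.2])
            rw [h8, Finset.card_empty] at h7
            exact hb {v} (by omega)
          omega
        obtain ⟨G', hc', hb', hC⟩ := G.Cov_restrict hd hb
        exact hC w _ (red_cubic c (fun G h w => H _ _ G h w) G' hc' hb' w)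

private theorem final_list {V : Type} [Fintype V] [DecidableEq V] (G : SimpleGraph V)
    [Fintype {e : Sym2 V // e ∈ G.edgeSet}] [DecidableEq {e : Sym2 V // e ∈ G.edgeSet}]
    (L : List (Finset {e : Sym2 V // e ∈ G.edgeSet})) :
    (∀ C ∈ L, (MG.toMG G).Ev C) →
    ∃ L' : List (Σ v : V, G.Walk v v), (∀ c ∈ L', c.2.IsCycle) ∧
      (∀ C ∈ L, ∀ e ∈ C, ∃ c ∈ L', e.1 ∈ c.2.edges) ∧
      (L'.map (fun c => c.2.length)).sum = (L.map (fun C => C.card)).sum := by
  induction L with
  | nil =>
    intro _
    exact ⟨[], fun c hc => absurd hc List.not_mem_nil, fun C hC => absurd hC List.not_mem_nil, rfl⟩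
  | cons C L ih =>
    intro hL
    obtain ⟨L1, h1, h2, h3⟩ := ih fun C' hC' => hL C' (List.mem_cons_of_mem _ hC')
    obtain ⟨L2, k1, k2, k3⟩ := MG.cyc G C (hL C List.mem_cons_self)
    refine ⟨L2 ++ L1, ?_, ?_, ?_⟩
    · intro c hc
      rw [List.mem_append] at hc
      rcases hc with hc | hc
      · exact k1 c hc
      · exact h1 c hc
    · intro C' hC' e he
      rw [List.mem_cons] at hC'
      rcases hC' with rfl | hC'
      · obtain ⟨c, hc, hce⟩ := k2 e he
        exact ⟨c, List.mem_append.2 (Or.inl hc), hce⟩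
      · obtain ⟨c, hc, hce⟩ := h2 C' hC' e he
        exact ⟨c, List.mem_append.2 (Or.inr hc), hce⟩
    · rw [List.map_append, List.sum_append, List.map_cons, List.sum_cons, h3, k3]

/-- simple graphs from multigraphs -/
theorem simple_of (c : ℚ) (V : Type) [Fintype V] [DecidableEq V] (G : SimpleGraph V)
    [Fintype {e : Sym2 V // e ∈ G.edgeSet}] [DecidableEq {e : Sym2 V // e ∈ G.edgeSet}]
    (h : (MG.toMG G).Cov (fun _ => 1)
      (c * ∑ _e : {e : Sym2 V // e ∈ G.edgeSet}, ((1 : ℕ) : ℚ))) :
    ∃ L : List (Σ v : V, G.Walk v v),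
      (∀ c ∈ L, c.2.IsCycle) ∧
      (∀ e ∈ G.edgeSet, ∃ c ∈ L, e ∈ c.2.edges) ∧
      (((L.map (fun c => c.2.length)).sum : ℕ) : ℚ) ≤ c * (Nat.card G.edgeSet : ℚ) := by
  obtain ⟨L, hL1, hL2, hL3⟩ := h
  obtain ⟨L', h1, h2, h3⟩ := final_list G L hL1
  refine ⟨L', h1, ?_, ?_⟩
  · intro e he
    obtain ⟨C, hC, heC⟩ := hL2 ⟨e, he⟩
    exact h2 C hC ⟨e, he⟩ heC
  · have e1 : (L.map (fun C : Finset {e : Sym2 V // e ∈ G.edgeSet} => ∑ _e ∈ C, 1)) =
        L.map (fun C => C.card) := by
      apply List.map_congr_left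
      intro C _
      exact (Finset.card_eq_sum_ones C).symm
    have e3 : Nat.card G.edgeSet = Fintype.card {e : Sym2 V // e ∈ G.edgeSet} :=
      Nat.card_eq_fintype_card
    have e4 : ∑ _e : {e : Sym2 V // e ∈ G.edgeSet}, ((1 : ℕ) : ℚ) =
        (Fintype.card {e : Sym2 V // e ∈ G.edgeSet} : ℚ) := by
      rw [Finset.sum_const, Finset.card_univ, nsmul_eq_mul, Nat.cast_one, mul_one]
    rw [e1, e4] at hL3
    rw [h3, e3]
    exact hL3

/-- **Reduction.** If all 3-edge-connected weighted cubic graphs have covers of weight at most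
`c w(E)`, `c ≥ 1`, then all bridgeless simple graphs have cycle covers of length at most
`c |E|`. -/
theorem red_final (c : ℚ) (hc1 : 1 ≤ c)
    (H : ∀ (V E : Type) [Fintype V] [DecidableEq V] [Fintype E] [DecidableEq E] (G : MG V E),
      C3 G → ∀ w : E → ℕ, G.Cov w (c * ∑ e, (w e : ℚ)))
    (V : Type) [Fintype V] (G : SimpleGraph V)
    (h : ∀ v w : V, G.Adj v w → (G.deleteEdges {s(v, w)}).Reachable v w) :
    ∃ L : List (Σ v : V, G.Walk v v),
      (∀ c ∈ L, c.2.IsCycle) ∧
      (∀ e ∈ G.edgeSet, ∃ c ∈ L, e ∈ c.2.edges) ∧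
      (((L.map (fun c => c.2.length)).sum : ℕ) : ℚ) ≤ c * (Nat.card G.edgeSet : ℚ) := by
  classical
  have : Fintype {e : Sym2 V // e ∈ G.edgeSet} := Fintype.ofFinite _
  exact simple_of c V G (red_multi c hc1 H _ V {e : Sym2 V // e ∈ G.edgeSet} (MG.toMG G)
    (fun _ => 1) (MG.Br0_toMG G h) le_rfl)

end Pool.Agent.Lib.MP_95e9b3_coG
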