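import Pool.Agent.Lib.MP_95e9b3_coG.MainGen
import Pool.Agent.Lib.MP_95e9b3_coG.Red3

/-!
# Route G: the theorem for all bridgeless simple graphs

`mainGen` (all 3-edge-connected cubic weighted multigraphs) and the reduction `red_final`.
-/

set_option autoImplicit false

namespace Pool.Agent.Lib.MP_95e9b3_coG

open Finset Pool.Agent.Lib.MP_95e9b3_coC

/-- there is a constant `c < 5/3` such that every bridgeless graph has a cycle cover of length
at most `c |E|` -/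
theorem finalGen : ∃ c : ℝ, c < 5 / 3 ∧ ∀ (V : Type) [Fintype V] (G : SimpleGraph V),
    (∀ v w : V, G.Adj v w → (G.deleteEdges {s(v, w)}).Reachable v w) →
    ∃ L : List (Σ v : V, G.Walk v v),
      (∀ c ∈ L, c.2.IsCycle) ∧
      (∀ e ∈ G.edgeSet, ∃ c ∈ L, e ∈ c.2.edges) ∧
      (((L.map (fun c => c.2.length)).sum : ℕ) : ℝ) ≤ c * (Nat.card G.edgeSet : ℝ) := by
  obtain ⟨ε, hε, H⟩ := mainGen
  have h1 : (1 : ℚ) ≤ 5 / 3 - min ε (1 / 3) := by
    have := min_le_right ε (1 / 3)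
    linarith
  have h0 : (0 : ℚ) < min ε (1 / 3) := lt_min hε (by norm_num)
  refine ⟨((5 / 3 - min ε (1 / 3) : ℚ) : ℝ), ?_, ?_⟩
  · have h2 : (5 / 3 - min ε (1 / 3) : ℚ) < 5 / 3 := by linarith
    have h3 : ((5 / 3 - min ε (1 / 3) : ℚ) : ℝ) < ((5 / 3 : ℚ) : ℝ) := by exact_mod_cast h2
    refine lt_of_lt_of_eq h3 ?_
    norm_num
  · intro V _ G h
    obtain ⟨L, hL1, hL2, hL3⟩ := red_final (5 / 3 - min ε (1 / 3)) h1 (fun V E _ _ _ _ G hG w => by
      refine G.Cov_mono w _ _ ?_ (H V E G hG w)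
      refine mul_le_mul_of_nonneg_right ?_ (Finset.sum_nonneg fun e _ => Nat.cast_nonneg _)
      have := min_le_left ε (1 / 3)
      linarith) V G h
    exact ⟨L, hL1, hL2, by exact_mod_cast hL3⟩

end Pool.Agent.Lib.MP_95e9b3_coG
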