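import Pool.Agent.Lib.MP_95e9b3_coG.R4_fl4

/-!
# Route G, block R4: the finite lemma with an explicit constant

Dirichlet approximation: the weights of the (at most seven) gaps, divided by the largest one, are
multiplied by some `q ≤ 7 ^ 6` such that all of them are at distance less than `1 / 7` from
integers. The exact lemma for the integers gives class sums of absolute value at least `1`.
-/

set_option autoImplicit false

namespace Pool.Agent.Lib.MP_95e9b3_coG

open Finset Pool.Agent.Lib.MP_95e9b3_coC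

/-- simultaneous approximation by pigeonhole -/
theorem dirichlet7 {J : Type} [Fintype J] (α : J → ℝ) :
    ∃ q : ℕ, 1 ≤ q ∧ q ≤ 7 ^ Fintype.card J ∧ ∃ m : J → ℤ, ∀ i, |(q : ℝ) * α i - m i| < 1 / 7 := by
  classical
  have hlt : ∀ (q : ℕ) (i : J), ⌊7 * Int.fract ((q : ℝ) * α i)⌋.toNat < 7 := by
    intro q i
    have h1 := Int.fract_lt_one ((q : ℝ) * α i)
    have h2 : ⌊7 * Int.fract ((q : ℝ) * α i)⌋ < 7 := by
      rw [Int.floor_lt]
      push_cast
      linarith
    omega
  let f : Fin (7 ^ Fintype.card J + 1) → (J → Fin 7) := fun q i =>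
    ⟨⌊7 * Int.fract (((q : ℕ) : ℝ) * α i)⌋.toNat, hlt q i⟩
  obtain ⟨a, b, hab, hf⟩ := Fintype.exists_ne_map_eq_of_card_lt f (by
    rw [Fintype.card_fun, Fintype.card_fin, Fintype.card_fin]
    exact Nat.lt_succ_self _)
  have key : ∀ a b : Fin (7 ^ Fintype.card J + 1), a < b → f a = f b →
      ∃ q : ℕ, 1 ≤ q ∧ q ≤ 7 ^ Fintype.card J ∧
        ∃ m : J → ℤ, ∀ i, |(q : ℝ) * α i - m i| < 1 / 7 := by
    intro a b hab hf
    have hab' : (a : ℕ) < (b : ℕ) := hab
    have hb := b.2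
    refine ⟨b - a, by omega, by omega,
      fun i => ⌊((b : ℕ) : ℝ) * α i⌋ - ⌊((a : ℕ) : ℝ) * α i⌋, ?_⟩
    intro i
    have h1 : ⌊7 * Int.fract (((a : ℕ) : ℝ) * α i)⌋.toNat =
        ⌊7 * Int.fract (((b : ℕ) : ℝ) * α i)⌋.toNat := congrArg Fin.val (congrFun hf i)
    have na : 0 ≤ ⌊7 * Int.fract (((a : ℕ) : ℝ) * α i)⌋ :=
      Int.floor_nonneg.2 (mul_nonneg (by norm_num) (Int.fract_nonneg _))
    have nb : 0 ≤ ⌊7 * Int.fract (((b : ℕ) : ℝ) * α i)⌋ :=
      Int.floor_nonneg.2 (mul_nonneg (by norm_num) (Int.fract_nonneg _))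
    have h2 : ⌊7 * Int.fract (((a : ℕ) : ℝ) * α i)⌋ = ⌊7 * Int.fract (((b : ℕ) : ℝ) * α i)⌋ := by
      omega
    have h3 := Int.abs_sub_lt_one_of_floor_eq_floor h2
    have h4 : (((b : ℕ) - (a : ℕ) : ℕ) : ℝ) * α i -
        ((⌊((b : ℕ) : ℝ) * α i⌋ - ⌊((a : ℕ) : ℝ) * α i⌋ : ℤ) : ℝ) =
        - (Int.fract (((a : ℕ) : ℝ) * α i) - Int.fract (((b : ℕ) : ℝ) * α i)) := by
      rw [Nat.cast_sub hab'.le]
      unfold Int.fract
      push_cast
      ring
    rw [h4, abs_neg]
    have h5 : |7 * Int.fract (((a : ℕ) : ℝ) * α i) - 7 * Int.fract (((b : ℕ) : ℝ) * α i)| =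
        7 * |Int.fract (((a : ℕ) : ℝ) * α i) - Int.fract (((b : ℕ) : ℝ) * α i)| := by
      rw [← mul_sub, abs_mul, abs_of_pos (by norm_num : (0 : ℝ) < 7)]
    rw [h5] at h3
    linarith
  rcases lt_or_gt_of_ne hab with h | h
  · exact key a b h hf
  · exact key b a h hf.symm

section expl

variable {ι R : Type} [Fintype ι] [Fintype R] [DecidableEq R] (D : ι → Finset R)

omit [Fintype R] [DecidableEq R] in
/-- class sums of integer weights are integers -/
theorem Sv_int (p : R → ZMod 2 × ZMod 2) (r : ι → ι → Prop) (e : ι) (m : ι → ℤ) :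
    ∃ z : ℤ, Sv D (fun f => (m f : ℝ)) p r e = z := by
  classical
  refine ⟨∑ f, if r e f then (if sta D p f = sta D p e then m f else - m f) else 0, ?_⟩
  unfold Sv
  push_cast
  refine Finset.sum_congr rfl fun f _ => ?_
  by_cases h : r e f
  · by_cases h' : sta D p f = sta D p e
    · simp only [if_pos h, if_pos h']
    · simp only [if_pos h, if_neg h']
  · simp only [if_neg h]

omit [Fintype R] [DecidableEq R] in
/-- class sums of close weights are close -/
theorem Sv_close (p : R → ZMod 2 × ZMod 2) (r : ι → ι → Prop) (e : ι) (u v : ι → ℝ) :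
    |Sv D u p r e - Sv D v p r e| ≤ ∑ f, |u f - v f| := by
  classical
  unfold Sv
  rw [← Finset.sum_sub_distrib]
  refine (Finset.abs_sum_le_sum_abs _ _).trans (Finset.sum_le_sum fun f _ => ?_)
  by_cases h : r e f
  · by_cases h' : sta D p f = sta D p e
    · rw [if_pos h, if_pos h', if_pos h, if_pos h']
    · rw [if_pos h, if_neg h', if_pos h, if_neg h', neg_sub_neg, abs_sub_comm]
  · rw [if_neg h, if_neg h, sub_zero, abs_zero]
    exact abs_nonneg _

omit [Fintype R] [DecidableEq R] in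
theorem Sv_mul (p : R → ZMod 2 × ZMod 2) (r : ι → ι → Prop) (e : ι) (w : ι → ℝ) (t : ℝ) :
    Sv D (fun f => t * w f) p r e = t * Sv D w p r e := by
  classical
  unfold Sv
  rw [Finset.mul_sum]
  refine Finset.sum_congr rfl fun f _ => ?_
  by_cases h : r e f
  · by_cases h' : sta D p f = sta D p e
    · rw [if_pos h, if_pos h', if_pos h, if_pos h']
    · rw [if_pos h, if_neg h', if_pos h, if_neg h', mul_neg]
  · rw [if_neg h, if_neg h, mul_zero]

theorem fl_expl (hch : ∀ e f, D e ⊆ D f ∨ D f ⊆ D e) (hinj : Function.Injective D)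
    (hu : ∀ e, D e ≠ univ) (g : ι) (hg : D g = ∅)
    (hR4 : 4 ≤ Fintype.card R) (hR : Fintype.card R ≤ 7) (K0 : Finset R)
    (hK0 : 2 * K0.card ≤ Fintype.card R ∨ (K0 = univ ∧ Fintype.card R = 4)) (w : ι → ℝ)
    (hw : ∀ e, 0 ≤ w e) :
    ((∃ l, l ∉ K0 ∧ GLc D (1 / 823543 * w g) w l) ∨
        ((K0.card = 3 ∨ K0 = univ) ∧ GPc D (1 / 823543 * w g) w K0)) := by
  classical
  rcases (hw g).eq_or_lt with h0 | h0
  · rw [← h0, mul_zero]
    rcases hK0 with hK0 | hK0
    · left
      have h1 : ∃ l, l ∉ K0 := by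
        by_contra hc
        push Not at hc
        have h2 : K0 = univ := Finset.eq_univ_iff_forall.2 hc
        rw [h2, Finset.card_univ] at hK0
        omega
      obtain ⟨l, hl⟩ := h1
      exact ⟨l, hl, fun _ _ _ _ _ _ _ _ _ _ _ _ _ _ _ _ => ⟨g, Or.inl (abs_nonneg _)⟩⟩
    · right
      exact ⟨Or.inr hK0.1, fun _ _ _ _ _ _ _ => ⟨g, Or.inl (abs_nonneg _)⟩⟩
  -- the number of gaps
  have hι : Fintype.card ι ≤ 7 := by
    have h1 : ((univ : Finset ι).image (fun e => (D e).card)) ⊆ Finset.range (Fintype.card R) := by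
      intro x hx
      obtain ⟨e, _, rfl⟩ := Finset.mem_image.1 hx
      rw [Finset.mem_range, Finset.card_lt_iff_ne_univ]
      exact hu e
    have h2 := Finset.card_le_card h1
    rw [Finset.card_image_of_injOn, Finset.card_range, Finset.card_univ] at h2
    · omega
    · intro e _ e' _ h
      rcases hch e e' with h1 | h1
      · exact hinj (Finset.eq_of_subset_of_card_le h1 (le_of_eq h.symm))
      · exact (hinj (Finset.eq_of_subset_of_card_le h1 (le_of_eq h))).symm
  have hJ : Fintype.card {i : ι // i ≠ g} ≤ 6 := by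
    have h1 := Fintype.card_subtype_compl (fun i : ι => i = g)
    rw [Fintype.card_subtype_eq] at h1
    have h2 : Fintype.card {i : ι // i ≠ g} = Fintype.card ι - 1 := h1
    omega
  obtain ⟨q, hq1, hq2, m0, hm0⟩ := dirichlet7 (fun i : {i : ι // i ≠ g} => w i / w g)
  have hq : q ≤ 117649 := by
    refine hq2.trans ?_
    calc 7 ^ Fintype.card {i : ι // i ≠ g} ≤ 7 ^ 6 := Nat.pow_le_pow_right (by norm_num) hJ
      _ = 117649 := by norm_num
  let m : ι → ℤ := fun i => if h : i = g then (q : ℤ) else m0 ⟨i, h⟩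
  have hmg : m g = q := dif_pos rfl
  have hmi : ∀ i, i ≠ g → |(q : ℝ) * (w i / w g) - m i| < 1 / 7 := by
    intro i hi
    have h1 : m i = m0 ⟨i, hi⟩ := dif_neg hi
    rw [h1]
    exact hm0 ⟨i, hi⟩
  have hq0 : (1 : ℝ) ≤ (q : ℝ) := by exact_mod_cast hq1
  have hsum : ∑ f, |(q : ℝ) * (w f / w g) - m f| ≤ 6 / 7 := by
    rw [← Finset.add_sum_erase _ _ (Finset.mem_univ g)]
    have h1 : |(q : ℝ) * (w g / w g) - m g| = 0 := by
      rw [hmg, div_self h0.ne', mul_one]
      push_cast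
      rw [sub_self, abs_zero]
    have h2 : ∑ f ∈ univ.erase g, |(q : ℝ) * (w f / w g) - m f| ≤
        ∑ f ∈ univ.erase g, (1 / 7 : ℝ) :=
      Finset.sum_le_sum fun f hf => (hmi f (Finset.mem_erase.1 hf).1).le
    rw [Finset.sum_const, Finset.card_erase_of_mem (Finset.mem_univ g), Finset.card_univ,
      nsmul_eq_mul] at h2
    have h3 : ((Fintype.card ι - 1 : ℕ) : ℝ) ≤ 6 := by
      have : Fintype.card ι - 1 ≤ 6 := by omega
      exact_mod_cast this
    rw [h1, zero_add]
    linarith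
  have hm : ∀ e, (0 : ℝ) ≤ (m e : ℝ) := by
    intro e
    by_cases he : e = g
    · rw [he, hmg]
      exact_mod_cast Nat.zero_le q
    · have h1 := abs_lt.1 (hmi e he)
      have h2 : 0 ≤ (q : ℝ) * (w e / w g) :=
        mul_nonneg (Nat.cast_nonneg q) (div_nonneg (hw e) h0.le)
      have h3 : (-1 : ℝ) < (m e : ℝ) := by linarith
      have h4 : (-1 : ℤ) < m e := by exact_mod_cast h3
      have h5 : (0 : ℤ) ≤ m e := by omega
      exact_mod_cast h5
  have hmg0 : (0 : ℝ) < (m g : ℝ) := by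
    rw [hmg]
    have : (0 : ℤ) < (q : ℤ) := by omega
    exact_mod_cast this
  -- from integer weights to real weights
  have key : ∀ (p : R → ZMod 2 × ZMod 2) (r : ι → ι → Prop) (e : ι),
      Sv D (fun f => (m f : ℝ)) p r e ≠ 0 → 1 / 823543 * w g ≤ |Sv D w p r e| := by
    intro p r e hne
    obtain ⟨z, hz⟩ := Sv_int D p r e m
    rw [hz] at hne
    have hz0 : z ≠ 0 := by
      intro h
      apply hne
      rw [h]
      simp
    have hz1 : (1 : ℝ) ≤ |(z : ℝ)| := by
      have := Int.one_le_abs hz0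
      exact_mod_cast this
    have h1 := Sv_close D p r e (fun f => (q : ℝ) * (w f / w g)) (fun f => (m f : ℝ))
    rw [hz] at h1
    have h2 : Sv D (fun f => (q : ℝ) * (w f / w g)) p r e = (q : ℝ) * (Sv D w p r e / w g) := by
      rw [Sv_mul D p r e (fun f => w f / w g) q, Sv_div]
    rw [h2] at h1
    have h3 : 1 / 7 ≤ |(q : ℝ) * (Sv D w p r e / w g)| := by
      have h4 : |(z : ℝ)| ≤ |(q : ℝ) * (Sv D w p r e / w g)| +
          |(q : ℝ) * (Sv D w p r e / w g) - z| := by
        have h5 := abs_sub_abs_le_abs_sub (z : ℝ) ((q : ℝ) * (Sv D w p r e / w g))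
        rw [abs_sub_comm] at h5
        linarith
      have h6 : |(q : ℝ) * (Sv D w p r e / w g) - z| ≤ 6 / 7 := h1.trans hsum
      linarith
    rw [abs_mul, abs_div, abs_of_pos h0, abs_of_nonneg (Nat.cast_nonneg q), ← mul_div_assoc,
      le_div_iff₀ h0] at h3
    have hq' : (q : ℝ) ≤ 117649 := by exact_mod_cast hq
    have h7 : (q : ℝ) * |Sv D w p r e| ≤ 117649 * |Sv D w p r e| :=
      mul_le_mul_of_nonneg_right hq' (abs_nonneg _)
    linarith
  rcases fl_exact D (fun f => (m f : ℝ)) hch hinj hu hm g hg hmg0 hR4 hR K0 hK0 with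
    ⟨l, hl, hG⟩ | ⟨hK, hG⟩
  · left
    refine ⟨l, hl, ?_⟩
    intro p s hs s' hs' hss r r' r₁ r₂ b1 b2 b3 b4 b5 b6
    obtain ⟨e, he⟩ := hG p s hs s' hs' hss r r' r₁ r₂ b1 b2 b3 b4 b5 b6
    refine ⟨e, ?_⟩
    rcases he with he | he | he | he
    · exact Or.inl (key _ _ _ he)
    · exact Or.inr (Or.inl (key _ _ _ he))
    · exact Or.inr (Or.inr (Or.inl (key _ _ _ he)))
    · exact Or.inr (Or.inr (Or.inr (key _ _ _ he)))
  · right
    refine ⟨hK, ?_⟩
    intro p hp hp' r r' b1 b2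
    obtain ⟨e, he⟩ := hG p hp hp' r r' b1 b2
    refine ⟨e, ?_⟩
    rcases he with he | he
    · exact Or.inl (key _ _ _ he)
    · exact Or.inr (key _ _ _ he)

end expl

/-- the finite lemma with the explicit constant `1 / 7 ^ 7` -/
theorem fl4x : ∀ (E : Type) [Fintype E] [DecidableEq E] (K K0 A0 : Finset E)
    (D : E → Finset E) (g : E) (w : E → ℕ), 4 ≤ K.card → K.card ≤ 7 → K0 ⊆ K →
    (2 * K0.card ≤ K.card ∨ (K0 = K ∧ K.card = 4)) → g ∈ A0 → D g = ∅ →
    (∀ e ∈ A0, D e ⊆ K) → (∀ e ∈ A0, D e ≠ K) → (∀ e ∈ A0, ∀ f ∈ A0, D e ⊆ D f ∨ D f ⊆ D e) →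
    (∀ e ∈ A0, ∀ f ∈ A0, e ≠ f → D e ≠ D f) → (∀ e ∈ A0, w e ≤ w g) →
    (∃ l ∈ K, l ∉ K0 ∧ GoodL (1 / 823543) K A0 D g w l) ∨
      ((K0.card = 3 ∨ K0 = K) ∧ GoodP (1 / 823543) K K0 A0 D g w) := by
  classical
  intro E _ _ K K0 A0 D g w hK4 hK7 hK0K hK0 hg hDg hDK hDne hch hinj _
  -- the number of gaps
  have hA0 : A0.card < 8 := by
    have h1 : A0.image (fun e => (D e).card) ⊆ Finset.range K.card := by
      intro x hx
      rw [Finset.mem_image] at hx
      obtain ⟨e, he, rfl⟩ := hx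
      rw [Finset.mem_range]
      exact Finset.card_lt_card (Finset.ssubset_iff_subset_ne.2 ⟨hDK e he, hDne e he⟩)
    have h2 := Finset.card_le_card h1
    rw [Finset.card_range, Finset.card_image_of_injOn] at h2
    · omega
    · intro e he f hf hef
      by_contra hne
      have hef' : (D e).card = (D f).card := hef
      rcases hch e he f hf with h3 | h3
      · exact hinj e he f hf hne (Finset.eq_of_subset_of_card_le h3 (le_of_eq hef'.symm))
      · exact hinj e he f hf hne (Finset.eq_of_subset_of_card_le h3 (le_of_eq hef')).symm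
  obtain ⟨a⟩ : Nonempty (Fin A0.card ≃ A0) := ⟨A0.equivFin.symm⟩
  obtain ⟨b⟩ : Nonempty (Fin K.card ≃ K) := ⟨K.equivFin.symm⟩
  obtain ⟨g', hg'⟩ : ∃ i : Fin A0.card, (a i : E) = g :=
    ⟨a.symm ⟨g, hg⟩, by rw [Equiv.apply_symm_apply]⟩
  obtain ⟨K0', hK0'⟩ : ∃ S : Finset (Fin K.card), S = univ.filter (fun j => (b j : E) ∈ K0) :=
    ⟨_, rfl⟩
  have hcard : K0'.card = K0.card := by
    have h1 := sum_K K b K0 hK0K (fun _ => (1 : ℕ))
    rw [← hK0', Finset.sum_const, Finset.sum_const, smul_eq_mul, mul_one, smul_eq_mul,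
      mul_one] at h1
    exact h1
  have huniv : K0' = univ ↔ K0 = K := by
    constructor
    · intro h
      refine Finset.Subset.antisymm hK0K fun x hx => ?_
      have h1 : b.symm ⟨x, hx⟩ ∈ K0' := by rw [h]; exact Finset.mem_univ _
      rw [hK0', Finset.mem_filter, Equiv.apply_symm_apply] at h1
      exact h1.2
    · intro h
      rw [Finset.eq_univ_iff_forall]
      intro j
      rw [hK0', Finset.mem_filter, h]
      exact ⟨Finset.mem_univ j, (b j).2⟩
  have hwg' : (w (a g') : ℝ) = (w g : ℝ) := by rw [hg']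
  have key := fl_expl (Dt K A0 D a b) (by
      intro i j
      rcases hch _ (a i).2 _ (a j).2 with h | h
      · exact Or.inl ((Dt_sub K A0 D a b hDK i j).2 h)
      · exact Or.inr ((Dt_sub K A0 D a b hDK j i).2 h)) (by
      intro i j hij
      have h1 : D (a i) = D (a j) := Finset.Subset.antisymm
        ((Dt_sub K A0 D a b hDK i j).1 (by rw [hij])) ((Dt_sub K A0 D a b hDK j i).1 (by rw [hij]))
      by_contra hne
      exact hinj _ (a i).2 _ (a j).2 (fun h => hne (a.injective (Subtype.ext h))) h1) (by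
      intro i hi
      apply hDne _ (a i).2
      refine Finset.Subset.antisymm (hDK _ (a i).2) fun x hx => ?_
      have h1 : b.symm ⟨x, hx⟩ ∈ Dt K A0 D a b i := by rw [hi]; exact Finset.mem_univ _
      rw [mem_Dt, Equiv.apply_symm_apply] at h1
      exact h1) g' (by
      rw [Finset.eq_empty_iff_forall_notMem]
      intro j hj
      rw [mem_Dt, hg', hDg] at hj
      exact absurd hj (Finset.notMem_empty _))
      (by rw [Fintype.card_fin]; exact hK4) (by rw [Fintype.card_fin]; exact hK7) K0' (by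
      rw [Fintype.card_fin]
      rcases hK0 with h | ⟨h1, h2⟩
      · left
        rw [hcard]
        exact h
      · right
        exact ⟨huniv.2 h1, h2⟩) (fun i => (w (a i) : ℝ)) (fun i => Nat.cast_nonneg _)
  rcases key with ⟨l, hl, hG⟩ | ⟨hKK, hG⟩
  · left
    refine ⟨b l, (b l).2, ?_, ?_⟩
    · intro h
      apply hl
      rw [hK0', Finset.mem_filter]
      exact ⟨Finset.mem_univ l, h⟩
    · refine GoodL_of K A0 D w a b hDK (1 / 823543) g l ?_
      rw [← hwg']
      exact hG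
  · right
    refine ⟨?_, ?_⟩
    · rcases hKK with h | h
      · left; rw [← hcard]; exact h
      · right; exact huniv.1 h
    · refine GoodP_of K A0 D w a b hDK (1 / 823543) g K0 ?_
      rw [← hwg', ← hK0']
      exact hG

end Pool.Agent.Lib.MP_95e9b3_coG
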