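import Pool.Agent.Lib.MP_95e9b3_coG.R4Of
import Pool.Agent.Lib.MP_95e9b3_coG.R4FLx

/-! # Route G, block R4: the explicit constant -/

set_option autoImplicit false

namespace Pool.Agent.Lib.MP_95e9b3_coG

open Finset Pool.Agent.Lib.MP_95e9b3_coC

/-- R3 without the hypothesis H5, explicit constant -/
theorem R4x (V E : Type) [Fintype V] [DecidableEq V] [Fintype E]
    [DecidableEq E] (G : MG V E) (hG : C3 G) (M : Finset E) (hM : PM G M)
    (w : E → ℕ) (Y : ℕ → Finset E) (hY : Cl G M w Y) (T : ℕ) :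
    G.Cov w (3 / 2 * (∑ e, (w e : ℚ)) + 1 / 2 * (∑ e ∈ M, (w e : ℚ))
      - 1 / (1152 * 823543) * ∑ t ∈ range T, (NS G M w Y t : ℚ)) :=
  R4Of (1 / 823543) (by positivity) fl4x (1 / (1152 * 823543)) (by norm_num) (by norm_num)
    V E G hG M hM w Y hY T

end Pool.Agent.Lib.MP_95e9b3_coG
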