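import Pool.Agent.Lib.MP_95e9b3_coG.MainGenOf
import Pool.Agent.Lib.MP_95e9b3_coG.R4x
import Pool.Agent.Lib.MP_95e9b3_coG.Red3

/-!
# Route G: the theorem for all bridgeless simple graphs, with an explicit constant
-/

set_option autoImplicit false

namespace Pool.Agent.Lib.MP_95e9b3_coG

open Finset Pool.Agent.Lib.MP_95e9b3_coC

/-- every bridgeless graph has a cycle cover of length at most `(5/3 - 10^(-14)) |E|` -/
theorem finalX (V : Type) [Fintype V] (G : SimpleGraph V)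
    (h : ∀ v w : V, G.Adj v w → (G.deleteEdges {s(v, w)}).Reachable v w) :
    ∃ L : List (Σ v : V, G.Walk v v),
      (∀ C ∈ L, C.2.IsCycle) ∧
      (∀ e ∈ G.edgeSet, ∃ C ∈ L, e ∈ C.2.edges) ∧
      (((L.map (fun C => C.2.length)).sum : ℕ) : ℝ) ≤
        (5 / 3 - 1 / 10 ^ 14) * (Nat.card G.edgeSet : ℝ) := by
  obtain ⟨L, hL1, hL2, hL3⟩ := red_final (5 / 3 - 1 / 10 ^ 14) (by norm_num)
    (fun V E _ _ _ _ G hG w => by
      refine G.Cov_mono w _ _ ?_ (mainGenOf (1 / (1152 * 823543)) (by norm_num) R4x V E G hG w)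
      refine mul_le_mul_of_nonneg_right ?_ (Finset.sum_nonneg fun e _ => Nat.cast_nonneg _)
      norm_num) V G h
  have h4 : ((((L.map (fun C => C.2.length)).sum : ℕ) : ℚ) : ℝ) ≤
      (((5 / 3 - 1 / 10 ^ 14) * (Nat.card G.edgeSet : ℚ) : ℚ) : ℝ) := Rat.cast_le.2 hL3
  rw [Rat.cast_natCast] at h4
  refine ⟨L, hL1, hL2, h4.trans (le_of_eq ?_)⟩
  push_cast
  rfl

end Pool.Agent.Lib.MP_95e9b3_coG
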