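import Pool.Agent.Lib.MP_95e9b3_coG.L4Defs

/-!
# Route G, case B: all circuits meeting an all-light solid 4-set lie in one part

`CL`: if the 4-set `X` (connected, bridgeless, all inner edges light) meets `k ≥ 2` parts `Z`, then
`B = Z ∩ X` has at least 4 boundary edges (3 would give only one edge of `M` in `cut B`, but the
at least two edges of `cut B` inside `X` join different parts, so they are in `M`);
`∑ d(B) = 2 e + 4`, so `e ≥ 2 (k - 1)` light edges of `M` join the parts, against maximality.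
-/

set_option autoImplicit false

namespace Pool.Agent.Lib.MP_95e9b3_coG

open Finset Pool.Agent.Lib.MP_95e9b3_coC

variable {V E : Type} [Fintype V] [DecidableEq V] [Fintype E] [DecidableEq E]

/-- the sum of the boundaries of the classes of `X` -/
theorem L4_sum (G : MG V E) (hG : C3 G) (X : Finset V) (c : V → Finset V) :
    ∑ Z ∈ X.image c, (G.cut (X.filter (fun v => c v = Z))).card =
      2 * (univ.filter (fun e => (G.s e ∈ X ∧ G.t e ∈ X) ∧ c (G.s e) ≠ c (G.t e))).card
        + (G.cut X).card := by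
  classical
  have h1 : ∀ U : Finset V, 3 * U.card =
      2 * (univ.filter (fun e => G.s e ∈ U ∧ G.t e ∈ U)).card + (G.cut U).card := by
    intro U
    have h2 := G.sum_dg univ U
    rw [sum_congr rfl fun v _ => hG.deg v, sum_const, smul_eq_mul, univ_inter] at h2
    omega
  have h2 := h1 X
  have h3 : ∑ Z ∈ X.image c, 3 * (X.filter (fun v => c v = Z)).card = 3 * X.card := by
    rw [← mul_sum, ← card_eq_sum_card_image c X]
  have h4 : ∑ Z ∈ X.image c, (univ.filter (fun e => G.s e ∈ X.filter (fun v => c v = Z) ∧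
      G.t e ∈ X.filter (fun v => c v = Z))).card =
      (univ.filter (fun e => (G.s e ∈ X ∧ G.t e ∈ X) ∧ c (G.s e) = c (G.t e))).card := by
    rw [card_eq_sum_card_fiberwise (f := fun e => c (G.s e)) (t := X.image c)]
    · refine sum_congr rfl fun Z _ => ?_
      congr 1
      ext e
      simp only [mem_filter, mem_univ, true_and]
      constructor
      · rintro ⟨⟨a, b⟩, a', b'⟩
        exact ⟨⟨⟨a, a'⟩, b.trans b'.symm⟩, b⟩
      · rintro ⟨⟨⟨a, a'⟩, b⟩, b'⟩
        exact ⟨⟨a, b'⟩, a', b.symm.trans b'⟩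
    · intro e he
      have he' := (mem_filter.mp (mem_coe.mp he)).2
      exact mem_coe.mpr (mem_image_of_mem _ he'.1.1)
  have h5 : (univ.filter (fun e => (G.s e ∈ X ∧ G.t e ∈ X) ∧ c (G.s e) = c (G.t e))).card +
      (univ.filter (fun e => (G.s e ∈ X ∧ G.t e ∈ X) ∧ c (G.s e) ≠ c (G.t e))).card =
      (univ.filter (fun e => G.s e ∈ X ∧ G.t e ∈ X)).card := by
    rw [← card_filter_add_card_filter_not (s := univ.filter (fun e => G.s e ∈ X ∧ G.t e ∈ X))
      (fun e => c (G.s e) = c (G.t e)), filter_filter, filter_filter]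
  have h6 : ∑ Z ∈ X.image c, 3 * (X.filter (fun v => c v = Z)).card =
      2 * (∑ Z ∈ X.image c, (univ.filter (fun e => G.s e ∈ X.filter (fun v => c v = Z) ∧
        G.t e ∈ X.filter (fun v => c v = Z))).card) +
      ∑ Z ∈ X.image c, (G.cut (X.filter (fun v => c v = Z))).card := by
    rw [mul_sum, ← sum_add_distrib]
    exact sum_congr rfl fun Z _ => h1 _
  omega

/-- LEMMA CL (note 61c (3)) -/
theorem CL (G : MG V E) (hG : C3 G) (M : Finset E) (hM : PM G M) (w : E → ℕ)
    (Y : ℕ → Finset E) (hY : Cl G M w Y) (hx : Mx G M w Y) (r : V) (t : ℕ) (X : Finset V)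
    (h : S4 G w r t X) : ∀ u ∈ X, ∀ v ∈ X, pt G M Y t u = pt G M Y t v := by
  classical
  intro u hu v hv
  by_contra hne
  set c : V → Finset V := pt G M Y t with hc
  set K := X.image c with hK
  have hK2 : 2 ≤ K.card := by
    have h1 : ({c u, c v} : Finset (Finset V)) ⊆ K := by
      intro Z hZ
      rw [mem_insert, mem_singleton] at hZ
      rcases hZ with rfl | rfl
      · exact mem_image_of_mem _ hu
      · exact mem_image_of_mem _ hv
    have h2 := card_le_card h1
    rwa [card_pair hne] at h2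
  set D : Finset E := univ.filter (fun e => (G.s e ∈ X ∧ G.t e ∈ X) ∧ c (G.s e) ≠ c (G.t e))
    with hD
  have hDmem : ∀ e, e ∈ D ↔ (G.s e ∈ X ∧ G.t e ∈ X) ∧ c (G.s e) ≠ c (G.t e) := by
    intro e
    rw [hD, mem_filter]
    exact ⟨fun h => h.2, fun h => ⟨mem_univ _, h⟩⟩
  have hDM : D ⊆ M := by
    intro e he
    by_contra heM
    exact ((hDmem e).mp he).2 (cnt_F G M Y t e heM)
  have hDl : D ⊆ M ∩ lt w t := by
    intro e he
    have h1 := (hDmem e).mp he
    exact mem_inter.mpr ⟨hDM he, (mem_lt w t e).mpr (h.light e h1.1.1 h1.1.2)⟩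
  -- every class has at least 4 boundary edges
  have h4 : ∀ Z ∈ K, 4 ≤ (G.cut (X.filter (fun v => c v = Z))).card := by
    intro Z hZ
    obtain ⟨a, ha, haZ⟩ := mem_image.mp hZ
    have hne' : (X.filter (fun v => c v = Z)).Nonempty := ⟨a, mem_filter.mpr ⟨ha, haZ⟩⟩
    have hnu : X.filter (fun v => c v = Z) ≠ univ := by
      intro h1
      have h2 := mem_univ r
      rw [← h1] at h2
      exact h.nr (mem_filter.mp h2).1
    have h3 := hG.cut _ hne' hnu
    by_contra hlt
    have h33 : (G.cut (X.filter (fun v => c v = Z))).card = 3 := by omega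
    have h1 := hM.three _ h33
    have hnX : X.filter (fun v => c v = Z) ≠ X := by
      intro hX
      have hall : ∀ b ∈ X, c b = Z := by
        intro b hb
        rw [← hX] at hb
        exact (mem_filter.mp hb).2
      exact hne ((hall u hu).trans (hall v hv).symm)
    have h2 := h.solid _ (filter_subset _ _) hne' hnX
    have h5 : inn G w t X (X.filter (fun v => c v = Z)) ⊆
        M ∩ G.cut (X.filter (fun v => c v = Z)) := by
      intro e he
      rw [mem_inn] at he
      rw [mem_inter, MG.mem_cut]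
      refine ⟨?_, he.2.2.2⟩
      by_contra heM
      have h6 := cnt_F G M Y t e heM
      apply he.2.2.2
      rw [mem_filter, mem_filter]
      have h7 : c (G.s e) = c (G.t e) := h6
      rw [h7]
      exact ⟨fun h8 => ⟨he.2.2.1, h8.2⟩, fun h8 => ⟨he.2.1, h8.2⟩⟩
    have h6 := card_le_card h5
    omega
  have hsum := L4_sum G hG X c
  have hge : K.card * 4 ≤ ∑ Z ∈ K, (G.cut (X.filter (fun v => c v = Z))).card := by
    have h1 := card_nsmul_le_sum K (fun Z => (G.cut (X.filter (fun v => c v = Z))).card) 4 h4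
    rwa [smul_eq_mul] at h1
  rw [← hK, ← hD, h.four] at hsum
  -- few light edges between different parts
  have hKp : K ⊆ parts G M Y t := by
    intro Z hZ
    obtain ⟨a, _, rfl⟩ := mem_image.mp hZ
    exact mem_image_of_mem _ (mem_univ _)
  have hmx := hx t K hKp hK2
  have hDsub : D ⊆ (M ∩ lt w t).filter (fun e => pt G M Y t (G.s e) ∈ K ∧
      pt G M Y t (G.t e) ∈ K ∧ pt G M Y t (G.s e) ≠ pt G M Y t (G.t e)) := by
    intro e he
    have h1 := (hDmem e).mp he
    rw [mem_filter]
    exact ⟨hDl he, mem_image_of_mem _ h1.1.1, mem_image_of_mem _ h1.1.2, h1.2⟩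
  have hDc := card_le_card hDsub
  omega

/-- good parts are connected and bridgeless in the light graph -/
theorem L4_solid (G : MG V E) (hG : C3 G) (M : Finset E) (hM : PM G M) (w : E → ℕ)
    (Y : ℕ → Finset E) (hY : Cl G M w Y) (t : ℕ) (v : V) (hv : Gd G M w Y t v) :
    ∀ S ⊆ pt G M Y t v, S.Nonempty → S ≠ pt G M Y t v →
      2 ≤ (inn G w t (pt G M Y t v) S).card := by
  intro S hS hne hSX
  obtain ⟨a, ha⟩ := hne
  have hb : ∃ b ∈ pt G M Y t v, b ∉ S := by
    by_contra h
    push Not at h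
    exact hSX (Subset.antisymm hS h)
  obtain ⟨b, hbX, hbS⟩ := hb
  have hboth : ∀ e, pt G M Y t (G.s e) = pt G M Y t (G.t e) → ¬ (G.s e ∈ S ↔ G.t e ∈ S) →
      G.s e ∈ pt G M Y t v ∧ G.t e ∈ pt G M Y t v := by
    intro e he h
    rw [cnt_mem_iff, cnt_mem_iff]
    have h2 : G.s e ∈ S → pt G M Y t (G.s e) = pt G M Y t v := fun h =>
      (cnt_mem_iff G M Y t _ _).mp (hS h)
    have h3 : G.t e ∈ S → pt G M Y t (G.t e) = pt G M Y t v := fun h =>
      (cnt_mem_iff G M Y t _ _).mp (hS h)
    by_cases hs : G.s e ∈ S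
    · exact ⟨h2 hs, he ▸ h2 hs⟩
    · have ht : G.t e ∈ S := by tauto
      exact ⟨he ▸ h3 ht, h3 ht⟩
  by_cases hF : (univ \ M) ∩ G.cut S = ∅
  · obtain ⟨S₁, hS1, S₂, hS2, hd, hR⟩ := hY.two t
    have hab : G.Rch ((univ \ M) ∪ Y t) a b := by
      have h2 := (cnt_mem_iff G M Y t a v).mp (hS ha)
      have h3 := (cnt_mem_iff G M Y t b v).mp hbX
      have h4 := h2.trans h3.symm
      unfold pt at h4
      exact (G.cv_eq _ _ _).mp h4
    obtain ⟨hR1, hR2⟩ := hR a b hab
    have key : ∀ Q : Finset E, Q ⊆ Y t → G.Rch ((univ \ M) ∪ Q) a b →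
        ∃ e ∈ Q, e ∈ inn G w t (pt G M Y t v) S := by
      intro Q hQ hRQ
      by_contra hcon
      push Not at hcon
      apply hbS
      refine G.closed_Rch _ S ?_ a b ha hRQ
      rw [eq_empty_iff_forall_notMem]
      intro e he
      rw [mem_inter, mem_union] at he
      rcases he.1 with h2 | h2
      · have h3 : e ∈ (univ \ M) ∩ G.cut S := mem_inter.mpr ⟨h2, he.2⟩
        rw [hF] at h3
        exact notMem_empty _ h3
      · have h3 := he.2
        rw [MG.mem_cut] at h3
        have h4 := hboth e (cnt_Y G M Y t e (hQ h2)) h3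
        apply hcon e h2
        rw [mem_inn]
        exact ⟨(mem_lt w t e).mp (mem_inter.mp (hY.sub t (hQ h2))).2, h4.1, h4.2, h3⟩
    obtain ⟨e1, he1, hi1⟩ := key S₁ hS1 hR1
    obtain ⟨e2, he2, hi2⟩ := key S₂ hS2 hR2
    have hne : e1 ≠ e2 := by
      rintro rfl
      exact disjoint_left.mp hd he1 he2
    have h2 : ({e1, e2} : Finset E) ⊆ inn G w t (pt G M Y t v) S := by
      intro e he
      rw [mem_insert, mem_singleton] at he
      rcases he with rfl | rfl
      · exact hi1
      · exact hi2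
    have h3 := card_le_card h2
    rw [card_pair hne] at h3
    exact h3
  · have hev := G.Ev_cut _ (cnt_EvF G hG M hM) S
    have hpos : 0 < ((univ \ M) ∩ G.cut S).card := card_pos.mpr (nonempty_iff_ne_empty.mpr hF)
    have h2 : (univ \ M) ∩ G.cut S ⊆ inn G w t (pt G M Y t v) S := by
      intro e he
      rw [mem_inter, mem_sdiff, MG.mem_cut] at he
      have h4 := hboth e (cnt_F G M Y t e he.1.2) he.2
      rw [mem_inn]
      exact ⟨hv.2 e he.1.2 h4.1, h4.1, h4.2, he.2⟩
    have h3 := card_le_card h2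
    obtain ⟨k, hk⟩ := hev
    omega

/-- sets with 4 boundary edges, all in `M`, are closable -/
theorem L4_cls (G : MG V E) (M : Finset E) (hM : PM G M) (X : Finset V)
    (hX : G.cut X ⊆ M) (h4 : (G.cut X).card = 4) : Cls G X := by
  intro A B _ hAB hA hB
  have h1 := hM.three A hA
  have h2 := hM.three B hB
  have h3 : G.cut X ⊆ (M ∩ G.cut A) ∪ (M ∩ G.cut B) := by
    intro e he
    have heM := hX he
    rw [MG.mem_cut] at he
    rw [mem_union, mem_inter, mem_inter, MG.mem_cut, MG.mem_cut]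
    have h5 : ∀ x, x ∈ A ∪ B ↔ x ∈ A ∨ x ∈ B := fun x => mem_union
    rcases hAB with h6 | h6
    · rw [← h6, h5, h5] at he
      tauto
    · have h7 : ∀ x, x ∈ X ↔ ¬ (x ∈ A ∨ x ∈ B) := by
        intro x
        rw [← h5, h6, mem_compl, not_not]
      rw [h7, h7] at he
      tauto
  have h5 := (card_le_card h3).trans (card_union_le _ _)
  omega

/-- (note 61c (4)) good parts with 4 boundary edges which do not contain the root have a heavy
edge of `M` inside -/
theorem no4 (G : MG V E) (hG : C3 G) (M : Finset E) (hM : PM G M) (w : E → ℕ)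
    (Y : ℕ → Finset E) (hY : Cl G M w Y) (hx : Mx G M w Y) (r : V)
    (hF : ∀ Z ∈ F4 G w r, ¬ G.cut Z ⊆ M) (t : ℕ) (v : V) (hv : Gd G M w Y t v)
    (hr : r ∉ pt G M Y t v) (h4 : (G.cut (pt G M Y t v)).card = 4) :
    ∃ e ∈ M, t < w e ∧ G.s e ∈ pt G M Y t v ∧ G.t e ∈ pt G M Y t v := by
  classical
  by_contra hcon
  push Not at hcon
  have hcut : G.cut (pt G M Y t v) ⊆ M :=
    cnt_cut G M Y t _ (mem_image_of_mem _ (mem_univ _))
  have hS : S4 G w r t (pt G M Y t v) := by
    refine ⟨hr, h4, ?_, L4_solid G hG M hM w Y hY t v hv⟩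
    intro e hs ht
    by_cases heM : e ∈ M
    · by_contra hlt
      exact hcon e heM (not_le.mp hlt) hs ht
    · exact hv.2 e heM hs
  have hnF : pt G M Y t v ∉ F4 G w r := fun h => hF _ h hcut
  apply hnF
  unfold F4
  rw [mem_filter]
  refine ⟨mem_univ _, t, hS, L4_cls G M hM _ hcut h4, ?_⟩
  intro X' hX' hsub
  apply Subset.antisymm _ hsub
  intro u hu
  rw [cnt_mem_iff]
  exact CL G hG M hM w Y hY hx r t X' hX' u hu v (hsub (cnt_self G M Y t v))

end Pool.Agent.Lib.MP_95e9b3_coG
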