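import Pool.Agent.Lib.MP_95e9b3_coG.Wul

/-!
# Route G: the coarsest cluster family

`Mx`: between `k ≥ 2` parts of level `t` there are at most `2 k - 3` light edges of `M`.
-/

set_option autoImplicit false

namespace Pool.Agent.Lib.MP_95e9b3_coG

open Finset Pool.Agent.Lib.MP_95e9b3_coC Pool.Agent.Lib.MP_eace5d_co

variable {V E : Type} [Fintype V] [DecidableEq V] [Fintype E] [DecidableEq E]

/-- the cluster family is the coarsest one: few light edges of `M` between different parts -/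
def Mx (G : MG V E) (M : Finset E) (w : E → ℕ) (Y : ℕ → Finset E) : Prop :=
  ∀ t, ∀ K ⊆ parts G M Y t, 2 ≤ K.card →
    ((M ∩ lt w t).filter (fun e => pt G M Y t (G.s e) ∈ K ∧ pt G M Y t (G.t e) ∈ K ∧
      pt G M Y t (G.s e) ≠ pt G M Y t (G.t e))).card + 3 ≤ 2 * K.card

/-- edges between the members of a set `K` of components merge at most these components -/
theorem nc_merge (G : MG V E) (A B : Finset E) (K : Finset (Finset V))
    (hK : K ⊆ univ.image (G.cv A)) (hKne : K.Nonempty)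
    (hB : ∀ e ∈ B, G.cv A (G.s e) ∈ K ∧ G.cv A (G.t e) ∈ K) :
    G.nc A + 1 ≤ G.nc (A ∪ B) + K.card := by
  classical
  have hcl : ∀ v, G.cv A v ∉ K → G.cv (A ∪ B) v = G.cv A v := by
    intro v hv
    have h1 : (A ∪ B) ∩ G.cut (G.cv A v) = ∅ := by
      rw [union_inter_distrib_right, G.cv_cut, empty_union]
      by_contra hne
      obtain ⟨e, he⟩ := nonempty_iff_ne_empty.2 hne
      rw [mem_inter, G.mem_cut] at he
      obtain ⟨h2, h3⟩ := hB e he.1
      have h4 : ∀ u, G.cv A u ∈ K → u ∉ G.cv A v := by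
        intro u hu hmem
        rw [G.mem_cv, ← G.cv_eq] at hmem
        rw [hmem] at hv
        exact hv hu
      exact he.2 ⟨fun h => absurd h (h4 _ h2), fun h => absurd h (h4 _ h3)⟩
    ext u
    rw [G.mem_cv]
    constructor
    · intro h
      exact G.closed_Rch (A ∪ B) (G.cv A v) h1 v u (by rw [G.mem_cv]; exact G.Rch_refl _ _) h
    · intro h
      rw [G.mem_cv] at h
      exact G.Rch_mono _ _ subset_union_left _ _ h
  obtain ⟨X, hX⟩ := hKne
  obtain ⟨u, -, hu⟩ := mem_image.1 (hK hX)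
  have hsub : insert (G.cv (A ∪ B) u) (univ.image (G.cv A) \ K) ⊆ univ.image (G.cv (A ∪ B)) := by
    intro Z hZ
    rcases mem_insert.1 hZ with h | h
    · rw [h]
      exact mem_image_of_mem _ (mem_univ _)
    · obtain ⟨h1, h2⟩ := mem_sdiff.1 h
      obtain ⟨v, -, rfl⟩ := mem_image.1 h1
      rw [← hcl v h2]
      exact mem_image_of_mem _ (mem_univ _)
  have hnot : G.cv (A ∪ B) u ∉ univ.image (G.cv A) \ K := by
    intro h
    obtain ⟨h1, h2⟩ := mem_sdiff.1 h
    obtain ⟨v, -, hv⟩ := mem_image.1 h1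
    rw [← hv] at h2
    have h3 : u ∈ G.cv A v := by
      rw [hv, G.mem_cv]
      exact G.Rch_refl _ _
    rw [G.mem_cv, ← G.cv_eq] at h3
    rw [h3, hu] at h2
    exact h2 hX
  have h1 := card_le_card hsub
  rw [card_insert_of_notMem hnot] at h1
  have h2 := card_sdiff_add_card_eq_card hK
  unfold MG.nc
  omega

theorem mx_of (G : MG V E) (M : Finset E) (w : E → ℕ) (Y : ℕ → Finset E)
    (hY : ∀ t, Y t ⊆ M ∩ lt w t)
    (h : ∀ t, ∀ B ⊆ M ∩ lt w t, Y t ⊂ B →
      2 * G.nc ((univ \ M) ∪ B) + B.card < 2 * G.nc ((univ \ M) ∪ Y t) + (Y t).card) :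
    Mx G M w Y := by
  classical
  intro t K hK hK2
  set X := (M ∩ lt w t).filter (fun e => pt G M Y t (G.s e) ∈ K ∧ pt G M Y t (G.t e) ∈ K ∧
      pt G M Y t (G.s e) ≠ pt G M Y t (G.t e)) with hX
  rcases X.eq_empty_or_nonempty with h0 | h0
  · rw [h0, card_empty]
    omega
  have hdis : Disjoint (Y t) X := by
    rw [disjoint_left]
    intro e he heX
    rw [hX, mem_filter] at heX
    refine heX.2.2.2 ?_
    unfold pt
    rw [G.cv_eq]
    exact G.Rch_edge _ e (mem_union_right _ he)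
  have hlt : Y t ⊂ Y t ∪ X := by
    refine ⟨subset_union_left, fun hsub => ?_⟩
    obtain ⟨e, he⟩ := h0
    exact disjoint_left.1 hdis (hsub (mem_union_right _ he)) he
  have h1 := h t (Y t ∪ X) (union_subset (hY t) (by rw [hX]; exact filter_subset _ _)) hlt
  have h2 := nc_merge G ((univ \ M) ∪ Y t) X K hK (card_pos.1 (by omega)) (by
    intro e he
    rw [hX, mem_filter] at he
    exact ⟨he.2.1, he.2.2.1⟩)
  rw [union_assoc] at h2
  rw [card_union_of_disjoint hdis] at h1
  omega

/-- cluster family and two forests for arbitrary chains; `F` and `M` arbitrary -/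
theorem wul_genM [Nonempty V] (G : MG V E) (F M : Finset E) (L : ℕ → Finset E) (hL : Monotone L)
    (hLM : ∀ t, L t ⊆ M)
    (hpk : ∀ A ⊆ M, 2 * G.nc (F ∪ A) ≤ (M \ A).card + 2) (T : ℕ) (hT : L T = M) :
    ∃ Y : ℕ → Finset E, (∀ t, Y t ⊆ L t) ∧ Monotone Y ∧
      (∀ t, ∀ e ∈ L t, G.Rch (F ∪ Y t) (G.s e) (G.t e) → e ∈ Y t) ∧
      (∀ t, ∃ S₁ ⊆ Y t, ∃ S₂ ⊆ Y t, Disjoint S₁ S₂ ∧
        ∀ a b, G.Rch (F ∪ Y t) a b → G.Rch (F ∪ S₁) a b ∧ G.Rch (F ∪ S₂) a b) ∧
      ∃ S₁ ⊆ M, ∃ S₂ ⊆ M, Disjoint S₁ S₂ ∧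
        G.nc (F ∪ S₁) ≤ 1 ∧ G.nc (F ∪ S₂) ≤ 1 ∧
        (∀ t, ((S₁ ∪ S₂) \ L t).card + (L t \ Y t).card + 2 ≤ 2 * G.nc (F ∪ Y t)) ∧
        ∀ t, ∀ B ⊆ L t, Y t ⊂ B → 2 * G.nc (F ∪ B) + B.card < 2 * G.nc (F ∪ Y t) + (Y t).card := by
  classical
  have hex := fun t => exists_Y G F (L t)
  choose Y hYL hYmin hYmax using hex
  have hrk := gr_rank G F
  have hmono : ∀ s t, s ≤ t → Y s ⊆ Y t := by
    intro s t hst
    have hLst : L s ⊆ L t := hL hst
    have hsub := hrk.submod (Y s) (Y t)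
    have hc := card_union_add_card_inter (Y s) (Y t)
    have h1 := hYmin s (Y s ∩ Y t) (inter_subset_left.trans (hYL s))
    have hu : Y s ∪ Y t ⊆ L t := union_subset ((hYL s).trans hLst) (hYL t)
    have h2 := hYmax t (Y s ∪ Y t) hu (by
      intro C hC
      have h3 := hYmin t C hC
      omega)
    have h3 : Y s ∪ Y t = Y t := (eq_of_subset_of_card_le subset_union_right h2).symm
    rw [← h3]
    exact subset_union_left
  have hgr0 : ∀ t, 2 * gr G F (Y t) ≤ (Y t).card := by
    intro t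
    have h1 := hYmin t ∅ (empty_subset _)
    rw [hrk.empty, card_empty] at h1
    omega
  -- two forests inside a cluster
  have htwo : ∀ t, ∃ S₁ ⊆ Y t, ∃ S₂ ⊆ Y t, Disjoint S₁ S₂ ∧
      gr G F S₁ = gr G F (Y t) ∧ gr G F S₂ = gr G F (Y t) := by
    intro t
    obtain ⟨S₁, hS1, S₂, hS2, hd, hr1, hr2, hc⟩ := pack G F (Y t)
      (fun i => if i = 0 then ∅ else Y t) (fun i => if i = 0 then 0 else (Y t).card - 2 * gr G F (Y t))
      (by
        intro i j hij
        by_cases hi : i = 0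
        · simp [hi]
        · have hj : j ≠ 0 := by omega
          simp [hi, hj]) (by simp)
      (by
        intro i A hA
        by_cases hi : i = 0
        · have hA0 : A = ∅ := by
            rw [if_pos hi, empty_inter] at hA
            exact subset_empty.mp hA
          rw [hA0]
          simp
        · simp only [hi, if_false]
          have hA1 : A ⊆ Y t := hA.trans inter_subset_right
          have h1 := hYmin t A (hA1.trans (hYL t))
          have h2 := hgr0 t
          omega)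
    have h1 := hc 1
    simp only [one_ne_zero, if_false, inter_self] at h1
    have h2 := card_sdiff_add_card_eq_card (union_subset hS1 hS2)
    have h3 := card_union_of_disjoint hd
    have h4 := hrk.mono hS1
    have h5 := hrk.mono hS2
    have h6 := hgr0 t
    refine ⟨S₁, hS1, S₂, hS2, hd, ?_, ?_⟩ <;> omega
  -- the two forests
  obtain ⟨S₁, hS1, S₂, hS2, hd, hr1, hr2, hc⟩ := pack G F M
      (fun i => if i = 0 then ∅ else L (i - 1))
      (fun i => if i = 0 then 0 else (Y (i - 1)).card - 2 * gr G F (Y (i - 1)))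
      (by
        intro i j hij
        by_cases hi : i = 0
        · simp [hi]
        · have hj : j ≠ 0 := by omega
          simp only [hi, hj, if_false]
          exact hL (by omega)) (by simp)
      (by
        intro i A hA
        by_cases hi : i = 0
        · have hA0 : A = ∅ := by
            rw [if_pos hi, empty_inter] at hA
            exact subset_empty.mp hA
          rw [hA0]
          simp
        · simp only [hi, if_false]
          rw [if_neg hi] at hA
          have hA1 : A ⊆ L (i - 1) := hA.trans inter_subset_left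
          have h1 := hYmin (i - 1) A hA1
          have h2 := hgr0 (i - 1)
          omega)
  have hc' : ∀ t, (L t \ (S₁ ∪ S₂)).card ≤ (Y t).card - 2 * gr G F (Y t) := by
    intro t
    have h1 := hc (t + 1)
    simp only [Nat.add_eq_zero_iff, one_ne_zero, and_false, if_false, Nat.add_sub_cancel] at h1
    rwa [inter_eq_left.mpr (hLM t)] at h1
  have hnc1 : ∀ A : Finset E, 1 ≤ G.nc (F ∪ A) := by
    intro A
    unfold MG.nc
    rw [Nat.one_le_iff_ne_zero, ← Nat.pos_iff_ne_zero, card_pos]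
    exact univ_nonempty.image _
  have hU := union_subset hS1 hS2
  have hcU := card_union_of_disjoint hd
  have hadd := gr_add G F
  have hT1 := hc' T
  rw [hT] at hT1
  have hcM := card_sdiff_add_card_eq_card hU
  have hYT := hpk (Y T) ((hYL T).trans (hLM T))
  have hcYT := card_sdiff_add_card_eq_card ((hYL T).trans (hLM T))
  have h6 := hgr0 T
  have ha1 := hadd S₁
  have ha2 := hadd S₂
  have haT := hadd (Y T)
  have hb1 := hnc1 S₁
  have hb2 := hnc1 S₂
  have hn1 : G.nc (F ∪ S₁) ≤ 1 := by omega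
  have hn2 : G.nc (F ∪ S₂) ≤ 1 := by omega
  refine ⟨Y, hYL, fun s t h => hmono s t h, ?_, ?_, S₁, hS1, S₂, hS2, hd, hn1, hn2, ?_, ?_⟩
  · intro t e he hr
    by_contra hne
    have h1 : gr G F (insert e (Y t)) = gr G F (Y t) := by
      have h2 := hadd (insert e (Y t))
      have h3 := hadd (Y t)
      rw [union_insert, G.nc_insert_of_Rch _ e hr] at h2
      omega
    have h2 := hYmin t (insert e (Y t)) (insert_subset he (hYL t))
    rw [card_insert_of_notMem hne, h1] at h2
    omega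
  · intro t
    obtain ⟨R₁, hR1, R₂, hR2, hRd, hg1, hg2⟩ := htwo t
    refine ⟨R₁, hR1, R₂, hR2, hRd, ?_⟩
    intro a b hab
    have h1 := hadd R₁
    have h2 := hadd R₂
    have h3 := hadd (Y t)
    refine ⟨?_, ?_⟩
    · exact G.Rch_of_nc_eq (F ∪ R₁) (F ∪ Y t) (union_subset_union (Subset.refl _) hR1)
        (by omega) a b hab
    · exact G.Rch_of_nc_eq (F ∪ R₂) (F ∪ Y t) (union_subset_union (Subset.refl _) hR2)
        (by omega) a b hab
  · intro t
    have h1 := hc' t
    have h2 := card_sdiff_add_card_inter (S₁ ∪ S₂) (L t)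
    have h3 := card_sdiff_add_card_inter (L t) (S₁ ∪ S₂)
    rw [inter_comm] at h3
    have h4 := card_sdiff_add_card_eq_card (hYL t)
    have h5 := hadd (Y t)
    have h7 := hgr0 t
    have h8 := card_le_card (inter_subset_left : L t ∩ (S₁ ∪ S₂) ⊆ L t)
    have h9 := card_le_card (inter_subset_right : L t ∩ (S₁ ∪ S₂) ⊆ S₁ ∪ S₂)
    omega
  · intro t B hB hlt
    by_contra hcon
    have h1 := hadd B
    have h2 := hadd (Y t)
    have h3 := hYmax t B hB (by
      intro C hC
      have h4 := hYmin t C hC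
      omega)
    exact absurd (card_lt_card hlt) (by omega)

/-- BLOCK Union, with the coarsest cluster family -/
theorem wulM [Nonempty V] (G : MG V E) (hG : C3 G) (M : Finset E) (hM : PM G M) (w : E → ℕ) (T : ℕ)
    (hT : ∀ e, w e ≤ T) :
    ∃ Y : ℕ → Finset E, Cl G M w Y ∧ Mx G M w Y ∧ ∃ S₁ ⊆ M, ∃ S₂ ⊆ M, Disjoint S₁ S₂ ∧
      (∀ a b, G.Rch ((univ \ M) ∪ S₁) a b) ∧ (∀ a b, G.Rch ((univ \ M) ∪ S₂) a b) ∧
      wt w S₁ + wt w S₂ ≤ ∑ t ∈ range T, rho G M w Y t := by
  classical
  have hmono : Monotone (fun t => M ∩ lt w t) := by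
    intro s t hst e he
    simp only [lt, mem_inter, mem_filter, mem_univ, true_and] at he ⊢
    exact ⟨he.1, he.2.trans hst⟩
  obtain ⟨Y, hYL, hYm, hsat, htwo, S₁, hS1, S₂, hS2, hd, hn1, hn2, hcount, hmx⟩ :=
    wul_genM G (univ \ M) M (fun t => M ∩ lt w t) hmono (fun t => inter_subset_left)
      (fun A hA => pm_pk G hG M hM A hA) T (by
        rw [inter_eq_left]
        intro e _
        simp only [lt, mem_filter, mem_univ, true_and]
        exact hT e)
  have hconn : ∀ S : Finset E, G.nc ((univ \ M) ∪ S) ≤ 1 → ∀ a b, G.Rch ((univ \ M) ∪ S) a b := by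
    intro S hS a b
    rw [← G.cv_eq]
    unfold MG.nc at hS
    rw [card_le_one] at hS
    exact hS _ (mem_image_of_mem _ (mem_univ _)) _ (mem_image_of_mem _ (mem_univ _))
  refine ⟨Y, ⟨hYL, fun s t h => hYm h, ?_, htwo⟩, mx_of G M w Y hYL hmx, S₁, hS1, S₂, hS2, hd, hconn S₁ hn1,
    hconn S₂ hn2, ?_⟩
  · intro t e he hw hr
    refine hsat t e ?_ hr
    simp only [lt, mem_inter, mem_filter, mem_univ, true_and]
    exact ⟨he, hw⟩
  · rw [w_eq_sum w T S₁ hT, w_eq_sum w T S₂ hT, ← sum_add_distrib]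
    refine sum_le_sum fun t _ => ?_
    have h1 := hcount t
    have h2 : ((S₁ ∪ S₂) \ (M ∩ lt w t)).card =
        (S₁ \ (S₁ ∩ lt w t)).card + (S₂ \ (S₂ ∩ lt w t)).card := by
      rw [← card_union_of_disjoint]
      · congr 1
        ext e
        simp only [mem_sdiff, mem_union, mem_inter]
        have h3 := @hS1 e
        have h4 := @hS2 e
        tauto
      · exact disjoint_of_subset_left sdiff_subset (disjoint_of_subset_right sdiff_subset hd)
    unfold rho
    have h3 : (((S₁ \ (S₁ ∩ lt w t)).card + (S₂ \ (S₂ ∩ lt w t)).card +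
        ((M ∩ lt w t) \ Y t).card + 2 : ℕ) : ℝ) ≤ ((2 * G.nc ((univ \ M) ∪ Y t) : ℕ) : ℝ) := by
      rw [Nat.cast_le]
      omega
    push_cast at h3
    linarith

end Pool.Agent.Lib.MP_95e9b3_coG
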