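import Pool.Agent.Lib.MP_95e9b3_coG.CountA
import Pool.Agent.Lib.MP_95e9b3_coG.WulM

/-!
# Route G, case B: definitions for the 4-sets (note 61c)
-/

set_option autoImplicit false

namespace Pool.Agent.Lib.MP_95e9b3_coG

open Finset Pool.Agent.Lib.MP_95e9b3_coC

variable {V E : Type} [Fintype V] [DecidableEq V] [Fintype E] [DecidableEq E]

/-- 4-sets without the root `r`, all edges inside are light, connected and bridgeless -/
structure S4 (G : MG V E) (w : E → ℕ) (r : V) (t : ℕ) (X : Finset V) : Prop where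
  nr : r ∉ X
  four : (G.cut X).card = 4
  light : ∀ e, G.s e ∈ X → G.t e ∈ X → w e ≤ t
  solid : ∀ S ⊆ X, S.Nonempty → S ≠ X → 2 ≤ (inn G w t X S).card

/-- closable: neither `X` nor its complement is the disjoint union of two 3-sets -/
def Cls (G : MG V E) (X : Finset V) : Prop :=
  ∀ A B : Finset V, Disjoint A B → (A ∪ B = X ∨ A ∪ B = Xᶜ) → (G.cut A).card = 3 →
    (G.cut B).card ≠ 3

open Classical in
/-- the closable sets which are maximal in `S4` for some level -/
noncomputable def F4 (G : MG V E) (w : E → ℕ) (r : V) : Finset (Finset V) :=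
  univ.filter (fun X => ∃ t, S4 G w r t X ∧ Cls G X ∧
    ∀ X', S4 G w r t X' → X ⊆ X' → X' = X)

end Pool.Agent.Lib.MP_95e9b3_coG
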