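import Pool.Agent.Lib.MP_95e9b3_coG.L4Defs

/-!
# Route G, 4-cuts: the family of maximal light 4-sets is laminar
-/

set_option autoImplicit false

namespace Pool.Agent.Lib.MP_95e9b3_coG

open Finset Pool.Agent.Lib.MP_95e9b3_coC

variable {V E : Type} [Fintype V] [DecidableEq V] [Fintype E] [DecidableEq E]

/-- edges between `A \ B` and `B \ A` -/
def l4di (G : MG V E) (A B : Finset V) : Finset E :=
  univ.filter (fun e => (G.s e ∈ A \ B ∧ G.t e ∈ B \ A) ∨ (G.t e ∈ A \ B ∧ G.s e ∈ B \ A))

theorem l4_card (G : MG V E) (A : Finset V) :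
    (G.cut A).card = ∑ e, (if ¬ (G.s e ∈ A ↔ G.t e ∈ A) then 1 else 0) := by
  unfold MG.cut
  rw [card_filter]

theorem l4_dicard (G : MG V E) (A B : Finset V) :
    (l4di G A B).card = ∑ e, (if (G.s e ∈ A \ B ∧ G.t e ∈ B \ A) ∨
      (G.t e ∈ A \ B ∧ G.s e ∈ B \ A) then 1 else 0) := by
  unfold l4di
  rw [card_filter]

/-- cuts of the intersection and of the union -/
theorem l4_sub (G : MG V E) (A B : Finset V) :
    (G.cut (A ∩ B)).card + (G.cut (A ∪ B)).card + 2 * (l4di G A B).card =
      (G.cut A).card + (G.cut B).card := by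
  rw [l4_card, l4_card, l4_card, l4_card, l4_dicard, mul_sum, ← sum_add_distrib,
    ← sum_add_distrib, ← sum_add_distrib]
  refine sum_congr rfl (fun e _ => ?_)
  by_cases h1 : G.s e ∈ A <;> by_cases h2 : G.t e ∈ A <;> by_cases h3 : G.s e ∈ B <;>
    by_cases h4 : G.t e ∈ B <;> simp [h1, h2, h3, h4]

/-- cuts of the differences -/
theorem l4_posi (G : MG V E) (A B : Finset V) :
    (G.cut (A \ B)).card + (G.cut (B \ A)).card ≤ (G.cut A).card + (G.cut B).card := by
  rw [l4_card, l4_card, l4_card, l4_card, ← sum_add_distrib, ← sum_add_distrib]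
  refine sum_le_sum (fun e _ => ?_)
  by_cases h1 : G.s e ∈ A <;> by_cases h2 : G.t e ∈ A <;> by_cases h3 : G.s e ∈ B <;>
    by_cases h4 : G.t e ∈ B <;> simp [h1, h2, h3, h4]

theorem l4_inn_mono (G : MG V E) (w : E → ℕ) (t : ℕ) (X Z S : Finset V) (h : X ⊆ Z) :
    inn G w t X (S ∩ X) ⊆ inn G w t Z S := by
  intro e he
  rw [mem_inn, mem_inter, mem_inter] at he
  rw [mem_inn]
  exact ⟨he.1, h he.2.1, h he.2.2.1, by tauto⟩

/-- the union of two crossing light 4-sets with even corners -/
theorem S4_union (G : MG V E) (w : E → ℕ) (r : V) (t : ℕ) (X X' : Finset V)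
    (h : S4 G w r t X) (h' : S4 G w r t X') (hne : (X ∩ X').Nonempty)
    (h4 : (G.cut (X ∪ X')).card = 4) (hd : l4di G X X' = ∅) : S4 G w r t (X ∪ X') := by
  refine ⟨?_, h4, ?_, ?_⟩
  · rw [mem_union]
    rintro (h1 | h1)
    · exact h.nr h1
    · exact h'.nr h1
  · intro e hs ht
    by_cases h1 : G.s e ∈ X ∧ G.t e ∈ X
    · exact h.light e h1.1 h1.2
    by_cases h2 : G.s e ∈ X' ∧ G.t e ∈ X'
    · exact h'.light e h2.1 h2.2
    exfalso
    have h3 : e ∈ l4di G X X' := by
      unfold l4di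
      rw [mem_filter]
      refine ⟨mem_univ _, ?_⟩
      rw [mem_union] at hs ht
      rw [mem_sdiff, mem_sdiff, mem_sdiff, mem_sdiff]
      tauto
    rw [hd] at h3
    exact notMem_empty _ h3
  · intro S hS hSne hSX
    by_cases h1 : (S ∩ X).Nonempty ∧ S ∩ X ≠ X
    · exact (h.solid (S ∩ X) inter_subset_right h1.1 h1.2).trans
        (card_le_card (l4_inn_mono G w t X _ S subset_union_left))
    by_cases h2 : (S ∩ X').Nonempty ∧ S ∩ X' ≠ X'
    · exact (h'.solid (S ∩ X') inter_subset_right h2.1 h2.2).trans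
        (card_le_card (l4_inn_mono G w t X' _ S subset_union_right))
    exfalso
    obtain ⟨v, hv⟩ := hne
    rw [mem_inter] at hv
    have h3 : S ∩ X = X ∨ S ∩ X = ∅ := by
      by_cases h5 : S ∩ X = ∅
      · exact Or.inr h5
      · left
        by_contra h6
        exact h1 ⟨nonempty_iff_ne_empty.mpr h5, h6⟩
    have h4' : S ∩ X' = X' ∨ S ∩ X' = ∅ := by
      by_cases h5 : S ∩ X' = ∅
      · exact Or.inr h5
      · left
        by_contra h6
        exact h2 ⟨nonempty_iff_ne_empty.mpr h5, h6⟩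
    by_cases hvS : v ∈ S
    · have h5 : S ∩ X = X := by
        rcases h3 with h5 | h5
        · exact h5
        · have h6 := mem_inter.mpr ⟨hvS, hv.1⟩
          rw [h5] at h6
          exact absurd h6 (notMem_empty _)
      have h6 : S ∩ X' = X' := by
        rcases h4' with h5 | h5
        · exact h5
        · have h6 := mem_inter.mpr ⟨hvS, hv.2⟩
          rw [h5] at h6
          exact absurd h6 (notMem_empty _)
      apply hSX
      refine Subset.antisymm hS (union_subset ?_ ?_)
      · exact inter_eq_right.mp h5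
      · exact inter_eq_right.mp h6
    · have h5 : S ∩ X = ∅ := by
        rcases h3 with h5 | h5
        · exact absurd (inter_eq_right.mp h5 hv.1) hvS
        · exact h5
      have h6 : S ∩ X' = ∅ := by
        rcases h4' with h5 | h5
        · exact absurd (inter_eq_right.mp h5 hv.2) hvS
        · exact h5
      obtain ⟨u, hu⟩ := hSne
      have h7 := hS hu
      rw [mem_union] at h7
      rcases h7 with h7 | h7
      · have h8 := mem_inter.mpr ⟨hu, h7⟩
        rw [h5] at h8
        exact notMem_empty _ h8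
      · have h8 := mem_inter.mpr ⟨hu, h7⟩
        rw [h6] at h8
        exact notMem_empty _ h8

theorem S4_mono (G : MG V E) (w : E → ℕ) (r : V) (t t' : ℕ) (htt : t' ≤ t) (X : Finset V)
    (h : S4 G w r t' X) : S4 G w r t X := by
  refine ⟨h.nr, h.four, fun e hs ht => (h.light e hs ht).trans htt, ?_⟩
  intro S hS hne hSX
  refine (h.solid S hS hne hSX).trans (card_le_card ?_)
  intro e he
  rw [mem_inn] at he ⊢
  exact ⟨he.1.trans htt, he.2⟩

theorem mem_F4 (G : MG V E) (w : E → ℕ) (r : V) (X : Finset V) :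
    X ∈ F4 G w r ↔ ∃ t, S4 G w r t X ∧ Cls G X ∧ ∀ X', S4 G w r t X' → X ⊆ X' → X' = X := by
  classical
  unfold F4
  rw [mem_filter]
  exact ⟨fun h => h.2, fun h => ⟨mem_univ _, h⟩⟩

theorem F4_four (G : MG V E) (w : E → ℕ) (r : V) (X : Finset V) (h : X ∈ F4 G w r) :
    (G.cut X).card = 4 ∧ r ∉ X := by
  rw [mem_F4] at h
  obtain ⟨t, h1, _⟩ := h
  exact ⟨h1.four, h1.nr⟩

/-- the asymmetric form of laminarity -/
theorem F4_lam_aux (G : MG V E) (hG : C3 G) (w : E → ℕ) (r : V) (t t' : ℕ) (htt : t' ≤ t)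
    (X X' : Finset V) (h : S4 G w r t X) (hc : Cls G X)
    (hm : ∀ Z, S4 G w r t Z → X ⊆ Z → Z = X) (h' : S4 G w r t' X') (hc' : Cls G X') :
    X ⊆ X' ∨ X' ⊆ X ∨ Disjoint X X' := by
  by_contra hcon
  push Not at hcon
  obtain ⟨hn1, hn2, hn3⟩ := hcon
  have hi : (X ∩ X').Nonempty := not_disjoint_iff_nonempty_inter.mp hn3
  have hX1 : (X \ X').Nonempty := sdiff_nonempty.mpr hn1
  have hX2 : (X' \ X).Nonempty := sdiff_nonempty.mpr hn2
  have hr : r ∉ X ∪ X' := by
    rw [mem_union]
    rintro (h1 | h1)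
    · exact h.nr h1
    · exact h'.nr h1
  have hnu : ∀ Z : Finset V, r ∉ Z → Z ≠ univ := by
    intro Z hZ hZu
    rw [hZu] at hZ
    exact hZ (mem_univ _)
  have a1 := hG.cut (X ∩ X') hi (hnu _ (fun h1 => hr (mem_union_left _ (mem_inter.mp h1).1)))
  have a2 := hG.cut (X ∪ X') (hi.mono (inter_subset_left.trans subset_union_left)) (hnu _ hr)
  have a3 := hG.cut (X \ X') hX1 (hnu _ (fun h1 => hr (mem_union_left _ (mem_sdiff.mp h1).1)))
  have a4 := hG.cut (X' \ X) hX2 (hnu _ (fun h1 => hr (mem_union_right _ (mem_sdiff.mp h1).1)))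
  have b1 := l4_sub G X X'
  have b2 := l4_posi G X X'
  rw [h.four, h'.four] at b1 b2
  have p1 := G.cut_parity hG.deg (X ∩ X')
  have p2 := G.cut_parity hG.deg (X ∪ X')
  have p3 := G.cut_parity hG.deg (X \ X')
  have p4 := G.cut_parity hG.deg (X' \ X)
  have p5 := G.cut_parity hG.deg X
  have p6 := G.cut_parity hG.deg X'
  rw [h.four] at p5
  rw [h'.four] at p6
  have c1 := card_sdiff_add_card_inter X X'
  have c2 := card_sdiff_add_card_inter X' X
  rw [inter_comm] at c2
  have c3 := card_union_add_card_inter X X'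
  by_cases hodd : (G.cut (X ∩ X')).card % 2 = 1
  · -- odd corners
    have d1 : (G.cut (X ∩ X')).card = 3 ∨ (G.cut (X ∪ X')).card = 3 := by omega
    have d2 : (G.cut (X \ X')).card = 3 ∨ (G.cut (X' \ X)).card = 3 := by omega
    have e1 : Disjoint (X ∩ X') (X \ X') := by
      rw [disjoint_left]
      intro v hv hv'
      exact (mem_sdiff.mp hv').2 (mem_inter.mp hv).2
    have e2 : Disjoint (X ∩ X') (X' \ X) := by
      rw [disjoint_left]
      intro v hv hv'
      exact (mem_sdiff.mp hv').2 (mem_inter.mp hv).1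
    have e3 : Disjoint (X ∪ X')ᶜ (X \ X') := by
      rw [disjoint_left]
      intro v hv hv'
      exact (mem_compl.mp hv) (mem_union_left _ (mem_sdiff.mp hv').1)
    have e4 : Disjoint (X ∪ X')ᶜ (X' \ X) := by
      rw [disjoint_left]
      intro v hv hv'
      exact (mem_compl.mp hv) (mem_union_right _ (mem_sdiff.mp hv').1)
    rcases d1 with d1 | d1
    · rcases d2 with d2 | d2
      · refine hc _ _ e1 (Or.inl ?_) d1 d2
        ext v
        rw [mem_union, mem_inter, mem_sdiff]
        tauto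
      · refine hc' _ _ e2 (Or.inl ?_) d1 d2
        ext v
        rw [mem_union, mem_inter, mem_sdiff]
        tauto
    · rw [← G.cut_compl] at d1
      rcases d2 with d2 | d2
      · refine hc' _ _ e3 (Or.inr ?_) d1 d2
        ext v
        rw [mem_union, mem_compl, mem_compl, mem_union, mem_sdiff]
        tauto
      · refine hc _ _ e4 (Or.inr ?_) d1 d2
        ext v
        rw [mem_union, mem_compl, mem_compl, mem_union, mem_sdiff]
        tauto
  · -- even corners
    have d1 : (G.cut (X ∪ X')).card = 4 := by omega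
    have d2 : (l4di G X X').card = 0 := by omega
    have d3 := S4_union G w r t X X' h (S4_mono G w r t t' htt X' h') hi d1
      (card_eq_zero.mp d2)
    have d4 := hm _ d3 subset_union_left
    exact hn2 (union_eq_left.mp d4)

/-- the family of maximal light 4-sets is laminar -/
theorem F4_lam (G : MG V E) (hG : C3 G) (w : E → ℕ) (r : V) (X : Finset V)
    (h : X ∈ F4 G w r) (X' : Finset V) (h' : X' ∈ F4 G w r) :
    X ⊆ X' ∨ X' ⊆ X ∨ Disjoint X X' := by
  rw [mem_F4] at h h'
  obtain ⟨t, h1, h2, h3⟩ := h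
  obtain ⟨t', h1', h2', h3'⟩ := h'
  rcases Nat.le_total t' t with hle | hle
  · exact F4_lam_aux G hG w r t t' hle X X' h1 h2 h3 h1' h2'
  · rcases F4_lam_aux G hG w r t' t hle X' X h1' h2' h3' h1 h2 with h4 | h4 | h4
    · exact Or.inr (Or.inl h4)
    · exact Or.inl h4
    · exact Or.inr (Or.inr h4.symm)

end Pool.Agent.Lib.MP_95e9b3_coG
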