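import Pool.Agent.Lib.MP_95e9b3_coG.Defs

/-!
# Route G: laws of good perfect matchings

`light_exists`: the theorem of Edmonds and Johnson (`EJ`) with weights `u e + Λ * #{3-cuts through e}`.
`law_exists`: if the vector `1/3` were not in the convex hull of the good perfect matchings, a linear
functional would separate it (Hahn-Banach); make the coefficients rational and nonnegative.
-/

set_option autoImplicit false

namespace Pool.Agent.Lib.MP_95e9b3_coG

open Finset Pool.Agent.Lib.MP_95e9b3_coC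

variable {V E : Type} [Fintype V] [DecidableEq V] [Fintype E] [DecidableEq E]

private theorem law_br0 (G : MG V E) (hG : C3 G) : G.Br0 := by
  intro U hU
  by_cases h1 : U.Nonempty
  · by_cases h2 : U = univ
    · subst h2
      have : G.cut univ = ∅ := by
        ext e
        simp [MG.mem_cut]
      rw [this, card_empty] at hU
      omega
    · have := hG.cut U h1 h2
      omega
  · rw [not_nonempty_iff_eq_empty] at h1
    subst h1
    have : G.cut ∅ = ∅ := by
      ext e
      simp [MG.mem_cut]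
    rw [this, card_empty] at hU
    omega

private theorem law_light (G : MG V E) (hG : C3 G) (u : E → ℚ) (hu : ∀ e, 0 ≤ u e) :
    ∃ M, PM G M ∧ 3 * (∑ e ∈ M, u e) ≤ ∑ e, u e := by
  classical
  have hc : ∀ v, G.dg Finset.univ v = 3 := hG.deg
  have hb : G.Br0 := law_br0 G hG
  set D : Finset (Finset V) := Finset.univ.filter (fun U => (G.cut U).card = 3) with hD
  set L : ℚ := ∑ e, u e + 1 with hL
  have hL1 : 1 ≤ L := by
    have : (0 : ℚ) ≤ ∑ e, u e := Finset.sum_nonneg (fun e _ => hu e)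
    linarith
  have hcount : ∀ J : Finset E, ∑ e ∈ J, (((D.filter (fun U => e ∈ G.cut U)).card : ℕ) : ℚ) =
      ((∑ U ∈ D, (J ∩ G.cut U).card : ℕ) : ℚ) := by
    intro J
    have h1 : ∑ e ∈ J, (D.filter (fun U => e ∈ G.cut U)).card = ∑ U ∈ D, (J ∩ G.cut U).card := by
      have h2 : ∀ e ∈ J, (D.filter (fun U => e ∈ G.cut U)).card =
          ∑ U ∈ D, if e ∈ G.cut U then 1 else 0 := fun e _ => Finset.card_filter _ _
      rw [Finset.sum_congr rfl h2, Finset.sum_comm]
      apply Finset.sum_congr rfl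
      intro U _
      rw [← Finset.card_filter, Finset.filter_mem_eq_inter]
    rw [← h1]
    push_cast
    rfl
  obtain ⟨M, -, hsim, hle⟩ := MG.EJ G Finset.univ Finset.univ
    (fun e => u e + L * (((D.filter (fun U => e ∈ G.cut U)).card : ℕ) : ℚ))
    (fun _ => 1 / 3)
    (fun e _ => add_nonneg (hu e) (mul_nonneg (by linarith) (Nat.cast_nonneg _)))
    (fun e _ => by norm_num)
    (fun U hU => by
      rw [Finset.sum_const, nsmul_eq_mul]
      have h1 : (Finset.univ ∩ G.cut U).card ≠ 1 := by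
        rw [Finset.univ_inter]
        exact hb U
      have h3 : 3 ≤ (Finset.univ ∩ G.cut U).card := by
        obtain ⟨k, hk⟩ := hU
        omega
      have h4 : (3 : ℚ) ≤ ((Finset.univ ∩ G.cut U).card : ℚ) := by exact_mod_cast h3
      linarith)
  rw [Finset.sum_add_distrib, ← Finset.mul_sum, hcount, ← Finset.sum_mul,
    Finset.sum_add_distrib, ← Finset.mul_sum, hcount] at hle
  have hE : ∑ U ∈ D, (Finset.univ ∩ G.cut U).card = 3 * D.card := by
    rw [Finset.sum_congr rfl (fun U hU => ?_), Finset.sum_const, smul_eq_mul, mul_comm]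
    rw [Finset.univ_inter]
    exact (Finset.mem_filter.1 hU).2
  rw [hE] at hle
  have hodd : ∀ U ∈ D, 1 ≤ (M ∩ G.cut U).card := by
    intro U hU
    have h1 := G.Sim_cut M Finset.univ hsim U
    rw [Finset.univ_inter, (Finset.mem_filter.1 hU).2] at h1
    omega
  have hge : D.card ≤ ∑ U ∈ D, (M ∩ G.cut U).card := by
    rw [Finset.card_eq_sum_ones]
    exact Finset.sum_le_sum hodd
  have huM : 0 ≤ ∑ e ∈ M, u e := Finset.sum_nonneg (fun e _ => hu e)
  have huE : 0 ≤ ∑ e, u e := Finset.sum_nonneg (fun e _ => hu e)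
  have hle2 : ∑ U ∈ D, (M ∩ G.cut U).card ≤ D.card := by
    by_contra hlt
    have h1 : D.card + 1 ≤ ∑ U ∈ D, (M ∩ G.cut U).card := by omega
    have h2 : (D.card : ℚ) + 1 ≤ ((∑ U ∈ D, (M ∩ G.cut U).card : ℕ) : ℚ) := by exact_mod_cast h1
    have h3 : L * ((D.card : ℚ) + 1) ≤ L * ((∑ U ∈ D, (M ∩ G.cut U).card : ℕ) : ℚ) :=
      mul_le_mul_of_nonneg_left h2 (by linarith)
    push_cast at hle h3
    nlinarith
  have heq : ∑ U ∈ D, (M ∩ G.cut U).card = D.card := le_antisymm hle2 hge
  have hone : ∀ U ∈ D, (M ∩ G.cut U).card = 1 := by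
    have h1 : ∑ U ∈ D, 1 = ∑ U ∈ D, (M ∩ G.cut U).card := by
      rw [heq, Finset.card_eq_sum_ones]
    intro U hU
    exact ((Finset.sum_eq_sum_iff_of_le hodd).1 h1 U hU).symm
  have hloop : ∀ (J : Finset E) (v : V), (J.filter (fun e => G.s e = v ∧ G.t e = v)).card = 0 := by
    intro J v
    rw [Finset.card_eq_zero, Finset.filter_eq_empty_iff]
    rintro e - ⟨h1, h2⟩
    exact G.loopless hc hb e (h1.trans h2.symm)
  refine ⟨M, ⟨fun v => ?_, fun U hU => hone U (Finset.mem_filter.2 ⟨Finset.mem_univ _, hU⟩)⟩, ?_⟩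
  · have h1 := G.dg_eq Finset.univ v
    rw [hc v, hloop, Finset.univ_inter] at h1
    have h2 := hone {v} (Finset.mem_filter.2 ⟨Finset.mem_univ _, by omega⟩)
    rw [G.dg_eq M v, hloop, h2]
  · rw [heq] at hle
    push_cast at hle
    linarith

/-- BLOCK Law: a good matching of weight at most a third -/
theorem light_exists (G : MG V E) (hG : C3 G) (w : E → ℕ) :
    ∃ M, PM G M ∧ 3 * (∑ e ∈ M, (w e : ℚ)) ≤ ∑ e, (w e : ℚ) := by
  exact law_light G hG (fun e => (w e : ℚ)) (fun e => Nat.cast_nonneg _)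

/-- BLOCK Law -/
theorem H5_of (G : MG V E) (hG : C3 G) (hN : N4 G) (M : Finset E) (hM : PM G M) : H5 G M := by
  intro U h1 h2 h3
  have h4 := hG.cut U h1 h2
  by_contra h5
  have h6 : (G.cut U).card = 3 ∨ (G.cut U).card = 4 := by omega
  rcases h6 with h6 | h6
  · have h7 := hM.three U h6
    rw [inter_eq_right.2 h3] at h7
    omega
  · obtain ⟨v, hv⟩ := hN U h6
    have h7 := G.dg_mono _ _ h3 v
    rw [hM.deg v] at h7
    omega

private theorem law_size (G : MG V E) (hG : C3 G) (M : Finset E) (hM : PM G M) :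
    3 * M.card = (univ : Finset E).card := by
  have h1 := G.sum_dg_univ M
  have h2 := G.sum_dg_univ univ
  rw [Finset.sum_congr rfl (fun v _ => hM.deg v), sum_const, smul_eq_mul] at h1
  rw [Finset.sum_congr rfl (fun v _ => hG.deg v), sum_const, smul_eq_mul] at h2
  omega

private theorem law_rat (G : MG V E) (hG : C3 G) (u : E → ℚ) :
    ∃ M, PM G M ∧ 3 * (∑ e ∈ M, u e) ≤ ∑ e, u e := by
  classical
  set c : ℚ := ∑ e, |u e| with hc
  have hu : ∀ e, 0 ≤ u e + c := by
    intro e
    have h1 : |u e| ≤ c := by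
      rw [hc]
      exact Finset.single_le_sum (f := fun e => |u e|) (fun _ _ => abs_nonneg _) (mem_univ e)
    have h2 := neg_abs_le (u e)
    linarith
  obtain ⟨M, hM, hle⟩ := law_light G hG (fun e => u e + c) hu
  refine ⟨M, hM, ?_⟩
  have h3 := law_size G hG M hM
  simp only [sum_add_distrib, sum_const, nsmul_eq_mul] at hle
  have h4 : (3 : ℚ) * (M.card : ℚ) = ((univ : Finset E).card : ℚ) := by exact_mod_cast h3
  rw [← h4] at hle
  linarith

private theorem law_real (G : MG V E) (hG : C3 G) (u : E → ℝ) :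
    ∃ M, PM G M ∧ 3 * (∑ e ∈ M, u e) ≤ ∑ e, u e := by
  classical
  by_contra hcon
  push Not at hcon
  -- all gaps are positive
  set P : Finset (Finset E) := univ.filter (fun M => PM G M) with hP
  obtain ⟨M1, hM1, -⟩ := law_rat G hG (fun _ => 0)
  obtain ⟨M0, hM0, hmin⟩ := P.exists_min_image (fun M => 3 * (∑ e ∈ M, u e) - ∑ e, u e)
    ⟨M1, mem_filter.2 ⟨mem_univ _, hM1⟩⟩
  set γ : ℝ := 3 * (∑ e ∈ M0, u e) - ∑ e, u e with hγ
  have hγ0 : 0 < γ := by
    have := hcon M0 (mem_filter.1 hM0).2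
    linarith
  set n : ℝ := ((univ : Finset E).card : ℝ) with hn
  have hn0 : 0 ≤ n := Nat.cast_nonneg _
  have hq : ∀ e, ∃ q : ℚ, |u e - q| < γ / (4 * (n + 1)) := by
    intro e
    have hpos : 0 < γ / (4 * (n + 1)) := by positivity
    obtain ⟨q, hq1, hq2⟩ := exists_rat_btwn (show u e - γ / (4 * (n + 1)) < u e by linarith)
    refine ⟨q, ?_⟩
    rw [abs_lt]
    constructor <;> linarith
  choose q hq using hq
  obtain ⟨M, hM, hle⟩ := law_rat G hG q
  have hle' : 3 * (∑ e ∈ M, (q e : ℝ)) ≤ ∑ e, (q e : ℝ) := by exact_mod_cast hle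
  have hmin' := hmin M (mem_filter.2 ⟨mem_univ _, hM⟩)
  have h1 : |∑ e ∈ M, (u e - q e)| ≤ n * (γ / (4 * (n + 1))) := by
    refine (Finset.abs_sum_le_sum_abs _ _).trans ?_
    refine (Finset.sum_le_sum (fun e _ => (hq e).le)).trans ?_
    rw [sum_const, nsmul_eq_mul]
    refine mul_le_mul_of_nonneg_right ?_ (by positivity)
    rw [hn]
    exact_mod_cast card_le_card (subset_univ M)
  have h2 : |∑ e, (u e - q e)| ≤ n * (γ / (4 * (n + 1))) := by
    refine (Finset.abs_sum_le_sum_abs _ _).trans ?_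
    refine (Finset.sum_le_sum (fun e _ => (hq e).le)).trans ?_
    rw [sum_const, nsmul_eq_mul]
  have h3 : n * (γ / (4 * (n + 1))) < γ / 4 := by
    have h4 : n / (n + 1) < 1 := by
      rw [div_lt_one (by linarith)]
      linarith
    have h5 : n * (γ / (4 * (n + 1))) = (n / (n + 1)) * (γ / 4) := by
      field_simp
    rw [h5]
    have : 0 < γ / 4 := by linarith
    nlinarith
  rw [sum_sub_distrib] at h1 h2
  have h1' := abs_le.1 h1
  have h2' := abs_le.1 h2
  have h6 : γ ≤ 3 * (∑ e ∈ M, u e) - ∑ e, u e := hmin'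
  linarith [h1'.1, h1'.2, h2'.1, h2'.2]

/-- indicator vector -/
private noncomputable def law_ind (M : Finset E) : E → ℝ := fun e => if e ∈ M then 1 else 0

omit [Fintype E] in
private theorem law_ind_inj : Function.Injective (law_ind : Finset E → E → ℝ) := by
  intro A B h
  ext e
  have h1 := congrFun h e
  unfold law_ind at h1
  by_cases hA : e ∈ A <;> by_cases hB : e ∈ B <;> simp [hA, hB] at h1 ⊢

/-- BLOCK Law -/
theorem law_exists (G : MG V E) (hG : C3 G) : ∃ μ : Finset E → ℝ, Law G μ := by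
  classical
  set P : Finset (Finset E) := univ.filter (fun M => PM G M) with hP
  set S : Finset (E → ℝ) := P.image law_ind with hS
  have hmem : (fun _ => (1 / 3 : ℝ)) ∈ convexHull ℝ (S : Set (E → ℝ)) := by
    by_contra hcon
    have hcl : IsClosed (convexHull ℝ (S : Set (E → ℝ))) :=
      (S.finite_toSet.isCompact_convexHull ℝ).isClosed
    obtain ⟨f, c, h1, h2⟩ := geometric_hahn_banach_point_closed (convex_convexHull ℝ _) hcl hcon
    have hf : ∀ x : E → ℝ, f x = ∑ e, x e * f (Pi.single e 1) := by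
      intro x
      have hx : x = ∑ e, x e • (Pi.single e (1 : ℝ) : E → ℝ) := by
        ext a
        simp [Finset.sum_apply, Pi.single_apply]
      conv_lhs => rw [hx]
      rw [map_sum]
      exact Finset.sum_congr rfl fun e _ => by rw [map_smul, smul_eq_mul]
    obtain ⟨M, hM, hle⟩ := law_real G hG (fun e => f (Pi.single e 1))
    have h3 := h2 (law_ind M) (subset_convexHull ℝ _ (by
      rw [hS, coe_image]
      exact ⟨M, by rw [hP]; simp [hM], rfl⟩))
    rw [hf] at h1 h3
    rw [← Finset.mul_sum] at h1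
    have h4 : ∑ e, law_ind M e * f (Pi.single e 1) = ∑ e ∈ M, f (Pi.single e 1) := by
      unfold law_ind
      simp only [ite_mul, one_mul, zero_mul]
      rw [← Finset.sum_filter]
      refine Finset.sum_congr ?_ fun _ _ => rfl
      ext e; simp
    rw [h4] at h3
    linarith
  obtain ⟨g, hg0, hg1, hg2⟩ := (Finset.mem_convexHull' (R := ℝ)).1 hmem
  refine ⟨fun M => if PM G M then g (law_ind M) else 0, ?_, ?_, ?_, ?_⟩
  · intro M
    by_cases h : PM G M
    · simp only [if_pos h]
      exact hg0 _ (mem_image.2 ⟨M, mem_filter.2 ⟨mem_univ _, h⟩, rfl⟩)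
    · simp only [if_neg h]
      exact le_refl _
  · intro M hM
    by_contra h
    exact hM (if_neg h)
  · rw [← Finset.sum_filter, ← hg1, hS, Finset.sum_image (fun a _ b _ h => law_ind_inj h)]
  · intro e
    have h1 := congrFun hg2 e
    rw [hS, Finset.sum_image (fun a _ b _ h => law_ind_inj h), Finset.sum_apply] at h1
    rw [← h1, hP, Finset.sum_filter]
    refine Finset.sum_congr rfl fun M _ => ?_
    by_cases h : PM G M
    · by_cases he : e ∈ M <;> simp [h, he, law_ind]
    · by_cases he : e ∈ M <;> simp [h, he]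

end Pool.Agent.Lib.MP_95e9b3_coG
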