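import Pool.Agent.Lib.MP_95e9b3_coG.Defs

/-!
# Route G, law avoiding a laminar family of 4-cuts: the graphs of one side (LawA)

`X` a vertex set with four boundary edges; `ex G X sd`: the vertices of `X` and two new adjacent
vertices, the boundary edge `e` is attached to the new vertex `sd e`.
-/

set_option autoImplicit false

namespace Pool.Agent.Lib.MP_95e9b3_coG

open Finset Pool.Agent.Lib.MP_95e9b3_coC
open scoped symmDiff

variable {V E : Type} [Fintype V] [DecidableEq V] [Fintype E] [DecidableEq E]

/-- the edges with an end in `X` -/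
def tE (G : MG V E) (X : Finset V) : Finset E := univ.filter (fun e => G.s e ∈ X ∨ G.t e ∈ X)

theorem mem_tE (G : MG V E) (X : Finset V) (e : E) :
    e ∈ tE G X ↔ (G.s e ∈ X ∨ G.t e ∈ X) := by
  simp [tE]

theorem cut_sub_tE (G : MG V E) (X D : Finset V) (h : D ⊆ X ∨ Xᶜ ⊆ D) : G.cut D ⊆ tE G X := by
  intro e he
  rw [G.mem_cut] at he
  rw [mem_tE]
  rcases h with h | h
  · have h1 := @h (G.s e)
    have h2 := @h (G.t e)
    tauto
  · have h1 := @h (G.s e)
    have h2 := @h (G.t e)
    simp only [mem_compl] at h1 h2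
    tauto

/-- vertices of the new graph -/
abbrev VX (X : Finset V) : Type := {v // v ∈ X} ⊕ Bool

/-- edges of the new graph -/
abbrev EX (G : MG V E) (X : Finset V) : Type := {e // e ∈ tE G X} ⊕ Unit

/-- the place of `v`, seen from the edge `e` -/
def pl (X : Finset V) (sd : E → Bool) (e : E) (v : V) : VX X :=
  if h : v ∈ X then Sum.inl ⟨v, h⟩ else Sum.inr (sd e)

/-- the new graph -/
def ex (G : MG V E) (X : Finset V) (sd : E → Bool) : MG (VX X) (EX G X) where
  s := fun e => match e with
    | Sum.inl e => pl X sd e.1 (G.s e.1)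
    | Sum.inr _ => Sum.inr false
  t := fun e => match e with
    | Sum.inl e => pl X sd e.1 (G.t e.1)
    | Sum.inr _ => Sum.inr true

/-- the old edges of a set of edges of the new graph -/
def pr (G : MG V E) (X : Finset V) (J : Finset (EX G X)) : Finset E :=
  J.toLeft.map ⟨Subtype.val, Subtype.val_injective⟩

theorem mem_pr (G : MG V E) (X : Finset V) (J : Finset (EX G X)) (e : E) :
    e ∈ pr G X J ↔ ∃ h : e ∈ tE G X, (Sum.inl ⟨e, h⟩ : EX G X) ∈ J := by
  unfold pr
  rw [mem_map]
  constructor
  · rintro ⟨⟨e', h'⟩, h1, h2⟩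
    simp only [Function.Embedding.coeFn_mk] at h2
    subst h2
    exact ⟨h', mem_toLeft.mp h1⟩
  · rintro ⟨h, h1⟩
    exact ⟨⟨e, h⟩, mem_toLeft.mpr h1, rfl⟩

theorem pr_sub (G : MG V E) (X : Finset V) (J : Finset (EX G X)) : pr G X J ⊆ tE G X := by
  intro e he
  exact ((mem_pr G X J e).mp he).1

theorem pr_univ (G : MG V E) (X : Finset V) : pr G X univ = tE G X := by
  ext e
  rw [mem_pr]
  exact ⟨fun h => h.1, fun h => ⟨h, mem_univ _⟩⟩

theorem pr_mono (G : MG V E) (X : Finset V) (J J' : Finset (EX G X)) (h : J ⊆ J') :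
    pr G X J ⊆ pr G X J' := by
  intro e he
  rw [mem_pr] at he ⊢
  exact ⟨he.1, h he.2⟩

theorem card_pr (G : MG V E) (X : Finset V) (J : Finset (EX G X)) :
    J.card = (pr G X J).card + (if (Sum.inr () : EX G X) ∈ J then 1 else 0) := by
  unfold pr
  rw [card_map]
  have h1 : J = J.toLeft.disjSum J.toRight := (toLeft_disjSum_toRight).symm
  have h2 : J.toRight.card = (if (Sum.inr () : EX G X) ∈ J then 1 else 0) := by
    split_ifs with h
    · have : J.toRight = {()} := by
        ext u
        simp only [mem_toRight, mem_singleton, iff_true]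
        exact h
      rw [this, card_singleton]
    · have : J.toRight = ∅ := by
        ext u
        simp only [mem_toRight, notMem_empty, iff_false]
        exact h
      rw [this, card_empty]
  calc J.card = (J.toLeft.disjSum J.toRight).card := by rw [← h1]
    _ = J.toLeft.card + J.toRight.card := card_disjSum _ _
    _ = _ := by rw [h2]

theorem sum_pr (G : MG V E) (X : Finset V) (J : Finset (EX G X)) (f : EX G X → ℕ) (g : E → ℕ)
    (hf : ∀ e, f (Sum.inl e) = g e.1) :
    ∑ x ∈ J, f x = ∑ e ∈ pr G X J, g e + (if (Sum.inr () : EX G X) ∈ J then f (Sum.inr ()) else 0) := by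
  have h1 : J = J.toLeft.disjSum J.toRight := (toLeft_disjSum_toRight).symm
  have h2 : ∑ u ∈ J.toRight, f (Sum.inr u) =
      (if (Sum.inr () : EX G X) ∈ J then f (Sum.inr ()) else 0) := by
    split_ifs with h
    · have : J.toRight = {()} := by
        ext u
        simp only [mem_toRight, mem_singleton, iff_true]
        exact h
      rw [this, sum_singleton]
    · have : J.toRight = ∅ := by
        ext u
        simp only [mem_toRight, notMem_empty, iff_false]
        exact h
      rw [this, sum_empty]
  unfold pr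
  rw [sum_map, ← h2]
  calc ∑ x ∈ J, f x = ∑ x ∈ J.toLeft.disjSum J.toRight, f x := by rw [← h1]
    _ = ∑ x ∈ J.toLeft, f (Sum.inl x) + ∑ u ∈ J.toRight, f (Sum.inr u) := sum_disjSum _ _ _
    _ = _ := by
      congr 1
      exact sum_congr rfl fun e _ => hf e

/-- degrees of the old vertices -/
theorem dg_inl (G : MG V E) (X : Finset V) (sd : E → Bool) (J : Finset (EX G X)) (v : V)
    (hv : v ∈ X) : (ex G X sd).dg J (Sum.inl ⟨v, hv⟩) = G.dg (pr G X J) v := by
  unfold MG.dg
  rw [sum_pr G X J _ (fun e => G.inc e v)]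
  · have : (ex G X sd).inc (Sum.inr ()) (Sum.inl ⟨v, hv⟩) = 0 := by
      simp [MG.inc, ex]
    rw [this]
    simp
  · intro e
    have h1 : ∀ u, (pl X sd e.1 u = Sum.inl ⟨v, hv⟩) ↔ u = v := by
      intro u
      unfold pl
      split_ifs with h
      · simp
      · simp only [false_iff]
        rintro rfl
        exact h hv
    show (if pl X sd e.1 (G.s e.1) = Sum.inl ⟨v, hv⟩ then 1 else 0) +
      (if pl X sd e.1 (G.t e.1) = Sum.inl ⟨v, hv⟩ then 1 else 0) = G.inc e.1 v
    unfold MG.inc
    simp only [h1]

/-- boundary edges at the new vertex `b` -/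
def bs (G : MG V E) (X : Finset V) (sd : E → Bool) (b : Bool) : Finset E :=
  (G.cut X).filter (fun e => sd e = b)

/-- degrees of the new vertices -/
theorem dg_inr (G : MG V E) (X : Finset V) (sd : E → Bool) (J : Finset (EX G X)) (b : Bool) :
    (ex G X sd).dg J (Sum.inr b) = (pr G X J ∩ bs G X sd b).card +
      (if (Sum.inr () : EX G X) ∈ J then 1 else 0) := by
  unfold MG.dg
  rw [sum_pr G X J _ (fun e => if e ∈ bs G X sd b then 1 else 0)]
  · have h1 : (ex G X sd).inc (Sum.inr ()) (Sum.inr b) = 1 := by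
      cases b <;> simp [MG.inc, ex]
    have h2 : ∑ e ∈ pr G X J, (if e ∈ bs G X sd b then 1 else 0) =
        (pr G X J ∩ bs G X sd b).card := by
      rw [← card_filter, filter_mem_eq_inter]
    rw [h1, h2]
  · intro e
    have h1 : ∀ u, (pl X sd e.1 u = Sum.inr b) ↔ (u ∉ X ∧ sd e.1 = b) := by
      intro u
      unfold pl
      split_ifs with h
      · simp [h]
      · simp [h]
    show (if pl X sd e.1 (G.s e.1) = Sum.inr b then 1 else 0) +
      (if pl X sd e.1 (G.t e.1) = Sum.inr b then 1 else 0) = _
    simp only [h1]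
    have he := (mem_tE G X e.1).mp e.2
    unfold bs
    simp only [mem_filter, G.mem_cut]
    by_cases hs : G.s e.1 ∈ X <;> by_cases ht : G.t e.1 ∈ X <;> by_cases hb : sd e.1 = b <;>
      simp [hs, ht, hb] at he ⊢

/-- old vertices of a set of new vertices -/
def pv (X : Finset V) (U : Finset (VX X)) : Finset V :=
  U.toLeft.map ⟨Subtype.val, Subtype.val_injective⟩

theorem mem_pv (X : Finset V) (U : Finset (VX X)) (v : V) :
    v ∈ pv X U ↔ ∃ h : v ∈ X, (Sum.inl ⟨v, h⟩ : VX X) ∈ U := by
  unfold pv
  rw [mem_map]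
  constructor
  · rintro ⟨⟨e', h'⟩, h1, h2⟩
    simp only [Function.Embedding.coeFn_mk] at h2
    subst h2
    exact ⟨h', mem_toLeft.mp h1⟩
  · rintro ⟨h, h1⟩
    exact ⟨⟨v, h⟩, mem_toLeft.mpr h1, rfl⟩

theorem pl_mem (X : Finset V) (sd : E → Bool) (e : E) (v : V) (U : Finset (VX X)) :
    pl X sd e v ∈ U ↔ (v ∈ pv X U ∨ (v ∉ X ∧ (Sum.inr (sd e) : VX X) ∈ U)) := by
  unfold pl
  split_ifs with h
  · rw [mem_pv]
    simp [h]
  · rw [mem_pv]
    simp [h]

/-- cuts of the new graph, no new vertex inside -/
theorem cut_none (G : MG V E) (X : Finset V) (sd : E → Bool) (U : Finset (VX X))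
    (h : ∀ b, (Sum.inr b : VX X) ∉ U) :
    pr G X ((ex G X sd).cut U) = G.cut (pv X U) ∧ (Sum.inr () : EX G X) ∉ (ex G X sd).cut U := by
  constructor
  · ext e
    rw [mem_pr]
    have h1 : ∀ v, pl X sd e v ∈ U ↔ v ∈ pv X U := by
      intro v
      rw [pl_mem]
      simp [h]
    constructor
    · rintro ⟨he, h2⟩
      rw [MG.mem_cut] at h2 ⊢
      have h3 : ¬ (pl X sd e (G.s e) ∈ U ↔ pl X sd e (G.t e) ∈ U) := h2
      rwa [h1, h1] at h3
    · intro he
      have hsub : pv X U ⊆ X := fun v hv => ((mem_pv X U v).mp hv).1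
      refine ⟨cut_sub_tE G X _ (Or.inl hsub) he, ?_⟩
      rw [MG.mem_cut] at he ⊢
      show ¬ (pl X sd e (G.s e) ∈ U ↔ pl X sd e (G.t e) ∈ U)
      rwa [h1, h1]
  · rw [MG.mem_cut]
    show ¬ ¬ ((Sum.inr false : VX X) ∈ U ↔ (Sum.inr true : VX X) ∈ U)
    simp [h]

/-- cuts of the new graph, one new vertex inside -/
theorem cut_one (G : MG V E) (X : Finset V) (sd : E → Bool) (U : Finset (VX X)) (b : Bool)
    (h1 : (Sum.inr b : VX X) ∈ U) (h2 : (Sum.inr (!b) : VX X) ∉ U) :
    pr G X ((ex G X sd).cut U) = G.cut (pv X U) ∆ bs G X sd b ∧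
      (Sum.inr () : EX G X) ∈ (ex G X sd).cut U := by
  constructor
  · ext e
    rw [mem_pr]
    have h3 : (Sum.inr (sd e) : VX X) ∈ U ↔ sd e = b := by
      constructor
      · intro h4
        by_contra h5
        have h6 : sd e = !b := by
          cases hb : b <;> cases hs : sd e <;> simp_all
        rw [h6] at h4
        exact h2 h4
      · intro h4
        rw [h4]
        exact h1
    have h4 : ∀ v, pl X sd e v ∈ U ↔ (v ∈ pv X U ∨ (v ∉ X ∧ sd e = b)) := by
      intro v
      rw [pl_mem, h3]
    have hsub : ∀ v, v ∈ pv X U → v ∈ X := fun v hv => ((mem_pv X U v).mp hv).1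
    have hs := hsub (G.s e)
    have ht := hsub (G.t e)
    have h5 : (e ∈ tE G X ∧ ¬ (pl X sd e (G.s e) ∈ U ↔ pl X sd e (G.t e) ∈ U)) ↔
        e ∈ G.cut (pv X U) ∆ bs G X sd b := by
      rw [h4, h4, mem_symmDiff, mem_tE]
      unfold bs
      rw [mem_filter, G.mem_cut, G.mem_cut]
      by_cases a1 : G.s e ∈ X <;> by_cases a2 : G.t e ∈ X <;> by_cases a3 : sd e = b <;>
        by_cases a4 : G.s e ∈ pv X U <;> by_cases a5 : G.t e ∈ pv X U <;>
        simp_all
    rw [← h5]
    constructor
    · rintro ⟨he, h6⟩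
      rw [MG.mem_cut] at h6
      exact ⟨he, h6⟩
    · rintro ⟨he, h6⟩
      refine ⟨he, ?_⟩
      rw [MG.mem_cut]
      exact h6
  · rw [MG.mem_cut]
    show ¬ ((Sum.inr false : VX X) ∈ U ↔ (Sum.inr true : VX X) ∈ U)
    cases b
    · simp only [Bool.not_false] at h2
      simp [h1, h2]
    · simp only [Bool.not_true] at h2
      simp [h1, h2]

/-! ### three-edge-connectivity -/

/-- `X` is a set with four boundary edges, contained in a good perfect matching -/
structure Adm (G : MG V E) (X : Finset V) (M0 : Finset E) : Prop where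
  four : (G.cut X).card = 4
  pm : PM G M0
  sub : G.cut X ⊆ M0

theorem Adm.compl {G : MG V E} {X : Finset V} {M0 : Finset E} (h : Adm G X M0) :
    Adm G Xᶜ M0 := by
  refine ⟨?_, h.pm, ?_⟩
  · rw [G.cut_compl]; exact h.four
  · rw [G.cut_compl]; exact h.sub

theorem Adm.ne {G : MG V E} {X : Finset V} {M0 : Finset E} (h : Adm G X M0) :
    X.Nonempty ∧ X ≠ univ := by
  constructor
  · rw [nonempty_iff_ne_empty]
    rintro rfl
    have h1 : G.cut ∅ = ∅ := by
      ext e
      simp [G.mem_cut]
    have h2 := h.four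
    rw [h1] at h2
    simp at h2
  · rintro rfl
    have h1 : G.cut univ = ∅ := by
      ext e
      simp [G.mem_cut]
    have h2 := h.four
    rw [h1] at h2
    simp at h2

/-- the new graph is cubic and 3-edge-connected -/
theorem ex_C3 (G : MG V E) (hG : C3 G) (X : Finset V) (M0 : Finset E) (h : Adm G X M0)
    (sd : E → Bool) (hsd : ∀ b, (bs G X sd b).card = 2) : C3 (ex G X sd) := by
  have hXu : X ≠ univ := h.ne.2
  constructor
  · rintro (⟨v, hv⟩ | b)
    · rw [dg_inl, pr_univ]
      have h1 := hG.deg v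
      have h2 : G.dg (tE G X) v = G.dg univ v := by
        unfold MG.dg
        refine sum_subset (subset_univ _) ?_
        intro e _ he
        rw [mem_tE] at he
        push Not at he
        unfold MG.inc
        rw [if_neg (fun h5 => he.1 (by rw [h5]; exact hv)),
          if_neg (fun h5 => he.2 (by rw [h5]; exact hv)), add_zero]
      rw [h2, h1]
    · rw [dg_inr, pr_univ, if_pos (mem_univ _)]
      have h1 : tE G X ∩ bs G X sd b = bs G X sd b := by
        rw [inter_eq_right]
        exact (filter_subset _ _).trans (cut_sub_tE G X X (Or.inl (Subset.refl _)))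
      rw [h1, hsd b]
  · -- cuts with no new vertex
    have key0 : ∀ U : Finset (VX X), U.Nonempty → (∀ b, (Sum.inr b : VX X) ∉ U) →
        3 ≤ ((ex G X sd).cut U).card := by
      intro U hU hb
      obtain ⟨h1, h2⟩ := cut_none G X sd U hb
      rw [card_pr G X, h1, if_neg h2, add_zero]
      refine hG.cut _ ?_ ?_
      · obtain ⟨x, hx⟩ := hU
        rcases x with ⟨v, hv⟩ | b
        · exact ⟨v, (mem_pv X U v).mpr ⟨hv, hx⟩⟩
        · exact absurd hx (hb b)
      · intro hu
        apply hXu
        rw [eq_univ_iff_forall]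
        intro v
        have : v ∈ pv X U := by rw [hu]; exact mem_univ _
        exact ((mem_pv X U v).mp this).1
    -- cuts with one new vertex
    have key1 : ∀ (U : Finset (VX X)) (b : Bool), (Sum.inr b : VX X) ∈ U →
        (Sum.inr (!b) : VX X) ∉ U → 3 ≤ ((ex G X sd).cut U).card := by
      intro U b hb1 hb2
      obtain ⟨h1, h2⟩ := cut_one G X sd U b hb1 hb2
      rw [card_pr G X, h1, if_pos h2]
      have hB := hsd b
      have hBM : bs G X sd b ⊆ M0 := (filter_subset _ _).trans h.sub
      by_cases hne : (pv X U).Nonempty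
      · have hC : 3 ≤ (G.cut (pv X U)).card := by
          refine hG.cut _ hne ?_
          intro hu
          apply hXu
          rw [eq_univ_iff_forall]
          intro v
          have : v ∈ pv X U := by rw [hu]; exact mem_univ _
          exact ((mem_pv X U v).mp this).1
        have h3 : (G.cut (pv X U) ∆ bs G X sd b).card =
            (G.cut (pv X U) \ bs G X sd b).card + (bs G X sd b \ G.cut (pv X U)).card := by
          rw [symmDiff_def, sup_eq_union, card_union_of_disjoint]
          exact disjoint_sdiff_sdiff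
        have h4 := card_sdiff_add_card_inter (G.cut (pv X U)) (bs G X sd b)
        have h5 := card_sdiff_add_card_inter (bs G X sd b) (G.cut (pv X U))
        rw [inter_comm (bs G X sd b)] at h5
        by_contra hlt
        have h6 : (G.cut (pv X U) ∩ bs G X sd b).card = 2 := by omega
        have h7 : (G.cut (pv X U)).card = 3 := by omega
        have h8 := h.pm.three _ h7
        have h9 : G.cut (pv X U) ∩ bs G X sd b ⊆ M0 ∩ G.cut (pv X U) := by
          intro e he
          rw [mem_inter] at he ⊢
          exact ⟨hBM he.2, he.1⟩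
        have h10 := card_le_card h9
        omega
      · rw [not_nonempty_iff_eq_empty] at hne
        have h3 : G.cut (pv X U) = ∅ := by
          rw [hne]
          ext e
          simp [G.mem_cut]
        rw [h3]
        have h4 : (∅ : Finset E) ∆ bs G X sd b = bs G X sd b := by
          rw [← Finset.bot_eq_empty, bot_symmDiff]
        rw [h4, hB]
    intro U hU hUu
    by_cases hf : (Sum.inr false : VX X) ∈ U <;> by_cases ht : (Sum.inr true : VX X) ∈ U
    · rw [← MG.cut_compl]
      refine key0 Uᶜ ?_ ?_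
      · rw [nonempty_iff_ne_empty]
        intro h1
        apply hUu
        rwa [compl_eq_empty_iff] at h1
      · intro b
        rw [mem_compl, not_not]
        cases b
        · exact hf
        · exact ht
    · exact key1 U false hf ht
    · exact key1 U true ht hf
    · refine key0 U hU ?_
      intro b
      cases b
      · exact hf
      · exact ht

end Pool.Agent.Lib.MP_95e9b3_coG
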