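import Pool.Agent.Lib.MP_95e9b3_coG.Defs

/-!
# Route G: laws from linear functionals

If every linear functional has a small value on a perfect matching with `¬ G.cut Z ⊆ M` for all
`Z ∈ F`, then `1 / 3` is a convex combination of these perfect matchings (Hahn-Banach). The
condition on the 3-cuts comes from the marginals and parity.
-/

set_option autoImplicit false

namespace Pool.Agent.Lib.MP_95e9b3_coG

open Finset Pool.Agent.Lib.MP_95e9b3_coC

variable {V E : Type} [Fintype V] [DecidableEq V] [Fintype E] [DecidableEq E]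

/-- indicator vector -/
private noncomputable def lp1_ind (M : Finset E) : E → ℝ := fun e => if e ∈ M then 1 else 0

omit [Fintype E] in
private theorem lp1_ind_inj : Function.Injective (lp1_ind : Finset E → E → ℝ) := by
  intro A B h
  ext e
  have h1 := congrFun h e
  unfold lp1_ind at h1
  by_cases hA : e ∈ A <;> by_cases hB : e ∈ B <;> simp [hA, hB] at h1 ⊢

/-- general form: `Good` any property of edge sets -/
theorem law_hb (Good : Finset E → Prop)
    (h : ∀ l : E → ℝ, ∃ M : Finset E, Good M ∧ 3 * (∑ e ∈ M, l e) ≤ ∑ e, l e) :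
    ∃ μ : Finset E → ℝ, (∀ M, 0 ≤ μ M) ∧ (∀ M, μ M ≠ 0 → Good M) ∧ ∑ M, μ M = 1 ∧
      ∀ e, ∑ M, (if e ∈ M then μ M else 0) = 1 / 3 := by
  classical
  obtain ⟨P, hP⟩ : ∃ P : Finset (Finset E), P = univ.filter (fun M => Good M) := ⟨_, rfl⟩
  obtain ⟨S, hS⟩ : ∃ S : Finset (E → ℝ), S = P.image lp1_ind := ⟨_, rfl⟩
  have hmem : (fun _ => (1 / 3 : ℝ)) ∈ convexHull ℝ (S : Set (E → ℝ)) := by
    by_contra hcon
    have hcl : IsClosed (convexHull ℝ (S : Set (E → ℝ))) :=
      (S.finite_toSet.isCompact_convexHull ℝ).isClosed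
    obtain ⟨f, c, h1, h2⟩ := geometric_hahn_banach_point_closed (convex_convexHull ℝ _) hcl hcon
    have hf : ∀ x : E → ℝ, f x = ∑ e, x e * f (Pi.single e 1) := by
      intro x
      have hx : x = ∑ e, x e • (Pi.single e (1 : ℝ) : E → ℝ) := by
        ext a
        simp [Finset.sum_apply, Pi.single_apply]
      conv_lhs => rw [hx]
      rw [map_sum]
      exact Finset.sum_congr rfl fun e _ => by rw [map_smul, smul_eq_mul]
    obtain ⟨M, hM, hle⟩ := h (fun e => f (Pi.single e 1))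
    have h3 := h2 (lp1_ind M) (subset_convexHull ℝ _ (by
      rw [hS, coe_image]
      exact ⟨M, by rw [hP]; simp [hM], rfl⟩))
    rw [hf] at h1 h3
    rw [← Finset.mul_sum] at h1
    have h4 : ∑ e, lp1_ind M e * f (Pi.single e 1) = ∑ e ∈ M, f (Pi.single e 1) := by
      unfold lp1_ind
      simp only [ite_mul, one_mul, zero_mul]
      rw [← Finset.sum_filter]
      refine Finset.sum_congr ?_ fun _ _ => rfl
      ext e; simp
    rw [h4] at h3
    linarith
  obtain ⟨g, hg0, hg1, hg2⟩ := (Finset.mem_convexHull' (R := ℝ)).1 hmem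
  refine ⟨fun M => if Good M then g (lp1_ind M) else 0, ?_, ?_, ?_, ?_⟩
  · intro M
    by_cases h : Good M
    · simp only [if_pos h]
      apply hg0
      rw [hS, hP]
      exact mem_image.2 ⟨M, mem_filter.2 ⟨mem_univ _, h⟩, rfl⟩
    · simp only [if_neg h]
      exact le_refl _
  · intro M hM
    by_contra h
    exact hM (if_neg h)
  · rw [← Finset.sum_filter, ← hg1, hS, Finset.sum_image (fun a _ b _ h => lp1_ind_inj h), hP]
  · intro e
    have h1 := congrFun hg2 e
    rw [hS, Finset.sum_image (fun a _ b _ h => lp1_ind_inj h), Finset.sum_apply] at h1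
    rw [← h1, hP, Finset.sum_filter]
    refine Finset.sum_congr rfl fun M _ => ?_
    by_cases h : Good M
    · by_cases he : e ∈ M <;> simp [h, he, lp1_ind]
    · by_cases he : e ∈ M <;> simp [h, he]

/-- mean number of edges of `C` in `M` -/
theorem law_mean (μ : Finset E → ℝ) (hm : ∀ e, ∑ M, (if e ∈ M then μ M else 0) = 1 / 3)
    (C : Finset E) : ∑ M, μ M * ((M ∩ C).card : ℝ) = (C.card : ℝ) / 3 := by
  classical
  have h1 : ∀ M : Finset E, μ M * ((M ∩ C).card : ℝ) = ∑ e ∈ C, (if e ∈ M then μ M else 0) := by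
    intro M
    rw [← sum_filter, sum_const, nsmul_eq_mul, mul_comm]
    congr 2
    congr 1
    ext e
    rw [mem_inter, mem_filter]
    exact and_comm
  rw [sum_congr rfl (fun M _ => h1 M), sum_comm, sum_congr rfl (fun e _ => hm e), sum_const,
    nsmul_eq_mul]
  ring

/-- marginals `1 / 3` and odd intersections give exactly one edge in every 3-cut -/
theorem law_three (G : MG V E) (hdeg : ∀ v, G.dg univ v = 3) (μ : Finset E → ℝ)
    (h0 : ∀ M, 0 ≤ μ M) (hM : ∀ M, μ M ≠ 0 → ∀ v, G.dg M v = 1) (h1 : ∑ M, μ M = 1)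
    (hm : ∀ e, ∑ M, (if e ∈ M then μ M else 0) = 1 / 3) (M : Finset E) (hMM : μ M ≠ 0)
    (U : Finset V) (hU : (G.cut U).card = 3) : (M ∩ G.cut U).card = 1 := by
  classical
  have hodd : ∀ N, μ N ≠ 0 → 1 ≤ (N ∩ G.cut U).card := by
    intro N hN
    have h2 := G.Sim_cut N univ (fun v => by rw [hM N hN v, hdeg v]) U
    rw [univ_inter, hU] at h2
    omega
  have h2 := law_mean μ hm (G.cut U)
  rw [hU] at h2
  have h3 : ∑ N, μ N * (((N ∩ G.cut U).card : ℝ) - 1) = 0 := by
    have h4 : ∀ N : Finset E, μ N * (((N ∩ G.cut U).card : ℝ) - 1) =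
        μ N * ((N ∩ G.cut U).card : ℝ) - μ N := fun N => by ring
    rw [sum_congr rfl (fun N _ => h4 N), sum_sub_distrib, h2, h1]
    norm_num
  have h4 : ∀ N ∈ (univ : Finset (Finset E)), 0 ≤ μ N * (((N ∩ G.cut U).card : ℝ) - 1) := by
    intro N _
    by_cases hN : μ N = 0
    · rw [hN, zero_mul]
    · apply mul_nonneg (h0 N)
      have h5 : (1 : ℝ) ≤ ((N ∩ G.cut U).card : ℝ) := by exact_mod_cast hodd N hN
      linarith
  have h5 := (sum_eq_zero_iff_of_nonneg h4).1 h3 M (mem_univ M)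
  have h6 : ((M ∩ G.cut U).card : ℝ) - 1 = 0 := by
    rcases mul_eq_zero.1 h5 with h | h
    · exact absurd h hMM
    · exact h
  have h7 : ((M ∩ G.cut U).card : ℝ) = 1 := by linarith
  exact_mod_cast h7

/-- laws from linear functionals -/
theorem law_of_fun (G : MG V E) (F : Finset (Finset V))
    (h : ∀ l : E → ℝ, ∃ M : Finset E, (∀ v, G.dg M v = 1) ∧ (∀ Z ∈ F, ¬ G.cut Z ⊆ M) ∧
      3 * (∑ e ∈ M, l e) ≤ ∑ e, l e) (hdeg : ∀ v, G.dg univ v = 3) :
    ∃ μ : Finset E → ℝ, Law G μ ∧ ∀ M, μ M ≠ 0 → ∀ Z ∈ F, ¬ G.cut Z ⊆ M := by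
  obtain ⟨μ, h0, h1, h2, h3⟩ := law_hb
    (fun M => (∀ v, G.dg M v = 1) ∧ ∀ Z ∈ F, ¬ G.cut Z ⊆ M) (by
      intro l
      obtain ⟨M, g1, g2, g3⟩ := h l
      exact ⟨M, ⟨g1, g2⟩, g3⟩)
  refine ⟨μ, ⟨h0, ?_, h2, h3⟩, fun M hM => (h1 M hM).2⟩
  intro M hM
  exact ⟨(h1 M hM).1, fun U hU => law_three G hdeg μ h0 (fun N hN => (h1 N hN).1) h2 h3 M hM U hU⟩

end Pool.Agent.Lib.MP_95e9b3_coG
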