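import Pool.Agent.Lib.MP_95e9b3_coG.LawA

/-!
# Route G, law avoiding a non-crossing family of 4-cuts: one side

`PMt G W F p N`: `N` is a matching of the side `W` with pattern `p` on the cut of `W`, avoiding the
members of `F` on this side. `Good`: three such matchings with patterns `∅`, `q`, `cut W \ q` of
small total weight. `side`: a law on the gadget graph gives `Good`.
-/

set_option autoImplicit false

namespace Pool.Agent.Lib.MP_95e9b3_coG

open Finset Pool.Agent.Lib.MP_95e9b3_coC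
open scoped symmDiff

variable {V E : Type} [Fintype V] [DecidableEq V] [Fintype E] [DecidableEq E]

/-- matchings of one side -/
structure PMt (G : MG V E) (W : Finset V) (F : Finset (Finset V)) (p N : Finset E) : Prop where
  sub : N ⊆ tE G W
  deg : ∀ v ∈ W, G.dg N v = 1
  pat : N ∩ G.cut W = p
  av : ∀ Z ∈ F, (Z ⊆ W ∨ Wᶜ ⊆ Z) → Z ≠ W → Z ≠ Wᶜ → ¬ G.cut Z ⊆ N

/-- three matchings of one side with small total weight -/
def Good (G : MG V E) (W : Finset V) (F : Finset (Finset V)) (l : E → ℝ) (q : Finset E) : Prop :=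
  ∃ N0 N1 N2 : Finset E, PMt G W F ∅ N0 ∧ PMt G W F q N1 ∧ PMt G W F (G.cut W \ q) N2 ∧
    ∑ e ∈ N0 \ G.cut W, l e + ∑ e ∈ N1 \ G.cut W, l e + ∑ e ∈ N2 \ G.cut W, l e ≤
      ∑ e ∈ tE G W \ G.cut W, l e

/-! ### averages -/

theorem avg_one {ι : Type} [Fintype ι] (w f : ι → ℝ) (hw : ∀ i, 0 ≤ w i) (a : ℝ)
    (ha : ∑ i, w i = a) (h0 : 0 < a) : ∃ i, w i ≠ 0 ∧ a * f i ≤ ∑ i, w i * f i := by
  by_contra hcon
  push Not at hcon
  set S := ∑ i, w i * f i with hS
  have h1 : ∀ i, w i * S ≤ w i * (a * f i) := by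
    intro i
    by_cases hi : w i = 0
    · rw [hi]
      simp
    · exact mul_le_mul_of_nonneg_left (hcon i hi).le (hw i)
  have h2 : ∃ i ∈ (univ : Finset ι), w i * S < w i * (a * f i) := by
    by_contra h3
    push Not at h3
    have h4 : ∀ i, w i = 0 := by
      intro i
      by_contra hi
      have h5 := h3 i (mem_univ i)
      have h6 : 0 < w i := lt_of_le_of_ne (hw i) (Ne.symm hi)
      have h7 := mul_lt_mul_of_pos_left (hcon i hi) h6
      linarith
    have h5 : ∑ i, w i = 0 := Finset.sum_eq_zero fun i _ => h4 i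
    linarith
  have h3 : ∑ i, w i * S < ∑ i, w i * (a * f i) := Finset.sum_lt_sum (fun i _ => h1 i) h2
  rw [← Finset.sum_mul, ha] at h3
  have h4 : ∑ i, w i * (a * f i) = a * S := by
    rw [hS, Finset.mul_sum]
    exact Finset.sum_congr rfl fun i _ => by ring
  rw [h4] at h3
  exact lt_irrefl _ h3

theorem avg_two {ι : Type} [Fintype ι] (w1 w2 f : ι → ℝ) (h1 : ∀ i, 0 ≤ w1 i)
    (h2 : ∀ i, 0 ≤ w2 i) (a : ℝ) (s1 : ∑ i, w1 i = a) (s2 : ∑ i, w2 i = a) (c : ℝ)
    (h : ∀ i j, w1 i ≠ 0 → w2 j ≠ 0 → c < f i + f j) :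
    a * c ≤ ∑ i, w1 i * f i + ∑ i, w2 i * f i ∧
      (0 < a → a * c < ∑ i, w1 i * f i + ∑ i, w2 i * f i) := by
  have h0 : 0 ≤ a := by
    rw [← s1]
    exact Finset.sum_nonneg fun i _ => h1 i
  have key : 0 < a → a * c < ∑ i, w1 i * f i + ∑ i, w2 i * f i := by
    intro ha
    obtain ⟨i, hi, hi'⟩ := avg_one w1 f h1 a s1 ha
    obtain ⟨j, hj, hj'⟩ := avg_one w2 f h2 a s2 ha
    have h3 := h i j hi hj
    have h4 := mul_lt_mul_of_pos_left h3 ha
    linarith
  refine ⟨?_, key⟩
  rcases h0.lt_or_eq with h3 | h3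
  · exact (key h3).le
  · subst h3
    have h4 : ∀ i, w1 i = 0 := by
      intro i
      exact (Finset.sum_eq_zero_iff_of_nonneg (fun i _ => h1 i)).1 s1 i (mem_univ i)
    have h5 : ∀ i, w2 i = 0 := by
      intro i
      exact (Finset.sum_eq_zero_iff_of_nonneg (fun i _ => h2 i)).1 s2 i (mem_univ i)
    simp [h4, h5]

/-! ### pointwise identities -/

theorem ite_split1 (m : ℝ) (A Y Z : Prop) [Decidable A] [Decidable Y] [Decidable Z]
    (h : A → (Y ↔ ¬ Z)) :
    (if A ∧ Y then m else 0) + (if A ∧ Z then m else 0) = if A then m else 0 := by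
  by_cases hA : A <;> by_cases hY : Y <;> by_cases hZ : Z <;> simp_all

theorem ite_split2 (m : ℝ) (A X Y : Prop) [Decidable A] [Decidable X] [Decidable Y]
    (h : Y → (A ↔ ¬ X)) :
    (if A ∧ Y then m else 0) + (if X ∧ Y then m else 0) = if Y then m else 0 := by
  by_cases hA : A <;> by_cases hY : Y <;> by_cases hX : X <;> simp_all

theorem ite_five (m : ℝ) (I A X Y Z : Prop) [Decidable I] [Decidable A] [Decidable X]
    [Decidable Y] [Decidable Z] (h1 : I → ¬ A ∧ ¬ X ∧ ¬ Y ∧ ¬ Z)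
    (h2 : ¬ I → (A ↔ ¬ X) ∧ (Y ↔ ¬ Z)) :
    (if I then m else 0) + ((if A ∧ Y then m else 0) + (if X ∧ Z then m else 0)) +
      ((if A ∧ Z then m else 0) + (if X ∧ Y then m else 0)) = m := by
  by_cases hI : I
  · have h3 := h1 hI
    simp [hI, h3.1, h3.2.1]
  · have h3 := h2 hI
    by_cases hA : A <;> by_cases hY : Y <;> by_cases hX : X <;> by_cases hZ : Z <;> simp_all

/-! ### the family of one side -/

open Classical in
/-- a set of old vertices -/
noncomputable def lf (W Z : Finset V) : Finset (VX W) :=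
  univ.filter (fun x => ∃ v, x = Sum.inl v ∧ v.1 ∈ Z)

theorem mem_lf (W Z : Finset V) (x : VX W) : x ∈ lf W Z ↔ ∃ v, x = Sum.inl v ∧ v.1 ∈ Z := by
  unfold lf
  rw [mem_filter]
  simp

theorem inr_lf (W Z : Finset V) (b : Bool) : (Sum.inr b : VX W) ∉ lf W Z := by
  rw [mem_lf]
  rintro ⟨v, h, _⟩
  simp at h

theorem pv_lf (W Z : Finset V) (h : Z ⊆ W) : pv W (lf W Z) = Z := by
  ext v
  rw [mem_pv]
  constructor
  · rintro ⟨h1, h2⟩
    rw [mem_lf] at h2
    obtain ⟨u, h3, h4⟩ := h2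
    have h5 : (⟨v, h1⟩ : {v // v ∈ W}) = u := Sum.inl.inj h3
    rw [← h5] at h4
    exact h4
  · intro h1
    refine ⟨h h1, ?_⟩
    rw [mem_lf]
    exact ⟨⟨v, h h1⟩, rfl, h1⟩

/-- the set or its complement, whichever is inside `W` -/
def sgn (W Z : Finset V) : Finset V := if Z ⊆ W then Z else Zᶜ

theorem sgn_sub (W Z : Finset V) (h : Z ⊆ W ∨ Wᶜ ⊆ Z) : sgn W Z ⊆ W := by
  unfold sgn
  split_ifs with h1
  · exact h1
  · have h2 := h.resolve_left h1
    rw [← compl_compl W]
    exact compl_subset_compl.2 h2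

theorem sgn_cut (G : MG V E) (W Z : Finset V) : G.cut (sgn W Z) = G.cut Z := by
  unfold sgn
  split_ifs with h1
  · rfl
  · exact G.cut_compl Z

/-- the cut of the lifted set -/
theorem cut_lf (G : MG V E) (W Z : Finset V) (sd : E → Bool) (h : Z ⊆ W ∨ Wᶜ ⊆ Z) :
    pr G W ((ex G W sd).cut (lf W (sgn W Z))) = G.cut Z ∧
      (Sum.inr () : EX G W) ∉ (ex G W sd).cut (lf W (sgn W Z)) := by
  have h1 := cut_none G W sd (lf W (sgn W Z)) (inr_lf W _)
  rw [pv_lf W _ (sgn_sub W Z h), sgn_cut] at h1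
  exact h1

/-- non-crossing -/
def Nc (A B : Finset V) : Prop := A ⊆ B ∨ B ⊆ A ∨ Disjoint A B ∨ A ∪ B = univ

theorem Nc_symm (A B : Finset V) (h : Nc A B) : Nc B A := by
  unfold Nc at h ⊢
  rcases h with h | h | h | h
  · exact Or.inr (Or.inl h)
  · exact Or.inl h
  · exact Or.inr (Or.inr (Or.inl h.symm))
  · exact Or.inr (Or.inr (Or.inr (by rw [union_comm]; exact h)))

theorem Nc_compl (A B : Finset V) (h : Nc A B) : Nc Aᶜ B := by
  unfold Nc at h ⊢
  rcases h with h | h | h | h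
  · right; right; right
    rw [eq_univ_iff_forall]
    intro v
    rw [mem_union, mem_compl]
    by_cases hv : v ∈ A
    · exact Or.inr (h hv)
    · exact Or.inl hv
  · right; right; left
    rw [Finset.disjoint_left]
    intro v h1 h2
    exact (mem_compl.1 h1) (h h2)
  · right; left
    intro v hv
    rw [mem_compl]
    exact fun h1 => (Finset.disjoint_left.1 h h1) hv
  · left
    intro v hv
    rw [mem_compl] at hv
    have := (eq_univ_iff_forall.1 h) v
    rw [mem_union] at this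
    exact this.resolve_left hv

theorem Nc_sgn (W A B : Finset V) (h : Nc A B) : Nc (sgn W A) (sgn W B) := by
  have h1 : ∀ C : Finset V, Nc A C → Nc (sgn W A) C := by
    intro C hC
    unfold sgn
    split_ifs with h1
    · exact hC
    · exact Nc_compl A C hC
  have h2 : Nc A (sgn W B) := by
    unfold sgn
    split_ifs with h1
    · exact h
    · exact Nc_symm _ _ (Nc_compl B A (Nc_symm _ _ h))
  exact h1 _ h2

open Classical in
/-- the members on the side `W` -/
noncomputable def LF (W : Finset V) (F : Finset (Finset V)) : Finset (Finset (VX W)) :=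
  (F.filter (fun Z => (Z ⊆ W ∨ Wᶜ ⊆ Z) ∧ Z ≠ W ∧ Z ≠ Wᶜ)).image (fun Z => lf W (sgn W Z))

theorem mem_LF (W : Finset V) (F : Finset (Finset V)) (U : Finset (VX W)) :
    U ∈ LF W F ↔ ∃ Z ∈ F, ((Z ⊆ W ∨ Wᶜ ⊆ Z) ∧ Z ≠ W ∧ Z ≠ Wᶜ) ∧ lf W (sgn W Z) = U := by
  unfold LF
  rw [mem_image]
  constructor
  · rintro ⟨Z, hZ, h⟩
    rw [mem_filter] at hZ
    exact ⟨Z, hZ.1, hZ.2, h⟩
  · rintro ⟨Z, hZ, h1, h⟩
    exact ⟨Z, mem_filter.2 ⟨hZ, h1⟩, h⟩

theorem LF_card (W X : Finset V) (F : Finset (Finset V)) (hX : X ∈ F) (h : X = W ∨ X = Wᶜ) :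
    (LF W F).card < F.card := by
  classical
  unfold LF
  refine lt_of_le_of_lt card_image_le ?_
  refine card_lt_card ?_
  rw [Finset.ssubset_iff_of_subset (filter_subset _ _)]
  refine ⟨X, hX, ?_⟩
  rw [mem_filter]
  rintro ⟨_, _, h1, h2⟩
  rcases h with h | h
  · exact h1 h
  · exact h2 h

theorem LF_four (G : MG V E) (W : Finset V) (F : Finset (Finset V)) (sd : E → Bool)
    (h4 : ∀ Z ∈ F, (G.cut Z).card = 4) : ∀ U ∈ LF W F, ((ex G W sd).cut U).card = 4 := by
  intro U hU
  rw [mem_LF] at hU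
  obtain ⟨Z, hZ, h1, rfl⟩ := hU
  obtain ⟨h2, h3⟩ := cut_lf G W Z sd h1.1
  rw [card_pr G W, h2, if_neg h3, h4 Z hZ]

theorem LF_nc (W : Finset V) (F : Finset (Finset V)) (hW : W ≠ univ)
    (hn : ∀ Z ∈ F, ∀ Z' ∈ F, Nc Z Z') : ∀ U ∈ LF W F, ∀ U' ∈ LF W F, Nc U U' := by
  intro U hU U' hU'
  rw [mem_LF] at hU hU'
  obtain ⟨Z, hZ, h1, rfl⟩ := hU
  obtain ⟨Z', hZ', h1', rfl⟩ := hU'
  have h2 := Nc_sgn W Z Z' (hn Z hZ Z' hZ')
  have hs := sgn_sub W Z h1.1
  have hs' := sgn_sub W Z' h1'.1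
  have hmono : ∀ A B : Finset V, A ⊆ B → lf W A ⊆ lf W B := by
    intro A B hAB x hx
    rw [mem_lf] at hx ⊢
    obtain ⟨v, hv, hv'⟩ := hx
    exact ⟨v, hv, hAB hv'⟩
  rcases h2 with h | h | h | h
  · exact Or.inl (hmono _ _ h)
  · exact Or.inr (Or.inl (hmono _ _ h))
  · right; right; left
    rw [Finset.disjoint_left]
    intro x hx hx'
    rw [mem_lf] at hx hx'
    obtain ⟨v, hv, hv'⟩ := hx
    obtain ⟨u, hu, hu'⟩ := hx'
    rw [hv] at hu
    have h3 : v = u := Sum.inl.inj hu
    rw [← h3] at hu'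
    exact (Finset.disjoint_left.1 h hv') hu'
  · exfalso
    apply hW
    rw [eq_univ_iff_forall]
    intro v
    have h3 := (eq_univ_iff_forall.1 h) v
    rcases mem_union.1 h3 with h4 | h4
    · exact hs h4
    · exact hs' h4

/-! ### matchings of the gadget graph -/

/-- a matching of the gadget graph which avoids the lifted family gives a matching of the side -/
theorem PMt_of (G : MG V E) (W : Finset V) (F : Finset (Finset V)) (sd : E → Bool)
    (M : Finset (EX G W)) (hM : ∀ v, (ex G W sd).dg M v = 1)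
    (hav : ∀ U ∈ LF W F, ¬ (ex G W sd).cut U ⊆ M) :
    PMt G W F (pr G W M ∩ G.cut W) (pr G W M) := by
  refine ⟨pr_sub G W M, ?_, rfl, ?_⟩
  · intro v hv
    rw [← dg_inl G W sd M v hv]
    exact hM _
  · intro Z hZ h1 h2 h3 h4
    obtain ⟨h5, h6⟩ := cut_lf G W Z sd h1
    apply hav (lf W (sgn W Z)) ((mem_LF W F _).2 ⟨Z, hZ, ⟨h1, h2, h3⟩, rfl⟩)
    intro f hf
    rcases f with ⟨e, he⟩ | u
    · have h7 : e ∈ pr G W ((ex G W sd).cut (lf W (sgn W Z))) := (mem_pr G W _ e).2 ⟨he, hf⟩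
      rw [h5] at h7
      exact ((mem_pr G W M e).1 (h4 h7)).2
    · exact absurd hf h6

/-- the four boundary edges in a matching of the gadget graph -/
theorem four_edges (G : MG V E) (W : Finset V) (sd : E → Bool) (M : Finset (EX G W))
    (hM : ∀ v, (ex G W sd).dg M v = 1) (a x y z : E) (hax : a ≠ x) (hyz : y ≠ z)
    (ht : bs G W sd true = {a, x}) (hf : bs G W sd false = {y, z}) :
    ((Sum.inr () : EX G W) ∈ M → a ∉ pr G W M ∧ x ∉ pr G W M ∧ y ∉ pr G W M ∧ z ∉ pr G W M) ∧
    ((Sum.inr () : EX G W) ∉ M → (a ∈ pr G W M ↔ x ∉ pr G W M) ∧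
      (y ∈ pr G W M ↔ z ∉ pr G W M)) := by
  have h1 := hM (Sum.inr true)
  have h2 := hM (Sum.inr false)
  rw [dg_inr, ht] at h1
  rw [dg_inr, hf] at h2
  have key : ∀ (N : Finset E) (c d : E), c ≠ d → (N ∩ {c, d}).card =
      (if c ∈ N then 1 else 0) + (if d ∈ N then 1 else 0) := by
    intro N c d hcd
    by_cases hc : c ∈ N <;> by_cases hd : d ∈ N
    · have : N ∩ {c, d} = {c, d} := by
        rw [inter_eq_right]
        intro e he
        rw [mem_insert, mem_singleton] at he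
        rcases he with rfl | rfl
        · exact hc
        · exact hd
      rw [this, card_pair hcd, if_pos hc, if_pos hd]
    · have : N ∩ {c, d} = {c} := by
        ext e
        rw [mem_inter, mem_insert, mem_singleton, mem_singleton]
        constructor
        · rintro ⟨h3, h4 | h4⟩
          · exact h4
          · exact absurd (h4 ▸ h3) hd
        · rintro rfl
          exact ⟨hc, Or.inl rfl⟩
      rw [this, card_singleton, if_pos hc, if_neg hd]
    · have : N ∩ {c, d} = {d} := by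
        ext e
        rw [mem_inter, mem_insert, mem_singleton]
        constructor
        · rintro ⟨h3, h4 | h4⟩
          · exact absurd (h4 ▸ h3) hc
          · exact h4
        · rintro rfl
          exact ⟨hd, Or.inr rfl⟩
      rw [this, card_singleton, if_neg hc, if_pos hd]
    · have : N ∩ {c, d} = ∅ := by
        ext e
        rw [mem_inter, mem_insert, mem_singleton]
        constructor
        · rintro ⟨h3, h4 | h4⟩
          · exact absurd (h4 ▸ h3) hc
          · exact absurd (h4 ▸ h3) hd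
        · intro h3
          simp at h3
      rw [this, card_empty, if_neg hc, if_neg hd]
  rw [key _ _ _ hax] at h1
  rw [key _ _ _ hyz] at h2
  constructor
  · intro h
    rw [if_pos h] at h1 h2
    refine ⟨?_, ?_, ?_, ?_⟩
    · intro h3
      rw [if_pos h3] at h1
      omega
    · intro h3
      rw [if_pos h3] at h1
      omega
    · intro h3
      rw [if_pos h3] at h2
      omega
    · intro h3
      rw [if_pos h3] at h2
      omega
  · intro h
    rw [if_neg h] at h1 h2
    constructor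
    · by_cases h3 : a ∈ pr G W M <;> by_cases h4 : x ∈ pr G W M <;> simp [h3, h4] at h1 ⊢
    · by_cases h3 : y ∈ pr G W M <;> by_cases h4 : z ∈ pr G W M <;> simp [h3, h4] at h2 ⊢

/-- the weights of the matchings with the edges `u`, `v` -/
noncomputable def wp (G : MG V E) (W : Finset V) (μ : Finset (EX G W) → ℝ) (u v : E)
    (M : Finset (EX G W)) : ℝ := if u ∈ pr G W M ∧ v ∈ pr G W M then μ M else 0

/-- the total weight of a law on the interior edges -/
theorem law_total (G : MG V E) (W : Finset V) (sd : E → Bool) (μ : Finset (EX G W) → ℝ)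
    (hμ : Law (ex G W sd) μ) (l : E → ℝ) :
    ∑ M, μ M * (∑ e ∈ pr G W M \ G.cut W, l e) = 1 / 3 * ∑ e ∈ tE G W \ G.cut W, l e := by
  have h1 : ∀ M : Finset (EX G W), μ M * (∑ e ∈ pr G W M \ G.cut W, l e) =
      ∑ e ∈ tE G W \ G.cut W, (if e ∈ pr G W M then μ M else 0) * l e := by
    intro M
    have h2 : pr G W M \ G.cut W = (tE G W \ G.cut W).filter (fun e => e ∈ pr G W M) := by
      ext e
      rw [mem_sdiff, mem_filter, mem_sdiff]
      constructor
      · rintro ⟨h3, h4⟩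
        exact ⟨⟨pr_sub G W M h3, h4⟩, h3⟩
      · rintro ⟨⟨_, h4⟩, h3⟩
        exact ⟨h3, h4⟩
    rw [h2, Finset.sum_filter, Finset.mul_sum]
    refine Finset.sum_congr rfl fun e _ => ?_
    split_ifs <;> ring
  rw [Finset.sum_congr rfl fun M _ => h1 M, Finset.sum_comm, Finset.mul_sum]
  refine Finset.sum_congr rfl fun e he => ?_
  rw [← Finset.sum_mul]
  congr 1
  have h3 : e ∈ tE G W := (mem_sdiff.1 he).1
  have h4 := hμ.marg (Sum.inl ⟨e, h3⟩)
  rw [← h4]
  refine Finset.sum_congr rfl fun M _ => ?_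
  have h5 : e ∈ pr G W M ↔ (Sum.inl ⟨e, h3⟩ : EX G W) ∈ M := by
    rw [mem_pr]
    exact ⟨fun h => h.2, fun h => ⟨h3, h⟩⟩
  by_cases h6 : e ∈ pr G W M
  · rw [if_pos h6, if_pos (h5.1 h6)]
  · rw [if_neg h6, if_neg (fun h => h6 (h5.2 h))]

/-- a law on the gadget graph gives `Good` for one of the two other pairings -/
theorem side (G : MG V E) (W : Finset V) (F : Finset (Finset V)) (l : E → ℝ)
    (a x y z : E) (hax : a ≠ x) (hay : a ≠ y) (haz : a ≠ z) (hxy : x ≠ y) (hxz : x ≠ z)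
    (hyz : y ≠ z) (hc : G.cut W = {a, x, y, z}) (sd : E → Bool)
    (ht : bs G W sd true = {a, x}) (hf : bs G W sd false = {y, z})
    (μ : Finset (EX G W) → ℝ) (hμ : Law (ex G W sd) μ)
    (hav : ∀ M, μ M ≠ 0 → ∀ U ∈ LF W F, ¬ (ex G W sd).cut U ⊆ M) :
    Good G W F l {a, y} ∨ Good G W F l {a, z} := by
  classical
  by_contra hcon
  push Not at hcon
  obtain ⟨hg1, hg2⟩ := hcon
  set f : Finset (EX G W) → ℝ := fun M => ∑ e ∈ pr G W M \ G.cut W, l e with hfdef
  set L : ℝ := ∑ e ∈ tE G W \ G.cut W, l e with hL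
  have hfour : ∀ M, μ M ≠ 0 →
      ((Sum.inr () : EX G W) ∈ M → a ∉ pr G W M ∧ x ∉ pr G W M ∧ y ∉ pr G W M ∧ z ∉ pr G W M) ∧
      ((Sum.inr () : EX G W) ∉ M → (a ∈ pr G W M ↔ x ∉ pr G W M) ∧
        (y ∈ pr G W M ↔ z ∉ pr G W M)) := fun M hM =>
    four_edges G W sd M (hμ.supp M hM).deg a x y z hax hyz ht hf
  have hP : ∀ M, μ M ≠ 0 → PMt G W F (pr G W M ∩ G.cut W) (pr G W M) := fun M hM =>
    PMt_of G W F sd M (hμ.supp M hM).deg (hav M hM)
  have hwn : ∀ u v, ∀ M, 0 ≤ wp G W μ u v M := by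
    intro u v M
    unfold wp
    split_ifs
    · exact hμ.nonneg M
    · exact le_refl _
  set w0 : Finset (EX G W) → ℝ := fun M => if (Sum.inr () : EX G W) ∈ M then μ M else 0 with hw0
  have hw0n : ∀ M, 0 ≤ w0 M := by
    intro M
    rw [hw0]
    show 0 ≤ (if (Sum.inr () : EX G W) ∈ M then μ M else 0)
    split_ifs
    · exact hμ.nonneg M
    · exact le_refl _
  have hs0 : ∑ M, w0 M = 1 / 3 := hμ.marg (Sum.inr ())
  -- marginals of the boundary edges
  have hm : ∀ u ∈ G.cut W, ∑ M, (if u ∈ pr G W M then μ M else 0) = 1 / 3 := by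
    intro u hu
    have h3 : u ∈ tE G W := cut_sub_tE G W W (Or.inl (Subset.refl _)) hu
    rw [← hμ.marg (Sum.inl ⟨u, h3⟩)]
    refine Finset.sum_congr rfl fun M _ => ?_
    have h5 : u ∈ pr G W M ↔ (Sum.inl ⟨u, h3⟩ : EX G W) ∈ M := by
      rw [mem_pr]
      exact ⟨fun h => h.2, fun h => ⟨h3, h⟩⟩
    by_cases h6 : u ∈ pr G W M
    · rw [if_pos h6, if_pos (h5.1 h6)]
    · rw [if_neg h6, if_neg (fun h => h6 (h5.2 h))]
  have hxor : ∀ M, μ M ≠ 0 → (a ∈ pr G W M ∨ x ∈ pr G W M ∨ y ∈ pr G W M) →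
      (a ∈ pr G W M ↔ x ∉ pr G W M) ∧ (y ∈ pr G W M ↔ z ∉ pr G W M) := by
    intro M h0 h
    have h1 := hfour M h0
    refine h1.2 ?_
    intro e0
    have h2 := h1.1 e0
    rcases h with h | h | h
    · exact h2.1 h
    · exact h2.2.1 h
    · exact h2.2.2.1 h
  have hma : ∑ M, wp G W μ a y M + ∑ M, wp G W μ a z M = 1 / 3 := by
    rw [← hm a (by rw [hc]; simp), ← Finset.sum_add_distrib]
    refine Finset.sum_congr rfl fun M _ => ?_
    unfold wp
    by_cases h0 : μ M = 0
    · rw [h0]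
      simp only [ite_self, add_zero]
    · exact ite_split1 (μ M) _ _ _ (fun h => (hxor M h0 (Or.inl h)).2)
  have hmx : ∑ M, wp G W μ x y M + ∑ M, wp G W μ x z M = 1 / 3 := by
    rw [← hm x (by rw [hc]; simp), ← Finset.sum_add_distrib]
    refine Finset.sum_congr rfl fun M _ => ?_
    unfold wp
    by_cases h0 : μ M = 0
    · rw [h0]
      simp only [ite_self, add_zero]
    · exact ite_split1 (μ M) _ _ _ (fun h => (hxor M h0 (Or.inr (Or.inl h))).2)
  have hmy : ∑ M, wp G W μ a y M + ∑ M, wp G W μ x y M = 1 / 3 := by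
    rw [← hm y (by rw [hc]; simp), ← Finset.sum_add_distrib]
    refine Finset.sum_congr rfl fun M _ => ?_
    unfold wp
    by_cases h0 : μ M = 0
    · rw [h0]
      simp only [ite_self, add_zero]
    · exact ite_split2 (μ M) _ _ _ (fun h => (hxor M h0 (Or.inr (Or.inr h))).1)
  -- the total weight
  have htot : ∑ M, w0 M * f M + (∑ M, wp G W μ a y M * f M + ∑ M, wp G W μ x z M * f M) +
      (∑ M, wp G W μ a z M * f M + ∑ M, wp G W μ x y M * f M) = 1 / 3 * L := by
    rw [← law_total G W sd μ hμ l, ← Finset.sum_add_distrib, ← Finset.sum_add_distrib,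
      ← Finset.sum_add_distrib, ← Finset.sum_add_distrib]
    refine Finset.sum_congr rfl fun M _ => ?_
    have hfM : f M = ∑ e ∈ pr G W M \ G.cut W, l e := rfl
    rw [← hfM, ← add_mul, ← add_mul, ← add_mul, ← add_mul]
    congr 1
    unfold wp
    by_cases h0 : μ M = 0
    · show (if (Sum.inr () : EX G W) ∈ M then μ M else 0) + _ + _ = μ M
      rw [h0]
      simp only [ite_self, add_zero]
    · exact ite_five (μ M) _ _ _ _ _ (hfour M h0).1 (hfour M h0).2
  -- patterns
  have hpat0 : ∀ M, w0 M ≠ 0 → PMt G W F ∅ (pr G W M) := by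
    intro M hM
    rw [hw0] at hM
    have h1 : (if (Sum.inr () : EX G W) ∈ M then μ M else 0) ≠ 0 := hM
    by_cases e0 : (Sum.inr () : EX G W) ∈ M
    · rw [if_pos e0] at h1
      have h2 := (hfour M h1).1 e0
      have h3 := hP M h1
      have h4 : pr G W M ∩ G.cut W = ∅ := by
        ext e
        rw [mem_inter, hc]
        simp only [mem_insert, mem_singleton, notMem_empty, iff_false]
        rintro ⟨h5, rfl | rfl | rfl | rfl⟩
        · exact h2.1 h5
        · exact h2.2.1 h5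
        · exact h2.2.2.1 h5
        · exact h2.2.2.2 h5
      rw [h4] at h3
      exact h3
    · rw [if_neg e0] at h1
      exact absurd rfl h1
  have hpat : ∀ u v u' v' : E, G.cut W = {u, v, u', v'} →
      (∀ M, μ M ≠ 0 → u ∈ pr G W M → v ∈ pr G W M → u' ∉ pr G W M ∧ v' ∉ pr G W M) →
      ∀ M, wp G W μ u v M ≠ 0 → PMt G W F {u, v} (pr G W M) := by
    intro u v u' v' hc' hex M hM
    unfold wp at hM
    by_cases h1 : u ∈ pr G W M ∧ v ∈ pr G W M
    · rw [if_pos h1] at hM
      have h2 := hex M hM h1.1 h1.2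
      have h3 := hP M hM
      have h4 : pr G W M ∩ G.cut W = {u, v} := by
        ext e
        rw [mem_inter, hc']
        simp only [mem_insert, mem_singleton]
        constructor
        · rintro ⟨h5, rfl | rfl | rfl | rfl⟩
          · exact Or.inl rfl
          · exact Or.inr rfl
          · exact absurd h5 h2.1
          · exact absurd h5 h2.2
        · rintro (rfl | rfl)
          · exact ⟨h1.1, Or.inl rfl⟩
          · exact ⟨h1.2, Or.inr (Or.inl rfl)⟩
      rw [h4] at h3
      exact h3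
    · rw [if_neg h1] at hM
      exact absurd rfl hM
  have hno : ∀ M, μ M ≠ 0 → ∀ u ∈ pr G W M, (u = a ∨ u = x ∨ u = y ∨ u = z) →
      (Sum.inr () : EX G W) ∉ M := by
    intro M hM u hu h1 h2
    have h3 := (hfour M hM).1 h2
    rcases h1 with rfl | rfl | rfl | rfl
    · exact h3.1 hu
    · exact h3.2.1 hu
    · exact h3.2.2.1 hu
    · exact h3.2.2.2 hu
  have hpay := hpat a y x z (by rw [hc]; ext e; simp only [mem_insert, mem_singleton]; tauto)
    (fun M hM h1 h2 => by
      have h3 := (hfour M hM).2 (hno M hM a h1 (Or.inl rfl))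
      tauto)
  have hpaz := hpat a z x y (by rw [hc]; ext e; simp only [mem_insert, mem_singleton]; tauto)
    (fun M hM h1 h2 => by
      have h3 := (hfour M hM).2 (hno M hM a h1 (Or.inl rfl))
      tauto)
  have hpxy := hpat x y a z (by rw [hc]; ext e; simp only [mem_insert, mem_singleton]; tauto)
    (fun M hM h1 h2 => by
      have h3 := (hfour M hM).2 (hno M hM x h1 (Or.inr (Or.inl rfl)))
      tauto)
  have hpxz := hpat x z a y (by rw [hc]; ext e; simp only [mem_insert, mem_singleton]; tauto)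
    (fun M hM h1 h2 => by
      have h3 := (hfour M hM).2 (hno M hM x h1 (Or.inr (Or.inl rfl)))
      tauto)
  have hd1 : G.cut W \ {a, y} = {x, z} := by
    rw [hc]
    ext e
    simp only [mem_sdiff, mem_insert, mem_singleton]
    constructor
    · tauto
    · rintro (rfl | rfl)
      · exact ⟨Or.inr (Or.inl rfl), fun h => h.elim (fun h => hax h.symm) (fun h => hxy h)⟩
      · exact ⟨Or.inr (Or.inr (Or.inr rfl)), fun h => h.elim (fun h => haz h.symm)
          (fun h => hyz h.symm)⟩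
  have hd2 : G.cut W \ {a, z} = {x, y} := by
    rw [hc]
    ext e
    simp only [mem_sdiff, mem_insert, mem_singleton]
    constructor
    · tauto
    · rintro (rfl | rfl)
      · exact ⟨Or.inr (Or.inl rfl), fun h => h.elim (fun h => hax h.symm) (fun h => hxz h)⟩
      · exact ⟨Or.inr (Or.inr (Or.inl rfl)), fun h => h.elim (fun h => hay h.symm)
          (fun h => hyz h)⟩
  -- the matching without boundary edges
  obtain ⟨M0, hM0, hM0'⟩ := avg_one w0 f hw0n (1 / 3) hs0 (by norm_num)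
  have hN0 := hpat0 M0 hM0
  have hA := avg_two (wp G W μ a y) (wp G W μ x z) f (hwn a y) (hwn x z)
    (∑ M, wp G W μ a y M) rfl (by linarith) (L - f M0) (by
      intro i j hi hj
      by_contra hlt
      apply hg1
      refine ⟨pr G W M0, pr G W i, pr G W j, hN0, hpay i hi, ?_, ?_⟩
      · rw [hd1]
        exact hpxz j hj
      · show f M0 + f i + f j ≤ L
        linarith)
  have hB := avg_two (wp G W μ a z) (wp G W μ x y) f (hwn a z) (hwn x y)
    (∑ M, wp G W μ a z M) rfl (by linarith) (L - f M0) (by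
      intro i j hi hj
      by_contra hlt
      apply hg2
      refine ⟨pr G W M0, pr G W i, pr G W j, hN0, hpaz i hi, ?_, ?_⟩
      · rw [hd2]
        exact hpxy j hj
      · show f M0 + f i + f j ≤ L
        linarith)
  set α := ∑ M, wp G W μ a y M with hα
  set β := ∑ M, wp G W μ a z M with hβ
  have hα0 : 0 ≤ α := Finset.sum_nonneg fun M _ => hwn a y M
  have hβ0 : 0 ≤ β := Finset.sum_nonneg fun M _ => hwn a z M
  have hsum : α * (L - f M0) + β * (L - f M0) = 1 / 3 * (L - f M0) := by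
    rw [← add_mul, hma]
  rcases hα0.lt_or_eq with h1 | h1
  · have h2 := hA.2 h1
    have h3 := hB.1
    linarith
  · have h2 : 0 < β := by linarith
    have h3 := hB.2 h2
    have h4 := hA.1
    linarith

end Pool.Agent.Lib.MP_95e9b3_coG
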