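import Pool.Agent.Lib.MP_95e9b3_coG.Law
import Pool.Agent.Lib.MP_95e9b3_coG.LawSide
import Pool.Agent.Lib.MP_95e9b3_coG.LawP1

/-!
# Route G, law avoiding a non-crossing family of 4-cuts

`law_nc`: in a cubic graph without cuts of one or two edges, for every pairwise non-crossing family
`F` of vertex sets with four boundary edges there is a law on good perfect matchings with marginals
`1/3` such that no matching contains the boundary of a member of `F`.
-/

set_option autoImplicit false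

namespace Pool.Agent.Lib.MP_95e9b3_coG

open Finset Pool.Agent.Lib.MP_95e9b3_coC

section

variable {V E : Type} [Fintype V] [DecidableEq V] [Fintype E] [DecidableEq E]

theorem dg_inter_tE (G : MG V E) (W : Finset V) (M : Finset E) (v : V) (hv : v ∈ W) :
    G.dg (M ∩ tE G W) v = G.dg M v := by
  unfold MG.dg
  refine sum_subset inter_subset_left ?_
  intro e he hn
  rw [mem_inter, not_and] at hn
  have h1 := hn he
  rw [mem_tE] at h1
  push Not at h1
  unfold MG.inc
  rw [if_neg (fun h5 => h1.1 (by rw [h5]; exact hv)),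
    if_neg (fun h5 => h1.2 (by rw [h5]; exact hv)), add_zero]

theorem tE_both (G : MG V E) (X : Finset V) (e : E) (h1 : e ∈ tE G X) (h2 : e ∈ tE G Xᶜ) :
    e ∈ G.cut X := by
  rw [mem_tE] at h1 h2
  rw [mem_compl, mem_compl] at h2
  rw [G.mem_cut]
  tauto

theorem tE_or (G : MG V E) (X : Finset V) (e : E) : e ∈ tE G X ∨ e ∈ tE G Xᶜ := by
  rw [mem_tE, mem_tE, mem_compl, mem_compl]
  tauto

/-- two matchings of the two sides with the same pattern -/
theorem glue_pm (G : MG V E) (X : Finset V) (h4 : (G.cut X).card = 4) (F : Finset (Finset V))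
    (hn : ∀ Z ∈ F, Nc Z X) (p N N' : Finset E) (hp : p.card ≤ 2) (h : PMt G X F p N)
    (h' : PMt G Xᶜ F p N') :
    (∀ v, G.dg (N ∪ N') v = 1) ∧ (∀ Z ∈ F, ¬ G.cut Z ⊆ N ∪ N') ∧
      ∀ l : E → ℝ, ∑ e ∈ N ∪ N', l e =
        ∑ e ∈ N \ G.cut X, l e + ∑ e ∈ N' \ G.cut X, l e + ∑ e ∈ p, l e := by
  have hc : G.cut Xᶜ = G.cut X := G.cut_compl X
  have hpat' : N' ∩ G.cut X = p := by
    rw [← hc]
    exact h'.pat
  have hX : (N ∪ N') ∩ tE G X = N := by
    ext e
    rw [mem_inter, mem_union]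
    constructor
    · rintro ⟨h1 | h1, h2⟩
      · exact h1
      · have h3 := tE_both G X e h2 (h'.sub h1)
        have h5 : e ∈ N' ∩ G.cut X := mem_inter.2 ⟨h1, h3⟩
        rw [hpat', ← h.pat] at h5
        exact (mem_inter.1 h5).1
    · intro h1
      exact ⟨Or.inl h1, h.sub h1⟩
  have hX' : (N ∪ N') ∩ tE G Xᶜ = N' := by
    ext e
    rw [mem_inter, mem_union]
    constructor
    · rintro ⟨h1 | h1, h2⟩
      · have h3 := tE_both G X e (h.sub h1) h2
        have h5 : e ∈ N ∩ G.cut X := mem_inter.2 ⟨h1, h3⟩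
        rw [h.pat, ← hpat'] at h5
        exact (mem_inter.1 h5).1
      · exact h1
    · intro h1
      exact ⟨Or.inr h1, h'.sub h1⟩
  have hpc : p ⊆ G.cut X := by
    rw [← h.pat]
    exact inter_subset_right
  refine ⟨?_, ?_, ?_⟩
  · intro v
    by_cases hv : v ∈ X
    · rw [← dg_inter_tE G X _ v hv, hX]
      exact h.deg v hv
    · rw [← dg_inter_tE G Xᶜ _ v (mem_compl.2 hv), hX']
      exact h'.deg v (mem_compl.2 hv)
  · intro Z hZ hsub
    have hbad : ¬ G.cut X ⊆ N ∪ N' := by
      intro h1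
      have h2 : G.cut X ⊆ N ∩ G.cut X := by
        intro e he
        rw [mem_inter]
        refine ⟨?_, he⟩
        rw [← hX, mem_inter]
        exact ⟨h1 he, cut_sub_tE G X X (Or.inl (Subset.refl _)) he⟩
      rw [h.pat] at h2
      have h3 := card_le_card h2
      omega
    by_cases e1 : Z = X
    · rw [e1] at hsub
      exact hbad hsub
    by_cases e2 : Z = Xᶜ
    · rw [e2, hc] at hsub
      exact hbad hsub
    have hside : (Z ⊆ X ∨ Xᶜ ⊆ Z) ∨ (Z ⊆ Xᶜ ∨ Xᶜᶜ ⊆ Z) := by
      rcases hn Z hZ with h1 | h1 | h1 | h1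
      · exact Or.inl (Or.inl h1)
      · right; right
        rw [compl_compl]
        exact h1
      · right; left
        intro v hv
        rw [mem_compl]
        exact fun h2 => (Finset.disjoint_left.1 h1 hv) h2
      · left; right
        intro v hv
        have h2 := (eq_univ_iff_forall.1 h1) v
        rw [mem_union] at h2
        exact h2.resolve_right (mem_compl.1 hv)
    rcases hside with h1 | h1
    · apply h.av Z hZ h1 e1 e2
      intro e he
      rw [← hX, mem_inter]
      exact ⟨hsub he, cut_sub_tE G X Z h1 he⟩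
    · apply h'.av Z hZ h1 e2 (by rw [compl_compl]; exact e1)
      intro e he
      rw [← hX', mem_inter]
      exact ⟨hsub he, cut_sub_tE G Xᶜ Z h1 he⟩
  · intro l
    have hU : N ∪ N' = ((N \ G.cut X) ∪ (N' \ G.cut X)) ∪ p := by
      ext e
      simp only [mem_union, mem_sdiff]
      constructor
      · intro h1
        by_cases h2 : e ∈ G.cut X
        · right
          rcases h1 with h1 | h1
          · rw [← h.pat]
            exact mem_inter.2 ⟨h1, h2⟩
          · rw [← hpat']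
            exact mem_inter.2 ⟨h1, h2⟩
        · left
          rcases h1 with h1 | h1
          · exact Or.inl ⟨h1, h2⟩
          · exact Or.inr ⟨h1, h2⟩
      · rintro ((⟨h1, _⟩ | ⟨h1, _⟩) | h1)
        · exact Or.inl h1
        · exact Or.inr h1
        · rw [← h.pat] at h1
          exact Or.inl (mem_inter.1 h1).1
    rw [hU, Finset.sum_union, Finset.sum_union]
    · rw [Finset.disjoint_left]
      intro e h1 h2
      rw [mem_sdiff] at h1 h2
      exact h1.2 (tE_both G X e (h.sub h1.1) (h'.sub h2.1))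
    · rw [Finset.disjoint_left]
      intro e h1 h2
      rw [mem_union, mem_sdiff, mem_sdiff] at h1
      have h3 := hpc h2
      rcases h1 with h1 | h1
      · exact h1.2 h3
      · exact h1.2 h3

/-- the gluing step in functional form -/
theorem glue_fun (G : MG V E) (X : Finset V) (h4 : (G.cut X).card = 4) (F : Finset (Finset V))
    (hn : ∀ Z ∈ F, Nc Z X) (l : E → ℝ) (q : Finset E) (hq : q ⊆ G.cut X) (hq2 : q.card = 2)
    (h : Good G X F l q) (h' : Good G Xᶜ F l q) :
    ∃ M : Finset E, (∀ v, G.dg M v = 1) ∧ (∀ Z ∈ F, ¬ G.cut Z ⊆ M) ∧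
      3 * (∑ e ∈ M, l e) ≤ ∑ e, l e := by
  obtain ⟨N0, N1, N2, a0, a1, a2, a3⟩ := h
  obtain ⟨K0, K1, K2, b0, b1, b2, b3⟩ := h'
  have hc : G.cut Xᶜ = G.cut X := G.cut_compl X
  rw [hc] at b2 b3
  have hq' : (G.cut X \ q).card = 2 := by
    rw [card_sdiff_of_subset hq, h4, hq2]
  obtain ⟨c0, d0, e0⟩ := glue_pm G X h4 F hn ∅ N0 K0 (by simp) a0 b0
  obtain ⟨c1, d1, e1⟩ := glue_pm G X h4 F hn q N1 K1 (by omega) a1 b1
  obtain ⟨c2, d2, e2⟩ := glue_pm G X h4 F hn _ N2 K2 (by omega) a2 b2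
  have htot : ∑ e, l e = ∑ e ∈ tE G X \ G.cut X, l e + ∑ e ∈ tE G Xᶜ \ G.cut X, l e +
      (∑ e ∈ q, l e + ∑ e ∈ G.cut X \ q, l e) := by
    have h1 : (univ : Finset E) = ((tE G X \ G.cut X) ∪ (tE G Xᶜ \ G.cut X)) ∪ G.cut X := by
      ext e
      simp only [mem_univ, mem_union, mem_sdiff, true_iff]
      have := tE_or G X e
      tauto
    rw [h1, Finset.sum_union, Finset.sum_union]
    · congr 1
      rw [add_comm, Finset.sum_sdiff hq]
    · rw [Finset.disjoint_left]
      intro e h2 h3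
      rw [mem_sdiff] at h2 h3
      exact h2.2 (tE_both G X e h2.1 h3.1)
    · rw [Finset.disjoint_left]
      intro e h2 h3
      rw [mem_union, mem_sdiff, mem_sdiff] at h2
      rcases h2 with h2 | h2
      · exact h2.2 h3
      · exact h2.2 h3
  have f0 := e0 l
  have f1 := e1 l
  have f2 := e2 l
  rw [Finset.sum_empty] at f0
  by_cases g0 : 3 * (∑ e ∈ N0 ∪ K0, l e) ≤ ∑ e, l e
  · exact ⟨_, c0, d0, g0⟩
  by_cases g1 : 3 * (∑ e ∈ N1 ∪ K1, l e) ≤ ∑ e, l e
  · exact ⟨_, c1, d1, g1⟩
  refine ⟨_, c2, d2, ?_⟩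
  push Not at g0 g1
  linarith

/-- two sets with at least two of three elements meet -/
theorem two_of_three (D : Finset E) (hD : D.card = 3) (P Q : E → Prop)
    (hP : ∀ x ∈ D, ∃ y ∈ D, y ≠ x ∧ P y) (hQ : ∀ x ∈ D, ∃ y ∈ D, y ≠ x ∧ Q y) :
    ∃ y ∈ D, P y ∧ Q y := by
  obtain ⟨x, y, z, hxy, hxz, hyz, rfl⟩ := Finset.card_eq_three.1 hD
  by_contra hcon
  push Not at hcon
  have hx := hcon x (by simp)
  have hy := hcon y (by simp)
  have hz := hcon z (by simp)
  have px : P y ∨ P z := by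
    obtain ⟨u, hu, hne, h⟩ := hP x (by simp)
    simp only [mem_insert, mem_singleton] at hu
    rcases hu with rfl | rfl | rfl
    · exact absurd rfl hne
    · exact Or.inl h
    · exact Or.inr h
  have py : P x ∨ P z := by
    obtain ⟨u, hu, hne, h⟩ := hP y (by simp)
    simp only [mem_insert, mem_singleton] at hu
    rcases hu with rfl | rfl | rfl
    · exact Or.inl h
    · exact absurd rfl hne
    · exact Or.inr h
  have pz : P x ∨ P y := by
    obtain ⟨u, hu, hne, h⟩ := hP z (by simp)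
    simp only [mem_insert, mem_singleton] at hu
    rcases hu with rfl | rfl | rfl
    · exact Or.inl h
    · exact Or.inr h
    · exact absurd rfl hne
  have qx : Q y ∨ Q z := by
    obtain ⟨u, hu, hne, h⟩ := hQ x (by simp)
    simp only [mem_insert, mem_singleton] at hu
    rcases hu with rfl | rfl | rfl
    · exact absurd rfl hne
    · exact Or.inl h
    · exact Or.inr h
  have qy : Q x ∨ Q z := by
    obtain ⟨u, hu, hne, h⟩ := hQ y (by simp)
    simp only [mem_insert, mem_singleton] at hu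
    rcases hu with rfl | rfl | rfl
    · exact Or.inl h
    · exact absurd rfl hne
    · exact Or.inr h
  have qz : Q x ∨ Q y := by
    obtain ⟨u, hu, hne, h⟩ := hQ z (by simp)
    simp only [mem_insert, mem_singleton] at hu
    rcases hu with rfl | rfl | rfl
    · exact Or.inl h
    · exact Or.inr h
    · exact absurd rfl hne
  tauto

/-- one side: for every pairing there is another good pairing, if the gadget graphs have laws -/
theorem side_all (G : MG V E) (W : Finset V) (h4 : (G.cut W).card = 4) (F : Finset (Finset V))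
    (l : E → ℝ)
    (hlaw : ∀ sd : E → Bool, (∀ b, (bs G W sd b).card = 2) →
      ∃ μ : Finset (EX G W) → ℝ, Law (ex G W sd) μ ∧
        ∀ M, μ M ≠ 0 → ∀ U ∈ LF W F, ¬ (ex G W sd).cut U ⊆ M)
    (a : E) (ha : a ∈ G.cut W) (x : E) (hx : x ∈ (G.cut W).erase a) :
    ∃ y ∈ (G.cut W).erase a, y ≠ x ∧ Good G W F l {a, y} := by
  classical
  have h3 : ((G.cut W).erase a).card = 3 := by
    rw [card_erase_of_mem ha, h4]
  have h2 : (((G.cut W).erase a).erase x).card = 2 := by
    rw [card_erase_of_mem hx, h3]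
  obtain ⟨y, z, hyz, he⟩ := Finset.card_eq_two.1 h2
  have hy : y ∈ ((G.cut W).erase a).erase x := by rw [he]; simp
  have hz : z ∈ ((G.cut W).erase a).erase x := by rw [he]; simp
  have hx' := mem_erase.1 hx
  have hy' := mem_erase.1 hy
  have hz' := mem_erase.1 hz
  have hy'' := mem_erase.1 hy'.2
  have hz'' := mem_erase.1 hz'.2
  have hc : G.cut W = {a, x, y, z} := by
    rw [← insert_erase ha, ← insert_erase hx, he]
  have ht : bs G W (fun e => decide (e = a ∨ e = x)) true = {a, x} := by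
    ext e
    unfold bs
    rw [mem_filter, mem_insert, mem_singleton, decide_eq_true_iff]
    constructor
    · exact fun h => h.2
    · rintro (rfl | rfl)
      · exact ⟨ha, Or.inl rfl⟩
      · exact ⟨hx'.2, Or.inr rfl⟩
  have hf : bs G W (fun e => decide (e = a ∨ e = x)) false = {y, z} := by
    ext e
    unfold bs
    rw [mem_filter, decide_eq_false_iff_not, hc]
    simp only [mem_insert, mem_singleton]
    constructor
    · rintro ⟨h5, h6⟩
      tauto
    · rintro (rfl | rfl)
      · exact ⟨Or.inr (Or.inr (Or.inl rfl)), fun h => h.elim hy''.1 hy'.1⟩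
      · exact ⟨Or.inr (Or.inr (Or.inr rfl)), fun h => h.elim hz''.1 hz'.1⟩
  obtain ⟨μ, hμ, hav⟩ := hlaw (fun e => decide (e = a ∨ e = x)) (by
    intro b
    cases b
    · rw [hf, card_pair hyz]
    · rw [ht, card_pair (fun h => hx'.1 h.symm)])
  rcases side G W F l a x y z (fun h => hx'.1 h.symm) (fun h => hy''.1 h.symm)
    (fun h => hz''.1 h.symm) (fun h => hy'.1 h.symm) (fun h => hz'.1 h.symm) hyz hc _ ht hf μ hμ
    hav with h | h
  · exact ⟨y, hy'.2, hy'.1, h⟩
  · exact ⟨z, hz'.2, hz'.1, h⟩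

end

theorem law_nc_aux (n : ℕ) : ∀ (V E : Type) [Fintype V] [DecidableEq V] [Fintype E]
    [DecidableEq E] (G : MG V E), C3 G → ∀ F : Finset (Finset V), F.card ≤ n →
    (∀ Z ∈ F, (G.cut Z).card = 4) → (∀ Z ∈ F, ∀ Z' ∈ F, Nc Z Z') →
    ∃ μ : Finset E → ℝ, Law G μ ∧ ∀ M, μ M ≠ 0 → ∀ Z ∈ F, ¬ G.cut Z ⊆ M := by
  induction n with
  | zero =>
    intro V E _ _ _ _ G hG F hF _ _
    have h1 : F = ∅ := card_eq_zero.1 (Nat.le_zero.1 hF)
    obtain ⟨μ, hμ⟩ := law_exists G hG
    refine ⟨μ, hμ, ?_⟩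
    intro M _ Z hZ
    rw [h1] at hZ
    simp at hZ
  | succ n ih =>
    intro V E _ _ _ _ G hG F hF h4 hn
    by_cases hne : F.Nonempty
    · obtain ⟨X, hX⟩ := hne
      by_cases hpm : ∃ M0, PM G M0 ∧ G.cut X ⊆ M0
      · obtain ⟨M0, hM0, hsub⟩ := hpm
        have hA : Adm G X M0 := ⟨h4 X hX, hM0, hsub⟩
        have hA' : Adm G Xᶜ M0 := hA.compl
        have hc : G.cut Xᶜ = G.cut X := G.cut_compl X
        have hlaw : ∀ W : Finset V, Adm G W M0 → (X = W ∨ X = Wᶜ) →
            ∀ sd : E → Bool, (∀ b, (bs G W sd b).card = 2) →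
            ∃ μ : Finset (EX G W) → ℝ, Law (ex G W sd) μ ∧
              ∀ M, μ M ≠ 0 → ∀ U ∈ LF W F, ¬ (ex G W sd).cut U ⊆ M := by
          intro W hW hXW sd hsd
          refine ih (VX W) (EX G W) (ex G W sd) (ex_C3 G hG W M0 hW sd hsd) (LF W F) ?_ ?_ ?_
          · have := LF_card W X F hX hXW
            omega
          · exact LF_four G W F sd h4
          · exact LF_nc W F hW.ne.2 hn
        apply law_of_fun G F _ hG.deg
        intro l
        have hpos : (G.cut X).Nonempty := by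
          rw [← card_pos, h4 X hX]
          norm_num
        obtain ⟨a, ha⟩ := hpos
        have s1 := side_all G X (h4 X hX) F l (hlaw X hA (Or.inl rfl)) a ha
        have s2 := side_all G Xᶜ (by rw [hc]; exact h4 X hX) F l
          (hlaw Xᶜ hA' (Or.inr (compl_compl X).symm)) a (by rw [hc]; exact ha)
        rw [hc] at s2
        obtain ⟨y, hy, hg1, hg2⟩ := two_of_three ((G.cut X).erase a)
          (by rw [card_erase_of_mem ha, h4 X hX]) (fun y => Good G X F l {a, y})
          (fun y => Good G Xᶜ F l {a, y}) s1 s2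
        have hy' := mem_erase.1 hy
        refine glue_fun G X (h4 X hX) F (fun Z hZ => hn Z hZ X hX) l {a, y} ?_ ?_ hg1 hg2
        · intro e he
          rw [mem_insert, mem_singleton] at he
          rcases he with rfl | rfl
          · exact ha
          · exact hy'.2
        · exact card_pair (fun h => hy'.1 h.symm)
      · obtain ⟨μ, hμ, hav⟩ := ih V E G hG (F.erase X)
          (by rw [card_erase_of_mem hX]; omega)
          (fun Z hZ => h4 Z (mem_of_mem_erase hZ))
          (fun Z hZ Z' hZ' => hn Z (mem_of_mem_erase hZ) Z' (mem_of_mem_erase hZ'))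
        refine ⟨μ, hμ, ?_⟩
        intro M hM Z hZ
        by_cases hZX : Z = X
        · subst hZX
          intro h
          exact hpm ⟨M, hμ.supp M hM, h⟩
        · exact hav M hM Z (mem_erase.2 ⟨hZX, hZ⟩)
    · rw [not_nonempty_iff_eq_empty] at hne
      obtain ⟨μ, hμ⟩ := law_exists G hG
      refine ⟨μ, hμ, ?_⟩
      intro M _ Z hZ
      rw [hne] at hZ
      simp at hZ

variable {V E : Type} [Fintype V] [DecidableEq V] [Fintype E] [DecidableEq E]

/-- the law avoiding a non-crossing family of 4-cuts -/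
theorem law_nc (G : MG V E) (hG : C3 G) (F : Finset (Finset V))
    (h4 : ∀ Z ∈ F, (G.cut Z).card = 4) (hn : ∀ Z ∈ F, ∀ Z' ∈ F, Nc Z Z') :
    ∃ μ : Finset E → ℝ, Law G μ ∧ ∀ M, μ M ≠ 0 → ∀ Z ∈ F, ¬ G.cut Z ⊆ M :=
  law_nc_aux F.card V E G hG F (le_refl _) h4 hn

/-- the law avoiding a laminar family of 4-cuts -/
theorem law_lam (G : MG V E) (hG : C3 G) (F : Finset (Finset V))
    (h4 : ∀ Z ∈ F, (G.cut Z).card = 4)
    (hn : ∀ Z ∈ F, ∀ Z' ∈ F, Z ⊆ Z' ∨ Z' ⊆ Z ∨ Disjoint Z Z') :
    ∃ μ : Finset E → ℝ, Law G μ ∧ ∀ M, μ M ≠ 0 → ∀ Z ∈ F, ¬ G.cut Z ⊆ M := by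
  refine law_nc G hG F h4 ?_
  intro Z hZ Z' hZ'
  rcases hn Z hZ Z' hZ' with h | h | h
  · exact Or.inl h
  · exact Or.inr (Or.inl h)
  · exact Or.inr (Or.inr (Or.inl h))

end Pool.Agent.Lib.MP_95e9b3_coG
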