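import Pool.Agent.Lib.MP_95e9b3_coG.R3Defs

/-!
# Route G, block R3: `crossing`, `modes`
-/

set_option autoImplicit false
set_option linter.unusedSectionVars false

namespace Pool.Agent.Lib.MP_95e9b3_coG

open Finset Pool.Agent.Lib.MP_95e9b3_coC

variable {V E : Type} [Fintype V] [DecidableEq V] [Fintype E] [DecidableEq E]

private lemma cr_mem_ins (G : MG V E) (A : Finset E) (X : Finset V) (e : E) :
    e ∈ ins G A X ↔ e ∈ A ∧ G.s e ∈ X ∧ G.t e ∈ X := by
  unfold ins
  rw [Finset.mem_filter]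

private lemma cr_mem_avd (G : MG V E) (A : Finset E) (X : Finset V) (e : E) :
    e ∈ avd G A X ↔ e ∈ A ∧ G.s e ∉ X ∧ G.t e ∉ X := by
  unfold avd
  rw [Finset.mem_filter]

/-- the ends of an edge of a cut -/
private lemma cr_cut_ends (G : MG V E) (X : Finset V) (e : E) (h : e ∈ G.cut X) :
    ∃ a b, a ∈ X ∧ b ∉ X ∧ G.Jn e a b := by
  rw [MG.mem_cut] at h
  by_cases h1 : G.s e ∈ X
  · by_cases h2 : G.t e ∈ X
    · exact absurd ⟨fun _ => h2, fun _ => h1⟩ h
    · exact ⟨_, _, h1, h2, Or.inl ⟨rfl, rfl⟩⟩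
  · by_cases h2 : G.t e ∈ X
    · exact ⟨_, _, h2, h1, Or.inr ⟨rfl, rfl⟩⟩
    · exact absurd ⟨fun h3 => absurd h3 h1, fun h3 => absurd h3 h2⟩ h

/-- an edge `l` of `cut X` closes a circuit in `F ∪ S` which meets `cut X` in
exactly two edges -/
theorem crossing (G : MG V E) (M S : Finset E) (X : Finset V) (hX : G.cut X ⊆ M)
    (c1 : Con G ((univ \ M) ∪ S) X) (c2 : Con G ((univ \ M) ∪ S) univ) (l : E)
    (hl : l ∈ G.cut X) (hlS : l ∉ S) :
    ∃ Z, G.Ev Z ∧ l ∈ Z ∧ Z.erase l ⊆ (univ \ M) ∪ S ∧ ∃ s, s ≠ l ∧ s ∈ G.cut X ∧ s ∈ S ∧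
      Z ∩ G.cut X = {l, s} := by
  obtain ⟨a, b, haX, hbX, hlab⟩ := cr_cut_ends G X l hl
  set A : Finset E := (univ \ M) ∪ S with hA
  have hlA : l ∉ A := by
    rw [hA, Finset.mem_union, Finset.mem_sdiff]
    rintro (h | h)
    · exact h.2 (hX hl)
    · exact hlS h
  have hinsU : ins G A univ = A := by
    ext e
    rw [cr_mem_ins]
    exact ⟨fun h => h.1, fun h => ⟨h, Finset.mem_univ _, Finset.mem_univ _⟩⟩
  have hba : G.Rch A b a := by
    have h := c2 b (Finset.mem_univ _) a (Finset.mem_univ _)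
    rwa [hinsU] at h
  -- the part of the outside which is connected to `b`
  set U := G.cv (avd G A X) b with hU
  have hbU : b ∈ U := (MG.mem_cv G _ _ _).2 (MG.Rch_refl G _ _)
  have hUX : ∀ v ∈ U, v ∉ X := by
    intro v hv
    have h1 : avd G A X ∩ G.cut Xᶜ = ∅ := by
      rw [Finset.eq_empty_iff_forall_notMem]
      intro e he
      rw [Finset.mem_inter, cr_mem_avd, MG.mem_cut] at he
      apply he.2
      constructor
      · intro _; exact Finset.mem_compl.2 he.1.2.2
      · intro _; exact Finset.mem_compl.2 he.1.2.1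
    have h2 := MG.closed_Rch G _ Xᶜ h1 b v (Finset.mem_compl.2 hbX) ((MG.mem_cv G _ _ _).1 hv)
    exact Finset.mem_compl.1 h2
  have haU : a ∉ U := fun h => hUX a h haX
  obtain ⟨s, hs⟩ : (A ∩ G.cut U).Nonempty := by
    rw [Finset.nonempty_iff_ne_empty]
    intro h
    exact haU (MG.closed_Rch G A U h b a hbU hba)
  rw [Finset.mem_inter] at hs
  obtain ⟨hsA, hsU⟩ := hs
  obtain ⟨y, z, hyU, hzU, hsyz⟩ := cr_cut_ends G U s hsU
  have hyX : y ∉ X := hUX y hyU
  have hzX : z ∈ X := by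
    by_contra hzX
    have h1 : s ∈ avd G A X := by
      rw [cr_mem_avd]
      refine ⟨hsA, ?_⟩
      rcases hsyz with ⟨h1, h2⟩ | ⟨h1, h2⟩
      · rw [h1, h2]; exact ⟨hyX, hzX⟩
      · rw [h1, h2]; exact ⟨hzX, hyX⟩
    have h2 : s ∈ avd G A X ∩ G.cut U := Finset.mem_inter.2 ⟨h1, hsU⟩
    rw [hU, MG.cv_cut] at h2
    exact absurd h2 (Finset.notMem_empty _)
  have hscut : s ∈ G.cut X := by
    rw [MG.mem_cut]
    rcases hsyz with ⟨h1, h2⟩ | ⟨h1, h2⟩
    · rw [h1, h2]; exact fun h => hyX (h.2 hzX)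
    · rw [h1, h2]; exact fun h => hyX (h.1 hzX)
  have hsS : s ∈ S := by
    rw [hA, Finset.mem_union, Finset.mem_sdiff] at hsA
    rcases hsA with h | h
    · exact absurd (hX hscut) h.2
    · exact h
  have hsl : s ≠ l := fun h => hlA (h ▸ hsA)
  obtain ⟨P1, hP1, hd1⟩ := MG.Rch_join G _ _ _ ((MG.mem_cv G _ _ _).1 hyU)
  obtain ⟨P2, hP2, hd2⟩ := MG.Rch_join G _ _ _ (c1 z hzX a haX)
  have m1 : ∀ e ∈ P1, e ∈ A ∧ G.s e ∉ X ∧ G.t e ∉ X := fun e he => (cr_mem_avd G A X e).1 (hP1 he)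
  have m2 : ∀ e ∈ P2, e ∈ A ∧ G.s e ∈ X ∧ G.t e ∈ X := fun e he => (cr_mem_ins G A X e).1 (hP2 he)
  have n1 : ∀ e ∈ P1, e ∉ G.cut X := by
    intro e he h
    rw [MG.mem_cut] at h
    exact h ⟨fun h1 => absurd h1 (m1 e he).2.1, fun h1 => absurd h1 (m1 e he).2.2⟩
  have n2 : ∀ e ∈ P2, e ∉ G.cut X := by
    intro e he h
    rw [MG.mem_cut] at h
    exact h ⟨fun _ => (m2 e he).2.2, fun _ => (m2 e he).2.1⟩
  have hd12 : Disjoint P1 P2 := by
    rw [Finset.disjoint_left]
    intro e h1 h2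
    exact (m1 e h1).2.1 (m2 e h2).2.1
  have hds : Disjoint (P1 ∪ P2) {s} := by
    rw [Finset.disjoint_singleton_right, Finset.mem_union]
    rintro (h | h)
    · exact n1 s h hscut
    · exact n2 s h hscut
  have hdl : Disjoint ((P1 ∪ P2) ∪ {s}) {l} := by
    rw [Finset.disjoint_singleton_right, Finset.mem_union, Finset.mem_union, Finset.mem_singleton]
    rintro ((h | h) | h)
    · exact n1 l h hl
    · exact n2 l h hl
    · exact hsl h.symm
  have hone : ∀ (e : E) (v : V), G.dg {e} v = G.inc e v := by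
    intro e v
    unfold MG.dg
    rw [Finset.sum_singleton]
  refine ⟨((P1 ∪ P2) ∪ {s}) ∪ {l}, ?_, ?_, ?_, s, hsl, hscut, hsS, ?_⟩
  · intro v
    rw [MG.dg_union G _ _ hdl, MG.dg_union G _ _ hds, MG.dg_union G _ _ hd12, hone, hone,
      MG.inc_Jn G s y z hsyz v, MG.inc_Jn G l a b hlab v, Nat.even_iff]
    have h1 := hd1 v
    have h2 := hd2 v
    omega
  · exact Finset.mem_union_right _ (Finset.mem_singleton_self _)
  · intro e he
    rw [Finset.mem_erase, Finset.mem_union, Finset.mem_union, Finset.mem_union,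
      Finset.mem_singleton, Finset.mem_singleton] at he
    rcases he with ⟨h1, ((h | h) | h) | h⟩
    · exact (m1 e h).1
    · exact (m2 e h).1
    · rw [h]; exact hsA
    · exact absurd h h1
  · ext e
    rw [Finset.mem_inter, Finset.mem_union, Finset.mem_union, Finset.mem_union,
      Finset.mem_singleton, Finset.mem_singleton, Finset.mem_insert, Finset.mem_singleton]
    constructor
    · rintro ⟨((h | h) | h) | h, h1⟩
      · exact absurd h1 (n1 e h)
      · exact absurd h1 (n2 e h)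
      · exact Or.inr h
      · exact Or.inl h
    · rintro (h | h)
      · exact ⟨Or.inr h, h ▸ hl⟩
      · exact ⟨Or.inl (Or.inr h), h ▸ hscut⟩

/-- two classes such that `l X` belongs to the other class (or the top) -/
theorem modes (G : MG V E) (M : Finset E) (R : Finset (Finset V)) (hR : Lmr G M R)
    (l : Finset V → E) (hl : ∀ X ∈ R, X ≠ univ → l X ∈ G.cut X) (u : Finset V → ℕ) :
    ∃ A ⊆ R.erase univ, (∀ X ∈ A, ∃ Z ∈ R, Z ∉ A ∧ l X ∈ own G M R Z) ∧
      ∑ X ∈ R.erase univ, u X ≤ 2 * ∑ X ∈ A, u X := by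
  classical
  -- the smallest member around the edge `l X`
  have hZ : ∀ X : Finset V, ∃ Z : Finset V, X ∈ R → X ≠ univ →
      Z ∈ R ∧ l X ∈ own G M R Z ∧ X.card < Z.card := by
    intro X
    by_cases hXR : X ∈ R ∧ X ≠ univ
    · obtain ⟨hXR, hXu⟩ := hXR
      obtain ⟨Z, hZ, hmin⟩ := Finset.exists_min_image
        (R.filter (fun Y => G.s (l X) ∈ Y ∧ G.t (l X) ∈ Y)) (fun Y => Y.card)
        ⟨univ, Finset.mem_filter.2 ⟨hR.top, Finset.mem_univ _, Finset.mem_univ _⟩⟩
      rw [Finset.mem_filter] at hZ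
      refine ⟨Z, fun _ _ => ⟨hZ.1, ?_, ?_⟩⟩
      · unfold own
        rw [Finset.mem_filter, cr_mem_ins]
        refine ⟨⟨hR.nod X hXR (hl X hXR hXu), hZ.2⟩, ?_⟩
        intro Y hY hYZ hmem
        have h1 := hmin Y (Finset.mem_filter.2 ⟨hY, hmem⟩)
        have h2 := Finset.card_lt_card hYZ
        omega
      · obtain ⟨a, b, ha, hb, hab⟩ := cr_cut_ends G X (l X) (hl X hXR hXu)
        have haZ : a ∈ Z := by
          rcases hab with ⟨h1, h2⟩ | ⟨h1, h2⟩
          · rw [← h1]; exact hZ.2.1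
          · rw [← h2]; exact hZ.2.2
        have hbZ : b ∈ Z := by
          rcases hab with ⟨h1, h2⟩ | ⟨h1, h2⟩
          · rw [← h2]; exact hZ.2.2
          · rw [← h1]; exact hZ.2.1
        apply Finset.card_lt_card
        rw [Finset.ssubset_iff_subset_ne]
        rcases hR.lam X hXR Z hZ.1 with h | h | h
        · exact ⟨h, fun h1 => hb (h1 ▸ hbZ)⟩
        · exact absurd (h hbZ) hb
        · exact absurd haZ (Finset.disjoint_left.1 h ha)
    · exact ⟨∅, fun h1 h2 => absurd ⟨h1, h2⟩ hXR⟩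
  choose Z hZ using hZ
  -- the colouring
  have hc : ∀ k : ℕ, ∃ c : Finset V → Bool, ∀ X ∈ R, X ≠ univ →
      Fintype.card V ≤ X.card + k → c X ≠ c (Z X) := by
    intro k
    induction k with
    | zero =>
      refine ⟨fun _ => true, fun X _ hXu h => ?_⟩
      exfalso
      apply hXu
      rw [← Finset.card_eq_iff_eq_univ]
      have := Finset.card_le_univ X
      omega
    | succ k ih =>
      obtain ⟨c, hc⟩ := ih
      refine ⟨fun X => if Fintype.card V ≤ X.card + k then c X else !(c (Z X)), ?_⟩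
      intro X hX hXu hk
      have h1 := (hZ X hX hXu).2.2
      have h2 : Fintype.card V ≤ (Z X).card + k := by omega
      change (if Fintype.card V ≤ X.card + k then c X else !(c (Z X)))
        ≠ (if Fintype.card V ≤ (Z X).card + k then c (Z X) else !(c (Z (Z X))))
      rw [if_pos h2]
      by_cases h3 : Fintype.card V ≤ X.card + k
      · rw [if_pos h3]
        exact hc X hX hXu h3
      · rw [if_neg h3]
        cases c (Z X) <;> simp
  obtain ⟨c, hc⟩ := hc (Fintype.card V)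
  have hc' : ∀ X ∈ R, X ≠ univ → c X ≠ c (Z X) := fun X hX hXu => hc X hX hXu (by omega)
  have key : ∀ b : Bool, ∀ X ∈ (R.erase univ).filter (fun X => c X = b),
      ∃ W ∈ R, W ∉ (R.erase univ).filter (fun X => c X = b) ∧ l X ∈ own G M R W := by
    intro b X hX
    rw [Finset.mem_filter, Finset.mem_erase] at hX
    obtain ⟨⟨hXu, hXR⟩, hXb⟩ := hX
    refine ⟨Z X, (hZ X hXR hXu).1, ?_, (hZ X hXR hXu).2.1⟩
    rw [Finset.mem_filter]
    rintro ⟨_, h⟩
    exact hc' X hXR hXu (by rw [hXb, h])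
  have hsum : ∑ X ∈ R.erase univ, u X = ∑ X ∈ (R.erase univ).filter (fun X => c X = true), u X
      + ∑ X ∈ (R.erase univ).filter (fun X => c X = false), u X := by
    rw [← Finset.sum_filter_add_sum_filter_not (R.erase univ) (fun X => c X = true)]
    congr 1
    apply Finset.sum_congr _ (fun _ _ => rfl)
    ext X
    rw [Finset.mem_filter, Finset.mem_filter, Bool.not_eq_true]
  rcases le_total (∑ X ∈ (R.erase univ).filter (fun X => c X = true), u X)
    (∑ X ∈ (R.erase univ).filter (fun X => c X = false), u X) with h | h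
  · exact ⟨_, Finset.filter_subset _ _, key false, by omega⟩
  · exact ⟨_, Finset.filter_subset _ _, key true, by omega⟩

end Pool.Agent.Lib.MP_95e9b3_coG
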