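import Pool.Agent.Lib.MP_95e9b3_coG.R3Defs

/-! # Route G, block R3: the effective circle (series)

`F = univ \ M`, `B` the circuit of `g`. `sd A g e` is the component of `G.t g` in `A \ {e, g}`.
Uncovered gaps: the `e` with `G.s g ∉ sd (ins G univ X) g e`. The pairs: for every component of
`X \ B` with at least two edges to `B` the first and the last attachment in the order given by the
arcs `sd F g e`. -/

set_option autoImplicit false

namespace Pool.Agent.Lib.MP_95e9b3_coG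

open Finset Pool.Agent.Lib.MP_95e9b3_coC
open scoped symmDiff

variable {V E : Type} [Fintype V] [DecidableEq V] [Fintype E] [DecidableEq E]

/-- the side of `G.t g` after deletion of `e` and `g` -/
private noncomputable def sd (G : MG V E) (A : Finset E) (g e : E) : Finset V :=
  G.cv (A \ {e, g}) (G.t g)

private theorem sd_t (G : MG V E) (A : Finset E) (g e : E) : G.t g ∈ sd G A g e := by
  unfold sd
  rw [G.mem_cv]
  exact G.Rch_refl _ _

private theorem sd_iff (G : MG V E) (A : Finset E) (g e x : E) (hx : x ∈ A) (hxe : x ≠ e)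
    (hxg : x ≠ g) : G.s x ∈ sd G A g e ↔ G.t x ∈ sd G A g e := by
  by_contra h
  have h0 : x ∈ A \ {e, g} := by
    rw [Finset.mem_sdiff, Finset.mem_insert, Finset.mem_singleton, not_or]
    exact ⟨hx, hxe, hxg⟩
  have h1 : x ∈ (A \ {e, g}) ∩ G.cut (G.cv (A \ {e, g}) (G.t g)) :=
    Finset.mem_inter.2 ⟨h0, (G.mem_cut _ _).2 h⟩
  rw [G.cv_cut] at h1
  exact absurd h1 (Finset.notMem_empty x)

private theorem sd_cutF (G : MG V E) (A F : Finset E) (hF : G.Ev F) (g e : E) (hg : g ∈ F)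
    (H : ∀ x ∈ F, (G.s x ∈ sd G A g e ∨ G.t x ∈ sd G A g e) → x ∈ A)
    (hs : G.s g ∉ sd G A g e) : F ∩ G.cut (sd G A g e) = {e, g} := by
  have hsub : F ∩ G.cut (sd G A g e) ⊆ {e, g} := by
    intro x hx
    obtain ⟨h1, h2⟩ := Finset.mem_inter.1 hx
    rw [G.mem_cut] at h2
    have h3 : x ∈ A := H x h1 (by tauto)
    by_contra h4
    rw [Finset.mem_insert, Finset.mem_singleton, not_or] at h4
    exact h2 (sd_iff G A g e x h3 h4.1 h4.2)
  have hgm : g ∈ F ∩ G.cut (sd G A g e) :=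
    Finset.mem_inter.2 ⟨hg, (G.mem_cut _ _).2 (fun h => hs (h.2 (sd_t G A g e)))⟩
  refine Finset.Subset.antisymm hsub ?_
  intro x hx
  rw [Finset.mem_insert, Finset.mem_singleton] at hx
  rcases hx with rfl | rfl
  · by_contra h
    have h1 : F ∩ G.cut (sd G A g x) = {g} := by
      refine Finset.Subset.antisymm ?_ (Finset.singleton_subset_iff.2 hgm)
      intro y hy
      rcases Finset.mem_insert.1 (hsub hy) with h2 | h2
      · rw [h2] at hy
        exact absurd hy h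
      · exact h2
    have h2 := G.Ev_cut F hF (sd G A g x)
    rw [h1, Finset.card_singleton] at h2
    exact absurd h2 (by decide)
  · exact hgm

private theorem sd_sub (G : MG V E) (A : Finset E) (g e f : E)
    (h : ¬ (G.s f ∈ sd G A g e ∧ G.t f ∈ sd G A g e)) : sd G A g e ⊆ sd G A g f := by
  have hW : (A \ {e, g}) ∩ G.cut (sd G A g e ∩ sd G A g f) = ∅ := by
    by_contra hne
    obtain ⟨x, hx⟩ := Finset.nonempty_iff_ne_empty.2 hne
    obtain ⟨h1, h2⟩ := Finset.mem_inter.1 hx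
    rw [Finset.mem_sdiff, Finset.mem_insert, Finset.mem_singleton, not_or] at h1
    rw [G.mem_cut, Finset.mem_inter, Finset.mem_inter] at h2
    have h3 := sd_iff G A g e x h1.1 h1.2.1 h1.2.2
    by_cases hxf : x = f
    · rw [hxf] at h3 h2
      tauto
    · have h4 := sd_iff G A g f x h1.1 hxf h1.2.2
      tauto
  intro v hv
  have hv' : G.Rch (A \ {e, g}) (G.t g) v := by
    unfold sd at hv
    rwa [G.mem_cv] at hv
  exact (Finset.mem_inter.1 (G.closed_Rch _ _ hW _ _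
    (Finset.mem_inter.2 ⟨sd_t G A g e, sd_t G A g f⟩) hv')).2

private theorem sd_chain (G : MG V E) (A F : Finset E) (hF : G.Ev F) (g e f : E) (hg : g ∈ F)
    (He : ∀ x ∈ F, (G.s x ∈ sd G A g e ∨ G.t x ∈ sd G A g e) → x ∈ A)
    (Hf : ∀ x ∈ F, (G.s x ∈ sd G A g f ∨ G.t x ∈ sd G A g f) → x ∈ A)
    (hse : G.s g ∉ sd G A g e) (hsf : G.s g ∉ sd G A g f) :
    sd G A g e ⊆ sd G A g f ∨ sd G A g f ⊆ sd G A g e := by
  by_cases h1 : G.s f ∈ sd G A g e ∧ G.t f ∈ sd G A g e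
  · by_cases h2 : G.s e ∈ sd G A g f ∧ G.t e ∈ sd G A g f
    · exfalso
      have hc := sd_cutF G A F hF g f hg Hf hsf
      have hfm : f ∈ F ∩ G.cut (sd G A g f) := by
        rw [hc]
        exact Finset.mem_insert_self _ _
      rw [Finset.mem_inter, G.mem_cut] at hfm
      have h3 : F ∩ G.cut (sd G A g e \ sd G A g f) = {f} := by
        ext x
        rw [Finset.mem_inter, Finset.mem_singleton, G.mem_cut, Finset.mem_sdiff,
          Finset.mem_sdiff]
        constructor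
        · rintro ⟨hx, hxc⟩
          by_contra hxf
          have hxA : x ∈ A := He x hx (by tauto)
          by_cases hxg : x = g
          · rw [hxg] at hxc
            have := sd_t G A g f
            tauto
          · have h4 := sd_iff G A g f x hxA hxf hxg
            by_cases hxe : x = e
            · rw [hxe] at hxc
              tauto
            · have h5 := sd_iff G A g e x hxA hxe hxg
              tauto
        · intro hx
          rw [hx]
          refine ⟨hfm.1, ?_⟩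
          have := hfm.2
          tauto
      have h4 := G.Ev_cut F hF (sd G A g e \ sd G A g f)
      rw [h3, Finset.card_singleton] at h4
      exact absurd h4 (by decide)
    · exact Or.inr (sd_sub G A g f e h2)
  · exact Or.inl (sd_sub G A g e f h1)

/-! ### circuits -/

omit [Fintype V] [Fintype E] [DecidableEq E] in
private theorem inc_s (G : MG V E) (x : E) : 1 ≤ G.inc x (G.s x) := by
  unfold MG.inc
  rw [if_pos rfl]
  omega

omit [Fintype V] [Fintype E] [DecidableEq E] in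
private theorem inc_t (G : MG V E) (x : E) : 1 ≤ G.inc x (G.t x) := by
  unfold MG.inc
  rw [if_pos (rfl : G.t x = G.t x)]
  omega

omit [Fintype V] [Fintype E] [DecidableEq E] in
private theorem dg_pos (G : MG V E) (C : Finset E) (x : E) (hx : x ∈ C) (v : V)
    (hv : 1 ≤ G.inc x v) : 1 ≤ G.dg C v := by
  unfold MG.dg
  exact hv.trans (Finset.single_le_sum (f := fun e => G.inc e v) (fun _ _ => Nat.zero_le _) hx)

/-- an even subset of a 2-regular graph contains with `g` the whole component of `g` -/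
private theorem ser_min (G : MG V E) (F C : Finset E) (hF : ∀ v, G.dg F v = 2) (hC : G.Ev C)
    (hCF : C ⊆ F) (g : E) (hg : g ∈ C) (e : E) (he : e ∈ G.ce F (G.s g)) : e ∈ C := by
  classical
  set W : Finset V := univ.filter (fun v => G.dg C v = 2) with hW
  have mW : ∀ v, v ∈ W ↔ G.dg C v = 2 := by
    intro v
    rw [hW, Finset.mem_filter]
    simp
  have h2 : ∀ v, 1 ≤ G.dg C v → v ∈ W := by
    intro v hv
    rw [mW]
    have h3 := G.dg_mono C F hCF v
    rw [hF v] at h3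
    have h4 := hC v
    have h5 : G.dg C v ≠ 1 := by
      intro h
      rw [h] at h4
      exact absurd h4 (by decide)
    omega
  have hin : ∀ x ∈ F, ∀ v ∈ W, 1 ≤ G.inc x v → x ∈ C := by
    intro x hx v hv hi
    by_contra hxC
    have h3 := G.dg_sdiff C F hCF v
    rw [hF v, (mW v).1 hv] at h3
    have h4 := dg_pos G (F \ C) x (Finset.mem_sdiff.2 ⟨hx, hxC⟩) v hi
    omega
  have hcl : F ∩ G.cut W = ∅ := by
    by_contra hne
    obtain ⟨x, hx⟩ := Finset.nonempty_iff_ne_empty.2 hne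
    obtain ⟨h3, h4⟩ := Finset.mem_inter.1 hx
    rw [G.mem_cut] at h4
    apply h4
    constructor
    · intro h5
      exact h2 _ (dg_pos G C x (hin x h3 _ h5 (inc_s G x)) _ (inc_t G x))
    · intro h5
      exact h2 _ (dg_pos G C x (hin x h3 _ h5 (inc_t G x)) _ (inc_s G x))
  rw [G.mem_ce] at he
  have h3 : G.s e ∈ W := G.closed_Rch F W hcl _ _ (h2 _ (dg_pos G C g hg _ (inc_s G g))) he.2
  exact hin e he.1 _ h3 (inc_s G e)

private theorem arc_s (G : MG V E) (F : Finset E) (hF : ∀ v, G.dg F v = 2) (g : E) (hg : g ∈ F)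
    (e : E) (he : e ∈ G.ce F (G.s g)) (heg : e ≠ g) : G.s g ∉ sd G F g e := by
  intro h
  unfold sd at h
  rw [G.mem_cv] at h
  obtain ⟨J, hJ, hs⟩ := G.join_exists (F \ {e, g}) {g} (by
    intro U hU
    have h1 := fun h3 => G.closed_Rch _ U hU (G.t g) (G.s g) h3 h
    have h2 := fun h3 => G.closed_Rch _ U hU (G.s g) (G.t g) h3 (G.Rch_symm _ _ _ h)
    have h3 : ({g} : Finset E) ∩ G.cut U = ∅ := by
      rw [Finset.singleton_inter_of_notMem]
      intro h
      exact (G.mem_cut U g).1 h ⟨h2, h1⟩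
    rw [h3, Finset.card_empty]
    decide)
  have hgJ : g ∉ J := fun h' => by
    have := hJ h'
    rw [Finset.mem_sdiff, Finset.mem_insert, Finset.mem_singleton] at this
    tauto
  have heJ : e ∉ J := fun h' => by
    have := hJ h'
    rw [Finset.mem_sdiff, Finset.mem_insert, Finset.mem_singleton] at this
    tauto
  have h1 := ser_min G F (J ∆ {g}) hF ((G.Sim_iff _ _).1 hs) (by
    intro x hx
    rw [Finset.mem_symmDiff, Finset.mem_singleton] at hx
    rcases hx with ⟨hx, _⟩ | ⟨hx, _⟩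
    · exact (Finset.mem_sdiff.1 (hJ hx)).1
    · rw [hx]; exact hg) g (by
    rw [Finset.mem_symmDiff, Finset.mem_singleton]
    exact Or.inr ⟨rfl, hgJ⟩) e he
  rw [Finset.mem_symmDiff, Finset.mem_singleton] at h1
  tauto

private theorem arc_sub (G : MG V E) (F : Finset E) (g : E) (hg : g ∈ F) (e : E) :
    sd G F g e ⊆ G.cv F (G.s g) := by
  intro v hv
  unfold sd at hv
  rw [G.mem_cv] at hv ⊢
  exact G.Rch_trans _ _ _ _ (G.Rch_edge F g hg)
    (G.Rch_mono _ _ Finset.sdiff_subset _ _ hv)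

/-- the other arc -/
private theorem arc_other (G : MG V E) (F : Finset E) (hF : ∀ v, G.dg F v = 2) (hev : G.Ev F)
    (g : E) (hg : g ∈ F) (e : E) (he : e ∈ G.ce F (G.s g)) (heg : e ≠ g) (b : V)
    (hb : b ∈ G.cv F (G.s g)) (hb' : b ∉ sd G F g e) : G.Rch (F \ {e, g}) (G.s g) b := by
  set W := G.cv (F \ {e, g}) (G.s g) with hW
  have hsW : G.s g ∈ W := by rw [hW, G.mem_cv]; exact G.Rch_refl _ _
  have hns := arc_s G F hF g hg e he heg
  have htW : G.t g ∉ W := by
    intro h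
    rw [hW, G.mem_cv] at h
    apply hns
    unfold sd
    rw [G.mem_cv]
    exact G.Rch_symm _ _ _ h
  have hc1 := sd_cutF G F F hev g e hg (fun x hx _ => hx) hns
  have hWi : ∀ x ∈ F, x ≠ e → x ≠ g → (G.s x ∈ W ↔ G.t x ∈ W) := by
    intro x hx hxe hxg
    by_contra h
    have h1 : x ∈ (F \ {e, g}) ∩ G.cut W := by
      rw [Finset.mem_inter, Finset.mem_sdiff, Finset.mem_insert, Finset.mem_singleton, not_or,
        G.mem_cut]
      exact ⟨⟨hx, hxe, hxg⟩, h⟩
    rw [hW, G.cv_cut] at h1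
    exact absurd h1 (Finset.notMem_empty x)
  have hsW2 : F ∩ G.cut W ⊆ {e, g} := by
    intro x hx
    rw [Finset.mem_inter, G.mem_cut] at hx
    by_contra h4
    rw [Finset.mem_insert, Finset.mem_singleton, not_or] at h4
    exact hx.2 (hWi x hx.1 h4.1 h4.2)
  have heW : e ∈ F ∩ G.cut W := by
    by_contra h
    have h1 : F ∩ G.cut W = {g} := by
      refine Finset.Subset.antisymm ?_ (Finset.singleton_subset_iff.2 ?_)
      · intro y hy
        rcases Finset.mem_insert.1 (hsW2 hy) with h2 | h2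
        · rw [h2] at hy
          exact absurd hy h
        · exact h2
      · rw [Finset.mem_inter, G.mem_cut]
        exact ⟨hg, fun h => htW (h.1 hsW)⟩
    have h2 := G.Ev_cut F hev W
    rw [h1, Finset.card_singleton] at h2
    exact absurd h2 (by decide)
  have hdj : ∀ v, v ∈ W → v ∉ sd G F g e := by
    intro v hv hv'
    unfold sd at hv'
    rw [G.mem_cv] at hv'
    rw [hW, G.mem_cv] at hv
    apply htW
    rw [hW, G.mem_cv]
    exact G.Rch_trans _ _ _ _ hv (G.Rch_symm _ _ _ hv')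
  have hcl : F ∩ G.cut (W ∪ sd G F g e) = ∅ := by
    by_contra hne
    obtain ⟨x, hx⟩ := Finset.nonempty_iff_ne_empty.2 hne
    rw [Finset.mem_inter, G.mem_cut, Finset.mem_union, Finset.mem_union] at hx
    by_cases hxg : x = g
    · rw [hxg] at hx
      have := sd_t G F g e
      tauto
    · by_cases hxe : x = e
      · rw [hxe] at hx
        have h1 : e ∈ F ∩ G.cut (sd G F g e) := by
          rw [hc1]
          exact Finset.mem_insert_self _ _
        rw [Finset.mem_inter, G.mem_cut] at h1 heW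
        have h2 := hdj (G.s e)
        have h3 := hdj (G.t e)
        tauto
      · have h1 := hWi x hx.1 hxe hxg
        have h2 := sd_iff G F g e x hx.1 hxe hxg
        tauto
  rw [G.mem_cv] at hb
  have h1 := G.closed_Rch F _ hcl _ _ (Finset.mem_union_left _ hsW) hb
  rcases Finset.mem_union.1 h1 with h2 | h2
  · rw [hW, G.mem_cv] at h2
    exact h2
  · exact absurd h2 hb'

/-! ### ranks and attachments -/

/-- rank of a vertex on the circuit of `g` -/
private noncomputable def rk (G : MG V E) (F : Finset E) (g : E) (a : V) : ℕ :=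
  (((G.ce F (G.s g)).erase g).filter (fun e => a ∈ sd G F g e)).card

private theorem rk_lt (G : MG V E) (F : Finset E) (hF : ∀ v, G.dg F v = 2) (hev : G.Ev F) (g : E)
    (hg : g ∈ F) (e : E) (he : e ∈ G.ce F (G.s g)) (heg : e ≠ g) (a b : V)
    (ha : a ∈ sd G F g e) (hb : b ∉ sd G F g e) : rk G F g b < rk G F g a := by
  unfold rk
  refine Finset.card_lt_card ⟨?_, ?_⟩
  · intro f hf
    obtain ⟨h1, h2⟩ := Finset.mem_filter.1 hf
    obtain ⟨h3, h4⟩ := Finset.mem_erase.1 h1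
    refine Finset.mem_filter.2 ⟨h1, ?_⟩
    rcases sd_chain G F F hev g e f hg (fun x hx _ => hx) (fun x hx _ => hx)
      (arc_s G F hF g hg e he heg) (arc_s G F hF g hg f h4 h3) with h | h
    · exact h ha
    · exact absurd (h h2) hb
  · intro h
    have h1 := h (Finset.mem_filter.2 ⟨Finset.mem_erase.2 ⟨heg, he⟩, ha⟩)
    exact hb (Finset.mem_filter.1 h1).2

open Classical in
/-- edges joining `B` and `K` -/
private noncomputable def att (G : MG V E) (B K : Finset V) : Finset E :=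
  univ.filter (fun m => ∃ a ∈ B, ∃ r ∈ K, G.Jn m a r)

omit [Fintype V] [DecidableEq V] [DecidableEq E] in
private theorem mem_att (G : MG V E) (B K : Finset V) (m : E) :
    m ∈ att G B K ↔ ∃ a ∈ B, ∃ r ∈ K, G.Jn m a r := by
  unfold att
  simp only [Finset.mem_filter, Finset.mem_univ, true_and]

/-- the end in `B` -/
private def ep (G : MG V E) (B : Finset V) (m : E) : V := if G.s m ∈ B then G.s m else G.t m

omit [Fintype V] [Fintype E] [DecidableEq E] in
private theorem ep_eq (G : MG V E) (B : Finset V) (m : E) (a r : V) (ha : a ∈ B) (hr : r ∉ B)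
    (h : G.Jn m a r) : ep G B m = a := by
  unfold ep
  rcases h with ⟨h1, h2⟩ | ⟨h1, h2⟩
  · rw [if_pos (by rw [h1]; exact ha), h1]
  · rw [if_neg (by rw [h1]; exact hr), h2]

omit [Fintype V] [DecidableEq V] [Fintype E] [DecidableEq E] in
private theorem Jn_unique (G : MG V E) (B : Finset V) (m : E) (a r a' r' : V) (ha : a ∈ B)
    (hr : r ∉ B) (ha' : a' ∈ B) (hr' : r' ∉ B) (h : G.Jn m a r) (h' : G.Jn m a' r') :
    a = a' ∧ r = r' := by
  rcases h with ⟨h1, h2⟩ | ⟨h1, h2⟩ <;> rcases h' with ⟨h3, h4⟩ | ⟨h3, h4⟩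
  · exact ⟨h1.symm.trans h3, h2.symm.trans h4⟩
  · exact absurd (by rw [← h3, h1]; exact ha : r' ∈ B) hr'
  · exact absurd (by rw [← h1, h3]; exact ha' : r ∈ B) hr
  · exact ⟨h2.symm.trans h4, h1.symm.trans h3⟩

private theorem ext_pair (G : MG V E) (F : Finset E) (g : E) (B K : Finset V) :
    ∃ p : E × E, 2 ≤ (att G B K).card → (p.1 ∈ att G B K ∧ p.2 ∈ att G B K ∧ p.1 ≠ p.2 ∧
      (∀ m ∈ att G B K, rk G F g (ep G B m) ≤ rk G F g (ep G B p.1)) ∧
      ∀ m ∈ att G B K, m ≠ p.1 → rk G F g (ep G B p.2) ≤ rk G F g (ep G B m)) := by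
  by_cases h : 2 ≤ (att G B K).card
  · obtain ⟨v, hv, hmax⟩ := Finset.exists_max_image (att G B K) (fun m => rk G F g (ep G B m))
      (Finset.card_pos.1 (by omega))
    have h1 := Finset.card_erase_of_mem hv
    obtain ⟨v', hv', hmin⟩ := Finset.exists_min_image ((att G B K).erase v)
      (fun m => rk G F g (ep G B m)) (Finset.card_pos.1 (by omega))
    obtain ⟨h2, h3⟩ := Finset.mem_erase.1 hv'
    exact ⟨(v, v'), fun _ => ⟨hv, h3, h2.symm, hmax, fun m hm hmv =>
      hmin m (Finset.mem_erase.2 ⟨hmv, hm⟩)⟩⟩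
  · exact ⟨(g, g), fun h' => absurd h' h⟩

/-! ### crossing an uncovered pair -/

/-- if `s g` and `t g` are connected in `G[X]` without `e`, `g` then a chord or a component of
`X \ B` joins the two arcs -/
private theorem cross (G : MG V E) (M : Finset E) (X : Finset V) (hX : G.cut X ⊆ M)
    (hreg : ∀ v, G.dg (univ \ M) v = 2) (g : E) (hg : g ∉ M) (hgX : G.s g ∈ X) (e : E)
    (he : e ∈ Ce G M g) (heg : e ≠ g) (hcon : G.s g ∈ sd G (ins G univ X) g e) :
    (∃ m ∈ M, ∃ a ∈ Cv G M g, ∃ b ∈ Cv G M g, a ∈ sd G (univ \ M) g e ∧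
      b ∉ sd G (univ \ M) g e ∧ G.Jn m a b) ∨
    ∃ r ∈ X, r ∉ Cv G M g ∧
      ∃ m₁ ∈ att G (Cv G M g) (G.cv (avd G (ins G univ X) (Cv G M g)) r),
      ∃ m₂ ∈ att G (Cv G M g) (G.cv (avd G (ins G univ X) (Cv G M g)) r),
      ep G (Cv G M g) m₁ ∈ sd G (univ \ M) g e ∧ ep G (Cv G M g) m₂ ∉ sd G (univ \ M) g e := by
  classical
  by_contra hno
  rw [not_or] at hno
  obtain ⟨hno1, hno2⟩ := hno
  have hgF : g ∈ univ \ M := Finset.mem_sdiff.2 ⟨Finset.mem_univ g, hg⟩
  set F := univ \ M with hF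
  set B := Cv G M g with hB
  set H := avd G (ins G univ X) B with hH
  set Ar := sd G F g e with hAr
  have fX : ∀ x ∈ F, (G.s x ∈ X ↔ G.t x ∈ X) := by
    intro x hx
    by_contra h
    exact (Finset.mem_sdiff.1 hx).2 (hX ((G.mem_cut _ _).2 h))
  have FX : F ∩ G.cut X = ∅ := by
    by_contra hne
    obtain ⟨x, hx⟩ := Finset.nonempty_iff_ne_empty.2 hne
    obtain ⟨h1, h2⟩ := Finset.mem_inter.1 hx
    exact (G.mem_cut _ _).1 h2 (fX x h1)
  have BX : B ⊆ X := by
    intro v hv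
    rw [hB] at hv
    unfold Cv at hv
    rw [G.mem_cv] at hv
    exact G.closed_Rch F X FX _ _ hgX hv
  have fB : ∀ x ∈ F, (G.s x ∈ B ↔ G.t x ∈ B) := by
    intro x hx
    by_contra h
    have h1 : x ∈ F ∩ G.cut (G.cv F (G.s g)) := Finset.mem_inter.2 ⟨hx, (G.mem_cut _ _).2 h⟩
    rw [G.cv_cut] at h1
    exact absurd h1 (Finset.notMem_empty x)
  have hev : G.Ev F := by
    intro v
    rw [hreg v]
    decide
  have ArB : Ar ⊆ B := arc_sub G F g hgF e
  have memH : ∀ x, x ∈ H ↔ (G.s x ∈ X ∧ G.t x ∈ X) ∧ (G.s x ∉ B ∧ G.t x ∉ B) := by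
    intro x
    rw [hH]
    unfold avd ins
    rw [Finset.mem_filter, Finset.mem_filter]
    simp
  set W : Finset V := Ar ∪ (X \ B).filter (fun r => ∃ m ∈ att G B (G.cv H r), ep G B m ∈ Ar)
    with hW
  have memW : ∀ v, v ∈ W ↔ v ∈ Ar ∨ ((v ∈ X ∧ v ∉ B) ∧
      ∃ m ∈ att G B (G.cv H v), ep G B m ∈ Ar) := by
    intro v
    rw [hW, Finset.mem_union, Finset.mem_filter, Finset.mem_sdiff]
  have key : ∀ x a b, x ∈ ins G univ X → x ≠ e → x ≠ g → G.Jn x a b → a ∈ W → b ∈ W := by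
    intro x a b hx hxe hxg hJ ha
    have hx' : G.s x ∈ X ∧ G.t x ∈ X := (Finset.mem_filter.1 hx).2
    have hbX : b ∈ X := by
      rcases hJ with ⟨h1, h2⟩ | ⟨h1, h2⟩
      · rw [← h2]; exact hx'.2
      · rw [← h1]; exact hx'.1
    by_contra hb
    rw [memW, not_or] at hb
    rcases (memW a).1 ha with ha1 | ⟨⟨haX, haB⟩, m, hm, hma⟩
    · by_cases hbB : b ∈ B
      · by_cases hxM : x ∈ M
        · exact hno1 ⟨x, hxM, a, ArB ha1, b, hbB, ha1, hb.1, hJ⟩
        · have hxF : x ∈ F := Finset.mem_sdiff.2 ⟨Finset.mem_univ x, hxM⟩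
          have h1 := sd_iff G F g e x hxF hxe hxg
          rcases hJ with ⟨h2, h3⟩ | ⟨h2, h3⟩
          · rw [h2, h3] at h1
            exact hb.1 (h1.1 ha1)
          · rw [h2, h3] at h1
            exact hb.1 (h1.2 ha1)
      · refine hb.2 ⟨⟨hbX, hbB⟩, x, ?_, ?_⟩
        · rw [mem_att]
          refine ⟨a, ArB ha1, b, ?_, hJ⟩
          rw [G.mem_cv]
          exact G.Rch_refl _ _
        · rw [ep_eq G B x a b (ArB ha1) hbB hJ]
          exact ha1
    · by_cases hbB : b ∈ B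
      · have hJ' : G.Jn x b a := by
          rcases hJ with ⟨h2, h3⟩ | ⟨h2, h3⟩
          · exact Or.inr ⟨h2, h3⟩
          · exact Or.inl ⟨h2, h3⟩
        refine hno2 ⟨a, haX, haB, m, hm, x, ?_, hma, ?_⟩
        · rw [mem_att]
          refine ⟨b, hbB, a, ?_, hJ'⟩
          rw [G.mem_cv]
          exact G.Rch_refl _ _
        · rw [ep_eq G B x b a hbB haB hJ']
          exact hb.1
      · have hxH : x ∈ H := by
          rw [memH]
          refine ⟨hx', ?_⟩
          rcases hJ with ⟨h2, h3⟩ | ⟨h2, h3⟩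
          · rw [h2, h3]; exact ⟨haB, hbB⟩
          · rw [h2, h3]; exact ⟨hbB, haB⟩
        have hr : G.cv H a = G.cv H b := by
          rw [G.cv_eq]
          have h1 := G.Rch_edge H x hxH
          rcases hJ with ⟨h2, h3⟩ | ⟨h2, h3⟩
          · rw [h2, h3] at h1; exact h1
          · rw [h2, h3] at h1; exact G.Rch_symm _ _ _ h1
        rw [hr] at hm
        exact hb.2 ⟨⟨hbX, hbB⟩, m, hm, hma⟩
  have hcl : (ins G univ X \ {e, g}) ∩ G.cut W = ∅ := by
    by_contra hne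
    obtain ⟨x, hx⟩ := Finset.nonempty_iff_ne_empty.2 hne
    obtain ⟨h1, h2⟩ := Finset.mem_inter.1 hx
    rw [Finset.mem_sdiff, Finset.mem_insert, Finset.mem_singleton, not_or] at h1
    exact (G.mem_cut _ _).1 h2 ⟨key x _ _ h1.1 h1.2.1 h1.2.2 (Or.inl ⟨rfl, rfl⟩),
      key x _ _ h1.1 h1.2.1 h1.2.2 (Or.inr ⟨rfl, rfl⟩)⟩
  have htW : G.t g ∈ W := (memW _).2 (Or.inl (sd_t G F g e))
  unfold sd at hcon
  rw [G.mem_cv] at hcon
  have h1 := G.closed_Rch _ W hcl _ _ htW hcon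
  rcases (memW _).1 h1 with h2 | h2
  · exact arc_s G F hreg g hgF e he heg h2
  · apply h2.1.2
    rw [hB]
    unfold Cv
    rw [G.mem_cv]
    exact G.Rch_refl _ _

/-- paths which stay in `X` -/
private theorem Rch_ins (G : MG V E) (A : Finset E) (X : Finset V) (h : A ∩ G.cut X = ∅) (a b : V)
    (ha : a ∈ X) (hr : G.Rch A a b) : G.Rch (ins G A X) a b := by
  have hcX : G.cv (ins G A X) a ⊆ X := by
    intro v hv
    rw [G.mem_cv] at hv
    refine G.closed_Rch (ins G A X) X ?_ _ _ ha hv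
    by_contra hne
    obtain ⟨x, hx⟩ := Finset.nonempty_iff_ne_empty.2 hne
    obtain ⟨h1, h2⟩ := Finset.mem_inter.1 hx
    have h3 := (Finset.mem_filter.1 h1).2
    exact (G.mem_cut _ _).1 h2 ⟨fun _ => h3.2, fun _ => h3.1⟩
  have hcl : A ∩ G.cut (G.cv (ins G A X) a) = ∅ := by
    by_contra hne
    obtain ⟨x, hx⟩ := Finset.nonempty_iff_ne_empty.2 hne
    obtain ⟨h1, h2⟩ := Finset.mem_inter.1 hx
    have h3 : G.s x ∈ X ↔ G.t x ∈ X := by
      by_contra h4
      have h5 : x ∈ A ∩ G.cut X := Finset.mem_inter.2 ⟨h1, (G.mem_cut _ _).2 h4⟩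
      rw [h] at h5
      exact absurd h5 (Finset.notMem_empty x)
    have h4 : x ∈ ins G A X := by
      refine Finset.mem_filter.2 ⟨h1, ?_⟩
      rw [G.mem_cut] at h2
      by_cases h5 : G.s x ∈ G.cv (ins G A X) a
      · exact ⟨hcX h5, h3.1 (hcX h5)⟩
      · have h6 : G.t x ∈ G.cv (ins G A X) a := by tauto
        exact ⟨h3.2 (hcX h6), hcX h6⟩
    have h5 : x ∈ ins G A X ∩ G.cut (G.cv (ins G A X) a) := Finset.mem_inter.2 ⟨h4, h2⟩
    rw [G.cv_cut] at h5
    exact absurd h5 (Finset.notMem_empty x)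
  have h1 := G.closed_Rch A _ hcl a b (by rw [G.mem_cv]; exact G.Rch_refl _ _) hr
  rwa [G.mem_cv] at h1

private theorem Jn_T (G : MG V E) (T : Finset E) (m : E) (hm : m ∈ T) (a b : V)
    (h : G.Jn m a b) : G.Rch T a b := by
  have h1 := G.Rch_edge T m hm
  rcases h with ⟨h2, h3⟩ | ⟨h2, h3⟩
  · rw [h2, h3] at h1
    exact h1
  · rw [h2, h3] at h1
    exact G.Rch_symm _ _ _ h1

/-- covered gaps -/
private theorem cov_aux (G : MG V E) (M : Finset E) (X : Finset V) (hX : G.cut X ⊆ M)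
    (hreg : ∀ v, G.dg (univ \ M) v = 2) (g : E) (hg : g ∉ M) (hgX : G.s g ∈ X)
    (pr : Finset V → E × E)
    (hpr : ∀ K, 2 ≤ (att G (Cv G M g) K).card →
      ((pr K).1 ∈ att G (Cv G M g) K ∧ (pr K).2 ∈ att G (Cv G M g) K ∧ (pr K).1 ≠ (pr K).2 ∧
      (∀ m ∈ att G (Cv G M g) K, rk G (univ \ M) g (ep G (Cv G M g) m) ≤
        rk G (univ \ M) g (ep G (Cv G M g) (pr K).1)) ∧
      ∀ m ∈ att G (Cv G M g) K, m ≠ (pr K).1 →
        rk G (univ \ M) g (ep G (Cv G M g) (pr K).2) ≤ rk G (univ \ M) g (ep G (Cv G M g) m)))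
    (S : Finset E) (hS : S ⊆ M) (hS1 : ins G M (Cv G M g) ⊆ S)
    (hS2 : ∀ r ∈ X, r ∉ Cv G M g →
      2 ≤ (att G (Cv G M g) (G.cv (avd G (ins G univ X) (Cv G M g)) r)).card →
      ((pr (G.cv (avd G (ins G univ X) (Cv G M g)) r)).1 ∈ S ∧
      (pr (G.cv (avd G (ins G univ X) (Cv G M g)) r)).2 ∈ S ∧
      ∀ a ∈ Cv G M g, ∀ r₁ ∈ X, ∀ a' ∈ Cv G M g, ∀ r₂ ∈ X, r₁ ∉ Cv G M g → r₂ ∉ Cv G M g →
        G.Jn (pr (G.cv (avd G (ins G univ X) (Cv G M g)) r)).1 a r₁ →
        G.Jn (pr (G.cv (avd G (ins G univ X) (Cv G M g)) r)).2 a' r₂ →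
        G.Rch (avd G (ins G ((univ \ M) ∪ S) X) (Cv G M g)) r₁ r₂))
    (e : E) (he : e ∈ Ce G M g) (heg : e ≠ g) (hcon : G.s g ∈ sd G (ins G univ X) g e) :
    ∃ Z, G.Ev Z ∧ Z ⊆ ins G ((univ \ M) ∪ S) X ∧ e ∈ Z ∧ g ∉ Z := by
  classical
  have hcr := cross G M X hX hreg g hg hgX e he heg hcon
  have hgF : g ∈ univ \ M := Finset.mem_sdiff.2 ⟨Finset.mem_univ g, hg⟩
  have heF : e ∈ univ \ M := ((G.mem_ce _ _ _).1 he).1
  have heM : e ∉ M := (Finset.mem_sdiff.1 heF).2
  have hev : G.Ev (univ \ M) := by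
    intro v
    rw [hreg v]
    decide
  have fX : ∀ x ∈ univ \ M, (G.s x ∈ X ↔ G.t x ∈ X) := by
    intro x hx
    by_contra h
    exact (Finset.mem_sdiff.1 hx).2 (hX ((G.mem_cut _ _).2 h))
  have FX : (univ \ M) ∩ G.cut X = ∅ := by
    by_contra hne
    obtain ⟨x, hx⟩ := Finset.nonempty_iff_ne_empty.2 hne
    obtain ⟨h1, h2⟩ := Finset.mem_inter.1 hx
    exact (G.mem_cut _ _).1 h2 (fX x h1)
  have BX : Cv G M g ⊆ X := by
    intro v hv
    unfold Cv at hv
    rw [G.mem_cv] at hv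
    exact G.closed_Rch _ X FX _ _ hgX hv
  have fB : ∀ x ∈ univ \ M, (G.s x ∈ Cv G M g ↔ G.t x ∈ Cv G M g) := by
    intro x hx
    by_contra h
    have h1 : x ∈ (univ \ M) ∩ G.cut (G.cv (univ \ M) (G.s g)) :=
      Finset.mem_inter.2 ⟨hx, (G.mem_cut _ _).2 h⟩
    rw [G.cv_cut] at h1
    exact absurd h1 (Finset.notMem_empty x)
  have hsB : G.s g ∈ Cv G M g := by
    unfold Cv
    rw [G.mem_cv]
    exact G.Rch_refl _ _
  have hseB : G.s e ∈ Cv G M g := by
    unfold Cv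
    rw [G.mem_cv]
    exact ((G.mem_ce _ _ _).1 he).2
  have hteB : G.t e ∈ Cv G M g := (fB e heF).1 hseB
  have htX : G.t g ∈ X := (fX g hgF).1 hgX
  set T := ins G ((univ \ M) ∪ S) X \ {e, g} with hT
  have memT : ∀ x, x ∈ (univ \ M) ∪ S → G.s x ∈ X → G.t x ∈ X → x ≠ e → x ≠ g → x ∈ T := by
    intro x h1 h2 h3 h4 h5
    rw [hT, Finset.mem_sdiff, Finset.mem_insert, Finset.mem_singleton, not_or]
    exact ⟨Finset.mem_filter.2 ⟨h1, h2, h3⟩, h4, h5⟩
  have tF : ∀ u v, u ∈ X → G.Rch ((univ \ M) \ {e, g}) u v → G.Rch T u v := by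
    intro u v hu h
    have h1 := Rch_ins G ((univ \ M) \ {e, g}) X (by
      have h2 : ((univ \ M) \ {e, g}) ∩ G.cut X ⊆ (univ \ M) ∩ G.cut X :=
        Finset.inter_subset_inter Finset.sdiff_subset (Finset.Subset.refl _)
      rw [FX] at h2
      exact Finset.subset_empty.1 h2) u v hu h
    refine G.Rch_mono _ _ ?_ _ _ h1
    intro x hx
    obtain ⟨h2, h3⟩ := Finset.mem_filter.1 hx
    rw [Finset.mem_sdiff, Finset.mem_insert, Finset.mem_singleton, not_or] at h2
    exact memT x (Finset.mem_union_left _ h2.1) h3.1 h3.2 h2.2.1 h2.2.2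
  have r1 : ∀ a ∈ sd G (univ \ M) g e, G.Rch T (G.t g) a := by
    intro a ha
    refine tF _ _ htX ?_
    unfold sd at ha
    rwa [G.mem_cv] at ha
  have r2 : ∀ b ∈ Cv G M g, b ∉ sd G (univ \ M) g e → G.Rch T (G.s g) b := by
    intro b hb hb'
    exact tF _ _ hgX (arc_other G (univ \ M) hreg hev g hgF e he heg b hb hb')
  -- a path between the arcs
  have hpath : ∃ a ∈ sd G (univ \ M) g e, ∃ b ∈ Cv G M g, b ∉ sd G (univ \ M) g e ∧
      G.Rch T a b := by
    rcases hcr with ⟨m, hm, a, haB, b, hbB, ha, hb, hJ⟩ | ⟨r, hrX, hrB, m₁, hm₁, m₂, hm₂, h1, h2⟩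
    · refine ⟨a, ha, b, hbB, hb, ?_⟩
      have hme : G.s m ∈ Cv G M g ∧ G.t m ∈ Cv G M g := by
        rcases hJ with ⟨h1, h2⟩ | ⟨h1, h2⟩
        · rw [h1, h2]; exact ⟨haB, hbB⟩
        · rw [h1, h2]; exact ⟨hbB, haB⟩
      have hmS : m ∈ S := hS1 (Finset.mem_filter.2 ⟨hm, hme⟩)
      exact Jn_T G T m (memT m (Finset.mem_union_right _ hmS) (BX hme.1) (BX hme.2)
        (fun h => heM (h ▸ hm)) (fun h => hg (h ▸ hm))) a b hJ
    · set K := G.cv (avd G (ins G univ X) (Cv G M g)) r with hK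
      have hKX : ∀ v ∈ K, v ∈ X ∧ v ∉ Cv G M g := by
        intro v hv
        rw [hK, G.mem_cv] at hv
        have h3 := G.closed_Rch _ (X \ Cv G M g) (by
          by_contra hne
          obtain ⟨x, hx⟩ := Finset.nonempty_iff_ne_empty.2 hne
          obtain ⟨h4, h5⟩ := Finset.mem_inter.1 hx
          obtain ⟨h6, h7⟩ := Finset.mem_filter.1 h4
          have h8 := (Finset.mem_filter.1 h6).2
          rw [G.mem_cut, Finset.mem_sdiff, Finset.mem_sdiff] at h5
          tauto) _ _ (Finset.mem_sdiff.2 ⟨hrX, hrB⟩) hv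
        exact Finset.mem_sdiff.1 h3
      have hm12 : m₁ ≠ m₂ := by
        rintro rfl
        exact h2 h1
      have hcard : 2 ≤ (att G (Cv G M g) K).card := by
        have h3 : ({m₁, m₂} : Finset E) ⊆ att G (Cv G M g) K := by
          intro x hx
          rw [Finset.mem_insert, Finset.mem_singleton] at hx
          rcases hx with rfl | rfl
          · exact hm₁
          · exact hm₂
        have h4 := Finset.card_le_card h3
        rwa [Finset.card_pair hm12] at h4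
      obtain ⟨p1, p2, pne, pmax, pmin⟩ := hpr K hcard
      obtain ⟨s1, s2, s3⟩ := hS2 r hrX hrB hcard
      have e1 : ep G (Cv G M g) (pr K).1 ∈ sd G (univ \ M) g e := by
        by_contra h3
        have h4 := rk_lt G (univ \ M) hreg hev g hgF e he heg _ _ h1 h3
        have h5 := pmax m₁ hm₁
        omega
      have hne2 : m₂ ≠ (pr K).1 := by
        intro h3
        rw [h3] at h2
        exact h2 e1
      have e2 : ep G (Cv G M g) (pr K).2 ∉ sd G (univ \ M) g e := by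
        intro h3
        have h4 := rk_lt G (univ \ M) hreg hev g hgF e he heg _ _ h3 h2
        have h5 := pmin m₂ hm₂ hne2
        omega
      obtain ⟨a₁, ha₁, r₁, hr₁, hJ₁⟩ := (mem_att G _ _ _).1 p1
      obtain ⟨a₂, ha₂, r₂, hr₂, hJ₂⟩ := (mem_att G _ _ _).1 p2
      obtain ⟨hr₁X, hr₁B⟩ := hKX r₁ hr₁
      obtain ⟨hr₂X, hr₂B⟩ := hKX r₂ hr₂
      rw [ep_eq G _ _ a₁ r₁ ha₁ hr₁B hJ₁] at e1
      rw [ep_eq G _ _ a₂ r₂ ha₂ hr₂B hJ₂] at e2
      have inX : ∀ m a q, a ∈ X → q ∈ X → G.Jn m a q → G.s m ∈ X ∧ G.t m ∈ X := by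
        intro m a q ha hq hJ
        rcases hJ with ⟨h3, h4⟩ | ⟨h3, h4⟩
        · rw [h3, h4]; exact ⟨ha, hq⟩
        · rw [h3, h4]; exact ⟨hq, ha⟩
      have i1 := inX _ _ _ (BX ha₁) hr₁X hJ₁
      have i2 := inX _ _ _ (BX ha₂) hr₂X hJ₂
      have t1 : G.Rch T a₁ r₁ := Jn_T G T _ (memT _ (Finset.mem_union_right _ s1) i1.1 i1.2
        (fun h => heM (h ▸ hS s1)) (fun h => hg (h ▸ hS s1))) _ _ hJ₁
      have t2 : G.Rch T a₂ r₂ := Jn_T G T _ (memT _ (Finset.mem_union_right _ s2) i2.1 i2.2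
        (fun h => heM (h ▸ hS s2)) (fun h => hg (h ▸ hS s2))) _ _ hJ₂
      have t3 : G.Rch T r₁ r₂ := by
        refine G.Rch_mono _ _ ?_ _ _ (s3 a₁ ha₁ r₁ hr₁X a₂ ha₂ r₂ hr₂X hr₁B hr₂B hJ₁ hJ₂)
        intro x hx
        obtain ⟨h3, h4⟩ := Finset.mem_filter.1 hx
        obtain ⟨h5, h6⟩ := Finset.mem_filter.1 h3
        exact memT x h5 h6.1 h6.2 (fun h => h4.1 (by rw [h]; exact hseB))
          (fun h => h4.1 (by rw [h]; exact hsB))
      exact ⟨a₁, e1, a₂, ha₂, e2, G.Rch_trans _ _ _ _ t1 (G.Rch_trans _ _ _ _ t3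
        (G.Rch_symm _ _ _ t2))⟩
  obtain ⟨a, ha, b, hbB, hb, hab⟩ := hpath
  have hts : G.Rch T (G.t g) (G.s g) :=
    G.Rch_trans _ _ _ _ (r1 a ha) (G.Rch_trans _ _ _ _ hab (G.Rch_symm _ _ _ (r2 b hbB hb)))
  have hall : ∀ v ∈ Cv G M g, G.Rch T (G.t g) v := by
    intro v hv
    by_cases h : v ∈ sd G (univ \ M) g e
    · exact r1 v h
    · exact G.Rch_trans _ _ _ _ hts (r2 v hv h)
  have hse : G.Rch T (G.s e) (G.t e) :=
    G.Rch_trans _ _ _ _ (G.Rch_symm _ _ _ (hall _ hseB)) (hall _ hteB)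
  obtain ⟨J, hJ, hs⟩ := G.join_exists T {e} (by
    intro U hU
    have h1 := fun h3 => G.closed_Rch _ U hU (G.s e) (G.t e) h3 hse
    have h2 := fun h3 => G.closed_Rch _ U hU (G.t e) (G.s e) h3 (G.Rch_symm _ _ _ hse)
    have h3 : ({e} : Finset E) ∩ G.cut U = ∅ := by
      rw [Finset.singleton_inter_of_notMem]
      intro h
      exact (G.mem_cut U e).1 h ⟨h1, h2⟩
    rw [h3, Finset.card_empty]
    decide)
  have heJ : e ∉ J := fun h => by
    have := hJ h
    rw [hT, Finset.mem_sdiff, Finset.mem_insert, Finset.mem_singleton] at this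
    tauto
  have hgJ : g ∉ J := fun h => by
    have := hJ h
    rw [hT, Finset.mem_sdiff, Finset.mem_insert, Finset.mem_singleton] at this
    tauto
  refine ⟨J ∆ {e}, (G.Sim_iff _ _).1 hs, ?_, ?_, ?_⟩
  · intro x hx
    rw [Finset.mem_symmDiff, Finset.mem_singleton] at hx
    rcases hx with ⟨hx, _⟩ | ⟨hx, _⟩
    · have := hJ hx
      rw [hT] at this
      exact (Finset.mem_sdiff.1 this).1
    · rw [hx]
      exact Finset.mem_filter.2 ⟨Finset.mem_union_left _ heF, BX hseB, BX hteB⟩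
  · rw [Finset.mem_symmDiff, Finset.mem_singleton]
    exact Or.inr ⟨rfl, heJ⟩
  · rw [Finset.mem_symmDiff, Finset.mem_singleton]
    rintro (⟨h, _⟩ | ⟨h, _⟩)
    · exact hgJ h
    · exact heg h.symm

private theorem pA (se te sX tX : Prop) (hx : ¬ (se ↔ te)) (hX : ¬ ¬ (sX ↔ tX)) (i1 : se → sX)
    (i2 : te → tX) : sX ∧ tX := by tauto

private theorem pB (se te sf tf sX tX : Prop) (hx : ¬ ((sf ∧ ¬ se) ↔ (tf ∧ ¬ te)))
    (h1 : ¬ (se ↔ te) ↔ ¬ (sf ↔ tf)) (hX : ¬ (sX ↔ tX)) (i1 : se → sX) (i2 : te → tX)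
    (i3 : sf → sX) (i4 : tf → tX) (j1 : se → sf) (j2 : te → tf) : False := by tauto

private theorem pC (se te sf tf : Prop) (hx : ¬ ((sf ∧ ¬ se) ↔ (tf ∧ ¬ te)))
    (h1 : te) (h2 : ¬ sf) : False := by tauto

private theorem pD (se te sf tf : Prop) (hx : ¬ ((sf ∧ ¬ se) ↔ (tf ∧ ¬ te)))
    (h1 : ¬ ¬ (se ↔ te)) (h2 : ¬ ¬ (sf ↔ tf)) : False := by tauto

private theorem pE (se te sX tX : Prop) (hx : ¬ ((sX ∧ ¬ se) ↔ (tX ∧ ¬ te)))
    (h1 : ¬ (se ↔ te)) (hX : ¬ (sX ↔ tX)) (i1 : se → sX) (i2 : te → tX) : False := by tauto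

private theorem pF (se te sX tX : Prop) (hx : ¬ ((sX ∧ ¬ se) ↔ (tX ∧ ¬ te)))
    (hX : ¬ ¬ (sX ↔ tX)) : ¬ (se ↔ te) := by tauto

private theorem pG (sX tX sB tB : Prop) (h : ¬ ((sX ∧ ¬ sB) ↔ (tX ∧ ¬ tB)))
    (h8 : sX ∧ tX) (h7 : ¬ sB ∧ ¬ tB) : False := by tauto

private theorem small_cut (G : MG V E) (hG : C3 G) (T : Finset V) (u v : V) (hu : u ∈ T)
    (hv : v ∉ T) (a b : E) (h : G.cut T ⊆ {a, b}) : False := by
  have h1 := hG.cut T ⟨u, hu⟩ (by rintro rfl; exact hv (Finset.mem_univ v))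
  have h2 := Finset.card_le_card h
  have h3 := Finset.card_le_two (a := a) (b := b)
  omega

/-- JOB series: the effective circle of `g` in the region `X` -/
theorem series (G : MG V E) (hG : C3 G) (M : Finset E) (hM : PM G M) (X : Finset V)
    (hXu : X ≠ univ) (hX : G.cut X ⊆ M) (g : E) (hg : g ∉ M) (hgX : G.s g ∈ X) :
    ∃ (Q : Finset (E × E)) (A0 : Finset E) (U : E → Finset V), Eff G M X g Q A0 U := by
  classical
  have hreg : ∀ v, G.dg (univ \ M) v = 2 := by
    intro v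
    have h1 := G.dg_sdiff M univ (Finset.subset_univ M) v
    rw [hG.deg v, hM.deg v] at h1
    omega
  have hgF : g ∈ univ \ M := Finset.mem_sdiff.2 ⟨Finset.mem_univ g, hg⟩
  have hev : G.Ev (univ \ M) := by
    intro v
    rw [hreg v]
    decide
  have fX : ∀ x ∈ univ \ M, (G.s x ∈ X ↔ G.t x ∈ X) := by
    intro x hx
    by_contra h
    exact (Finset.mem_sdiff.1 hx).2 (hX ((G.mem_cut _ _).2 h))
  have FX : (univ \ M) ∩ G.cut X = ∅ := by
    by_contra hne
    obtain ⟨x, hx⟩ := Finset.nonempty_iff_ne_empty.2 hne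
    obtain ⟨h1, h2⟩ := Finset.mem_inter.1 hx
    exact (G.mem_cut _ _).1 h2 (fX x h1)
  have BX : Cv G M g ⊆ X := by
    intro v hv
    unfold Cv at hv
    rw [G.mem_cv] at hv
    exact G.closed_Rch _ X FX _ _ hgX hv
  have fB : ∀ x ∈ univ \ M, (G.s x ∈ Cv G M g ↔ G.t x ∈ Cv G M g) := by
    intro x hx
    by_contra h
    have h1 : x ∈ (univ \ M) ∩ G.cut (G.cv (univ \ M) (G.s g)) :=
      Finset.mem_inter.2 ⟨hx, (G.mem_cut _ _).2 h⟩
    rw [G.cv_cut] at h1
    exact absurd h1 (Finset.notMem_empty x)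
  have htX : G.t g ∈ X := (fX g hgF).1 hgX
  have gce : ∀ x ∈ Ce G M g, x ∈ univ \ M := fun x hx => ((G.mem_ce _ _ _).1 hx).1
  -- sides
  set A := ins G univ X with hA
  have memA : ∀ x, x ∈ A ↔ G.s x ∈ X ∧ G.t x ∈ X := by
    intro x
    rw [hA]
    unfold ins
    rw [Finset.mem_filter]
    simp
  have sdX : ∀ e, sd G A g e ⊆ X := by
    intro e v hv
    unfold sd at hv
    rw [G.mem_cv] at hv
    refine G.closed_Rch _ X ?_ _ _ htX hv
    by_contra hne
    obtain ⟨x, hx⟩ := Finset.nonempty_iff_ne_empty.2 hne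
    obtain ⟨h1, h2⟩ := Finset.mem_inter.1 hx
    have h3 := (memA x).1 (Finset.mem_sdiff.1 h1).1
    exact (G.mem_cut _ _).1 h2 ⟨fun _ => h3.2, fun _ => h3.1⟩
  have HA : ∀ e, ∀ x ∈ univ \ M, (G.s x ∈ sd G A g e ∨ G.t x ∈ sd G A g e) → x ∈ A := by
    intro e x hx h
    rw [memA]
    rcases h with h | h
    · exact ⟨sdX e h, (fX x hx).1 (sdX e h)⟩
    · exact ⟨(fX x hx).2 (sdX e h), sdX e h⟩
  -- an edge of the cut of a side outside `cut X`
  have key : ∀ e x, x ∈ G.cut (sd G A g e) → x ∉ G.cut X → x = e ∨ x = g := by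
    intro e x hx hxX
    by_contra hno
    rw [not_or] at hno
    rw [G.mem_cut] at hx hxX
    have h3 : x ∈ A := by
      rw [memA]
      exact pA _ _ _ _ hx hxX (@sdX e (G.s x)) (@sdX e (G.t x))
    exact hx (sd_iff G A g e x h3 hno.1 hno.2)
  -- pairs
  choose pr hpr using ext_pair G (univ \ M) g (Cv G M g)
  set H := avd G (ins G univ X) (Cv G M g) with hH
  have hKX : ∀ r ∈ X, r ∉ Cv G M g → ∀ v ∈ G.cv H r, v ∈ X ∧ v ∉ Cv G M g := by
    intro r hrX hrB v hv
    rw [G.mem_cv] at hv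
    have h3 := G.closed_Rch _ (X \ Cv G M g) (by
      by_contra hne
      obtain ⟨x, hx⟩ := Finset.nonempty_iff_ne_empty.2 hne
      obtain ⟨h4, h5⟩ := Finset.mem_inter.1 hx
      obtain ⟨h6, h7⟩ := Finset.mem_filter.1 h4
      have h8 := (Finset.mem_filter.1 h6).2
      rw [G.mem_cut, Finset.mem_sdiff, Finset.mem_sdiff] at h5
      exact pG _ _ _ _ h5 h8 h7) _ _ (Finset.mem_sdiff.2 ⟨hrX, hrB⟩) hv
    exact Finset.mem_sdiff.1 h3
  set Q : Finset (E × E) := (((X \ Cv G M g).image (G.cv H)).filter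
    (fun K => 2 ≤ (att G (Cv G M g) K).card)).image pr with hQ
  have memQ : ∀ p ∈ Q, ∃ r ∈ X, r ∉ Cv G M g ∧ 2 ≤ (att G (Cv G M g) (G.cv H r)).card ∧
      p = pr (G.cv H r) := by
    intro p hp
    rw [hQ] at hp
    obtain ⟨K, hK, hpK⟩ := Finset.mem_image.1 hp
    obtain ⟨hK1, hK2⟩ := Finset.mem_filter.1 hK
    obtain ⟨r, hr, hrK⟩ := Finset.mem_image.1 hK1
    obtain ⟨hr1, hr2⟩ := Finset.mem_sdiff.1 hr
    refine ⟨r, hr1, hr2, ?_, ?_⟩
    · rw [hrK]; exact hK2
    · rw [hrK]; exact hpK.symm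
  have attM : ∀ r ∈ X, r ∉ Cv G M g → ∀ m ∈ att G (Cv G M g) (G.cv H r), m ∈ M := by
    intro r hrX hrB m hm
    obtain ⟨a, ha, q, hq, hJ⟩ := (mem_att G _ _ _).1 hm
    have h1 := (hKX r hrX hrB q hq).2
    by_contra hmM
    have h2 := fB m (Finset.mem_sdiff.2 ⟨Finset.mem_univ m, hmM⟩)
    rcases hJ with ⟨h3, h4⟩ | ⟨h3, h4⟩
    · rw [h3, h4] at h2
      exact h1 (h2.1 ha)
    · rw [h3, h4] at h2
      exact h1 (h2.2 ha)
  set A0 : Finset E := (Ce G M g).filter (fun e => e = g ∨ G.s g ∉ sd G A g e) with hA0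
  let U : E → Finset V := fun e => if e = g then ∅ else sd G A g e
  have Ug : U g = ∅ := if_pos rfl
  have Ue : ∀ e, e ≠ g → U e = sd G A g e := fun e h => if_neg h
  have sA0 : ∀ e ∈ A0, e ≠ g → G.s g ∉ sd G A g e := by
    intro e he heg
    rcases (Finset.mem_filter.1 he).2 with h | h
    · exact absurd h heg
    · exact h
  have fA0 : ∀ e ∈ A0, e ∈ univ \ M := fun e he => gce e (Finset.mem_filter.1 he).1
  have cutF : ∀ e ∈ A0, e ≠ g → (univ \ M) ∩ G.cut (sd G A g e) = {e, g} := fun e he heg =>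
    sd_cutF G A (univ \ M) hev g e hgF (HA e) (sA0 e he heg)
  have nX : ∀ x ∈ univ \ M, x ∉ G.cut X := by
    intro x hx h
    exact (Finset.mem_sdiff.1 hx).2 (hX h)
  have ecut : ∀ e ∈ A0, e ≠ g → e ∈ G.cut (sd G A g e) := by
    intro e he heg
    have h1 : e ∈ (univ \ M) ∩ G.cut (sd G A g e) := by
      rw [cutF e he heg]
      exact Finset.mem_insert_self _ _
    exact (Finset.mem_inter.1 h1).2
  have gcut : ∀ e ∈ A0, e ≠ g → g ∈ G.cut (sd G A g e) := by
    intro e he heg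
    rw [G.mem_cut]
    exact fun h => sA0 e he heg (h.2 (sd_t G A g e))
  have nonempt : ∀ f ∈ A0, f ≠ g → G.cut (sd G A g f) ∩ G.cut X ≠ ∅ := by
    intro f hf hfg h
    refine small_cut G hG (sd G A g f) (G.t g) (G.s g) (sd_t G A g f) (sA0 f hf hfg) f g ?_
    intro x hx
    rw [Finset.mem_insert, Finset.mem_singleton]
    refine key f x hx fun h' => ?_
    have h1 : x ∈ G.cut (sd G A g f) ∩ G.cut X := Finset.mem_inter.2 ⟨hx, h'⟩
    rw [h] at h1
    exact absurd h1 (Finset.notMem_empty x)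
  have cut0 : G.cut (∅ : Finset V) = ∅ := by
    ext x
    rw [G.mem_cut]
    simp
  have hchain : ∀ e ∈ A0, ∀ f ∈ A0, e ≠ g → f ≠ g →
      (sd G A g e ⊆ sd G A g f ∨ sd G A g f ⊆ sd G A g e) := by
    intro e he f hf heg hfg
    exact sd_chain G A (univ \ M) hev g e f hgF (HA e) (HA f) (sA0 e he heg) (sA0 f hf hfg)
  -- nested sides with the same edges of `cut X` are equal
  have hinj : ∀ e ∈ A0, ∀ f ∈ A0, e ≠ g → f ≠ g → e ≠ f → sd G A g e ⊆ sd G A g f →
      G.cut (sd G A g e) ∩ G.cut X ≠ G.cut (sd G A g f) ∩ G.cut X := by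
    intro e he f hf heg hfg hef hsub heq
    have hne : ∃ u, u ∈ sd G A g f ∧ u ∉ sd G A g e := by
      by_contra hno
      push Not at hno
      have h1 : sd G A g e = sd G A g f := Finset.Subset.antisymm hsub hno
      have h2 := ecut e he heg
      rw [h1] at h2
      rcases key f e h2 (nX e (fA0 e he)) with h3 | h3
      · exact hef h3
      · exact heg h3
    obtain ⟨u, hu1, hu2⟩ := hne
    refine small_cut G hG (sd G A g f \ sd G A g e) u (G.t g) (Finset.mem_sdiff.2 ⟨hu1, hu2⟩)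
      (fun h => (Finset.mem_sdiff.1 h).2 (sd_t G A g e)) e f ?_
    intro x hx
    rw [Finset.mem_insert, Finset.mem_singleton]
    rw [G.mem_cut, Finset.mem_sdiff, Finset.mem_sdiff] at hx
    by_cases hxX : x ∈ G.cut X
    · exfalso
      have h1 : x ∈ G.cut (sd G A g e) ↔ x ∈ G.cut (sd G A g f) := by
        constructor
        · intro h
          have h2 : x ∈ G.cut (sd G A g f) ∩ G.cut X := by
            rw [← heq]
            exact Finset.mem_inter.2 ⟨h, hxX⟩
          exact (Finset.mem_inter.1 h2).1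
        · intro h
          have h2 : x ∈ G.cut (sd G A g e) ∩ G.cut X := by
            rw [heq]
            exact Finset.mem_inter.2 ⟨h, hxX⟩
          exact (Finset.mem_inter.1 h2).1
      rw [G.mem_cut, G.mem_cut] at h1
      rw [G.mem_cut] at hxX
      exact pB _ _ _ _ _ _ hx h1 hxX (@sdX e (G.s x)) (@sdX e (G.t x)) (@sdX f (G.s x))
        (@sdX f (G.t x)) (@hsub (G.s x)) (@hsub (G.t x))
    · by_contra hno
      rw [not_or] at hno
      have hxg : x ≠ g := by
        intro hxg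
        rw [hxg] at hx
        exact pC _ _ _ _ hx (sd_t G A g e) (sA0 f hf hfg)
      have h1 : x ∉ G.cut (sd G A g e) := by
        intro h
        rcases key e x h hxX with h2 | h2
        · exact hno.1 h2
        · exact hxg h2
      have h2 : x ∉ G.cut (sd G A g f) := by
        intro h
        rcases key f x h hxX with h2 | h2
        · exact hno.2 h2
        · exact hxg h2
      rw [G.mem_cut] at h1 h2
      exact pD _ _ _ _ hx h1 h2
  refine ⟨Q, A0, U, ?_⟩
  constructor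
  · -- pairs
    constructor
    · intro p hp
      obtain ⟨r, hrX, hrB, hc, rfl⟩ := memQ p hp
      exact (hpr _ hc).2.2.1
    · intro p hp
      obtain ⟨r, hrX, hrB, hc, rfl⟩ := memQ p hp
      exact ⟨attM r hrX hrB _ (hpr _ hc).1, attM r hrX hrB _ (hpr _ hc).2.1⟩
    · intro p hp
      obtain ⟨r, hrX, hrB, hc, rfl⟩ := memQ p hp
      obtain ⟨a, ha, q, hq, hJ⟩ := (mem_att G _ _ _).1 (hpr _ hc).1
      obtain ⟨a', ha', q', hq', hJ'⟩ := (mem_att G _ _ _).1 (hpr _ hc).2.1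
      obtain ⟨h1, h2⟩ := hKX r hrX hrB q hq
      obtain ⟨h3, h4⟩ := hKX r hrX hrB q' hq'
      rw [G.mem_cv] at hq hq'
      exact ⟨a, ha, q, h1, a', ha', q', h3, h2, h4, hJ, hJ',
        G.Rch_trans _ _ _ _ (G.Rch_symm _ _ _ hq) hq'⟩
    · intro p hp q hq hpq a ha b hb r₁ hr₁ r₂ hr₂ hr₁B hr₂B hJ₁ hJ₂ hR
      obtain ⟨r, hrX, hrB, hc, rfl⟩ := memQ p hp
      obtain ⟨r', hrX', hrB', hc', rfl⟩ := memQ q hq
      obtain ⟨a₁, ha₁, q₁, hq₁, hJ₁'⟩ := (mem_att G _ _ _).1 (hpr _ hc).1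
      obtain ⟨a₂, ha₂, q₂, hq₂, hJ₂'⟩ := (mem_att G _ _ _).1 (hpr _ hc').1
      have h1 := (Jn_unique G _ _ _ _ _ _ ha hr₁B ha₁ (hKX r hrX hrB q₁ hq₁).2 hJ₁ hJ₁').2
      have h2 := (Jn_unique G _ _ _ _ _ _ hb hr₂B ha₂ (hKX r' hrX' hrB' q₂ hq₂).2 hJ₂ hJ₂').2
      rw [G.mem_cv, ← h1] at hq₁
      rw [G.mem_cv, ← h2] at hq₂
      have h3 : G.Rch H r r' :=
        G.Rch_trans _ _ _ _ hq₁ (G.Rch_trans _ _ _ _ hR (G.Rch_symm _ _ _ hq₂))
      rw [← G.cv_eq] at h3
      exact hpq (by rw [h3])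
  · exact Finset.filter_subset _ _
  · refine Finset.mem_filter.2 ⟨?_, Or.inl rfl⟩
    unfold Ce
    rw [G.mem_ce]
    exact ⟨hgF, G.Rch_refl _ _⟩
  · exact Ug
  · intro e _
    by_cases heg : e = g
    · rw [heg, Ug]
      exact Finset.empty_subset _
    · rw [Ue e heg]
      exact sdX e
  · intro e he heg
    rw [Ue e heg]
    ext x
    rw [Finset.mem_sdiff, Finset.mem_insert, Finset.mem_singleton]
    constructor
    · rintro ⟨h1, h2⟩
      exact key e x h1 h2
    · rintro (h | h)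
      · rw [h]
        exact ⟨ecut e he heg, nX e (fA0 e he)⟩
      · rw [h]
        exact ⟨gcut e he heg, nX g hgF⟩
  · intro e he f hf
    by_cases heg : e = g
    · left
      rw [heg, Ug]
      exact Finset.empty_subset _
    · by_cases hfg : f = g
      · right
        rw [hfg, Ug]
        exact Finset.empty_subset _
      · rw [Ue e heg, Ue f hfg]
        exact hchain e he f hf heg hfg
  · intro e he f hf hef
    by_cases heg : e = g
    · have hfg : f ≠ g := fun h => hef (heg.trans h.symm)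
      rw [heg, Ug, Ue f hfg, cut0, Finset.empty_inter]
      exact (nonempt f hf hfg).symm
    · by_cases hfg : f = g
      · rw [hfg, Ug, Ue e heg, cut0, Finset.empty_inter]
        exact nonempt e he heg
      · rw [Ue e heg, Ue f hfg]
        rcases hchain e he f hf heg hfg with h | h
        · exact hinj e he f hf heg hfg hef h
        · exact (hinj f hf e he hfg heg (Ne.symm hef) h).symm
  · intro e he
    by_cases heg : e = g
    · rw [heg, Ug, cut0, Finset.empty_inter]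
      intro h
      have h1 := hG.cut X ⟨_, hgX⟩ hXu
      rw [← h, Finset.card_empty] at h1
      omega
    · rw [Ue e heg]
      intro h
      refine small_cut G hG (X \ sd G A g e) (G.s g) (G.t g)
        (Finset.mem_sdiff.2 ⟨hgX, sA0 e he heg⟩)
        (fun h' => (Finset.mem_sdiff.1 h').2 (sd_t G A g e)) e g ?_
      intro x hx
      rw [Finset.mem_insert, Finset.mem_singleton]
      rw [G.mem_cut, Finset.mem_sdiff, Finset.mem_sdiff] at hx
      by_cases hxX : x ∈ G.cut X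
      · exfalso
        have h1 : x ∈ G.cut (sd G A g e) := by
          rw [← h] at hxX
          exact (Finset.mem_inter.1 hxX).1
        rw [G.mem_cut] at h1 hxX
        exact pE _ _ _ _ hx h1 hxX (@sdX e (G.s x)) (@sdX e (G.t x))
      · refine key e x ?_ hxX
        rw [G.mem_cut] at hxX ⊢
        exact pF _ _ _ _ hx hxX
  · intro S hS hSrv e he heA0
    have heg : e ≠ g := by
      rintro rfl
      exact heA0 (Finset.mem_filter.2 ⟨he, Or.inl rfl⟩)
    have hcon : G.s g ∈ sd G (ins G univ X) g e := by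
      by_contra h
      exact heA0 (Finset.mem_filter.2 ⟨he, Or.inr h⟩)
    refine cov_aux G M X hX hreg g hg hgX pr hpr S hS hSrv.1 ?_ e he heg hcon
    intro r hrX hrB hc
    have hq : pr (G.cv H r) ∈ Q := by
      rw [hQ]
      exact Finset.mem_image_of_mem _ (Finset.mem_filter.2
        ⟨Finset.mem_image_of_mem _ (Finset.mem_sdiff.2 ⟨hrX, hrB⟩), hc⟩)
    exact hSrv.2 _ hq

end Pool.Agent.Lib.MP_95e9b3_coG
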