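import Pool.Agent.Lib.MP_95e9b3_coG.R4Defs

/-!
# Route G, block R4: e5mem
-/

set_option autoImplicit false

namespace Pool.Agent.Lib.MP_95e9b3_coG

open Finset Pool.Agent.Lib.MP_95e9b3_coC

variable {V E : Type} [Fintype V] [DecidableEq V] [Fintype E] [DecidableEq E]

/-- JOB e5mem -/
theorem e5mem (G : MG V E) (M : Finset E) (w : E → ℕ) (R P : Finset (Finset V))
    (g : Finset V → E) (hF : Fam4 G M w R P g) (X Q : Finset V) (hX : X ∈ R)
    (hX4 : (G.cut X).card ≠ 4) (hXu : X ≠ univ) (hQ : Up G R X Q) (l : E) (hl : l ∈ G.cut X)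
    (hlQ : l ∉ G.cut Q) (Z : Finset V) (hZ : Z ∈ R) (hlZ : l ∈ own G M R Z) :
    l ∈ E5 G M R Z := by
  classical
  obtain ⟨hQR, _, hXQ, hQmin⟩ := hQ
  have mO : l ∈ own G M R Z ↔ (l ∈ M ∧ G.s l ∈ Z ∧ G.t l ∈ Z) ∧
      ∀ Y ∈ R, Y ⊂ Z → ¬ (G.s l ∈ Y ∧ G.t l ∈ Y) := by
    rw [own, mem_filter, ins, mem_filter]
  obtain ⟨⟨_, hs, ht⟩, hmin⟩ := mO.1 hlZ
  rw [MG.mem_cut] at hl hlQ
  -- both ends in `Q`
  have hQ2 : G.s l ∈ Q ∧ G.t l ∈ Q := by
    rw [not_not] at hlQ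
    by_cases h1 : G.s l ∈ X
    · exact ⟨hXQ h1, hlQ.1 (hXQ h1)⟩
    · have h2 : G.t l ∈ X := by
        by_contra h2
        exact hl ⟨fun h => absurd h h1, fun h => absurd h h2⟩
      exact ⟨hlQ.2 (hXQ h2), hXQ h2⟩
  -- `Z ⊆ Q`
  have hZQ : Z ⊆ Q := by
    rcases hF.lam Z hZ Q hQR with h | h | h
    · exact h
    · by_contra h'
      exact hmin Q hQR (Finset.ssubset_iff_subset_ne.2 ⟨h, fun h2 => h' (h2 ▸ subset_refl _)⟩) hQ2
    · exact absurd hQ2.1 (disjoint_left.1 h hs)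
  -- `X ⊂ Z`
  have hXZ : X ⊂ Z := by
    have hne : ¬ Z ⊆ X := fun h => hl ⟨fun _ => h ht, fun _ => h hs⟩
    rcases hF.lam X hX Z hZ with h | h | h
    · exact Finset.ssubset_iff_subset_ne.2 ⟨h, fun h2 => hne (h2 ▸ subset_refl _)⟩
    · exact absurd h hne
    · exfalso
      apply hl
      exact ⟨fun h1 => absurd hs (disjoint_left.1 h h1), fun h1 => absurd ht (disjoint_left.1 h h1)⟩
  -- the largest member between `X` and `Z`
  obtain ⟨N, hN, hmax⟩ := (R.filter (fun N => X ⊆ N ∧ N ⊂ Z)).exists_max_image card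
    ⟨X, mem_filter.2 ⟨hX, subset_refl _, hXZ⟩⟩
  rw [mem_filter] at hN
  obtain ⟨hNR, hXN, hNZ⟩ := hN
  have hNne : N.Nonempty := hF.ne N hNR
  have hlN : l ∈ G.cut N := by
    rw [MG.mem_cut]
    intro h
    by_cases h1 : G.s l ∈ N
    · exact hmin N hNR hNZ ⟨h1, h.1 h1⟩
    · have h2 : G.t l ∉ N := fun h2 => h1 (h.2 h2)
      exact hl ⟨fun h3 => absurd (hXN h3) h1, fun h3 => absurd (hXN h3) h2⟩
  have hchd : Chd R Z N := by
    refine ⟨hNR, hNZ, ?_⟩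
    intro N' hN' hNN'
    rcases hF.lam Z hZ N' hN' with h | h | h
    · exact h
    · by_contra h'
      have h1 : N' ⊂ Z := Finset.ssubset_iff_subset_ne.2 ⟨h, fun h2 => h' (h2 ▸ subset_refl _)⟩
      have h2 := hmax N' (mem_filter.2 ⟨hN', subset_trans hXN hNN'.1, h1⟩)
      exact absurd (card_lt_card hNN') (not_lt.2 h2)
    · obtain ⟨v, hv⟩ := hNne
      exact absurd (hNN'.1 hv) (disjoint_left.1 h (hNZ.1 hv))
  have hNu : N ≠ univ := by
    rintro rfl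
    exact hNZ.2 (subset_univ _)
  have h4 := hF.four N hNR hNu
  have h5 : (G.cut N).card ≠ 4 := by
    intro h
    have h1 := hQmin N hNR h hXN
    exact hNZ.2 (subset_trans hZQ h1)
  rw [E5, mem_filter]
  exact ⟨hlZ, N, hchd, hlN, by omega⟩

end Pool.Agent.Lib.MP_95e9b3_coG
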