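import Pool.Agent.Lib.MP_95e9b3_coG.R4Defs

/-! # Route G, block R4: existence of the flows (exists_val) -/

set_option autoImplicit false

namespace Pool.Agent.Lib.MP_95e9b3_coG

open Finset Pool.Agent.Lib.MP_95e9b3_coC
open scoped symmDiff

variable {V E : Type} [Fintype V] [DecidableEq V] [Fintype E] [DecidableEq E]

omit [Fintype V] [DecidableEq E] in
private theorem ev_sel (G : MG V E) (Q : Finset V) (x y : E → K4)
    (h : ∀ e ∈ G.cut Q, x e = y e) : sel G Q x = sel G Q y := by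
  unfold sel
  have h1 : (fun σ : K4 ≃+ K4 => (∀ e ∈ G.cut Q, (σ (x e)).2 = 1) ∧
      ∃ e ∈ G.cut Q, σ (x e) = (1, 1)) =
      (fun σ : K4 ≃+ K4 => (∀ e ∈ G.cut Q, (σ (y e)).2 = 1) ∧
      ∃ e ∈ G.cut Q, σ (y e) = (1, 1)) := by
    funext σ
    apply propext
    constructor
    · rintro ⟨h2, e, he, h3⟩
      refine ⟨fun f hf => ?_, e, he, ?_⟩
      · rw [← h f hf]; exact h2 f hf
      · rw [← h e he]; exact h3
    · rintro ⟨h2, e, he, h3⟩
      refine ⟨fun f hf => ?_, e, he, ?_⟩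
      · rw [h f hf]; exact h2 f hf
      · rw [h e he]; exact h3
  rw [h1]

private theorem ev_Fl_sum (G : MG V E) (S : Finset E) (Z : E → Finset E)
    (hS : ∀ l ∈ S, G.Ev (Z l)) (k : E → K4) :
    G.Fl (fun e => ∑ l ∈ S, if e ∈ Z l then k l else 0) := by
  classical
  induction S using Finset.induction_on with
  | empty =>
    simp only [Finset.sum_empty]
    exact G.Fl_zero
  | insert l S hl ih =>
    have h1 := G.Fl_add _ _ (G.Fl_ind (Z l) (hS l (Finset.mem_insert_self l S)) (k l))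
      (ih fun l' h => hS l' (Finset.mem_insert_of_mem h))
    have h2 : (fun e => ∑ l' ∈ insert l S, if e ∈ Z l' then k l' else 0)
        = fun e => (if e ∈ Z l then k l else 0) + ∑ l' ∈ S, if e ∈ Z l' then k l' else 0 := by
      funext e
      rw [Finset.sum_insert hl]
    rw [h2]
    exact h1

/-- an edge of `M` outside `T`, inside `Q`, closes an even set with `F ∪ T` inside `Q` -/
private theorem ev_fund (G : MG V E) (M T : Finset E) (Q : Finset V)
    (c : Con G ((univ \ M) ∪ T) Q) (l : E) (hl : l ∈ M) (hlT : l ∉ T)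
    (hlQ : l ∈ ins G univ Q) :
    ∃ Z, G.Ev Z ∧ l ∈ Z ∧ Z ⊆ ins G univ Q ∧ Z.erase l ⊆ (univ \ M) ∪ T := by
  classical
  have hlQ' := (Finset.mem_filter.1 hlQ).2
  obtain ⟨J, hJ, hs⟩ := G.join_exists (ins G ((univ \ M) ∪ T) Q) {l} (by
    intro U hU
    have hr := c _ hlQ'.1 _ hlQ'.2
    have h1 := fun h3 => G.closed_Rch _ U hU (G.s l) (G.t l) h3 hr
    have h2 := fun h3 => G.closed_Rch _ U hU (G.t l) (G.s l) h3 (G.Rch_symm _ _ _ hr)
    have h3 : ({l} : Finset E) ∩ G.cut U = ∅ := by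
      rw [Finset.singleton_inter_of_notMem]
      intro h
      exact (G.mem_cut U l).1 h ⟨h1, h2⟩
    rw [h3, Finset.card_empty]
    decide)
  have hlJ : l ∉ J := by
    intro h
    rcases Finset.mem_union.1 (Finset.mem_filter.1 (hJ h)).1 with h' | h'
    · exact (Finset.mem_sdiff.1 h').2 hl
    · exact hlT h'
  refine ⟨J ∆ {l}, (G.Sim_iff _ _).1 hs, ?_, ?_, ?_⟩
  · rw [Finset.mem_symmDiff]
    exact Or.inr ⟨Finset.mem_singleton_self l, hlJ⟩
  · intro e he
    rw [Finset.mem_symmDiff, Finset.mem_singleton] at he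
    rcases he with ⟨h, _⟩ | ⟨h, _⟩
    · exact Finset.mem_filter.2 ⟨Finset.mem_univ _, (Finset.mem_filter.1 (hJ h)).2⟩
    · rw [h]; exact hlQ
  · intro e he
    obtain ⟨hne, he⟩ := Finset.mem_erase.1 he
    rw [Finset.mem_symmDiff, Finset.mem_singleton] at he
    rcases he with ⟨h, _⟩ | ⟨h, _⟩
    · exact (Finset.mem_filter.1 (hJ h)).1
    · exact absurd h hne

/-- change of the values of the edges of `M` outside `T` inside `Q` -/
private theorem ev_adj (G : MG V E) (M T : Finset E) (Q : Finset V)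
    (c : Con G ((univ \ M) ∪ T) Q) (x : E → K4) (hx : G.Fl x) (k : E → K4) :
    ∃ y, G.Fl y ∧ (∀ e, e ∉ ins G univ Q → y e = x e) ∧
      (∀ e ∈ M, e ∈ ins G univ Q → e ∉ T → y e = x e + k e) ∧
      ∀ φ : K4 →+ ZMod 2, (∀ l, φ (k l) = 0) → ∀ e, φ (y e) = φ (x e) := by
  classical
  have hex : ∀ l, ∃ Z, l ∈ (M ∩ ins G univ Q) \ T →
      (G.Ev Z ∧ l ∈ Z ∧ Z ⊆ ins G univ Q ∧ Z.erase l ⊆ (univ \ M) ∪ T) := by
    intro l
    by_cases hl : l ∈ (M ∩ ins G univ Q) \ T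
    · obtain ⟨h1, h2⟩ := Finset.mem_sdiff.1 hl
      obtain ⟨h3, h4⟩ := Finset.mem_inter.1 h1
      obtain ⟨Z, hZ⟩ := ev_fund G M T Q c l h3 h2 h4
      exact ⟨Z, fun _ => hZ⟩
    · exact ⟨∅, fun h => absurd h hl⟩
  choose Z hZ using hex
  set A := (M ∩ ins G univ Q) \ T with hA
  refine ⟨fun e => x e + ∑ l ∈ A, if e ∈ Z l then k l else 0,
    G.Fl_add _ _ hx (ev_Fl_sum G A Z (fun l hl => (hZ l hl).1) k), ?_, ?_, ?_⟩
  · intro e he
    show x e + _ = x e
    rw [Finset.sum_eq_zero, add_zero]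
    intro l hl
    rw [if_neg]
    exact fun h => he ((hZ l hl).2.2.1 h)
  · intro e he heQ heT
    show x e + _ = x e + k e
    have heA : e ∈ A := by
      rw [hA, Finset.mem_sdiff, Finset.mem_inter]
      exact ⟨⟨he, heQ⟩, heT⟩
    rw [Finset.sum_eq_single_of_mem e heA, if_pos (hZ e heA).2.1]
    intro l hl hne
    rw [if_neg]
    intro h
    rcases Finset.mem_union.1 ((hZ l hl).2.2.2 (Finset.mem_erase.2 ⟨hne.symm, h⟩)) with h' | h'
    · exact (Finset.mem_sdiff.1 h').2 he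
    · exact heT h'
  · intro φ hφ e
    show φ (x e + _) = φ (x e)
    rw [map_add, map_sum, Finset.sum_eq_zero, add_zero]
    intro l _
    split_ifs
    · exact hφ l
    · exact map_zero φ

/-- one member -/
private theorem ev_step (G : MG V E) (M : Finset E) (T₁ T₂ : Finset E) (hT : Two M T₁ T₂)
    (Q : Finset V) (c₁ : Con G ((univ \ M) ∪ T₁) Q) (c₂ : Con G ((univ \ M) ∪ T₂) Q)
    (val x : E → K4) (hx : G.Fl x) :
    ∃ y, G.Fl y ∧ (∀ e, e ∉ ins G univ Q → y e = x e) ∧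
      ∀ e ∈ M, e ∈ ins G univ Q →
        (e ∈ T₁ → (sel G Q y (y e)).1 = 1) ∧ (e ∈ T₂ → (sel G Q y (y e)).2 = 1) ∧
        (e ∉ T₁ → e ∉ T₂ → sel G Q y (y e) = val e) := by
  classical
  set σ := sel G Q x with hσ
  let d₁ : E → K4 := fun l => σ.symm ((if l ∈ T₁ then 1 else (val l).1) - (σ (x l)).1, 0)
  obtain ⟨x', hx', hout', hin', hφ'⟩ := ev_adj G M T₂ Q c₂ x hx d₁
  let d₂ : E → K4 := fun l => σ.symm (0, (if l ∈ T₂ then 1 else (val l).2) - (σ (x' l)).2)
  obtain ⟨y, hy, hout, hin, hφ⟩ := ev_adj G M T₁ Q c₁ x' hx' d₂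
  have hyx : ∀ e, e ∉ ins G univ Q → y e = x e := fun e he => (hout e he).trans (hout' e he)
  have hsel : sel G Q y = σ := by
    rw [hσ]
    refine ev_sel G Q y x ?_
    intro e he
    refine hyx e fun h => ?_
    have h1 := (Finset.mem_filter.1 h).2
    exact (G.mem_cut Q e).1 he ⟨fun _ => h1.2, fun _ => h1.1⟩
  have hf : ∀ e, (σ (y e)).1 = (σ (x' e)).1 := by
    intro e
    exact hφ ((AddMonoidHom.fst _ _).comp σ.toAddMonoidHom) (by
      intro l
      show (σ (d₂ l)).1 = 0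
      rw [AddEquiv.apply_symm_apply]) e
  have g1 : ∀ e ∈ M, e ∈ ins G univ Q → e ∉ T₂ →
      (σ (y e)).1 = if e ∈ T₁ then 1 else (val e).1 := by
    intro e he heQ heT
    rw [hf e, hin' e he heQ heT, map_add, Prod.fst_add]
    show (σ (x e)).1 + (σ (σ.symm _)).1 = _
    rw [AddEquiv.apply_symm_apply]
    show (σ (x e)).1 + (_ - (σ (x e)).1) = _
    rw [add_sub_cancel]
  have g2 : ∀ e ∈ M, e ∈ ins G univ Q → e ∉ T₁ →
      (σ (y e)).2 = if e ∈ T₂ then 1 else (val e).2 := by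
    intro e he heQ heT
    rw [hin e he heQ heT, map_add, Prod.snd_add]
    show (σ (x' e)).2 + (σ (σ.symm _)).2 = _
    rw [AddEquiv.apply_symm_apply]
    show (σ (x' e)).2 + (_ - (σ (x' e)).2) = _
    rw [add_sub_cancel]
  refine ⟨y, hy, hyx, ?_⟩
  intro e he heQ
  rw [hsel]
  refine ⟨fun h => ?_, fun h => ?_, fun h h' => ?_⟩
  · rw [g1 e he heQ (fun h' => Finset.disjoint_left.1 hT.hd h h'), if_pos h]
  · rw [g2 e he heQ (fun h' => Finset.disjoint_left.1 hT.hd h' h), if_pos h]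
  · refine Prod.ext ?_ ?_
    · rw [g1 e he heQ h', if_neg h]
    · rw [g2 e he heQ h, if_neg h']

/-- JOB exists_val -/
theorem exists_val (G : MG V E) (M : Finset E) (R : Finset (Finset V)) (hR : Lmr G M R)
    (T₁ T₂ : Finset E) (hT : Two M T₁ T₂) (c₁ : ∀ X ∈ R, Con G ((univ \ M) ∪ T₁) X)
    (c₂ : ∀ X ∈ R, Con G ((univ \ M) ∪ T₂) X) (val : E → K4) :
    ∃ x, Val4 G M R T₁ T₂ val x := by
  classical
  set L := R.filter (fun Q => Q = univ ∨ (G.cut Q).card = 4) with hL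
  have key : ∀ n : ℕ, ∀ 𝒬 ⊆ L, 𝒬.card = n → (∀ Q ∈ 𝒬, ∀ Q' ∈ L, Q ⊆ Q' → Q' ∈ 𝒬) →
      ∃ x : E → K4, G.Fl x ∧ ∀ e ∈ M, ∀ Q ∈ 𝒬, Up G R {G.s e, G.t e} Q →
        (e ∈ T₁ → (sel G Q x (x e)).1 = 1) ∧ (e ∈ T₂ → (sel G Q x (x e)).2 = 1) ∧
        (e ∉ T₁ → e ∉ T₂ → sel G Q x (x e) = val e) := by
    intro n
    induction n with
    | zero =>
      intro 𝒬 _ hcard _
      refine ⟨fun _ => 0, G.Fl_zero, ?_⟩
      intro e _ Q hQ _
      rw [Finset.card_eq_zero.1 hcard] at hQ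
      exact absurd hQ (Finset.notMem_empty Q)
    | succ n ih =>
      intro 𝒬 hsub hcard hup
      have hne : 𝒬.Nonempty := by
        rw [← Finset.card_pos, hcard]
        exact Nat.succ_pos n
      obtain ⟨Q₀, hQ₀, hmin⟩ := Finset.exists_min_image 𝒬 Finset.card hne
      have hmin' : ∀ Q ∈ 𝒬, Q ⊆ Q₀ → Q = Q₀ := fun Q hQ h =>
        Finset.eq_of_subset_of_card_le h (hmin Q hQ)
      obtain ⟨x, hx, hloc⟩ := ih (𝒬.erase Q₀) ((Finset.erase_subset _ _).trans hsub)
        (by rw [Finset.card_erase_of_mem hQ₀, hcard]; rfl) (by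
          intro Q hQ Q' hQ' hQQ'
          obtain ⟨h1, h2⟩ := Finset.mem_erase.1 hQ
          refine Finset.mem_erase.2 ⟨?_, hup Q h2 Q' hQ' hQQ'⟩
          rintro rfl
          exact h1 (hmin' Q h2 hQQ'))
      have hQ₀R : Q₀ ∈ R := (Finset.mem_filter.1 (hsub hQ₀)).1
      obtain ⟨y, hy, hyx, hyl⟩ := ev_step G M T₁ T₂ hT Q₀ (c₁ Q₀ hQ₀R) (c₂ Q₀ hQ₀R) val x hx
      refine ⟨y, hy, ?_⟩
      intro e he Q hQ hU
      by_cases hQQ : Q = Q₀
      · subst hQQ
        refine hyl e he ?_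
        have h1 := hU.2.2.1
        refine Finset.mem_filter.2 ⟨Finset.mem_univ _, h1 ?_, h1 ?_⟩
        · exact Finset.mem_insert_self _ _
        · exact Finset.mem_insert_of_mem (Finset.mem_singleton_self _)
      · have hnin : e ∉ ins G univ Q₀ := by
          intro h
          have h1 := (Finset.mem_filter.1 h).2
          have h2 : ({G.s e, G.t e} : Finset V) ⊆ Q₀ := by
            intro v hv
            rw [Finset.mem_insert, Finset.mem_singleton] at hv
            rcases hv with rfl | rfl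
            · exact h1.1
            · exact h1.2
          have h3 : Q ⊆ Q₀ := by
            rcases (Finset.mem_filter.1 (hsub hQ₀)).2 with h4 | h4
            · rw [h4]; exact Finset.subset_univ _
            · exact hU.2.2.2 Q₀ hQ₀R h4 h2
          exact hQQ (hmin' Q hQ h3)
        have hsel : sel G Q y = sel G Q x := by
          refine ev_sel G Q y x ?_
          intro f hf
          refine hyx f fun h => ?_
          have h1 := (Finset.mem_filter.1 h).2
          rw [G.mem_cut] at hf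
          rcases hR.lam Q hU.1 Q₀ hQ₀R with h2 | h2 | h2
          · exact hQQ (hmin' Q hQ h2)
          · exact hf ⟨fun _ => h2 h1.2, fun _ => h2 h1.1⟩
          · exact hf ⟨fun h3 => absurd h1.1 (Finset.disjoint_left.1 h2 h3),
              fun h3 => absurd h1.2 (Finset.disjoint_left.1 h2 h3)⟩
        rw [hsel, hyx e hnin]
        exact hloc e he Q (Finset.mem_erase.2 ⟨hQQ, hQ⟩) hU
  obtain ⟨x, hx, hloc⟩ := key L.card L (Finset.Subset.refl _) rfl (fun _ _ Q' hQ' _ => hQ')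
  refine ⟨x, hx, ?_⟩
  intro e he Q hU
  exact hloc e he Q (Finset.mem_filter.2 ⟨hU.1, hU.2.1⟩) hU

end Pool.Agent.Lib.MP_95e9b3_coG
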