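import Mathlib

/-!
# Route G, block R4: the finite lemma (qualitative part)

Circles with at most seven root edges: a chain `D` of sets of root edges indexed by the gaps,
labels `p` of the root edges in the Klein four group, class relations (non-crossing, with two
states in a class). If all classes in the directions `(1,0)` and `(0,1)` are balanced, also after
the change of the label of one good edge, then the weights vanish.
-/

set_option autoImplicit false

namespace Pool.Agent.Lib.MP_95e9b3_coG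

open Finset
open scoped symmDiff

/-- the state of a gap `e` -/
def sta {ι R : Type*} (D : ι → Finset R) (p : R → ZMod 2 × ZMod 2) (e : ι) :
    ZMod 2 × ZMod 2 := ∑ r ∈ D e, p r

/-- class relations in direction `a` -/
structure RelT {ι R : Type*} (D : ι → Finset R) (p : R → ZMod 2 × ZMod 2) (a : ZMod 2 × ZMod 2)
    (r : ι → ι → Prop) : Prop where
  refl : ∀ e, r e e
  symm : ∀ e f, r e f → r f e
  trans : ∀ e f h, r e f → r f h → r e h
  two : ∀ e f, r e f → (sta D p f = sta D p e ∨ sta D p f = sta D p e + a)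
  nc : ∀ e₁ e₂ e₃ e₄, D e₁ ⊂ D e₂ → D e₂ ⊂ D e₃ → D e₃ ⊂ D e₄ → r e₁ e₃ → r e₂ e₄ → r e₁ e₂

open Classical in
/-- the signed weight of the class of `e0` -/
noncomputable def Sv {ι R : Type*} [Fintype ι] (D : ι → Finset R) (w : ι → ℝ)
    (p : R → ZMod 2 × ZMod 2) (r : ι → ι → Prop) (e0 : ι) : ℝ :=
  ∑ e, if r e0 e then (if sta D p e = sta D p e0 then w e else - w e) else 0

private theorem z4_two (z : ZMod 2 × ZMod 2) : z + z = 0 := by
  revert z
  decide

private theorem z4_canc (a b : ZMod 2 × ZMod 2) : a + b + b = a := by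
  rw [add_assoc, z4_two, add_zero]

section fib

variable {ι R : Type*} [Fintype ι] (D : ι → Finset R)
  (p : R → ZMod 2 × ZMod 2)

open Classical in
/-- weight of the gaps of state `s` -/
noncomputable def fib (w : ι → ℝ) (s : ZMod 2 × ZMod 2) : ℝ :=
  ∑ e, if sta D p e = s then w e else 0

/-- balanced in direction `d`: opposite states have equal weights -/
theorem bal_fib (r : ι → ι → Prop) (d : ZMod 2 × ZMod 2) (hd : d ≠ 0) (w : ι → ℝ)
    (hS : RelT D p d r) (hb : ∀ e0, Sv D w p r e0 = 0) (s : ZMod 2 × ZMod 2) :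
    fib D p w s = fib D p w (s + d) := by
  classical
  have hds : s + d ≠ s := fun h => hd (by
    calc d = s + d + s := by rw [add_comm s d, add_assoc, z4_two, add_zero]
      _ = s + s := by rw [h]
      _ = 0 := z4_two s)
  -- size of a class
  obtain ⟨N, hN⟩ : ∃ N : ι → ℝ, N = fun e => ∑ f, if r e f then (1 : ℝ) else 0 := ⟨_, rfl⟩
  have hNpos : ∀ e, 0 < N e := by
    intro e
    rw [hN]
    refine Finset.sum_pos' (fun f _ => by split_ifs <;> norm_num) ⟨e, Finset.mem_univ e, ?_⟩
    rw [if_pos (hS.refl e)]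
    exact one_pos
  have hNeq : ∀ e f, r e f → N e = N f := by
    intro e f h
    rw [hN]
    refine Finset.sum_congr rfl fun x _ => ?_
    have : r e x ↔ r f x :=
      ⟨fun h1 => hS.trans _ _ _ (hS.symm _ _ h) h1, fun h1 => hS.trans _ _ _ h h1⟩
    rw [if_congr this rfl rfl]
  obtain ⟨ε, hε⟩ : ∃ ε : ι → ℝ, ε = fun e => (if sta D p e = s then (1 : ℝ) else 0) -
      (if sta D p e = s + d then 1 else 0) := ⟨_, rfl⟩
  have h0 : ∑ e, (N e)⁻¹ * ε e * Sv D w p r e = 0 :=
    Finset.sum_eq_zero fun e _ => by rw [hb e, mul_zero]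
  have h1 : ∑ e, (N e)⁻¹ * ε e * Sv D w p r e =
      ∑ f, ε f * w f := by
    have h2 : ∀ e, (N e)⁻¹ * ε e * Sv D w p r e =
        ∑ f, if r e f then (N f)⁻¹ * ε f * w f else 0 := by
      intro e
      unfold Sv
      rw [Finset.mul_sum]
      refine Finset.sum_congr rfl fun f _ => ?_
      by_cases hf : r e f
      · rw [if_pos hf, if_pos hf, hNeq e f hf, hε]
        show (N f)⁻¹ * ((if sta D p e = s then (1 : ℝ) else 0) -
          (if sta D p e = s + d then 1 else 0)) *
            (if sta D p f = sta D p e then w f else - w f) =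
          (N f)⁻¹ * ((if sta D p f = s then (1 : ℝ) else 0) -
          (if sta D p f = s + d then 1 else 0)) * w f
        rcases hS.two e f hf with h3 | h3
        · rw [if_pos h3, h3]
        · have h4 : sta D p f ≠ sta D p e := by
            intro h5
            rw [h5] at h3
            apply hd
            calc d = (sta D p e + d) + sta D p e := by
                  rw [add_comm (sta D p e) d, add_assoc, z4_two, add_zero]
              _ = sta D p e + sta D p e := by rw [← h3]
              _ = 0 := z4_two _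
          rw [if_neg h4, h3]
          by_cases h5 : sta D p e = s
          · have h6 : ¬ (sta D p e = s + d) := fun h => hds (by rw [← h, h5])
            have h7 : ¬ (sta D p e + d = s) := by rw [h5]; exact hds
            have h8 : sta D p e + d = s + d := by rw [h5]
            rw [if_pos h5, if_neg h6, if_neg h7, if_pos h8]
            ring
          · by_cases h6 : sta D p e = s + d
            · have h7 : sta D p e + d = s := by rw [h6, z4_canc]
              have h8 : ¬ (sta D p e + d = s + d) := fun h => h5 (add_right_cancel h)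
              rw [if_neg h5, if_pos h6, if_pos h7, if_neg h8]
              ring
            · have h7 : ¬ (sta D p e + d = s) := fun h => h6 (by rw [← h, z4_canc])
              have h8 : ¬ (sta D p e + d = s + d) := fun h => h5 (add_right_cancel h)
              rw [if_neg h5, if_neg h6, if_neg h7, if_neg h8]
              ring
      · rw [if_neg hf, if_neg hf, mul_zero]
    rw [Finset.sum_congr rfl fun e _ => h2 e, Finset.sum_comm]
    refine Finset.sum_congr rfl fun f _ => ?_
    have h3 : ∑ e, (if r e f then (N f)⁻¹ * ε f * w f else 0) =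
        ((N f)⁻¹ * ε f * w f) * N f := by
      have h4 : N f = ∑ e, if r e f then (1 : ℝ) else 0 := by
        rw [hN]
        refine Finset.sum_congr rfl fun e _ => ?_
        exact if_congr ⟨hS.symm _ _, hS.symm _ _⟩ rfl rfl
      obtain ⟨q, hq⟩ : ∃ q : ℝ, q = (N f)⁻¹ * ε f * w f := ⟨_, rfl⟩
      rw [← hq, h4, Finset.mul_sum]
      refine Finset.sum_congr rfl fun e _ => ?_
      split_ifs
      · rw [mul_one]
      · rw [mul_zero]
    rw [h3]
    have := (hNpos f).ne'
    field_simp
  have h2 : ∑ f, ε f * w f = fib D p w s - fib D p w (s + d) := by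
    unfold fib
    rw [← Finset.sum_sub_distrib, hε]
    refine Finset.sum_congr rfl fun f _ => ?_
    show ((if sta D p f = s then (1 : ℝ) else 0) - (if sta D p f = s + d then 1 else 0)) * w f =
      (if sta D p f = s then w f else 0) - (if sta D p f = s + d then w f else 0)
    rw [sub_mul, ite_mul, ite_mul, one_mul, zero_mul]
  rw [h0, h2] at h1
  linarith

end fib

section word

variable {α H : Type*} [Monoid H]

open Classical in
/-- sum of `u` over the elements of `L` related to `x` -/
noncomputable def csum (r : α → α → Prop) (u : α → ℝ) (L : List α) (x : α) : ℝ :=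
  (L.map (fun y => if r y x then u y else 0)).sum

theorem csum_nil (r : α → α → Prop) (u : α → ℝ) (x : α) : csum r u [] x = 0 := by
  unfold csum
  rw [List.map_nil, List.sum_nil]

theorem csum_cons (r : α → α → Prop) (u : α → ℝ) (y : α) (L : List α) (x : α) [Decidable (r y x)] :
    csum r u (y :: L) x = (if r y x then u y else 0) + csum r u L x := by
  unfold csum
  rw [List.map_cons, List.sum_cons]
  by_cases h : r y x
  · rw [if_pos h, if_pos h]
  · rw [if_neg h, if_neg h]

theorem csum_append (r : α → α → Prop) (u : α → ℝ) (L L' : List α) (x : α) :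
    csum r u (L ++ L') x = csum r u L x + csum r u L' x := by
  unfold csum
  rw [List.map_append, List.sum_append]

theorem csum_zero (r : α → α → Prop) (u : α → ℝ) (L : List α) (x : α)
    (h : ∀ y ∈ L, ¬ r y x) : csum r u L x = 0 := by
  classical
  induction L with
  | nil => exact csum_nil r u x
  | cons y L ih =>
    rw [csum_cons, if_neg (h y (List.mem_cons_self)), zero_add]
    exact ih fun z hz => h z (List.mem_cons_of_mem _ hz)

theorem csum_congr (r : α → α → Prop) (u u' : α → ℝ) (L : List α) (x : α)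
    (h : ∀ y ∈ L, r y x → u y = u' y) : csum r u L x = csum r u' L x := by
  classical
  induction L with
  | nil => rw [csum_nil, csum_nil]
  | cons y L ih =>
    rw [csum_cons, csum_cons, ih fun z hz => h z (List.mem_cons_of_mem _ hz)]
    by_cases hy : r y x
    · rw [if_pos hy, if_pos hy, h y (List.mem_cons_self) hy]
    · rw [if_neg hy, if_neg hy]

private theorem first_split (P : α → Prop) (L : List α) (h : ∃ y ∈ L, P y) :
    ∃ L1 y L2, L = L1 ++ y :: L2 ∧ P y ∧ ∀ z ∈ L1, ¬ P z := by
  classical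
  induction L with
  | nil =>
    obtain ⟨y, hy, -⟩ := h
    exact absurd hy (List.not_mem_nil)
  | cons x L ih =>
    by_cases hx : P x
    · exact ⟨[], x, L, rfl, hx, fun z hz => absurd hz (List.not_mem_nil)⟩
    · obtain ⟨y, hy, hPy⟩ := h
      rw [List.mem_cons] at hy
      rcases hy with hy | hy
      · rw [hy] at hPy
        exact absurd hPy hx
      · obtain ⟨L1, z, L2, h1, h2, h3⟩ := ih ⟨y, hy, hPy⟩
        refine ⟨x :: L1, z, L2, by rw [h1]; rfl, h2, ?_⟩
        intro t ht
        rw [List.mem_cons] at ht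
        rcases ht with ht | ht
        · rw [ht]; exact hx
        · exact h3 t ht

/-- the word of a balanced non-crossing family is trivial -/
theorem word_one (A : ZMod 2 → ℝ → H) (hA0 : ∀ τ, A τ 0 = 1)
    (hAdd : ∀ τ s t, A τ (s + t) = A τ s * A τ t)
    (r : α → α → Prop) (hrefl : ∀ x, r x x) (hsymm : ∀ x y, r x y → r y x)
    (htrans : ∀ x y z, r x y → r y z → r x z)
    (τ : α → ZMod 2) (hτ : ∀ x y, r x y → τ x = τ y)
    (lt : α → α → Prop)
    (hnc : ∀ x y z t, lt x y → lt y z → lt z t → r x z → r y t → r x y) :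
    ∀ (n : ℕ) (L : List α) (u : α → ℝ), L.length ≤ n → L.Nodup → L.Pairwise lt →
      (∀ x ∈ L, csum r u L x = 0) → (L.map (fun e => A (τ e) (u e))).prod = 1 := by
  classical
  intro n
  induction n with
  | zero =>
    intro L u hL _ _ _
    have h1 : L = [] := List.eq_nil_of_length_eq_zero (Nat.le_zero.1 hL)
    rw [h1, List.map_nil, List.prod_nil]
  | succ n ih =>
    intro L u hL hnd hpw hc
    cases L with
    | nil => rw [List.map_nil, List.prod_nil]
    | cons x L' =>
      rw [List.nodup_cons] at hnd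
      rw [List.pairwise_cons] at hpw
      rw [List.length_cons] at hL
      by_cases hex : ∃ y ∈ L', r y x
      · obtain ⟨L1, y, L2, hsp, hyx, hno⟩ := first_split (fun y => r y x) L' hex
        subst hsp
        have hnd2 := hnd.2
        rw [List.nodup_append] at hnd2
        obtain ⟨nd1, nd2, nd3⟩ := hnd2
        have hpw2 := hpw.2
        rw [List.pairwise_append] at hpw2
        obtain ⟨pw1, pw2, pw3⟩ := hpw2
        rw [List.nodup_cons] at nd2
        rw [List.pairwise_cons] at pw2
        rw [List.length_append, List.length_cons] at hL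
        -- elements of `L1` and of `y :: L2` are not related
        have hsep : ∀ z ∈ L1, ∀ t ∈ y :: L2, ¬ r z t := by
          intro z hz t ht hzt
          rw [List.mem_cons] at ht
          rcases ht with ht | ht
          · rw [ht] at hzt
            exact hno z hz (htrans _ _ _ hzt hyx)
          · have h1 : r x z := hnc x z y t (hpw.1 z (List.mem_append_left _ hz))
              (pw3 z hz y (List.mem_cons_self)) (pw2.1 t ht) (hsymm _ _ hyx) hzt
            exact hno z hz (hsymm _ _ h1)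
        -- the part `L1`
        have h1 : (L1.map (fun e => A (τ e) (u e))).prod = 1 := by
          refine ih L1 u (by omega) nd1 pw1 fun z hz => ?_
          have h2 := hc z (List.mem_cons_of_mem _ (List.mem_append_left _ hz))
          rw [csum_cons, csum_append, if_neg (fun h => hno z hz (hsymm _ _ h)), zero_add,
            csum_zero r u (y :: L2) z (fun t ht h => hsep z hz t ht (hsymm _ _ h)), add_zero] at h2
          exact h2
        -- the part `y :: L2` with changed weight of `y`
        obtain ⟨u', hu'⟩ : ∃ u' : α → ℝ, u' = fun z => if z = y then u x + u y else u z :=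
          ⟨_, rfl⟩
        have hu'y : u' y = u x + u y := by
          rw [hu']
          show (if y = y then u x + u y else u y) = _
          rw [if_pos rfl]
        have hu'n : ∀ z ∈ L2, u' z = u z := by
          intro z hz
          have hzy : z ≠ y := fun h => nd2.1 (by rw [← h]; exact hz)
          rw [hu']
          show (if z = y then u x + u y else u z) = _
          rw [if_neg hzy]
        have h2 : (((y :: L2)).map (fun e => A (τ e) (u' e))).prod = 1 := by
          refine ih (y :: L2) u' (by rw [List.length_cons]; omega)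
            (List.nodup_cons.2 nd2) (List.pairwise_cons.2 pw2) fun z hz => ?_
          have h3 := hc z (List.mem_cons_of_mem _ (List.mem_append_right _ hz))
          rw [csum_cons, csum_append, csum_zero r u L1 z (fun t ht => hsep t ht z hz), zero_add,
            csum_cons] at h3
          rw [csum_cons, csum_congr r u' u L2 z (fun t ht _ => hu'n t ht)]
          by_cases hzx : r x z
          · rw [if_pos hzx, if_pos (htrans _ _ _ hyx hzx)] at h3
            rw [if_pos (htrans _ _ _ hyx hzx), hu'y]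
            linarith
          · have hyz : ¬ r y z := fun h => hzx (htrans _ _ _ (hsymm _ _ hyx) h)
            rw [if_neg hzx, if_neg hyz] at h3
            rw [if_neg hyz]
            linarith
        rw [List.map_cons, List.prod_cons, hu'y, hAdd,
          List.map_congr_left (g := fun e => A (τ e) (u e)) (fun z hz => by
            show A (τ z) (u' z) = A (τ z) (u z)
            rw [hu'n z hz])] at h2
        rw [List.map_cons, List.prod_cons, List.map_append, List.prod_append, h1, one_mul,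
          List.map_cons, List.prod_cons, ← mul_assoc, hτ x y (hsymm _ _ hyx)]
        exact h2
      · have hno : ∀ y ∈ L', ¬ r y x := fun y hy h => hex ⟨y, hy, h⟩
        have h1 := hc x (List.mem_cons_self)
        rw [csum_cons, if_pos (hrefl x), csum_zero r u L' x hno, add_zero] at h1
        rw [List.map_cons, List.prod_cons, h1, hA0, one_mul]
        refine ih L' u (by omega) hnd.2 hpw.2 fun z hz => ?_
        have h2 := hc z (List.mem_cons_of_mem _ hz)
        rw [csum_cons, if_neg (fun h => hno z hz (hsymm _ _ h)), zero_add] at h2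
        exact h2

end word

section mats

/-- unipotent matrices -/
def mt (τ : ZMod 2) (t : ℝ) : Matrix (Fin 2) (Fin 2) ℝ :=
  if τ = 0 then !![1, t; 0, 1] else !![1, 0; t, 1]

theorem mt_zero (τ : ZMod 2) : mt τ 0 = 1 := by
  unfold mt
  split_ifs
  · exact Matrix.one_fin_two.symm
  · exact Matrix.one_fin_two.symm

theorem mt_add (τ : ZMod 2) (s t : ℝ) : mt τ (s + t) = mt τ s * mt τ t := by
  unfold mt
  split_ifs
  · rw [Matrix.mul_fin_two]
    norm_num
    ring
  · rw [Matrix.mul_fin_two]
    norm_num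

/-- exchange of the two coordinates -/
def swm (M : Matrix (Fin 2) (Fin 2) ℝ) : Matrix (Fin 2) (Fin 2) ℝ :=
  !![M 1 1, M 1 0; M 0 1, M 0 0]

theorem swm_mul (M N : Matrix (Fin 2) (Fin 2) ℝ) : swm (M * N) = swm M * swm N := by
  unfold swm
  rw [Matrix.mul_fin_two, Matrix.mul_apply, Matrix.mul_apply, Matrix.mul_apply, Matrix.mul_apply,
    Fin.sum_univ_two, Fin.sum_univ_two, Fin.sum_univ_two, Fin.sum_univ_two,
    add_comm (M 1 0 * N 0 1), add_comm (M 1 0 * N 0 0), add_comm (M 0 0 * N 0 1),
    add_comm (M 0 0 * N 0 0)]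

theorem swm_one : swm 1 = 1 := by
  unfold swm
  rw [Matrix.one_apply_eq, Matrix.one_apply_eq, Matrix.one_apply_ne (by decide),
    Matrix.one_apply_ne (by decide)]
  exact Matrix.one_fin_two.symm

theorem swm_mt (τ : ZMod 2) (t : ℝ) : swm (mt τ t) = mt (τ + 1) t := by
  unfold swm mt
  have h : ∀ τ : ZMod 2, (τ = 0 ∧ ¬ (τ + 1 = 0)) ∨ (¬ (τ = 0) ∧ τ + 1 = 0) := by decide
  rcases h τ with ⟨h1, h2⟩ | ⟨h1, h2⟩
  · rw [if_pos h1, if_neg h2]
    simp
  · rw [if_neg h1, if_pos h2]
    simp

theorem swm_list {α : Type*} (L : List α) (τ : α → ZMod 2) (u : α → ℝ) :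
    swm ((L.map (fun e => mt (τ e) (u e))).prod) = (L.map (fun e => mt (τ e + 1) (u e))).prod := by
  induction L with
  | nil => rw [List.map_nil, List.map_nil, List.prod_nil, swm_one]
  | cons x L ih => rw [List.map_cons, List.map_cons, List.prod_cons, List.prod_cons, swm_mul, ih,
      swm_mt]

private theorem fix_eq (W : Matrix (Fin 2) (Fin 2) ℝ) (a b c d : ℝ) (hW : W = !![a, b; c, d])
    (h : swm W = W) : a = d ∧ b = c := by
  rw [hW] at h
  unfold swm at h
  have h1 := congr_fun (congr_fun h 0) 0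
  have h2 := congr_fun (congr_fun h 0) 1
  simp at h1 h2
  exact ⟨h1.symm, h2.symm⟩

private theorem z2c (τ : ZMod 2) : τ = 0 ∨ τ = 1 := by
  revert τ
  decide

/-- total weight of the letters of type `c` -/
def tyw (c : ZMod 2) (L : List (ZMod 2 × ℝ)) : ℝ :=
  (L.map (fun x => if x.1 = c then x.2 else 0)).sum

private theorem ne_mul {a b : ℝ} (h : (0 < a ∧ 0 < b) ∨ (a < 0 ∧ b < 0)) : a * b ≠ 0 := by
  rcases h with h | h
  · exact (mul_pos h.1 h.2).ne'
  · exact (mul_pos_of_neg_of_neg h.1 h.2).ne'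

/-- a short word with letters of the same sign is not symmetric -/
theorem short_word (L : List (ZMod 2 × ℝ)) (hne : L ≠ []) (hlen : L.length ≤ 3)
    (hsg : (∀ x ∈ L, 0 < x.2) ∨ (∀ x ∈ L, x.2 < 0)) (hbal : tyw 0 L = tyw 1 L)
    (h : swm ((L.map (fun x => mt x.1 x.2)).prod) = (L.map (fun x => mt x.1 x.2)).prod) :
    False := by
  unfold tyw at hbal
  match L, hne, hlen, hsg, hbal, h with
  | [], hne, _, _, _, _ => exact hne rfl
  | [x], _, _, hsg, hbal, _ =>
    have hx : x.2 ≠ 0 := by
      rcases hsg with h | h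
      · exact (h x (by simp)).ne'
      · exact (h x (by simp)).ne
    rcases z2c x.1 with h1 | h1
    · simp [h1] at hbal
      exact hx hbal
    · simp [h1] at hbal
      exact hx hbal.symm
  | [x, y], _, _, hsg, hbal, h =>
    have hxy : (0 < x.2 ∧ 0 < y.2) ∨ (x.2 < 0 ∧ y.2 < 0) := by
      rcases hsg with h | h
      · exact Or.inl ⟨h x (by simp), h y (by simp)⟩
      · exact Or.inr ⟨h x (by simp), h y (by simp)⟩
    obtain ⟨τ1, u1⟩ := x
    obtain ⟨τ2, u2⟩ := y
    simp only [List.map_cons, List.map_nil, List.prod_cons, List.prod_nil, mul_one,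
      List.sum_cons, List.sum_nil, add_zero] at h hbal hxy
    have hm := ne_mul hxy
    rcases z2c τ1 with h1 | h1 <;> rcases z2c τ2 with h2 | h2 <;> subst h1 <;> subst h2
    · simp at hbal
      rcases hxy with h3 | h3 <;> linarith
    · obtain ⟨h3, -⟩ := fix_eq _ (1 + u1 * u2) u1 u2 1 (by simp [mt]) h
      exact hm (by linarith)
    · obtain ⟨h3, -⟩ := fix_eq _ 1 u2 u1 (u1 * u2 + 1) (by simp [mt]) h
      exact hm (by linarith)
    · simp at hbal
      rcases hxy with h3 | h3 <;> linarith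
  | [x, y, z], _, _, hsg, hbal, h =>
    have hxy : (0 < x.2 ∧ 0 < y.2 ∧ 0 < z.2) ∨ (x.2 < 0 ∧ y.2 < 0 ∧ z.2 < 0) := by
      rcases hsg with h | h
      · exact Or.inl ⟨h x (by simp), h y (by simp), h z (by simp)⟩
      · exact Or.inr ⟨h x (by simp), h y (by simp), h z (by simp)⟩
    obtain ⟨τ1, u1⟩ := x
    obtain ⟨τ2, u2⟩ := y
    obtain ⟨τ3, u3⟩ := z
    simp only [List.map_cons, List.map_nil, List.prod_cons, List.prod_nil, mul_one,
      List.sum_cons, List.sum_nil, add_zero] at h hbal hxy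
    have m12 : u1 * u2 ≠ 0 := by
      rcases hxy with h | h
      · exact (mul_pos h.1 h.2.1).ne'
      · exact (mul_pos_of_neg_of_neg h.1 h.2.1).ne'
    have m1 : u1 ≠ 0 := left_ne_zero_of_mul m12
    have m2 : u2 ≠ 0 := right_ne_zero_of_mul m12
    have m3 : u3 ≠ 0 := by
      rcases hxy with h | h
      · exact h.2.2.ne'
      · exact h.2.2.ne
    rcases z2c τ1 with h1 | h1 <;> rcases z2c τ2 with h2 | h2 <;> rcases z2c τ3 with h3 | h3 <;>
      subst h1 <;> subst h2 <;> subst h3
    · simp at hbal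
      rcases hxy with h3 | h3 <;> linarith
    · -- A A B
      obtain ⟨h3, -⟩ := fix_eq _ (1 + (u1 + u2) * u3) (u1 + u2) u3 1 (by
        rw [← mul_assoc, ← mt_add]; simp [mt]) h
      simp at hbal
      rw [hbal] at h3
      have : u3 * u3 = 0 := by linarith
      exact m3 (mul_self_eq_zero.1 this)
    · -- A B A
      obtain ⟨h3, h4⟩ := fix_eq _ (1 + u1 * u2) (u3 + u1 * u2 * u3 + u1) u2 (u2 * u3 + 1) (by
        simp [mt]; ring) h
      simp at hbal
      have : u1 * u2 * u3 = 0 := by linarith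
      exact (mul_ne_zero m12 m3) this
    · -- A B B
      obtain ⟨h3, -⟩ := fix_eq _ (1 + u1 * (u2 + u3)) u1 (u2 + u3) 1 (by
        rw [← mt_add]; simp [mt]) h
      simp at hbal
      rw [← hbal] at h3
      have : u1 * u1 = 0 := by linarith
      exact m1 (mul_self_eq_zero.1 this)
    · -- B A A
      obtain ⟨h3, -⟩ := fix_eq _ 1 (u2 + u3) u1 (u1 * (u2 + u3) + 1) (by
        rw [← mt_add]; simp [mt]) h
      simp at hbal
      rw [hbal] at h3
      have : u1 * u1 = 0 := by linarith
      exact m1 (mul_self_eq_zero.1 this)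
    · -- B A B
      obtain ⟨h3, h4⟩ := fix_eq _ (u2 * u3 + 1) u2 (u3 + u1 * u2 * u3 + u1) (1 + u1 * u2) (by
        simp [mt]
        refine ⟨?_, ?_, ?_⟩ <;> ring) h
      simp at hbal
      have : u1 * u2 * u3 = 0 := by linarith
      exact (mul_ne_zero m12 m3) this
    · -- B B A
      obtain ⟨h3, -⟩ := fix_eq _ 1 u3 (u1 + u2) ((u1 + u2) * u3 + 1) (by
        rw [← mul_assoc, ← mt_add]; simp [mt]) h
      simp at hbal
      rw [← hbal] at h3
      have : u3 * u3 = 0 := by linarith
      exact m3 (mul_self_eq_zero.1 this)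
    · simp at hbal
      rcases hxy with h3 | h3 <;> linarith
  | (x :: y :: z :: t :: L), _, hlen, _, _, _ =>
    simp only [List.length_cons] at hlen
    omega

end mats

section seven

variable {ι R : Type*} [Fintype ι] (D : ι → Finset R)

/-- exactly four positive gaps: not balanced in the direction `st e₁ + st e₃` -/
theorem L7b (w : ι → ℝ) (p : R → ZMod 2 × ZMod 2) (a : ZMod 2 × ZMod 2) (r : ι → ι → Prop)
    (hr : RelT D p a r) (e₁ e₂ e₃ e₄ : ι) (h12 : D e₁ ⊂ D e₂) (h23 : D e₂ ⊂ D e₃)
    (h34 : D e₃ ⊂ D e₄) (hw0 : ∀ e, 0 ≤ w e) (w1 : 0 < w e₁) (w2 : 0 < w e₂)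
    (hpos : ∀ e, 0 < w e → e = e₁ ∨ e = e₂ ∨ e = e₃ ∨ e = e₄)
    (d12 : sta D p e₁ ≠ sta D p e₂) (d14 : sta D p e₁ ≠ sta D p e₄)
    (d23 : sta D p e₂ ≠ sta D p e₃)
    (s13 : sta D p e₃ = sta D p e₁ + a) (s24 : sta D p e₄ = sta D p e₂ + a)
    (hb : ∀ e, Sv D w p r e = 0) : False := by
  classical
  have key : ∀ x y : ι, 0 < w x → (∀ e, 0 < w e → e ≠ x → e ≠ y → ¬ r x e) →
      r x y := by
    intro x y hx h
    by_contra hxy
    have h1 := hb x
    unfold Sv at h1
    have h2 : 0 < ∑ e, if r x e then (if sta D p e = sta D p x then w e else - w e) else 0 := by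
      refine Finset.sum_pos' (fun e _ => ?_) ⟨x, Finset.mem_univ x, ?_⟩
      · by_cases he : r x e
        · rw [if_pos he]
          rcases (hw0 e).eq_or_lt with h3 | h3
          · rw [← h3]; simp
          · by_cases h4 : e = x
            · rw [h4, if_pos rfl]; exact hx.le
            · exfalso
              by_cases h5 : e = y
              · rw [h5] at he; exact hxy he
              · exact h e h3 h4 h5 he
        · rw [if_neg he]
      · rw [if_pos (hr.refl x), if_pos rfl]; exact hx
    rw [h1] at h2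
    exact lt_irrefl _ h2
  have r13 : r e₁ e₃ := by
    refine key e₁ e₃ w1 ?_
    intro e he n1 n3 hre
    rcases hpos e he with h | h | h | h
    · exact n1 h
    · rw [h] at hre
      rcases hr.two _ _ hre with h5 | h5
      · exact d12 h5.symm
      · rw [← s13] at h5
        exact d23 h5
    · exact n3 h
    · rw [h] at hre
      rcases hr.two _ _ hre with h5 | h5
      · exact d14 h5.symm
      · rw [s24] at h5
        exact d12 (add_right_cancel h5).symm
  have r24 : r e₂ e₄ := by
    refine key e₂ e₄ w2 ?_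
    intro e he n1 n3 hre
    rcases hpos e he with h | h | h | h
    · rw [h] at hre
      rcases hr.two _ _ hre with h5 | h5
      · exact d12 h5
      · rw [← s24] at h5
        exact d14 h5
    · exact n1 h
    · rw [h] at hre
      rcases hr.two _ _ hre with h5 | h5
      · exact d23 h5.symm
      · rw [s13] at h5
        exact d12 (add_right_cancel h5)
    · exact n3 h
  have r12 := hr.nc e₁ e₂ e₃ e₄ h12 h23 h34 r13 r24
  rcases hr.two _ _ r12 with h5 | h5
  · exact d12 h5.symm
  · rw [← s13] at h5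
    exact d23 h5

open Classical in
/-- restriction of the weights to a union of classes -/
noncomputable def res (w : ι → ℝ) (I : ι → Prop) (e : ι) : ℝ := if I e then w e else 0

theorem res_bal (w : ι → ℝ) (p : R → ZMod 2 × ZMod 2) (r : ι → ι → Prop) (I : ι → Prop)
    (hI : ∀ e f, r e f → (I e ↔ I f)) (hb : ∀ e, Sv D w p r e = 0) :
    ∀ e, Sv D (res w I) p r e = 0 := by
  classical
  intro e
  by_cases he : I e
  · rw [← hb e]
    unfold Sv res
    refine Finset.sum_congr rfl fun f _ => ?_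
    by_cases hf : r e f
    · rw [if_pos hf, if_pos hf, if_pos ((hI e f hf).1 he)]
    · rw [if_neg hf, if_neg hf]
  · unfold Sv res
    refine Finset.sum_eq_zero fun f _ => ?_
    by_cases hf : r e f
    · rw [if_pos hf, if_neg (fun h => he ((hI e f hf).2 h)), neg_zero, ite_self]
    · rw [if_neg hf]

/-- sign of the second coordinate -/
noncomputable def sg2 (z : ZMod 2) : ℝ := if z = 0 then 1 else -1

theorem sg2_ne (z : ZMod 2) : sg2 z ≠ 0 := by
  unfold sg2
  split_ifs
  · exact one_ne_zero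
  · exact neg_ne_zero.2 one_ne_zero

/-- the matrix of a gap -/
noncomputable def mg (p : R → ZMod 2 × ZMod 2) (w : ι → ℝ) (e : ι) :
    Matrix (Fin 2) (Fin 2) ℝ :=
  mt (sta D p e).1 (sg2 (sta D p e).2 * w e)

private theorem list_sum_pos {α : Type*} (L : List α) (f : α → ℝ) (hf : ∀ x ∈ L, 0 ≤ f x) (x : α)
    (hx : x ∈ L) : f x ≤ (L.map f).sum := by
  induction L with
  | nil => exact absurd hx (List.not_mem_nil)
  | cons y L ih =>
    rw [List.map_cons, List.sum_cons]
    rw [List.mem_cons] at hx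
    rcases hx with hx | hx
    · rw [hx]
      have : 0 ≤ (L.map f).sum := List.sum_nonneg (by
        intro z hz
        rw [List.mem_map] at hz
        obtain ⟨t, ht, rfl⟩ := hz
        exact hf t (List.mem_cons_of_mem _ ht))
      linarith
    · have h1 := ih (fun z hz => hf z (List.mem_cons_of_mem _ hz)) hx
      have h2 := hf y (List.mem_cons_self)
      linarith

/-- a short word of positive gaps is not symmetric -/
theorem short_contra (p : R → ZMod 2 × ZMod 2) (w : ι → ℝ) (L : List ι) (hne : L ≠ [])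
    (hlen : L.length ≤ 3) (hw : ∀ e ∈ L, 0 < w e)
    (hfib : ∀ s : ZMod 2 × ZMod 2,
      (L.map (fun e => if sta D p e = s then w e else 0)).sum =
      (L.map (fun e => if sta D p e = s + (1, 0) then w e else 0)).sum)
    (h : swm ((L.map (mg D p w)).prod) = (L.map (mg D p w)).prod) : False := by
  classical
  have hpart : ∀ e ∈ L, ∃ f ∈ L, sta D p f = sta D p e + (1, 0) := by
    intro e he
    by_contra hno
    have h1 := list_sum_pos L (fun f => if sta D p f = sta D p e then w f else 0)
      (fun f hf => by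
        show 0 ≤ (if sta D p f = sta D p e then w f else 0)
        split_ifs
        · exact (hw f hf).le
        · exact le_refl _) e he
    rw [hfib] at h1
    have h2 : (L.map (fun f => if sta D p f = sta D p e + (1, 0) then w f else 0)).sum = 0 := by
      refine List.sum_eq_zero fun x hx => ?_
      rw [List.mem_map] at hx
      obtain ⟨f, hf, rfl⟩ := hx
      rw [if_neg]
      exact fun h3 => hno ⟨f, hf, h3⟩
    rw [h2] at h1
    have h3 : (if sta D p e = sta D p e then w e else 0) ≤ 0 := h1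
    rw [if_pos rfl] at h3
    exact absurd (hw e he) (not_lt.2 h3)
  obtain ⟨e0, he0⟩ := List.exists_mem_of_ne_nil L hne
  have hy : ∀ e ∈ L, (sta D p e).2 = (sta D p e0).2 := by
    intro e he
    by_contra hne2
    obtain ⟨e', he', h1⟩ := hpart e he
    obtain ⟨e0', he0', h2⟩ := hpart e0 he0
    have h3 : (univ : Finset (ZMod 2 × ZMod 2)) ⊆ L.toFinset.image (sta D p) := by
      have hdec : ∀ a b z : ZMod 2 × ZMod 2, a.2 ≠ b.2 → z = a ∨ z = a + (1, 0) ∨ z = b ∨
          z = b + (1, 0) := by decide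
      intro z _
      rw [Finset.mem_image]
      rcases hdec _ _ z hne2 with h4 | h4 | h4 | h4
      · exact ⟨e, List.mem_toFinset.2 he, h4.symm⟩
      · exact ⟨e', List.mem_toFinset.2 he', by rw [h1, h4]⟩
      · exact ⟨e0, List.mem_toFinset.2 he0, h4.symm⟩
      · exact ⟨e0', List.mem_toFinset.2 he0', by rw [h2, h4]⟩
    have h4 := Finset.card_le_card h3
    have h5 : (univ : Finset (ZMod 2 × ZMod 2)).card = 4 := by decide
    have h6 := Finset.card_image_le (s := L.toFinset) (f := sta D p)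
    have h7 := List.toFinset_card_le L
    omega
  obtain ⟨y, hyd⟩ : ∃ y : ZMod 2, y = (sta D p e0).2 := ⟨_, rfl⟩
  rw [← hyd] at hy
  obtain ⟨L', hL'⟩ : ∃ L' : List (ZMod 2 × ℝ),
      L' = L.map (fun e => ((sta D p e).1, sg2 (sta D p e).2 * w e)) := ⟨_, rfl⟩
  have hmap : (L'.map (fun x => mt x.1 x.2)).prod = (L.map (mg D p w)).prod := by
    rw [hL', List.map_map]
    rfl
  have hty : ∀ c : ZMod 2, tyw c L' = sg2 y *
      (L.map (fun e => if sta D p e = (c, y) then w e else 0)).sum := by
    intro c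
    unfold tyw
    rw [hL', List.map_map]
    have h1 : ∀ M : List ι, (∀ e ∈ M, (sta D p e).2 = y) →
        (M.map ((fun x : ZMod 2 × ℝ => if x.1 = c then x.2 else 0) ∘
          fun e => ((sta D p e).1, sg2 (sta D p e).2 * w e))).sum = sg2 y *
        (M.map (fun e => if sta D p e = (c, y) then w e else 0)).sum := by
      intro M
      induction M with
      | nil => intro _; simp
      | cons x M ih =>
        intro hM
        rw [List.map_cons, List.map_cons, List.sum_cons, List.sum_cons,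
          ih fun e he => hM e (List.mem_cons_of_mem _ he), mul_add]
        congr 1
        have hx := hM x (List.mem_cons_self)
        show (if (sta D p x).1 = c then sg2 (sta D p x).2 * w x else 0) =
          sg2 y * (if sta D p x = (c, y) then w x else 0)
        by_cases hc : (sta D p x).1 = c
        · have h2 : sta D p x = (c, y) := Prod.ext hc hx
          rw [if_pos hc, if_pos h2, hx]
        · have h2 : sta D p x ≠ (c, y) := fun h3 => hc (by rw [h3])
          rw [if_neg hc, if_neg h2, mul_zero]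
    exact h1 L hy
  refine short_word L' ?_ ?_ ?_ ?_ ?_
  · rw [hL']
    intro h1
    exact hne (List.map_eq_nil_iff.1 h1)
  · rw [hL', List.length_map]
    exact hlen
  · by_cases hy0 : y = 0
    · left
      intro x hx
      rw [hL', List.mem_map] at hx
      obtain ⟨e, he, rfl⟩ := hx
      show 0 < sg2 (sta D p e).2 * w e
      rw [hy e he, sg2, if_pos hy0, one_mul]
      exact hw e he
    · right
      intro x hx
      rw [hL', List.mem_map] at hx
      obtain ⟨e, he, rfl⟩ := hx
      show sg2 (sta D p e).2 * w e < 0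
      rw [hy e he, sg2, if_neg hy0]
      have := hw e he
      linarith
  · rw [hty 0, hty 1, hfib (0, y)]
    congr 1
    have : ((0 : ZMod 2), y) + (1, 0) = (1, y) := by
      ext <;> simp
    rw [this]
  · rw [hmap]
    exact h

theorem prod_filter (p : R → ZMod 2 × ZMod 2) (w : ι → ℝ) (hw : ∀ e, 0 ≤ w e) (L : List ι)
    [DecidablePred (fun e : ι => 0 < w e)] :
    (L.map (mg D p w)).prod = ((L.filter (fun e => decide (0 < w e))).map (mg D p w)).prod := by
  induction L with
  | nil => rfl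
  | cons x L ih =>
    by_cases hx : 0 < w x
    · rw [List.filter_cons_of_pos (by simpa using hx), List.map_cons, List.prod_cons,
        List.map_cons, List.prod_cons, ih]
    · have h0 : w x = 0 := le_antisymm (not_lt.1 hx) (hw x)
      rw [List.filter_cons_of_neg (by simpa using hx), List.map_cons, List.prod_cons, ih]
      have : mg D p w x = 1 := by
        unfold mg
        rw [h0, mul_zero, mt_zero]
      rw [this, one_mul]

/-- the list of the gaps in the order of the chain -/
theorem sorted_list (hch : ∀ e f, D e ⊆ D f ∨ D f ⊆ D e) (hinj : Function.Injective D) :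
    ∃ L : List ι, L.Nodup ∧ (∀ e, e ∈ L) ∧ L.Pairwise (fun e f => D e ⊂ D f) := by
  classical
  have hpos : Function.Injective (fun e => (D e).card) := by
    intro e f h
    have h' : (D e).card = (D f).card := h
    rcases hch e f with h1 | h1
    · exact hinj (Finset.eq_of_subset_of_card_le h1 (le_of_eq h'.symm))
    · exact (hinj (Finset.eq_of_subset_of_card_le h1 (le_of_eq h'))).symm
  let _ : LinearOrder ι := LinearOrder.lift' (fun e => (D e).card) hpos
  refine ⟨(univ : Finset ι).sort (· ≤ ·), Finset.sort_nodup _ _,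
    fun e => (Finset.mem_sort _).2 (Finset.mem_univ e), ?_⟩
  have h1 : ((univ : Finset ι).sort (· ≤ ·)).Pairwise (· < ·) := by
    exact (Finset.sortedLT_sort _).pairwise
  refine h1.imp ?_
  intro e f hef
  have h2 : (D e).card < (D f).card := hef
  rcases hch e f with h3 | h3
  · exact ⟨h3, fun h4 => absurd (Finset.card_le_card h4) (not_le.2 h2)⟩
  · exact absurd (Finset.card_le_card h3) (not_le.2 h2)

end seven

section arcs

variable {ι R : Type*} [Fintype ι] (D : ι → Finset R)

/-- the word of a balanced family is trivial -/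
theorem word_bal (p : R → ZMod 2 × ZMod 2) (w : ι → ℝ) (r : ι → ι → Prop)
    (hr : RelT D p (0, 1) r) (hb : ∀ e, Sv D w p r e = 0) (L : List ι) (hnd : L.Nodup)
    (hmem : ∀ e, e ∈ L) (hpw : L.Pairwise (fun e f => D e ⊂ D f)) :
    (L.map (mg D p w)).prod = 1 := by
  classical
  have hs1 : ∀ e f, r e f → (sta D p e).1 = (sta D p f).1 := by
    intro e f h
    rcases hr.two e f h with h1 | h1
    · rw [h1]
    · rw [h1]
      show (sta D p e).1 = (sta D p e).1 + 0
      rw [add_zero]
  refine word_one (H := Matrix (Fin 2) (Fin 2) ℝ) mt mt_zero mt_add r hr.refl hr.symm hr.trans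
    (fun e => (sta D p e).1) hs1 (fun e f => D e ⊂ D f)
    (fun x y z t h1 h2 h3 h4 h5 => hr.nc x y z t h1 h2 h3 h4 h5) L.length L
    (fun e => sg2 (sta D p e).2 * w e) (le_refl _) hnd hpw ?_
  intro x _
  have h1 : csum r (fun e => sg2 (sta D p e).2 * w e) L x = sg2 (sta D p x).2 * Sv D w p r x := by
    unfold csum
    have h2 : ∀ f : ι → ℝ, (L.map f).sum = ∑ e, f e := by
      intro f
      rw [← List.sum_toFinset f hnd]
      refine Finset.sum_congr ?_ fun _ _ => rfl
      ext e
      rw [List.mem_toFinset]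
      exact ⟨fun _ => Finset.mem_univ e, fun _ => hmem e⟩
    rw [h2]
    unfold Sv
    rw [Finset.mul_sum]
    refine Finset.sum_congr rfl fun e _ => ?_
    by_cases hex : r e x
    · rw [if_pos hex, if_pos (hr.symm _ _ hex)]
      show sg2 (sta D p e).2 * w e = _
      rcases hr.two x e (hr.symm _ _ hex) with h3 | h3
      · rw [if_pos h3, h3]
      · have h4 : sta D p e ≠ sta D p x := by
          rw [h3]
          intro h5
          have h6 : ∀ z : ZMod 2 × ZMod 2, z + (0, 1) ≠ z := by decide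
          exact h6 _ h5
        rw [if_neg h4, h3]
        have h5 : sg2 (sta D p x + (0, 1)).2 = - sg2 (sta D p x).2 := by
          show sg2 ((sta D p x).2 + 1) = _
          have h6 : ∀ z : ZMod 2, (z = 0 ∧ ¬ z + 1 = 0) ∨ (¬ z = 0 ∧ z + 1 = 0) := by decide
          unfold sg2
          rcases h6 (sta D p x).2 with ⟨h7, h8⟩ | ⟨h7, h8⟩
          · rw [if_pos h7, if_neg h8]
          · rw [if_neg h7, if_pos h8, neg_neg]
        rw [h5]
        ring
    · rw [if_neg hex, if_neg (fun h => hex (hr.symm _ _ h)), mul_zero]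
  rw [h1, hb x, mul_zero]

/-- splitting a list at a downward closed property -/
theorem split_down {α : Type*} (L : List α) (P : α → Prop) [DecidablePred P]
    (h : L.Pairwise (fun x y => P y → P x)) :
    L = L.filter (fun x => decide (P x)) ++ L.filter (fun x => decide (¬ P x)) := by
  induction L with
  | nil => rfl
  | cons x L ih =>
    rw [List.pairwise_cons] at h
    by_cases hx : P x
    · rw [List.filter_cons_of_pos (by simpa using hx), List.filter_cons_of_neg (by simpa using hx),
        List.cons_append, ← ih h.2]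
    · have h1 : ∀ y ∈ L, ¬ P y := fun y hy hPy => hx (h.1 y hy hPy)
      rw [List.filter_cons_of_neg (by simpa using hx), List.filter_cons_of_pos (by simpa using hx)]
      have h2 : L.filter (fun x => decide (P x)) = [] := by
        rw [List.filter_eq_nil_iff]
        intro y hy
        simpa using h1 y hy
      have h3 : L.filter (fun x => decide (¬ P x)) = L := by
        rw [List.filter_eq_self]
        intro y hy
        simpa using h1 y hy
      rw [h2, h3, List.nil_append]

/-- sum over the list of all positive elements of `I` -/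
theorem list_fib (p : R → ZMod 2 × ZMod 2) (w : ι → ℝ) (hw : ∀ e, 0 ≤ w e) (I : ι → Prop)
    (L : List ι) (hnd : L.Nodup) (hmem : ∀ e, e ∈ L ↔ (I e ∧ 0 < w e)) (s : ZMod 2 × ZMod 2)
    [DecidableEq (ZMod 2 × ZMod 2)] :
    (L.map (fun e => if sta D p e = s then w e else 0)).sum = fib D p (res w I) s := by
  classical
  rw [← List.sum_toFinset _ hnd]
  unfold fib res
  rw [← Finset.sum_subset (Finset.subset_univ L.toFinset)]
  · refine Finset.sum_congr rfl fun e he => ?_
    rw [List.mem_toFinset, hmem] at he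
    rw [if_pos he.1]
    by_cases h : sta D p e = s
    · rw [if_pos h, if_pos h]
    · rw [if_neg h, if_neg h]
  · intro e _ he
    rw [List.mem_toFinset, hmem, not_and] at he
    by_cases hI : I e
    · have h0 : w e = 0 := le_antisymm (not_lt.1 (he hI)) (hw e)
      rw [if_pos hI, h0, ite_self]
    · rw [if_neg hI, ite_self]

/-- one arc: a union `I` of classes in the direction `(1,0)` with at most three positive gaps -/
theorem arc_contra (p : R → ZMod 2 × ZMod 2) (w : ι → ℝ) (hw : ∀ e, 0 ≤ w e)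
    (r : ι → ι → Prop) (hr : RelT D p (1, 0) r) (hb : ∀ e, Sv D w p r e = 0) (I : ι → Prop)
    (hI : ∀ e f, r e f → (I e ↔ I f)) (L : List ι) (hnd : L.Nodup)
    (hmem : ∀ e, e ∈ L ↔ I e) (hpos : ∃ e, I e ∧ 0 < w e)
    (hcard : (L.filter (fun e => (open Classical in decide (0 < w e)))).length ≤ 3)
    (h : swm ((L.map (mg D p w)).prod) = (L.map (mg D p w)).prod) : False := by
  classical
  rw [prod_filter D p w hw L] at h
  refine short_contra D p w (L.filter (fun e => decide (0 < w e))) ?_ hcard ?_ ?_ h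
  · obtain ⟨e, he, hwe⟩ := hpos
    intro h1
    have h2 : e ∈ L.filter (fun e => decide (0 < w e)) := by
      rw [List.mem_filter]
      exact ⟨(hmem e).2 he, by simpa using hwe⟩
    rw [h1] at h2
    exact absurd h2 (List.not_mem_nil)
  · intro e he
    rw [List.mem_filter] at he
    simpa using he.2
  · intro s
    have hm : ∀ e, e ∈ L.filter (fun e => decide (0 < w e)) ↔ (I e ∧ 0 < w e) := by
      intro e
      rw [List.mem_filter, hmem]
      simp
    rw [list_fib D p w hw I _ (hnd.filter _) hm s,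
      list_fib D p w hw I _ (hnd.filter _) hm (s + (1, 0))]
    exact bal_fib D p r (1, 0) (by decide) (res w I) hr (res_bal D w p r I hI hb) s

/-- L7 (c) -/
theorem L7c (hch : ∀ e f, D e ⊆ D f ∨ D f ⊆ D e) (hinj : Function.Injective D)
    (w : ι → ℝ) (hw : ∀ e, 0 ≤ w e) (g : ι) (hg : D g = ∅) (hwg : 0 < w g)
    (hcard : ((univ : Finset ι).filter (fun e => (open Classical in 0 < w e))).card ≤ 7)
    (p p1 : R → ZMod 2 × ZMod 2) (l s : R)
    (hp0 : ∀ e, (l ∈ D e ↔ s ∈ D e) → sta D p1 e = sta D p e)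
    (hp1 : ∀ e, ¬ (l ∈ D e ↔ s ∈ D e) → sta D p1 e = sta D p e + (1, 0))
    (r r' r1 : ι → ι → Prop) (h1 : RelT D p (1, 0) r)
    (hsp : ∀ e f, ¬ ((l ∈ D e ↔ l ∈ D f) ↔ (s ∈ D e ↔ s ∈ D f)) → ¬ r e f)
    (h2 : RelT D p (0, 1) r') (h3 : RelT D p1 (0, 1) r1)
    (hsep : ∃ e, 0 < w e ∧ ¬ (l ∈ D e ↔ s ∈ D e))
    (b1 : ∀ e, Sv D w p r e = 0) (b2 : ∀ e, Sv D w p r' e = 0)
    (b3 : ∀ e, Sv D w p1 r1 e = 0) : False := by
  classical
  obtain ⟨L, hnd, hmem, hpw⟩ := sorted_list D hch hinj
  have W1 := word_bal D p w r' h2 b2 L hnd hmem hpw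
  have W2 := word_bal D p1 w r1 h3 b3 L hnd hmem hpw
  -- the property of being on the arc
  obtain ⟨I, hId⟩ : ∃ I : ι → Prop, I = fun e => ¬ (l ∈ D e ↔ s ∈ D e) := ⟨_, rfl⟩
  have hI : ∀ e f, r e f → (I e ↔ I f) := by
    intro e f hef
    by_contra hc
    apply hsp e f _ hef
    rw [hId] at hc
    intro h4
    apply hc
    show (¬ (l ∈ D e ↔ s ∈ D e)) ↔ ¬ (l ∈ D f ↔ s ∈ D f)
    by_cases a1 : l ∈ D e <;> by_cases a2 : s ∈ D e <;> by_cases a3 : l ∈ D f <;>
      by_cases a4 : s ∈ D f <;> simp [a1, a2, a3, a4] at h4 ⊢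
  -- split the list
  have hs1 : L.Pairwise (fun x y => (l ∉ D y ∧ s ∉ D y) → (l ∉ D x ∧ s ∉ D x)) := by
    refine hpw.imp ?_
    intro x y hxy h4
    exact ⟨fun h5 => h4.1 (hxy.1 h5), fun h5 => h4.2 (hxy.1 h5)⟩
  have e1 := split_down L (fun e => l ∉ D e ∧ s ∉ D e) hs1
  obtain ⟨L0, hL0⟩ : ∃ L0, L0 = L.filter (fun e => decide (l ∉ D e ∧ s ∉ D e)) := ⟨_, rfl⟩
  obtain ⟨L', hL'⟩ : ∃ L', L' = L.filter (fun e => decide (¬ (l ∉ D e ∧ s ∉ D e))) := ⟨_, rfl⟩
  have hs2 : L'.Pairwise (fun x y => (¬ (l ∈ D y ∧ s ∈ D y)) → ¬ (l ∈ D x ∧ s ∈ D x)) := by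
    rw [hL']
    refine (hpw.filter _).imp ?_
    intro x y hxy h4 h5
    exact h4 ⟨hxy.1 h5.1, hxy.1 h5.2⟩
  have e2 := split_down L' (fun e => ¬ (l ∈ D e ∧ s ∈ D e)) hs2
  obtain ⟨L1, hL1⟩ : ∃ L1, L1 = L'.filter (fun e => decide (¬ (l ∈ D e ∧ s ∈ D e))) := ⟨_, rfl⟩
  obtain ⟨L2, hL2⟩ : ∃ L2, L2 = L'.filter (fun e => decide (¬ ¬ (l ∈ D e ∧ s ∈ D e))) := ⟨_, rfl⟩
  rw [← hL1, ← hL2] at e2
  rw [← hL0, ← hL', e2] at e1
  have m1 : ∀ e, e ∈ L1 ↔ I e := by
    intro e
    rw [hL1, List.mem_filter, hL', List.mem_filter, decide_eq_true_iff, decide_eq_true_iff, hId]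
    show (e ∈ L ∧ ¬ (l ∉ D e ∧ s ∉ D e)) ∧ ¬ (l ∈ D e ∧ s ∈ D e) ↔ ¬ (l ∈ D e ↔ s ∈ D e)
    by_cases hl : l ∈ D e <;> by_cases hs : s ∈ D e <;> simp [hl, hs, hmem e]
  have m0 : ∀ e, e ∈ L2 ++ L0 ↔ ¬ I e := by
    intro e
    rw [List.mem_append, hL2, List.mem_filter, hL', List.mem_filter, hL0, List.mem_filter,
      decide_eq_true_iff, decide_eq_true_iff, decide_eq_true_iff, hId]
    show (e ∈ L ∧ ¬ (l ∉ D e ∧ s ∉ D e)) ∧ ¬ ¬ (l ∈ D e ∧ s ∈ D e) ∨
      e ∈ L ∧ (l ∉ D e ∧ s ∉ D e) ↔ ¬ ¬ (l ∈ D e ↔ s ∈ D e)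
    by_cases hl : l ∈ D e <;> by_cases hs : s ∈ D e <;> simp [hl, hs, hmem e]
  -- the matrices
  have g1 : ∀ e, I e → mg D p1 w e = swm (mg D p w e) := by
    intro e he
    rw [hId] at he
    have he' : ¬ (l ∈ D e ↔ s ∈ D e) := he
    unfold mg
    rw [hp1 e he', swm_mt]
    show mt ((sta D p e).1 + 1) (sg2 ((sta D p e).2 + 0) * w e) = _
    rw [add_zero]
  have g0 : ∀ e, ¬ I e → mg D p1 w e = mg D p w e := by
    intro e he
    rw [hId] at he
    have he' : (l ∈ D e ↔ s ∈ D e) := by
      by_contra h4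
      exact he h4
    unfold mg
    rw [hp0 e he']
  obtain ⟨U, hU⟩ : ∃ U, U = (L1.map (mg D p w)).prod := ⟨_, rfl⟩
  obtain ⟨X, hX⟩ : ∃ X, X = (L0.map (mg D p w)).prod := ⟨_, rfl⟩
  obtain ⟨Y, hY⟩ : ∃ Y, Y = (L2.map (mg D p w)).prod := ⟨_, rfl⟩
  have q1 : X * (U * Y) = 1 := by
    rw [e1, List.map_append, List.prod_append, List.map_append, List.prod_append, ← hU, ← hX,
      ← hY] at W1
    exact W1
  have q2 : X * (swm U * Y) = 1 := by
    rw [e1, List.map_append, List.prod_append, List.map_append, List.prod_append,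
      List.map_congr_left (l := L0) (g := mg D p w) (fun e he => g0 e ((m0 e).1
        (List.mem_append_right _ he))),
      List.map_congr_left (l := L2) (g := mg D p w) (fun e he => g0 e ((m0 e).1
        (List.mem_append_left _ he))),
      List.map_congr_left (l := L1) (g := fun e => swm (mg D p w e)) (fun e he => g1 e
        ((m1 e).1 he)), ← hX, ← hY] at W2
    have h4 : ∀ M : List ι, (M.map (fun e => swm (mg D p w e))).prod =
        swm ((M.map (mg D p w)).prod) := by
      intro M
      induction M with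
      | nil => rw [List.map_nil, List.map_nil, List.prod_nil, swm_one]
      | cons x M ih => rw [List.map_cons, List.map_cons, List.prod_cons, List.prod_cons, swm_mul,
          ih]
    rw [h4, ← hU] at W2
    exact W2
  have q3 : U * (Y * X) = 1 := by
    have h4 := mul_eq_one_comm.1 q1
    rw [mul_assoc] at h4
    exact h4
  have q4 : swm U * (Y * X) = 1 := by
    have h4 := mul_eq_one_comm.1 q2
    rw [mul_assoc] at h4
    exact h4
  have q5 : swm U = U := by
    have h4 := mul_eq_one_comm.1 q3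
    calc swm U = swm U * ((Y * X) * U) := by rw [h4, mul_one]
      _ = (swm U * (Y * X)) * U := (mul_assoc _ _ _).symm
      _ = U := by rw [q4, one_mul]
  have q6 : swm (Y * X) = Y * X := by
    have h4 : swm (Y * X) * U = 1 := by
      have h5 := congrArg swm (mul_eq_one_comm.1 q3)
      rw [swm_mul, swm_one, q5] at h5
      exact h5
    calc swm (Y * X) = swm (Y * X) * (U * (Y * X)) := by rw [q3, mul_one]
      _ = (swm (Y * X) * U) * (Y * X) := (mul_assoc _ _ _).symm
      _ = Y * X := by rw [h4, one_mul]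
  have hnd1 : L1.Nodup := by
    rw [hL1, hL']
    exact (hnd.filter _).filter _
  have hnd0 : (L2 ++ L0).Nodup := by
    have h4 : L.Nodup := hnd
    rw [e1, List.nodup_append] at h4
    obtain ⟨h5, h6, h7⟩ := h4
    rw [List.nodup_append] at h6
    rw [List.nodup_append]
    refine ⟨h6.2.1, h5, ?_⟩
    intro x hx y hy hxy
    exact h7 y hy x (List.mem_append_right _ hx) hxy.symm
  -- the number of positive gaps
  have hlen : (L1.filter (fun e => decide (0 < w e))).length +
      ((L2 ++ L0).filter (fun e => decide (0 < w e))).length ≤ 7 := by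
    have h4 : (L.filter (fun e => decide (0 < w e))).length ≤ 7 := by
      have h5 : (L.filter (fun e => decide (0 < w e))).toFinset.card =
          (L.filter (fun e => decide (0 < w e))).length :=
        List.toFinset_card_of_nodup (hnd.filter _)
      rw [← h5]
      refine le_trans (Finset.card_le_card ?_) hcard
      intro e he
      rw [List.mem_toFinset, List.mem_filter] at he
      rw [Finset.mem_filter]
      exact ⟨Finset.mem_univ e, by simpa using he.2⟩
    rw [e1, List.filter_append, List.filter_append, List.length_append, List.length_append] at h4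
    rw [List.filter_append, List.length_append]
    omega
  by_cases hle : (L1.filter (fun e => decide (0 < w e))).length ≤ 3
  · refine arc_contra D p w hw r h1 b1 I hI L1 hnd1 m1 ?_ ?_ ?_
    · obtain ⟨e, he, hsep'⟩ := hsep
      refine ⟨e, ?_, he⟩
      rw [hId]
      exact hsep'
    · exact hle
    · rw [← hU]
      exact q5
  · refine arc_contra D p w hw r h1 b1 (fun e => ¬ I e) (fun e f h => not_congr (hI e f h))
      (L2 ++ L0) hnd0 m0 ?_ ?_ ?_
    · refine ⟨g, ?_, hwg⟩
      rw [hId]
      show ¬ ¬ (l ∈ D g ↔ s ∈ D g)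
      rw [hg, not_not]
      exact ⟨fun h => absurd h (Finset.notMem_empty _), fun h => absurd h (Finset.notMem_empty _)⟩
    · have : ((L2 ++ L0).filter (fun e => decide (0 < w e))).length ≤ 3 := by omega
      exact this
    · rw [List.map_append, List.prod_append, ← hX, ← hY]
      exact q6

end arcs

section blocks

variable {ι R : Type*} [Fintype ι] [Fintype R] [DecidableEq R] (D : ι → Finset R) (w : ι → ℝ)

open Classical in
/-- the root edges between the positive gap `e` and the next positive gap -/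
noncomputable def blk (e : ι) : Finset R :=
  univ.filter (fun x => x ∉ D e ∧ ∀ f, 0 < w f → D e ⊂ D f → x ∈ D f)

open Classical in
/-- the root edges which are not separated from `x` by positive gaps -/
noncomputable def grp (x : R) : Finset R :=
  univ.filter (fun y => ∀ e, 0 < w e → (y ∈ D e ↔ x ∈ D e))

theorem mem_blk (e : ι) (x : R) :
    x ∈ blk D w e ↔ x ∉ D e ∧ ∀ f, 0 < w f → D e ⊂ D f → x ∈ D f := by
  unfold blk
  rw [Finset.mem_filter]
  exact ⟨fun h => h.2, fun h => ⟨Finset.mem_univ x, h⟩⟩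

theorem mem_grp (x y : R) : y ∈ grp D w x ↔ ∀ e, 0 < w e → (y ∈ D e ↔ x ∈ D e) := by
  unfold grp
  rw [Finset.mem_filter]
  exact ⟨fun h => h.2, fun h => ⟨Finset.mem_univ y, h⟩⟩

theorem blk_ne (hch : ∀ e f, D e ⊆ D f ∨ D f ⊆ D e) (hu : ∀ e, D e ≠ univ) (e : ι) :
    (blk D w e).Nonempty := by
  classical
  by_cases h : ∃ f, 0 < w f ∧ D e ⊂ D f
  · obtain ⟨f, hf, hmin⟩ := Finset.exists_min_image
      ((univ : Finset ι).filter (fun f => 0 < w f ∧ D e ⊂ D f)) (fun f => (D f).card) (by
        obtain ⟨f, hf⟩ := h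
        exact ⟨f, Finset.mem_filter.2 ⟨Finset.mem_univ f, hf⟩⟩)
    rw [Finset.mem_filter] at hf
    obtain ⟨x, hx⟩ := Finset.exists_of_ssubset hf.2.2
    refine ⟨x, (mem_blk D w e x).2 ⟨hx.2, fun f' hf' hef' => ?_⟩⟩
    have h1 := hmin f' (Finset.mem_filter.2 ⟨Finset.mem_univ f', hf', hef'⟩)
    rcases hch f f' with h2 | h2
    · exact h2 hx.1
    · rw [Finset.eq_of_subset_of_card_le h2 h1]
      exact hx.1
  · have h1 : ∃ x, x ∉ D e := by
      by_contra hc
      push Not at hc
      exact hu e (Finset.eq_univ_iff_forall.2 hc)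
    obtain ⟨x, hx⟩ := h1
    exact ⟨x, (mem_blk D w e x).2 ⟨hx, fun f hf hef => absurd ⟨f, hf, hef⟩ h⟩⟩

theorem blk_disj (hch : ∀ e f, D e ⊆ D f ∨ D f ⊆ D e) (hinj : Function.Injective D) (e f : ι)
    (he : 0 < w e) (hf : 0 < w f) (hef : e ≠ f) : Disjoint (blk D w e) (blk D w f) := by
  have hne : D e ≠ D f := fun h => hef (hinj h)
  rw [Finset.disjoint_left]
  intro x h1 h2
  rw [mem_blk] at h1 h2
  rcases hch e f with h3 | h3
  · exact h2.1 (h1.2 f hf (Finset.ssubset_iff_subset_ne.2 ⟨h3, hne⟩))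
  · exact h1.1 (h2.2 e he (Finset.ssubset_iff_subset_ne.2 ⟨h3, hne.symm⟩))

theorem blk_cover (g : ι) (hg : D g = ∅) (hwg : 0 < w g)
    (x : R) : ∃ e, 0 < w e ∧ x ∈ blk D w e := by
  classical
  obtain ⟨e, he, hmax⟩ := Finset.exists_max_image
    ((univ : Finset ι).filter (fun e => 0 < w e ∧ x ∉ D e)) (fun e => (D e).card)
    ⟨g, Finset.mem_filter.2 ⟨Finset.mem_univ g, hwg, by rw [hg]; exact Finset.notMem_empty x⟩⟩
  rw [Finset.mem_filter] at he
  refine ⟨e, he.2.1, (mem_blk D w e x).2 ⟨he.2.2, fun f hf hef => ?_⟩⟩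
  by_contra hx
  have h1 := hmax f (Finset.mem_filter.2 ⟨Finset.mem_univ f, hf, hx⟩)
  exact absurd (Finset.card_lt_card hef) (not_lt.2 h1)

theorem blk_grp (hch : ∀ e f, D e ⊆ D f ∨ D f ⊆ D e) (e : ι) (he : 0 < w e) (x : R)
    (hx : x ∈ blk D w e) : grp D w x = blk D w e := by
  ext y
  rw [mem_grp, mem_blk]
  rw [mem_blk] at hx
  constructor
  · intro h
    exact ⟨fun h1 => hx.1 ((h e he).1 h1), fun f hf hef => (h f hf).2 (hx.2 f hf hef)⟩
  · rintro ⟨h1, h2⟩ f hf
    rcases hch f e with h3 | h3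
    · exact ⟨fun h4 => absurd (h3 h4) h1, fun h4 => absurd (h3 h4) hx.1⟩
    · by_cases h4 : D f ⊆ D e
      · exact ⟨fun h5 => absurd (h4 h5) h1, fun h5 => absurd (h4 h5) hx.1⟩
      · have h5 : D e ⊂ D f := ⟨h3, h4⟩
        exact ⟨fun _ => hx.2 f hf h5, fun _ => h2 f hf h5⟩

theorem blk_sum (hch : ∀ e f, D e ⊆ D f ∨ D f ⊆ D e) (hinj : Function.Injective D) (g : ι)
    (hg : D g = ∅) (hwg : 0 < w g) :
    ∑ e ∈ (univ : Finset ι).filter (fun e => (open Classical in 0 < w e)), (blk D w e).card =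
      Fintype.card R := by
  classical
  rw [← Finset.card_biUnion, ← Finset.card_univ]
  · congr 1
    rw [Finset.eq_univ_iff_forall]
    intro x
    obtain ⟨e, he, hx⟩ := blk_cover D w g hg hwg x
    rw [Finset.mem_biUnion]
    exact ⟨e, Finset.mem_filter.2 ⟨Finset.mem_univ e, he⟩, hx⟩
  · intro e he f hf hef
    have he' := (Finset.mem_filter.1 he).2
    have hf' := (Finset.mem_filter.1 hf).2
    exact blk_disj D w hch hinj e f he' hf' hef

/-- L8: if no small group contains an edge outside `K0` then there are exactly four positive gaps,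
and three of the four groups are single edges of `K0` -/
theorem L8 (hch : ∀ e f, D e ⊆ D f ∨ D f ⊆ D e) (hinj : Function.Injective D) (g : ι)
    (hg : D g = ∅) (hwg : 0 < w g) (hu : ∀ e, D e ≠ univ) (hR : Fintype.card R ≤ 7)
    (hR0 : 0 < Fintype.card R) (K0 : Finset R) (hK0 : 2 * K0.card ≤ Fintype.card R)
    (hP : 4 ≤ ((univ : Finset ι).filter (fun e => (open Classical in 0 < w e))).card)
    (hno : ∀ l, l ∉ K0 → 3 ≤ (grp D w l).card) :
    ((univ : Finset ι).filter (fun e => (open Classical in 0 < w e))).card = 4 ∧ K0.card = 3 ∧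
      ∃ e0, ∀ e, 0 < w e → e ≠ e0 → (blk D w e).card = 1 ∧ blk D w e ⊆ K0 := by
  classical
  obtain ⟨P, hPd⟩ : ∃ P : Finset ι, P = (univ : Finset ι).filter (fun e => 0 < w e) := ⟨_, rfl⟩
  have memP : ∀ e, e ∈ P ↔ 0 < w e := by
    intro e
    rw [hPd, Finset.mem_filter]
    exact ⟨fun h => h.2, fun h => ⟨Finset.mem_univ e, h⟩⟩
  have hsum := blk_sum D w hch hinj g hg hwg
  have hP' : 4 ≤ P.card := by rw [hPd]; exact hP
  have hsum' : ∑ e ∈ P, (blk D w e).card = Fintype.card R := by rw [hPd]; exact hsum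
  have hpos : ∀ e, 1 ≤ (blk D w e).card := fun e => Finset.card_pos.2 (blk_ne D w hch hu e)
  -- small blocks are in `K0`
  have hsm : ∀ e ∈ P, (blk D w e).card ≤ 2 → blk D w e ⊆ K0 := by
    intro e he h2 x hx
    by_contra hc
    have h3 := hno x hc
    rw [blk_grp D w hch e ((memP e).1 he) x hx] at h3
    omega
  obtain ⟨P2, hP2⟩ : ∃ P2 : Finset ι, P2 = P.filter (fun e => (blk D w e).card ≤ 2) := ⟨_, rfl⟩
  obtain ⟨P3, hP3⟩ : ∃ P3 : Finset ι, P3 = P.filter (fun e => ¬ (blk D w e).card ≤ 2) := ⟨_, rfl⟩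
  have hc23 : P2.card + P3.card = P.card := by
    rw [hP2, hP3]
    exact Finset.card_filter_add_card_filter_not _
  have hs23 : ∑ e ∈ P2, (blk D w e).card + ∑ e ∈ P3, (blk D w e).card =
      Fintype.card R := by
    rw [hP2, hP3, Finset.sum_filter_add_sum_filter_not, hsum']
  have hs2K : ∑ e ∈ P2, (blk D w e).card ≤ K0.card := by
    rw [← Finset.card_biUnion]
    · refine Finset.card_le_card ?_
      intro x hx
      rw [Finset.mem_biUnion] at hx
      obtain ⟨e, he, hx⟩ := hx
      rw [hP2, Finset.mem_filter] at he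
      exact hsm e he.1 he.2 hx
    · intro e he f hf hef
      rw [hP2] at he hf
      have he' := (memP e).1 (Finset.mem_filter.1 he).1
      have hf' := (memP f).1 (Finset.mem_filter.1 hf).1
      exact blk_disj D w hch hinj e f he' hf' hef
  have hs2 : P2.card ≤ ∑ e ∈ P2, (blk D w e).card := by
    have := Finset.card_nsmul_le_sum P2 (fun e => (blk D w e).card) 1 (fun e _ => hpos e)
    simpa using this
  have hs3 : 3 * P3.card ≤ ∑ e ∈ P3, (blk D w e).card := by
    have := Finset.card_nsmul_le_sum P3 (fun e => (blk D w e).card) 3 (fun e he => by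
      rw [hP3, Finset.mem_filter] at he
      have := he.2
      show 3 ≤ (blk D w e).card
      omega)
    rw [smul_eq_mul] at this
    omega
  have hP3c : P3.card = 1 := by
    by_contra hne
    rcases Nat.eq_zero_or_pos P3.card with h0 | h0
    · have h1 : P3 = ∅ := Finset.card_eq_zero.1 h0
      rw [h1, Finset.sum_empty] at hs23
      omega
    · omega
  have hP2c : P2.card = 3 := by omega
  have hsum2 : ∑ e ∈ P2, (blk D w e).card = 3 := by omega
  have hone : ∀ e ∈ P2, (blk D w e).card = 1 := by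
    intro e he
    by_contra hne
    have h1 : 2 ≤ (blk D w e).card := by
      have := hpos e
      omega
    have h2 := Finset.add_sum_erase P2 (fun e => (blk D w e).card) he
    have h3 : (P2.erase e).card ≤ ∑ f ∈ P2.erase e, (blk D w f).card := by
      have := Finset.card_nsmul_le_sum (P2.erase e) (fun e => (blk D w e).card) 1
        (fun e _ => hpos e)
      simpa using this
    rw [Finset.card_erase_of_mem he] at h3
    have h4 : (blk D w e).card + ∑ f ∈ P2.erase e, (blk D w f).card = 3 := by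
      rw [← hsum2]
      exact h2
    omega
  obtain ⟨e0, he0⟩ := Finset.card_eq_one.1 hP3c
  refine ⟨by rw [← hPd]; omega, by omega, e0, ?_⟩
  intro e he hne
  have h1 : e ∈ P2 := by
    rw [hP2, Finset.mem_filter]
    refine ⟨(memP e).2 he, ?_⟩
    by_contra hc
    have h2 : e ∈ P3 := by
      rw [hP3, Finset.mem_filter]
      exact ⟨(memP e).2 he, hc⟩
    rw [he0, Finset.mem_singleton] at h2
    exact hne h2
  refine ⟨hone e h1, ?_⟩
  rw [hP2, Finset.mem_filter] at h1
  exact hsm e h1.1 h1.2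

end blocks

private theorem fl_irr {R : Type*} (A : Finset R) : ¬ A ⊂ A := fun h => h.2 (Finset.Subset.refl _)

private theorem fl_dec1 : ∀ a b : ZMod 2 × ZMod 2, b.2 = a.2 → a ≠ b → b = a + (1, 0) := by
  decide

private theorem fl_dec3 : ∀ a b d : ZMod 2 × ZMod 2, a = b ∨ a = d ∨ b = d ∨ b = a + (1, 0) ∨
    d = a + (1, 0) ∨ d = b + (1, 0) := by
  decide

private theorem fl_dec2 (a b d : ZMod 2 × ZMod 2) (h1 : a ≠ b) (h2 : a ≠ d) (h3 : b ≠ d)
    (h4 : b ≠ a + (1, 0)) (h5 : d ≠ a + (1, 0)) : d = b + (1, 0) := by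
  rcases fl_dec3 a b d with h | h | h | h | h | h
  · exact absurd h h1
  · exact absurd h h2
  · exact absurd h h3
  · exact absurd h h4
  · exact absurd h h5
  · exact h

section exact

variable {ι R : Type*} [Fintype ι] [Fintype R] [DecidableEq R] (D : ι → Finset R) (w : ι → ℝ)

/-- `p + d` on `{l, s}` -/
def tgl (p : R → ZMod 2 × ZMod 2) (d : ZMod 2 × ZMod 2) (l s : R) : R → ZMod 2 × ZMod 2 :=
  fun x => p x + (if x ∈ ({l, s} : Finset R) then d else 0)

omit [Fintype ι] [Fintype R] in
theorem sta_tgl (p : R → ZMod 2 × ZMod 2) (d : ZMod 2 × ZMod 2) (l s : R) (hls : l ≠ s) (e : ι)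
    [Decidable (l ∈ D e ↔ s ∈ D e)] :
    sta D (tgl p d l s) e = sta D p e + (if (l ∈ D e ↔ s ∈ D e) then 0 else d) := by
  unfold sta tgl
  rw [Finset.sum_add_distrib]
  congr 1
  rw [Finset.sum_ite_mem, Finset.sum_const]
  by_cases hl : l ∈ D e
  · by_cases hs : s ∈ D e
    · have h1 : D e ∩ {l, s} = {l, s} := by
        rw [Finset.inter_eq_right]
        intro x hx
        rw [Finset.mem_insert, Finset.mem_singleton] at hx
        rcases hx with hx | hx
        · rw [hx]; exact hl
        · rw [hx]; exact hs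
      rw [h1, Finset.card_pair hls, if_pos (iff_of_true hl hs), two_nsmul, z4_two]
    · have h1 : D e ∩ {l, s} = {l} := by
        ext x
        simp only [Finset.mem_inter, Finset.mem_insert, Finset.mem_singleton]
        constructor
        · rintro ⟨h2, h3 | h3⟩
          · exact h3
          · rw [h3] at h2; exact absurd h2 hs
        · intro h2
          rw [h2]; exact ⟨hl, Or.inl rfl⟩
      rw [h1, Finset.card_singleton, one_nsmul, if_neg (fun h => hs (h.1 hl))]
  · by_cases hs : s ∈ D e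
    · have h1 : D e ∩ {l, s} = {s} := by
        ext x
        simp only [Finset.mem_inter, Finset.mem_insert, Finset.mem_singleton]
        constructor
        · rintro ⟨h2, h3 | h3⟩
          · rw [h3] at h2; exact absurd h2 hl
          · exact h3
        · intro h2
          rw [h2]; exact ⟨hs, Or.inr rfl⟩
      rw [h1, Finset.card_singleton, one_nsmul, if_neg (fun h => hl (h.2 hs))]
    · have h1 : D e ∩ {l, s} = ∅ := by
        rw [Finset.eq_empty_iff_forall_notMem]
        intro x hx
        rw [Finset.mem_inter, Finset.mem_insert, Finset.mem_singleton] at hx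
        obtain ⟨h2, h3 | h3⟩ := hx
        · rw [h3] at h2; exact hl h2
        · rw [h3] at h2; exact hs h2
      rw [h1, Finset.card_empty, zero_nsmul, if_pos (iff_of_false hl hs)]

/-- the relation separates `e` and `f` if exactly one of `l`, `s` is in `D e ∆ D f` -/
def SprT (l s : R) (r : ι → ι → Prop) : Prop :=
  ∀ e f, ¬ ((l ∈ D e ↔ l ∈ D f) ↔ (s ∈ D e ↔ s ∈ D f)) → ¬ r e f

/-- `l` is a good edge (qualitative form) -/
def GLx (l : R) : Prop :=
  ∀ (p : R → ZMod 2 × ZMod 2), ∀ s, s ≠ l → ∀ s', s' ≠ l → s ≠ s' →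
    ∀ r r' r₁ r₂ : ι → ι → Prop,
      RelT D p (1, 0) r → SprT D l s r → RelT D p (0, 1) r' → SprT D l s' r' →
      RelT D (tgl p (1, 0) l s) (0, 1) r₁ → RelT D (tgl p (0, 1) l s') (1, 0) r₂ →
      ∃ e, Sv D w p r e ≠ 0 ∨ Sv D w p r' e ≠ 0 ∨ Sv D w (tgl p (1, 0) l s) r₁ e ≠ 0 ∨
        Sv D w (tgl p (0, 1) l s') r₂ e ≠ 0

/-- all patterns with second coordinate `1` on `K0` have an unbalanced class (qualitative form) -/
def GPx (K0 : Finset R) : Prop :=
  ∀ (p : R → ZMod 2 × ZMod 2), ∑ i, p i = 0 → (∀ i ∈ K0, (p i).2 = 1) →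
    ∀ r r' : ι → ι → Prop, RelT D p (1, 0) r → RelT D p (0, 1) r' →
      ∃ e, Sv D w p r e ≠ 0 ∨ Sv D w p r' e ≠ 0

omit [Fintype R] [DecidableEq R] in
/-- if both directions are balanced then all four states occur -/
theorem all_states (hw : ∀ e, 0 ≤ w e) (g : ι) (hg : D g = ∅) (hwg : 0 < w g)
    (p : R → ZMod 2 × ZMod 2) (r r' : ι → ι → Prop) (hr : RelT D p (1, 0) r)
    (hr' : RelT D p (0, 1) r') (hb : ∀ e, Sv D w p r e = 0) (hb' : ∀ e, Sv D w p r' e = 0)
    (z : ZMod 2 × ZMod 2) : ∃ e, 0 < w e ∧ sta D p e = z := by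
  classical
  have h0 : 0 < fib D p w 0 := by
    unfold fib
    refine Finset.sum_pos' (fun e _ => by split_ifs; exact hw e; exact le_refl _)
      ⟨g, Finset.mem_univ g, ?_⟩
    have h1 : sta D p g = 0 := by
      unfold sta
      rw [hg, Finset.sum_empty]
    rw [if_pos h1]
    exact hwg
  have h1 := fun s => bal_fib D p r (1, 0) (by decide) w hr hb s
  have h2 := fun s => bal_fib D p r' (0, 1) (by decide) w hr' hb' s
  have h3 : fib D p w z = fib D p w 0 := by
    have h4 : ∀ z : ZMod 2 × ZMod 2, z = 0 ∨ z = 0 + (1, 0) ∨ z = 0 + (0, 1) ∨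
        z = 0 + (1, 0) + (0, 1) := by decide
    rcases h4 z with h5 | h5 | h5 | h5
    · rw [h5]
    · rw [h5, ← h1]
    · rw [h5, ← h2]
    · rw [h5, ← h2, ← h1]
  by_contra hno
  have h4 : fib D p w z = 0 := by
    unfold fib
    refine Finset.sum_eq_zero fun e _ => ?_
    by_cases h5 : sta D p e = z
    · rw [if_pos h5]
      by_contra h6
      exact hno ⟨e, lt_of_le_of_ne (hw e) (Ne.symm h6), h5⟩
    · rw [if_neg h5]
  rw [h3] at h4
  exact absurd h4 h0.ne'

omit [Fintype R] [DecidableEq R] in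
theorem four_pos (hw : ∀ e, 0 ≤ w e) (g : ι) (hg : D g = ∅) (hwg : 0 < w g)
    (p : R → ZMod 2 × ZMod 2) (r r' : ι → ι → Prop) (hr : RelT D p (1, 0) r)
    (hr' : RelT D p (0, 1) r') (hb : ∀ e, Sv D w p r e = 0) (hb' : ∀ e, Sv D w p r' e = 0) :
    ((univ : Finset ι).filter (fun e => (open Classical in 0 < w e))).image (sta D p) = univ ∧
    4 ≤ ((univ : Finset ι).filter (fun e => (open Classical in 0 < w e))).card := by
  classical
  have h1 : ((univ : Finset ι).filter (fun e => 0 < w e)).image (sta D p) = univ := by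
    rw [Finset.eq_univ_iff_forall]
    intro z
    obtain ⟨e, he, hz⟩ := all_states D w hw g hg hwg p r r' hr hr' hb hb' z
    rw [Finset.mem_image]
    exact ⟨e, Finset.mem_filter.2 ⟨Finset.mem_univ e, he⟩, hz⟩
  refine ⟨h1, ?_⟩
  have h2 := Finset.card_image_le (s := (univ : Finset ι).filter (fun e => 0 < w e))
    (f := sta D p)
  rw [h1] at h2
  have h3 : (univ : Finset (ZMod 2 × ZMod 2)).card = 4 := by decide
  rw [h3] at h2
  exact h2

omit [Fintype R] [DecidableEq R] in
theorem RelT_swap (p : R → ZMod 2 × ZMod 2) (a : ZMod 2 × ZMod 2) (r : ι → ι → Prop)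
    (h : RelT D p a r) : RelT D (fun x => (p x).swap) a.swap r := by
  have hs : ∀ e, sta D (fun x => (p x).swap) e = (sta D p e).swap := by
    intro e
    unfold sta
    rw [Prod.ext_iff]
    constructor
    · show (∑ x ∈ D e, (p x).swap).1 = (∑ x ∈ D e, p x).2
      rw [Prod.fst_sum, Prod.snd_sum]
      rfl
    · show (∑ x ∈ D e, (p x).swap).2 = (∑ x ∈ D e, p x).1
      rw [Prod.fst_sum, Prod.snd_sum]
      rfl
  refine ⟨h.refl, h.symm, h.trans, ?_, h.nc⟩
  intro e f hef
  rw [hs, hs]
  rcases h.two e f hef with h1 | h1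
  · left; rw [h1]
  · right; rw [h1]; rfl

omit [Fintype R] [DecidableEq R] in
theorem sta_swap (p : R → ZMod 2 × ZMod 2) (e : ι) :
    sta D (fun x => (p x).swap) e = (sta D p e).swap := by
  unfold sta
  rw [Prod.ext_iff]
  constructor
  · show (∑ x ∈ D e, (p x).swap).1 = (∑ x ∈ D e, p x).2
    rw [Prod.fst_sum, Prod.snd_sum]
    rfl
  · show (∑ x ∈ D e, (p x).swap).2 = (∑ x ∈ D e, p x).1
    rw [Prod.fst_sum, Prod.snd_sum]
    rfl

omit [Fintype R] [DecidableEq R] in
theorem Sv_swap (p : R → ZMod 2 × ZMod 2) (r : ι → ι → Prop) (e : ι) :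
    Sv D w (fun x => (p x).swap) r e = Sv D w p r e := by
  classical
  unfold Sv
  refine Finset.sum_congr rfl fun f _ => ?_
  rw [sta_swap, sta_swap]
  have h : (sta D p f).swap = (sta D p e).swap ↔ sta D p f = sta D p e :=
    ⟨fun h => Prod.swap_injective h, fun h => by rw [h]⟩
  by_cases hr : r e f
  · rw [if_pos hr, if_pos hr]
    exact if_congr h rfl rfl
  · rw [if_neg hr, if_neg hr]

/-- a small group contains a good edge -/
theorem GLx_of_small (hch : ∀ e f, D e ⊆ D f ∨ D f ⊆ D e) (hinj : Function.Injective D)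
    (hw : ∀ e, 0 ≤ w e) (g : ι) (hg : D g = ∅) (hwg : 0 < w g)
    (hcard : ((univ : Finset ι).filter (fun e => (open Classical in 0 < w e))).card ≤ 7) (l : R)
    (hl : (grp D w l).card ≤ 2) : GLx D w l := by
  classical
  intro p s hs s' hs' hss r r' r₁ r₂ h1 hsp h2 hsp' h3 h4
  by_contra hno
  push Not at hno
  have b1 := fun e => (hno e).1
  have b2 := fun e => (hno e).2.1
  have b3 := fun e => (hno e).2.2.1
  have b4 := fun e => (hno e).2.2.2
  -- one of `s`, `s'` is outside the group of `l`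
  have hlg : l ∈ grp D w l := (mem_grp D w l l).2 fun e _ => Iff.rfl
  have hor : s ∉ grp D w l ∨ s' ∉ grp D w l := by
    by_contra hc
    push Not at hc
    have h5 : ({l, s, s'} : Finset R) ⊆ grp D w l := by
      intro x hx
      rw [Finset.mem_insert, Finset.mem_insert, Finset.mem_singleton] at hx
      rcases hx with hx | hx | hx
      · rw [hx]; exact hlg
      · rw [hx]; exact hc.1
      · rw [hx]; exact hc.2
    have h6 := Finset.card_le_card h5
    rw [Finset.card_eq_three.2 ⟨l, s, s', hs.symm, hs'.symm, hss, rfl⟩] at h6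
    omega
  rcases hor with h5 | h5
  · rw [mem_grp] at h5
    push Not at h5
    obtain ⟨e, he, hne⟩ := h5
    refine L7c D hch hinj w hw g hg hwg hcard p (tgl p (1, 0) l s) l s
      (fun e h6 => ?_) (fun e h6 => ?_) r r' r₁ h1 hsp h2 h3 ⟨e, he, ?_⟩ b1 b2 b3
    · rw [sta_tgl D p (1, 0) l s hs.symm e, if_pos h6, add_zero]
    · rw [sta_tgl D p (1, 0) l s hs.symm e, if_neg h6]
    · intro h6
      rcases hne with h7 | h7
      · exact h7.2 (h6.2 h7.1)
      · exact h7.1 (h6.1 h7.2)
  · rw [mem_grp] at h5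
    push Not at h5
    obtain ⟨e, he, hne⟩ := h5
    have k1 := RelT_swap D p (0, 1) r' h2
    have k2 := RelT_swap D p (1, 0) r h1
    have k3 := RelT_swap D _ (1, 0) r₂ h4
    refine L7c D hch hinj w hw g hg hwg hcard (fun x => (p x).swap)
      (fun x => (tgl p (0, 1) l s' x).swap) l s'
      (fun e h6 => ?_) (fun e h6 => ?_) r' r r₂ k1 hsp' k2 k3 ⟨e, he, ?_⟩ ?_ ?_ ?_
    · rw [sta_swap D (tgl p (0, 1) l s'), sta_swap, sta_tgl D p (0, 1) l s' hs'.symm e,
        if_pos h6, add_zero]
    · rw [sta_swap D (tgl p (0, 1) l s'), sta_swap, sta_tgl D p (0, 1) l s' hs'.symm e,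
        if_neg h6]
      rfl
    · intro h6
      rcases hne with h7 | h7
      · exact h7.2 (h6.2 h7.1)
      · exact h7.1 (h6.1 h7.2)
    · intro e
      rw [Sv_swap]
      exact b2 e
    · intro e
      rw [Sv_swap]
      exact b1 e
    · intro e
      rw [Sv_swap]
      exact b4 e

/-- the case of four positive gaps -/
theorem GPx_of_four (hch : ∀ e f, D e ⊆ D f ∨ D f ⊆ D e) (hinj : Function.Injective D)
    (hw : ∀ e, 0 ≤ w e) (g : ι) (hg : D g = ∅) (hwg : 0 < w g)
    (hcard : ((univ : Finset ι).filter (fun e => (open Classical in 0 < w e))).card = 4)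
    (K0 : Finset R) (e0 : ι)
    (h : ∀ e, 0 < w e → e ≠ e0 → (blk D w e).card = 1 ∧ blk D w e ⊆ K0) : GPx D w K0 := by
  classical
  intro p hp0 hpK r r' hr hr'
  by_contra hno
  push Not at hno
  have b1 := fun e => (hno e).1
  have b2 := fun e => (hno e).2
  obtain ⟨him, -⟩ := four_pos D w hw g hg hwg p r r' hr hr' b1 b2
  -- injectivity of the states
  have hio : Set.InjOn (sta D p) (((univ : Finset ι).filter (fun e => 0 < w e) : Finset ι)
      : Set ι) := by
    rw [← Finset.card_image_iff, him, hcard]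
    decide
  have hne : ∀ e f, 0 < w e → 0 < w f → e ≠ f → sta D p e ≠ sta D p f := by
    intro e f he hf hef hst
    exact hef (hio (by simpa using he) (by simpa using hf) hst)
  obtain ⟨L, hnd, hmem, hpw⟩ := sorted_list D hch hinj
  obtain ⟨Lp, hLp⟩ : ∃ Lp, Lp = L.filter (fun e => decide (0 < w e)) := ⟨_, rfl⟩
  have hlen : Lp.length = 4 := by
    rw [← hcard, hLp, ← List.toFinset_card_of_nodup (hnd.filter _)]
    congr 1
    ext e
    rw [List.mem_toFinset, List.mem_filter, Finset.mem_filter]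
    simp [hmem e]
  have hpw' : Lp.Pairwise (fun e f => D e ⊂ D f) := by
    rw [hLp]
    exact hpw.filter _
  have hmp : ∀ e, e ∈ Lp ↔ 0 < w e := by
    intro e
    rw [hLp, List.mem_filter]
    simp [hmem e]
  match Lp, hlen, hpw', hmp with
  | [e₁, e₂, e₃, e₄], _, hpw', hmp =>
    have q1 : 0 < w e₁ := (hmp e₁).1 (by simp)
    have q2 : 0 < w e₂ := (hmp e₂).1 (by simp)
    have q3 : 0 < w e₃ := (hmp e₃).1 (by simp)
    have q4 : 0 < w e₄ := (hmp e₄).1 (by simp)
    have hall : ∀ e, 0 < w e → e = e₁ ∨ e = e₂ ∨ e = e₃ ∨ e = e₄ := by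
      intro e he
      have := (hmp e).2 he
      simpa using this
    simp only [List.pairwise_cons, List.mem_cons, List.not_mem_nil, or_false, forall_eq_or_imp,
      forall_eq] at hpw'
    obtain ⟨⟨s12, s13, s14⟩, ⟨s23, s24⟩, s34, -⟩ := hpw'
    have n12 : e₁ ≠ e₂ := fun h => by rw [h] at s12; exact fl_irr _ s12
    have n13 : e₁ ≠ e₃ := fun h => by rw [h] at s13; exact fl_irr _ s13
    have n14 : e₁ ≠ e₄ := fun h => by rw [h] at s14; exact fl_irr _ s14
    have n23 : e₂ ≠ e₃ := fun h => by rw [h] at s23; exact fl_irr _ s23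
    have n24 : e₂ ≠ e₄ := fun h => by rw [h] at s24; exact fl_irr _ s24
    have n34 : e₃ ≠ e₄ := fun h => by rw [h] at s34; exact fl_irr _ s34
    have hD1 : D e₁ = ∅ := by
      have h1 : D e₁ ⊆ D g := by
        rcases hall g hwg with h2 | h2 | h2 | h2
        · rw [h2]
        · rw [h2]; exact s12.1
        · rw [h2]; exact s13.1
        · rw [h2]; exact s14.1
      rw [hg] at h1
      exact Finset.subset_empty.1 h1
    have hst1 : sta D p e₁ = 0 := by
      unfold sta
      rw [hD1, Finset.sum_empty]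
    -- consecutive states
    have hstep : ∀ e f, D e ⊂ D f → (∀ x, x ∈ blk D w e ↔ x ∉ D e ∧ x ∈ D f) →
        sta D p f = sta D p e + ∑ x ∈ blk D w e, p x := by
      intro e f hef hb
      have h1 : D f = D e ∪ blk D w e := by
        ext x
        rw [Finset.mem_union, hb]
        constructor
        · intro h2
          by_cases h3 : x ∈ D e
          · exact Or.inl h3
          · exact Or.inr ⟨h3, h2⟩
        · rintro (h2 | h2)
          · exact hef.1 h2
          · exact h2.2
      have h2 : Disjoint (D e) (blk D w e) := by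
        rw [Finset.disjoint_left]
        intro x h3 h4
        exact ((hb x).1 h4).1 h3
      unfold sta
      rw [h1, Finset.sum_union h2]
    have hb1 : ∀ x, x ∈ blk D w e₁ ↔ x ∉ D e₁ ∧ x ∈ D e₂ := by
      intro x
      rw [mem_blk]
      constructor
      · rintro ⟨h1, h2⟩
        exact ⟨h1, h2 e₂ q2 s12⟩
      · rintro ⟨h1, h2⟩
        refine ⟨h1, fun f hf hef => ?_⟩
        rcases hall f hf with h3 | h3 | h3 | h3
        · rw [h3] at hef; exact absurd hef (fl_irr _)
        · rw [h3]; exact h2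
        · rw [h3]; exact s23.1 h2
        · rw [h3]; exact s24.1 h2
    have hb2 : ∀ x, x ∈ blk D w e₂ ↔ x ∉ D e₂ ∧ x ∈ D e₃ := by
      intro x
      rw [mem_blk]
      constructor
      · rintro ⟨h1, h2⟩
        exact ⟨h1, h2 e₃ q3 s23⟩
      · rintro ⟨h1, h2⟩
        refine ⟨h1, fun f hf hef => ?_⟩
        rcases hall f hf with h3 | h3 | h3 | h3
        · rw [h3] at hef; exact absurd (hef.1) (fun h => s12.2 h)
        · rw [h3] at hef; exact absurd hef (fl_irr _)
        · rw [h3]; exact h2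
        · rw [h3]; exact s34.1 h2
    have hb3 : ∀ x, x ∈ blk D w e₃ ↔ x ∉ D e₃ ∧ x ∈ D e₄ := by
      intro x
      rw [mem_blk]
      constructor
      · rintro ⟨h1, h2⟩
        exact ⟨h1, h2 e₄ q4 s34⟩
      · rintro ⟨h1, h2⟩
        refine ⟨h1, fun f hf hef => ?_⟩
        rcases hall f hf with h3 | h3 | h3 | h3
        · rw [h3] at hef; exact absurd (hef.1) (fun h => s13.2 h)
        · rw [h3] at hef; exact absurd (hef.1) (fun h => s23.2 h)
        · rw [h3] at hef; exact absurd hef (fl_irr _)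
        · rw [h3]; exact h2
    have hb4 : ∀ x, x ∈ blk D w e₄ ↔ x ∉ D e₄ := by
      intro x
      rw [mem_blk]
      constructor
      · rintro ⟨h1, h2⟩
        exact h1
      · intro h1
        refine ⟨h1, fun f hf hef => ?_⟩
        rcases hall f hf with h3 | h3 | h3 | h3
        · rw [h3] at hef; exact absurd (hef.1) (fun h => s14.2 h)
        · rw [h3] at hef; exact absurd (hef.1) (fun h => s24.2 h)
        · rw [h3] at hef; exact absurd (hef.1) (fun h => s34.2 h)
        · rw [h3] at hef; exact absurd hef (fl_irr _)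
    have t1 := hstep e₁ e₂ s12 hb1
    have t2 := hstep e₂ e₃ s23 hb2
    have t3 := hstep e₃ e₄ s34 hb3
    have t4 : sta D p e₄ + ∑ x ∈ blk D w e₄, p x = 0 := by
      rw [← hp0]
      have h1 : (univ : Finset R) = D e₄ ∪ blk D w e₄ := by
        symm
        rw [Finset.eq_univ_iff_forall]
        intro x
        rw [Finset.mem_union, hb4]
        by_cases h3 : x ∈ D e₄
        · exact Or.inl h3
        · exact Or.inr h3
      have h2 : Disjoint (D e₄) (blk D w e₄) := by
        rw [Finset.disjoint_left]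
        intro x h3 h4
        exact ((hb4 x).1 h4) h3
      unfold sta
      rw [h1, Finset.sum_union h2]
    -- second coordinate of a single block
    have hsg : ∀ e, 0 < w e → e ≠ e0 → (∑ x ∈ blk D w e, p x).2 = 1 := by
      intro e he hee
      obtain ⟨h1, h2⟩ := h e he hee
      obtain ⟨x, hx⟩ := Finset.card_eq_one.1 h1
      rw [hx, Finset.sum_singleton]
      exact hpK x (h2 (by rw [hx]; exact Finset.mem_singleton_self x))
    -- the states of `e₁` and `e₃` have the same second coordinate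
    have hsec : (sta D p e₃).2 = (sta D p e₁).2 := by
      by_cases h1 : e₁ ≠ e0 ∧ e₂ ≠ e0
      · rw [t2, t1]
        show (sta D p e₁).2 + (∑ x ∈ blk D w e₁, p x).2 + (∑ x ∈ blk D w e₂, p x).2 = _
        rw [hsg e₁ q1 h1.1, hsg e₂ q2 h1.2, add_assoc]
        have : (1 : ZMod 2) + 1 = 0 := by decide
        rw [this, add_zero]
      · have h2 : e₃ ≠ e0 ∧ e₄ ≠ e0 := by
          by_cases h3 : e₁ = e0
          · rw [← h3]
            exact ⟨n13.symm, n14.symm⟩
          · have h4 : e₂ = e0 := by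
              by_contra h5
              exact h1 ⟨h3, h5⟩
            rw [← h4]
            exact ⟨n23.symm, n24.symm⟩
        have h3 := congrArg Prod.snd t3
        have h4 := congrArg Prod.snd t4
        have h5 : (sta D p e₄).2 + (∑ x ∈ blk D w e₄, p x).2 = 0 := h4
        have h6 : (sta D p e₄).2 = (sta D p e₃).2 + (∑ x ∈ blk D w e₃, p x).2 := h3
        rw [hsg e₄ q4 h2.2] at h5
        rw [hsg e₃ q3 h2.1] at h6
        rw [h6] at h5
        rw [hst1]
        show (sta D p e₃).2 = 0
        have h7 : ∀ z : ZMod 2, z + 1 + 1 = 0 → z = 0 := by decide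
        exact h7 _ h5
    have u13 := fl_dec1 _ _ hsec (hne e₁ e₃ q1 q3 n13)
    have u24 : sta D p e₄ = sta D p e₂ + (1, 0) := by
      refine fl_dec2 (sta D p e₁) _ _ (hne e₁ e₂ q1 q2 n12) (hne e₁ e₄ q1 q4 n14)
        (hne e₂ e₄ q2 q4 n24) ?_ ?_
      · rw [← u13]
        exact hne e₂ e₃ q2 q3 n23
      · rw [← u13]
        exact (hne e₃ e₄ q3 q4 n34).symm
    exact L7b D w p (1, 0) r hr e₁ e₂ e₃ e₄ s12 s23 s34 hw q1 q2 hall
      (hne e₁ e₂ q1 q2 n12) (hne e₁ e₄ q1 q4 n14) (hne e₂ e₃ q2 q3 n23) u13 u24 b1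

/-- the finite lemma, qualitative form -/
theorem fl_exact (hch : ∀ e f, D e ⊆ D f ∨ D f ⊆ D e) (hinj : Function.Injective D)
    (hu : ∀ e, D e ≠ univ) (hw : ∀ e, 0 ≤ w e) (g : ι) (hg : D g = ∅) (hwg : 0 < w g)
    (hR4 : 4 ≤ Fintype.card R) (hR : Fintype.card R ≤ 7) (K0 : Finset R)
    (hK0 : 2 * K0.card ≤ Fintype.card R ∨ (K0 = univ ∧ Fintype.card R = 4)) :
    (∃ l, l ∉ K0 ∧ GLx D w l) ∨ ((K0.card = 3 ∨ K0 = univ) ∧ GPx D w K0) := by
  classical
  -- the number of positive gaps is at most seven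
  have hcard : ((univ : Finset ι).filter (fun e => 0 < w e)).card ≤ 7 := by
    refine le_trans ?_ hR
    have h1 := blk_sum D w hch hinj g hg hwg
    have h2 := Finset.card_nsmul_le_sum ((univ : Finset ι).filter (fun e => 0 < w e))
      (fun e => (blk D w e).card) 1 (fun e _ => Finset.card_pos.2 (blk_ne D w hch hu e))
    have h3 : ∑ e ∈ (univ : Finset ι).filter (fun e => 0 < w e), (blk D w e).card =
      Fintype.card R := h1
    rw [h3, smul_eq_mul, mul_one] at h2
    exact h2
  by_cases hP : 4 ≤ ((univ : Finset ι).filter (fun e => 0 < w e)).card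
  · rcases hK0 with hK | ⟨hK, hR'⟩
    · by_cases hex : ∃ l, l ∉ K0 ∧ (grp D w l).card ≤ 2
      · obtain ⟨l, hl, hlc⟩ := hex
        exact Or.inl ⟨l, hl, GLx_of_small D w hch hinj hw g hg hwg hcard l hlc⟩
      · obtain ⟨h1, h2, e0, h3⟩ := L8 D w hch hinj g hg hwg hu hR (by omega) K0 hK hP (by
          intro l hl
          by_contra hc
          exact hex ⟨l, hl, by omega⟩)
        exact Or.inr ⟨Or.inl h2, GPx_of_four D w hch hinj hw g hg hwg h1 K0 e0 h3⟩
    · right
      refine ⟨Or.inr hK, ?_⟩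
      have h1 := blk_sum D w hch hinj g hg hwg
      have h1' : ∑ e ∈ (univ : Finset ι).filter (fun e => 0 < w e), (blk D w e).card = 4 := by
        rw [← hR']; exact h1
      have hpos : ∀ e, 1 ≤ (blk D w e).card := fun e => Finset.card_pos.2 (blk_ne D w hch hu e)
      have h2 := Finset.card_nsmul_le_sum ((univ : Finset ι).filter (fun e => 0 < w e))
        (fun e => (blk D w e).card) 1 (fun e _ => hpos e)
      rw [h1', smul_eq_mul, mul_one] at h2
      have h4 : ((univ : Finset ι).filter (fun e => 0 < w e)).card = 4 := le_antisymm h2 hP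
      refine GPx_of_four D w hch hinj hw g hg hwg h4 K0 g ?_
      intro e he _
      refine ⟨?_, by rw [hK]; exact Finset.subset_univ _⟩
      by_contra hne
      have h5 : e ∈ (univ : Finset ι).filter (fun e => 0 < w e) :=
        Finset.mem_filter.2 ⟨Finset.mem_univ e, he⟩
      have h6 := Finset.add_sum_erase _ (fun e => (blk D w e).card) h5
      rw [h1'] at h6
      have h7 := Finset.card_nsmul_le_sum (((univ : Finset ι).filter (fun e => 0 < w e)).erase e)
        (fun e => (blk D w e).card) 1 (fun e _ => hpos e)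
      rw [Finset.card_erase_of_mem h5, h4, smul_eq_mul, mul_one] at h7
      have h8 := hpos e
      have h9 : (blk D w e).card + ∑ x ∈ ((univ : Finset ι).filter (fun e => 0 < w e)).erase e,
        (blk D w x).card = 4 := h6
      omega
  · -- at most three positive gaps
    have hno : ∀ (p : R → ZMod 2 × ZMod 2) (r r' : ι → ι → Prop), RelT D p (1, 0) r →
        RelT D p (0, 1) r' → ∃ e, Sv D w p r e ≠ 0 ∨ Sv D w p r' e ≠ 0 := by
      intro p r r' hr hr'
      by_contra hc
      push Not at hc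
      exact hP (four_pos D w hw g hg hwg p r r' hr hr' (fun e => (hc e).1)
        (fun e => (hc e).2)).2
    rcases hK0 with hK | ⟨hK, hR'⟩
    · left
      have h1 : ∃ l, l ∉ K0 := by
        by_contra hc
        push Not at hc
        have h2 : K0 = univ := Finset.eq_univ_iff_forall.2 hc
        rw [h2, Finset.card_univ] at hK
        omega
      obtain ⟨l, hl⟩ := h1
      refine ⟨l, hl, ?_⟩
      intro p s _ s' _ _ r r' _ _ hr _ hr' _ _ _
      obtain ⟨e, he⟩ := hno p r r' hr hr'
      rcases he with he | he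
      · exact ⟨e, Or.inl he⟩
      · exact ⟨e, Or.inr (Or.inl he)⟩
    · right
      refine ⟨Or.inr hK, ?_⟩
      intro p _ _ r r' hr hr'
      exact hno p r r' hr hr'

end exact

section unif

variable {ι R : Type} [Fintype ι] [Fintype R] [DecidableEq R] (D : ι → Finset R)

/-- `l` is a good edge (quantitative form) -/
def GLc (c : ℝ) (w : ι → ℝ) (l : R) : Prop :=
  ∀ (p : R → ZMod 2 × ZMod 2), ∀ s, s ≠ l → ∀ s', s' ≠ l → s ≠ s' →
    ∀ r r' r₁ r₂ : ι → ι → Prop,
      RelT D p (1, 0) r → SprT D l s r → RelT D p (0, 1) r' → SprT D l s' r' →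
      RelT D (tgl p (1, 0) l s) (0, 1) r₁ → RelT D (tgl p (0, 1) l s') (1, 0) r₂ →
      ∃ e, c ≤ |Sv D w p r e| ∨ c ≤ |Sv D w p r' e| ∨ c ≤ |Sv D w (tgl p (1, 0) l s) r₁ e| ∨
        c ≤ |Sv D w (tgl p (0, 1) l s') r₂ e|

omit [DecidableEq R] in
/-- all patterns with second coordinate `1` on `K0` have an unbalanced class -/
def GPc (c : ℝ) (w : ι → ℝ) (K0 : Finset R) : Prop :=
  ∀ (p : R → ZMod 2 × ZMod 2), ∑ i, p i = 0 → (∀ i ∈ K0, (p i).2 = 1) →
    ∀ r r' : ι → ι → Prop, RelT D p (1, 0) r → RelT D p (0, 1) r' →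
      ∃ e, c ≤ |Sv D w p r e| ∨ c ≤ |Sv D w p r' e|

omit [Fintype R] [DecidableEq R] in
theorem Sv_cont (p : R → ZMod 2 × ZMod 2) (r : ι → ι → Prop) (e : ι) :
    Continuous (fun w : ι → ℝ => Sv D w p r e) := by
  classical
  unfold Sv
  refine continuous_finsetSum _ (fun f _ => ?_)
  by_cases h : r e f
  · by_cases h' : sta D p f = sta D p e
    · simp only [if_pos h, if_pos h']
      exact continuous_apply f
    · simp only [if_pos h, if_neg h']
      exact (continuous_apply f).neg
  · simp only [if_neg h]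
    exact continuous_const

omit [Fintype R] [DecidableEq R] in
theorem Sv_div (p : R → ZMod 2 × ZMod 2) (r : ι → ι → Prop) (e : ι) (w : ι → ℝ) (t : ℝ) :
    Sv D (fun f => w f / t) p r e = Sv D w p r e / t := by
  classical
  unfold Sv
  rw [Finset.sum_div]
  refine Finset.sum_congr rfl fun f _ => ?_
  by_cases h : r e f
  · by_cases h' : sta D p f = sta D p e
    · rw [if_pos h, if_pos h', if_pos h, if_pos h']
    · rw [if_pos h, if_neg h', if_pos h, if_neg h', neg_div]
  · rw [if_neg h, if_neg h, zero_div]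

/-- the four class sums -/
noncomputable def flS4 (l : R) (t : (R → ZMod 2 × ZMod 2) × R × R × (ι → ι → Prop) ×
    (ι → ι → Prop) × (ι → ι → Prop) × (ι → ι → Prop)) (w : ι → ℝ) (u : ι × Fin 4) : ℝ :=
  if u.2 = 0 then Sv D w t.1 t.2.2.2.1 u.1 else if u.2 = 1 then Sv D w t.1 t.2.2.2.2.1 u.1
    else if u.2 = 2 then Sv D w (tgl t.1 (1, 0) l t.2.1) t.2.2.2.2.2.1 u.1
    else Sv D w (tgl t.1 (0, 1) l t.2.2.1) t.2.2.2.2.2.2 u.1

/-- the two class sums -/
noncomputable def flS2 (t : (R → ZMod 2 × ZMod 2) × (ι → ι → Prop) × (ι → ι → Prop))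
    (w : ι → ℝ) (u : ι × Fin 2) : ℝ :=
  if u.2 = 0 then Sv D w t.1 t.2.1 u.1 else Sv D w t.1 t.2.2 u.1

theorem fl_unif (hch : ∀ e f, D e ⊆ D f ∨ D f ⊆ D e) (hinj : Function.Injective D)
    (hu : ∀ e, D e ≠ univ) (g : ι) (hg : D g = ∅)
    (hR4 : 4 ≤ Fintype.card R) (hR : Fintype.card R ≤ 7) (K0 : Finset R)
    (hK0 : 2 * K0.card ≤ Fintype.card R ∨ (K0 = univ ∧ Fintype.card R = 4)) :
    ∃ c : ℝ, 0 < c ∧ ∀ w : ι → ℝ, (∀ e, 0 ≤ w e) → (∀ e, w e ≤ w g) →
      ((∃ l, l ∉ K0 ∧ GLc D (c * w g) w l) ∨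
        ((K0.card = 3 ∨ K0 = univ) ∧ GPc D (c * w g) w K0)) := by
  classical
  have : Nonempty R := Fintype.card_pos_iff.1 (by omega)
  have : Nonempty ι := ⟨g⟩
  let T1 := (R → ZMod 2 × ZMod 2) × R × R × (ι → ι → Prop) × (ι → ι → Prop) × (ι → ι → Prop) ×
    (ι → ι → Prop)
  let T2 := (R → ZMod 2 × ZMod 2) × (ι → ι → Prop) × (ι → ι → Prop)
  have neT1 : Nonempty T1 := inferInstance
  have neT2 : Nonempty T2 := inferInstance
  let v1 : R → T1 → Prop := fun l t => t.2.1 ≠ l ∧ t.2.2.1 ≠ l ∧ t.2.1 ≠ t.2.2.1 ∧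
    RelT D t.1 (1, 0) t.2.2.2.1 ∧ SprT D l t.2.1 t.2.2.2.1 ∧
    RelT D t.1 (0, 1) t.2.2.2.2.1 ∧ SprT D l t.2.2.1 t.2.2.2.2.1 ∧
    RelT D (tgl t.1 (1, 0) l t.2.1) (0, 1) t.2.2.2.2.2.1 ∧
    RelT D (tgl t.1 (0, 1) l t.2.2.1) (1, 0) t.2.2.2.2.2.2
  let v2 : T2 → Prop := fun t => ∑ i, t.1 i = 0 ∧ (∀ i ∈ K0, (t.1 i).2 = 1) ∧
    RelT D t.1 (1, 0) t.2.1 ∧ RelT D t.1 (0, 1) t.2.2
  have hn4 : (univ : Finset (ι × Fin 4)).Nonempty := Finset.univ_nonempty
  have hn2 : (univ : Finset (ι × Fin 2)).Nonempty := Finset.univ_nonempty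
  have hnR : (univ : Finset R).Nonempty := Finset.univ_nonempty
  have hnT1 : (univ : Finset T1).Nonempty := Finset.univ_nonempty
  have hnT2 : (univ : Finset T2).Nonempty := Finset.univ_nonempty
  let G1 : R → T1 → (ι → ℝ) → ℝ := fun l t w => if l ∈ K0 then 0 else
    if v1 l t then univ.sup' hn4 (fun u => |flS4 D l t w u|) else 1
  let G2 : T2 → (ι → ℝ) → ℝ := fun t w => if (K0.card = 3 ∨ K0 = univ) then
    (if v2 t then univ.sup' hn2 (fun u => |flS2 D t w u|) else 1) else 0
  let F : (ι → ℝ) → ℝ := fun w => max (univ.sup' hnR (fun l => univ.inf' hnT1 (fun t => G1 l t w)))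
    (univ.inf' hnT2 (fun t => G2 t w))
  have cS4 : ∀ l t u, Continuous (fun w : ι → ℝ => flS4 D l t w u) := by
    intro l t u
    unfold flS4
    by_cases h0 : u.2 = 0
    · simp only [if_pos h0]; exact Sv_cont D _ _ _
    · by_cases h1 : u.2 = 1
      · simp only [if_neg h0, if_pos h1]; exact Sv_cont D _ _ _
      · by_cases h2 : u.2 = 2
        · simp only [if_neg h0, if_neg h1, if_pos h2]; exact Sv_cont D _ _ _
        · simp only [if_neg h0, if_neg h1, if_neg h2]; exact Sv_cont D _ _ _
  have cS2 : ∀ t u, Continuous (fun w : ι → ℝ => flS2 D t w u) := by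
    intro t u
    unfold flS2
    by_cases h0 : u.2 = 0
    · simp only [if_pos h0]; exact Sv_cont D _ _ _
    · simp only [if_neg h0]; exact Sv_cont D _ _ _
  have cG1 : ∀ l t, Continuous (G1 l t) := by
    intro l t
    simp only [G1]
    by_cases h0 : l ∈ K0
    · simp only [if_pos h0]; exact continuous_const
    · by_cases h1 : v1 l t
      · simp only [if_neg h0, if_pos h1]
        exact Continuous.finset_sup'_apply hn4 (fun u _ => (cS4 _ _ _).abs)
      · simp only [if_neg h0, if_neg h1]; exact continuous_const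
  have cG2 : ∀ t, Continuous (G2 t) := by
    intro t
    simp only [G2]
    by_cases h0 : (K0.card = 3 ∨ K0 = univ)
    · by_cases h1 : v2 t
      · simp only [if_pos h0, if_pos h1]
        exact Continuous.finset_sup'_apply hn2 (fun u _ => (cS2 _ _).abs)
      · simp only [if_pos h0, if_neg h1]; exact continuous_const
    · simp only [if_neg h0]; exact continuous_const
  have cF : Continuous F :=
    (Continuous.finset_sup'_apply hnR (fun l _ => Continuous.finset_inf'_apply hnT1
      (fun t _ => cG1 l t))).max (Continuous.finset_inf'_apply hnT2 (fun t _ => cG2 t))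
  let K : Set (ι → ℝ) := {w | w g = 1} ∩ Set.pi Set.univ (fun _ => Set.Icc (0 : ℝ) 1)
  have hK : IsCompact K := by
    apply IsCompact.inter_left (isCompact_univ_pi (fun _ => isCompact_Icc))
    exact isClosed_eq (continuous_apply g) continuous_const
  have hKne : K.Nonempty := ⟨fun _ => 1, rfl, fun _ _ => ⟨zero_le_one, le_refl _⟩⟩
  obtain ⟨x, hx, hmin⟩ := hK.exists_isMinOn hKne cF.continuousOn
  have hFpos : 0 < F x := by
    have h1 : x g = 1 := hx.1
    rcases fl_exact D x hch hinj hu (fun e => (hx.2 e (Set.mem_univ e)).1) g hg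
      (by rw [h1]; exact one_pos) hR4 hR K0 hK0 with ⟨l, hl, hG⟩ | ⟨hc, hG⟩
    · refine lt_max_of_lt_left ((Finset.lt_sup'_iff hnR).2 ⟨l, Finset.mem_univ _, ?_⟩)
      rw [Finset.lt_inf'_iff hnT1]
      intro t _
      simp only [G1]
      rw [if_neg hl]
      by_cases h2 : v1 l t
      · rw [if_pos h2]
        obtain ⟨a1, a2, a3, a4, a5, a6, a7, a8, a9⟩ := h2
        obtain ⟨e, he⟩ := hG t.1 t.2.1 a1 t.2.2.1 a2 a3 _ _ _ _ a4 a5 a6 a7 a8 a9
        rw [Finset.lt_sup'_iff hn4]
        rcases he with he | he | he | he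
        · refine ⟨(e, 0), Finset.mem_univ _, abs_pos.2 ?_⟩
          unfold flS4
          rw [if_pos rfl]
          exact he
        · refine ⟨(e, 1), Finset.mem_univ _, abs_pos.2 ?_⟩
          unfold flS4
          rw [if_neg (by show ¬ ((1 : Fin 4) = 0); decide), if_pos rfl]
          exact he
        · refine ⟨(e, 2), Finset.mem_univ _, abs_pos.2 ?_⟩
          unfold flS4
          rw [if_neg (by show ¬ ((2 : Fin 4) = 0); decide),
            if_neg (by show ¬ ((2 : Fin 4) = 1); decide), if_pos rfl]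
          exact he
        · refine ⟨(e, 3), Finset.mem_univ _, abs_pos.2 ?_⟩
          unfold flS4
          rw [if_neg (by show ¬ ((3 : Fin 4) = 0); decide),
            if_neg (by show ¬ ((3 : Fin 4) = 1); decide),
            if_neg (by show ¬ ((3 : Fin 4) = 2); decide)]
          exact he
      · rw [if_neg h2]
        exact one_pos
    · refine lt_max_of_lt_right ?_
      rw [Finset.lt_inf'_iff hnT2]
      intro t _
      simp only [G2]
      rw [if_pos hc]
      by_cases h2 : v2 t
      · rw [if_pos h2]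
        obtain ⟨a1, a2, a3, a4⟩ := h2
        obtain ⟨e, he⟩ := hG t.1 a1 a2 _ _ a3 a4
        rw [Finset.lt_sup'_iff hn2]
        rcases he with he | he
        · refine ⟨(e, 0), Finset.mem_univ _, abs_pos.2 ?_⟩
          unfold flS2
          rw [if_pos rfl]
          exact he
        · refine ⟨(e, 1), Finset.mem_univ _, abs_pos.2 ?_⟩
          unfold flS2
          rw [if_neg (by show ¬ ((1 : Fin 2) = 0); decide)]
          exact he
      · rw [if_neg h2]
        exact one_pos
  refine ⟨F x, hFpos, ?_⟩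
  intro w hw hwg
  rcases (hw g).eq_or_lt with h0 | h0
  · rw [← h0, mul_zero]
    rcases hK0 with hK0 | hK0
    · left
      have h1 : ∃ l, l ∉ K0 := by
        by_contra hc
        push Not at hc
        have h2 : K0 = univ := Finset.eq_univ_iff_forall.2 hc
        rw [h2, Finset.card_univ] at hK0
        omega
      obtain ⟨l, hl⟩ := h1
      exact ⟨l, hl, fun _ _ _ _ _ _ _ _ _ _ _ _ _ _ _ _ => ⟨g, Or.inl (abs_nonneg _)⟩⟩
    · right
      exact ⟨Or.inr hK0.1, fun _ _ _ _ _ _ _ => ⟨g, Or.inl (abs_nonneg _)⟩⟩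
  · have hw' : (fun e => w e / w g) ∈ K := by
      refine ⟨div_self h0.ne', fun e _ => ⟨div_nonneg (hw e) h0.le, ?_⟩⟩
      rw [div_le_one h0]
      exact hwg e
    have h1 : F x ≤ F (fun e => w e / w g) := hmin hw'
    have hdiv : ∀ (p : R → ZMod 2 × ZMod 2) (r : ι → ι → Prop) (e : ι),
        F x ≤ |Sv D (fun f => w f / w g) p r e| → F x * w g ≤ |Sv D w p r e| := by
      intro p r e h2
      rw [Sv_div, abs_div, abs_of_pos h0, le_div_iff₀ h0] at h2
      exact h2
    rcases le_max_iff.1 h1 with h2 | h2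
    · left
      obtain ⟨l, _, hl⟩ := (Finset.le_sup'_iff hnR).1 h2
      have hlK : l ∉ K0 := by
        intro hc
        obtain ⟨t0⟩ := neT1
        have h3 := (Finset.le_inf'_iff hnT1 _).1 hl t0 (Finset.mem_univ _)
        simp only [G1] at h3
        rw [if_pos hc] at h3
        exact absurd hFpos (not_lt.2 h3)
      refine ⟨l, hlK, ?_⟩
      intro p s hs s' hs' hss r r' r₁ r₂ b1 b2 b3 b4 b5 b6
      have h3 := (Finset.le_inf'_iff hnT1 _).1 hl (p, s, s', r, r', r₁, r₂) (Finset.mem_univ _)
      simp only [G1] at h3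
      rw [if_neg hlK, if_pos (show v1 l (p, s, s', r, r', r₁, r₂) from
        ⟨hs, hs', hss, b1, b2, b3, b4, b5, b6⟩)] at h3
      obtain ⟨u, _, hu'⟩ := (Finset.le_sup'_iff hn4).1 h3
      obtain ⟨e, k⟩ := u
      refine ⟨e, ?_⟩
      unfold flS4 at hu'
      by_cases k0 : k = 0
      · rw [if_pos k0] at hu'
        exact Or.inl (hdiv _ _ _ hu')
      · by_cases k1 : k = 1
        · rw [if_neg k0, if_pos k1] at hu'
          exact Or.inr (Or.inl (hdiv _ _ _ hu'))
        · by_cases k2 : k = 2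
          · rw [if_neg k0, if_neg k1, if_pos k2] at hu'
            exact Or.inr (Or.inr (Or.inl (hdiv _ _ _ hu')))
          · rw [if_neg k0, if_neg k1, if_neg k2] at hu'
            exact Or.inr (Or.inr (Or.inr (hdiv _ _ _ hu')))
    · right
      have hc : K0.card = 3 ∨ K0 = univ := by
        by_contra hc
        obtain ⟨t0⟩ := neT2
        have h3 := (Finset.le_inf'_iff hnT2 _).1 h2 t0 (Finset.mem_univ _)
        simp only [G2] at h3
        rw [if_neg hc] at h3
        exact absurd hFpos (not_lt.2 h3)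
      refine ⟨hc, ?_⟩
      intro p hp hp' r r' b1 b2
      have h3 := (Finset.le_inf'_iff hnT2 _).1 h2 (p, r, r') (Finset.mem_univ _)
      simp only [G2] at h3
      rw [if_pos hc, if_pos (show v2 (p, r, r') from ⟨hp, hp', b1, b2⟩)] at h3
      obtain ⟨u, _, hu'⟩ := (Finset.le_sup'_iff hn2).1 h3
      obtain ⟨e, k⟩ := u
      refine ⟨e, ?_⟩
      unfold flS2 at hu'
      by_cases k0 : k = 0
      · rw [if_pos k0] at hu'
        exact Or.inl (hdiv _ _ _ hu')
      · rw [if_neg k0] at hu'
        exact Or.inr (hdiv _ _ _ hu')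

end unif

/-- the finite lemma with an absolute constant, for the standard finite types -/
theorem fl_abs : ∃ c : ℝ, 0 < c ∧ ∀ (n k : Fin 8) (D : Fin n → Finset (Fin k)) (g : Fin n)
    (K0 : Finset (Fin k)), (∀ e f, D e ⊆ D f ∨ D f ⊆ D e) → Function.Injective D →
    (∀ e, D e ≠ univ) → D g = ∅ → 4 ≤ (k : ℕ) →
    (2 * K0.card ≤ (k : ℕ) ∨ (K0 = univ ∧ (k : ℕ) = 4)) →
    ∀ w : Fin n → ℝ, (∀ e, 0 ≤ w e) → (∀ e, w e ≤ w g) →
      ((∃ l, l ∉ K0 ∧ GLc D (c * w g) w l) ∨
        ((K0.card = 3 ∨ K0 = univ) ∧ GPc D (c * w g) w K0)) := by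
  classical
  let T := Σ n : Fin 8, Σ k : Fin 8, (Fin n → Finset (Fin k)) × Fin n × Finset (Fin k)
  have hT : ∀ t : T, ∃ c : ℝ, 0 < c ∧
      ((∀ e f, t.2.2.1 e ⊆ t.2.2.1 f ∨ t.2.2.1 f ⊆ t.2.2.1 e) → Function.Injective t.2.2.1 →
      (∀ e, t.2.2.1 e ≠ univ) → t.2.2.1 t.2.2.2.1 = ∅ → 4 ≤ (t.2.1 : ℕ) →
      (2 * t.2.2.2.2.card ≤ (t.2.1 : ℕ) ∨ (t.2.2.2.2 = univ ∧ (t.2.1 : ℕ) = 4)) →
      ∀ w : Fin t.1 → ℝ, (∀ e, 0 ≤ w e) → (∀ e, w e ≤ w t.2.2.2.1) →
      ((∃ l, l ∉ t.2.2.2.2 ∧ GLc t.2.2.1 (c * w t.2.2.2.1) w l) ∨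
        ((t.2.2.2.2.card = 3 ∨ t.2.2.2.2 = univ) ∧
          GPc t.2.2.1 (c * w t.2.2.2.1) w t.2.2.2.2))) := by
    intro t
    by_cases h : ((∀ e f, t.2.2.1 e ⊆ t.2.2.1 f ∨ t.2.2.1 f ⊆ t.2.2.1 e) ∧
      Function.Injective t.2.2.1 ∧ (∀ e, t.2.2.1 e ≠ univ) ∧ t.2.2.1 t.2.2.2.1 = ∅ ∧
      4 ≤ (t.2.1 : ℕ) ∧
      (2 * t.2.2.2.2.card ≤ (t.2.1 : ℕ) ∨ (t.2.2.2.2 = univ ∧ (t.2.1 : ℕ) = 4)))
    · obtain ⟨h1, h2, h3, h4, h5, h6⟩ := h
      obtain ⟨c, hc, hc'⟩ := fl_unif t.2.2.1 h1 h2 h3 t.2.2.2.1 h4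
        (by rw [Fintype.card_fin]; exact h5)
        (by rw [Fintype.card_fin]; have := t.2.1.2; omega) t.2.2.2.2
        (by rw [Fintype.card_fin]; exact h6)
      exact ⟨c, hc, fun _ _ _ _ _ _ => hc'⟩
    · exact ⟨1, one_pos, fun h1 h2 h3 h4 h5 h6 => absurd ⟨h1, h2, h3, h4, h5, h6⟩ h⟩
  choose c hc hc' using hT
  obtain ⟨c0, hc0, hle⟩ : ∃ c0 : ℝ, 0 < c0 ∧ ∀ t : T, c0 ≤ c t := by
    by_cases hne : Nonempty T
    · obtain ⟨t0, ht0⟩ := Finite.exists_min c
      exact ⟨c t0, hc t0, ht0⟩
    · exact ⟨1, one_pos, fun t => absurd ⟨t⟩ hne⟩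
  refine ⟨c0, hc0, ?_⟩
  intro n k D g K0 h1 h2 h3 h4 h5 h6 w hw hwg
  have hmul : c0 * w g ≤ c ⟨n, k, D, g, K0⟩ * w g :=
    mul_le_mul_of_nonneg_right (hle _) (hw g)
  rcases hc' ⟨n, k, D, g, K0⟩ h1 h2 h3 h4 h5 h6 w hw hwg with ⟨l, hl, hG⟩ | ⟨hK, hG⟩
  · left
    refine ⟨l, hl, ?_⟩
    intro p s hs s' hs' hss r r' r₁ r₂ b1 b2 b3 b4 b5 b6
    obtain ⟨e, he⟩ := hG p s hs s' hs' hss r r' r₁ r₂ b1 b2 b3 b4 b5 b6
    refine ⟨e, ?_⟩
    rcases he with he | he | he | he
    · exact Or.inl (le_trans hmul he)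
    · exact Or.inr (Or.inl (le_trans hmul he))
    · exact Or.inr (Or.inr (Or.inl (le_trans hmul he)))
    · exact Or.inr (Or.inr (Or.inr (le_trans hmul he)))
  · right
    refine ⟨hK, ?_⟩
    intro p hp hp' r r' b1 b2
    obtain ⟨e, he⟩ := hG p hp hp' r r' b1 b2
    refine ⟨e, ?_⟩
    rcases he with he | he
    · exact Or.inl (le_trans hmul he)
    · exact Or.inr (le_trans hmul he)

end Pool.Agent.Lib.MP_95e9b3_coG
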