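import Pool.Agent.Lib.MP_95e9b3_coG.R4Defs2
import Pool.Agent.Lib.MP_95e9b3_coG.R4FL

/-!
# Route G, block R4: the finite lemma
-/

set_option autoImplicit false

namespace Pool.Agent.Lib.MP_95e9b3_coG

open Finset Pool.Agent.Lib.MP_95e9b3_coC

section transport

variable {E : Type} [Fintype E] [DecidableEq E] (K A0 : Finset E) (D : E → Finset E)
  (w : E → ℕ) {n k : ℕ} (a : Fin n ≃ A0) (b : Fin k ≃ K)

/-- the chain in the enumerations -/
def Dt (i : Fin n) : Finset (Fin k) := univ.filter (fun j => (b j : E) ∈ D (a i))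

theorem mem_Dt (i : Fin n) (j : Fin k) : j ∈ Dt K A0 D a b i ↔ (b j : E) ∈ D (a i) := by
  unfold Dt
  rw [Finset.mem_filter]
  exact ⟨fun h => h.2, fun h => ⟨Finset.mem_univ j, h⟩⟩

theorem sum_K {β : Type} [AddCommMonoid β] (S : Finset E) (hS : S ⊆ K) (p : E → β) :
    ∑ j ∈ univ.filter (fun j : Fin k => (b j : E) ∈ S), p (b j) = ∑ x ∈ S, p x := by
  rw [Finset.sum_filter]
  have h1 : ∑ j, (if (b j : E) ∈ S then p (b j) else 0) =
      ∑ x : K, (if (x : E) ∈ S then p x else 0) :=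
    Equiv.sum_comp b (fun x : K => if (x : E) ∈ S then p x else 0)
  rw [h1, Finset.sum_coe_sort K (fun x => if x ∈ S then p x else 0), Finset.sum_ite_mem,
    Finset.inter_eq_right.2 hS]

theorem sta_Dt (hD : ∀ e ∈ A0, D e ⊆ K) (p : E → K4) (i : Fin n) :
    sta (Dt K A0 D a b) (fun j => p (b j)) i = ∑ x ∈ D (a i), p x := by
  unfold sta Dt
  exact sum_K K b (D (a i)) (hD _ (a i).2) p

theorem Dt_sub (hD : ∀ e ∈ A0, D e ⊆ K) (i j : Fin n) :
    Dt K A0 D a b i ⊆ Dt K A0 D a b j ↔ D (a i) ⊆ D (a j) := by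
  constructor
  · intro h x hx
    have hxK := hD _ (a i).2 hx
    have h1 : b.symm ⟨x, hxK⟩ ∈ Dt K A0 D a b i := by
      rw [mem_Dt, Equiv.apply_symm_apply]
      exact hx
    have h2 := h h1
    rw [mem_Dt, Equiv.apply_symm_apply] at h2
    exact h2
  · intro h x hx
    rw [mem_Dt] at hx ⊢
    exact h hx

theorem Rel_Dt (hD : ∀ e ∈ A0, D e ⊆ K) (p : E → K4) (c : K4) (r : E → E → Prop)
    (h : Rel4 A0 D p c r) :
    RelT (Dt K A0 D a b) (fun j => p (b j)) c (fun i j => r (a i) (a j)) where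
  refl := fun i => h.refl _ (a i).2
  symm := fun i j => h.symm _ (a i).2 _ (a j).2
  trans := fun i j l => h.trans _ (a i).2 _ (a j).2 _ (a l).2
  two := fun i j hij => by
    rw [sta_Dt K A0 D a b hD, sta_Dt K A0 D a b hD]
    exact h.two _ (a i).2 _ (a j).2 hij
  nc := fun e₁ e₂ e₃ e₄ h12 h23 h34 h13 h24 => by
    refine h.nc _ (a e₁).2 _ (a e₂).2 _ (a e₃).2 _ (a e₄).2 ?_ ?_ ?_ h13 h24
    · exact ⟨(Dt_sub K A0 D a b hD _ _).1 h12.1, fun h => h12.2 ((Dt_sub K A0 D a b hD _ _).2 h)⟩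
    · exact ⟨(Dt_sub K A0 D a b hD _ _).1 h23.1, fun h => h23.2 ((Dt_sub K A0 D a b hD _ _).2 h)⟩
    · exact ⟨(Dt_sub K A0 D a b hD _ _).1 h34.1, fun h => h34.2 ((Dt_sub K A0 D a b hD _ _).2 h)⟩

theorem Spr_Dt (l s : Fin k) (r : E → E → Prop) (h : Spr A0 D (b l) (b s) r) :
    SprT (Dt K A0 D a b) l s (fun i j => r (a i) (a j)) := by
  intro i j hij
  rw [mem_Dt, mem_Dt, mem_Dt, mem_Dt] at hij
  exact h _ (a i).2 _ (a j).2 hij

theorem Sv_Dt (hD : ∀ e ∈ A0, D e ⊆ K) (p : E → K4) (r : E → E → Prop) (i : Fin n) :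
    Sv (Dt K A0 D a b) (fun j => (w (a j) : ℝ)) (fun j => p (b j)) (fun i j => r (a i) (a j)) i =
      cls w A0 D p r (a i) := by
  classical
  unfold Sv cls
  rw [Finset.sum_filter]
  have h1 : ∑ f ∈ A0, (if r (a i) f then
      (w f : ℝ) * (if ∑ x ∈ D f, p x = ∑ x ∈ D (a i), p x then 1 else -1) else 0) =
      ∑ f : A0, (if r (a i) f then
      (w f : ℝ) * (if ∑ x ∈ D f, p x = ∑ x ∈ D (a i), p x then 1 else -1) else 0) :=
    (Finset.sum_coe_sort A0 (fun f => if r (a i) f then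
      (w f : ℝ) * (if ∑ x ∈ D f, p x = ∑ x ∈ D (a i), p x then 1 else -1) else 0)).symm
  rw [h1, ← Equiv.sum_comp a]
  refine Finset.sum_congr rfl fun j _ => ?_
  rw [sta_Dt K A0 D a b hD, sta_Dt K A0 D a b hD]
  by_cases hr : r (a i) (a j)
  · rw [if_pos hr, if_pos hr]
    by_cases hs : ∑ x ∈ D (a j), p x = ∑ x ∈ D (a i), p x
    · rw [if_pos hs, if_pos hs, mul_one]
    · rw [if_neg hs, if_neg hs, mul_neg, mul_one]
  · rw [if_neg hr, if_neg hr]

theorem tog_Dt (p : E → K4) (c : K4) (l s : Fin k) :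
    (fun j => tog p c {(b l : E), (b s : E)} (b j)) = tgl (fun j => p (b j)) c l s := by
  funext j
  unfold tog tgl
  congr 1
  have h1 : ((b j : E) ∈ ({(b l : E), (b s : E)} : Finset E)) ↔ j ∈ ({l, s} : Finset (Fin k)) := by
    rw [Finset.mem_insert, Finset.mem_singleton, Finset.mem_insert, Finset.mem_singleton]
    constructor
    · rintro (h | h)
      · exact Or.inl (b.injective (Subtype.ext h))
      · exact Or.inr (b.injective (Subtype.ext h))
    · rintro (h | h)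
      · rw [h]; exact Or.inl rfl
      · rw [h]; exact Or.inr rfl
  exact if_congr h1 rfl rfl

theorem GoodL_of (hD : ∀ e ∈ A0, D e ⊆ K) (c : ℝ) (g : E) (l : Fin k)
    (h : GLc (Dt K A0 D a b) (c * (w g : ℝ)) (fun j => (w (a j) : ℝ)) l) :
    GoodL c K A0 D g w (b l) := by
  intro p _ s hs hsl s' hs' hsl' hss r r' r₁ r₂ h1 h2 h3 h4 h5 h6
  obtain ⟨t, ht⟩ : ∃ t : Fin k, (b t : E) = s := ⟨b.symm ⟨s, hs⟩, by rw [Equiv.apply_symm_apply]⟩
  obtain ⟨t', ht'⟩ : ∃ t : Fin k, (b t : E) = s' :=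
    ⟨b.symm ⟨s', hs'⟩, by rw [Equiv.apply_symm_apply]⟩
  subst ht
  subst ht'
  have k5 := Rel_Dt K A0 D a b hD _ _ _ h5
  have k6 := Rel_Dt K A0 D a b hD _ _ _ h6
  rw [tog_Dt] at k5 k6
  obtain ⟨i, hi⟩ := h (fun j => p (b j)) t (fun h7 => hsl (by rw [h7])) t'
    (fun h7 => hsl' (by rw [h7])) (fun h7 => hss (by rw [h7])) _ _ _ _
    (Rel_Dt K A0 D a b hD _ _ _ h1) (Spr_Dt K A0 D a b l t r h2)
    (Rel_Dt K A0 D a b hD _ _ _ h3) (Spr_Dt K A0 D a b l t' r' h4) k5 k6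
  refine ⟨a i, (a i).2, ?_⟩
  rw [← tog_Dt, ← tog_Dt, Sv_Dt K A0 D w a b hD, Sv_Dt K A0 D w a b hD, Sv_Dt K A0 D w a b hD,
    Sv_Dt K A0 D w a b hD] at hi
  exact hi

theorem GoodP_of (hD : ∀ e ∈ A0, D e ⊆ K) (c : ℝ) (g : E) (K0 : Finset E)
    (h : GPc (Dt K A0 D a b) (c * (w g : ℝ)) (fun j => (w (a j) : ℝ))
      (univ.filter (fun j : Fin k => (b j : E) ∈ K0))) :
    GoodP c K K0 A0 D g w := by
  intro p hp hp2 r r' h1 h2
  obtain ⟨i, hi⟩ := h (fun j => p (b j)) (by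
      rw [← hp, ← sum_K K b K (Finset.Subset.refl K) p]
      refine Finset.sum_congr ?_ fun _ _ => rfl
      symm
      rw [Finset.eq_univ_iff_forall]
      intro j
      exact Finset.mem_filter.2 ⟨Finset.mem_univ j, (b j).2⟩)
    (fun j hj => hp2 _ (Finset.mem_filter.1 hj).2) _ _
    (Rel_Dt K A0 D a b hD _ _ _ h1) (Rel_Dt K A0 D a b hD _ _ _ h2)
  refine ⟨a i, (a i).2, ?_⟩
  rw [Sv_Dt K A0 D w a b hD, Sv_Dt K A0 D w a b hD] at hi
  exact hi

end transport

/-- the finite lemma -/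
theorem fl4 : ∃ c : ℝ, 0 < c ∧ ∀ (E : Type) [Fintype E] [DecidableEq E] (K K0 A0 : Finset E)
    (D : E → Finset E) (g : E) (w : E → ℕ), 4 ≤ K.card → K.card ≤ 7 → K0 ⊆ K →
    (2 * K0.card ≤ K.card ∨ (K0 = K ∧ K.card = 4)) → g ∈ A0 → D g = ∅ →
    (∀ e ∈ A0, D e ⊆ K) → (∀ e ∈ A0, D e ≠ K) → (∀ e ∈ A0, ∀ f ∈ A0, D e ⊆ D f ∨ D f ⊆ D e) →
    (∀ e ∈ A0, ∀ f ∈ A0, e ≠ f → D e ≠ D f) → (∀ e ∈ A0, w e ≤ w g) →
    (∃ l ∈ K, l ∉ K0 ∧ GoodL c K A0 D g w l) ∨
      ((K0.card = 3 ∨ K0 = K) ∧ GoodP c K K0 A0 D g w) := by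
  classical
  obtain ⟨c, hc, hfl⟩ := fl_abs
  refine ⟨c, hc, ?_⟩
  intro E _ _ K K0 A0 D g w hK4 hK7 hK0K hK0 hg hDg hDK hDne hch hinj hwg
  -- the number of gaps
  have hA0 : A0.card < 8 := by
    have h1 : A0.image (fun e => (D e).card) ⊆ Finset.range K.card := by
      intro x hx
      rw [Finset.mem_image] at hx
      obtain ⟨e, he, rfl⟩ := hx
      rw [Finset.mem_range]
      exact Finset.card_lt_card (Finset.ssubset_iff_subset_ne.2 ⟨hDK e he, hDne e he⟩)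
    have h2 := Finset.card_le_card h1
    rw [Finset.card_range, Finset.card_image_of_injOn] at h2
    · omega
    · intro e he f hf hef
      by_contra hne
      have hef' : (D e).card = (D f).card := hef
      rcases hch e he f hf with h3 | h3
      · exact hinj e he f hf hne (Finset.eq_of_subset_of_card_le h3 (le_of_eq hef'.symm))
      · exact hinj e he f hf hne (Finset.eq_of_subset_of_card_le h3 (le_of_eq hef')).symm
  obtain ⟨a⟩ : Nonempty (Fin A0.card ≃ A0) := ⟨A0.equivFin.symm⟩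
  obtain ⟨b⟩ : Nonempty (Fin K.card ≃ K) := ⟨K.equivFin.symm⟩
  obtain ⟨g', hg'⟩ : ∃ i : Fin A0.card, (a i : E) = g :=
    ⟨a.symm ⟨g, hg⟩, by rw [Equiv.apply_symm_apply]⟩
  obtain ⟨K0', hK0'⟩ : ∃ S : Finset (Fin K.card), S = univ.filter (fun j => (b j : E) ∈ K0) :=
    ⟨_, rfl⟩
  have hcard : K0'.card = K0.card := by
    have h1 := sum_K K b K0 hK0K (fun _ => (1 : ℕ))
    rw [← hK0', Finset.sum_const, Finset.sum_const, smul_eq_mul, mul_one, smul_eq_mul,
      mul_one] at h1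
    exact h1
  have huniv : K0' = univ ↔ K0 = K := by
    constructor
    · intro h
      refine Finset.Subset.antisymm hK0K fun x hx => ?_
      have h1 : b.symm ⟨x, hx⟩ ∈ K0' := by rw [h]; exact Finset.mem_univ _
      rw [hK0', Finset.mem_filter, Equiv.apply_symm_apply] at h1
      exact h1.2
    · intro h
      rw [Finset.eq_univ_iff_forall]
      intro j
      rw [hK0', Finset.mem_filter, h]
      exact ⟨Finset.mem_univ j, (b j).2⟩
  have hwg' : (w (a g') : ℝ) = (w g : ℝ) := by rw [hg']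
  have key := hfl ⟨A0.card, hA0⟩ ⟨K.card, by omega⟩ (Dt K A0 D a b) g' K0' (by
      intro i j
      rcases hch _ (a i).2 _ (a j).2 with h | h
      · exact Or.inl ((Dt_sub K A0 D a b hDK i j).2 h)
      · exact Or.inr ((Dt_sub K A0 D a b hDK j i).2 h)) (by
      intro i j hij
      have h1 : D (a i) = D (a j) := Finset.Subset.antisymm
        ((Dt_sub K A0 D a b hDK i j).1 (by rw [hij])) ((Dt_sub K A0 D a b hDK j i).1 (by rw [hij]))
      by_contra hne
      exact hinj _ (a i).2 _ (a j).2 (fun h => hne (a.injective (Subtype.ext h))) h1) (by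
      intro i hi
      apply hDne _ (a i).2
      refine Finset.Subset.antisymm (hDK _ (a i).2) fun x hx => ?_
      have h1 : b.symm ⟨x, hx⟩ ∈ Dt K A0 D a b i := by rw [hi]; exact Finset.mem_univ _
      rw [mem_Dt, Equiv.apply_symm_apply] at h1
      exact h1) (by
      rw [Finset.eq_empty_iff_forall_notMem]
      intro j hj
      rw [mem_Dt, hg', hDg] at hj
      exact absurd hj (Finset.notMem_empty _)) hK4 (by
      rcases hK0 with h | ⟨h1, h2⟩
      · left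
        rw [hcard]
        exact h
      · right
        exact ⟨huniv.2 h1, h2⟩) (fun i => (w (a i) : ℝ)) (fun i => Nat.cast_nonneg _) (by
      intro i
      show (w (a i) : ℝ) ≤ (w (a g') : ℝ)
      rw [hwg']
      exact Nat.cast_le.2 (hwg _ (a i).2))
  rcases key with ⟨l, hl, hG⟩ | ⟨hKK, hG⟩
  · left
    refine ⟨b l, (b l).2, ?_, ?_⟩
    · intro h
      apply hl
      rw [hK0', Finset.mem_filter]
      exact ⟨Finset.mem_univ l, h⟩
    · refine GoodL_of K A0 D w a b hDK c g l ?_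
      rw [← hwg']
      exact hG
  · right
    refine ⟨?_, ?_⟩
    · rcases hKK with h | h
      · left; rw [← hcard]; exact h
      · right; exact huniv.1 h
    · refine GoodP_of K A0 D w a b hDK c g K0 ?_
      rw [← hwg', ← hK0']
      exact hG

end Pool.Agent.Lib.MP_95e9b3_coG
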