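import Pool.Agent.Lib.MP_95e9b3_coG.R3Defs

/-!
# Route G, block R3: gluing of connectors along a laminar family
-/

set_option autoImplicit false

namespace Pool.Agent.Lib.MP_95e9b3_coG

open Finset Pool.Agent.Lib.MP_95e9b3_coC

variable {V E : Type} [Fintype V] [DecidableEq V] [Fintype E] [DecidableEq E]

/-- edges replaced by paths -/
theorem glue_lift (G : MG V E) (A B : Finset E) (h : ∀ e ∈ A, G.Rch B (G.s e) (G.t e)) (a b : V)
    (hab : G.Rch A a b) : G.Rch B a b := by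
  induction hab with
  | refl => exact G.Rch_refl B a
  | tail _ hbc ih =>
    obtain ⟨e, he, hj⟩ := hbc
    rcases hj with ⟨h1, h2⟩ | ⟨h1, h2⟩
    · have h3 := h e he
      rw [h1, h2] at h3
      exact G.Rch_trans B _ _ _ ih h3
    · have h3 := h e he
      rw [h1, h2] at h3
      exact G.Rch_trans B _ _ _ ih (G.Rch_symm B _ _ h3)

theorem glue_mem_ins (G : MG V E) (A : Finset E) (X : Finset V) (e : E) :
    e ∈ ins G A X ↔ e ∈ A ∧ G.s e ∈ X ∧ G.t e ∈ X := by
  unfold ins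
  rw [mem_filter]

theorem glue_mem_avd (G : MG V E) (A : Finset E) (B : Finset V) (e : E) :
    e ∈ avd G A B ↔ e ∈ A ∧ G.s e ∉ B ∧ G.t e ∉ B := by
  unfold avd
  rw [mem_filter]

theorem glue_mem_own (G : MG V E) (M : Finset E) (R : Finset (Finset V)) (X : Finset V) (e : E) :
    e ∈ own G M R X ↔ (e ∈ M ∧ G.s e ∈ X ∧ G.t e ∈ X) ∧
      ∀ Y ∈ R, Y ⊂ X → ¬ (G.s e ∈ Y ∧ G.t e ∈ Y) := by
  unfold own
  rw [mem_filter, glue_mem_ins]

/-- the edges of the contracted region: edges of `F ∪ S` or edges inside a smaller member -/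
theorem glue_cases (G : MG V E) (M : Finset E) (R : Finset (Finset V)) (S : Finset E)
    (X : Finset V) (e : E) (he : e ∈ (S ∩ own G M R X) ∪ low G M R X) :
    e ∈ ins G ((univ \ M) ∪ S) X ∨ ∃ Y ∈ R, Y ⊂ X ∧ G.s e ∈ Y ∧ G.t e ∈ Y := by
  rw [mem_union, mem_inter] at he
  rcases he with ⟨hS, ho⟩ | hl
  · left
    rw [glue_mem_own] at ho
    rw [glue_mem_ins]
    exact ⟨mem_union_right _ hS, ho.1.2⟩
  · unfold low at hl
    rw [mem_sdiff, glue_mem_ins, glue_mem_own] at hl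
    obtain ⟨⟨-, hs, ht⟩, hno⟩ := hl
    by_cases hM : e ∈ M
    · right
      by_contra hcon
      apply hno
      refine ⟨⟨hM, hs, ht⟩, fun Y hY hYX hst => hcon ⟨Y, hY, hYX, hst.1, hst.2⟩⟩
    · left
      rw [glue_mem_ins]
      exact ⟨mem_union_left _ (mem_sdiff.mpr ⟨mem_univ _, hM⟩), hs, ht⟩

theorem glue_edge (G : MG V E) (A : Finset E) (e : E) (he : e ∈ A) :
    G.Rch A (G.s e) (G.t e) := G.Rch_edge A e he

/-- JOB glue: connectors of all contracted regions give connectors of all regions -/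
theorem glue (G : MG V E) (M : Finset E) (R : Finset (Finset V)) (hR : Lmr G M R) (S : Finset E)
    (hS : ∀ X ∈ R, ∀ a ∈ X, ∀ b ∈ X, G.Rch ((S ∩ own G M R X) ∪ low G M R X) a b) :
    ∀ X ∈ R, Con G ((univ \ M) ∪ S) X := by
  have key : ∀ n : ℕ, ∀ X ∈ R, X.card = n → Con G ((univ \ M) ∪ S) X := by
    intro n
    induction n using Nat.strong_induction_on with
    | _ n ih =>
      intro X hX hn a ha b hb
      refine glue_lift G _ _ ?_ a b (hS X hX a ha b hb)
      intro e he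
      rcases glue_cases G M R S X e he with h | ⟨Y, hY, hYX, hs, ht⟩
      · exact glue_edge G _ e h
      · have h1 := ih Y.card (by rw [← hn]; exact card_lt_card hYX) Y hY rfl _ hs _ ht
        refine G.Rch_mono _ _ ?_ _ _ h1
        intro f hf
        rw [glue_mem_ins] at hf ⊢
        exact ⟨hf.1, hYX.1 hf.2.1, hYX.1 hf.2.2⟩
  exact fun X hX => key X.card X hX rfl

/-- JOB glue: a path of the contracted region which avoids `B` can be lifted, if no smaller
member of the family meets `B` -/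
theorem glue_path (G : MG V E) (M : Finset E) (R : Finset (Finset V)) (hR : Lmr G M R)
    (S : Finset E) (hS : ∀ X ∈ R, Con G ((univ \ M) ∪ S) X) (X : Finset V) (hX : X ∈ R)
    (B : Finset V) (hB : ∀ Y ∈ R, Y ⊂ X → Disjoint Y B) (r r' : V)
    (h : G.Rch (avd G ((S ∩ own G M R X) ∪ low G M R X) B) r r') :
    G.Rch (avd G (ins G ((univ \ M) ∪ S) X) B) r r' := by
  refine glue_lift G _ _ ?_ r r' h
  intro e he
  rw [glue_mem_avd] at he
  rcases glue_cases G M R S X e he.1 with h1 | ⟨Y, hY, hYX, hs, ht⟩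
  · exact glue_edge G _ e ((glue_mem_avd G _ _ e).mpr ⟨h1, he.2⟩)
  · refine G.Rch_mono _ _ ?_ _ _ (hS Y hY _ hs _ ht)
    intro f hf
    rw [glue_mem_ins] at hf
    rw [glue_mem_avd, glue_mem_ins]
    exact ⟨⟨hf.1, hYX.1 hf.2.1, hYX.1 hf.2.2⟩,
      fun hfB => disjoint_left.mp (hB Y hY hYX) hf.2.1 hfB,
      fun hfB => disjoint_left.mp (hB Y hY hYX) hf.2.2 hfB⟩

/-- JOB own_unique: every edge of `M` is in `own X` for exactly one member, and it is inside a
member `Y` iff `X ⊆ Y` -/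
theorem own_unique (G : MG V E) (M : Finset E) (R : Finset (Finset V)) (hR : Lmr G M R) (e : E)
    (he : e ∈ M) :
    ∃ X ∈ R, e ∈ own G M R X ∧ ∀ Y ∈ R, ((G.s e ∈ Y ∧ G.t e ∈ Y) ↔ X ⊆ Y) ∧
      (e ∈ own G M R Y → Y = X) := by
  obtain ⟨X, hX, hmin⟩ := exists_min_image (R.filter (fun Y => G.s e ∈ Y ∧ G.t e ∈ Y))
    (fun Y => Y.card) ⟨univ, mem_filter.mpr ⟨hR.top, mem_univ _, mem_univ _⟩⟩
  rw [mem_filter] at hX
  obtain ⟨hXR, hs, ht⟩ := hX
  have hmin' : ∀ Y ∈ R, G.s e ∈ Y → G.t e ∈ Y → X ⊆ Y := by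
    intro Y hY h1 h2
    have h3 := hmin Y (mem_filter.mpr ⟨hY, h1, h2⟩)
    rcases hR.lam X hXR Y hY with h | h | h
    · exact h
    · exact (eq_of_subset_of_card_le h h3).symm.subset
    · exact absurd h1 (disjoint_left.mp h hs)
  refine ⟨X, hXR, ?_, fun Y hY => ⟨⟨fun h => hmin' Y hY h.1 h.2, fun h => ⟨h hs, h ht⟩⟩, ?_⟩⟩
  · rw [glue_mem_own]
    refine ⟨⟨he, hs, ht⟩, fun Y hY hYX h => ?_⟩
    exact (Finset.ssubset_iff_subset_ne.mp hYX).2 (subset_antisymm hYX.1 (hmin' Y hY h.1 h.2))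
  · intro ho
    rw [glue_mem_own] at ho
    have h1 := hmin' Y hY ho.1.2.1 ho.1.2.2
    by_contra hne
    exact ho.2 X hXR (Finset.ssubset_iff_subset_ne.mpr ⟨h1, fun h => hne h.symm⟩) ⟨hs, ht⟩

end Pool.Agent.Lib.MP_95e9b3_coG
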