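import Pool.Agent.Lib.MP_95e9b3_coG.R3_tw
import Pool.Agent.Lib.MP_95e9b3_coG.R3_glue

/-!
# Route G, block R3: connectors and service after exchanges (helper53)
-/

set_option autoImplicit false

namespace Pool.Agent.Lib.MP_95e9b3_coG

open Finset Pool.Agent.Lib.MP_95e9b3_coC

variable {V E : Type} [Fintype V] [DecidableEq V] [Fintype E] [DecidableEq E]

/-- JOB r3con: connectors after exchanges -/
theorem r3con (G : MG V E) (M : Finset E) (R : Finset (Finset V)) (hR : Lmr G M R)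
    (S₁ S₂ : Finset E) (hS : Two M S₁ S₂)
    (c1 : ∀ X ∈ R, ∀ a ∈ X, ∀ b ∈ X, G.Rch ((S₁ ∩ own G M R X) ∪ low G M R X) a b)
    (c2 : ∀ X ∈ R, ∀ a ∈ X, ∀ b ∈ X, G.Rch ((S₂ ∩ own G M R X) ∪ low G M R X) a b)
    (D : Finset (Finset V)) (hD : D ⊆ R) :
    ∀ X ∈ R, Con G ((univ \ M) ∪ tw G D S₁ S₂) X ∧ Con G ((univ \ M) ∪ tw G D S₂ S₁) X := by
  have _ := hS
  intro X hX
  refine ⟨glue G M R hR _ ?_ X hX, glue G M R hR _ ?_ X hX⟩
  · intro Z hZ a ha b hb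
    by_cases h : Even (D.filter (fun Y => Z ⊆ Y)).card
    · rw [tw53_even G M R hR S₁ S₂ D hD Z hZ h]
      exact c1 Z hZ a ha b hb
    · rw [tw53_odd G M R hR S₁ S₂ D hD Z hZ h]
      exact c2 Z hZ a ha b hb
  · intro Z hZ a ha b hb
    by_cases h : Even (D.filter (fun Y => Z ⊆ Y)).card
    · rw [tw53_even G M R hR S₂ S₁ D hD Z hZ h]
      exact c2 Z hZ a ha b hb
    · rw [tw53_odd G M R hR S₂ S₁ D hD Z hZ h]
      exact c1 Z hZ a ha b hb

theorem ins53_sub (G : MG V E) (A : Finset E) (X : Finset V) : ins G A X ⊆ A := filter_subset _ _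

theorem avd53_mono (G : MG V E) (A A' : Finset E) (B : Finset V) (h : A ⊆ A') :
    avd G A B ⊆ avd G A' B := filter_subset_filter _ h

/-- a member of the family which does not contain `b` does not meet the circuit of `b` -/
theorem cv53_disj (G : MG V E) (M : Finset E) (Y : Finset V) (hY : G.cut Y ⊆ M) (b : V)
    (hb : b ∉ Y) : Disjoint Y (G.cv (univ \ M) b) := by
  rw [disjoint_left]
  intro v hv hv'
  rw [MG.mem_cv] at hv'
  refine hb (G.closed_Rch (univ \ M) Y ?_ v b hv (G.Rch_symm _ _ _ hv'))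
  rw [Finset.eq_empty_iff_forall_notMem]
  intro e he
  rw [mem_inter, mem_sdiff] at he
  exact he.1.2 (hY he.2)

/-- service by a set `S` which agrees with `S'` on the own edges of `X` -/
theorem srv53_of (G : MG V E) (M : Finset E) (R : Finset (Finset V)) (hR : Lmr G M R)
    (X : Finset V) (hX : X ∈ R) (b : V) (hdir : ∀ Y ∈ R, Y ⊂ X → b ∉ Y)
    (Q : Finset (E × E)) (S' : Finset E)
    (hs : Srv G M X (G.cv (univ \ M) b) Q (S' ∩ own G M R X)
      ((S' ∩ own G M R X) ∪ low G M R X)) (S : Finset E)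
    (hSS : S ∩ own G M R X = S' ∩ own G M R X) (hc : ∀ X ∈ R, Con G ((univ \ M) ∪ S) X) :
    Srv G M X (G.cv (univ \ M) b) Q S ((univ \ M) ∪ S) := by
  rw [← hSS] at hs
  refine ⟨fun e he => (mem_inter.1 (hs.1 he)).1, fun p hp => ?_⟩
  obtain ⟨h1, h2, h3⟩ := hs.2 p hp
  refine ⟨(mem_inter.1 h1).1, (mem_inter.1 h2).1, ?_⟩
  intro a ha r hr a' ha' r' hr' hrB hrB' hj hj'
  refine glue_path G M R hR S hc X hX (G.cv (univ \ M) b)
    (fun Y hY hYX => cv53_disj G M Y (hR.nod Y hY) b (hdir Y hY hYX)) r r' ?_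
  exact G.Rch_mono _ _ (avd53_mono G _ _ _ (ins53_sub G _ X)) _ _
    (h3 a ha r hr a' ha' r' hr' hrB hrB' hj hj')

/-- JOB r3srv: service after exchanges -/
theorem r3srv (G : MG V E) (M : Finset E) (R : Finset (Finset V)) (hR : Lmr G M R)
    (S₁ S₂ : Finset E) (hS : Two M S₁ S₂)
    (c1 : ∀ X ∈ R, ∀ a ∈ X, ∀ b ∈ X, G.Rch ((S₁ ∩ own G M R X) ∪ low G M R X) a b)
    (c2 : ∀ X ∈ R, ∀ a ∈ X, ∀ b ∈ X, G.Rch ((S₂ ∩ own G M R X) ∪ low G M R X) a b)
    (D : Finset (Finset V)) (hD : D ⊆ R) (X : Finset V) (hX : X ∈ R) (b : V) (hb : b ∈ X)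
    (hdir : ∀ Y ∈ R, Y ⊂ X → b ∉ Y) (Q : Finset (E × E)) (hQ : Prs G M X (G.cv (univ \ M) b) Q)
    (hs : Srv G M X (G.cv (univ \ M) b) Q (S₂ ∩ own G M R X)
      ((S₂ ∩ own G M R X) ∪ low G M R X)) :
    (Even (D.filter (fun Y => X ⊆ Y)).card → Srv G M X (G.cv (univ \ M) b) Q (tw G D S₂ S₁)
      ((univ \ M) ∪ tw G D S₂ S₁)) ∧
    (¬ Even (D.filter (fun Y => X ⊆ Y)).card → Srv G M X (G.cv (univ \ M) b) Q (tw G D S₁ S₂)
      ((univ \ M) ∪ tw G D S₁ S₂)) := by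
  have _ := hb
  have _ := hQ
  have hc := r3con G M R hR S₁ S₂ hS c1 c2 D hD
  refine ⟨fun h => ?_, fun h => ?_⟩
  · exact srv53_of G M R hR X hX b hdir Q S₂ hs _ (tw53_even G M R hR S₂ S₁ D hD X hX h)
      (fun Z hZ => (hc Z hZ).2)
  · exact srv53_of G M R hR X hX b hdir Q S₂ hs _ (tw53_odd G M R hR S₁ S₂ D hD X hX h)
      (fun Z hZ => (hc Z hZ).1)

end Pool.Agent.Lib.MP_95e9b3_coG
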