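import Pool.Agent.Lib.MP_95e9b3_coG.Defs
import Pool.Agent.Lib.MP_eace5d_co.Union

/-!
# Route G: weighted union of two graphic matroids, cluster families (block wul)
-/

set_option autoImplicit false

namespace Pool.Agent.Lib.MP_95e9b3_coG

open Finset Pool.Agent.Lib.MP_95e9b3_coC Pool.Agent.Lib.MP_eace5d_co

variable {V E : Type} [Fintype V] [DecidableEq V] [Fintype E] [DecidableEq E]

/-! ### the chain matroid -/

/-- rank function of the chain matroid: at most `c t` elements in `L t` -/
noncomputable def chr (L : ℕ → Finset E) (c : ℕ → ℕ) (X : Finset E) : ℕ :=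
  sInf {n | ∃ t, n = c t + (X \ L t).card}

theorem chr_le (L : ℕ → Finset E) (c : ℕ → ℕ) (X : Finset E) (t : ℕ) :
    chr L c X ≤ c t + (X \ L t).card := Nat.sInf_le ⟨t, rfl⟩

theorem chr_att (L : ℕ → Finset E) (c : ℕ → ℕ) (X : Finset E) :
    ∃ t, chr L c X = c t + (X \ L t).card := by
  have h : ({n | ∃ t, n = c t + (X \ L t).card} : Set ℕ).Nonempty := ⟨_, 0, rfl⟩
  exact Nat.sInf_mem h

theorem chr_rank (L : ℕ → Finset E) (c : ℕ → ℕ) (hL : Monotone L)
    (hc0 : c 0 = 0) : IsRank (chr L c) := by
  have hmono : ∀ A x, chr L c A ≤ chr L c (insert x A) := by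
    intro A x
    obtain ⟨t, ht⟩ := chr_att L c (insert x A)
    rw [ht]
    refine (chr_le L c A t).trans ?_
    have : (A \ L t).card ≤ (insert x A \ L t).card :=
      card_le_card (sdiff_subset_sdiff (subset_insert _ _) (Subset.refl _))
    omega
  refine ⟨?_, hmono, ?_, ?_⟩
  · have := chr_le L c ∅ 0
    rw [hc0, empty_sdiff, card_empty] at this
    omega
  · intro A x
    obtain ⟨t, ht⟩ := chr_att L c A
    refine (chr_le L c (insert x A) t).trans ?_
    rw [ht]
    have : (insert x A \ L t).card ≤ (insert x (A \ L t)).card := by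
      refine card_le_card ?_
      intro y hy
      rw [mem_sdiff, mem_insert] at hy
      rw [mem_insert, mem_sdiff]
      tauto
    have h2 := card_insert_le x (A \ L t)
    omega
  · intro A B x hAB h
    refine le_antisymm ?_ (hmono B x)
    by_cases hxB : x ∈ B
    · rw [insert_eq_self.mpr hxB]
    have hxA : x ∉ A := fun h => hxB (hAB h)
    obtain ⟨t, ht⟩ := chr_att L c (insert x A)
    have h1 := chr_le L c A t
    have hxt : x ∈ L t := by
      by_contra hxt
      have h2 : (insert x A \ L t).card = (A \ L t).card + 1 := by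
        rw [insert_sdiff_of_notMem _ hxt, card_insert_of_notMem]
        intro h3
        exact hxA (mem_sdiff.mp h3).1
      omega
    have h2 : insert x A \ L t = A \ L t := insert_sdiff_of_mem _ hxt
    rw [h2] at ht
    obtain ⟨s, hs⟩ := chr_att L c B
    rw [hs]
    by_cases hxs : x ∈ L s
    · have h3 := chr_le L c (insert x B) s
      rwa [insert_sdiff_of_mem _ hxs] at h3
    · have hst : s ≤ t := by
        by_contra hst
        exact hxs (hL (by omega) hxt)
      have h3 := chr_le L c (insert x B) t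
      rw [insert_sdiff_of_mem _ hxt] at h3
      have h4 := chr_le L c A s
      have h5 : ∀ X : Finset E, (X \ L s).card = (X \ L t).card + (X ∩ (L t \ L s)).card := by
        intro X
        rw [← card_union_of_disjoint]
        · congr 1
          ext y
          have h6 : y ∈ L s → y ∈ L t := fun h => hL hst h
          simp only [mem_union, mem_sdiff, mem_inter]
          tauto
        · rw [disjoint_left]
          intro y hy hy'
          exact (mem_sdiff.mp hy).2 (mem_sdiff.mp (mem_inter.mp hy').2).1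
      have h6 : (A ∩ (L t \ L s)).card ≤ (B ∩ (L t \ L s)).card :=
        card_le_card (inter_subset_inter hAB (Subset.refl _))
      have h7 := h5 A
      have h8 := h5 B
      omega

/-! ### the contracted graphic matroid -/

/-- rank in the graph with `F` contracted -/
noncomputable def gr (G : MG V E) (F X : Finset E) : ℕ := G.nc F - G.nc (F ∪ X)

theorem gr_add (G : MG V E) (F X : Finset E) : gr G F X + G.nc (F ∪ X) = G.nc F := by
  unfold gr
  have := G.nc_anti F (F ∪ X) subset_union_left
  omega

theorem gr_rank (G : MG V E) (F : Finset E) : IsRank (gr G F) := by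
  have hmono : ∀ A x, gr G F A ≤ gr G F (insert x A) := by
    intro A x
    have h1 := gr_add G F A
    have h2 := gr_add G F (insert x A)
    have h3 := G.nc_anti (F ∪ A) (F ∪ insert x A)
      (union_subset_union (Subset.refl _) (subset_insert _ _))
    omega
  refine ⟨?_, hmono, ?_, ?_⟩
  · have h1 := gr_add G F ∅
    rw [union_empty] at h1
    omega
  · intro A x
    have h1 := gr_add G F A
    have h2 := gr_add G F (insert x A)
    rw [union_insert] at h2
    by_cases hr : G.Rch (F ∪ A) (G.s x) (G.t x)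
    · rw [G.nc_insert_of_Rch _ x hr] at h2
      omega
    · have h3 := G.nc_insert _ x hr
      omega
  · intro A B x hAB h
    have h1 := gr_add G F A
    have h2 := gr_add G F (insert x A)
    rw [union_insert] at h2
    have hr : G.Rch (F ∪ A) (G.s x) (G.t x) := by
      by_contra hr
      have h3 := G.nc_insert _ x hr
      omega
    have hr' : G.Rch (F ∪ B) (G.s x) (G.t x) :=
      G.Rch_mono _ _ (union_subset_union (Subset.refl _) hAB) _ _ hr
    have h3 := gr_add G F B
    have h4 := gr_add G F (insert x B)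
    rw [union_insert, G.nc_insert_of_Rch _ x hr'] at h4
    omega

/-! ### packing -/

/-- two disjoint forests with few missing elements in all sets of a chain -/
theorem pack (G : MG V E) (F M : Finset E) (L : ℕ → Finset E) (c : ℕ → ℕ) (hL : Monotone L)
    (hc0 : c 0 = 0)
    (h : ∀ t, ∀ A ⊆ L t ∩ M, A.card ≤ 2 * gr G F A + c t) :
    ∃ S₁ ⊆ M, ∃ S₂ ⊆ M, Disjoint S₁ S₂ ∧ gr G F S₁ = S₁.card ∧ gr G F S₂ = S₂.card ∧
      ∀ t, ((L t ∩ M) \ (S₁ ∪ S₂)).card ≤ c t := by
  classical
  obtain ⟨k, hk1, hk2⟩ := partition (κ := Fin 3) M.card M rfl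
    (fun i => if i = 2 then chr L c else gr G F)
    (by
      intro i
      by_cases hi : i = 2
      · simp only [hi, if_true]
        exact chr_rank L c hL hc0
      · simp only [hi, if_false]
        exact gr_rank G F)
    (by
      intro A hA
      have hs : ∑ i : Fin 3, (if i = 2 then chr L c else gr G F) A =
          2 * gr G F A + chr L c A := by
        rw [Fin.sum_univ_three]
        simp
        ring
      rw [hs]
      obtain ⟨t, ht⟩ := chr_att L c A
      have h1 := h t (A ∩ L t) (by
        intro y hy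
        rw [mem_inter] at hy ⊢
        exact ⟨hy.2, hA hy.1⟩)
      have h2 := (gr_rank G F).mono (inter_subset_left : A ∩ L t ⊆ A)
      have h3 := card_sdiff_add_card_inter A (L t)
      omega)
    (fun _ => ⟨0⟩)
  have hk0 : gr G F (M.filter (fun x => k x = some 0)) =
      (M.filter (fun x => k x = some 0)).card := by
    have := hk2 0
    simpa using this
  have hk1' : gr G F (M.filter (fun x => k x = some 1)) =
      (M.filter (fun x => k x = some 1)).card := by
    have := hk2 1
    simpa using this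
  have hk2' : chr L c (M.filter (fun x => k x = some 2)) =
      (M.filter (fun x => k x = some 2)).card := by
    have := hk2 2
    simpa using this
  refine ⟨M.filter (fun x => k x = some 0), filter_subset _ _, M.filter (fun x => k x = some 1),
    filter_subset _ _, ?_, hk0, hk1', ?_⟩
  · rw [disjoint_left]
    intro y hy hy'
    have h1 := (mem_filter.mp hy).2
    have h2 := (mem_filter.mp hy').2
    rw [h1] at h2
    simp at h2
  · intro t
    have h1 := chr_le L c (M.filter (fun x => k x = some 2)) t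
    rw [hk2'] at h1
    have h3 := card_sdiff_add_card_inter (M.filter (fun x => k x = some 2)) (L t)
    have h4 : (L t ∩ M) \ (M.filter (fun x => k x = some 0) ∪ M.filter (fun x => k x = some 1)) ⊆
        M.filter (fun x => k x = some 2) ∩ L t := by
      intro y hy
      rw [mem_sdiff, mem_inter, mem_union, mem_filter, mem_filter] at hy
      rw [mem_inter, mem_filter]
      refine ⟨⟨hy.1.2, ?_⟩, hy.1.1⟩
      have h5 := hk1 y hy.1.2
      obtain ⟨i, hi⟩ := Option.isSome_iff_exists.mp h5
      have h6 : i ≠ 0 := fun h => hy.2 (Or.inl ⟨hy.1.2, h ▸ hi⟩)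
      have h7 : i ≠ 1 := fun h => hy.2 (Or.inr ⟨hy.1.2, h ▸ hi⟩)
      have h8 : i = 2 := by
        clear hi
        revert h6 h7
        revert i
        decide
      rw [hi, h8]
    have h5 := card_le_card h4
    omega

/-! ### largest minimisers -/

/-- a minimiser of `2 gr A - |A|` on the subsets of `L`, of maximal size -/
theorem exists_Y (G : MG V E) (F L : Finset E) : ∃ A ⊆ L,
    (∀ B ⊆ L, 2 * gr G F A + B.card ≤ 2 * gr G F B + A.card) ∧
    (∀ B ⊆ L, (∀ C ⊆ L, 2 * gr G F B + C.card ≤ 2 * gr G F C + B.card) → B.card ≤ A.card) := by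
  classical
  obtain ⟨A0, hA0, hmin⟩ := exists_min_image L.powerset
    (fun A => (2 * (gr G F A : ℤ) - (A.card : ℤ))) ⟨∅, by simp⟩
  have hA0' : A0 ∈ L.powerset.filter
      (fun B => ∀ C ⊆ L, 2 * gr G F B + C.card ≤ 2 * gr G F C + B.card) := by
    rw [mem_filter]
    refine ⟨hA0, fun C hC => ?_⟩
    have := hmin C (mem_powerset.mpr hC)
    omega
  obtain ⟨A, hA, hmax⟩ := exists_max_image (L.powerset.filter
      (fun B => ∀ C ⊆ L, 2 * gr G F B + C.card ≤ 2 * gr G F C + B.card)) card ⟨A0, hA0'⟩
  rw [mem_filter, mem_powerset] at hA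
  refine ⟨A, hA.1, hA.2, fun B hB hB2 => hmax B ?_⟩
  rw [mem_filter, mem_powerset]
  exact ⟨hB, hB2⟩

/-- cluster family and two forests for arbitrary chains; `F` and `M` arbitrary -/
theorem wul_gen [Nonempty V] (G : MG V E) (F M : Finset E) (L : ℕ → Finset E) (hL : Monotone L)
    (hLM : ∀ t, L t ⊆ M)
    (hpk : ∀ A ⊆ M, 2 * G.nc (F ∪ A) ≤ (M \ A).card + 2) (T : ℕ) (hT : L T = M) :
    ∃ Y : ℕ → Finset E, (∀ t, Y t ⊆ L t) ∧ Monotone Y ∧
      (∀ t, ∀ e ∈ L t, G.Rch (F ∪ Y t) (G.s e) (G.t e) → e ∈ Y t) ∧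
      (∀ t, ∃ S₁ ⊆ Y t, ∃ S₂ ⊆ Y t, Disjoint S₁ S₂ ∧
        ∀ a b, G.Rch (F ∪ Y t) a b → G.Rch (F ∪ S₁) a b ∧ G.Rch (F ∪ S₂) a b) ∧
      ∃ S₁ ⊆ M, ∃ S₂ ⊆ M, Disjoint S₁ S₂ ∧
        G.nc (F ∪ S₁) ≤ 1 ∧ G.nc (F ∪ S₂) ≤ 1 ∧
        ∀ t, ((S₁ ∪ S₂) \ L t).card + (L t \ Y t).card + 2 ≤ 2 * G.nc (F ∪ Y t) := by
  classical
  have hex := fun t => exists_Y G F (L t)
  choose Y hYL hYmin hYmax using hex
  have hrk := gr_rank G F
  have hmono : ∀ s t, s ≤ t → Y s ⊆ Y t := by
    intro s t hst
    have hLst : L s ⊆ L t := hL hst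
    have hsub := hrk.submod (Y s) (Y t)
    have hc := card_union_add_card_inter (Y s) (Y t)
    have h1 := hYmin s (Y s ∩ Y t) (inter_subset_left.trans (hYL s))
    have hu : Y s ∪ Y t ⊆ L t := union_subset ((hYL s).trans hLst) (hYL t)
    have h2 := hYmax t (Y s ∪ Y t) hu (by
      intro C hC
      have h3 := hYmin t C hC
      omega)
    have h3 : Y s ∪ Y t = Y t := (eq_of_subset_of_card_le subset_union_right h2).symm
    rw [← h3]
    exact subset_union_left
  have hgr0 : ∀ t, 2 * gr G F (Y t) ≤ (Y t).card := by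
    intro t
    have h1 := hYmin t ∅ (empty_subset _)
    rw [hrk.empty, card_empty] at h1
    omega
  -- two forests inside a cluster
  have htwo : ∀ t, ∃ S₁ ⊆ Y t, ∃ S₂ ⊆ Y t, Disjoint S₁ S₂ ∧
      gr G F S₁ = gr G F (Y t) ∧ gr G F S₂ = gr G F (Y t) := by
    intro t
    obtain ⟨S₁, hS1, S₂, hS2, hd, hr1, hr2, hc⟩ := pack G F (Y t)
      (fun i => if i = 0 then ∅ else Y t) (fun i => if i = 0 then 0 else (Y t).card - 2 * gr G F (Y t))
      (by
        intro i j hij
        by_cases hi : i = 0
        · simp [hi]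
        · have hj : j ≠ 0 := by omega
          simp [hi, hj]) (by simp)
      (by
        intro i A hA
        by_cases hi : i = 0
        · have hA0 : A = ∅ := by
            rw [if_pos hi, empty_inter] at hA
            exact subset_empty.mp hA
          rw [hA0]
          simp
        · simp only [hi, if_false]
          have hA1 : A ⊆ Y t := hA.trans inter_subset_right
          have h1 := hYmin t A (hA1.trans (hYL t))
          have h2 := hgr0 t
          omega)
    have h1 := hc 1
    simp only [one_ne_zero, if_false, inter_self] at h1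
    have h2 := card_sdiff_add_card_eq_card (union_subset hS1 hS2)
    have h3 := card_union_of_disjoint hd
    have h4 := hrk.mono hS1
    have h5 := hrk.mono hS2
    have h6 := hgr0 t
    refine ⟨S₁, hS1, S₂, hS2, hd, ?_, ?_⟩ <;> omega
  -- the two forests
  obtain ⟨S₁, hS1, S₂, hS2, hd, hr1, hr2, hc⟩ := pack G F M
      (fun i => if i = 0 then ∅ else L (i - 1))
      (fun i => if i = 0 then 0 else (Y (i - 1)).card - 2 * gr G F (Y (i - 1)))
      (by
        intro i j hij
        by_cases hi : i = 0
        · simp [hi]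
        · have hj : j ≠ 0 := by omega
          simp only [hi, hj, if_false]
          exact hL (by omega)) (by simp)
      (by
        intro i A hA
        by_cases hi : i = 0
        · have hA0 : A = ∅ := by
            rw [if_pos hi, empty_inter] at hA
            exact subset_empty.mp hA
          rw [hA0]
          simp
        · simp only [hi, if_false]
          rw [if_neg hi] at hA
          have hA1 : A ⊆ L (i - 1) := hA.trans inter_subset_left
          have h1 := hYmin (i - 1) A hA1
          have h2 := hgr0 (i - 1)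
          omega)
  have hc' : ∀ t, (L t \ (S₁ ∪ S₂)).card ≤ (Y t).card - 2 * gr G F (Y t) := by
    intro t
    have h1 := hc (t + 1)
    simp only [Nat.add_eq_zero_iff, one_ne_zero, and_false, if_false, Nat.add_sub_cancel] at h1
    rwa [inter_eq_left.mpr (hLM t)] at h1
  have hnc1 : ∀ A : Finset E, 1 ≤ G.nc (F ∪ A) := by
    intro A
    unfold MG.nc
    rw [Nat.one_le_iff_ne_zero, ← Nat.pos_iff_ne_zero, card_pos]
    exact univ_nonempty.image _
  have hU := union_subset hS1 hS2
  have hcU := card_union_of_disjoint hd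
  have hadd := gr_add G F
  have hT1 := hc' T
  rw [hT] at hT1
  have hcM := card_sdiff_add_card_eq_card hU
  have hYT := hpk (Y T) ((hYL T).trans (hLM T))
  have hcYT := card_sdiff_add_card_eq_card ((hYL T).trans (hLM T))
  have h6 := hgr0 T
  have ha1 := hadd S₁
  have ha2 := hadd S₂
  have haT := hadd (Y T)
  have hb1 := hnc1 S₁
  have hb2 := hnc1 S₂
  have hn1 : G.nc (F ∪ S₁) ≤ 1 := by omega
  have hn2 : G.nc (F ∪ S₂) ≤ 1 := by omega
  refine ⟨Y, hYL, fun s t h => hmono s t h, ?_, ?_, S₁, hS1, S₂, hS2, hd, hn1, hn2, ?_⟩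
  · intro t e he hr
    by_contra hne
    have h1 : gr G F (insert e (Y t)) = gr G F (Y t) := by
      have h2 := hadd (insert e (Y t))
      have h3 := hadd (Y t)
      rw [union_insert, G.nc_insert_of_Rch _ e hr] at h2
      omega
    have h2 := hYmin t (insert e (Y t)) (insert_subset he (hYL t))
    rw [card_insert_of_notMem hne, h1] at h2
    omega
  · intro t
    obtain ⟨R₁, hR1, R₂, hR2, hRd, hg1, hg2⟩ := htwo t
    refine ⟨R₁, hR1, R₂, hR2, hRd, ?_⟩
    intro a b hab
    have h1 := hadd R₁
    have h2 := hadd R₂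
    have h3 := hadd (Y t)
    refine ⟨?_, ?_⟩
    · exact G.Rch_of_nc_eq (F ∪ R₁) (F ∪ Y t) (union_subset_union (Subset.refl _) hR1)
        (by omega) a b hab
    · exact G.Rch_of_nc_eq (F ∪ R₂) (F ∪ Y t) (union_subset_union (Subset.refl _) hR2)
        (by omega) a b hab
  · intro t
    have h1 := hc' t
    have h2 := card_sdiff_add_card_inter (S₁ ∪ S₂) (L t)
    have h3 := card_sdiff_add_card_inter (L t) (S₁ ∪ S₂)
    rw [inter_comm] at h3
    have h4 := card_sdiff_add_card_eq_card (hYL t)
    have h5 := hadd (Y t)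
    have h7 := hgr0 t
    have h8 := card_le_card (inter_subset_left : L t ∩ (S₁ ∪ S₂) ⊆ L t)
    have h9 := card_le_card (inter_subset_right : L t ∩ (S₁ ∪ S₂) ⊆ S₁ ∪ S₂)
    omega

/-- the packing hypothesis for good perfect matchings -/
theorem pm_pk (G : MG V E) (hG : C3 G) (M : Finset E) (hM : PM G M) (A : Finset E) (hA : A ⊆ M) :
    2 * G.nc ((univ \ M) ∪ A) ≤ (M \ A).card + 2 := by
  classical
  by_cases h1 : G.nc ((univ \ M) ∪ A) ≤ 1
  · omega
  push Not at h1
  set F' := (univ \ M) ∪ A with hF'
  -- every part has at least four boundary edges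
  have h4 : ∀ X ∈ univ.image (G.cv F'), 4 ≤ (G.cut X).card := by
    intro X hX
    obtain ⟨v, -, rfl⟩ := mem_image.mp hX
    have hne : (G.cv F' v).Nonempty := ⟨v, by rw [G.mem_cv]; exact G.Rch_refl _ _⟩
    have hnu : G.cv F' v ≠ univ := by
      intro hu
      unfold MG.nc at h1
      have h2 : univ.image (G.cv F') ⊆ {univ} := by
        intro Z hZ
        obtain ⟨u, -, rfl⟩ := mem_image.mp hZ
        rw [mem_singleton]
        have h3 : G.Rch F' v u := by rw [← G.mem_cv, hu]; exact mem_univ _
        rw [← (G.cv_eq F' v u).mpr h3, hu]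
      have h3 := card_le_card h2
      rw [card_singleton] at h3
      omega
    have hsub : G.cut (G.cv F' v) ⊆ M := by
      intro e he
      by_contra heM
      have h2 : e ∈ F' ∩ G.cut (G.cv F' v) := by
        rw [mem_inter]
        exact ⟨mem_union_left _ (mem_sdiff.mpr ⟨mem_univ _, heM⟩), he⟩
      rw [G.cv_cut] at h2
      exact notMem_empty _ h2
    have h3 := hG.cut _ hne hnu
    by_contra h5
    have h6 : (G.cut (G.cv F' v)).card = 3 := by omega
    have h7 := hM.three _ h6
    rw [inter_eq_right.mpr hsub] at h7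
    omega
  -- double counting
  have hsum : ∑ X ∈ univ.image (G.cv F'), (G.cut X).card ≤ 2 * (M \ A).card := by
    have h2 : ∀ X ∈ univ.image (G.cv F'), (G.cut X).card =
        ∑ e ∈ M \ A, (if e ∈ G.cut X then 1 else 0) := by
      intro X hX
      obtain ⟨v, -, rfl⟩ := mem_image.mp hX
      rw [← card_filter]
      congr 1
      ext e
      rw [mem_filter]
      refine ⟨fun he => ⟨?_, he⟩, fun he => he.2⟩
      by_contra hn
      have h3 : e ∈ F' ∩ G.cut (G.cv F' v) := by
        rw [mem_inter]
        refine ⟨?_, he⟩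
        rw [hF', mem_union, mem_sdiff]
        rw [mem_sdiff] at hn
        by_cases heM : e ∈ M
        · right
          by_contra heA
          exact hn ⟨heM, heA⟩
        · left
          exact ⟨mem_univ _, heM⟩
      rw [G.cv_cut] at h3
      exact notMem_empty _ h3
    rw [sum_congr rfl h2, sum_comm]
    have h3 : ∀ e ∈ M \ A, ∑ X ∈ univ.image (G.cv F'), (if e ∈ G.cut X then 1 else 0) ≤ 2 := by
      intro e _
      rw [← card_filter]
      have h4 : (univ.image (G.cv F')).filter (fun X => e ∈ G.cut X) ⊆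
          {G.cv F' (G.s e), G.cv F' (G.t e)} := by
        intro X hX
        rw [mem_filter] at hX
        obtain ⟨v, -, rfl⟩ := mem_image.mp hX.1
        rw [mem_insert, mem_singleton, G.cv_eq, G.cv_eq]
        have h5 := (G.mem_cut _ e).mp hX.2
        rw [G.mem_cv, G.mem_cv] at h5
        by_cases h6 : G.Rch F' v (G.s e)
        · exact Or.inl h6
        · right
          by_contra h7
          exact h5 ⟨fun h => absurd h h6, fun h => absurd h h7⟩
      refine (card_le_card h4).trans ?_
      exact (card_insert_le _ _).trans (by rw [card_singleton])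
    refine (sum_le_sum h3).trans ?_
    rw [sum_const, smul_eq_mul, mul_comm]
  have h5 := card_nsmul_le_sum _ _ _ h4
  rw [smul_eq_mul] at h5
  have h6 : G.nc F' = (univ.image (G.cv F')).card := rfl
  omega

theorem w_eq_sum (w : E → ℕ) (T : ℕ) (S : Finset E) (hT : ∀ e, w e ≤ T) :
    wt w S = ∑ t ∈ range T, ((S \ (S ∩ lt w t)).card : ℝ) := by
  classical
  unfold wt
  have h1 : ∀ t ∈ range T, ((S \ (S ∩ lt w t)).card : ℝ) =
      ∑ e ∈ S, (if t < w e then (1 : ℝ) else 0) := by
    intro t _
    rw [← Nat.cast_one, ← Nat.cast_zero]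
    rw [sum_congr rfl (fun e _ => (Nat.cast_ite (t < w e) 1 0 : ((if t < w e then (1 : ℕ) else 0 : ℕ) : ℝ) = _).symm),
      ← Nat.cast_sum, ← card_filter]
    congr 2
    ext e
    simp only [lt, mem_sdiff, mem_inter, mem_filter, mem_univ, true_and, not_and, not_le]
    tauto
  rw [sum_congr rfl h1, sum_comm]
  refine sum_congr rfl fun e _ => ?_
  rw [← sum_filter, sum_const, nsmul_eq_mul, mul_one]
  congr 1
  have h2 : (range T).filter (fun t => t < w e) = range (w e) := by
    ext t
    rw [mem_filter, mem_range, mem_range]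
    have := hT e
    constructor
    · exact fun h => h.2
    · intro h
      exact ⟨by omega, h⟩
  rw [h2, card_range]

/-- BLOCK Union: weighted union of two graphic matroids, cluster families -/
theorem wul [Nonempty V] (G : MG V E) (hG : C3 G) (M : Finset E) (hM : PM G M) (w : E → ℕ) (T : ℕ)
    (hT : ∀ e, w e ≤ T) :
    ∃ Y : ℕ → Finset E, Cl G M w Y ∧ ∃ S₁ ⊆ M, ∃ S₂ ⊆ M, Disjoint S₁ S₂ ∧
      (∀ a b, G.Rch ((univ \ M) ∪ S₁) a b) ∧ (∀ a b, G.Rch ((univ \ M) ∪ S₂) a b) ∧
      wt w S₁ + wt w S₂ ≤ ∑ t ∈ range T, rho G M w Y t := by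
  classical
  have hmono : Monotone (fun t => M ∩ lt w t) := by
    intro s t hst e he
    simp only [lt, mem_inter, mem_filter, mem_univ, true_and] at he ⊢
    exact ⟨he.1, he.2.trans hst⟩
  obtain ⟨Y, hYL, hYm, hsat, htwo, S₁, hS1, S₂, hS2, hd, hn1, hn2, hcount⟩ :=
    wul_gen G (univ \ M) M (fun t => M ∩ lt w t) hmono (fun t => inter_subset_left)
      (fun A hA => pm_pk G hG M hM A hA) T (by
        rw [inter_eq_left]
        intro e _
        simp only [lt, mem_filter, mem_univ, true_and]
        exact hT e)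
  have hconn : ∀ S : Finset E, G.nc ((univ \ M) ∪ S) ≤ 1 → ∀ a b, G.Rch ((univ \ M) ∪ S) a b := by
    intro S hS a b
    rw [← G.cv_eq]
    unfold MG.nc at hS
    rw [card_le_one] at hS
    exact hS _ (mem_image_of_mem _ (mem_univ _)) _ (mem_image_of_mem _ (mem_univ _))
  refine ⟨Y, ⟨hYL, fun s t h => hYm h, ?_, htwo⟩, S₁, hS1, S₂, hS2, hd, hconn S₁ hn1,
    hconn S₂ hn2, ?_⟩
  · intro t e he hw hr
    refine hsat t e ?_ hr
    simp only [lt, mem_inter, mem_filter, mem_univ, true_and]
    exact ⟨he, hw⟩
  · rw [w_eq_sum w T S₁ hT, w_eq_sum w T S₂ hT, ← sum_add_distrib]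
    refine sum_le_sum fun t _ => ?_
    have h1 := hcount t
    have h2 : ((S₁ ∪ S₂) \ (M ∩ lt w t)).card =
        (S₁ \ (S₁ ∩ lt w t)).card + (S₂ \ (S₂ ∩ lt w t)).card := by
      rw [← card_union_of_disjoint]
      · congr 1
        ext e
        simp only [mem_sdiff, mem_union, mem_inter]
        have h3 := @hS1 e
        have h4 := @hS2 e
        tauto
      · exact disjoint_of_subset_left sdiff_subset (disjoint_of_subset_right sdiff_subset hd)
    unfold rho
    have h3 : (((S₁ \ (S₁ ∩ lt w t)).card + (S₂ \ (S₂ ∩ lt w t)).card +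
        ((M ∩ lt w t) \ Y t).card + 2 : ℕ) : ℝ) ≤ ((2 * G.nc ((univ \ M) ∪ Y t) : ℕ) : ℝ) := by
      rw [Nat.cast_le]
      omega
    push_cast at h3
    linarith

end Pool.Agent.Lib.MP_95e9b3_coG
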