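import Pool.Agent.Lib.MP_95e9b3_coG.R3Defs
import Pool.Agent.Lib.MP_95e9b3_coG.Wul

/-!
# Route G, block R3: packing of two connectors (wulG, pack_gen)
-/

set_option autoImplicit false

namespace Pool.Agent.Lib.MP_95e9b3_coG

open Finset Pool.Agent.Lib.MP_95e9b3_coC Pool.Agent.Lib.MP_eace5d_co

variable {V E : Type} [Fintype V] [DecidableEq V] [Fintype E] [DecidableEq E]

/-- cluster family and two connectors; `F` contracted, `M` arbitrary, relative version -/
theorem wul_rel (G : MG V E) (F M : Finset E) (L : ℕ → Finset E) (hL : Monotone L)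
    (hLM : ∀ t, L t ⊆ M)
    (hpk : ∀ A ⊆ M, 2 * G.nc (F ∪ A) ≤ (M \ A).card + 2 * G.nc (F ∪ M)) (T : ℕ) (hT : L T = M) :
    ∃ Y : ℕ → Finset E, (∀ t, Y t ⊆ L t) ∧ Monotone Y ∧
      (∀ t, ∀ B ⊆ L t, 2 * G.nc (F ∪ B) + B.card ≤ 2 * G.nc (F ∪ Y t) + (Y t).card) ∧
      (∀ t, ∀ e ∈ L t, G.Rch (F ∪ Y t) (G.s e) (G.t e) → e ∈ Y t) ∧
      ∃ S₁ ⊆ M, ∃ S₂ ⊆ M, Disjoint S₁ S₂ ∧
        G.nc (F ∪ S₁) = G.nc (F ∪ M) ∧ G.nc (F ∪ S₂) = G.nc (F ∪ M) ∧
        ∀ t, ((S₁ ∪ S₂) \ L t).card + (L t \ Y t).card + 2 * G.nc (F ∪ M) ≤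
          2 * G.nc (F ∪ Y t) := by
  classical
  have hex := fun t => exists_Y G F (L t)
  choose Y hYL hYmin hYmax using hex
  have hrk := gr_rank G F
  have hmono : ∀ s t, s ≤ t → Y s ⊆ Y t := by
    intro s t hst
    have hLst : L s ⊆ L t := hL hst
    have hsub := hrk.submod (Y s) (Y t)
    have hc := card_union_add_card_inter (Y s) (Y t)
    have h1 := hYmin s (Y s ∩ Y t) (inter_subset_left.trans (hYL s))
    have hu : Y s ∪ Y t ⊆ L t := union_subset ((hYL s).trans hLst) (hYL t)
    have h2 := hYmax t (Y s ∪ Y t) hu (by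
      intro C hC
      have h3 := hYmin t C hC
      omega)
    have h3 : Y s ∪ Y t = Y t := (eq_of_subset_of_card_le subset_union_right h2).symm
    rw [← h3]
    exact subset_union_left
  have hgr0 : ∀ t, 2 * gr G F (Y t) ≤ (Y t).card := by
    intro t
    have h1 := hYmin t ∅ (empty_subset _)
    rw [hrk.empty, card_empty] at h1
    omega
  have hadd := gr_add G F
  -- the two forests
  obtain ⟨S₁, hS1, S₂, hS2, hd, hr1, hr2, hc⟩ := pack G F M
      (fun i => if i = 0 then ∅ else L (i - 1))
      (fun i => if i = 0 then 0 else (Y (i - 1)).card - 2 * gr G F (Y (i - 1)))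
      (by
        intro i j hij
        by_cases hi : i = 0
        · simp [hi]
        · have hj : j ≠ 0 := by omega
          simp only [hi, hj, if_false]
          exact hL (by omega)) (by simp)
      (by
        intro i A hA
        by_cases hi : i = 0
        · have hA0 : A = ∅ := by
            rw [if_pos hi, empty_inter] at hA
            exact subset_empty.mp hA
          rw [hA0]
          simp
        · simp only [hi, if_false]
          rw [if_neg hi] at hA
          have hA1 : A ⊆ L (i - 1) := hA.trans inter_subset_left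
          have h1 := hYmin (i - 1) A hA1
          have h2 := hgr0 (i - 1)
          omega)
  have hc' : ∀ t, (L t \ (S₁ ∪ S₂)).card ≤ (Y t).card - 2 * gr G F (Y t) := by
    intro t
    have h1 := hc (t + 1)
    simp only [Nat.add_eq_zero_iff, one_ne_zero, and_false, if_false, Nat.add_sub_cancel] at h1
    rwa [inter_eq_left.mpr (hLM t)] at h1
  have hnc1 : ∀ A ⊆ M, G.nc (F ∪ M) ≤ G.nc (F ∪ A) := by
    intro A hA
    exact G.nc_anti _ _ (union_subset_union (Subset.refl _) hA)
  have hU := union_subset hS1 hS2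
  have hcU := card_union_of_disjoint hd
  have hT1 := hc' T
  rw [hT] at hT1
  have hcM := card_sdiff_add_card_eq_card hU
  have hYT := hpk (Y T) ((hYL T).trans (hLM T))
  have hcYT := card_sdiff_add_card_eq_card ((hYL T).trans (hLM T))
  have h6 := hgr0 T
  have ha1 := hadd S₁
  have ha2 := hadd S₂
  have haT := hadd (Y T)
  have hb1 := hnc1 S₁ hS1
  have hb2 := hnc1 S₂ hS2
  have hn1 : G.nc (F ∪ S₁) = G.nc (F ∪ M) := by omega
  have hn2 : G.nc (F ∪ S₂) = G.nc (F ∪ M) := by omega
  refine ⟨Y, hYL, fun s t h => hmono s t h, ?_, ?_, S₁, hS1, S₂, hS2, hd, hn1, hn2, ?_⟩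
  · intro t B hB
    have h1 := hYmin t B hB
    have h2 := hadd B
    have h3 := hadd (Y t)
    omega
  · intro t e he hr
    by_contra hne
    have h1 : gr G F (insert e (Y t)) = gr G F (Y t) := by
      have h2 := hadd (insert e (Y t))
      have h3 := hadd (Y t)
      rw [union_insert, G.nc_insert_of_Rch _ e hr] at h2
      omega
    have h2 := hYmin t (insert e (Y t)) (insert_subset he (hYL t))
    rw [card_insert_of_notMem hne, h1] at h2
    omega
  · intro t
    have h1 := hc' t
    have h2 := card_sdiff_add_card_inter (S₁ ∪ S₂) (L t)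
    have h3 := card_sdiff_add_card_inter (L t) (S₁ ∪ S₂)
    rw [inter_comm] at h3
    have h4 := card_sdiff_add_card_eq_card (hYL t)
    have h5 := hadd (Y t)
    have h7 := hgr0 t
    have h8 := card_le_card (inter_subset_left : L t ∩ (S₁ ∪ S₂) ⊆ L t)
    have h9 := card_le_card (inter_subset_right : L t ∩ (S₁ ∪ S₂) ⊆ S₁ ∪ S₂)
    omega

theorem sum_levels (w : E → ℕ) (T : ℕ) (S : Finset E) (hT : ∀ e ∈ S, w e ≤ T) :
    ∑ e ∈ S, w e = ∑ t ∈ range T, (S.filter (fun e => t < w e)).card := by
  have h1 : ∀ t ∈ range T, (S.filter (fun e => t < w e)).card =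
      ∑ e ∈ S, (if t < w e then 1 else 0) := fun t _ => card_filter _ _
  rw [sum_congr rfl h1, sum_comm]
  refine sum_congr rfl fun e he => ?_
  rw [← card_filter]
  have h2 : (range T).filter (fun t => t < w e) = range (w e) := by
    ext t
    rw [mem_filter, mem_range, mem_range]
    have := hT e he
    constructor
    · exact fun h => h.2
    · intro h
      exact ⟨by omega, h⟩
  rw [h2, card_range]

/-- JOB wulG: weighted union of two graphic matroids, general form (`Z` contracted, `A` the edges).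
`hc` : all partitions `P` satisfy `e(P) ≥ 2 (|P| - 1)`. The third line of the conclusion says that
`Y t` is a maximiser of `2 nc(P ∪ Z) + |P|`. -/
theorem wulG (G : MG V E) (Z A : Finset E) (hd : Disjoint A Z) (w : E → ℕ) (T : ℕ)
    (hT : ∀ e ∈ A, w e ≤ T)
    (hc : ∀ P ⊆ A, 2 * G.nc (P ∪ Z) ≤ (A \ P).card + 2 * G.nc (A ∪ Z)) :
    ∃ Y : ℕ → Finset E, (∀ t, Y t ⊆ A ∩ lt w t) ∧ (∀ s t, s ≤ t → Y s ⊆ Y t) ∧
      (∀ t, ∀ P ⊆ A ∩ lt w t, 2 * G.nc (P ∪ Z) + P.card ≤ 2 * G.nc (Y t ∪ Z) + (Y t).card) ∧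
      ∃ S₁ ⊆ A, ∃ S₂ ⊆ A, Disjoint S₁ S₂ ∧
      (∀ a b, G.Rch (A ∪ Z) a b → G.Rch (S₁ ∪ Z) a b) ∧
      (∀ a b, G.Rch (A ∪ Z) a b → G.Rch (S₂ ∪ Z) a b) ∧
      (∑ e ∈ S₁, (w e : ℤ)) + (∑ e ∈ S₂, (w e : ℤ)) ≤
        ∑ t ∈ range T, (2 * (G.nc (Y t ∪ Z) : ℤ) - 2 * (G.nc (A ∪ Z) : ℤ)
          - (((A ∩ lt w t) \ Y t).card : ℤ)) := by
  classical
  have hmono : Monotone (fun t => A ∩ lt w t) := by
    intro s t hst e he
    simp only [lt, mem_inter, mem_filter, mem_univ, true_and] at he ⊢
    exact ⟨he.1, he.2.trans hst⟩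
  obtain ⟨Y, hYL, hYm, hmax, -, S₁, hS1, S₂, hS2, hdd, hn1, hn2, hcount⟩ :=
    wul_rel G Z A (fun t => A ∩ lt w t) hmono (fun t => inter_subset_left)
      (fun P hP => by
        have h1 := hc P hP
        rwa [union_comm P, union_comm A] at h1) T (by
        rw [inter_eq_left]
        intro e he
        simp only [lt, mem_filter, mem_univ, true_and]
        exact hT e he)
  have hconn : ∀ S ⊆ A, G.nc (Z ∪ S) = G.nc (Z ∪ A) → ∀ a b, G.Rch (A ∪ Z) a b →
      G.Rch (S ∪ Z) a b := by
    intro S hS hn a b hab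
    rw [union_comm] at hab ⊢
    exact G.Rch_of_nc_eq _ _ (union_subset_union (Subset.refl _) hS) hn.symm a b hab
  refine ⟨Y, hYL, fun s t h => hYm h, ?_, S₁, hS1, S₂, hS2, hdd, hconn S₁ hS1 hn1,
    hconn S₂ hS2 hn2, ?_⟩
  · intro t P hP
    have h1 := hmax t P hP
    rwa [union_comm Z, union_comm Z] at h1
  · have h1 := sum_levels w T S₁ (fun e he => hT e (hS1 he))
    have h2 := sum_levels w T S₂ (fun e he => hT e (hS2 he))
    have h3 : (∑ e ∈ S₁, (w e : ℤ)) + (∑ e ∈ S₂, (w e : ℤ)) =
        ∑ t ∈ range T, (((S₁.filter (fun e => t < w e)).card : ℤ) +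
          ((S₂.filter (fun e => t < w e)).card : ℤ)) := by
      rw [sum_add_distrib, ← Nat.cast_sum, ← Nat.cast_sum, ← Nat.cast_sum, ← Nat.cast_sum, ← h1,
        ← h2]
    rw [h3]
    refine sum_le_sum fun t _ => ?_
    have h4 := hcount t
    have h5 : ((S₁ ∪ S₂) \ (A ∩ lt w t)).card =
        (S₁.filter (fun e => t < w e)).card + (S₂.filter (fun e => t < w e)).card := by
      rw [← card_union_of_disjoint]
      · congr 1
        ext e
        simp only [mem_sdiff, mem_union, mem_inter, mem_filter, lt, mem_univ, true_and]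
        have h3 := @hS1 e
        have h4 := @hS2 e
        rw [← not_le]
        tauto
      · exact disjoint_of_subset_left (filter_subset _ _)
          (disjoint_of_subset_right (filter_subset _ _) hdd)
    rw [h5] at h4
    rw [union_comm (Y t), union_comm A]
    omega

/-! ### components inside a region -/

theorem pk_classes {α : Type} [DecidableEq α] (X : Finset V) (f : V → α) :
    (X.image f).card = (X.image (fun a => X.filter (fun b => f b = f a))).card := by
  have h1 : X.image (fun a => X.filter (fun b => f b = f a)) =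
      (X.image f).image (fun y => X.filter (fun b => f b = y)) := by
    rw [image_image]
    rfl
  rw [h1]
  refine (card_image_of_injOn ?_).symm
  intro y hy y' _ hyy
  obtain ⟨a, ha, rfl⟩ := mem_image.mp (mem_coe.mp hy)
  have h2 : a ∈ X.filter (fun b => f b = f a) := mem_filter.mpr ⟨ha, rfl⟩
  simp only at hyy
  rw [hyy] at h2
  exact (mem_filter.mp h2).2

theorem pk_card_eq {α β : Type} [DecidableEq α] [DecidableEq β] (X : Finset V) (f : V → α)
    (g : V → β) (h : ∀ a ∈ X, ∀ b ∈ X, f a = f b ↔ g a = g b) :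
    (X.image f).card = (X.image g).card := by
  rw [pk_classes X f, pk_classes X g]
  congr 1
  refine image_congr ?_
  intro a ha
  refine filter_congr ?_
  intro b hb
  exact h b hb a ha

theorem pk_out (G : MG V E) (X : Finset V) (J : Finset E) (hJ : J ⊆ ins G univ X) (a b : V)
    (h : G.Rch J a b) : a = b ∨ (a ∈ X ∧ b ∈ X) := by
  induction h with
  | refl => exact Or.inl rfl
  | @tail x y _ hxy ih =>
    obtain ⟨e, he, hj⟩ := hxy
    have h1 := hJ he
    unfold ins at h1
    rw [mem_filter] at h1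
    have h2 : x ∈ X ∧ y ∈ X := by
      rcases hj with ⟨h3, h4⟩ | ⟨h3, h4⟩
      · exact ⟨h3 ▸ h1.2.1, h4 ▸ h1.2.2⟩
      · exact ⟨h4 ▸ h1.2.2, h3 ▸ h1.2.1⟩
    rcases ih with ih | ih
    · exact Or.inr ⟨ih ▸ h2.1, h2.2⟩
    · exact Or.inr ⟨ih.1, h2.2⟩

theorem pk_nc (G : MG V E) (X : Finset V) (J : Finset E) (hJ : J ⊆ ins G univ X) :
    G.nc J = (X.image (G.cv J)).card + Xᶜ.card := by
  unfold MG.nc
  have h1 : (univ : Finset V).image (G.cv J) = X.image (G.cv J) ∪ Xᶜ.image (G.cv J) := by
    rw [← image_union, union_compl]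
  rw [h1, card_union_of_disjoint]
  · congr 1
    refine card_image_of_injOn ?_
    intro a ha b hb hab
    have h2 := (G.cv_eq J a b).mp hab
    rcases pk_out G X J hJ a b h2 with h3 | h3
    · exact h3
    · exact absurd h3.1 (mem_compl.mp (mem_coe.mp ha))
  · rw [disjoint_left]
    intro S hS hS'
    obtain ⟨a, ha, rfl⟩ := mem_image.mp hS
    obtain ⟨b, hb, hab⟩ := mem_image.mp hS'
    have h2 := (G.cv_eq J b a).mp hab
    rcases pk_out G X J hJ b a h2 with h3 | h3
    · exact mem_compl.mp hb (h3 ▸ ha)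
    · exact mem_compl.mp hb h3.1

theorem pk_rch (G : MG V E) (M : Finset E) (R : Finset (Finset V)) (X : Finset V)
    (hX : G.cut X ⊆ M) (J : Finset E) (hJ : J ⊆ ins G univ X) (hl : low G M R X ⊆ J)
    (a b : V) (ha : a ∈ X) (h : G.Rch ((univ \ M) ∪ J) a b) : b ∈ X ∧ G.Rch J a b := by
  induction h with
  | refl => exact ⟨ha, G.Rch_refl _ _⟩
  | @tail x y _ hxy ih =>
    obtain ⟨e, he, hj⟩ := hxy
    obtain ⟨hx, ih⟩ := ih
    have h1 : y ∈ X ∧ e ∈ J := by
      rcases mem_union.mp he with he | he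
      · have heM : e ∉ M := (mem_sdiff.mp he).2
        have h2 : e ∉ G.cut X := fun h => heM (hX h)
        rw [G.mem_cut, not_not] at h2
        have h3 : G.s e ∈ X ∧ G.t e ∈ X := by
          rcases hj with ⟨h4, h5⟩ | ⟨h4, h5⟩
          · have : G.s e ∈ X := h4 ▸ hx
            exact ⟨this, h2.mp this⟩
          · have : G.t e ∈ X := h5 ▸ hx
            exact ⟨h2.mpr this, this⟩
        have h4 : e ∈ J := by
          apply hl
          unfold low
          rw [mem_sdiff]
          refine ⟨?_, ?_⟩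
          · unfold ins
            rw [mem_filter]
            exact ⟨mem_univ _, h3⟩
          · intro h5
            unfold own at h5
            exact heM (mem_filter.mp (mem_filter.mp h5).1).1
        refine ⟨?_, h4⟩
        rcases hj with ⟨_, h5⟩ | ⟨h5, _⟩
        · exact h5 ▸ h3.2
        · exact h5 ▸ h3.1
      · refine ⟨?_, he⟩
        have h1 := hJ he
        unfold ins at h1
        rw [mem_filter] at h1
        rcases hj with ⟨_, h5⟩ | ⟨h5, _⟩
        · exact h5 ▸ h1.2.2
        · exact h5 ▸ h1.2.1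
    exact ⟨h1.1, Relation.ReflTransGen.tail ih ⟨e, h1.2, hj⟩⟩

/-- a colouring with the components as classes -/
theorem pk_col (G : MG V E) (K : Finset E) : ∃ c : V → V, ∀ a b, c a = c b ↔ G.Rch K a b := by
  classical
  have hne : ∀ v, (G.cv K v).Nonempty := fun v => ⟨v, by rw [G.mem_cv]; exact G.Rch_refl _ _⟩
  obtain ⟨rep, hrep⟩ : ∃ rep : Finset V → V → V, ∀ S v, v ∈ S → rep S v ∈ S ∧
      ∀ v', rep S v = rep S v' ∨ v' ∉ S := by
    refine ⟨fun S v => if h : S.Nonempty then h.choose else v, ?_⟩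
    intro S v hv
    have h : S.Nonempty := ⟨v, hv⟩
    simp only [h, dif_pos]
    exact ⟨h.choose_spec, fun v' => Or.inl trivial⟩
  refine ⟨fun v => rep (G.cv K v) v, ?_⟩
  intro a b
  have ha : a ∈ G.cv K a := by rw [G.mem_cv]; exact G.Rch_refl _ _
  have hb : b ∈ G.cv K b := by rw [G.mem_cv]; exact G.Rch_refl _ _
  constructor
  · intro h
    have h1 := (hrep _ a ha).1
    have h2 := (hrep _ b hb).1
    simp only at h
    rw [← h] at h2
    rw [G.mem_cv] at h1 h2
    exact G.Rch_trans _ _ _ _ h1 (G.Rch_symm _ _ _ h2)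
  · intro h
    have h1 : G.cv K a = G.cv K b := (G.cv_eq K a b).mpr h
    simp only
    rw [h1]
    rcases (hrep _ b hb).2 a with h2 | h2
    · exact h2.symm
    · rw [h1] at ha
      exact absurd ha h2

/-- JOB pack_gen: two disjoint connectors of the contracted region which avoid a fraction `1 / N`
of the weight `u` (supported on `B`). Proof: `wulG` with `A = own X`, `Z = low X`, `w = u` off the
edges of weight `0`; `∑ u (S₁ ∪ S₂) ≤ ∑_t (2 (parts - 1) - light crossing edges)`, and
`N (2 (parts - 1)) + crossing edges in B ≤ N (crossing edges)` for the partition `Y t ∪ Z`. -/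
theorem pack_gen (G : MG V E) (M : Finset E) (R : Finset (Finset V)) (hR : Lmr G M R)
    (X : Finset V) (hX : X ∈ R) (B : Finset E) (hB : B ⊆ own G M R X) (N : ℕ) (hN : 1 ≤ N)
    (den : ∀ c : V → V, (∀ e, e ∉ M → c (G.s e) = c (G.t e)) →
      (∀ e ∈ low G M R X, c (G.s e) = c (G.t e)) → 2 ≤ (X.image c).card →
      N * (2 * (X.image c).card) + (crs G B c).card ≤ N * (crs G (own G M R X) c).card + N * 2)
    (u : E → ℕ) (hu : ∀ e, e ∉ B → u e = 0) :
    ∃ S₁ ⊆ own G M R X, ∃ S₂ ⊆ own G M R X, Disjoint S₁ S₂ ∧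
      (∀ a ∈ X, ∀ b ∈ X, G.Rch (S₁ ∪ low G M R X) a b) ∧
      (∀ a ∈ X, ∀ b ∈ X, G.Rch (S₂ ∪ low G M R X) a b) ∧
      ∑ e ∈ own G M R X, u e ≤ N * ∑ e ∈ own G M R X \ (S₁ ∪ S₂), u e := by
  classical
  set A := own G M R X with hA
  set Z := low G M R X with hZ
  have hAi : A ⊆ ins G univ X := by
    intro e he
    rw [hA] at he
    unfold own ins at he
    unfold ins
    rw [mem_filter, mem_filter] at he
    rw [mem_filter]
    exact ⟨mem_univ _, he.1.2⟩
  have hZi : Z ⊆ ins G univ X := by
    rw [hZ]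
    unfold low
    exact sdiff_subset
  -- colourings of the components
  have key : ∀ P ⊆ A, ∃ c : V → V, (∀ a ∈ X, ∀ b ∈ X, c a = c b ↔ G.Rch (Z ∪ P) a b) ∧
      (X.image c).card = (X.image (G.cv (Z ∪ P))).card ∧
      (2 ≤ (X.image c).card →
        N * (2 * (X.image c).card) + (crs G B c).card ≤ N * (crs G A c).card + N * 2) := by
    intro P hP
    have hJ : Z ∪ P ⊆ ins G univ X := union_subset hZi (hP.trans hAi)
    obtain ⟨c, hc⟩ := pk_col G ((univ \ M) ∪ (Z ∪ P))
    have h1 : ∀ a ∈ X, ∀ b ∈ X, c a = c b ↔ G.Rch (Z ∪ P) a b := by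
      intro a ha b _
      rw [hc]
      constructor
      · intro h
        exact (pk_rch G M R X (hR.nod X hX) (Z ∪ P) hJ subset_union_left a b ha h).2
      · intro h
        exact G.Rch_mono _ _ subset_union_right _ _ h
    refine ⟨c, h1, ?_, ?_⟩
    · refine pk_card_eq X c (G.cv (Z ∪ P)) ?_
      intro a ha b hb
      rw [h1 a ha b hb, G.cv_eq]
    · intro h2
      refine den c ?_ ?_ h2
      · intro e he
        rw [hc]
        exact G.Rch_edge _ e (mem_union_left _ (mem_sdiff.mpr ⟨mem_univ _, he⟩))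
      · intro e he
        rw [hc]
        exact G.Rch_edge _ e (mem_union_right _ (mem_union_left _ he))
  have hins : ∀ e ∈ ins G univ X, G.s e ∈ X ∧ G.t e ∈ X := by
    intro e he
    unfold ins at he
    exact (mem_filter.mp he).2
  -- the region is connected
  have hk1 : (X.image (G.cv (Z ∪ A))).card ≤ 1 := by
    obtain ⟨c, hc1, hc2, hc3⟩ := key A (Subset.refl _)
    by_contra hlt
    rw [← hc2] at hlt
    have h1 := hc3 (by omega)
    have h2 : (crs G A c).card = 0 := by
      rw [card_eq_zero]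
      unfold crs
      rw [filter_eq_empty_iff]
      intro e he
      rw [not_not]
      obtain ⟨h3, h4⟩ := hins e (hAi he)
      rw [hc1 _ h3 _ h4]
      exact G.Rch_edge _ e (mem_union_right _ he)
    rw [h2] at h1
    have h3 : N * 2 < N * (2 * (X.image c).card) := by
      apply Nat.mul_lt_mul_of_pos_left _ (by omega)
      omega
    omega
  have hXne := hR.ne X hX
  have hk2 : 1 ≤ (X.image (G.cv (Z ∪ A))).card := by
    rw [Nat.one_le_iff_ne_zero, ← Nat.pos_iff_ne_zero, card_pos]
    exact hXne.image _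
  have hkP : ∀ P : Finset E, 1 ≤ (X.image (G.cv (Z ∪ P))).card := by
    intro P
    rw [Nat.one_le_iff_ne_zero, ← Nat.pos_iff_ne_zero, card_pos]
    exact hXne.image _
  have hncA := pk_nc G X (Z ∪ A) (union_subset hZi hAi)
  -- packing hypothesis
  have hpk : ∀ P ⊆ A, 2 * G.nc (Z ∪ P) ≤ (A \ P).card + 2 * G.nc (Z ∪ A) := by
    intro P hP
    have hncP := pk_nc G X (Z ∪ P) (union_subset hZi (hP.trans hAi))
    obtain ⟨c, hc1, hc2, hc3⟩ := key P hP
    by_cases h2 : 2 ≤ (X.image c).card
    · have h1 := hc3 h2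
      have h3 : (crs G A c).card ≤ (A \ P).card := by
        refine card_le_card ?_
        intro e he
        unfold crs at he
        rw [mem_filter] at he
        rw [mem_sdiff]
        refine ⟨he.1, ?_⟩
        intro heP
        apply he.2
        obtain ⟨h3, h4⟩ := hins e (hAi he.1)
        rw [hc1 _ h3 _ h4]
        exact G.Rch_edge _ e (mem_union_right _ heP)
      have h4 : N * (2 * (X.image c).card) ≤ N * ((crs G A c).card + 2) := by
        rw [mul_add]
        omega
      have h5 := Nat.le_of_mul_le_mul_left h4 (by omega)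
      omega
    · omega
  obtain ⟨T, hT⟩ : ∃ T, T = ∑ e, u e := ⟨_, rfl⟩
  have hTe : ∀ e, u e ≤ T := by
    intro e
    rw [hT]
    exact single_le_sum (f := u) (fun _ _ => Nat.zero_le _) (mem_univ e)
  have hmono : Monotone (fun t => A ∩ lt u t) := by
    intro s t hst e he
    simp only [lt, mem_inter, mem_filter, mem_univ, true_and] at he ⊢
    exact ⟨he.1, he.2.trans hst⟩
  obtain ⟨Y, hYL, hYm, hmax, hsat, S₁, hS1, S₂, hS2, hdd, hn1, hn2, hcount⟩ :=
    wul_rel G Z A (fun t => A ∩ lt u t) hmono (fun t => inter_subset_left) hpk T (by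
        rw [inter_eq_left]
        intro e he
        simp only [lt, mem_filter, mem_univ, true_and]
        exact hTe e)
  have hall : ∀ a ∈ X, ∀ b ∈ X, G.Rch (Z ∪ A) a b := by
    intro a ha b hb
    rw [← G.cv_eq]
    rw [card_le_one] at hk1
    exact hk1 _ (mem_image_of_mem _ ha) _ (mem_image_of_mem _ hb)
  have hconn : ∀ S ⊆ A, G.nc (Z ∪ S) = G.nc (Z ∪ A) → ∀ a ∈ X, ∀ b ∈ X, G.Rch (S ∪ Z) a b := by
    intro S hS hn a ha b hb
    rw [union_comm]
    exact G.Rch_of_nc_eq _ _ (union_subset_union (Subset.refl _) hS) hn.symm a b (hall a ha b hb)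
  refine ⟨S₁, hS1, S₂, hS2, hdd, hconn S₁ hS1 hn1, hconn S₂ hS2 hn2, ?_⟩
  rw [sum_levels u T A (fun e _ => hTe e), sum_levels u T (A \ (S₁ ∪ S₂)) (fun e _ => hTe e),
    mul_sum]
  refine sum_le_sum fun t _ => ?_
  have h1 := hcount t
  obtain ⟨c, hc1, hc2, hc3⟩ := key (Y t) ((hYL t).trans inter_subset_left)
  have hncY := pk_nc G X (Z ∪ Y t) (union_subset hZi (((hYL t).trans inter_subset_left).trans hAi))
  -- heavy edges
  have h2 : (A.filter (fun e => t < u e)).card =
      ((A \ (S₁ ∪ S₂)).filter (fun e => t < u e)).card + ((S₁ ∪ S₂) \ (A ∩ lt u t)).card := by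
    rw [← card_union_of_disjoint]
    · congr 1
      ext e
      simp only [mem_sdiff, mem_union, mem_inter, mem_filter, lt, mem_univ, true_and]
      have h3 := @hS1 e
      have h4 := @hS2 e
      rw [← not_le]
      tauto
    · rw [disjoint_left]
      intro e he he'
      exact (mem_sdiff.mp (mem_filter.mp he).1).2 (mem_sdiff.mp he').1
  -- crossing edges
  have h3 : (crs G A c).card ≤ (((A ∩ lt u t) \ Y t).card +
      ((A.filter (fun e => t < u e)).filter (fun e => c (G.s e) ≠ c (G.t e))).card) := by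
    rw [← card_union_of_disjoint]
    · refine card_le_card ?_
      intro e he
      unfold crs at he
      rw [mem_filter] at he
      rw [mem_union, mem_filter, mem_filter, mem_sdiff, mem_inter]
      by_cases h4 : u e ≤ t
      · left
        refine ⟨⟨he.1, ?_⟩, ?_⟩
        · simp only [lt, mem_filter, mem_univ, true_and]
          exact h4
        · intro h5
          apply he.2
          obtain ⟨h6, h7⟩ := hins e (hAi he.1)
          rw [hc1 _ h6 _ h7]
          exact G.Rch_edge _ e (mem_union_right _ h5)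
      · right
        exact ⟨⟨he.1, by omega⟩, he.2⟩
    · rw [disjoint_left]
      intro e he he'
      have h4 := (mem_filter.mp (mem_filter.mp he').1).2
      have h5 := (mem_inter.mp (mem_sdiff.mp he).1).2
      simp only [lt, mem_filter, mem_univ, true_and] at h5
      omega
  have h4 : ((A.filter (fun e => t < u e)).filter (fun e => c (G.s e) ≠ c (G.t e))).card ≤
      (crs G B c).card := by
    refine card_le_card ?_
    intro e he
    rw [mem_filter, mem_filter] at he
    unfold crs
    rw [mem_filter]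
    refine ⟨?_, he.2⟩
    by_contra h5
    have h6 := hu e h5
    omega
  have h5 : ((A.filter (fun e => t < u e)).filter (fun e => c (G.s e) ≠ c (G.t e))).card ≤
      (A.filter (fun e => t < u e)).card := card_filter_le _ _
  have h6 := hkP (Y t)
  generalize ((A.filter (fun e => t < u e)).filter (fun e => c (G.s e) ≠ c (G.t e))).card = h' at *
  generalize (A.filter (fun e => t < u e)).card = h at *
  generalize ((A \ (S₁ ∪ S₂)).filter (fun e => t < u e)).card = x at *
  generalize ((S₁ ∪ S₂) \ (A ∩ lt u t)).card = y at *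
  generalize ((A ∩ lt u t) \ Y t).card = z at *
  generalize (crs G A c).card = q at *
  generalize (crs G B c).card = q' at *
  by_cases hk : 2 ≤ (X.image c).card
  · have h7 := hc3 hk
    rw [hc2] at h7
    generalize (X.image (G.cv (Z ∪ Y t))).card = k at *
    have h8 : y + z + 2 ≤ 2 * k := by omega
    have h9 : N * (y + z + 2) ≤ N * (2 * k) := Nat.mul_le_mul_left _ h8
    have h10 : N * q ≤ N * (z + h') := Nat.mul_le_mul_left _ h3
    have h11 : N * y + h' ≤ N * h' := by
      rw [mul_add, mul_add] at h9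
      rw [mul_add] at h10
      omega
    have h12 : N * (h - h') ≥ h - h' := Nat.le_mul_of_pos_left _ (by omega)
    have h13 : N * h = N * (h - h') + N * h' := by
      rw [← mul_add]
      congr 1
      omega
    have h14 : N * h = N * x + N * y := by rw [h2, mul_add]
    omega
  · have h7 : y = 0 := by omega
    have h8 : x ≤ N * x := Nat.le_mul_of_pos_left _ (by omega)
    omega

end Pool.Agent.Lib.MP_95e9b3_coG
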