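import Pool.Agent.Lib.MP_95e9b3_coG.R3Defs
import Pool.Agent.Lib.MP_95e9b3_coG.Wul

/-!
# Route G, Lemma T

Two disjoint connectors with prescribed edges at the vertex `c0`: orientations with indegree
conditions, path reversal, growth of an arborescence.
-/

set_option autoImplicit false
set_option linter.unusedSectionVars false

namespace Pool.Agent.Lib.MP_95e9b3_coG

open Finset Pool.Agent.Lib.MP_95e9b3_coC

variable {V E : Type} [Fintype V] [DecidableEq V] [Fintype E] [DecidableEq E]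

namespace LT

/-- distances of a relation -/
theorem dist_ex {α : Type} (r : α → α → Prop) (a : α) :
    ∃ d : α → ℕ, d a = 0 ∧ ∀ x, Relation.ReflTransGen r a x → x ≠ a →
      ∃ y, r y x ∧ Relation.ReflTransGen r a y ∧ d y < d x := by
  let L : ℕ → α → Prop := fun n => Nat.rec (fun x => x = a) (fun _ P x => ∃ y, P y ∧ r y x) n
  have hL0 : ∀ x, L 0 x ↔ x = a := fun x => Iff.rfl
  have hL1 : ∀ n x, L (n + 1) x ↔ ∃ y, L n y ∧ r y x := fun n x => Iff.rfl
  have h1 : ∀ x, Relation.ReflTransGen r a x → ∃ n, L n x := by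
    intro x hx
    induction hx with
    | refl => exact ⟨0, rfl⟩
    | tail _ hbc ih =>
      obtain ⟨n, hn⟩ := ih
      exact ⟨n + 1, _, hn, hbc⟩
  have h2 : ∀ n x, L n x → Relation.ReflTransGen r a x := by
    intro n
    induction n with
    | zero =>
      intro x hx
      rw [(hL0 x).mp hx]
    | succ n ih =>
      intro x hx
      obtain ⟨y, hy, hr⟩ := (hL1 n x).mp hx
      exact Relation.ReflTransGen.tail (ih y hy) hr
  refine ⟨fun x => sInf {n | L n x}, ?_, ?_⟩
  · exact Nat.le_zero.mp (Nat.sInf_le (show L 0 a from rfl))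
  · intro x hx hxa
    obtain ⟨n, hn⟩ := h1 x hx
    have hm : L (sInf {n | L n x}) x := Nat.sInf_mem (s := {n | L n x}) ⟨n, hn⟩
    cases hk : sInf {n | L n x} with
    | zero =>
      rw [hk] at hm
      exact absurd ((hL0 x).mp hm) hxa
    | succ m =>
      rw [hk] at hm
      obtain ⟨y, hy, hr⟩ := (hL1 m x).mp hm
      refine ⟨y, hr, h2 m y hy, ?_⟩
      have h3 : sInf {n | L n y} ≤ m := Nat.sInf_le hy
      show sInf {n | L n y} < sInf {n | L n x}
      omega

/-- head -/
def hd (G : MG V E) (o : E → Bool) (e : E) : V := if o e = true then G.t e else G.s e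

/-- tail -/
def tl (G : MG V E) (o : E → Bool) (e : E) : V := if o e = true then G.s e else G.t e

theorem jn_tl_hd (G : MG V E) (o : E → Bool) (e : E) : G.Jn e (tl G o e) (hd G o e) := by
  unfold tl hd
  by_cases h : o e = true
  · simp only [h, if_true]
    exact Or.inl ⟨rfl, rfl⟩
  · simp only [h]
    exact Or.inr ⟨rfl, rfl⟩

theorem of_jn (G : MG V E) (o : E → Bool) (e : E) (a b : V) (h : G.Jn e a b) :
    (tl G o e = a ∧ hd G o e = b) ∨ (tl G o e = b ∧ hd G o e = a) := by
  unfold tl hd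
  by_cases ho : o e = true
  · simp only [ho, if_true]
    exact h
  · simp only [ho]
    rcases h with ⟨h1, h2⟩ | ⟨h1, h2⟩
    · right
      exact ⟨h2, h1⟩
    · left
      exact ⟨h2, h1⟩

/-- the arcs of `B` entering `X` -/
def ent (G : MG V E) (o : E → Bool) (B : Finset E) (X : Finset V) : Finset E :=
  B.filter (fun e => hd G o e ∈ X ∧ tl G o e ∉ X)

theorem mem_ent (G : MG V E) (o : E → Bool) (B : Finset E) (X : Finset V) (e : E) :
    e ∈ ent G o B X ↔ e ∈ B ∧ hd G o e ∈ X ∧ tl G o e ∉ X := by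
  unfold ent
  rw [mem_filter]

theorem ent_sub (G : MG V E) (o : E → Bool) (B : Finset E) (X Z : Finset V) :
    (ent G o B (X ∩ Z)).card + (ent G o B (X ∪ Z)).card ≤
      (ent G o B X).card + (ent G o B Z).card := by
  rw [← card_union_add_card_inter (ent G o B (X ∩ Z)), ← card_union_add_card_inter (ent G o B X)]
  refine Nat.add_le_add (card_le_card ?_) (card_le_card ?_)
  · intro e he
    simp only [mem_union, mem_ent, mem_inter, not_and, not_or] at he ⊢
    rcases he with ⟨h1, ⟨h2, h3⟩, h4⟩ | ⟨h1, h2, h3, h4⟩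
    · by_cases h5 : tl G o e ∈ X
      · exact Or.inr ⟨h1, h3, h4 h5⟩
      · exact Or.inl ⟨h1, h2, h5⟩
    · rcases h2 with h2 | h2
      · exact Or.inl ⟨h1, h2, h3⟩
      · exact Or.inr ⟨h1, h2, h4⟩
  · intro e he
    simp only [mem_union, mem_ent, mem_inter, not_and, not_or] at he ⊢
    obtain ⟨⟨h1, ⟨h2, h3⟩, h4⟩, h5, h6, h7, h8⟩ := he
    exact ⟨⟨h1, h2, h7⟩, h1, h3, h8⟩

/-- growth step -/
theorem grow (G : MG V E) (o : E → Bool) (D : Finset E) (K : Finset V)
    (h2 : ∀ X ⊆ K, X.Nonempty → 2 ≤ (ent G o D X).card)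
    (B : Finset E) (P : Finset V) (hB : ∀ e ∈ B, hd G o e ∈ P)
    (h1 : ∀ X ⊆ K, X.Nonempty → 1 ≤ (ent G o (D \ B) X).card)
    (f0 : E) (hf0 : f0 ∈ D) (hf1 : tl G o f0 ∈ P) (hf2 : hd G o f0 ∈ K) (hf3 : hd G o f0 ∉ P) :
    ∃ f ∈ D, tl G o f ∈ P ∧ hd G o f ∈ K ∧ hd G o f ∉ P ∧ (tl G o f ∈ K ∨ f = f0) ∧
      ∀ X ⊆ K, X.Nonempty → 1 ≤ (ent G o (D \ insert f B) X).card := by
  classical
  have hdel : ∀ f X, (ent G o (D \ B) X).card ≤ (ent G o (D \ insert f B) X).card + 1 := by
    intro f X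
    have h3 : ent G o (D \ B) X ⊆ insert f (ent G o (D \ insert f B) X) := by
      intro e he
      rw [mem_ent, mem_sdiff] at he
      rw [mem_insert, mem_ent, mem_sdiff, mem_insert]
      by_cases h : e = f
      · exact Or.inl h
      · exact Or.inr ⟨⟨he.1.1, fun h' => h'.elim h he.1.2⟩, he.2⟩
    exact (card_le_card h3).trans (card_insert_le _ _)
  have hsame : ∀ f X, f ∉ ent G o (D \ B) X →
      (ent G o (D \ B) X).card ≤ (ent G o (D \ insert f B) X).card := by
    intro f X hf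
    refine card_le_card ?_
    intro e he
    have hne : e ≠ f := fun h => hf (h ▸ he)
    rw [mem_ent, mem_sdiff] at he ⊢
    rw [mem_insert]
    exact ⟨⟨he.1.1, fun h' => h'.elim hne he.1.2⟩, he.2⟩
  by_cases hX : ∃ X, X ⊆ K ∧ X.Nonempty ∧ (ent G o (D \ B) X).card ≤ 1 ∧ ¬ X ⊆ P
  · obtain ⟨X0, hX0⟩ := hX
    obtain ⟨X, hXm, hmin⟩ := exists_min_image
      (K.powerset.filter (fun X => X.Nonempty ∧ (ent G o (D \ B) X).card ≤ 1 ∧ ¬ X ⊆ P))
      (fun X => X.card) ⟨X0, by rw [mem_filter, mem_powerset]; exact hX0⟩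
    rw [mem_filter, mem_powerset] at hXm
    obtain ⟨hXK, hXn, hX1, hXP⟩ := hXm
    have hX'n : (X \ P).Nonempty := by
      rw [nonempty_iff_ne_empty]
      intro h
      exact hXP (sdiff_eq_empty_iff_subset.mp h)
    have hX'K : X \ P ⊆ K := (sdiff_subset).trans hXK
    have hge := h2 (X \ P) hX'K hX'n
    have hsub : ent G o D (X \ P) ⊆ ent G o (D \ B) (X \ P) := by
      intro e he
      rw [mem_ent] at he ⊢
      refine ⟨?_, he.2⟩
      rw [mem_sdiff]
      refine ⟨he.1, fun hb => ?_⟩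
      have h4 := he.2.1
      rw [mem_sdiff] at h4
      exact h4.2 (hB e hb)
    have hge' : 2 ≤ (ent G o (D \ B) (X \ P)).card := hge.trans (card_le_card hsub)
    have hex : ∃ f ∈ ent G o (D \ B) (X \ P), f ∉ ent G o (D \ B) X := by
      by_contra hcon
      push Not at hcon
      have := card_le_card (show ent G o (D \ B) (X \ P) ⊆ ent G o (D \ B) X from hcon)
      omega
    obtain ⟨f, hf, hfX⟩ := hex
    rw [mem_ent, mem_sdiff, mem_sdiff, mem_sdiff] at hf
    obtain ⟨⟨hfD, hfB⟩, ⟨hfh, hfhP⟩, hft⟩ := hf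
    have htX : tl G o f ∈ X := by
      by_contra h
      exact hfX (by rw [mem_ent, mem_sdiff]; exact ⟨⟨hfD, hfB⟩, hfh, h⟩)
    have htP : tl G o f ∈ P := by
      by_contra h
      exact hft ⟨htX, h⟩
    refine ⟨f, hfD, htP, hXK hfh, hfhP, Or.inl (hXK htX), ?_⟩
    intro Z hZK hZn
    by_cases hfZ : f ∈ ent G o (D \ B) Z
    · rw [mem_ent] at hfZ
      by_contra hcon
      have hZ1 : (ent G o (D \ B) Z).card ≤ 1 := by
        have := hdel f Z
        omega
      have hsm := ent_sub G o (D \ B) X Z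
      have hin : (X ∩ Z).Nonempty := ⟨hd G o f, mem_inter.mpr ⟨hfh, hfZ.2.1⟩⟩
      have hinK : X ∩ Z ⊆ K := inter_subset_left.trans hXK
      have hunK : X ∪ Z ⊆ K := union_subset hXK hZK
      have hun : (X ∪ Z).Nonempty := hXn.mono subset_union_left
      have h5 := h1 (X ∩ Z) hinK hin
      have h6 := h1 (X ∪ Z) hunK hun
      have h7 : (ent G o (D \ B) (X ∩ Z)).card ≤ 1 := by omega
      have h8 := hmin (X ∩ Z) (by
        rw [mem_filter, mem_powerset]
        refine ⟨hinK, hin, h7, fun h => hfhP (h (mem_inter.mpr ⟨hfh, hfZ.2.1⟩))⟩)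
      have h9 : (X ∩ Z).card < X.card := by
        refine card_lt_card ?_
        rw [ssubset_iff_subset_ne]
        refine ⟨inter_subset_left, fun h => ?_⟩
        have : tl G o f ∈ X ∩ Z := by rw [h]; exact htX
        exact hfZ.2.2 (mem_inter.mp this).2
      omega
    · have := hsame f Z hfZ
      have := h1 Z hZK hZn
      omega
  · push Not at hX
    refine ⟨f0, hf0, hf1, hf2, hf3, Or.inr rfl, ?_⟩
    intro Z hZK hZn
    by_cases hfZ : f0 ∈ ent G o (D \ B) Z
    · rw [mem_ent] at hfZ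
      have h3 : 1 < (ent G o (D \ B) Z).card := by
        by_contra hcon
        exact hf3 (hX Z hZK hZn (by omega) hfZ.2.1)
      have := hdel f0 Z
      omega
    · have := hsame f0 Z hfZ
      have := h1 Z hZK hZn
      omega

/-- two disjoint connectors which avoid a given edge -/
theorem two_conn (G : MG V E) (Y : Finset V) (A : Finset E)
    (hA : ∀ e ∈ A, G.s e ∈ Y ∧ G.t e ∈ Y) (c0 : V) (hc0 : c0 ∈ Y) (v : E)
    (den : ∀ c : V → V, 2 ≤ (Y.image c).card → 2 * (Y.image c).card ≤ (crs G A c).card + 1) :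
    ∃ Sa ⊆ A.erase v, ∃ Sb ⊆ A.erase v, Disjoint Sa Sb ∧ (∀ a ∈ Y, ∀ b ∈ Y, G.Rch Sa a b) ∧
      (∀ a ∈ Y, ∀ b ∈ Y, G.Rch Sb a b) := by
  classical
  have : Nonempty {x // x ∈ Y} := ⟨⟨c0, hc0⟩⟩
  obtain ⟨f, hf⟩ : ∃ f : V → {x // x ∈ Y}, ∀ x ∈ Y, (f x).1 = x := by
    refine ⟨fun x => if h : x ∈ Y then ⟨x, h⟩ else ⟨c0, hc0⟩, fun x hx => ?_⟩
    simp only [hx, dite_true]
  have hf2 : ∀ x : {x // x ∈ Y}, f x.1 = x := fun x => Subtype.ext (hf x.1 x.2)
  have htr : ∀ S ⊆ A, ∀ a b, (G.mp f).Rch S a b → G.Rch S a.1 b.1 := by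
    intro S hS a b h
    induction h with
    | refl => exact G.Rch_refl _ _
    | tail _ hbc ih =>
      obtain ⟨e, he, hj⟩ := hbc
      refine Relation.ReflTransGen.tail ih ⟨e, he, ?_⟩
      have h3 := hA e (hS he)
      rcases hj with ⟨h1, h2⟩ | ⟨h1, h2⟩
      · left
        exact ⟨by rw [← h1]; exact (hf _ h3.1).symm, by rw [← h2]; exact (hf _ h3.2).symm⟩
      · right
        exact ⟨by rw [← h1]; exact (hf _ h3.1).symm, by rw [← h2]; exact (hf _ h3.2).symm⟩
  have hpk : ∀ P ⊆ A.erase v, 2 * (G.mp f).nc (∅ ∪ P) ≤ (A.erase v \ P).card + 2 := by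
    intro P hP
    rw [empty_union]
    by_cases hk : (G.mp f).nc P ≤ 1
    · omega
    push Not at hk
    let rep : Finset {x // x ∈ Y} → {x // x ∈ Y} := fun X =>
      if h : X.Nonempty then h.choose else ⟨c0, hc0⟩
    have hrep : ∀ a, rep ((G.mp f).cv P a) ∈ (G.mp f).cv P a := by
      intro a
      have hne : ((G.mp f).cv P a).Nonempty := ⟨a, by rw [(G.mp f).mem_cv]; exact (G.mp f).Rch_refl _ _⟩
      simp only [rep, hne, dite_true]
      exact hne.choose_spec
    let c : V → V := fun x => (rep ((G.mp f).cv P (f x))).1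
    have himg : (Y.image c).card = (G.mp f).nc P := by
      have h1 : Y.image c = (univ.image ((G.mp f).cv P)).image (fun X => (rep X).1) := by
        ext x
        simp only [mem_image, mem_univ, true_and]
        constructor
        · rintro ⟨y, hy, rfl⟩
          exact ⟨_, ⟨f y, rfl⟩, rfl⟩
        · rintro ⟨X, ⟨y, rfl⟩, rfl⟩
          refine ⟨y.1, y.2, ?_⟩
          show (rep ((G.mp f).cv P (f y.1))).1 = _
          rw [hf2]
      rw [h1, card_image_of_injOn]
      · rfl
      · intro X hX X' hX' hXX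
        rw [mem_coe, mem_image] at hX hX'
        obtain ⟨a, -, rfl⟩ := hX
        obtain ⟨b, -, rfl⟩ := hX'
        have h2 := Subtype.ext hXX
        have h3 := hrep a
        have h4 := hrep b
        rw [← h2] at h4
        rw [(G.mp f).mem_cv] at h3 h4
        rw [(G.mp f).cv_eq]
        exact (G.mp f).Rch_trans _ _ _ _ h3 ((G.mp f).Rch_symm _ _ _ h4)
    have hden := den c (by rw [himg]; omega)
    rw [himg] at hden
    have hcr : crs G A c ⊆ insert v (A.erase v \ P) := by
      intro e he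
      unfold crs at he
      rw [mem_filter] at he
      rw [mem_insert]
      by_cases hev : e = v
      · exact Or.inl hev
      right
      rw [mem_sdiff, mem_erase]
      refine ⟨⟨hev, he.1⟩, fun heP => he.2 ?_⟩
      have h2 : (G.mp f).cv P (f (G.s e)) = (G.mp f).cv P (f (G.t e)) := by
        rw [(G.mp f).cv_eq]
        exact Relation.ReflTransGen.single ⟨e, heP, Or.inl ⟨rfl, rfl⟩⟩
      show (rep _).1 = (rep _).1
      rw [h2]
    have h5 := (card_le_card hcr).trans (card_insert_le _ _)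
    omega
  obtain ⟨Z, -, -, -, -, Sa, hSa, Sb, hSb, hd, hn1, hn2, -⟩ :=
    wul_gen (G.mp f) ∅ (A.erase v) (fun _ => A.erase v) (fun _ _ _ => le_refl _)
      (fun _ => subset_refl _) hpk 0 rfl
  have hconn : ∀ S ⊆ A.erase v, (G.mp f).nc (∅ ∪ S) ≤ 1 → ∀ a ∈ Y, ∀ b ∈ Y, G.Rch S a b := by
    intro S hSA hS a ha b hb
    rw [empty_union] at hS
    have h1 : (G.mp f).Rch S ⟨a, ha⟩ ⟨b, hb⟩ := by
      rw [← (G.mp f).cv_eq]
      unfold MG.nc at hS
      rw [card_le_one] at hS
      exact hS _ (mem_image_of_mem _ (mem_univ _)) _ (mem_image_of_mem _ (mem_univ _))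
    exact htr S (hSA.trans (erase_subset _ _)) _ _ h1
  exact ⟨Sa, hSa, Sb, hSb, hd, hconn Sa hSa hn1, hconn Sb hSb hn2⟩

/-- orientation with indegrees at least two -/
theorem start (G : MG V E) (Y : Finset V) (D : Finset E)
    (hD : ∀ e ∈ D, G.s e ∈ Y ∧ G.t e ∈ Y) (c0 : V) (hc0 : c0 ∈ Y)
    (Sa Sb : Finset E) (hSa : Sa ⊆ D) (hSb : Sb ⊆ D) (hdis : Disjoint Sa Sb)
    (ha : ∀ a ∈ Y, ∀ b ∈ Y, G.Rch Sa a b) (hb : ∀ a ∈ Y, ∀ b ∈ Y, G.Rch Sb a b) :
    ∃ o : E → Bool, (∀ X ⊆ Y.erase c0, X.Nonempty → 2 ≤ (ent G o D X).card) ∧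
      (∀ e ∈ D, tl G o e ≠ c0 → hd G o e ≠ c0) := by
  classical
  obtain ⟨da, da0, hda⟩ := dist_ex (fun x y => ∃ e ∈ Sa, G.Jn e x y) c0
  obtain ⟨db, db0, hdb⟩ := dist_ex (fun x y => ∃ e ∈ Sb, G.Jn e x y) c0
  have hpa : ∀ x ∈ Y, x ≠ c0 → 0 < da x := by
    intro x hx hxc
    obtain ⟨y, -, -, h⟩ := hda x (ha c0 hc0 x hx) hxc
    omega
  have hpb : ∀ x ∈ Y, x ≠ c0 → 0 < db x := by
    intro x hx hxc
    obtain ⟨y, -, -, h⟩ := hdb x (hb c0 hc0 x hx) hxc
    omega
  obtain ⟨o, ho⟩ : ∃ o : E → Bool, o = fun e => if e ∈ Sa then decide (da (G.s e) ≤ da (G.t e)) else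
    if e ∈ Sb then decide (db (G.s e) ≤ db (G.t e)) else decide (G.s e = c0) := ⟨_, rfl⟩
  have hoa : ∀ e ∈ Sa, o e = decide (da (G.s e) ≤ da (G.t e)) := by
    intro e he
    rw [ho]
    simp only [he, if_true]
  have hob : ∀ e ∈ Sb, o e = decide (db (G.s e) ≤ db (G.t e)) := by
    intro e he
    rw [ho]
    have : e ∉ Sa := fun h => (disjoint_left.mp hdis) h he
    simp only [he, this, if_true, if_false]
  -- head and tail
  have key : ∀ (d : V → ℕ) (e : E), o e = decide (d (G.s e) ≤ d (G.t e)) → ∀ y x, G.Jn e y x →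
      d y < d x → tl G o e = y ∧ hd G o e = x := by
    intro d e hoe y x hj hlt
    unfold tl hd
    rw [hoe]
    rcases hj with ⟨h1, h2⟩ | ⟨h1, h2⟩
    · have h3 : d (G.s e) ≤ d (G.t e) := by rw [h1, h2]; omega
      simp only [h3, decide_true, if_true]
      exact ⟨h1, h2⟩
    · have h3 : ¬ d (G.s e) ≤ d (G.t e) := by rw [h1, h2]; omega
      simp only [h3, decide_false]
      exact ⟨h2, h1⟩
  have key2 : ∀ (d : V → ℕ) (e : E), o e = decide (d (G.s e) ≤ d (G.t e)) →
      d (tl G o e) ≤ d (hd G o e) := by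
    intro d e hoe
    unfold tl hd
    rw [hoe]
    by_cases h3 : d (G.s e) ≤ d (G.t e)
    · simp only [h3, decide_true, if_true]
    · simp only [h3, decide_false]
      show d (G.t e) ≤ d (G.s e)
      omega
  have hends : ∀ e ∈ D, tl G o e ∈ Y ∧ hd G o e ∈ Y := by
    intro e he
    have h3 := hD e he
    unfold tl hd
    by_cases h : o e = true
    · simp only [h, if_true]
      exact h3
    · simp only [h]
      exact ⟨h3.2, h3.1⟩
  refine ⟨o, ?_, ?_⟩
  · intro X hX hXn
    have hXY : ∀ x ∈ X, x ∈ Y ∧ x ≠ c0 := fun x hx => by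
      have := hX hx
      rw [mem_erase] at this
      exact ⟨this.2, this.1⟩
    obtain ⟨x, hx, hmin⟩ := exists_min_image X da hXn
    obtain ⟨y, ⟨e, he, hj⟩, -, hlt⟩ := hda x (ha c0 hc0 x (hXY x hx).1) (hXY x hx).2
    obtain ⟨x', hx', hmin'⟩ := exists_min_image X db hXn
    obtain ⟨y', ⟨e', he', hj'⟩, -, hlt'⟩ := hdb x' (hb c0 hc0 x' (hXY x' hx').1) (hXY x' hx').2
    have h1 := key da e (hoa e he) y x hj hlt
    have h2 := key db e' (hob e' he') y' x' hj' hlt'
    have hyX : y ∉ X := fun h => by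
      have := hmin y h
      omega
    have hyX' : y' ∉ X := fun h => by
      have := hmin' y' h
      omega
    have hne : e ≠ e' := fun h => (disjoint_left.mp hdis) he (h ▸ he')
    have hsub : ({e, e'} : Finset E) ⊆ ent G o D X := by
      intro z hz
      rw [mem_insert, mem_singleton] at hz
      rw [mem_ent]
      rcases hz with rfl | rfl
      · exact ⟨hSa he, by rw [h1.2]; exact hx, by rw [h1.1]; exact hyX⟩
      · exact ⟨hSb he', by rw [h2.2]; exact hx', by rw [h2.1]; exact hyX'⟩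
    have := card_le_card hsub
    rw [card_pair hne] at this
    exact this
  · intro e he htl hhd
    have hY := hends e he
    by_cases h1 : e ∈ Sa
    · have h2 := key2 da e (hoa e h1)
      rw [hhd, da0] at h2
      have := hpa _ hY.1 htl
      omega
    by_cases h2 : e ∈ Sb
    · have h3 := key2 db e (hob e h2)
      rw [hhd, db0] at h3
      have := hpb _ hY.1 htl
      omega
    have h3 : o e = decide (G.s e = c0) := by
      rw [ho]
      simp only [h1, h2, if_false]
    unfold tl at htl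
    unfold hd at hhd
    rw [h3] at htl hhd
    by_cases h4 : G.s e = c0
    · simp only [h4, decide_true, if_true] at htl
      exact htl rfl
    · simp only [h4, decide_false] at hhd
      exact h4 hhd

/-- arcs inside `K` -/
def Ar (G : MG V E) (o : E → Bool) (D : Finset E) (K : Finset V) (a b : V) : Prop :=
  ∃ e ∈ D, tl G o e = a ∧ hd G o e = b ∧ a ∈ K ∧ b ∈ K

/-- the arcs of `B` leaving `X` -/
def lev (G : MG V E) (o : E → Bool) (B : Finset E) (X : Finset V) : Finset E :=
  B.filter (fun e => tl G o e ∈ X ∧ hd G o e ∉ X)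

theorem mem_lev (G : MG V E) (o : E → Bool) (B : Finset E) (X : Finset V) (e : E) :
    e ∈ lev G o B X ↔ e ∈ B ∧ tl G o e ∈ X ∧ hd G o e ∉ X := by
  unfold lev
  rw [mem_filter]

/-- adding an arc to a path -/
theorem bal_insert (G : MG V E) (o : E → Bool) (P : Finset E) (f : E) (hf : f ∉ P) (X : Finset V) :
    (ent G o (insert f P) X).card + (if tl G o f ∈ X then 1 else 0) + (lev G o P X).card =
    (lev G o (insert f P) X).card + (if hd G o f ∈ X then 1 else 0) + (ent G o P X).card := by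
  classical
  unfold ent lev
  rw [filter_insert, filter_insert]
  by_cases h1 : hd G o f ∈ X <;> by_cases h2 : tl G o f ∈ X
  · simp only [h1, h2, not_true_eq_false, and_false, if_true, if_false]
    omega
  · simp only [h1, h2, not_true_eq_false, not_false_eq_true, and_false, and_true, if_true, if_false,
      false_and, true_and]
    rw [card_insert_of_notMem (fun h => hf (mem_filter.mp h).1)]
    omega
  · simp only [h1, h2, not_true_eq_false, not_false_eq_true, and_false, and_true, if_true, if_false,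
      false_and, true_and]
    rw [card_insert_of_notMem (fun h => hf (mem_filter.mp h).1)]
    omega
  · simp only [h1, h2, not_true_eq_false, not_false_eq_true, and_false, and_true, if_true, if_false,
      false_and, true_and]
    omega

/-- directed paths as sets of arcs -/
theorem path_set (G : MG V E) (o : E → Bool) (D : Finset E) (K : Finset V) (a : V) (d : V → ℕ)
    (hd0 : d a = 0)
    (hd1 : ∀ x, Relation.ReflTransGen (Ar G o D K) a x → x ≠ a →
      ∃ y, Ar G o D K y x ∧ Relation.ReflTransGen (Ar G o D K) a y ∧ d y < d x) :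
    ∀ n, ∀ x, d x ≤ n → Relation.ReflTransGen (Ar G o D K) a x →
      ∃ P ⊆ D, (∀ e ∈ P, Relation.ReflTransGen (Ar G o D K) a (tl G o e) ∧ tl G o e ∈ K ∧
        hd G o e ∈ K ∧ d (hd G o e) ≤ d x) ∧
        ∀ X : Finset V, (ent G o P X).card + (if a ∈ X then 1 else 0) =
          (lev G o P X).card + (if x ∈ X then 1 else 0) := by
  classical
  intro n
  induction n with
  | zero =>
    intro x hx hr
    by_cases hxa : x = a
    · subst hxa
      refine ⟨∅, empty_subset _, by simp, fun X => ?_⟩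
      unfold ent lev
      simp
    · obtain ⟨y, -, -, h⟩ := hd1 x hr hxa
      omega
  | succ n ih =>
    intro x hx hr
    by_cases hxa : x = a
    · subst hxa
      refine ⟨∅, empty_subset _, by simp, fun X => ?_⟩
      unfold ent lev
      simp
    · obtain ⟨y, ⟨f, hf, hft, hfh, hyK, hxK⟩, hry, h⟩ := hd1 x hr hxa
      obtain ⟨P, hPD, hP, hbal⟩ := ih y (by omega) hry
      have hfP : f ∉ P := by
        intro hfP
        have h1 := (hP f hfP).2.2.2
        rw [hfh] at h1
        omega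
      refine ⟨insert f P, insert_subset hf hPD, ?_, fun X => ?_⟩
      · intro e he
        rw [mem_insert] at he
        rcases he with rfl | he
        · rw [hft, hfh]
          exact ⟨hry, hyK, hxK, le_refl _⟩
        · obtain ⟨h1, h2, h3, h4⟩ := hP e he
          exact ⟨h1, h2, h3, by omega⟩
      · have h1 := bal_insert G o P f hfP X
        have h2 := hbal X
        rw [hft, hfh] at h1
        omega

/-- reversal of the arcs of `P` -/
theorem rev_ent (G : MG V E) (o o' : E → Bool) (D P : Finset E) (hP : P ⊆ D)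
    (h1 : ∀ e ∈ P, hd G o' e = tl G o e ∧ tl G o' e = hd G o e)
    (h2 : ∀ e, e ∉ P → hd G o' e = hd G o e ∧ tl G o' e = tl G o e) (X : Finset V) :
    (ent G o' D X).card + (ent G o P X).card = (ent G o D X).card + (lev G o P X).card := by
  classical
  have e1 : ent G o' D X = ent G o (D \ P) X ∪ lev G o P X := by
    ext e
    rw [mem_union, mem_ent, mem_ent, mem_lev, mem_sdiff]
    by_cases he : e ∈ P
    · rw [(h1 e he).1, (h1 e he).2]
      have := hP he
      tauto
    · rw [(h2 e he).1, (h2 e he).2]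
      tauto
  have e2 : ent G o D X = ent G o (D \ P) X ∪ ent G o P X := by
    ext e
    rw [mem_union, mem_ent, mem_ent, mem_ent, mem_sdiff]
    by_cases he : e ∈ P
    · have := hP he
      tauto
    · tauto
  have d1 : Disjoint (ent G o (D \ P) X) (lev G o P X) := by
    rw [disjoint_left]
    intro e he he'
    rw [mem_ent, mem_sdiff] at he
    rw [mem_lev] at he'
    exact he.1.2 he'.1
  have d2 : Disjoint (ent G o (D \ P) X) (ent G o P X) := by
    rw [disjoint_left]
    intro e he he'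
    rw [mem_ent, mem_sdiff] at he
    rw [mem_ent] at he'
    exact he.1.2 he'.1
  rw [e1, e2, card_union_of_disjoint d1, card_union_of_disjoint d2]
  omega

/-- a vertex of `W` which is in no tight set without `r0` -/
theorem loose (G : MG V E) (o : E → Bool) (Y : Finset V) (A : Finset E) (c0 : V) (hc0 : c0 ∈ Y)
    (hA : ∀ e ∈ A, G.s e ∈ Y ∧ G.t e ∈ Y)
    (v : E) (r : V) (hj : G.Jn v c0 r)
    (den : ∀ c : V → V, 2 ≤ (Y.image c).card → 2 * (Y.image c).card ≤ (crs G A c).card + 1)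
    (h2 : ∀ X ⊆ Y.erase c0, X.Nonempty → 2 ≤ (ent G o (A.erase v) X).card)
    (W : Finset V) (s0 r0 : V)
    (hW : ∀ x, x ∈ W ↔ x ∈ Y.erase c0 ∧
      Relation.ReflTransGen (Ar G o (A.erase v) (Y.erase c0)) s0 x)
    (hs0 : s0 ∈ W) (hrW : r ∉ W)
    (hcl : ∀ e ∈ A.erase v, tl G o e ∈ W → hd G o e ∈ W)
    (f : E) (hf : f ∈ A.erase v) (hft : tl G o f = r0) (hfh : hd G o f = s0) :
    ∃ x ∈ W, ∀ T ⊆ Y.erase c0, x ∈ T → r0 ∉ T → 3 ≤ (ent G o (A.erase v) T).card := by
  classical
  by_contra hcon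
  push Not at hcon
  have hWK : W ⊆ Y.erase c0 := fun x hx => ((hW x).mp hx).1
  have hc0W : c0 ∉ W := fun h => (mem_erase.mp (hWK h)).1 rfl
  -- tight sets which meet `W` lie in `W`
  have hin : ∀ T ⊆ Y.erase c0, r0 ∉ T → (ent G o (A.erase v) T).card < 3 → ∀ x ∈ T, x ∈ W →
      T ⊆ W := by
    intro T hTK hr0T hT3 x hxT hxW
    by_contra hTW
    have hne : (T \ W).Nonempty := by
      rw [nonempty_iff_ne_empty]
      intro h
      exact hTW (sdiff_eq_empty_iff_subset.mp h)
    have hge := h2 (T \ W) (sdiff_subset.trans hTK) hne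
    have hsub : ent G o (A.erase v) (T \ W) ⊆ ent G o (A.erase v) T := by
      intro e he
      rw [mem_ent, mem_sdiff, mem_sdiff] at he
      rw [mem_ent]
      refine ⟨he.1, he.2.1.1, fun h => ?_⟩
      by_cases h3 : tl G o e ∈ W
      · exact he.2.1.2 (hcl e he.1 h3)
      · exact he.2.2 ⟨h, h3⟩
    have heq : ent G o (A.erase v) (T \ W) = ent G o (A.erase v) T :=
      eq_of_subset_of_card_le hsub (by omega)
    have hall : ∀ e ∈ ent G o (A.erase v) T, hd G o e ∉ W := by
      intro e he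
      rw [← heq, mem_ent, mem_sdiff] at he
      exact he.2.1.2
    by_cases hs : s0 ∈ T
    · have h3 : f ∈ ent G o (A.erase v) T := by
        rw [mem_ent, hft, hfh]
        exact ⟨hf, hs, hr0T⟩
      have h4 := hall f h3
      rw [hfh] at h4
      exact h4 hs0
    · have h3 : ∀ y, Relation.ReflTransGen (Ar G o (A.erase v) (Y.erase c0)) s0 y → y ∉ T := by
        intro y hy
        induction hy with
        | refl => exact hs
        | tail hab hbc ih =>
          intro hc
          obtain ⟨e, he, het, heh, hbK, hcK⟩ := hbc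
          have h4 : e ∈ ent G o (A.erase v) T := by
            rw [mem_ent, het, heh]
            exact ⟨he, hc, ih⟩
          have h5 := hall e h4
          rw [heh] at h5
          exact h5 ((hW _).mpr ⟨hcK, Relation.ReflTransGen.tail hab ⟨e, he, het, heh, hbK, hcK⟩⟩)
      exact h3 x ((hW x).mp hxW).2 hxT
  -- maximal tight sets
  have hex : ∀ x : V, ∃ T : Finset V, x ∈ W → (T ⊆ Y.erase c0 ∧ x ∈ T ∧ r0 ∉ T ∧
      (ent G o (A.erase v) T).card < 3 ∧ ∀ T' ⊆ Y.erase c0, x ∈ T' → r0 ∉ T' →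
      (ent G o (A.erase v) T').card < 3 → T'.card ≤ T.card) := by
    intro x
    by_cases hx : x ∈ W
    · obtain ⟨T0, h1, h3, h4, h5⟩ := hcon x hx
      obtain ⟨T, hT, hmax⟩ := exists_max_image ((Y.erase c0).powerset.filter
        (fun T => x ∈ T ∧ r0 ∉ T ∧ (ent G o (A.erase v) T).card < 3)) card
        ⟨T0, by rw [mem_filter, mem_powerset]; exact ⟨h1, h3, h4, h5⟩⟩
      rw [mem_filter, mem_powerset] at hT
      refine ⟨T, fun _ => ⟨hT.1, hT.2.1, hT.2.2.1, hT.2.2.2, ?_⟩⟩
      intro T' h6 h7 h8 h9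
      exact hmax T' (by rw [mem_filter, mem_powerset]; exact ⟨h6, h7, h8, h9⟩)
    · exact ⟨∅, fun h => absurd h hx⟩
  choose T hT using hex
  have hTW : ∀ x ∈ W, T x ⊆ W := by
    intro x hx
    obtain ⟨h1, h3, h4, h5, -⟩ := hT x hx
    exact hin (T x) h1 h4 h5 x h3 hx
  have hTT : ∀ x ∈ W, ∀ y ∈ T x, T y = T x := by
    intro x hx y hy
    have hyW := hTW x hx hy
    obtain ⟨h1, h3, h4, h5, h6⟩ := hT x hx
    obtain ⟨g1, g3, g4, g5, g6⟩ := hT y hyW
    have hsm := ent_sub G o (A.erase v) (T x) (T y)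
    have hi := h2 (T x ∩ T y) (inter_subset_left.trans h1) ⟨y, mem_inter.mpr ⟨hy, g3⟩⟩
    have hu : (ent G o (A.erase v) (T x ∪ T y)).card < 3 := by omega
    have hr : r0 ∉ T x ∪ T y := by
      rw [mem_union]
      exact fun h => h.elim h4 g4
    have k1 := h6 _ (union_subset h1 g1) (mem_union_left _ h3) hr hu
    have k2 := g6 _ (union_subset h1 g1) (mem_union_right _ g3) hr hu
    have k3 : T x = T x ∪ T y := eq_of_subset_of_card_le subset_union_left k1
    have k4 : T y = T x ∪ T y := eq_of_subset_of_card_le subset_union_right k2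
    rw [k4, ← k3]
  -- the colouring
  let rep : Finset V → V := fun X => if h : X.Nonempty then h.choose else c0
  have hrep : ∀ X : Finset V, X.Nonempty → rep X ∈ X := by
    intro X h
    simp only [rep, h, dite_true]
    exact h.choose_spec
  have hrepT : ∀ x ∈ W, rep (T x) ∈ T x := fun x hx => hrep _ ⟨x, (hT x hx).2.1⟩
  let c : V → V := fun y => if y ∈ W then rep (T y) else c0
  have hcin : ∀ y ∈ W, c y = rep (T y) := fun y hy => by
    simp only [c, hy, if_true]
  have hcout : ∀ y, y ∉ W → c y = c0 := fun y hy => by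
    simp only [c, hy, if_false]
  have hinj : ((W.image T).image rep).card = (W.image T).card := by
    refine card_image_of_injOn ?_
    intro X hX X' hX' hXX
    rw [mem_coe, mem_image] at hX hX'
    obtain ⟨a, ha, rfl⟩ := hX
    obtain ⟨b, hb, rfl⟩ := hX'
    have h3 := hrepT a ha
    have h4 := hrepT b hb
    rw [← hXX] at h4
    rw [← hTT a ha _ h3, ← hTT b hb _ h4]
  have hc0n : c0 ∉ (W.image T).image rep := by
    intro h
    rw [mem_image] at h
    obtain ⟨X, hX, hXc⟩ := h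
    rw [mem_image] at hX
    obtain ⟨a, ha, rfl⟩ := hX
    have h3 := (hTW a ha) (hrepT a ha)
    rw [hXc] at h3
    exact hc0W h3
  have himg : Y.image c = insert c0 ((W.image T).image rep) := by
    ext z
    rw [mem_insert, mem_image, mem_image]
    constructor
    · rintro ⟨y, hy, rfl⟩
      by_cases hyW : y ∈ W
      · right
        exact ⟨T y, mem_image_of_mem _ hyW, (hcin y hyW).symm⟩
      · left
        exact hcout y hyW
    · rintro (rfl | ⟨X, hX, rfl⟩)
      · exact ⟨z, hc0, hcout z hc0W⟩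
      · rw [mem_image] at hX
        obtain ⟨a, ha, rfl⟩ := hX
        exact ⟨a, (mem_erase.mp (hWK ha)).2, hcin a ha⟩
  have hcard : (Y.image c).card = (W.image T).card + 1 := by
    rw [himg, card_insert_of_notMem hc0n, hinj]
  have hpos : 0 < (W.image T).card := card_pos.mpr ⟨T s0, mem_image_of_mem _ hs0⟩
  have hden := den c (by omega)
  have hcr : crs G A c ⊆ (W.image T).biUnion (fun X => ent G o (A.erase v) X) := by
    intro e he
    unfold crs at he
    rw [mem_filter] at he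
    obtain ⟨heA, hce⟩ := he
    have hev : e ≠ v := by
      rintro rfl
      rcases hj with ⟨h3, h4⟩ | ⟨h3, h4⟩
      · rw [h3, h4, hcout c0 hc0W, hcout r hrW] at hce
        exact hce rfl
      · rw [h3, h4, hcout c0 hc0W, hcout r hrW] at hce
        exact hce rfl
    have heD : e ∈ A.erase v := mem_erase.mpr ⟨hev, heA⟩
    have hce' : c (tl G o e) ≠ c (hd G o e) := by
      unfold tl hd
      by_cases ho : o e = true
      · simp only [ho, if_true]
        exact hce
      · simp only [ho]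
        exact hce.symm
    rw [mem_biUnion]
    by_cases ht : tl G o e ∈ W
    · have hh := hcl e heD ht
      refine ⟨T (hd G o e), mem_image_of_mem _ hh, ?_⟩
      rw [mem_ent]
      refine ⟨heD, (hT _ hh).2.1, fun h => hce' ?_⟩
      rw [hcin _ ht, hcin _ hh, hTT _ hh _ h]
    · have hh : hd G o e ∈ W := by
        by_contra h
        exact hce' (by rw [hcout _ ht, hcout _ h])
      refine ⟨T (hd G o e), mem_image_of_mem _ hh, ?_⟩
      rw [mem_ent]
      exact ⟨heD, (hT _ hh).2.1, fun h => ht (hTW _ hh h)⟩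
  have hcr2 : ((W.image T).biUnion (fun X => ent G o (A.erase v) X)).card ≤
      (W.image T).card * 2 := by
    refine card_biUnion_le_card_mul _ _ _ ?_
    intro X hX
    rw [mem_image] at hX
    obtain ⟨a, ha, rfl⟩ := hX
    have := (hT a ha).2.2.2.1
    omega
  have h7 := card_le_card hcr
  omega

open Classical in
/-- the vertices of `K` from which `r` can be reached inside `K` -/
noncomputable def Rs (G : MG V E) (D : Finset E) (K : Finset V) (r : V) (o : E → Bool) :
    Finset V :=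
  K.filter (fun x => Relation.ReflTransGen (Ar G o D K) x r)

/-- path reversal: the set of vertices which reach `r` grows -/
theorem improve (G : MG V E) (o : E → Bool) (Y : Finset V) (A : Finset E) (c0 : V) (hc0 : c0 ∈ Y)
    (hA : ∀ e ∈ A, G.s e ∈ Y ∧ G.t e ∈ Y)
    (v : E) (r : V) (hj : G.Jn v c0 r) (hrK : r ∈ Y.erase c0)
    (den : ∀ c : V → V, 2 ≤ (Y.image c).card → 2 * (Y.image c).card ≤ (crs G A c).card + 1)
    (hK : ∀ a ∈ Y, a ≠ c0 → ∀ b ∈ Y, b ≠ c0 → G.Rch (avd G A {c0}) a b)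
    (h2 : ∀ X ⊆ Y.erase c0, X.Nonempty → 2 ≤ (ent G o (A.erase v) X).card)
    (hout : ∀ e ∈ A.erase v, tl G o e ≠ c0 → hd G o e ≠ c0)
    (r' : V) (hr'K : r' ∈ Y.erase c0) (hr' : r' ∉ Rs G (A.erase v) (Y.erase c0) r o) :
    ∃ o' : E → Bool, (∀ X ⊆ Y.erase c0, X.Nonempty → 2 ≤ (ent G o' (A.erase v) X).card) ∧
      (∀ e ∈ A.erase v, tl G o' e ≠ c0 → hd G o' e ≠ c0) ∧
      (Rs G (A.erase v) (Y.erase c0) r o).card < (Rs G (A.erase v) (Y.erase c0) r o').card := by
  classical
  set D := A.erase v with hD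
  set K := Y.erase c0 with hKdef
  have hmR : ∀ o x, x ∈ Rs G D K r o ↔ x ∈ K ∧ Relation.ReflTransGen (Ar G o D K) x r := by
    intro o x
    unfold Rs
    rw [mem_filter]
  have hends : ∀ e ∈ D, tl G o e ∈ Y ∧ hd G o e ∈ Y := by
    intro e he
    have h3 := hA e (mem_erase.mp he).2
    unfold tl hd
    by_cases h : o e = true
    · simp only [h, if_true]
      exact h3
    · simp only [h]
      exact ⟨h3.2, h3.1⟩
  have hrR : r ∈ Rs G D K r o := (hmR o r).mpr ⟨hrK, Relation.ReflTransGen.refl⟩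
  -- the crossing edge
  obtain ⟨f, hfA, hfc, hfcut⟩ : ∃ f ∈ A, (G.s f ≠ c0 ∧ G.t f ≠ c0) ∧ f ∈ G.cut (Rs G D K r o) := by
    by_contra hno
    push Not at hno
    have h3 : avd G A {c0} ∩ G.cut (Rs G D K r o) = ∅ := by
      rw [eq_empty_iff_forall_notMem]
      intro e he
      rw [mem_inter] at he
      unfold avd at he
      rw [mem_filter, mem_singleton, mem_singleton] at he
      exact hno e he.1.1 he.1.2 he.2
    have h4 := hK r (mem_erase.mp hrK).2 (mem_erase.mp hrK).1 r' (mem_erase.mp hr'K).2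
      (mem_erase.mp hr'K).1
    exact hr' (G.closed_Rch _ _ h3 r r' hrR h4)
  have hfD : f ∈ D := by
    rw [hD, mem_erase]
    refine ⟨?_, hfA⟩
    rintro rfl
    rcases hj with ⟨h3, -⟩ | ⟨-, h4⟩
    · exact hfc.1 h3
    · exact hfc.2 h4
  have hfK : tl G o f ∈ K ∧ hd G o f ∈ K := by
    have h3 := hends f hfD
    have h4 : tl G o f ≠ c0 ∧ hd G o f ≠ c0 := by
      unfold tl hd
      by_cases h : o f = true
      · simp only [h, if_true]
        exact hfc
      · simp only [h]
        exact ⟨hfc.2, hfc.1⟩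
    exact ⟨mem_erase.mpr ⟨h4.1, h3.1⟩, mem_erase.mpr ⟨h4.2, h3.2⟩⟩
  have hfx : ¬ (tl G o f ∈ Rs G D K r o ↔ hd G o f ∈ Rs G D K r o) := by
    rw [G.mem_cut] at hfcut
    unfold tl hd
    by_cases h : o f = true
    · simp only [h, if_true]
      exact hfcut
    · simp only [h]
      intro h3
      exact hfcut (Iff.symm h3)
  have hfh : hd G o f ∉ Rs G D K r o := by
    intro h
    refine hfx ⟨fun _ => h, fun _ => ?_⟩
    rw [hmR]
    exact ⟨hfK.1, Relation.ReflTransGen.head ⟨f, hfD, rfl, rfl, hfK.1, hfK.2⟩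
      ((hmR _ _).mp h).2⟩
  have hft : tl G o f ∈ Rs G D K r o := by
    by_contra h
    exact hfx ⟨fun h' => absurd h' h, fun h' => absurd h' hfh⟩
  set s0 := hd G o f with hs0
  set r0 := tl G o f with hr0
  let W : Finset V := K.filter (fun x => Relation.ReflTransGen (Ar G o D K) s0 x)
  have hW : ∀ x, x ∈ W ↔ x ∈ K ∧ Relation.ReflTransGen (Ar G o D K) s0 x := by
    intro x
    rw [mem_filter]
  have hWR : ∀ x ∈ W, x ∉ Rs G D K r o := by
    intro x hx hxR
    refine hfh ((hmR _ _).mpr ⟨hfK.2, ?_⟩)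
    exact Relation.ReflTransGen.trans ((hW x).mp hx).2 ((hmR _ _).mp hxR).2
  have hs0W : s0 ∈ W := (hW s0).mpr ⟨hfK.2, Relation.ReflTransGen.refl⟩
  have hcl : ∀ e ∈ D, tl G o e ∈ W → hd G o e ∈ W := by
    intro e he ht
    have h3 := (hW _).mp ht
    have h4 : hd G o e ∈ K :=
      mem_erase.mpr ⟨hout e he (mem_erase.mp h3.1).1, (hends e he).2⟩
    exact (hW _).mpr ⟨h4, Relation.ReflTransGen.tail h3.2 ⟨e, he, rfl, rfl, h3.1, h4⟩⟩
  obtain ⟨x, hxW, hx3⟩ := loose G o Y A c0 hc0 hA v r hj den h2 W s0 r0 hW hs0W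
    (fun h => hWR r h hrR) hcl f hfD rfl rfl
  obtain ⟨d, hd0, hd1⟩ := dist_ex (Ar G o D K) s0
  obtain ⟨P0, hP0D, hP0, hbal⟩ := path_set G o D K s0 d hd0 hd1 (d x) x (le_refl _)
    ((hW x).mp hxW).2
  have htW : ∀ e ∈ P0, tl G o e ∈ W := fun e he => (hW _).mpr ⟨(hP0 e he).2.1, (hP0 e he).1⟩
  have hfP0 : f ∉ P0 := by
    intro h
    exact hWR _ (htW f h) hft
  obtain ⟨P, hP⟩ : ∃ P, P = insert f P0 := ⟨_, rfl⟩
  have hPD : P ⊆ D := by
    rw [hP]
    exact insert_subset hfD hP0D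
  obtain ⟨o', ho'⟩ : ∃ o' : E → Bool, o' = fun e => if e ∈ P then !(o e) else o e := ⟨_, rfl⟩
  have ho1 : ∀ e ∈ P, hd G o' e = tl G o e ∧ tl G o' e = hd G o e := by
    intro e he
    have h3 : o' e = !(o e) := by
      rw [ho']
      simp only [he, if_true]
    unfold hd tl
    rw [h3]
    cases o e <;> simp
  have ho2 : ∀ e, e ∉ P → hd G o' e = hd G o e ∧ tl G o' e = tl G o e := by
    intro e he
    have h3 : o' e = o e := by
      rw [ho']
      simp only [he, if_false]
    unfold hd tl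
    rw [h3]
    exact ⟨rfl, rfl⟩
  have hcount : ∀ X : Finset V, (ent G o' D X).card + (if x ∈ X then 1 else 0) =
      (ent G o D X).card + (if r0 ∈ X then 1 else 0) := by
    intro X
    have h3 := rev_ent G o o' D P hPD ho1 ho2 X
    have h4 := bal_insert G o P0 f hfP0 X
    rw [← hP, ← hs0, ← hr0] at h4
    have h5 := hbal X
    omega
  refine ⟨o', ?_, ?_, ?_⟩
  · intro X hXK hXn
    have h3 := hcount X
    have h4 := h2 X hXK hXn
    by_cases hxX : x ∈ X
    · by_cases hrX : r0 ∈ X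
      · simp only [hxX, hrX, if_true] at h3
        omega
      · simp only [hxX, hrX, if_true, if_false] at h3
        have h5 : 3 ≤ (ent G o D X).card := hx3 X hXK hxX hrX
        omega
    · simp only [hxX, if_false] at h3
      omega
  · intro e he ht
    by_cases heP : e ∈ P
    · rw [(ho1 e heP).1]
      rw [hP, mem_insert] at heP
      rcases heP with rfl | heP
      · exact (mem_erase.mp hfK.1).1
      · exact (mem_erase.mp ((hW _).mp (htW e heP)).1).1
    · rw [(ho2 e heP).2] at ht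
      rw [(ho2 e heP).1]
      exact hout e he ht
  · have hRR : ∀ y, Relation.ReflTransGen (Ar G o D K) y r → y ∈ K →
        Relation.ReflTransGen (Ar G o' D K) y r := by
      intro y hy
      refine Relation.ReflTransGen.head_induction_on hy ?_ ?_
      · exact fun _ => Relation.ReflTransGen.refl
      · intro a b hab hbr ih haK
        obtain ⟨e, he, het, heh, h3, h4⟩ := hab
        have haR : a ∈ Rs G D K r o := (hmR _ _).mpr ⟨haK,
          Relation.ReflTransGen.head ⟨e, he, het, heh, h3, h4⟩ hbr⟩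
        have hbR : b ∈ Rs G D K r o := (hmR _ _).mpr ⟨h4, hbr⟩
        have heP : e ∉ P := by
          rw [hP, mem_insert]
          rintro (rfl | h)
          · exact hfh (by rw [hs0, heh]; exact hbR)
          · exact hWR _ (htW e h) (by rw [het]; exact haR)
        refine Relation.ReflTransGen.head ⟨e, he, ?_, ?_, h3, h4⟩ (ih h4)
        · rw [(ho2 e heP).2, het]
        · rw [(ho2 e heP).1, heh]
    refine card_lt_card ?_
    rw [ssubset_iff_of_subset]
    · refine ⟨s0, ?_, hfh⟩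
      rw [hmR]
      refine ⟨hfK.2, Relation.ReflTransGen.head ⟨f, hfD, ?_, ?_, hfK.2, hfK.1⟩
        (hRR r0 ((hmR _ _).mp hft).2 hfK.1)⟩
      · rw [(ho1 f (by rw [hP]; exact mem_insert_self _ _)).2]
      · rw [(ho1 f (by rw [hP]; exact mem_insert_self _ _)).1]
    · intro y hy
      rw [hmR] at hy ⊢
      exact ⟨hy.1, hRR y hy.2 hy.1⟩

/-- the good orientation -/
theorem orient (G : MG V E) (Y : Finset V) (A : Finset E) (c0 : V) (hc0 : c0 ∈ Y)
    (hA : ∀ e ∈ A, G.s e ∈ Y ∧ G.t e ∈ Y)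
    (v : E) (r : V) (hj : G.Jn v c0 r) (hrK : r ∈ Y.erase c0)
    (den : ∀ c : V → V, 2 ≤ (Y.image c).card → 2 * (Y.image c).card ≤ (crs G A c).card + 1)
    (hK : ∀ a ∈ Y, a ≠ c0 → ∀ b ∈ Y, b ≠ c0 → G.Rch (avd G A {c0}) a b)
    (r' : V) (hr'K : r' ∈ Y.erase c0) :
    ∃ o : E → Bool, (∀ X ⊆ Y.erase c0, X.Nonempty → 2 ≤ (ent G o (A.erase v) X).card) ∧
      (∀ e ∈ A.erase v, tl G o e ≠ c0 → hd G o e ≠ c0) ∧
      Relation.ReflTransGen (Ar G o (A.erase v) (Y.erase c0)) r' r := by
  classical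
  obtain ⟨Sa, hSa, Sb, hSb, hdis, ha, hb⟩ := two_conn G Y A hA c0 hc0 v den
  obtain ⟨o0, ho0⟩ := start G Y (A.erase v) (fun e he => hA e (mem_erase.mp he).2) c0 hc0 Sa Sb
    hSa hSb hdis ha hb
  obtain ⟨o, ho, hmax⟩ := exists_max_image ((univ : Finset (E → Bool)).filter (fun o =>
    (∀ X ⊆ Y.erase c0, X.Nonempty → 2 ≤ (ent G o (A.erase v) X).card) ∧
      (∀ e ∈ A.erase v, tl G o e ≠ c0 → hd G o e ≠ c0)))
    (fun o => (Rs G (A.erase v) (Y.erase c0) r o).card) ⟨o0, by
      rw [mem_filter]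
      exact ⟨mem_univ _, ho0⟩⟩
  rw [mem_filter] at ho
  refine ⟨o, ho.2.1, ho.2.2, ?_⟩
  by_contra hcon
  obtain ⟨o', h1, h2, h3⟩ := improve G o Y A c0 hc0 hA v r hj hrK den hK ho.2.1 ho.2.2 r' hr'K
    (fun h => hcon (by
      unfold Rs at h
      rw [mem_filter] at h
      exact h.2))
  have h4 := hmax o' (by
    rw [mem_filter]
    exact ⟨mem_univ _, h1, h2⟩)
  omega

private theorem exit_arc {α : Type} (r : α → α → Prop) (P : α → Prop) (a b : α)
    (h : Relation.ReflTransGen r a b) (ha : P a) (hb : ¬ P b) : ∃ x y, r x y ∧ P x ∧ ¬ P y := by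
  induction h with
  | refl => exact absurd ha hb
  | @tail x y _ hxy ih =>
    by_cases hx : P x
    · exact ⟨x, y, hxy, hx, hb⟩
    · exact ih hx

private theorem jn_ends (G : MG V E) (o : E → Bool) (e : E) (S : Finset V)
    (h : G.s e ∈ S ∧ G.t e ∈ S) : tl G o e ∈ S ∧ hd G o e ∈ S := by
  unfold tl hd
  by_cases ho : o e = true
  · rw [if_pos ho, if_pos ho]
    exact h
  · rw [if_neg ho, if_neg ho]
    exact ⟨h.2, h.1⟩

private theorem ends_ne (G : MG V E) (o : E → Bool) (e : E) (c : V) (h1 : tl G o e ≠ c)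
    (h2 : hd G o e ≠ c) : G.s e ∉ ({c} : Finset V) ∧ G.t e ∉ ({c} : Finset V) := by
  rw [mem_singleton, mem_singleton]
  unfold tl hd at *
  by_cases ho : o e = true
  · rw [if_pos ho] at h1 h2
    exact ⟨h1, h2⟩
  · rw [if_neg ho] at h1 h2
    exact ⟨h2, h1⟩

private theorem avd_mono (G : MG V E) (A B : Finset E) (h : A ⊆ B) (Z : Finset V) :
    avd G A Z ⊆ avd G B Z := by
  unfold avd
  exact filter_subset_filter _ h

private theorem avd_sub (G : MG V E) (A : Finset E) (Z : Finset V) : avd G A Z ⊆ A := by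
  unfold avd
  exact filter_subset _ _

/-- all nonempty sets without `c0` are entered: everything is connected to `c0` -/
theorem con_of_ent (G : MG V E) (o : E → Bool) (D : Finset E) (Y : Finset V) (c0 : V)
    (hc0 : c0 ∈ Y) (hY : ∀ e ∈ D, G.s e ∈ Y ∧ G.t e ∈ Y)
    (h1 : ∀ X ⊆ Y.erase c0, X.Nonempty → 1 ≤ (ent G o D X).card) :
    ∀ a ∈ Y, ∀ b ∈ Y, G.Rch D a b := by
  classical
  have key : ∀ a ∈ Y, G.Rch D c0 a := by
    by_contra hcon
    push Not at hcon
    obtain ⟨a, ha, hna⟩ := hcon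
    have h2 := h1 (Y.filter (fun a => ¬ G.Rch D c0 a)) (by
      intro x hx
      rw [mem_filter] at hx
      refine mem_erase.2 ⟨fun h => hx.2 ?_, hx.1⟩
      rw [h]
      exact MG.Rch_refl G D c0) ⟨a, mem_filter.2 ⟨ha, hna⟩⟩
    obtain ⟨e, he⟩ := card_pos.1 h2
    rw [mem_ent, mem_filter, mem_filter] at he
    obtain ⟨heD, hh, ht⟩ := he
    have h3 := jn_ends G o e Y (hY e heD)
    have h4 : G.Rch D c0 (tl G o e) := by
      by_contra h
      exact ht ⟨h3.1, h⟩
    exact hh.2 (MG.Rch_trans G D _ _ _ h4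
      (Relation.ReflTransGen.single ⟨e, heD, jn_tl_hd G o e⟩))
  intro a ha b hb
  exact MG.Rch_trans G D _ _ _ (MG.Rch_symm G D _ _ (key a ha)) (key b hb)

private theorem stage2 (G : MG V E) (o : E → Bool) (D : Finset E) (Y : Finset V) (c0 : V)
    (hY : ∀ e ∈ D, G.s e ∈ Y ∧ G.t e ∈ Y)
    (h2 : ∀ X ⊆ Y.erase c0, X.Nonempty → 2 ≤ (ent G o D X).card) (n : ℕ) :
    ∀ (B : Finset E) (P : Finset V), (Y \ P).card ≤ n → B ⊆ D → (∀ e ∈ B, hd G o e ∈ P) →
      c0 ∈ P → P ⊆ Y → (∀ X ⊆ Y.erase c0, X.Nonempty → 1 ≤ (ent G o (D \ B) X).card) →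
      (∀ p ∈ P, G.Rch B c0 p) →
      ∃ B' : Finset E, B ⊆ B' ∧ B' ⊆ D ∧ (∀ p ∈ Y, G.Rch B' c0 p) ∧
        (∀ X ⊆ Y.erase c0, X.Nonempty → 1 ≤ (ent G o (D \ B') X).card) := by
  induction n with
  | zero =>
    intro B P hn b1 b2 b3 b4 b5 b6
    refine ⟨B, le_refl _, b1, ?_, b5⟩
    have h3 : Y \ P = ∅ := card_eq_zero.1 (Nat.le_zero.1 hn)
    intro p hp
    exact b6 p (sdiff_eq_empty_iff_subset.1 h3 hp)
  | succ n ih =>
    intro B P hn b1 b2 b3 b4 b5 b6
    by_cases hYP : Y ⊆ P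
    · exact ⟨B, le_refl _, b1, fun p hp => b6 p (hYP hp), b5⟩
    · have hne : (Y \ P).Nonempty := by
        rw [nonempty_iff_ne_empty]
        exact fun h => hYP (sdiff_eq_empty_iff_subset.1 h)
      have hK : Y \ P ⊆ Y.erase c0 := by
        intro x hx
        rw [mem_sdiff] at hx
        refine mem_erase.2 ⟨fun h => hx.2 ?_, hx.1⟩
        rw [h]
        exact b3
      have h3 := h2 _ hK hne
      have h3' : 0 < (ent G o D (Y \ P)).card := by omega
      obtain ⟨f0, hf0⟩ := card_pos.1 h3'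
      rw [mem_ent] at hf0
      obtain ⟨g1, g2, g3⟩ := hf0
      have h4 := jn_ends G o f0 Y (hY f0 g1)
      have h5 : tl G o f0 ∈ P := by
        by_contra h
        exact g3 (mem_sdiff.2 ⟨h4.1, h⟩)
      obtain ⟨f, k1, k2, k3, k4, -, k6⟩ := grow G o D (Y.erase c0) h2 B P b2 b5 f0 g1 h5 (hK g2)
        (mem_sdiff.1 g2).2
      have hlt : (Y \ insert (hd G o f) P).card ≤ n := by
        have h6 : Y \ insert (hd G o f) P ⊂ Y \ P := by
          rw [ssubset_iff_of_subset (sdiff_subset_sdiff (le_refl _) (subset_insert _ _))]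
          exact ⟨hd G o f, mem_sdiff.2 ⟨mem_of_mem_erase k3, k4⟩, fun h =>
            (mem_sdiff.1 h).2 (mem_insert_self _ _)⟩
        have := card_lt_card h6
        omega
      obtain ⟨B', c1, c2, c3, c4⟩ := ih (insert f B) (insert (hd G o f) P) hlt
        (insert_subset k1 b1)
        (by
          intro e he
          rcases mem_insert.1 he with h | h
          · rw [h]
            exact mem_insert_self _ _
          · exact mem_insert_of_mem (b2 e h))
        (mem_insert_of_mem b3) (insert_subset (mem_of_mem_erase k3) b4) k6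
        (by
          intro p hp
          have hm : B ⊆ insert f B := subset_insert _ _
          rcases mem_insert.1 hp with h | h
          · rw [h]
            exact MG.Rch_trans G _ _ _ _ (MG.Rch_mono G _ _ hm _ _ (b6 _ k2))
              (Relation.ReflTransGen.single ⟨f, mem_insert_self _ _, jn_tl_hd G o f⟩)
          · exact MG.Rch_mono G _ _ hm _ _ (b6 p h))
      exact ⟨B', (subset_insert _ _).trans c1, c2, c3, c4⟩

private theorem stage1 (G : MG V E) (o : E → Bool) (D : Finset E) (Y : Finset V) (c0 : V)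
    (h2 : ∀ X ⊆ Y.erase c0, X.Nonempty → 2 ≤ (ent G o D X).card) (r r' : V)
    (hpath : Relation.ReflTransGen (fun a b => ∃ e ∈ D, tl G o e = a ∧ hd G o e = b ∧
      a ∈ Y.erase c0 ∧ b ∈ Y.erase c0) r' r) (n : ℕ) :
    ∀ (B : Finset E) (P : Finset V), (Y \ P).card ≤ n → B ⊆ D → (∀ e ∈ B, hd G o e ∈ P) →
      c0 ∈ P → r' ∈ P → P ⊆ Y →
      (∀ X ⊆ Y.erase c0, X.Nonempty → 1 ≤ (ent G o (D \ B) X).card) →
      (∀ p ∈ P, p ≠ c0 → G.Rch (avd G B {c0}) r' p) →
      ∃ (B' : Finset E) (P' : Finset V), B ⊆ B' ∧ B' ⊆ D ∧ (∀ e ∈ B', hd G o e ∈ P') ∧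
        c0 ∈ P' ∧ r' ∈ P' ∧ P' ⊆ Y ∧
        (∀ X ⊆ Y.erase c0, X.Nonempty → 1 ≤ (ent G o (D \ B') X).card) ∧
        (∀ p ∈ P', p ≠ c0 → G.Rch (avd G B' {c0}) r' p) ∧ r ∈ P' := by
  induction n with
  | zero =>
    intro B P hn b1 b2 b3 b4 b5 b6 b7
    refine ⟨B, P, le_refl _, b1, b2, b3, b4, b5, b6, b7, ?_⟩
    have h3 : Y \ P = ∅ := card_eq_zero.1 (Nat.le_zero.1 hn)
    have h4 := sdiff_eq_empty_iff_subset.1 h3
    rcases Relation.ReflTransGen.cases_tail hpath with h | ⟨a, -, e, -, -, -, -, h⟩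
    · rw [h]
      exact b4
    · exact h4 (mem_of_mem_erase h)
  | succ n ih =>
    intro B P hn b1 b2 b3 b4 b5 b6 b7
    by_cases hr : r ∈ P
    · exact ⟨B, P, le_refl _, b1, b2, b3, b4, b5, b6, b7, hr⟩
    · obtain ⟨x, y, ⟨f0, g1, g2, g3, g4, g5⟩, hx, hy⟩ :=
        exit_arc _ (fun z => z ∈ P) r' r hpath b4 hr
      obtain ⟨f, k1, k2, k3, k4, k5, k6⟩ := grow G o D (Y.erase c0) h2 B P b2 b6 f0 g1
        (by rw [g2]; exact hx) (by rw [g3]; exact g5) (by rw [g3]; exact hy)
      have htl : tl G o f ∈ Y.erase c0 := by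
        rcases k5 with h | h
        · exact h
        · rw [h, g2]
          exact g4
      have hlt : (Y \ insert (hd G o f) P).card ≤ n := by
        have h6 : Y \ insert (hd G o f) P ⊂ Y \ P := by
          rw [ssubset_iff_of_subset (sdiff_subset_sdiff (le_refl _) (subset_insert _ _))]
          exact ⟨hd G o f, mem_sdiff.2 ⟨mem_of_mem_erase k3, k4⟩, fun h =>
            (mem_sdiff.1 h).2 (mem_insert_self _ _)⟩
        have := card_lt_card h6
        omega
      obtain ⟨B', P', c1, c2, c3, c4, c5, c6, c7, c8, c9⟩ := ih (insert f B)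
        (insert (hd G o f) P) hlt (insert_subset k1 b1)
        (by
          intro e he
          rcases mem_insert.1 he with h | h
          · rw [h]
            exact mem_insert_self _ _
          · exact mem_insert_of_mem (b2 e h))
        (mem_insert_of_mem b3) (mem_insert_of_mem b4)
        (insert_subset (mem_of_mem_erase k3) b5) k6
        (by
          intro p hp hpc
          have hm : avd G B {c0} ⊆ avd G (insert f B) {c0} :=
            avd_mono G _ _ (subset_insert _ _) _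
          rcases mem_insert.1 hp with h | h
          · rw [h]
            refine MG.Rch_trans G _ _ _ _ (MG.Rch_mono G _ _ hm _ _
              (b7 _ k2 (ne_of_mem_erase htl))) (Relation.ReflTransGen.single ⟨f, ?_, jn_tl_hd G o f⟩)
            unfold avd
            rw [mem_filter]
            exact ⟨mem_insert_self _ _, ends_ne G o f c0 (ne_of_mem_erase htl)
              (ne_of_mem_erase k3)⟩
          · exact MG.Rch_mono G _ _ hm _ _ (b7 p h hpc))
      exact ⟨B', P', (subset_insert _ _).trans c1, c2, c3, c4, c5, c6, c7, c8, c9⟩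

/-- part (3) of Lemma T -/
theorem growth (G : MG V E) (o : E → Bool) (D : Finset E) (Y : Finset V) (c0 : V)
    (hc0 : c0 ∈ Y) (hY : ∀ e ∈ D, G.s e ∈ Y ∧ G.t e ∈ Y)
    (h2 : ∀ X ⊆ Y.erase c0, X.Nonempty → 2 ≤ (ent G o D X).card)
    (v' : E) (hv' : v' ∈ D) (r r' : V) (htl : tl G o v' = c0) (hhd : hd G o v' = r')
    (hr' : r' ≠ c0)
    (hpath : Relation.ReflTransGen (fun a b => ∃ e ∈ D, tl G o e = a ∧ hd G o e = b ∧
      a ∈ Y.erase c0 ∧ b ∈ Y.erase c0) r' r) :
    ∃ B ⊆ D, v' ∈ B ∧ (∀ a ∈ Y, ∀ b ∈ Y, G.Rch B a b) ∧ G.Rch (avd G B {c0}) r' r ∧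
      ∀ a ∈ Y, ∀ b ∈ Y, G.Rch (D \ B) a b := by
  have hr'Y : r' ∈ Y := by
    rw [← hhd]
    exact (jn_ends G o v' Y (hY v' hv')).2
  obtain ⟨B, P, c1, c2, c3, c4, c5, c6, c7, c8, c9⟩ := stage1 G o D Y c0 h2 r r' hpath
    (Y \ {c0, r'}).card {v'} {c0, r'} (le_refl _)
    (singleton_subset_iff.2 hv')
    (by
      intro e he
      rw [mem_singleton.1 he, hhd]
      exact mem_insert_of_mem (mem_singleton_self _))
    (mem_insert_self _ _) (mem_insert_of_mem (mem_singleton_self _))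
    (by
      intro x hx
      rcases mem_insert.1 hx with h | h
      · rw [h]; exact hc0
      · rw [mem_singleton.1 h]; exact hr'Y)
    (by
      intro X hX hXn
      have h3 := h2 X hX hXn
      have h4 : ent G o D X ⊆ insert v' (ent G o (D \ {v'}) X) := by
        intro e he
        rw [mem_ent] at he
        rw [mem_insert, mem_ent, mem_sdiff, mem_singleton]
        by_cases h : e = v'
        · exact Or.inl h
        · exact Or.inr ⟨⟨he.1, h⟩, he.2⟩
      have h5 := (card_le_card h4).trans (card_insert_le _ _)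
      omega)
    (by
      intro p hp hpc
      rcases mem_insert.1 hp with h | h
      · exact absurd h hpc
      · rw [mem_singleton.1 h]
        exact MG.Rch_refl G _ _)
  have hv'B : v' ∈ B := c1 (mem_singleton_self _)
  have hc0P : ∀ p ∈ P, G.Rch B c0 p := by
    intro p hp
    by_cases h : p = c0
    · rw [h]
      exact MG.Rch_refl G _ _
    · refine MG.Rch_trans G _ _ r' _ ?_ (MG.Rch_mono G _ _ (avd_sub G B {c0}) _ _ (c8 p hp h))
      have h3 := jn_tl_hd G o v'
      rw [htl, hhd] at h3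
      exact Relation.ReflTransGen.single ⟨v', hv'B, h3⟩
  obtain ⟨B', d1, d2, d3, d4⟩ := stage2 G o D Y c0 hY h2 (Y \ P).card B P (le_refl _) c2 c3 c4 c6
    c7 hc0P
  have hrc : r ≠ c0 := by
    rcases Relation.ReflTransGen.cases_tail hpath with h | ⟨a, -, e, -, -, -, -, h⟩
    · rw [h]
      exact hr'
    · exact ne_of_mem_erase h
  refine ⟨B', d2, d1 hv'B, ?_, ?_, ?_⟩
  · intro a ha b hb
    exact MG.Rch_trans G _ _ _ _ (MG.Rch_symm G _ _ _ (d3 a ha)) (d3 b hb)
  · exact MG.Rch_mono G _ _ (avd_mono G _ _ d1 _) _ _ (c8 r c9 hrc)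
  · exact con_of_ent G o (D \ B') Y c0 hc0 (fun e he => hY e (mem_sdiff.1 he).1) d4

end LT

/-- BLOCK Lemma T: two disjoint connectors with prescribed edges at `c0` -/
theorem lemT (G : MG V E) (Y : Finset V) (A : Finset E) (hA : ∀ e ∈ A, G.s e ∈ Y ∧ G.t e ∈ Y)
    (c0 : V) (hc0 : c0 ∈ Y)
    (den : ∀ c : V → V, 2 ≤ (Y.image c).card → 2 * (Y.image c).card ≤ (crs G A c).card + 1)
    (hK : ∀ a ∈ Y, a ≠ c0 → ∀ b ∈ Y, b ≠ c0 → G.Rch (avd G A {c0}) a b)
    (v v' : E) (hv : v ∈ A) (hv' : v' ∈ A) (hne : v ≠ v') (r r' : V) (hr : r ≠ c0) (hr' : r' ≠ c0)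
    (hj : G.Jn v c0 r) (hj' : G.Jn v' c0 r') :
    ∃ S₁ ⊆ A, ∃ S₂ ⊆ A, Disjoint S₁ S₂ ∧ (∀ a ∈ Y, ∀ b ∈ Y, G.Rch S₁ a b) ∧
      (∀ a ∈ Y, ∀ b ∈ Y, G.Rch S₂ a b) ∧ v ∈ S₂ ∧ v' ∈ S₂ ∧ G.Rch (avd G S₂ {c0}) r r' := by
  classical
  have hrY : r ∈ Y := by
    have h := hA v hv
    rcases hj with ⟨-, h1⟩ | ⟨h1, -⟩
    · rw [← h1]
      exact h.2
    · rw [← h1]
      exact h.1
  have hr'Y : r' ∈ Y := by
    have h := hA v' hv'
    rcases hj' with ⟨-, h1⟩ | ⟨h1, -⟩
    · rw [← h1]
      exact h.2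
    · rw [← h1]
      exact h.1
  have hrK : r ∈ Y.erase c0 := mem_erase.mpr ⟨hr, hrY⟩
  have hr'K : r' ∈ Y.erase c0 := mem_erase.mpr ⟨hr', hr'Y⟩
  obtain ⟨o, h2, hout, hpath⟩ := LT.orient G Y A c0 hc0 hA v r hj hrK den hK r' hr'K
  have hv'D : v' ∈ A.erase v := mem_erase.mpr ⟨hne.symm, hv'⟩
  have hth : LT.tl G o v' = c0 ∧ LT.hd G o v' = r' := by
    rcases LT.of_jn G o v' c0 r' hj' with h | h
    · exact h
    · exact absurd h.2 (hout v' hv'D (by rw [h.1]; exact hr'))
  obtain ⟨B, hBD, hvB, hB, hBr, hDB⟩ := LT.growth G o (A.erase v) Y c0 hc0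
    (fun e he => hA e (mem_erase.mp he).2) h2 v' hv'D r r' hth.1 hth.2 hr' hpath
  have hvB' : v ∉ B := fun h => (mem_erase.mp (hBD h)).1 rfl
  refine ⟨A.erase v \ B, sdiff_subset.trans (erase_subset _ _), insert v B,
    insert_subset hv (hBD.trans (erase_subset _ _)), ?_, hDB, ?_, mem_insert_self _ _,
    mem_insert_of_mem hvB, ?_⟩
  · rw [disjoint_left]
    intro e he he'
    rw [mem_sdiff, mem_erase] at he
    rw [mem_insert] at he'
    rcases he' with h | h
    · exact he.1.1 h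
    · exact he.2 h
  · intro a ha b hb
    exact G.Rch_mono _ _ (subset_insert _ _) a b (hB a ha b hb)
  · refine G.Rch_symm _ _ _ (G.Rch_mono _ _ ?_ _ _ hBr)
    intro e he
    unfold avd at he ⊢
    rw [mem_filter] at he ⊢
    exact ⟨mem_insert_of_mem he.1, he.2⟩

end Pool.Agent.Lib.MP_95e9b3_coG
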