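import Pool.Agent.Lib.MP_95e9b3_coG.R3Defs
import Pool.Agent.Lib.MP_95e9b3_coG.R3_lemT

/-!
# Route G, block R3, job pack_fav: Lemma T for all components of `X \ B`
-/

set_option autoImplicit false

namespace Pool.Agent.Lib.MP_95e9b3_coG

open Finset Pool.Agent.Lib.MP_95e9b3_coC

variable {V E : Type} [Fintype V] [DecidableEq V] [Fintype E] [DecidableEq E]

/-- the representative of the component of `v` in `L` -/
noncomputable def pfr (G : MG V E) (L : Finset E) (b v : V) : V :=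
  if h : (G.cv L v).Nonempty then h.choose else b

theorem pfr_mem (G : MG V E) (L : Finset E) (b v : V) : G.Rch L v (pfr G L b v) := by
  unfold pfr
  have h : (G.cv L v).Nonempty := ⟨v, (G.mem_cv L v v).2 (G.Rch_refl L v)⟩
  rw [dif_pos h]
  exact (G.mem_cv L v _).1 h.choose_spec

theorem pfr_congr (G : MG V E) (L : Finset E) (b u v : V) (h : G.Rch L u v) :
    pfr G L b u = pfr G L b v := by
  have h1 := (G.cv_eq L u v).2 h
  unfold pfr
  rw [h1]

theorem pfr_Rch (G : MG V E) (L : Finset E) (b u v : V) (h : pfr G L b u = pfr G L b v) :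
    G.Rch L u v := by
  have h1 := pfr_mem G L b u
  have h2 := pfr_mem G L b v
  rw [h] at h1
  exact G.Rch_trans L _ _ _ h1 (G.Rch_symm L _ _ h2)

open Classical in
/-- contraction onto `K` and the vertex `b` -/
noncomputable def pff (G : MG V E) (L : Finset E) (b : V) (K : Finset V) (v : V) : V :=
  if v ∈ K then pfr G L b v else b

/-- general lifting of connections from a contracted graph: `P` the vertices, `S` edges with both
ends in `P`, fibres of `f` in `P` connected by `L` -/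
theorem pf_lift (G : MG V E) (f : V → V) (S L : Finset E) (P : Finset V)
    (hS : ∀ e ∈ S, G.s e ∈ P ∧ G.t e ∈ P)
    (hf : ∀ u ∈ P, ∀ v ∈ P, f u = f v → G.Rch L u v) (hSL : S ⊆ L) (x y : V)
    (h : (G.mp f).Rch S x y) :
    ∀ u ∈ P, ∀ v ∈ P, f u = x → f v = y → G.Rch L u v := by
  induction h with
  | refl =>
    intro u hu v hv h1 h2
    exact hf u hu v hv (h1.trans h2.symm)
  | tail hxz hzy ih =>
    rename_i z y'
    intro u hu v hv h1 h2
    obtain ⟨e, he, hj⟩ := hzy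
    have hse := (hS e he).1
    have hte := (hS e he).2
    rcases hj with ⟨h3, h4⟩ | ⟨h3, h4⟩
    · have h3' : f (G.s e) = z := h3
      have h4' : f (G.t e) = y' := h4
      have h5 := ih u hu (G.s e) hse h1 h3'
      have h6 := hf (G.t e) hte v hv (h4'.trans h2.symm)
      exact G.Rch_trans L _ _ _ h5 (G.Rch_trans L _ _ _ (G.Rch_edge L e (hSL he)) h6)
    · have h3' : f (G.s e) = y' := h3
      have h4' : f (G.t e) = z := h4
      have h5 := ih u hu (G.t e) hte h1 h4'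
      have h6 := hf (G.s e) hse v hv (h3'.trans h2.symm)
      exact G.Rch_trans L _ _ _ h5 (G.Rch_trans L _ _ _
        (G.Rch_symm L _ _ (G.Rch_edge L e (hSL he))) h6)

/-- pushing connections down to a contracted graph -/
theorem pf_push (G : MG V E) (f : V → V) (S L : Finset E)
    (hL : ∀ e ∈ L, e ∈ S ∨ f (G.s e) = f (G.t e)) (x y : V) (h : G.Rch L x y) :
    (G.mp f).Rch S (f x) (f y) := by
  induction h with
  | refl => exact (G.mp f).Rch_refl S (f x)
  | tail hxz hzy ih =>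
    rename_i z y'
    obtain ⟨e, he, hj⟩ := hzy
    refine (G.mp f).Rch_trans S _ _ _ ih ?_
    rcases hL e he with h1 | h1
    · have h2 := (G.mp f).Rch_edge S e h1
      have h3 : (G.mp f).Rch S (f (G.s e)) (f (G.t e)) := h2
      rcases hj with ⟨h4, h5⟩ | ⟨h4, h5⟩
      · rw [h4, h5] at h3
        exact h3
      · rw [h4, h5] at h3
        exact (G.mp f).Rch_symm S _ _ h3
    · rcases hj with ⟨h4, h5⟩ | ⟨h4, h5⟩
      · rw [h4, h5] at h1
        rw [h1]
        exact (G.mp f).Rch_refl S _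
      · rw [h4, h5] at h1
        rw [h1]
        exact (G.mp f).Rch_refl S _

theorem pf_card_image (X : Finset V) (f c : V → V) :
    X.image (fun v => c (f v)) = (X.image f).image c := by
  rw [Finset.image_image]
  rfl

section

variable (G : MG V E) (M : Finset E) (R : Finset (Finset V)) (X : Finset V) (b : V)

/-- the circuit of `b` is disjoint from the smaller members -/
theorem pf_dis (hR : Lmr G M R) (hdir : ∀ Y ∈ R, Y ⊂ X → b ∉ Y) (Y : Finset V) (hY : Y ∈ R)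
    (hYX : Y ⊂ X) (a : V) (ha : a ∈ G.cv (univ \ M) b) : a ∉ Y := by
  intro haY
  apply hdir Y hY hYX
  rw [G.mem_cv] at ha
  refine G.closed_Rch (univ \ M) Y ?_ a b haY (G.Rch_symm _ _ _ ha)
  ext e
  rw [mem_inter, mem_sdiff]
  constructor
  · rintro ⟨⟨_, h1⟩, h2⟩
    exact absurd (hR.nod Y hY h2) h1
  · intro h
    simp at h

/-- the circuit of `b` lies in `X` -/
theorem pf_BX (hR : Lmr G M R) (hX : X ∈ R) (hb : b ∈ X) (a : V)
    (ha : a ∈ G.cv (univ \ M) b) : a ∈ X := by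
  rw [G.mem_cv] at ha
  refine G.closed_Rch (univ \ M) X ?_ b a hb ha
  ext e
  rw [mem_inter, mem_sdiff]
  constructor
  · rintro ⟨⟨_, h1⟩, h2⟩
    exact absurd (hR.nod X hX h2) h1
  · intro h
    simp at h

theorem pf_mem_own (e : E) : e ∈ own G M R X ↔
    e ∈ M ∧ (G.s e ∈ X ∧ G.t e ∈ X) ∧ ∀ Y ∈ R, Y ⊂ X → ¬ (G.s e ∈ Y ∧ G.t e ∈ Y) := by
  unfold own ins
  rw [mem_filter, mem_filter]
  tauto

theorem pf_mem_low (e : E) : e ∈ low G M R X ↔
    (G.s e ∈ X ∧ G.t e ∈ X) ∧ (e ∉ M ∨ ∃ Y ∈ R, Y ⊂ X ∧ G.s e ∈ Y ∧ G.t e ∈ Y) := by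
  unfold low
  rw [mem_sdiff, pf_mem_own]
  unfold ins
  rw [mem_filter]
  simp only [mem_univ, true_and]
  constructor
  · rintro ⟨h1, h2⟩
    refine ⟨h1, ?_⟩
    by_cases hM : e ∈ M
    · right
      by_contra hno
      apply h2
      refine ⟨hM, h1, fun Y hY hYX h3 => hno ⟨Y, hY, hYX, h3.1, h3.2⟩⟩
    · exact Or.inl hM
  · rintro ⟨h1, h2⟩
    refine ⟨h1, ?_⟩
    rintro ⟨h3, _, h4⟩
    rcases h2 with h2 | ⟨Y, hY, hYX, h5, h6⟩
    · exact h2 h3
    · exact h4 Y hY hYX ⟨h5, h6⟩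

/-- an edge of `low` with one end on the circuit of `b` has both ends there -/
theorem pf_low_B (hR : Lmr G M R) (hdir : ∀ Y ∈ R, Y ⊂ X → b ∉ Y) (e : E)
    (he : e ∈ low G M R X) : (G.s e ∈ G.cv (univ \ M) b ↔ G.t e ∈ G.cv (univ \ M) b) := by
  rw [pf_mem_low] at he
  rcases he.2 with h | ⟨Y, hY, hYX, h1, h2⟩
  · rw [G.mem_cv, G.mem_cv]
    have h3 : G.Rch (univ \ M) (G.s e) (G.t e) := G.Rch_edge _ e (by simp [h])
    exact ⟨fun h4 => G.Rch_trans _ _ _ _ h4 h3,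
      fun h4 => G.Rch_trans _ _ _ _ h4 (G.Rch_symm _ _ _ h3)⟩
  · constructor
    · intro h3
      exact absurd h1 (pf_dis G M R X b hR hdir Y hY hYX _ h3)
    · intro h3
      exact absurd h2 (pf_dis G M R X b hR hdir Y hY hYX _ h3)

/-- the circuit of `b` is connected by `low` -/
theorem pf_B_low (hR : Lmr G M R) (hX : X ∈ R) (hb : b ∈ X) (u : V)
    (hu : u ∈ G.cv (univ \ M) b) : G.Rch (low G M R X) b u := by
  rw [G.mem_cv] at hu
  induction hu with
  | refl => exact G.Rch_refl _ _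
  | tail hbz hzy ih =>
    rename_i z y'
    have hz : z ∈ X := pf_BX G M R X b hR hX hb z ((G.mem_cv _ _ _).2 hbz)
    have hy : y' ∈ X := pf_BX G M R X b hR hX hb y' ((G.mem_cv _ _ _).2 (hbz.tail hzy))
    refine ih.tail ?_
    obtain ⟨e, he, hj⟩ := hzy
    refine ⟨e, ?_, hj⟩
    rw [pf_mem_low]
    rw [mem_sdiff] at he
    refine ⟨?_, Or.inl he.2⟩
    rcases hj with ⟨h1, h2⟩ | ⟨h1, h2⟩
    · rw [h1, h2]
      exact ⟨hz, hy⟩
    · rw [h1, h2]
      exact ⟨hy, hz⟩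

end

section

variable (G : MG V E) (M : Finset E) (R : Finset (Finset V)) (X : Finset V) (b : V)

/-- the component of `k` in `X \ B` -/
noncomputable def pfK (k : V) : Finset V :=
  G.cv (avd G (ins G univ X) (G.cv (univ \ M) b)) k

theorem pf_mem_avd (A : Finset E) (Y B : Finset V) (e : E) : e ∈ avd G (ins G A Y) B ↔
    e ∈ A ∧ (G.s e ∈ Y ∧ G.t e ∈ Y) ∧ (G.s e ∉ B ∧ G.t e ∉ B) := by
  unfold avd ins
  rw [mem_filter, mem_filter]
  tauto

theorem pfK_sub (k : V) (hk : k ∈ X) (hkB : k ∉ G.cv (univ \ M) b) (u : V)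
    (hu : u ∈ pfK G M X b k) : u ∈ X ∧ u ∉ G.cv (univ \ M) b := by
  unfold pfK at hu
  rw [G.mem_cv] at hu
  have h := G.closed_Rch _ (X \ G.cv (univ \ M) b) ?_ k u (mem_sdiff.2 ⟨hk, hkB⟩) hu
  · exact mem_sdiff.1 h
  · ext e
    rw [mem_inter, pf_mem_avd, G.mem_cut, mem_sdiff, mem_sdiff]
    constructor
    · rintro ⟨⟨_, h1, h2⟩, h3⟩
      exact absurd ⟨fun _ => ⟨h1.2, h2.2⟩, fun _ => ⟨h1.1, h2.1⟩⟩ h3
    · intro h
      simp at h

theorem pfK_edge (k : V) (e : E) (h1 : G.s e ∈ X) (h2 : G.t e ∈ X)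
    (h3 : G.s e ∉ G.cv (univ \ M) b) (h4 : G.t e ∉ G.cv (univ \ M) b) :
    (G.s e ∈ pfK G M X b k ↔ G.t e ∈ pfK G M X b k) := by
  unfold pfK
  rw [G.mem_cv, G.mem_cv]
  have h5 : G.Rch (avd G (ins G univ X) (G.cv (univ \ M) b)) (G.s e) (G.t e) :=
    G.Rch_edge _ e ((pf_mem_avd G _ _ _ e).2 ⟨mem_univ e, ⟨h1, h2⟩, ⟨h3, h4⟩⟩)
  exact ⟨fun h => G.Rch_trans _ _ _ _ h h5, fun h => G.Rch_trans _ _ _ _ h (G.Rch_symm _ _ _ h5)⟩

/-- an edge inside `X` at `K` joins `K` to `K` or to the circuit -/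
theorem pfK_own (k : V) (hk : k ∈ X) (hkB : k ∉ G.cv (univ \ M) b) (e : E) (h1 : G.s e ∈ X)
    (h2 : G.t e ∈ X) (h : G.s e ∈ pfK G M X b k ∨ G.t e ∈ pfK G M X b k) :
    (G.s e ∈ pfK G M X b k ∨ G.s e ∈ G.cv (univ \ M) b) ∧
      (G.t e ∈ pfK G M X b k ∨ G.t e ∈ G.cv (univ \ M) b) := by
  by_cases h3 : G.s e ∈ G.cv (univ \ M) b
  · refine ⟨Or.inr h3, ?_⟩
    rcases h with h | h
    · exact absurd h3 (pfK_sub G M X b k hk hkB _ h).2
    · exact Or.inl h
  · by_cases h4 : G.t e ∈ G.cv (univ \ M) b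
    · refine ⟨?_, Or.inr h4⟩
      rcases h with h | h
      · exact Or.inl h
      · exact absurd h4 (pfK_sub G M X b k hk hkB _ h).2
    · have h5 := pfK_edge G M X b k e h1 h2 h3 h4
      rcases h with h | h
      · exact ⟨Or.inl h, Or.inl (h5.1 h)⟩
      · exact ⟨Or.inl (h5.2 h), Or.inl h⟩

/-- `low` does not leave `K` -/
theorem pfK_low (hR : Lmr G M R) (hdir : ∀ Y ∈ R, Y ⊂ X → b ∉ Y) (k : V) (hk : k ∈ X)
    (hkB : k ∉ G.cv (univ \ M) b) (e : E) (he : e ∈ low G M R X) :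
    (G.s e ∈ pfK G M X b k ↔ G.t e ∈ pfK G M X b k) := by
  have h0 := pf_low_B G M R X b hR hdir e he
  have h1 := ((pf_mem_low G M R X e).1 he).1
  by_cases h3 : G.s e ∈ G.cv (univ \ M) b
  · constructor
    · intro h
      exact absurd h3 (pfK_sub G M X b k hk hkB _ h).2
    · intro h
      exact absurd (h0.1 h3) (pfK_sub G M X b k hk hkB _ h).2
  · exact pfK_edge G M X b k e h1.1 h1.2 h3 (fun h => h3 (h0.2 h))

theorem pfK_low_Rch (hR : Lmr G M R) (hdir : ∀ Y ∈ R, Y ⊂ X → b ∉ Y) (k : V) (hk : k ∈ X)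
    (hkB : k ∉ G.cv (univ \ M) b) (S : Finset E) (u v : V) (hu : u ∈ pfK G M X b k)
    (h : G.Rch (low G M R X) u v) :
    v ∈ pfK G M X b k ∧
      G.Rch (avd G (ins G (S ∪ low G M R X) X) (G.cv (univ \ M) b)) u v := by
  induction h with
  | refl => exact ⟨hu, G.Rch_refl _ _⟩
  | tail huz hzy ih =>
    rename_i z y'
    obtain ⟨e, he, hj⟩ := hzy
    have h1 := pfK_low G M R X b hR hdir k hk hkB e he
    have hs : G.s e ∈ pfK G M X b k ∧ G.t e ∈ pfK G M X b k := by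
      rcases hj with ⟨h2, h3⟩ | ⟨h2, h3⟩
      · have h4 : G.s e ∈ pfK G M X b k := by
          rw [h2]
          exact ih.1
        exact ⟨h4, h1.1 h4⟩
      · have h4 : G.t e ∈ pfK G M X b k := by
          rw [h3]
          exact ih.1
        exact ⟨h1.2 h4, h4⟩
    have hs1 := pfK_sub G M X b k hk hkB _ hs.1
    have hs2 := pfK_sub G M X b k hk hkB _ hs.2
    refine ⟨?_, ih.2.tail ⟨e, ?_, hj⟩⟩
    · rcases hj with ⟨h2, h3⟩ | ⟨h2, h3⟩
      · rw [← h3]
        exact hs.2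
      · rw [← h2]
        exact hs.1
    · rw [pf_mem_avd]
      exact ⟨mem_union_right _ he, ⟨hs1.1, hs2.1⟩, ⟨hs1.2, hs2.2⟩⟩

open Classical in
/-- own edges at `K` -/
noncomputable def pfA (k : V) : Finset E :=
  (own G M R X).filter (fun e => G.s e ∈ pfK G M X b k ∨ G.t e ∈ pfK G M X b k)

/-- the contraction for `K` -/
noncomputable def pfc (k : V) (v : V) : V := pff G (low G M R X) b (pfK G M X b k) v

theorem pfc_of_mem (hR : Lmr G M R) (hdir : ∀ Y ∈ R, Y ⊂ X → b ∉ Y) (k : V) (hk : k ∈ X)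
    (hkB : k ∉ G.cv (univ \ M) b) (v : V) (hv : v ∈ pfK G M X b k) :
    pfc G M R X b k v ∈ pfK G M X b k ∧ pfc G M R X b k v ≠ b := by
  have h1 : pfc G M R X b k v = pfr G (low G M R X) b v := by
    unfold pfc pff
    rw [if_pos hv]
  have h2 := pfr_mem G (low G M R X) b v
  have h3 := (pfK_low_Rch G M R X b hR hdir k hk hkB ∅ v _ hv h2).1
  rw [h1]
  refine ⟨h3, ?_⟩
  intro h4
  rw [h4] at h3
  exact (pfK_sub G M X b k hk hkB _ h3).2 ((G.mem_cv _ _ _).2 (G.Rch_refl _ _))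

theorem pfc_of_not (k v : V) (hv : v ∉ pfK G M X b k) : pfc G M R X b k v = b := by
  unfold pfc pff
  rw [if_neg hv]

theorem pfc_low (hR : Lmr G M R) (hdir : ∀ Y ∈ R, Y ⊂ X → b ∉ Y) (k : V) (hk : k ∈ X)
    (hkB : k ∉ G.cv (univ \ M) b) (e : E) (he : e ∈ low G M R X) :
    pfc G M R X b k (G.s e) = pfc G M R X b k (G.t e) := by
  have h1 := pfK_low G M R X b hR hdir k hk hkB e he
  by_cases h2 : G.s e ∈ pfK G M X b k
  · unfold pfc pff
    rw [if_pos h2, if_pos (h1.1 h2)]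
    exact pfr_congr G _ b _ _ (G.Rch_edge _ e he)
  · rw [pfc_of_not G M R X b k _ h2, pfc_of_not G M R X b k _ (fun h => h2 (h1.2 h))]

theorem pfc_F (hR : Lmr G M R) (hX : X ∈ R) (hdir : ∀ Y ∈ R, Y ⊂ X → b ∉ Y) (k : V)
    (hk : k ∈ X) (hkB : k ∉ G.cv (univ \ M) b) (e : E) (he : e ∉ M) :
    pfc G M R X b k (G.s e) = pfc G M R X b k (G.t e) := by
  by_cases h1 : G.s e ∈ X ∧ G.t e ∈ X
  · exact pfc_low G M R X b hR hdir k hk hkB e ((pf_mem_low G M R X e).2 ⟨h1, Or.inl he⟩)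
  · have h2 : G.s e ∉ X ∧ G.t e ∉ X := by
      have h3 : e ∉ G.cut X := fun h => he (hR.nod X hX h)
      rw [G.mem_cut] at h3
      tauto
    rw [pfc_of_not G M R X b k _ (fun h => h2.1 (pfK_sub G M X b k hk hkB _ h).1),
      pfc_of_not G M R X b k _ (fun h => h2.2 (pfK_sub G M X b k hk hkB _ h).1)]

theorem pfc_inj (hR : Lmr G M R) (hX : X ∈ R) (hb : b ∈ X) (hdir : ∀ Y ∈ R, Y ⊂ X → b ∉ Y)
    (k : V) (hk : k ∈ X)
    (hkB : k ∉ G.cv (univ \ M) b) (u v : V)
    (hu : u ∈ pfK G M X b k ∪ G.cv (univ \ M) b) (hv : v ∈ pfK G M X b k ∪ G.cv (univ \ M) b)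
    (h : pfc G M R X b k u = pfc G M R X b k v) : G.Rch (low G M R X) u v := by
  by_cases h1 : u ∈ pfK G M X b k
  · by_cases h2 : v ∈ pfK G M X b k
    · unfold pfc pff at h
      rw [if_pos h1, if_pos h2] at h
      exact pfr_Rch G _ b u v h
    · have h3 := (pfc_of_mem G M R X b hR hdir k hk hkB u h1).2
      rw [h, pfc_of_not G M R X b k v h2] at h3
      exact absurd rfl h3
  · by_cases h2 : v ∈ pfK G M X b k
    · have h3 := (pfc_of_mem G M R X b hR hdir k hk hkB v h2).2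
      rw [← h, pfc_of_not G M R X b k u h1] at h3
      exact absurd rfl h3
    · rw [mem_union] at hu hv
      have hu' := hu.resolve_left h1
      have hv' := hv.resolve_left h2
      exact G.Rch_trans _ _ _ _ (G.Rch_symm _ _ _ (pf_B_low G M R X b hR hX hb u hu'))
        (pf_B_low G M R X b hR hX hb v hv')

/-- Lemma T for one component -/
theorem pf_comp (hR : Lmr G M R) (hX : X ∈ R) (hb : b ∈ X) (hdir : ∀ Y ∈ R, Y ⊂ X → b ∉ Y)
    (den : ∀ c : V → V, (∀ e, e ∉ M → c (G.s e) = c (G.t e)) →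
      (∀ e ∈ low G M R X, c (G.s e) = c (G.t e)) → 2 ≤ (X.image c).card →
      2 * (X.image c).card ≤ (crs G (own G M R X) c).card + 1)
    (k : V) (hk : k ∈ X) (hkB : k ∉ G.cv (univ \ M) b)
    (v v' : E) (hne : v ≠ v') (hv : v ∈ own G M R X) (hv' : v' ∈ own G M R X)
    (a r a' r' : V) (ha : a ∈ G.cv (univ \ M) b) (hr : r ∈ pfK G M X b k)
    (ha' : a' ∈ G.cv (univ \ M) b) (hr' : r' ∈ pfK G M X b k)
    (hj : G.Jn v a r) (hj' : G.Jn v' a' r') :
    ∃ S₁ ⊆ pfA G M R X b k, ∃ S₂ ⊆ pfA G M R X b k, Disjoint S₁ S₂ ∧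
      (∀ x ∈ pfK G M X b k ∪ G.cv (univ \ M) b, ∀ y ∈ pfK G M X b k ∪ G.cv (univ \ M) b,
        G.Rch (S₁ ∪ low G M R X) x y) ∧
      (∀ x ∈ pfK G M X b k ∪ G.cv (univ \ M) b, ∀ y ∈ pfK G M X b k ∪ G.cv (univ \ M) b,
        G.Rch (S₂ ∪ low G M R X) x y) ∧
      v ∈ S₂ ∧ v' ∈ S₂ ∧
      G.Rch (avd G (ins G (S₂ ∪ low G M R X) X) (G.cv (univ \ M) b)) r r' := by
  classical
  set B := G.cv (univ \ M) b with hB
  set K := pfK G M X b k with hKdef
  set f := pfc G M R X b k with hf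
  set A := pfA G M R X b k with hA
  have hbB : b ∈ B := (G.mem_cv _ _ _).2 (G.Rch_refl _ _)
  have hKs : ∀ u ∈ K, u ∈ X ∧ u ∉ B := fun u hu => pfK_sub G M X b k hk hkB u hu
  have hbK : b ∉ K := fun h => (hKs b h).2 hbB
  have mA : ∀ e, e ∈ A ↔ e ∈ own G M R X ∧ (G.s e ∈ K ∨ G.t e ∈ K) := by
    intro e
    rw [hA]
    unfold pfA
    rw [mem_filter]
  have fK : ∀ u ∈ K, f u ∈ K ∧ f u ≠ b := fun u hu => pfc_of_mem G M R X b hR hdir k hk hkB u hu
  have fn : ∀ u, u ∉ K → f u = b := fun u hu => pfc_of_not G M R X b k u hu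
  have fb : f b = b := fn b hbK
  have mown : ∀ e ∈ own G M R X, G.s e ∈ X ∧ G.t e ∈ X := fun e he =>
    ((pf_mem_own G M R X e).1 he).2.1
  have hAK : ∀ e ∈ A, G.s e ∈ K ∪ B ∧ G.t e ∈ K ∪ B := by
    intro e he
    have h1 := (mA e).1 he
    have h2 := mown e h1.1
    have h3 := pfK_own G M X b k hk hkB e h2.1 h2.2 h1.2
    exact ⟨mem_union.2 h3.1, mem_union.2 h3.2⟩
  have hBX : ∀ u ∈ B, u ∈ X := fun u hu => pf_BX G M R X b hR hX hb u hu
  have hKBX : ∀ u ∈ K ∪ B, u ∈ X := by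
    intro u hu
    rcases mem_union.1 hu with h | h
    · exact (hKs u h).1
    · exact hBX u h
  -- apply Lemma T
  have hT := lemT (G.mp f) (X.image f) A (by
      intro e he
      have h2 := mown e ((mA e).1 he).1
      exact ⟨mem_image_of_mem f h2.1, mem_image_of_mem f h2.2⟩) b
    (by rw [← fb]; exact mem_image_of_mem f hb)
    (by
      intro c hc
      have h1 := den (fun u => c (f u))
        (fun e he => by
          exact congrArg c (pfc_F G M R X b hR hX hdir k hk hkB e he))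
        (fun e he => by
          exact congrArg c (pfc_low G M R X b hR hdir k hk hkB e he))
      have h2 : X.image (fun u => c (f u)) = (X.image f).image c := pf_card_image X f c
      rw [h2] at h1
      have h3 : crs G (own G M R X) (fun u => c (f u)) = crs (G.mp f) A c := by
        ext e
        unfold crs
        rw [mem_filter, mem_filter, mA]
        have e1 : (G.mp f).s e = f (G.s e) := rfl
        have e2 : (G.mp f).t e = f (G.t e) := rfl
        rw [e1, e2]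
        constructor
        · rintro ⟨h4, h5⟩
          refine ⟨⟨h4, ?_⟩, h5⟩
          by_contra hno
          push Not at hno
          exact h5 (by
            show c (f (G.s e)) = c (f (G.t e))
            rw [fn _ hno.1, fn _ hno.2])
        · rintro ⟨⟨h4, _⟩, h5⟩
          exact ⟨h4, h5⟩
      rw [h3] at h1
      exact h1 hc)
    (by
      intro x hx hxb y hy hyb
      rw [mem_image] at hx hy
      obtain ⟨u, hu, rfl⟩ := hx
      obtain ⟨u', hu', rfl⟩ := hy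
      have huK : u ∈ K := by
        by_contra h
        exact hxb (fn u h)
      have huK' : u' ∈ K := by
        by_contra h
        exact hyb (fn u' h)
      have h1 : G.Rch (avd G (ins G univ X) B) u u' := by
        rw [hKdef] at huK huK'
        unfold pfK at huK huK'
        rw [G.mem_cv] at huK huK'
        exact G.Rch_trans _ _ _ _ (G.Rch_symm _ _ _ huK) huK'
      refine pf_push G f _ _ ?_ u u' h1
      intro e he
      rw [pf_mem_avd] at he
      have h2 := pfK_edge G M X b k e he.2.1.1 he.2.1.2 he.2.2.1 he.2.2.2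
      by_cases h3 : G.s e ∈ K
      · have h4 : G.t e ∈ K := h2.1 h3
        by_cases h5 : e ∈ own G M R X
        · left
          unfold avd
          rw [mem_filter, mem_singleton, mem_singleton]
          exact ⟨(mA e).2 ⟨h5, Or.inl h3⟩, (fK _ h3).2, (fK _ h4).2⟩
        · right
          refine pfc_low G M R X b hR hdir k hk hkB e ?_
          unfold low
          rw [mem_sdiff]
          refine ⟨?_, h5⟩
          unfold ins
          rw [mem_filter]
          exact ⟨mem_univ e, he.2.1⟩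
      · right
        rw [fn _ h3, fn _ (fun h => h3 (h2.2 h))])
    v v' ((mA v).2 ⟨hv, by
      rcases hj with ⟨h1, h2⟩ | ⟨h1, h2⟩
      · right
        rw [h2]
        exact hr
      · left
        rw [h1]
        exact hr⟩)
    ((mA v').2 ⟨hv', by
      rcases hj' with ⟨h1, h2⟩ | ⟨h1, h2⟩
      · right
        rw [h2]
        exact hr'
      · left
        rw [h1]
        exact hr'⟩) hne (f r) (f r') (fK r hr).2 (fK r' hr').2
    (by
      have h0 : f a = b := fn a (fun h => (hKs a h).2 ha)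
      rcases hj with ⟨h1, h2⟩ | ⟨h1, h2⟩
      · left
        refine ⟨?_, ?_⟩
        · show f (G.s v) = b
          rw [h1, h0]
        · show f (G.t v) = f r
          rw [h2]
      · right
        refine ⟨?_, ?_⟩
        · show f (G.s v) = f r
          rw [h1]
        · show f (G.t v) = b
          rw [h2, h0])
    (by
      have h0 : f a' = b := fn a' (fun h => (hKs a' h).2 ha')
      rcases hj' with ⟨h1, h2⟩ | ⟨h1, h2⟩
      · left
        refine ⟨?_, ?_⟩
        · show f (G.s v') = b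
          rw [h1, h0]
        · show f (G.t v') = f r'
          rw [h2]
      · right
        refine ⟨?_, ?_⟩
        · show f (G.s v') = f r'
          rw [h1]
        · show f (G.t v') = b
          rw [h2, h0])
  obtain ⟨S₁, hS1, S₂, hS2, hd, hc1, hc2, hv2, hv2', hsv⟩ := hT
  refine ⟨S₁, hS1, S₂, hS2, hd, ?_, ?_, hv2, hv2', ?_⟩
  · intro x hx y hy
    refine pf_lift G f S₁ (S₁ ∪ low G M R X) (K ∪ B) (fun e he => hAK e (hS1 he)) ?_
      subset_union_left (f x) (f y) (hc1 _ (mem_image_of_mem f (hKBX x hx)) _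
        (mem_image_of_mem f (hKBX y hy))) x hx y hy rfl rfl
    intro u hu u' hu' h
    exact G.Rch_mono _ _ subset_union_right _ _
      (pfc_inj G M R X b hR hX hb hdir k hk hkB u u' hu hu' h)
  · intro x hx y hy
    refine pf_lift G f S₂ (S₂ ∪ low G M R X) (K ∪ B) (fun e he => hAK e (hS2 he)) ?_
      subset_union_left (f x) (f y) (hc2 _ (mem_image_of_mem f (hKBX x hx)) _
        (mem_image_of_mem f (hKBX y hy))) x hx y hy rfl rfl
    intro u hu u' hu' h
    exact G.Rch_mono _ _ subset_union_right _ _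
      (pfc_inj G M R X b hR hX hb hdir k hk hkB u u' hu hu' h)
  · have hin : ∀ e ∈ avd (G.mp f) S₂ {b}, G.s e ∈ K ∧ G.t e ∈ K := by
      intro e he
      unfold avd at he
      rw [mem_filter, mem_singleton, mem_singleton] at he
      have e1 : (G.mp f).s e = f (G.s e) := rfl
      have e2 : (G.mp f).t e = f (G.t e) := rfl
      rw [e1, e2] at he
      refine ⟨?_, ?_⟩
      · by_contra h
        exact he.2.1 (fn _ h)
      · by_contra h
        exact he.2.2 (fn _ h)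
    refine pf_lift G f (avd (G.mp f) S₂ {b}) _ K hin ?_ ?_ (f r) (f r') hsv r hr r' hr' rfl rfl
    · intro u hu u' hu' h
      exact (pfK_low_Rch G M R X b hR hdir k hk hkB S₂ u u' hu
        (pfc_inj G M R X b hR hX hb hdir k hk hkB u u' (mem_union_left _ hu)
          (mem_union_left _ hu') h)).2
    · intro e he
      have h1 := hin e he
      rw [pf_mem_avd]
      refine ⟨mem_union_left _ ?_, ⟨(hKs _ h1.1).1, (hKs _ h1.2).1⟩,
        ⟨(hKs _ h1.1).2, (hKs _ h1.2).2⟩⟩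
      unfold avd at he
      exact (mem_filter.1 he).1

theorem pf_jn_uniq (B : Finset V) (e : E) (a r a₁ r₁ : V) (ha : a ∈ B) (ha₁ : a₁ ∈ B) (hr : r ∉ B)
    (hr₁ : r₁ ∉ B) (h : G.Jn e a r) (h₁ : G.Jn e a₁ r₁) : a = a₁ ∧ r = r₁ := by
  rcases h with ⟨h2, h3⟩ | ⟨h2, h3⟩
  · rcases h₁ with ⟨h4, h5⟩ | ⟨h4, h5⟩
    · exact ⟨h2.symm.trans h4, h3.symm.trans h5⟩
    · exact absurd ((h3.symm.trans h5) ▸ ha₁) hr
  · rcases h₁ with ⟨h4, h5⟩ | ⟨h4, h5⟩
    · exact absurd ((h2.symm.trans h4) ▸ ha₁) hr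
    · exact ⟨h3.symm.trans h5, h2.symm.trans h4⟩

/-- an edge of `M` from the circuit of `b` into `X` is an own edge -/
theorem pf_own_of (hR : Lmr G M R) (hX : X ∈ R) (hb : b ∈ X) (hdir : ∀ Y ∈ R, Y ⊂ X → b ∉ Y)
    (e : E) (he : e ∈ M) (a r : V) (ha : a ∈ G.cv (univ \ M) b) (hr : r ∈ X) (h : G.Jn e a r) :
    e ∈ own G M R X := by
  have haX := pf_BX G M R X b hR hX hb a ha
  rw [pf_mem_own]
  rcases h with ⟨h1, h2⟩ | ⟨h1, h2⟩
  · rw [h1, h2]
    exact ⟨he, ⟨haX, hr⟩, fun Y hY hYX h3 => pf_dis G M R X b hR hdir Y hY hYX a ha h3.1⟩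
  · rw [h1, h2]
    exact ⟨he, ⟨hr, haX⟩, fun Y hY hYX h3 => pf_dis G M R X b hR hdir Y hY hYX a ha h3.2⟩

/-- one component together with the service of the pairs at it -/
theorem pf_all (hR : Lmr G M R) (hX : X ∈ R) (hb : b ∈ X) (hdir : ∀ Y ∈ R, Y ⊂ X → b ∉ Y)
    (den : ∀ c : V → V, (∀ e, e ∉ M → c (G.s e) = c (G.t e)) →
      (∀ e ∈ low G M R X, c (G.s e) = c (G.t e)) → 2 ≤ (X.image c).card →
      2 * (X.image c).card ≤ (crs G (own G M R X) c).card + 1)
    (Q : Finset (E × E)) (hQ : Prs G M X (G.cv (univ \ M) b) Q)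
    (k : V) (hk : k ∈ X) (hkB : k ∉ G.cv (univ \ M) b) :
    ∃ S₁ ⊆ pfA G M R X b k, ∃ S₂ ⊆ pfA G M R X b k, Disjoint S₁ S₂ ∧
      (∀ x ∈ pfK G M X b k ∪ G.cv (univ \ M) b, ∀ y ∈ pfK G M X b k ∪ G.cv (univ \ M) b,
        G.Rch (S₁ ∪ low G M R X) x y) ∧
      (∀ x ∈ pfK G M X b k ∪ G.cv (univ \ M) b, ∀ y ∈ pfK G M X b k ∪ G.cv (univ \ M) b,
        G.Rch (S₂ ∪ low G M R X) x y) ∧
      ∀ p ∈ Q, ∀ a ∈ G.cv (univ \ M) b, ∀ r ∈ pfK G M X b k, ∀ a' ∈ G.cv (univ \ M) b,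
        ∀ r' ∉ G.cv (univ \ M) b, G.Jn p.1 a r → G.Jn p.2 a' r' →
        p.1 ∈ S₂ ∧ p.2 ∈ S₂ ∧
        G.Rch (avd G (ins G (S₂ ∪ low G M R X) X) (G.cv (univ \ M) b)) r r' := by
  classical
  set B := G.cv (univ \ M) b with hB
  set K := pfK G M X b k with hKdef
  have hbB : b ∈ B := (G.mem_cv _ _ _).2 (G.Rch_refl _ _)
  have hKs : ∀ u ∈ K, u ∈ X ∧ u ∉ B := fun u hu => pfK_sub G M X b k hk hkB u hu
  have hkK : k ∈ K := by
    rw [hKdef]
    unfold pfK
    exact (G.mem_cv _ _ _).2 (G.Rch_refl _ _)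
  by_cases hp : ∃ p ∈ Q, ∃ a ∈ B, ∃ r ∈ K, G.Jn p.1 a r
  · obtain ⟨p, hpQ, a, ha, r, hr, hj⟩ := hp
    obtain ⟨a1, ha1, r1, hr1, a2, ha2, r2, hr2, hr1B, hr2B, hj1, hj2, hreach⟩ := hQ.far p hpQ
    have hu := pf_jn_uniq G B p.1 a r a1 r1 ha ha1 (hKs r hr).2 hr1B hj hj1
    have hr2K : r2 ∈ K := by
      rw [hKdef] at hr ⊢
      unfold pfK at hr ⊢
      rw [G.mem_cv] at hr ⊢
      rw [← hu.2] at hreach
      exact G.Rch_trans _ _ _ _ hr hreach
    obtain ⟨S₁, h1, S₂, h2, hd, hc1, hc2, hv, hv', hs⟩ := pf_comp G M R X b hR hX hb hdir den k hk hkB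
      p.1 p.2 (hQ.ne p hpQ)
      (pf_own_of G M R X b hR hX hb hdir p.1 (hQ.mem p hpQ).1 a r ha (hKs r hr).1 hj)
      (pf_own_of G M R X b hR hX hb hdir p.2 (hQ.mem p hpQ).2 a2 r2 ha2 (hKs r2 hr2K).1 hj2)
      a r a2 r2 ha hr ha2 hr2K hj hj2
    refine ⟨S₁, h1, S₂, h2, hd, hc1, hc2, ?_⟩
    intro q hq c hc t ht c' hc' t' ht' hq1 hq2
    have hqp : q = p := by
      by_contra hne
      refine hQ.sep q hq p hpQ hne c hc a ha t (hKs t ht).1 r (hKs r hr).1 (hKs t ht).2 (hKs r hr).2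
        hq1 hj ?_
      rw [hKdef] at hr ht
      unfold pfK at hr ht
      rw [G.mem_cv] at hr ht
      exact G.Rch_trans _ _ _ _ (G.Rch_symm _ _ _ ht) hr
    subst hqp
    have e1 := pf_jn_uniq G B q.1 a r c t ha hc (hKs r hr).2 (hKs t ht).2 hj hq1
    have e2 := pf_jn_uniq G B q.2 a2 r2 c' t' ha2 hc' (hKs r2 hr2K).2 ht' hj2 hq2
    rw [← e1.2, ← e2.2]
    exact ⟨hv, hv', hs⟩
  · -- three own edges between `K` and `B`
    have h1 := den (fun v => if v ∈ K then k else b)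
      (fun e he => by
        have h2 : (G.s e ∈ K ↔ G.t e ∈ K) := by
          by_cases h1 : G.s e ∈ X ∧ G.t e ∈ X
          · exact pfK_low G M R X b hR hdir k hk hkB e ((pf_mem_low G M R X e).2 ⟨h1, Or.inl he⟩)
          · have h3 : e ∉ G.cut X := fun h => he (hR.nod X hX h)
            rw [G.mem_cut] at h3
            constructor
            · intro h
              have := (hKs _ h).1
              tauto
            · intro h
              have := (hKs _ h).1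
              tauto
        simp only [h2])
      (fun e he => by
        have h2 := pfK_low G M R X b hR hdir k hk hkB e he
        simp only [← hKdef] at h2
        simp only [h2])
    have himg : X.image (fun v => if v ∈ K then k else b) = {k, b} := by
      ext z
      rw [mem_image, mem_insert, mem_singleton]
      constructor
      · rintro ⟨u, _, rfl⟩
        by_cases h : u ∈ K
        · rw [if_pos h]
          exact Or.inl rfl
        · rw [if_neg h]
          exact Or.inr rfl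
      · rintro (rfl | rfl)
        · exact ⟨z, hk, by rw [if_pos hkK]⟩
        · exact ⟨z, hb, by rw [if_neg (fun h => (hKs _ h).2 hbB)]⟩
    have hkb : k ≠ b := fun h => hkB (h ▸ hbB)
    rw [himg, Finset.card_pair hkb] at h1
    have h2 := h1 (le_refl 2)
    have h3 : 1 < (crs G (own G M R X) (fun v => if v ∈ K then k else b)).card := by omega
    obtain ⟨v, hv, v', hv', hne⟩ := Finset.one_lt_card.1 h3
    have key : ∀ e ∈ crs G (own G M R X) (fun v => if v ∈ K then k else b),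
        e ∈ own G M R X ∧ ∃ a ∈ B, ∃ r ∈ K, G.Jn e a r := by
      intro e he
      unfold crs at he
      rw [mem_filter] at he
      refine ⟨he.1, ?_⟩
      have h4 := ((pf_mem_own G M R X e).1 he.1).2.1
      have h5 := he.2
      by_cases h6 : G.s e ∈ K
      · by_cases h7 : G.t e ∈ K
        · simp only [h6, h7, if_true] at h5
          exact absurd rfl h5
        · have h8 := (pfK_own G M X b k hk hkB e h4.1 h4.2 (Or.inl h6)).2.resolve_left h7
          exact ⟨G.t e, h8, G.s e, h6, Or.inr ⟨rfl, rfl⟩⟩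
      · by_cases h7 : G.t e ∈ K
        · have h8 := (pfK_own G M X b k hk hkB e h4.1 h4.2 (Or.inr h7)).1.resolve_left h6
          exact ⟨G.s e, h8, G.t e, h7, Or.inl ⟨rfl, rfl⟩⟩
        · simp only [h6, h7, if_false] at h5
          exact absurd rfl h5
    obtain ⟨hvo, a, ha, r, hr, hj⟩ := key v hv
    obtain ⟨hvo', a', ha', r', hr', hj'⟩ := key v' hv'
    obtain ⟨S₁, h1, S₂, h2, hd, hc1, hc2, _, _, _⟩ := pf_comp G M R X b hR hX hb hdir den k hk hkB
      v v' hne hvo hvo' a r a' r' ha hr ha' hr' hj hj'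
    refine ⟨S₁, h1, S₂, h2, hd, hc1, hc2, ?_⟩
    intro p hpQ c hc t ht c' _ t' _ hj1 _
    exact absurd ⟨p, hpQ, c, hc, t, ht, hj1⟩ hp

end

/-- JOB pack_fav: Lemma T for all components of `X \ B`, `B` the (favoured) circuit of `F` through
`b`, which meets no smaller member of the family -/
theorem pack_fav (G : MG V E) (M : Finset E) (R : Finset (Finset V)) (hR : Lmr G M R)
    (X : Finset V) (hX : X ∈ R) (b : V) (hb : b ∈ X)
    (hdir : ∀ Y ∈ R, Y ⊂ X → b ∉ Y)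
    (den : ∀ c : V → V, (∀ e, e ∉ M → c (G.s e) = c (G.t e)) →
      (∀ e ∈ low G M R X, c (G.s e) = c (G.t e)) → 2 ≤ (X.image c).card →
      2 * (X.image c).card ≤ (crs G (own G M R X) c).card + 1)
    (Q : Finset (E × E)) (hQ : Prs G M X (G.cv (univ \ M) b) Q) :
    ∃ S₁ ⊆ own G M R X, ∃ S₂ ⊆ own G M R X, Disjoint S₁ S₂ ∧
      (∀ a ∈ X, ∀ b ∈ X, G.Rch (S₁ ∪ low G M R X) a b) ∧
      (∀ a ∈ X, ∀ b ∈ X, G.Rch (S₂ ∪ low G M R X) a b) ∧
      Srv G M X (G.cv (univ \ M) b) Q S₂ (S₂ ∪ low G M R X) := by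
  classical
  set B := G.cv (univ \ M) b with hB
  have hbB : b ∈ B := (G.mem_cv _ _ _).2 (G.Rch_refl _ _)
  have hall := pf_all G M R X b hR hX hb hdir den Q hQ
  have hch : ∀ k : V, ∃ P : Finset E × Finset E, (k ∈ X → k ∉ B →
      P.1 ⊆ pfA G M R X b k ∧ P.2 ⊆ pfA G M R X b k ∧ Disjoint P.1 P.2 ∧
      (∀ x ∈ pfK G M X b k ∪ B, ∀ y ∈ pfK G M X b k ∪ B, G.Rch (P.1 ∪ low G M R X) x y) ∧
      (∀ x ∈ pfK G M X b k ∪ B, ∀ y ∈ pfK G M X b k ∪ B, G.Rch (P.2 ∪ low G M R X) x y) ∧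
      ∀ p ∈ Q, ∀ a ∈ B, ∀ r ∈ pfK G M X b k, ∀ a' ∈ B,
        ∀ r' ∉ B, G.Jn p.1 a r → G.Jn p.2 a' r' →
        p.1 ∈ P.2 ∧ p.2 ∈ P.2 ∧ G.Rch (avd G (ins G (P.2 ∪ low G M R X) X) B) r r') := by
    intro k
    by_cases hk : k ∈ X ∧ k ∉ B
    · obtain ⟨S₁, h1, S₂, h2, h3, h4, h5, h6⟩ := hall k hk.1 hk.2
      exact ⟨(S₁, S₂), fun _ _ => ⟨h1, h2, h3, h4, h5, h6⟩⟩
    · exact ⟨(∅, ∅), fun h1 h2 => absurd ⟨h1, h2⟩ hk⟩
  choose P hP using hch
  set L := avd G (ins G univ X) B with hL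
  set rep : V → V := fun v => pfr G L b v with hrep
  set I := (X \ B).image rep with hI
  have hIm : ∀ i ∈ I, i ∈ X ∧ i ∉ B ∧ rep i = i := by
    intro i hi
    rw [hI, mem_image] at hi
    obtain ⟨u, hu, rfl⟩ := hi
    rw [mem_sdiff] at hu
    have h1 := pfr_mem G L b u
    have h2 : rep u ∈ pfK G M X b u := by
      unfold pfK
      exact (G.mem_cv _ _ _).2 h1
    have h3 := pfK_sub G M X b u hu.1 hu.2 _ h2
    refine ⟨h3.1, h3.2, ?_⟩
    exact (pfr_congr G L b _ _ h1).symm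
  have hrepK : ∀ u ∈ X, u ∉ B → rep u ∈ I ∧ u ∈ pfK G M X b (rep u) := by
    intro u hu huB
    refine ⟨mem_image_of_mem rep (mem_sdiff.2 ⟨hu, huB⟩), ?_⟩
    unfold pfK
    rw [G.mem_cv]
    exact G.Rch_symm _ _ _ (pfr_mem G L b u)
  have hKdis : ∀ i ∈ I, ∀ j ∈ I, i ≠ j → ∀ u, u ∈ pfK G M X b i → u ∉ pfK G M X b j := by
    intro i hi j hj hne u h1 h2
    unfold pfK at h1 h2
    rw [G.mem_cv] at h1 h2
    have h3 := pfr_congr G L b i j (G.Rch_trans _ _ _ _ h1 (G.Rch_symm _ _ _ h2))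
    have h4 : i = j := by
      rw [← (hIm i hi).2.2, ← (hIm j hj).2.2]
      exact h3
    exact hne h4
  have hAm : ∀ k, ∀ e, e ∈ pfA G M R X b k ↔
      e ∈ own G M R X ∧ (G.s e ∈ pfK G M X b k ∨ G.t e ∈ pfK G M X b k) := by
    intro k e
    unfold pfA
    rw [mem_filter]
  have hAdis : ∀ i ∈ I, ∀ j ∈ I, i ≠ j → ∀ e, e ∈ pfA G M R X b i → e ∉ pfA G M R X b j := by
    intro i hi j hj hne e h1 h2
    rw [hAm] at h1 h2
    have h3 := ((pf_mem_own G M R X e).1 h1.1).2.1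
    have h4 := pfK_own G M X b i (hIm i hi).1 (hIm i hi).2.1 e h3.1 h3.2 h1.2
    have h5 := pfK_own G M X b j (hIm j hj).1 (hIm j hj).2.1 e h3.1 h3.2 h2.2
    have hsub : ∀ u ∈ pfK G M X b i, u ∉ B := fun u hu =>
      (pfK_sub G M X b i (hIm i hi).1 (hIm i hi).2.1 u hu).2
    have hsub' : ∀ u ∈ pfK G M X b j, u ∉ B := fun u hu =>
      (pfK_sub G M X b j (hIm j hj).1 (hIm j hj).2.1 u hu).2
    rcases h1.2 with h6 | h6
    · rcases h5.1 with h7 | h7
      · exact hKdis i hi j hj hne _ h6 h7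
      · exact hsub _ h6 h7
    · rcases h5.2 with h7 | h7
      · exact hKdis i hi j hj hne _ h6 h7
      · exact hsub _ h6 h7
  set T₁ := I.biUnion (fun i => (P i).1) with hT1
  set T₂ := I.biUnion (fun i => (P i).2) with hT2
  have hT1o : ∀ e ∈ T₁, ∃ i ∈ I, e ∈ (P i).1 ∧ e ∈ pfA G M R X b i := by
    intro e he
    rw [hT1, mem_biUnion] at he
    obtain ⟨i, hi, he⟩ := he
    exact ⟨i, hi, he, (hP i (hIm i hi).1 (hIm i hi).2.1).1 he⟩
  have hT2o : ∀ e ∈ T₂, ∃ i ∈ I, e ∈ (P i).2 ∧ e ∈ pfA G M R X b i := by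
    intro e he
    rw [hT2, mem_biUnion] at he
    obtain ⟨i, hi, he⟩ := he
    exact ⟨i, hi, he, (hP i (hIm i hi).1 (hIm i hi).2.1).2.1 he⟩
  have hch2 : ∀ e ∈ ins G M B, e ∈ own G M R X ∧ G.s e ∈ B ∧ G.t e ∈ B := by
    intro e he
    unfold ins at he
    rw [mem_filter] at he
    exact ⟨pf_own_of G M R X b hR hX hb hdir e he.1 (G.s e) (G.t e) he.2.1
      (pf_BX G M R X b hR hX hb _ he.2.2) (Or.inl ⟨rfl, rfl⟩), he.2.1, he.2.2⟩
  have hconn : ∀ T : Finset E, (∀ x ∈ X, G.Rch (T ∪ low G M R X) b x) →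
      ∀ a ∈ X, ∀ c ∈ X, G.Rch (T ∪ low G M R X) a c := fun T hT a ha c hc =>
    G.Rch_trans _ _ _ _ (G.Rch_symm _ _ _ (hT a ha)) (hT c hc)
  refine ⟨T₁, ?_, T₂ ∪ ins G M B, ?_, ?_, ?_, ?_, ?_, ?_⟩
  · intro e he
    obtain ⟨i, hi, _, h2⟩ := hT1o e he
    exact ((hAm i e).1 h2).1
  · intro e he
    rcases mem_union.1 he with h | h
    · obtain ⟨i, hi, _, h2⟩ := hT2o e h
      exact ((hAm i e).1 h2).1
    · exact (hch2 e h).1
  · rw [Finset.disjoint_left]
    intro e he1 he2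
    obtain ⟨i, hi, h1, h2⟩ := hT1o e he1
    rcases mem_union.1 he2 with h | h
    · obtain ⟨j, hj, h3, h4⟩ := hT2o e h
      by_cases hij : i = j
      · subst hij
        exact (Finset.disjoint_left.1 (hP i (hIm i hi).1 (hIm i hi).2.1).2.2.1) h1 h3
      · exact hAdis i hi j hj hij e h2 h4
    · have h5 := (hch2 e h).2
      rcases ((hAm i e).1 h2).2 with h6 | h6
      · exact (pfK_sub G M X b i (hIm i hi).1 (hIm i hi).2.1 _ h6).2 h5.1
      · exact (pfK_sub G M X b i (hIm i hi).1 (hIm i hi).2.1 _ h6).2 h5.2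
  · apply hconn
    intro x hx
    by_cases hxB : x ∈ B
    · exact G.Rch_mono _ _ subset_union_right _ _ (pf_B_low G M R X b hR hX hb x hxB)
    · obtain ⟨h1, h2⟩ := hrepK x hx hxB
      have h3 := (hP (rep x) (hIm _ h1).1 (hIm _ h1).2.1).2.2.2.1 b (mem_union_right _ hbB) x
        (mem_union_left _ h2)
      refine G.Rch_mono _ _ ?_ _ _ h3
      apply union_subset_union _ (le_refl _)
      intro e he
      rw [hT1, mem_biUnion]
      exact ⟨rep x, h1, he⟩
  · apply hconn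
    intro x hx
    by_cases hxB : x ∈ B
    · exact G.Rch_mono _ _ subset_union_right _ _ (pf_B_low G M R X b hR hX hb x hxB)
    · obtain ⟨h1, h2⟩ := hrepK x hx hxB
      have h3 := (hP (rep x) (hIm _ h1).1 (hIm _ h1).2.1).2.2.2.2.1 b (mem_union_right _ hbB) x
        (mem_union_left _ h2)
      refine G.Rch_mono _ _ ?_ _ _ h3
      apply union_subset_union _ (le_refl _)
      intro e he
      rw [mem_union, hT2, mem_biUnion]
      exact Or.inl ⟨rep x, h1, he⟩
  · exact subset_union_right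
  · intro p hp
    have hserve : ∀ a ∈ B, ∀ r ∈ X, ∀ a' ∈ B, ∀ r' ∈ X, r ∉ B → r' ∉ B → G.Jn p.1 a r →
        G.Jn p.2 a' r' → p.1 ∈ T₂ ∧ p.2 ∈ T₂ ∧
          G.Rch (avd G (ins G (T₂ ∪ ins G M B ∪ low G M R X) X) B) r r' := by
      intro a ha r hr a' ha' r' _ hrB hr'B hj hj'
      obtain ⟨h1, h2⟩ := hrepK r hr hrB
      obtain ⟨h3, h4, h5⟩ := (hP (rep r) (hIm _ h1).1 (hIm _ h1).2.1).2.2.2.2.2 p hp a ha r h2
        a' ha' r' hr'B hj hj'
      refine ⟨?_, ?_, ?_⟩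
      · rw [hT2, mem_biUnion]
        exact ⟨rep r, h1, h3⟩
      · rw [hT2, mem_biUnion]
        exact ⟨rep r, h1, h4⟩
      · refine G.Rch_mono _ _ ?_ _ _ h5
        intro e he
        rw [pf_mem_avd] at he ⊢
        refine ⟨?_, he.2⟩
        rcases mem_union.1 he.1 with h | h
        · apply mem_union_left
          apply mem_union_left
          rw [hT2, mem_biUnion]
          exact ⟨rep r, h1, h⟩
        · exact mem_union_right _ h
    obtain ⟨a, ha, r, hr, a', ha', r', hr', hrB, hr'B, hj, hj', _⟩ := hQ.far p hp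
    obtain ⟨h1, h2, _⟩ := hserve a ha r hr a' ha' r' hr' hrB hr'B hj hj'
    refine ⟨mem_union_left _ h1, mem_union_left _ h2, ?_⟩
    intro a ha r hr a' ha' r' hr' hrB hr'B hj hj'
    exact (hserve a ha r hr a' ha' r' hr' hrB hr'B hj hj').2.2

end Pool.Agent.Lib.MP_95e9b3_coG
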