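import Pool.Agent.Lib.MP_95e9b3_coG.R4Defs
import Pool.Agent.Lib.MP_95e9b3_coG.R3_pack
import Pool.Agent.Lib.MP_95e9b3_coG.R3_pack_fav
import Pool.Agent.Lib.MP_95e9b3_coG.R3_glue
import Pool.Agent.Lib.MP_95e9b3_coG.R3_con

/-!
# Route G, block R4: r4sets

Choice of the connectors: `pack_fav` for the members of `A`, `pack_gen` for the others.
-/

set_option autoImplicit false

namespace Pool.Agent.Lib.MP_95e9b3_coG

open Finset Pool.Agent.Lib.MP_95e9b3_coC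

variable {V E : Type} [Fintype V] [DecidableEq V] [Fintype E] [DecidableEq E]

/-- JOB r4sets: choice of the connectors (as `r3sets`, with `pack_gen` for `B = E5`, `N = 16`) -/
theorem r4sets (G : MG V E) (M : Finset E) (w : E → ℕ) (R P : Finset (Finset V))
    (g : Finset V → E) (hF : Fam4 G M w R P g) (A : Finset (Finset V)) (hA : A ⊆ P)
    (l : Finset V → E) (hl : ∀ X ∈ A, ∃ Z ∈ R, Z ∉ A ∧ l X ∈ own G M R Z)
    (A1 : Finset (Finset V)) (hA1 : A1 ⊆ A)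
    (h5 : ∀ X ∈ A1, ∀ Z ∈ R, l X ∈ own G M R Z → l X ∈ E5 G M R Z)
    (Q : Finset V → Finset (E × E)) (hQ : ∀ X ∈ A, Prs G M X (Cv G M (g X)) (Q X)) :
    ∃ S₁ S₂ : Finset E, Two M S₁ S₂ ∧
      (∀ X ∈ R, ∀ a ∈ X, ∀ b ∈ X, G.Rch ((S₁ ∩ own G M R X) ∪ low G M R X) a b) ∧
      (∀ X ∈ R, ∀ a ∈ X, ∀ b ∈ X, G.Rch ((S₂ ∩ own G M R X) ∪ low G M R X) a b) ∧
      (∀ X ∈ A, Srv G M X (Cv G M (g X)) (Q X) (S₂ ∩ own G M R X)
        ((S₂ ∩ own G M R X) ∪ low G M R X)) ∧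
      ∑ X ∈ A1, w (g X) ≤ 16 * ∑ X ∈ A1.filter (fun X => l X ∉ S₁ ∪ S₂), w (g X) := by
  classical
  have hlm : Lmr G M R := hF.toLmr
  -- the member containing `l X`
  have hl' : ∀ X, ∃ Z, X ∈ A → Z ∈ R ∧ Z ∉ A ∧ l X ∈ own G M R Z := by
    intro X
    by_cases hX : X ∈ A
    · obtain ⟨Z, h1, h2, h3⟩ := hl X hX
      exact ⟨Z, fun _ => ⟨h1, h2, h3⟩⟩
    · exact ⟨∅, fun h => absurd h hX⟩
  choose Zf hZf using hl'
  have ownM : ∀ Z, ∀ e ∈ own G M R Z, e ∈ M := by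
    intro Z e he
    rw [own, mem_filter, ins, mem_filter] at he
    exact he.1.1
  have uniq : ∀ X ∈ R, ∀ Y ∈ R, ∀ e, e ∈ own G M R X → e ∈ own G M R Y → X = Y := by
    intro X hX Y hY e heX heY
    obtain ⟨Z, _, _, h⟩ := own_unique G M R hlm e (ownM X e heX)
    rw [(h X hX).2 heX, (h Y hY).2 heY]
  obtain ⟨u, hu⟩ : ∃ u : Finset V → E → ℕ, ∀ Z e, u Z e =
      ∑ X ∈ (A1.filter (fun X => Zf X = Z)).filter (fun X => l X = e), w (g X) :=
    ⟨_, fun _ _ => rfl⟩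
  have main : ∀ X : Finset V, ∃ S₁ S₂ : Finset E, X ∈ R → S₁ ⊆ own G M R X ∧ S₂ ⊆ own G M R X ∧
      Disjoint S₁ S₂ ∧ (∀ a ∈ X, ∀ b ∈ X, G.Rch (S₁ ∪ low G M R X) a b) ∧
      (∀ a ∈ X, ∀ b ∈ X, G.Rch (S₂ ∪ low G M R X) a b) ∧
      (X ∈ A → Srv G M X (Cv G M (g X)) (Q X) S₂ (S₂ ∪ low G M R X)) ∧
      (X ∉ A → ∑ e ∈ own G M R X, u X e ≤ 16 * ∑ e ∈ own G M R X \ (S₁ ∪ S₂), u X e) := by
    intro X
    by_cases hXR : X ∈ R
    swap
    · exact ⟨∅, ∅, fun h => absurd h hXR⟩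
    by_cases hXA : X ∈ A
    · have hXP := hA hXA
      obtain ⟨S₁, h1, S₂, h2, hd, c1, c2, hs⟩ := pack_fav G M R hlm X hXR (G.s (g X))
        (hF.gX X hXP) (fun Y hY hYX => hF.direct Y hY X hXP hYX) (hF.denP X hXP) (Q X)
        (hQ X hXA)
      exact ⟨S₁, S₂, fun _ => ⟨h1, h2, hd, c1, c2, fun _ => hs, fun h => absurd hXA h⟩⟩
    · have hE5 : E5 G M R X ⊆ own G M R X := by
        unfold E5
        exact filter_subset _ _
      obtain ⟨S₁, h1, S₂, h2, hd, c1, c2, hs⟩ := pack_gen G M R hlm X hXR (E5 G M R X) hE5 16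
        (by norm_num) (hF.denR X hXR) (u X) (by
          intro e he
          rw [hu]
          apply sum_eq_zero
          intro Y hY
          rw [mem_filter, mem_filter] at hY
          obtain ⟨⟨hYA, hYX⟩, hYe⟩ := hY
          exfalso
          apply he
          rw [← hYe]
          obtain ⟨_, _, h3⟩ := hZf Y (hA1 hYA)
          rw [hYX] at h3
          exact h5 Y hYA X hXR h3)
      exact ⟨S₁, S₂, fun _ => ⟨h1, h2, hd, c1, c2, fun h => absurd h hXA, fun _ => hs⟩⟩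
  choose f₁ f₂ hf using main
  obtain ⟨S₁, hS1⟩ : ∃ S : Finset E, S = R.biUnion f₁ := ⟨_, rfl⟩
  obtain ⟨S₂, hS2⟩ : ∃ S : Finset E, S = R.biUnion f₂ := ⟨_, rfl⟩
  have e1 : ∀ X ∈ R, S₁ ∩ own G M R X = f₁ X := by
    intro X hX
    ext e
    rw [mem_inter, hS1, mem_biUnion]
    constructor
    · rintro ⟨⟨Y, hY, he⟩, heX⟩
      rw [uniq X hX Y hY e heX ((hf Y hY).1 he)]
      exact he
    · intro he
      exact ⟨⟨X, hX, he⟩, (hf X hX).1 he⟩
  have e2 : ∀ X ∈ R, S₂ ∩ own G M R X = f₂ X := by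
    intro X hX
    ext e
    rw [mem_inter, hS2, mem_biUnion]
    constructor
    · rintro ⟨⟨Y, hY, he⟩, heX⟩
      rw [uniq X hX Y hY e heX ((hf Y hY).2.1 he)]
      exact he
    · intro he
      exact ⟨⟨X, hX, he⟩, (hf X hX).2.1 he⟩
  refine ⟨S₁, S₂, ⟨?_, ?_, ?_⟩, ?_, ?_, ?_, ?_⟩
  · intro e he
    rw [hS1, mem_biUnion] at he
    obtain ⟨X, hX, he⟩ := he
    exact ownM X e ((hf X hX).1 he)
  · intro e he
    rw [hS2, mem_biUnion] at he
    obtain ⟨X, hX, he⟩ := he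
    exact ownM X e ((hf X hX).2.1 he)
  · rw [disjoint_left]
    intro e he he'
    rw [hS1, mem_biUnion] at he
    rw [hS2, mem_biUnion] at he'
    obtain ⟨X, hX, he⟩ := he
    obtain ⟨Y, hY, he'⟩ := he'
    have h1 := uniq X hX Y hY e ((hf X hX).1 he) ((hf Y hY).2.1 he')
    subst h1
    exact disjoint_left.1 (hf X hX).2.2.1 he he'
  · intro X hX
    rw [e1 X hX]
    exact (hf X hX).2.2.2.1
  · intro X hX
    rw [e2 X hX]
    exact (hf X hX).2.2.2.2.1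
  · intro X hX
    have hXR := hF.sub (hA hX)
    rw [e2 X hXR]
    exact (hf X hXR).2.2.2.2.2.1 hX
  · -- the weights
    have hmap : ∀ X ∈ A1, Zf X ∈ R.filter (fun Z => Z ∉ A) := by
      intro X hX
      obtain ⟨h1, h2, _⟩ := hZf X (hA1 hX)
      exact mem_filter.2 ⟨h1, h2⟩
    have hL : ∑ X ∈ A1, w (g X) = ∑ Z ∈ R.filter (fun Z => Z ∉ A), ∑ e ∈ own G M R Z, u Z e := by
      rw [← sum_fiberwise_of_maps_to hmap]
      apply sum_congr rfl
      intro Z _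
      have h1 : ∀ X ∈ A1.filter (fun X => Zf X = Z), l X ∈ own G M R Z := by
        intro X hX
        rw [mem_filter] at hX
        obtain ⟨_, _, h3⟩ := hZf X (hA1 hX.1)
        rw [hX.2] at h3
        exact h3
      rw [← sum_fiberwise_of_maps_to h1]
      apply sum_congr rfl
      intro e _
      rw [hu]
    have hmap' : ∀ X ∈ A1.filter (fun X => l X ∉ S₁ ∪ S₂), Zf X ∈ R.filter (fun Z => Z ∉ A) :=
      fun X hX => hmap X (mem_filter.1 hX).1
    have hRt : ∑ X ∈ A1.filter (fun X => l X ∉ S₁ ∪ S₂), w (g X) =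
        ∑ Z ∈ R.filter (fun Z => Z ∉ A), ∑ e ∈ own G M R Z \ (f₁ Z ∪ f₂ Z), u Z e := by
      rw [← sum_fiberwise_of_maps_to hmap']
      apply sum_congr rfl
      intro Z hZ
      have hZR := (mem_filter.1 hZ).1
      have h1 : ∀ X ∈ (A1.filter (fun X => l X ∉ S₁ ∪ S₂)).filter (fun X => Zf X = Z),
          l X ∈ own G M R Z \ (f₁ Z ∪ f₂ Z) := by
        intro X hX
        rw [mem_filter, mem_filter] at hX
        obtain ⟨_, _, h3⟩ := hZf X (hA1 hX.1.1)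
        rw [hX.2] at h3
        rw [mem_sdiff]
        refine ⟨h3, fun h => hX.1.2 ?_⟩
        rw [mem_union] at h ⊢
        rcases h with h | h
        · left
          rw [hS1, mem_biUnion]
          exact ⟨Z, hZR, h⟩
        · right
          rw [hS2, mem_biUnion]
          exact ⟨Z, hZR, h⟩
      rw [← sum_fiberwise_of_maps_to h1]
      apply sum_congr rfl
      intro e he
      rw [hu]
      apply sum_congr _ (fun _ _ => rfl)
      ext X
      rw [mem_filter, mem_filter, mem_filter, mem_filter, mem_filter]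
      constructor
      · rintro ⟨⟨⟨h2, _⟩, h3⟩, h4⟩
        exact ⟨⟨h2, h3⟩, h4⟩
      · rintro ⟨⟨h2, h3⟩, h4⟩
        refine ⟨⟨⟨h2, ?_⟩, h3⟩, h4⟩
        rw [mem_sdiff] at he
        rw [h4]
        intro h
        apply he.2
        rw [mem_union] at h ⊢
        rcases h with h | h
        · left
          rw [← e1 Z hZR, mem_inter]
          exact ⟨h, he.1⟩
        · right
          rw [← e2 Z hZR, mem_inter]
          exact ⟨h, he.1⟩
    rw [hL, hRt, mul_sum]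
    apply sum_le_sum
    intro Z hZ
    rw [mem_filter] at hZ
    exact (hf Z hZ.1).2.2.2.2.2.2 hZ.2

end Pool.Agent.Lib.MP_95e9b3_coG
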