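import Pool.Agent.Lib.MP_95e9b3_coG.R3Defs

/-!
# Route G, block R3: selection of the regions

`Sel`: the selected family (no assumption on the size of the cuts). `Sel_exists`: existence.
`Sel_den`, `Sel_den_univ`: densities if all cuts inside `M` have at least `b` edges.
`Sel_cross`: a set with a cut of `b` edges which avoids the largest circuit crosses no member.
`r3sel`: the version of case A.
-/

set_option autoImplicit false
set_option linter.unusedSectionVars false

namespace Pool.Agent.Lib.MP_95e9b3_coG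

open Finset Pool.Agent.Lib.MP_95e9b3_coC

variable {V E : Type} [Fintype V] [DecidableEq V] [Fintype E] [DecidableEq E]

/-! ## Cuts -/

private theorem RS_card (G : MG V E) (U : Finset V) :
    (G.cut U).card = ∑ e, (if (G.s e ∈ U ↔ G.t e ∈ U) then 0 else 1) := by
  unfold MG.cut
  rw [Finset.card_filter]
  refine Finset.sum_congr rfl (fun e _ => ?_)
  by_cases h : (G.s e ∈ U ↔ G.t e ∈ U)
  · rw [if_pos h, if_neg (not_not.2 h)]
  · rw [if_neg h, if_pos h]

theorem RS_submod (G : MG V E) (A B : Finset V) :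
    (G.cut (A ∩ B)).card + (G.cut (A ∪ B)).card ≤ (G.cut A).card + (G.cut B).card := by
  rw [RS_card, RS_card, RS_card, RS_card, ← Finset.sum_add_distrib, ← Finset.sum_add_distrib]
  refine Finset.sum_le_sum (fun e _ => ?_)
  by_cases h1 : G.s e ∈ A <;> by_cases h2 : G.t e ∈ A <;> by_cases h3 : G.s e ∈ B <;>
    by_cases h4 : G.t e ∈ B <;> simp [h1, h2, h3, h4]

theorem RS_posimod (G : MG V E) (A B : Finset V) :
    (G.cut (A \ B)).card + (G.cut (B \ A)).card ≤ (G.cut A).card + (G.cut B).card := by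
  rw [RS_card, RS_card, RS_card, RS_card, ← Finset.sum_add_distrib, ← Finset.sum_add_distrib]
  refine Finset.sum_le_sum (fun e _ => ?_)
  by_cases h1 : G.s e ∈ A <;> by_cases h2 : G.t e ∈ A <;> by_cases h3 : G.s e ∈ B <;>
    by_cases h4 : G.t e ∈ B <;> simp [h1, h2, h3, h4]

theorem RS_nod (G : MG V E) (M : Finset E) (A : Finset V) :
    G.cut A ⊆ M ↔ ∀ e, e ∉ M → (G.s e ∈ A ↔ G.t e ∈ A) := by
  constructor
  · intro h e he
    by_contra hc
    exact he (h ((MG.mem_cut G A e).2 hc))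
  · intro h e he
    by_contra hc
    exact (MG.mem_cut G A e).1 he (h e hc)

theorem RS_nod_inter (G : MG V E) (M : Finset E) (A B : Finset V) (hA : G.cut A ⊆ M)
    (hB : G.cut B ⊆ M) : G.cut (A ∩ B) ⊆ M := by
  rw [RS_nod] at hA hB ⊢
  intro e he
  rw [Finset.mem_inter, Finset.mem_inter, hA e he, hB e he]

theorem RS_nod_union (G : MG V E) (M : Finset E) (A B : Finset V) (hA : G.cut A ⊆ M)
    (hB : G.cut B ⊆ M) : G.cut (A ∪ B) ⊆ M := by
  rw [RS_nod] at hA hB ⊢
  intro e he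
  rw [Finset.mem_union, Finset.mem_union, hA e he, hB e he]

theorem RS_nod_sdiff (G : MG V E) (M : Finset E) (A B : Finset V) (hA : G.cut A ⊆ M)
    (hB : G.cut B ⊆ M) : G.cut (A \ B) ⊆ M := by
  rw [RS_nod] at hA hB ⊢
  intro e he
  rw [Finset.mem_sdiff, Finset.mem_sdiff, hA e he, hB e he]

/-! ## Keys -/

/-- an injective key, compatible with the weights -/
noncomputable def RSkey (w : E → ℕ) (e : E) : ℕ :=
  w e * (Fintype.card E + 1) + (Fintype.equivFin E e : ℕ)

theorem RSkey_lt (w : E → ℕ) (e f : E) (h : w e < w f) : RSkey w e < RSkey w f := by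
  unfold RSkey
  have h1 : (Fintype.equivFin E e : ℕ) < Fintype.card E := (Fintype.equivFin E e).isLt
  have h2 : (w e + 1) * (Fintype.card E + 1) ≤ w f * (Fintype.card E + 1) :=
    Nat.mul_le_mul_right _ h
  rw [Nat.add_mul, Nat.one_mul] at h2
  omega

theorem RSkey_le (w : E → ℕ) (e f : E) (h : RSkey w e ≤ RSkey w f) : w e ≤ w f := by
  by_contra hc
  have := RSkey_lt w f e (not_le.1 hc)
  omega

theorem RSkey_inj (w : E → ℕ) (e f : E) (h : RSkey w e = RSkey w f) : e = f := by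
  have h1 : w e = w f := le_antisymm (RSkey_le w e f h.le) (RSkey_le w f e h.ge)
  unfold RSkey at h
  rw [h1] at h
  have h2 : (Fintype.equivFin E e : ℕ) = (Fintype.equivFin E f : ℕ) := by omega
  exact (Fintype.equivFin E).injective (Fin.ext h2)

/-- `γ` is the largest edge of `F` with an end in `X` -/
def RSrep (G : MG V E) (M : Finset E) (w : E → ℕ) (γ : E) (X : Finset V) : Prop :=
  γ ∉ M ∧ G.s γ ∈ X ∧ ∀ e, e ∉ M → G.s e ∈ X → RSkey w e ≤ RSkey w γ

theorem RSrep_unique (G : MG V E) (M : Finset E) (w : E → ℕ) (γ γ' : E) (X : Finset V)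
    (h : RSrep G M w γ X) (h' : RSrep G M w γ' X) : γ = γ' :=
  RSkey_inj w γ γ' (le_antisymm (h'.2.2 γ h.1 h.2.1) (h.2.2 γ' h'.1 h'.2.1))

theorem RSrep_exists (G : MG V E) (M : Finset E) (w : E → ℕ) (X : Finset V) (e : E) (he : e ∉ M)
    (hX : G.s e ∈ X) : ∃ γ, RSrep G M w γ X := by
  classical
  obtain ⟨γ, hγ, hmax⟩ := Finset.exists_max_image
    (univ.filter (fun e => e ∉ M ∧ G.s e ∈ X)) (RSkey w) ⟨e, by simp [he, hX]⟩
  rw [Finset.mem_filter] at hγ
  refine ⟨γ, hγ.2.1, hγ.2.2, fun f hf hfX => ?_⟩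
  exact hmax f (by simp [hf, hfX])

theorem RSrep_mono (G : MG V E) (M : Finset E) (w : E → ℕ) (γ : E) (X X' : Finset V)
    (h : RSrep G M w γ X) (hs : X' ⊆ X) (hX : G.s γ ∈ X') : RSrep G M w γ X' :=
  ⟨h.1, hX, fun e he heX => h.2.2 e he (hs heX)⟩

/-! ## The selected family -/

/-- the selected family: `g X` is the largest edge of `F` in `X`, every smaller set around `g X`
has a larger cut -/
structure Sel (G : MG V E) (M : Finset E) (w : E → ℕ) (R : Finset (Finset V))
    (g : Finset V → E) : Prop extends Lmr G M R where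
  small : ∀ X ∈ R, X ≠ univ → (G.cut X).card ≤ 7
  rep : ∀ X ∈ R, X ≠ univ → RSrep G M w (g X) X
  direct : ∀ X ∈ R, ∀ Y ∈ R, Y ≠ univ → X ⊂ Y → G.s (g Y) ∉ X
  mincut : ∀ X ∈ R, X ≠ univ → ∀ A, A ⊂ X → G.s (g X) ∈ A → G.cut A ⊆ M →
    (G.cut X).card + 1 ≤ (G.cut A).card

private theorem RS_choose (G : MG V E) (M : Finset E) (X : Finset V) (v : V) (hv : v ∈ X)
    (hX : G.cut X ⊆ M) : ∃ Y : Finset V, v ∈ Y ∧ Y ⊆ X ∧ G.cut Y ⊆ M ∧
      (∀ A : Finset V, v ∈ A → A ⊆ X → G.cut A ⊆ M → (G.cut Y).card ≤ (G.cut A).card) ∧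
      (∀ A : Finset V, v ∈ A → A ⊂ Y → G.cut A ⊆ M → (G.cut Y).card + 1 ≤ (G.cut A).card) := by
  classical
  obtain ⟨Y, hY, hmin⟩ := Finset.exists_min_image
    (univ.filter (fun A : Finset V => v ∈ A ∧ A ⊆ X ∧ G.cut A ⊆ M))
    (fun A => (G.cut A).card * (Fintype.card V + 1) + A.card) ⟨X, by simp [hv, hX]⟩
  rw [Finset.mem_filter] at hY
  obtain ⟨-, hY1, hY2, hY3⟩ := hY
  have hc : ∀ A : Finset V, A.card ≤ Fintype.card V := fun A => Finset.card_le_univ A
  refine ⟨Y, hY1, hY2, hY3, ?_, ?_⟩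
  · intro A h1 h2 h3
    by_contra hcon
    have h4 : (G.cut A).card + 1 ≤ (G.cut Y).card := by omega
    have h5 := hmin A (by simp [h1, h2, h3])
    have h6 := Nat.mul_le_mul_right (Fintype.card V + 1) h4
    rw [Nat.add_mul, Nat.one_mul] at h6
    have h7 := hc A
    omega
  · intro A h1 h2 h3
    by_contra hcon
    have h4 : (G.cut A).card ≤ (G.cut Y).card := by omega
    have h5 := hmin A (by simp [h1, h2.subset.trans hY2, h3])
    have h6 := Nat.mul_le_mul_right (Fintype.card V + 1) h4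
    have h7 := Finset.card_lt_card h2
    omega

/-- the pair lemma -/
private theorem RS_pair (G : MG V E) (M : Finset E) (v v' : V) (X X' Y Y' : Finset V)
    (hX : X' ⊆ X) (hv : v ∉ X')
    (a1 : v ∈ Y) (a2 : Y ⊆ X) (a3 : G.cut Y ⊆ M)
    (a4 : ∀ A : Finset V, v ∈ A → A ⊆ X → G.cut A ⊆ M → (G.cut Y).card ≤ (G.cut A).card)
    (a5 : ∀ A : Finset V, v ∈ A → A ⊂ Y → G.cut A ⊆ M → (G.cut Y).card + 1 ≤ (G.cut A).card)
    (b1 : v' ∈ Y') (b2 : Y' ⊆ X') (b3 : G.cut Y' ⊆ M)
    (b4 : ∀ A : Finset V, v' ∈ A → A ⊆ X' → G.cut A ⊆ M → (G.cut Y').card ≤ (G.cut A).card)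
    (b5 : ∀ A : Finset V, v' ∈ A → A ⊂ Y' → G.cut A ⊆ M →
      (G.cut Y').card + 1 ≤ (G.cut A).card) :
    Y' ⊂ Y ∨ Disjoint Y Y' := by
  have hvY' : v ∉ Y' := fun h => hv (b2 h)
  by_cases h1 : v' ∈ Y
  · left
    have h2 := RS_submod G Y Y'
    have h3 := a4 (Y ∪ Y') (Finset.mem_union_left _ a1) (Finset.union_subset a2 (b2.trans hX))
      (RS_nod_union G M _ _ a3 b3)
    have h4 : Y ∩ Y' = Y' := by
      by_contra hne
      have h5 : Y ∩ Y' ⊂ Y' := (Finset.inter_subset_right).ssubset_of_ne hne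
      have h6 := b5 _ (Finset.mem_inter.2 ⟨h1, b1⟩) h5 (RS_nod_inter G M _ _ a3 b3)
      omega
    have h7 : Y' ⊆ Y := by
      rw [← h4]
      exact Finset.inter_subset_left
    exact h7.ssubset_of_ne (fun h => hvY' (h ▸ a1))
  · right
    by_contra hd
    obtain ⟨u, hu, hu'⟩ := Finset.not_disjoint_iff.1 hd
    have h2 := RS_posimod G Y Y'
    have h3 : Y \ Y' ⊂ Y := Finset.sdiff_subset.ssubset_of_ne (fun h => by
      rw [← h] at hu
      exact (Finset.mem_sdiff.1 hu).2 hu')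
    have h4 := a5 _ (Finset.mem_sdiff.2 ⟨a1, hvY'⟩) h3 (RS_nod_sdiff G M _ _ a3 b3)
    have h5 := b4 _ (Finset.mem_sdiff.2 ⟨b1, h1⟩) (Finset.sdiff_subset.trans b2)
      (RS_nod_sdiff G M _ _ b3 a3)
    omega

private theorem RS_pt_self (G : MG V E) (M : Finset E) (Y : ℕ → Finset E) (t : ℕ) (v : V) :
    v ∈ pt G M Y t v := by
  unfold pt
  rw [MG.mem_cv]
  exact MG.Rch_refl G _ v

private theorem RS_pt_eq (G : MG V E) (M : Finset E) (Y : ℕ → Finset E) (t : ℕ) (u v : V)
    (h : u ∈ pt G M Y t v) : pt G M Y t u = pt G M Y t v := by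
  unfold pt at h ⊢
  rw [MG.mem_cv] at h
  exact ((MG.cv_eq G _ v u).2 h).symm

private theorem RS_pt_mono (G : MG V E) (M : Finset E) (Y : ℕ → Finset E)
    (hmono : ∀ s t, s ≤ t → Y s ⊆ Y t) (s t : ℕ) (hst : s ≤ t) (v : V) :
    pt G M Y s v ⊆ pt G M Y t v := by
  intro u hu
  unfold pt at hu ⊢
  rw [MG.mem_cv] at hu ⊢
  exact MG.Rch_mono G _ _ (Finset.union_subset_union_right (hmono s t hst)) _ _ hu

private theorem RS_pt_nest (G : MG V E) (M : Finset E) (Y : ℕ → Finset E)
    (hmono : ∀ s t, s ≤ t → Y s ⊆ Y t) (s t : ℕ) (hst : s ≤ t) (u v x : V)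
    (hu : x ∈ pt G M Y s u) (hv : x ∈ pt G M Y t v) : pt G M Y s u ⊆ pt G M Y t v := by
  rw [← RS_pt_eq G M Y s x u hu, ← RS_pt_eq G M Y t x v hv]
  exact RS_pt_mono G M Y hmono s t hst x

private theorem RS_pt_nod (G : MG V E) (M : Finset E) (Y : ℕ → Finset E) (t : ℕ) (v : V) :
    G.cut (pt G M Y t v) ⊆ M := by
  intro e he
  by_contra hc
  have h1 := MG.cv_cut G ((univ \ M) ∪ Y t) v
  have h2 : e ∈ ((univ \ M) ∪ Y t) ∩ G.cut (G.cv ((univ \ M) ∪ Y t) v) :=
    Finset.mem_inter.2 ⟨Finset.mem_union_left _ (Finset.mem_sdiff.2 ⟨Finset.mem_univ e, hc⟩), he⟩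
  rw [h1] at h2
  exact absurd h2 (Finset.notMem_empty e)

/-- selection of the regions -/
theorem Sel_exists [Nonempty V] [Nonempty E] (G : MG V E) (M : Finset E) (w : E → ℕ)
    (Y : ℕ → Finset E) (hmono : ∀ s t, s ≤ t → Y s ⊆ Y t) (T : ℕ) :
    ∃ (R : Finset (Finset V)) (g : Finset V → E), Sel G M w R g ∧
      ∑ t ∈ range T, NS G M w Y t ≤ ∑ X ∈ R.erase univ, w (g X) := by
  classical
  -- the representatives
  let P : E → Prop := fun γ => ∃ t, Sm G (pt G M Y t (G.s γ)) ∧
    RSrep G M w γ (pt G M Y t (G.s γ))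
  let Rs : Finset E := univ.filter P
  have hP : ∀ γ ∈ Rs, P γ := fun γ h => (Finset.mem_filter.1 h).2
  have hch : ∀ γ, ∃ Xγ Yγ : Finset V, P γ → (∃ t, Xγ = pt G M Y t (G.s γ)) ∧
      Sm G Xγ ∧ RSrep G M w γ Xγ ∧ G.s γ ∈ Yγ ∧ Yγ ⊆ Xγ ∧ G.cut Yγ ⊆ M ∧
      (∀ A : Finset V, G.s γ ∈ A → A ⊆ Xγ → G.cut A ⊆ M →
        (G.cut Yγ).card ≤ (G.cut A).card) ∧
      (∀ A : Finset V, G.s γ ∈ A → A ⊂ Yγ → G.cut A ⊆ M →
        (G.cut Yγ).card + 1 ≤ (G.cut A).card) := by
    intro γ
    by_cases hγ : P γ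
    · obtain ⟨t, h1, h2⟩ := hγ
      obtain ⟨Z, z1, z2, z3, z4, z5⟩ := RS_choose G M (pt G M Y t (G.s γ)) (G.s γ)
        (RS_pt_self G M Y t _) (RS_pt_nod G M Y t _)
      exact ⟨pt G M Y t (G.s γ), Z, fun _ => ⟨⟨t, rfl⟩, h1, h2, z1, z2, z3, z4, z5⟩⟩
    · exact ⟨∅, ∅, fun h => absurd h hγ⟩
  choose Xf Yf hXY using hch
  -- pairs
  have hpair : ∀ γ, P γ → ∀ γ', P γ' → γ ≠ γ' →
      (Disjoint (Yf γ) (Yf γ')) ∨ (Yf γ' ⊂ Yf γ ∧ G.s γ ∉ Yf γ') ∨
        (Yf γ ⊂ Yf γ' ∧ G.s γ' ∉ Yf γ) := by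
    intro γ hγ γ' hγ' hne
    obtain ⟨⟨t, ht⟩, x1, x2, a1, a2, a3, a4, a5⟩ := hXY γ hγ
    obtain ⟨⟨t', ht'⟩, x1', x2', b1, b2, b3, b4, b5⟩ := hXY γ' hγ'
    by_cases hd : Disjoint (Xf γ) (Xf γ')
    · left
      exact Finset.disjoint_of_subset_left a2 (Finset.disjoint_of_subset_right b2 hd)
    · obtain ⟨x, hx, hx'⟩ := Finset.not_disjoint_iff.1 hd
      have key : ∀ γ γ' : E, γ ≠ γ' → RSrep G M w γ (Xf γ) → RSrep G M w γ' (Xf γ') →
          Xf γ' ⊆ Xf γ → G.s γ ∉ Xf γ' := by
        intro γ γ' hne h1 h2 h3 h4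
        exact hne (RSrep_unique G M w γ γ' _ (RSrep_mono G M w γ _ _ h1 h3 h4) h2)
      rcases le_total t' t with htt | htt
      · have hsub : Xf γ' ⊆ Xf γ := by
          rw [ht] at hx ⊢
          rw [ht'] at hx' ⊢
          exact RS_pt_nest G M Y hmono t' t htt _ _ x hx' hx
        have hv := key γ γ' hne x2 x2' hsub
        rcases RS_pair G M _ _ _ _ _ _ hsub hv a1 a2 a3 a4 a5 b1 b2 b3 b4 b5 with h | h
        · exact Or.inr (Or.inl ⟨h, fun h' => hv (b2 h')⟩)
        · exact Or.inl h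
      · have hsub : Xf γ ⊆ Xf γ' := by
          rw [ht] at hx ⊢
          rw [ht'] at hx' ⊢
          exact RS_pt_nest G M Y hmono t t' htt _ _ x hx hx'
        have hv := key γ' γ (Ne.symm hne) x2' x2 hsub
        rcases RS_pair G M _ _ _ _ _ _ hsub hv b1 b2 b3 b4 b5 a1 a2 a3 a4 a5 with h | h
        · exact Or.inr (Or.inr ⟨h, fun h' => hv (a2 h')⟩)
        · exact Or.inl h.symm
  have hinj : ∀ γ ∈ Rs, ∀ γ' ∈ Rs, Yf γ = Yf γ' → γ = γ' := by
    intro γ hγ γ' hγ' he
    by_contra hne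
    rcases hpair γ (hP γ hγ) γ' (hP γ' hγ') hne with h | h | h
    · rw [he] at h
      have h1 := (hXY γ' (hP γ' hγ')).2.2.2.1
      exact Finset.disjoint_left.1 h h1 h1
    · exact h.1.ne he.symm
    · exact h.1.ne he
  have hnu : ∀ γ ∈ Rs, Yf γ ≠ univ := by
    intro γ hγ he
    obtain ⟨-, x1, x2, a1, a2, a3, a4, a5⟩ := hXY γ (hP γ hγ)
    rw [he] at a2
    exact x1.2 (Finset.univ_subset_iff.1 a2)
  let g : Finset V → E := fun X => if h : ∃ γ ∈ Rs, Yf γ = X then h.choose else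
    Classical.arbitrary E
  have hg : ∀ γ ∈ Rs, g (Yf γ) = γ := by
    intro γ hγ
    have h : ∃ γ' ∈ Rs, Yf γ' = Yf γ := ⟨γ, hγ, rfl⟩
    have h1 : g (Yf γ) = h.choose := dif_pos h
    rw [h1]
    exact hinj _ h.choose_spec.1 _ hγ h.choose_spec.2
  let R : Finset (Finset V) := insert univ (Rs.image Yf)
  have hR : ∀ X ∈ R, X ≠ univ → ∃ γ ∈ Rs, X = Yf γ ∧ g X = γ := by
    intro X hX hne
    rcases Finset.mem_insert.1 hX with h | h
    · exact absurd h hne
    · obtain ⟨γ, hγ, h1⟩ := Finset.mem_image.1 h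
      exact ⟨γ, hγ, h1.symm, by rw [← h1]; exact hg γ hγ⟩
  have hRe : R.erase univ = Rs.image Yf := by
    refine Finset.erase_insert ?_
    intro h
    obtain ⟨γ, hγ, h1⟩ := Finset.mem_image.1 h
    exact hnu γ hγ h1
  refine ⟨R, g, ?_, ?_⟩
  · refine
      { ne := ?_, nod := ?_, top := Finset.mem_insert_self _ _, lam := ?_, small := ?_,
        rep := ?_, direct := ?_, mincut := ?_ }
    · intro X hX
      by_cases hne : X = univ
      · rw [hne]
        exact Finset.univ_nonempty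
      · obtain ⟨γ, hγ, h1, h2⟩ := hR X hX hne
        rw [h1]
        exact ⟨_, (hXY γ (hP γ hγ)).2.2.2.1⟩
    · intro X hX
      by_cases hne : X = univ
      · rw [hne, RS_nod]
        intro e _
        simp
      · obtain ⟨γ, hγ, h1, h2⟩ := hR X hX hne
        rw [h1]
        exact (hXY γ (hP γ hγ)).2.2.2.2.2.1
    · intro X hX Z hZ
      by_cases hne : X = univ
      · right
        left
        rw [hne]
        exact Finset.subset_univ _
      by_cases hne' : Z = univ
      · left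
        rw [hne']
        exact Finset.subset_univ _
      obtain ⟨γ, hγ, h1, h2⟩ := hR X hX hne
      obtain ⟨γ', hγ', h1', h2'⟩ := hR Z hZ hne'
      by_cases he : γ = γ'
      · left
        rw [h1, h1', he]
      rw [h1, h1']
      rcases hpair γ (hP γ hγ) γ' (hP γ' hγ') he with h | h | h
      · exact Or.inr (Or.inr h)
      · exact Or.inr (Or.inl h.1.subset)
      · exact Or.inl h.1.subset
    · intro X hX hne
      obtain ⟨γ, hγ, h1, h2⟩ := hR X hX hne
      obtain ⟨-, x1, x2, a1, a2, a3, a4, a5⟩ := hXY γ (hP γ hγ)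
      rw [h1]
      refine (a4 (Xf γ) (a2 a1) (le_refl _) ?_).trans x1.1
      obtain ⟨⟨t, ht⟩, -⟩ := hXY γ (hP γ hγ)
      rw [ht]
      exact RS_pt_nod G M Y t _
    · intro X hX hne
      obtain ⟨γ, hγ, h1, h2⟩ := hR X hX hne
      obtain ⟨-, x1, x2, a1, a2, a3, a4, a5⟩ := hXY γ (hP γ hγ)
      rw [h2, h1]
      exact RSrep_mono G M w γ _ _ x2 a2 a1
    · intro X hX Z hZ hne' hlt
      have hne : X ≠ univ := by
        intro h
        rw [h] at hlt
        exact hlt.2 (Finset.subset_univ _)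
      obtain ⟨γ, hγ, h1, h2⟩ := hR X hX hne
      obtain ⟨γ', hγ', h1', h2'⟩ := hR Z hZ hne'
      have he : γ' ≠ γ := by
        intro h
        rw [h1, h1', h] at hlt
        exact hlt.ne rfl
      rw [h2', h1]
      rw [h1, h1'] at hlt
      rcases hpair γ' (hP γ' hγ') γ (hP γ hγ) he with h | h | h
      · exact fun h3 => Finset.disjoint_left.1 h (hXY γ' (hP γ' hγ')).2.2.2.1 h3
      · exact h.2
      · exact absurd (hlt.subset) h.1.2
    · intro X hX hne A hA hs hM
      obtain ⟨γ, hγ, h1, h2⟩ := hR X hX hne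
      obtain ⟨-, x1, x2, a1, a2, a3, a4, a5⟩ := hXY γ (hP γ hγ)
      rw [h2] at hs
      rw [h1] at hA ⊢
      exact a5 A hs hA hM
  · have hsg : ∑ γ ∈ Rs, w (g (Yf γ)) = ∑ γ ∈ Rs, w γ :=
      Finset.sum_congr rfl (fun γ hγ => by rw [hg γ hγ])
    rw [hRe, Finset.sum_image (fun γ hγ γ' hγ' h => hinj γ hγ γ' hγ' h), hsg]
    have hNS : ∀ t, NS G M w Y t ≤ (Rs.filter (fun γ => t < w γ)).card := by
      intro t
      have hrep : ∀ X ∈ (parts G M Y t).filter (fun X => Sm G X ∧ ¬ Closed G M w t X),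
          ∃ γ, RSrep G M w γ X ∧ t < w γ := by
        intro X hX
        have h1 := (Finset.mem_filter.1 hX).2.2
        unfold Closed at h1
        push Not at h1
        obtain ⟨e, he, heX, hew⟩ := h1
        obtain ⟨γ, hγ⟩ := RSrep_exists G M w X e he heX
        exact ⟨γ, hγ, lt_of_lt_of_le hew (RSkey_le w _ _ (hγ.2.2 e he heX))⟩
      choose! r hr using hrep
      have h0 : NS G M w Y t =
          ((parts G M Y t).filter (fun X => Sm G X ∧ ¬ Closed G M w t X)).card := by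
        unfold NS
        rfl
      rw [h0]
      have hptX : ∀ X ∈ (parts G M Y t).filter (fun X => Sm G X ∧ ¬ Closed G M w t X),
          X = pt G M Y t (G.s (r X)) := by
        intro X hX
        have h1 := (Finset.mem_filter.1 hX).1
        unfold parts at h1
        obtain ⟨v, -, hv⟩ := Finset.mem_image.1 h1
        have h2 := (hr X hX).1.2.1
        rw [← hv] at h2 ⊢
        rw [hv]
        rw [hv] at h2
        rw [← hv] at h2
        have h3 := RS_pt_eq G M Y t _ _ h2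
        rw [hv] at h3
        exact h3.symm
      refine Finset.card_le_card_of_injOn r ?_ ?_
      · intro X hX
        have hX' : X ∈ (parts G M Y t).filter (fun X => Sm G X ∧ ¬ Closed G M w t X) := hX
        have h2 := hr X hX'
        have h3 := hptX X hX'
        have h4 := (Finset.mem_filter.1 hX').2.1
        refine Finset.mem_coe.2 (Finset.mem_filter.2 ⟨Finset.mem_filter.2
          ⟨Finset.mem_univ _, t, ?_, ?_⟩, h2.2⟩)
        · rw [← h3]
          exact h4
        · rw [← h3]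
          exact h2.1
      · intro X hX Z hZ he
        rw [hptX X hX, hptX Z hZ, he]
    have h1 : ∑ t ∈ range T, NS G M w Y t ≤
        ∑ t ∈ range T, ∑ γ ∈ Rs, (if t < w γ then 1 else 0) := by
      refine Finset.sum_le_sum (fun t _ => (hNS t).trans (le_of_eq ?_))
      rw [Finset.card_filter]
    refine h1.trans ?_
    rw [Finset.sum_comm]
    refine Finset.sum_le_sum (fun γ _ => ?_)
    rw [← Finset.card_filter]
    have h2 : (range T).filter (fun t => t < w γ) ⊆ range (w γ) := by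
      intro t ht
      exact Finset.mem_range.2 (Finset.mem_filter.1 ht).2
    exact (Finset.card_le_card h2).trans (le_of_eq (Finset.card_range _))

/-! ## Densities -/

/-- the sum of the cuts of the colour classes -/
theorem RS_count (G : MG V E) (M : Finset E) (X : Finset V) (c : V → V)
    (hc : ∀ e, e ∉ M → c (G.s e) = c (G.t e)) :
    ∑ i ∈ X.image c, (G.cut (X.filter (fun v => c v = i))).card =
      2 * (crs G (ins G M X) c).card + (G.cut X).card := by
  have h1 : (crs G (ins G M X) c).card = ∑ e, (if e ∈ crs G (ins G M X) c then 1 else 0) := by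
    rw [← Finset.card_filter]
    congr 1
    ext e
    simp
  rw [RS_card G X, h1, Finset.mul_sum, ← Finset.sum_add_distrib,
    Finset.sum_congr rfl (fun i _ => RS_card G (X.filter (fun v => c v = i))), Finset.sum_comm]
  refine Finset.sum_congr rfl (fun e _ => ?_)
  have h2 : ∑ i ∈ X.image c, (if (G.s e ∈ X.filter (fun v => c v = i) ↔
      G.t e ∈ X.filter (fun v => c v = i)) then 0 else 1) =
      ((X.image c).filter (fun i => ¬ (G.s e ∈ X.filter (fun v => c v = i) ↔
        G.t e ∈ X.filter (fun v => c v = i)))).card := by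
    rw [Finset.card_filter]
    refine Finset.sum_congr rfl (fun i _ => ?_)
    by_cases h : (G.s e ∈ X.filter (fun v => c v = i) ↔ G.t e ∈ X.filter (fun v => c v = i))
    · rw [if_pos h, if_neg (not_not.2 h)]
    · rw [if_neg h, if_pos h]
  rw [h2]
  have hmem : e ∈ crs G (ins G M X) c ↔
      (e ∈ M ∧ G.s e ∈ X ∧ G.t e ∈ X) ∧ c (G.s e) ≠ c (G.t e) := by
    unfold crs ins
    rw [Finset.mem_filter, Finset.mem_filter]
  by_cases hs : G.s e ∈ X
  · by_cases ht : G.t e ∈ X
    · by_cases hcc : c (G.s e) = c (G.t e)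
      · have h3 : (X.image c).filter (fun i => ¬ (G.s e ∈ X.filter (fun v => c v = i) ↔
            G.t e ∈ X.filter (fun v => c v = i))) = ∅ := by
          rw [Finset.filter_eq_empty_iff]
          intro i _
          rw [Finset.mem_filter, Finset.mem_filter, hcc, not_not]
          exact ⟨fun h => ⟨ht, h.2⟩, fun h => ⟨hs, h.2⟩⟩
        rw [h3, if_neg (fun h => (hmem.1 h).2 hcc), if_pos (iff_of_true hs ht)]
        rfl
      · have heM : e ∈ M := by
          by_contra h
          exact hcc (hc e h)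
        have h3 : (X.image c).filter (fun i => ¬ (G.s e ∈ X.filter (fun v => c v = i) ↔
            G.t e ∈ X.filter (fun v => c v = i))) = {c (G.s e), c (G.t e)} := by
          ext i
          rw [Finset.mem_filter, Finset.mem_filter, Finset.mem_filter, Finset.mem_insert,
            Finset.mem_singleton]
          constructor
          · rintro ⟨-, h4⟩
            by_contra h5
            push Not at h5
            exact h4 ⟨fun h => absurd h.2.symm h5.1, fun h => absurd h.2.symm h5.2⟩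
          · rintro (h4 | h4)
            · refine ⟨by rw [h4]; exact Finset.mem_image_of_mem c hs, fun h5 => ?_⟩
              have h6 := (h5.1 ⟨hs, h4.symm⟩).2
              exact hcc (h4.symm.trans h6.symm)
            · refine ⟨by rw [h4]; exact Finset.mem_image_of_mem c ht, fun h5 => ?_⟩
              have h6 := (h5.2 ⟨ht, h4.symm⟩).2
              exact hcc (h6.trans h4)
        rw [h3, Finset.card_pair hcc, if_pos (hmem.2 ⟨⟨heM, hs, ht⟩, hcc⟩),
          if_pos (iff_of_true hs ht), mul_one, add_zero]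
    · have h3 : (X.image c).filter (fun i => ¬ (G.s e ∈ X.filter (fun v => c v = i) ↔
          G.t e ∈ X.filter (fun v => c v = i))) = {c (G.s e)} := by
        ext i
        rw [Finset.mem_filter, Finset.mem_filter, Finset.mem_filter, Finset.mem_singleton]
        constructor
        · rintro ⟨-, h4⟩
          by_contra h5
          exact h4 ⟨fun h => absurd h.2.symm h5, fun h => absurd h.1 ht⟩
        · intro h4
          refine ⟨by rw [h4]; exact Finset.mem_image_of_mem c hs, fun h5 => ?_⟩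
          exact ht (h5.1 ⟨hs, h4.symm⟩).1
      rw [h3, Finset.card_singleton, if_neg (fun h => ht (hmem.1 h).1.2.2),
        if_neg (fun h => ht (h.1 hs)), mul_zero, zero_add]
  · by_cases ht : G.t e ∈ X
    · have h3 : (X.image c).filter (fun i => ¬ (G.s e ∈ X.filter (fun v => c v = i) ↔
          G.t e ∈ X.filter (fun v => c v = i))) = {c (G.t e)} := by
        ext i
        rw [Finset.mem_filter, Finset.mem_filter, Finset.mem_filter, Finset.mem_singleton]
        constructor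
        · rintro ⟨-, h4⟩
          by_contra h5
          exact h4 ⟨fun h => absurd h.1 hs, fun h => absurd h.2.symm h5⟩
        · intro h4
          refine ⟨by rw [h4]; exact Finset.mem_image_of_mem c ht, fun h5 => ?_⟩
          exact hs (h5.2 ⟨ht, h4.symm⟩).1
      rw [h3, Finset.card_singleton, if_neg (fun h => hs (hmem.1 h).1.2.1),
        if_neg (fun h => hs (h.2 ht)), mul_zero, zero_add]
    · have h3 : (X.image c).filter (fun i => ¬ (G.s e ∈ X.filter (fun v => c v = i) ↔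
          G.t e ∈ X.filter (fun v => c v = i))) = ∅ := by
        rw [Finset.filter_eq_empty_iff]
        intro i _
        rw [Finset.mem_filter, Finset.mem_filter, not_not]
        exact ⟨fun h => absurd h.1 hs, fun h => absurd h.1 ht⟩
      rw [h3, if_neg (fun h => hs (hmem.1 h).1.2.1), if_pos (iff_of_false hs ht)]
      rfl

/-- colour classes are unions of circuits -/
theorem RS_class_nod (G : MG V E) (M : Finset E) (X : Finset V) (hX : G.cut X ⊆ M) (c : V → V)
    (hc : ∀ e, e ∉ M → c (G.s e) = c (G.t e)) (i : V) :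
    G.cut (X.filter (fun v => c v = i)) ⊆ M := by
  rw [RS_nod] at hX ⊢
  intro e he
  rw [Finset.mem_filter, Finset.mem_filter, hX e he, hc e he]

private theorem RS_class_ne (X : Finset V) (c : V → V) (i : V) (hi : i ∈ X.image c) :
    (X.filter (fun v => c v = i)).Nonempty := by
  obtain ⟨v, hv, h⟩ := Finset.mem_image.1 hi
  exact ⟨v, Finset.mem_filter.2 ⟨hv, h⟩⟩

private theorem RS_class_ssub (X : Finset V) (c : V → V) (i : V) (h2 : 2 ≤ (X.image c).card) :
    X.filter (fun v => c v = i) ⊂ X := by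
  refine (Finset.filter_subset _ _).ssubset_of_ne (fun h => ?_)
  have h3 : X.image c ⊆ {i} := by
    intro j hj
    obtain ⟨v, hv, hvj⟩ := Finset.mem_image.1 hj
    rw [← h] at hv
    rw [Finset.mem_singleton, ← hvj]
    exact (Finset.mem_filter.1 hv).2
  have h4 := Finset.card_le_card h3
  rw [Finset.card_singleton] at h4
  omega

/-- density of a proper member -/
theorem Sel_den (G : MG V E) (M : Finset E) (w : E → ℕ) (R : Finset (Finset V))
    (g : Finset V → E) (h : Sel G M w R g) (b : ℕ)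
    (hb : ∀ U : Finset V, U.Nonempty → U ≠ univ → G.cut U ⊆ M → b ≤ (G.cut U).card)
    (X : Finset V) (hX : X ∈ R) (hXu : X ≠ univ) (c : V → V)
    (hc : ∀ e, e ∉ M → c (G.s e) = c (G.t e)) (h2 : 2 ≤ (X.image c).card) :
    b * (X.image c).card + 1 ≤ 2 * (crs G (ins G M X) c).card + b := by
  have hcount := RS_count G M X c hc
  have hg := h.rep X hX hXu
  have hi : c (G.s (g X)) ∈ X.image c := Finset.mem_image_of_mem c hg.2.1
  rw [← Finset.add_sum_erase _ _ hi] at hcount
  have h3 := h.mincut X hX hXu _ (RS_class_ssub X c (c (G.s (g X))) h2)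
    (Finset.mem_filter.2 ⟨hg.2.1, rfl⟩) (RS_class_nod G M X (h.nod X hX) c hc _)
  have h4 : ((X.image c).erase (c (G.s (g X)))).card * b ≤
      ∑ i ∈ (X.image c).erase (c (G.s (g X))), (G.cut (X.filter (fun v => c v = i))).card := by
    rw [← smul_eq_mul]
    refine Finset.card_nsmul_le_sum _ _ _ (fun i hi' => ?_)
    have hi2 := Finset.mem_of_mem_erase hi'
    refine hb _ (RS_class_ne X c i hi2) ?_ (RS_class_nod G M X (h.nod X hX) c hc _)
    intro h5
    have h6 := RS_class_ssub X c i h2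
    rw [h5] at h6
    exact h6.2 (Finset.subset_univ _)
  rw [Finset.card_erase_of_mem hi] at h4
  obtain ⟨k, hk⟩ : ∃ k, (X.image c).card = k + 1 := ⟨(X.image c).card - 1, by omega⟩
  rw [hk] at h4 ⊢
  rw [Nat.add_sub_cancel] at h4
  rw [Nat.mul_add, Nat.mul_one, Nat.mul_comm b k]
  omega

/-- density of the top -/
theorem Sel_den_univ (G : MG V E) (M : Finset E) (b : ℕ)
    (hb : ∀ U : Finset V, U.Nonempty → U ≠ univ → G.cut U ⊆ M → b ≤ (G.cut U).card)
    (c : V → V) (hc : ∀ e, e ∉ M → c (G.s e) = c (G.t e))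
    (h2 : 2 ≤ ((univ : Finset V).image c).card) :
    b * ((univ : Finset V).image c).card ≤ 2 * (crs G (ins G M univ) c).card := by
  have hcount := RS_count G M univ c hc
  have hu : G.cut (univ : Finset V) = ∅ := by
    rw [Finset.eq_empty_iff_forall_notMem]
    intro e he
    rw [MG.mem_cut] at he
    exact he (by simp)
  rw [hu, Finset.card_empty, add_zero] at hcount
  have h4 : ((univ : Finset V).image c).card * b ≤
      ∑ i ∈ (univ : Finset V).image c, (G.cut ((univ : Finset V).filter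
        (fun v => c v = i))).card := by
    rw [← smul_eq_mul]
    refine Finset.card_nsmul_le_sum _ _ _ (fun i hi' => ?_)
    refine hb _ (RS_class_ne univ c i hi') (RS_class_ssub univ c i h2).ne
      (RS_class_nod G M univ (by rw [hu]; exact Finset.empty_subset _) c hc _)
  rw [Nat.mul_comm]
  omega

/-- a set with a cut of `b` edges which avoids the largest circuit crosses no member -/
theorem Sel_cross (G : MG V E) (M : Finset E) (w : E → ℕ) (R : Finset (Finset V))
    (g : Finset V → E) (h : Sel G M w R g) (b : ℕ)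
    (hb : ∀ U : Finset V, U.Nonempty → U ≠ univ → G.cut U ⊆ M → b ≤ (G.cut U).card)
    (γ : E) (hγ : RSrep G M w γ univ) (Q : Finset V) (hQ : G.cut Q ⊆ M)
    (hQb : (G.cut Q).card ≤ b) (hQγ : G.s γ ∉ Q) (X : Finset V) (hX : X ∈ R) :
    X ⊆ Q ∨ Q ⊆ X ∨ Disjoint X Q := by
  by_cases hXu : X = univ
  · right
    left
    rw [hXu]
    exact Finset.subset_univ _
  by_contra hcon
  push Not at hcon
  obtain ⟨c1, c2, c3⟩ := hcon
  obtain ⟨u, hu, hu'⟩ := Finset.not_disjoint_iff.1 c3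
  obtain ⟨x, hx, hx'⟩ := Finset.not_subset.1 c1
  obtain ⟨q, hq, hq'⟩ := Finset.not_subset.1 c2
  have hg := h.rep X hX hXu
  by_cases hs : G.s (g X) ∈ Q
  · have h1 := RS_submod G X Q
    have h2 := h.mincut X hX hXu (X ∩ Q) ((Finset.inter_subset_left).ssubset_of_ne (fun h => by
      rw [← h] at hx
      exact hx' (Finset.mem_inter.1 hx).2)) (Finset.mem_inter.2 ⟨hg.2.1, hs⟩)
      (RS_nod_inter G M _ _ (h.nod X hX) hQ)
    have h3 := hb (X ∪ Q) ⟨x, Finset.mem_union_left _ hx⟩ (fun h5 => by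
      have h6 : G.s γ ∈ X ∪ Q := by
        rw [h5]
        exact Finset.mem_univ _
      rcases Finset.mem_union.1 h6 with h7 | h7
      · have h8 := RSrep_unique G M w γ (g X) X (RSrep_mono G M w γ _ _ hγ
          (Finset.subset_univ _) h7) hg
        rw [← h8] at hs
        exact hQγ hs
      · exact hQγ h7) (RS_nod_union G M _ _ (h.nod X hX) hQ)
    omega
  · have h1 := RS_posimod G X Q
    have h2 := h.mincut X hX hXu (X \ Q) (Finset.sdiff_subset.ssubset_of_ne (fun h => by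
      rw [← h] at hu
      exact (Finset.mem_sdiff.1 hu).2 hu')) (Finset.mem_sdiff.2 ⟨hg.2.1, hs⟩)
      (RS_nod_sdiff G M _ _ (h.nod X hX) hQ)
    have h3 := hb (Q \ X) ⟨q, Finset.mem_sdiff.2 ⟨hq, hq'⟩⟩ (fun h5 => by
      have h6 : u ∈ Q \ X := by
        rw [h5]
        exact Finset.mem_univ _
      exact (Finset.mem_sdiff.1 h6).2 hu) (RS_nod_sdiff G M _ _ hQ (h.nod X hX))
    omega

/-- the heaviest edge of a member is heaviest on its circuit -/
theorem RSrep_gmax (G : MG V E) (M : Finset E) (w : E → ℕ) (γ : E) (X : Finset V)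
    (h : RSrep G M w γ X) (hX : G.cut X ⊆ M) : ∀ e ∈ G.ce (univ \ M) (G.s γ), w e ≤ w γ := by
  intro e he
  rw [MG.mem_ce] at he
  have h2 : G.s e ∈ X := by
    refine MG.closed_Rch G (univ \ M) X ?_ _ _ h.2.1 he.2
    rw [Finset.eq_empty_iff_forall_notMem]
    intro f hf
    rw [Finset.mem_inter, Finset.mem_sdiff] at hf
    exact hf.1.2 (hX hf.2)
  exact RSkey_le w _ _ (h.2.2 e (Finset.mem_sdiff.1 he.1).2 h2)

/-- the selection in unbundled form (`P` = the proper members) -/
theorem selcore [Nonempty V] (G : MG V E) (hG : C3 G) (M : Finset E)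
    (w : E → ℕ) (Y : ℕ → Finset E) (hY : Cl G M w Y) (T : ℕ) :
    ∃ (P : Finset (Finset V)) (g : Finset V → E), Sel G M w (insert univ P) g ∧ univ ∉ P ∧
      (∀ X ∈ P, X.Nonempty) ∧ (∀ X ∈ P, (G.cut X).card ≤ 7) ∧ (∀ X ∈ P, G.cut X ⊆ M) ∧
      (∀ X ∈ P, g X ∉ M) ∧ (∀ X ∈ P, G.s (g X) ∈ X) ∧
      (∀ X ∈ P, ∀ e ∈ G.ce (univ \ M) (G.s (g X)), w e ≤ w (g X)) ∧
      (∀ X ∈ P, ∀ Z ∈ P, X ⊆ Z ∨ Z ⊆ X ∨ Disjoint X Z) ∧
      (∀ X ∈ P, ∀ Z ∈ P, X ⊂ Z → G.s (g Z) ∉ X) ∧
      (∀ X ∈ P, ∀ A, A ⊂ X → G.cut A ⊆ M → G.s (g X) ∈ A →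
        (G.cut X).card + 1 ≤ (G.cut A).card) ∧
      ∑ t ∈ range T, NS G M w Y t ≤ ∑ X ∈ P, w (g X) := by
  have hE : Nonempty E := by
    by_contra hc
    rw [not_nonempty_iff] at hc
    have h1 := hG.deg (Classical.arbitrary V)
    unfold MG.dg at h1
    rw [Finset.univ_eq_empty, Finset.sum_empty] at h1
    omega
  obtain ⟨R, g, hS, hsum⟩ := Sel_exists G M w Y hY.mono T
  have hm : ∀ X ∈ R.erase univ, X ∈ R ∧ X ≠ univ := fun X hX =>
    ⟨Finset.mem_of_mem_erase hX, Finset.ne_of_mem_erase hX⟩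
  refine ⟨R.erase univ, g, ?_, Finset.notMem_erase _ _, ?_, ?_, ?_, ?_, ?_, ?_, ?_, ?_, ?_, hsum⟩
  · rw [Finset.insert_erase hS.top]
    exact hS
  · exact fun X hX => hS.ne X (hm X hX).1
  · exact fun X hX => hS.small X (hm X hX).1 (hm X hX).2
  · exact fun X hX => hS.nod X (hm X hX).1
  · exact fun X hX => (hS.rep X (hm X hX).1 (hm X hX).2).1
  · exact fun X hX => (hS.rep X (hm X hX).1 (hm X hX).2).2.1
  · exact fun X hX => RSrep_gmax G M w _ X (hS.rep X (hm X hX).1 (hm X hX).2)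
      (hS.nod X (hm X hX).1)
  · exact fun X hX Z hZ => hS.lam X (hm X hX).1 Z (hm Z hZ).1
  · exact fun X hX Z hZ h => hS.direct X (hm X hX).1 Z (hm Z hZ).1 (hm Z hZ).2 h
  · exact fun X hX A hA hM hs => hS.mincut X (hm X hX).1 (hm X hX).2 A hA hs hM

/-- JOB r3sel: regions from the clusters -/
theorem r3sel [Nonempty V] (G : MG V E) (hG : C3 G) (M : Finset E) (hM : PM G M) (h5 : H5 G M)
    (w : E → ℕ) (Y : ℕ → Finset E) (hY : Cl G M w Y) (T : ℕ) :
    ∃ (R : Finset (Finset V)) (g : Finset V → E), Fam G M w R g ∧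
      ∑ t ∈ range T, NS G M w Y t ≤ ∑ X ∈ R.erase univ, w (g X) := by
  have hE : Nonempty E := by
    by_contra hc
    rw [not_nonempty_iff] at hc
    have h1 := hG.deg (Classical.arbitrary V)
    unfold MG.dg at h1
    rw [Finset.univ_eq_empty, Finset.sum_empty] at h1
    omega
  obtain ⟨R, g, hS, hsum⟩ := Sel_exists G M w Y hY.mono T
  refine ⟨R, g, ?_, hsum⟩
  refine
    { ne := hS.ne, nod := hS.nod, top := hS.top, lam := hS.lam, den := ?_, small := hS.small,
      gF := fun X hX hne => (hS.rep X hX hne).1, gX := fun X hX hne => (hS.rep X hX hne).2.1,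
      gmax := ?_, direct := hS.direct }
  · intro X hX c hc h2
    by_cases hne : X = univ
    · subst hne
      have h6 := Sel_den_univ G M 5 h5 c hc h2
      omega
    · have h6 := Sel_den G M w R g hS 5 h5 X hX hne c hc h2
      omega
  · intro X hX hne
    exact RSrep_gmax G M w _ X (hS.rep X hX hne) (hS.nod X hX)

end Pool.Agent.Lib.MP_95e9b3_coG
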