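import Pool.Agent.Lib.MP_95e9b3_coG.R4Defs
import Pool.Agent.Lib.MP_95e9b3_coG.R3_sel

/-!
# Route G, block R4: selection of the family (`r4sel`)
-/

set_option autoImplicit false
set_option linter.unusedSectionVars false

namespace Pool.Agent.Lib.MP_95e9b3_coG

open Finset Pool.Agent.Lib.MP_95e9b3_coC

variable {V E : Type} [Fintype V] [DecidableEq V] [Fintype E] [DecidableEq E]

/-- all cuts inside `M` have at least four edges -/
theorem R4_cut4 (G : MG V E) (hG : C3 G) (M : Finset E) (hM : PM G M) :
    ∀ U : Finset V, U.Nonempty → U ≠ univ → G.cut U ⊆ M → 4 ≤ (G.cut U).card := by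
  intro U h1 h2 h3
  have h4 := hG.cut U h1 h2
  by_contra hc
  have h5 : (G.cut U).card = 3 := by omega
  have h6 := hM.three U h5
  rw [Finset.inter_eq_right.2 h3] at h6
  omega

/-- there is an edge outside `M` -/
theorem R4_exF [Nonempty V] (G : MG V E) (hG : C3 G) (M : Finset E) (hM : PM G M) :
    ∃ e, e ∉ M := by
  by_contra hc
  push Not at hc
  have h1 : M = univ := Finset.eq_univ_iff_forall.2 hc
  have h2 := hG.deg (Classical.arbitrary V)
  have h3 := hM.deg (Classical.arbitrary V)
  rw [h1] at h3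
  omega

/-- a colouring without crossing edges inside a set with a small cut is constant -/
theorem R4_const (G : MG V E) (M : Finset E)
    (hb : ∀ U : Finset V, U.Nonempty → U ≠ univ → G.cut U ⊆ M → 4 ≤ (G.cut U).card)
    (N : Finset V) (hN : G.cut N ⊆ M) (h7 : (G.cut N).card ≤ 7) (c : V → V)
    (hc : ∀ e, e ∉ M → c (G.s e) = c (G.t e))
    (hi : ∀ e ∈ M, G.s e ∈ N → G.t e ∈ N → c (G.s e) = c (G.t e)) :
    ∀ a ∈ N, ∀ b ∈ N, c a = c b := by
  intro a ha b hb'
  by_contra hne
  have h0 : crs G (ins G M N) c = ∅ := by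
    rw [Finset.eq_empty_iff_forall_notMem]
    intro e he
    unfold crs ins at he
    rw [Finset.mem_filter, Finset.mem_filter] at he
    exact he.2 (hi e he.1.1 he.1.2.1 he.1.2.2)
  have h1 := RS_count G M N c hc
  rw [h0, Finset.card_empty, mul_zero, zero_add] at h1
  have ha' : c a ∈ N.image c := Finset.mem_image_of_mem c ha
  have hb2 : c b ∈ N.image c := Finset.mem_image_of_mem c hb'
  have hpair : ({c a, c b} : Finset V) ⊆ N.image c := by
    intro x hx
    rcases Finset.mem_insert.1 hx with h | h
    · rw [h]; exact ha'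
    · rw [Finset.mem_singleton.1 h]; exact hb2
  have h2 : ∑ i ∈ ({c a, c b} : Finset V), (G.cut (N.filter (fun v => c v = i))).card ≤
      ∑ i ∈ N.image c, (G.cut (N.filter (fun v => c v = i))).card :=
    Finset.sum_le_sum_of_subset hpair
  rw [Finset.sum_pair hne] at h2
  have h3 : ∀ x ∈ N, ∀ y ∈ N, c x ≠ c y → 4 ≤ (G.cut (N.filter (fun v => c v = c x))).card := by
    intro x hx y hy hxy
    refine hb _ ⟨x, Finset.mem_filter.2 ⟨hx, rfl⟩⟩ ?_ (RS_class_nod G M N hN c hc _)
    intro h
    have h4 : y ∈ N.filter (fun v => c v = c x) := by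
      rw [h]
      exact Finset.mem_univ _
    exact hxy (Finset.mem_filter.1 h4).2.symm
  have h4 := h3 a ha b hb' hne
  have h5 := h3 b hb' a ha (Ne.symm hne)
  omega

/-- if `c` is constant on the lower edges, the crossing edges are the own crossing edges -/
theorem R4_crs (G : MG V E) (M : Finset E) (R : Finset (Finset V)) (X : Finset V) (c : V → V)
    (hl : ∀ e ∈ low G M R X, c (G.s e) = c (G.t e)) :
    crs G (own G M R X) c = crs G (ins G M X) c := by
  ext e
  have hown : own G M R X ⊆ ins G M X := Finset.filter_subset _ _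
  unfold crs
  rw [Finset.mem_filter, Finset.mem_filter]
  constructor
  · exact fun h => ⟨hown h.1, h.2⟩
  · intro h
    refine ⟨?_, h.2⟩
    by_contra hc
    refine h.2 (hl e ?_)
    unfold low
    refine Finset.mem_sdiff.2 ⟨?_, hc⟩
    have h1 := h.1
    unfold ins at h1 ⊢
    rw [Finset.mem_filter] at h1 ⊢
    exact ⟨Finset.mem_univ _, h1.2⟩

/-- `c` is constant on the smaller members -/
theorem R4_const_mem (G : MG V E) (M : Finset E) (R : Finset (Finset V)) (hR : Lmr G M R)
    (hb : ∀ U : Finset V, U.Nonempty → U ≠ univ → G.cut U ⊆ M → 4 ≤ (G.cut U).card)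
    (h7 : ∀ X ∈ R, X ≠ univ → (G.cut X).card ≤ 7) (X : Finset V) (c : V → V)
    (hc : ∀ e, e ∉ M → c (G.s e) = c (G.t e))
    (hl : ∀ e ∈ low G M R X, c (G.s e) = c (G.t e)) (N : Finset V) (hN : N ∈ R) (hNX : N ⊂ X) :
    ∀ a ∈ N, ∀ b ∈ N, c a = c b := by
  have hNu : N ≠ univ := by
    intro h
    rw [h] at hNX
    exact hNX.2 (Finset.subset_univ _)
  refine R4_const G M hb N (hR.nod N hN) (h7 N hN hNu) c hc ?_
  intro e _ hs ht
  refine hl e ?_
  unfold low
  rw [Finset.mem_sdiff]
  constructor
  · unfold ins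
    exact Finset.mem_filter.2 ⟨Finset.mem_univ _, hNX.1 hs, hNX.1 ht⟩
  · intro h
    unfold own at h
    exact (Finset.mem_filter.1 h).2 N hN hNX ⟨hs, ht⟩

/-- the classes are laminar with the members -/
theorem R4_class_lam (G : MG V E) (M : Finset E) (R : Finset (Finset V)) (hR : Lmr G M R)
    (hb : ∀ U : Finset V, U.Nonempty → U ≠ univ → G.cut U ⊆ M → 4 ≤ (G.cut U).card)
    (h7 : ∀ X ∈ R, X ≠ univ → (G.cut X).card ≤ 7) (X : Finset V) (hX : X ∈ R) (c : V → V)
    (hc : ∀ e, e ∉ M → c (G.s e) = c (G.t e))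
    (hl : ∀ e ∈ low G M R X, c (G.s e) = c (G.t e)) (i : V) (Z : Finset V) (hZ : Z ∈ R) :
    X.filter (fun v => c v = i) ⊆ Z ∨ Z ⊆ X.filter (fun v => c v = i) ∨
      Disjoint (X.filter (fun v => c v = i)) Z := by
  have hs : X.filter (fun v => c v = i) ⊆ X := Finset.filter_subset _ _
  rcases hR.lam X hX Z hZ with h | h | h
  · exact Or.inl (hs.trans h)
  · by_cases he : Z = X
    · left
      rw [he]
      exact hs
    · have hlt : Z ⊂ X := h.ssubset_of_ne he
      have hcon := R4_const_mem G M R hR hb h7 X c hc hl Z hZ hlt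
      right
      obtain ⟨z, hz⟩ := hR.ne Z hZ
      by_cases hzi : c z = i
      · left
        intro v hv
        exact Finset.mem_filter.2 ⟨h hv, (hcon v hv z hz).trans hzi⟩
      · right
        rw [Finset.disjoint_left]
        intro v hv hvZ
        exact hzi ((hcon z hz v hvZ).trans (Finset.mem_filter.1 hv).2)
  · right
    right
    exact Finset.disjoint_of_subset_left hs h

/-- the families extending `R₀` by sets with four boundary edges which avoid `v` -/
def RExt (G : MG V E) (M : Finset E) (R₀ : Finset (Finset V)) (v : V)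
    (R : Finset (Finset V)) : Prop :=
  R₀ ⊆ R ∧ Lmr G M R ∧ ∀ X ∈ R, X ∉ R₀ → (G.cut X).card = 4 ∧ v ∉ X

/-- a maximal extension -/
theorem RExt_max (G : MG V E) (M : Finset E) (R₀ : Finset (Finset V)) (h₀ : Lmr G M R₀) (v : V) :
    ∃ R, RExt G M R₀ v R ∧ ∀ A : Finset V, A.Nonempty → G.cut A ⊆ M → (G.cut A).card = 4 →
      v ∉ A → (∀ Z ∈ R, A ⊆ Z ∨ Z ⊆ A ∨ Disjoint A Z) → A ∈ R := by
  classical
  obtain ⟨R, hR, hmax⟩ := Finset.exists_max_image
    (univ.filter (fun R : Finset (Finset V) => RExt G M R₀ v R)) Finset.card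
    ⟨R₀, Finset.mem_filter.2 ⟨Finset.mem_univ _, ⟨le_refl _, h₀, fun X h h' => absurd h h'⟩⟩⟩
  rw [Finset.mem_filter] at hR
  obtain ⟨-, h1, h2, h3⟩ := hR
  refine ⟨R, ⟨h1, h2, h3⟩, ?_⟩
  intro A a1 a2 a3 a4 a5
  by_contra hA
  have h4 : RExt G M R₀ v (insert A R) := by
    refine ⟨h1.trans (Finset.subset_insert _ _), ?_, ?_⟩
    · refine { ne := ?_, nod := ?_, top := Finset.mem_insert_of_mem h2.top, lam := ?_ }
      · intro X hX
        rcases Finset.mem_insert.1 hX with h | h
        · rw [h]; exact a1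
        · exact h2.ne X h
      · intro X hX
        rcases Finset.mem_insert.1 hX with h | h
        · rw [h]; exact a2
        · exact h2.nod X h
      · intro X hX Z hZ
        rcases Finset.mem_insert.1 hX with h | h <;> rcases Finset.mem_insert.1 hZ with h' | h'
        · left
          rw [h, h']
        · rw [h]
          exact a5 Z h'
        · rw [h']
          rcases a5 X h with h6 | h6 | h6
          · exact Or.inr (Or.inl h6)
          · exact Or.inl h6
          · exact Or.inr (Or.inr h6.symm)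
        · exact h2.lam X h Z h'
    · intro X hX hX0
      rcases Finset.mem_insert.1 hX with h | h
      · rw [h]
        exact ⟨a3, a4⟩
      · exact h3 X h hX0
  have h5 := hmax (insert A R) (Finset.mem_filter.2 ⟨Finset.mem_univ _, h4⟩)
  rw [Finset.card_insert_of_notMem hA] at h5
  omega

/-- JOB r4sel (helper35) -/
theorem r4sel [Nonempty V] (G : MG V E) (hG : C3 G) (M : Finset E) (hM : PM G M)
    (w : E → ℕ) (Y : ℕ → Finset E) (hY : Cl G M w Y) (T : ℕ) :
    ∃ (R P : Finset (Finset V)) (g : Finset V → E), Fam4 G M w R P g ∧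
      ∑ t ∈ range T, NS G M w Y t ≤ ∑ X ∈ P, w (g X) := by
  classical
  have hb := R4_cut4 G hG M hM
  obtain ⟨e₀, he₀⟩ := R4_exF G hG M hM
  have hE : Nonempty E := ⟨e₀⟩
  obtain ⟨γ, hγ⟩ := RSrep_exists G M w univ e₀ he₀ (Finset.mem_univ _)
  obtain ⟨R₀, g, hS, hsum⟩ := Sel_exists G M w Y hY.mono T
  obtain ⟨R, ⟨hR0, hR, hR4⟩, hmax⟩ := RExt_max G M R₀ hS.toLmr (G.s γ)
  have h7 : ∀ X ∈ R, X ≠ univ → (G.cut X).card ≤ 7 := by
    intro X hX hne
    by_cases h : X ∈ R₀
    · exact hS.small X h hne
    · rw [(hR4 X hX h).1]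
      omega
  have h4 : ∀ X ∈ R, X ≠ univ → 4 ≤ (G.cut X).card := fun X hX hne =>
    hb X (hR.ne X hX) hne (hR.nod X hX)
  have hP : ∀ X ∈ R₀.erase univ, X ∈ R₀ ∧ X ≠ univ := fun X hX =>
    ⟨Finset.mem_of_mem_erase hX, Finset.ne_of_mem_erase hX⟩
  have hcu : (G.cut (univ : Finset V)).card = 0 := by
    rw [Finset.card_eq_zero, Finset.eq_empty_iff_forall_notMem]
    intro e he
    rw [MG.mem_cut] at he
    exact he (by simp)
  refine ⟨R, R₀.erase univ, g, ?_, hsum⟩
  refine
    { ne := hR.ne, nod := hR.nod, top := hR.top, lam := hR.lam,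
      sub := (Finset.erase_subset _ _).trans hR0, pu := fun X hX => (hP X hX).2, four := h4,
      small := fun X hX => hS.small X (hP X hX).1 (hP X hX).2,
      gF := fun X hX => (hS.rep X (hP X hX).1 (hP X hX).2).1,
      gX := fun X hX => (hS.rep X (hP X hX).1 (hP X hX).2).2.1,
      gmax := fun X hX => RSrep_gmax G M w _ X (hS.rep X (hP X hX).1 (hP X hX).2)
        (hS.nod X (hP X hX).1),
      direct := ?_, denP := ?_, denR := ?_ }
  · intro X hX Z hZ hlt
    obtain ⟨hZ0, hZu⟩ := hP Z hZ
    by_cases h : X ∈ R₀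
    · exact hS.direct X h Z hZ0 hZu hlt
    · intro hs
      have h1 := hS.mincut Z hZ0 hZu X hlt hs (hR.nod X hX)
      have h2 := (hR4 X hX h).1
      have h3 := h4 Z (hR0 hZ0) hZu
      omega
  · intro X hX c hc hl h2
    obtain ⟨hX0, hXu⟩ := hP X hX
    have h1 := Sel_den G M w R₀ g hS 4 hb X hX0 hXu c hc h2
    rw [R4_crs G M R X c hl]
    omega
  · intro X hX c hc hl h2
    rw [R4_crs G M R X c hl]
    have hcount := RS_count G M X c hc
    -- abbreviations
    have hcls4 : ∀ i ∈ X.image c, 4 ≤ (G.cut (X.filter (fun v => c v = i))).card := by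
      intro i hi
      obtain ⟨v, hv, hvi⟩ := Finset.mem_image.1 hi
      refine hb _ ⟨v, Finset.mem_filter.2 ⟨hv, hvi⟩⟩ ?_ (RS_class_nod G M X (hR.nod X hX) c hc _)
      intro h
      have h3 : X.image c ⊆ {i} := by
        intro j hj
        obtain ⟨u, hu, huj⟩ := Finset.mem_image.1 hj
        have h5 : u ∈ X.filter (fun v => c v = i) := by
          rw [h]
          exact Finset.mem_univ _
        rw [Finset.mem_singleton, ← huj]
        exact (Finset.mem_filter.1 h5).2
      have h5 := Finset.card_le_card h3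
      rw [Finset.card_singleton] at h5
      omega
    have hssub : ∀ i, X.filter (fun v => c v = i) ⊂ X := by
      intro i
      refine (Finset.filter_subset _ _).ssubset_of_ne (fun h => ?_)
      have h3 : X.image c ⊆ {i} := by
        intro j hj
        obtain ⟨v, hv, hvj⟩ := Finset.mem_image.1 hj
        rw [← h] at hv
        rw [Finset.mem_singleton, ← hvj]
        exact (Finset.mem_filter.1 hv).2
      have h5 := Finset.card_le_card h3
      rw [Finset.card_singleton] at h5
      omega
    let Gd' : Finset V := (X.image c).filter (fun i => ∃ N, Chd R X N ∧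
      N ⊆ X.filter (fun v => c v = i) ∧ 5 ≤ (G.cut N).card)
    -- good classes have at least five boundary edges
    have hgood : ∀ i ∈ Gd', G.s γ ∉ X.filter (fun v => c v = i) →
        5 ≤ (G.cut (X.filter (fun v => c v = i))).card := by
      intro i hi hγi
      obtain ⟨hi1, N, hN1, hN2, hN3⟩ := Finset.mem_filter.1 hi
      by_contra hcon
      have h5 : (G.cut (X.filter (fun v => c v = i))).card = 4 := by
        have := hcls4 i hi1
        omega
      obtain ⟨v, hv, hvi⟩ := Finset.mem_image.1 hi1
      have h6 := hmax (X.filter (fun v => c v = i)) ⟨v, Finset.mem_filter.2 ⟨hv, hvi⟩⟩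
        (RS_class_nod G M X (hR.nod X hX) c hc _) h5 hγi
        (fun Z hZ => R4_class_lam G M R hR hb h7 X hX c hc hl i Z hZ)
      have h8 : N ⊂ X.filter (fun v => c v = i) := hN2.ssubset_of_ne (fun h => by
        rw [h] at hN3
        omega)
      have h9 := hN1.2.2 _ h6 h8
      exact (hssub i).2 h9
    -- the crossing edges of E5
    have he5 : (crs G (E5 G M R X) c).card ≤
        ∑ i ∈ Gd', (G.cut (X.filter (fun v => c v = i))).card := by
      refine le_trans (Finset.card_le_card ?_) Finset.card_biUnion_le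
      intro e he
      unfold crs at he
      rw [Finset.mem_filter] at he
      obtain ⟨he1, he2⟩ := he
      unfold E5 at he1
      obtain ⟨he3, N, hN1, hN2, hN3⟩ := Finset.mem_filter.1 he1
      have hNc := R4_const_mem G M R hR hb h7 X c hc hl N hN1.1 hN1.2.1
      have hin : G.s e ∈ X ∧ G.t e ∈ X := by
        unfold own at he3
        have h5 := (Finset.mem_filter.1 he3).1
        unfold ins at h5
        exact (Finset.mem_filter.1 h5).2
      have hNsub : ∀ p ∈ N, N ⊆ X.filter (fun v => c v = c p) := fun p hp v hv =>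
        Finset.mem_filter.2 ⟨hN1.2.1.1 hv, hNc v hv p hp⟩
      have hmem : ∀ p ∈ N, c p ∈ Gd' := fun p hp => Finset.mem_filter.2
        ⟨Finset.mem_image_of_mem c (hN1.2.1.1 hp), N, hN1, hNsub p hp, hN3⟩
      rw [Finset.mem_biUnion]
      by_cases hs : G.s e ∈ N
      · refine ⟨c (G.s e), hmem _ hs, ?_⟩
        rw [MG.mem_cut]
        intro h
        exact he2 (Finset.mem_filter.1 (h.1 (Finset.mem_filter.2 ⟨hin.1, rfl⟩))).2.symm
      · have ht : G.t e ∈ N := by
          rw [MG.mem_cut] at hN2
          by_contra ht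
          exact hN2 (iff_of_false hs ht)
        refine ⟨c (G.t e), hmem _ ht, ?_⟩
        rw [MG.mem_cut]
        intro h
        exact he2 (Finset.mem_filter.1 (h.2 (Finset.mem_filter.2 ⟨hin.2, rfl⟩))).2
    have hGsub : Gd' ⊆ X.image c := Finset.filter_subset _ _
    -- the general estimate for a set of classes
    have hest : ∀ I ⊆ X.image c, (∀ i ∈ I, i ∈ Gd' → 5 ≤ (G.cut (X.filter (fun v => c v = i))).card) →
        ∑ i ∈ I.filter (fun i => i ∈ Gd'), (G.cut (X.filter (fun v => c v = i))).card
          + I.card * 20 ≤ 5 * ∑ i ∈ I, (G.cut (X.filter (fun v => c v = i))).card := by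
      intro I hI h5
      rw [Finset.sum_filter, Finset.card_eq_sum_ones, Finset.sum_mul, Finset.mul_sum,
        ← Finset.sum_add_distrib]
      refine Finset.sum_le_sum (fun i hi => ?_)
      have h6 := hcls4 i (hI hi)
      by_cases hg : i ∈ Gd'
      · rw [if_pos hg]
        have := h5 i hi hg
        omega
      · rw [if_neg hg]
        omega
    have hsum4 : ∀ I ⊆ X.image c, I.card * 4 ≤
        ∑ i ∈ I, (G.cut (X.filter (fun v => c v = i))).card := by
      intro I hI
      rw [← smul_eq_mul]
      exact Finset.card_nsmul_le_sum _ _ _ (fun i hi => hcls4 i (hI hi))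
    -- one special class
    have hspec : ∀ i₀ ∈ X.image c, (∀ i ∈ Gd', i ≠ i₀ →
          5 ≤ (G.cut (X.filter (fun v => c v = i))).card) →
        (crs G (E5 G M R X) c).card + ((X.image c).card - 1) * 20 +
          5 * (G.cut (X.filter (fun v => c v = i₀))).card ≤
        5 * (∑ i ∈ X.image c, (G.cut (X.filter (fun v => c v = i))).card)
          + (G.cut (X.filter (fun v => c v = i₀))).card ∧
        ((X.image c).card - 1) * 4 + (G.cut (X.filter (fun v => c v = i₀))).card ≤
          ∑ i ∈ X.image c, (G.cut (X.filter (fun v => c v = i))).card := by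
      intro i₀ hi₀ h5
      have h6 := hest ((X.image c).erase i₀) (Finset.erase_subset _ _)
        (fun i hi hg => h5 i hg (Finset.ne_of_mem_erase hi))
      have h8 := hsum4 ((X.image c).erase i₀) (Finset.erase_subset _ _)
      rw [Finset.card_erase_of_mem hi₀] at h6 h8
      have h9 := Finset.add_sum_erase (X.image c)
        (fun i => (G.cut (X.filter (fun v => c v = i))).card) hi₀
      have h10 : ∑ i ∈ Gd', (G.cut (X.filter (fun v => c v = i))).card ≤
          (G.cut (X.filter (fun v => c v = i₀))).card +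
            ∑ i ∈ ((X.image c).erase i₀).filter (fun i => i ∈ Gd'),
              (G.cut (X.filter (fun v => c v = i))).card := by
        have h11 : Gd' ⊆ insert i₀ (((X.image c).erase i₀).filter (fun i => i ∈ Gd')) := by
          intro i hi
          by_cases he : i = i₀
          · rw [he]
            exact Finset.mem_insert_self _ _
          · exact Finset.mem_insert_of_mem (Finset.mem_filter.2
              ⟨Finset.mem_erase.2 ⟨he, hGsub hi⟩, hi⟩)
        refine (Finset.sum_le_sum_of_subset h11).trans ?_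
        rw [Finset.sum_insert (fun h => (Finset.notMem_erase i₀ (X.image c))
          (Finset.mem_filter.1 h).1)]
      constructor <;> omega
    by_cases hXu : X = univ
    · -- the top
      have hi₀ : c (G.s γ) ∈ X.image c :=
        Finset.mem_image_of_mem c (by rw [hXu]; exact Finset.mem_univ _)
      obtain ⟨h5, h6⟩ := hspec (c (G.s γ)) hi₀ (fun i hi hne => hgood i hi (fun h =>
        hne (Finset.mem_filter.1 h).2.symm))
      have h8 := hcls4 _ hi₀
      have h9 : (G.cut X).card = 0 := by
        rw [hXu]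
        exact hcu
      omega
    · by_cases hX0 : X ∈ R₀
      · have hrep := hS.rep X hX0 hXu
        have hi₀ : c (G.s (g X)) ∈ X.image c := Finset.mem_image_of_mem c hrep.2.1
        obtain ⟨h5, h6⟩ := hspec (c (G.s (g X))) hi₀ (fun i hi hne => hgood i hi (fun h => by
          have h8 := RSrep_unique G M w γ (g X) X (RSrep_mono G M w γ _ _ hγ
            (Finset.subset_univ _) (Finset.mem_filter.1 h).1) hrep
          rw [h8] at h
          exact hne (Finset.mem_filter.1 h).2.symm))
        have h8 := hS.mincut X hX0 hXu _ (hssub (c (G.s (g X))))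
          (Finset.mem_filter.2 ⟨hrep.2.1, rfl⟩) (RS_class_nod G M X (hR.nod X hX) c hc _)
        have h9 := h7 X hX hXu
        omega
      · obtain ⟨h5, h6⟩ := hR4 X hX hX0
        have h8 := hest (X.image c) (le_refl _) (fun i _ hg => hgood i hg (fun h =>
          h6 (Finset.mem_filter.1 h).1))
        have h9 := hsum4 (X.image c) (le_refl _)
        have h10 : (X.image c).filter (fun i => i ∈ Gd') = Gd' := by
          ext i
          rw [Finset.mem_filter]
          exact ⟨fun h => h.2, fun h => ⟨hGsub h, h⟩⟩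
        rw [h10] at h8
        omega

end Pool.Agent.Lib.MP_95e9b3_coG
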