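import Pool.Agent.Lib.MP_95e9b3_coG.BCost

/-!
# Route G, block R3: the universal inequality

`M` with `F = univ \ M` even, `x` a flow which is nonzero on `M`, `a ≠ 0`. The edges of `M` of
value `a` are the set `Ja`. For an even set `Z` disjoint from `Ja`, the flow `x + a 1_Z` is again
nonzero on `M`. Averaging over all these `Z` gives a cover whose weight is controlled by the
classes of the relation `Eqv` on the components of `F`.
-/

set_option autoImplicit false

namespace Pool.Agent.Lib.MP_95e9b3_coG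

open Finset Pool.Agent.Lib.MP_95e9b3_coC
open scoped symmDiff

variable {V E : Type} [Fintype V] [DecidableEq V] [Fintype E] [DecidableEq E]

/-- the edges outside `{e ∈ M | x e = a}` -/
def Av (M : Finset E) (x : E → K4) (a : K4) : Finset E :=
  univ.filter (fun e => ¬ (e ∈ M ∧ x e = a))

theorem mem_Av (M : Finset E) (x : E → K4) (a : K4) (e : E) :
    e ∈ Av M x a ↔ ¬ (e ∈ M ∧ x e = a) := by
  unfold Av
  rw [Finset.mem_filter]
  exact ⟨fun h => h.2, fun h => ⟨Finset.mem_univ e, h⟩⟩

/-- no even subset of `A` separates `f` and `g` -/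
def Eqv (G : MG V E) (A : Finset E) (f g : E) : Prop :=
  ∀ Z : Finset E, Z ⊆ A → G.Ev Z → (f ∈ Z ↔ g ∈ Z)

theorem Eqv_refl (G : MG V E) (A : Finset E) (f : E) : Eqv G A f f := fun _ _ _ => Iff.rfl

theorem Eqv_symm (G : MG V E) (A : Finset E) (f g : E) (h : Eqv G A f g) : Eqv G A g f :=
  fun Z hZ hE => (h Z hZ hE).symm

theorem Eqv_trans (G : MG V E) (A : Finset E) (f g h : E) (h1 : Eqv G A f g) (h2 : Eqv G A g h) :
    Eqv G A f h := fun Z hZ hE => (h1 Z hZ hE).trans (h2 Z hZ hE)

/-- U2 (a): classes and 2-cuts -/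
theorem Eqv_of_cut (G : MG V E) (A : Finset E) (f g : E) (U : Finset V)
    (h : A ∩ G.cut U = {f, g}) : Eqv G A f g := by
  intro Z hZ hE
  have h1 := MG.Ev_cut G Z hE U
  have hmem : ∀ e, e ∈ Z ∩ G.cut U → e = f ∨ e = g := by
    intro e he
    rw [Finset.mem_inter] at he
    have h2 : e ∈ A ∩ G.cut U := Finset.mem_inter.2 ⟨hZ he.1, he.2⟩
    rw [h, Finset.mem_insert, Finset.mem_singleton] at h2
    exact h2
  have hf : f ∈ G.cut U := by
    have h2 : f ∈ A ∩ G.cut U := by rw [h]; exact Finset.mem_insert_self _ _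
    exact (Finset.mem_inter.1 h2).2
  have hg : g ∈ G.cut U := by
    have h2 : g ∈ A ∩ G.cut U := by
      rw [h]; exact Finset.mem_insert_of_mem (Finset.mem_singleton_self _)
    exact (Finset.mem_inter.1 h2).2
  by_cases hfg : f = g
  · rw [hfg]
  constructor
  · intro hfZ
    by_contra hgZ
    have h3 : Z ∩ G.cut U = {f} := by
      ext e
      rw [Finset.mem_singleton]
      constructor
      · intro he
        rcases hmem e he with h4 | h4
        · exact h4
        · rw [h4] at he
          exact absurd (Finset.mem_inter.1 he).1 hgZ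
      · intro he
        rw [he]
        exact Finset.mem_inter.2 ⟨hfZ, hf⟩
    rw [h3, Finset.card_singleton] at h1
    exact absurd h1 (by decide)
  · intro hgZ
    by_contra hfZ
    have h3 : Z ∩ G.cut U = {g} := by
      ext e
      rw [Finset.mem_singleton]
      constructor
      · intro he
        rcases hmem e he with h4 | h4
        · rw [h4] at he
          exact absurd (Finset.mem_inter.1 he).1 hfZ
        · exact h4
      · intro he
        rw [he]
        exact Finset.mem_inter.2 ⟨hgZ, hg⟩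
    rw [h3, Finset.card_singleton] at h1
    exact absurd h1 (by decide)

/-- U2 (a): classes and 2-cuts; `F ⊆ A` even, `f, g ∈ F` -/
theorem cut_of_Eqv (G : MG V E) (A F : Finset E) (hFA : F ⊆ A) (hF : G.Ev F) (f g : E)
    (hg : g ∈ F) (hfg : f ≠ g) (h : Eqv G A f g) :
    ∃ U : Finset V, A ∩ G.cut U = {f, g} := by
  classical
  by_contra hno
  rw [not_exists] at hno
  obtain ⟨J, hJ, hJS⟩ := MG.join_exists G (A \ {f, g}) {g} (by
    intro U hU
    by_cases hgU : g ∈ G.cut U
    · exfalso
      apply hno U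
      have h1 : ∀ e, e ∈ A ∩ G.cut U → e = f ∨ e = g := by
        intro e he
        rw [Finset.mem_inter] at he
        by_contra hc
        rw [not_or] at hc
        have h2 : e ∈ (A \ {f, g}) ∩ G.cut U := by
          rw [Finset.mem_inter, Finset.mem_sdiff, Finset.mem_insert, Finset.mem_singleton, not_or]
          exact ⟨⟨he.1, hc⟩, he.2⟩
        rw [hU] at h2
        exact absurd h2 (Finset.notMem_empty e)
      have hfF : f ∈ F ∩ G.cut U := by
        by_contra hc
        have h3 := MG.Ev_cut G F hF U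
        have h4 : F ∩ G.cut U = {g} := by
          ext e
          rw [Finset.mem_singleton]
          constructor
          · intro he
            rw [Finset.mem_inter] at he
            rcases h1 e (Finset.mem_inter.2 ⟨hFA he.1, he.2⟩) with h5 | h5
            · rw [h5] at he
              exact absurd (Finset.mem_inter.2 he) hc
            · exact h5
          · intro he
            rw [he]
            exact Finset.mem_inter.2 ⟨hg, hgU⟩
        rw [h4, Finset.card_singleton] at h3
        exact absurd h3 (by decide)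
      rw [Finset.mem_inter] at hfF
      ext e
      rw [Finset.mem_insert, Finset.mem_singleton]
      constructor
      · exact h1 e
      · rintro (he | he)
        · rw [he]
          exact Finset.mem_inter.2 ⟨hFA hfF.1, hfF.2⟩
        · rw [he]
          exact Finset.mem_inter.2 ⟨hFA hg, hgU⟩
    · have h1 : ({g} : Finset E) ∩ G.cut U = ∅ := by
        rw [Finset.singleton_inter_of_notMem hgU]
      rw [h1, Finset.card_empty]
      exact Even.zero)
  have hZ : G.Ev (J ∆ {g}) := (MG.Sim_iff G _ _).1 hJS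
  have hZA : J ∆ {g} ⊆ A := by
    intro e he
    rw [Finset.mem_symmDiff, Finset.mem_singleton] at he
    rcases he with he | he
    · exact (Finset.mem_sdiff.1 (hJ he.1)).1
    · rw [he.1]
      exact hFA hg
  have h2 := h _ hZA hZ
  have hgJ : g ∉ J := fun h3 => by
    have h4 := (Finset.mem_sdiff.1 (hJ h3)).2
    exact h4 (Finset.mem_insert_of_mem (Finset.mem_singleton_self _))
  have hfJ : f ∉ J := fun h3 => by
    have h4 := (Finset.mem_sdiff.1 (hJ h3)).2
    exact h4 (Finset.mem_insert_self _ _)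
  have h5 : g ∈ J ∆ {g} := by
    rw [Finset.mem_symmDiff]
    exact Or.inr ⟨Finset.mem_singleton_self _, hgJ⟩
  have h6 := h2.2 h5
  rw [Finset.mem_symmDiff, Finset.mem_singleton] at h6
  rcases h6 with h6 | h6
  · exact hfJ h6.1
  · exact hfg h6.1

private theorem K4_two (z : K4) : z + z = 0 := by
  revert z
  decide

private theorem K4_smul (n : ℕ) (a : K4) : n • a = 0 ∨ n • a = a := by
  induction n with
  | zero => left; exact zero_smul _ _
  | succ n ih =>
    rw [succ_nsmul]
    rcases ih with h | h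
    · right; rw [h, zero_add]
    · left; rw [h, K4_two]

/-- U2 (b): two equivalent edges have equal values or values differing by `a` -/
theorem Eqv_val (G : MG V E) (M : Finset E) (x : E → K4) (hx : G.Fl x) (a : K4)
    (hF : G.Ev (univ \ M)) (f g : E) (hg : g ∉ M) (h : Eqv G (Av M x a) f g) :
    x f = x g ∨ x f = x g + a := by
  classical
  by_cases hfg : f = g
  · left; rw [hfg]
  have hFA : univ \ M ⊆ Av M x a := by
    intro e he
    rw [Finset.mem_sdiff] at he
    rw [mem_Av]
    exact fun h1 => he.2 h1.1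
  obtain ⟨U, hU⟩ := cut_of_Eqv G (Av M x a) (univ \ M) hFA hF f g
    (Finset.mem_sdiff.2 ⟨Finset.mem_univ _, hg⟩) hfg h
  have h1 := MG.Fl_cut G x hx U
  have h2 : G.cut U = (Av M x a ∩ G.cut U) ∪ (G.cut U \ Av M x a) := by
    ext e
    rw [Finset.mem_union, Finset.mem_inter, Finset.mem_sdiff]
    tauto
  have h3 : Disjoint (Av M x a ∩ G.cut U) (G.cut U \ Av M x a) := by
    rw [Finset.disjoint_left]
    intro e he he'
    exact (Finset.mem_sdiff.1 he').2 (Finset.mem_inter.1 he).1
  rw [h2, Finset.sum_union h3, hU, Finset.sum_pair hfg] at h1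
  have h4 : ∑ e ∈ G.cut U \ Av M x a, x e = (G.cut U \ Av M x a).card • a := by
    rw [Finset.sum_congr rfl (g := fun _ => a), Finset.sum_const]
    intro e he
    have h5 := (Finset.mem_sdiff.1 he).2
    rw [mem_Av, not_not] at h5
    exact h5.2
  rw [h4] at h1
  rcases K4_smul (G.cut U \ Av M x a).card a with h5 | h5
  · left
    rw [h5, add_zero] at h1
    calc x f = x f + (x g + x g) := by rw [K4_two, add_zero]
      _ = (x f + x g) + x g := by rw [add_assoc]
      _ = x g := by rw [h1, zero_add]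
  · right
    rw [h5] at h1
    calc x f = (x f + x g + a) + (x g + a) := by
          have h6 : (x f + x g + a) + (x g + a) = x f + ((x g + x g) + (a + a)) := by abel
          rw [h6, K4_two, K4_two, add_zero, add_zero]
      _ = x g + a := by rw [h1, zero_add]

/-- U2 (c): classes do not cross. `{f1, f2}` and `{e1, e2}` are 2-cuts of `A` with sides `U`, `U'`;
if `e1` is inside `U` and `e2` is outside `U` then all four edges are in one class. -/
theorem Eqv_cross (G : MG V E) (A F : Finset E) (hFA : F ⊆ A) (hF : G.Ev F) (f1 f2 e1 e2 : E)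
    (he1F : e1 ∈ F) (U U' : Finset V)
    (hU : A ∩ G.cut U = {f1, f2}) (hU' : A ∩ G.cut U' = {e1, e2})
    (h1 : G.s e1 ∈ U) (h2 : G.s e2 ∉ U) (he1 : e1 ∉ G.cut U) (he2 : e2 ∉ G.cut U) :
    Eqv G A f1 e1 ∨ Eqv G A f2 e1 := by
  classical
  -- the edges of `A` in the cut of `U \ U'`
  have key : ∀ W : Finset V, W = U ∩ U' ∨ W = U \ U' → ∀ e ∈ A, e ∈ G.cut W →
      e = f1 ∨ e = f2 ∨ e = e1 := by
    intro W hW e heA he
    have h3 : e ∈ G.cut U ∨ e ∈ G.cut U' := by
      by_contra hc
      rw [not_or, MG.mem_cut, MG.mem_cut, not_not, not_not] at hc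
      rw [MG.mem_cut] at he
      apply he
      rcases hW with hW | hW
      · rw [hW, Finset.mem_inter, Finset.mem_inter, hc.1, hc.2]
      · rw [hW, Finset.mem_sdiff, Finset.mem_sdiff, hc.1, hc.2]
    rcases h3 with h3 | h3
    · have h4 : e ∈ A ∩ G.cut U := Finset.mem_inter.2 ⟨heA, h3⟩
      rw [hU, Finset.mem_insert, Finset.mem_singleton] at h4
      rcases h4 with h4 | h4
      · exact Or.inl h4
      · exact Or.inr (Or.inl h4)
    · have h4 : e ∈ A ∩ G.cut U' := Finset.mem_inter.2 ⟨heA, h3⟩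
      rw [hU', Finset.mem_insert, Finset.mem_singleton] at h4
      rcases h4 with h4 | h4
      · exact Or.inr (Or.inr h4)
      · exfalso
        rw [h4, MG.mem_cut] at he
        rw [MG.mem_cut, not_not] at he2
        have h5 : G.t e2 ∉ U := fun h6 => h2 (he2.2 h6)
        apply he
        rcases hW with hW | hW
        · rw [hW, Finset.mem_inter, Finset.mem_inter]
          exact ⟨fun h6 => absurd h6.1 h2, fun h6 => absurd h6.1 h5⟩
        · rw [hW, Finset.mem_sdiff, Finset.mem_sdiff]
          exact ⟨fun h6 => absurd h6.1 h2, fun h6 => absurd h6.1 h5⟩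
  have he1A : e1 ∈ A := hFA he1F
  have hc1 : e1 ∈ G.cut U' := by
    have h4 : e1 ∈ A ∩ G.cut U' := by rw [hU']; exact Finset.mem_insert_self _ _
    exact (Finset.mem_inter.1 h4).2
  have ht1 : G.t e1 ∈ U := by
    rw [MG.mem_cut, not_not] at he1
    exact he1.1 h1
  have hin : e1 ∈ G.cut (U ∩ U') := by
    rw [MG.mem_cut] at hc1 ⊢
    rw [Finset.mem_inter, Finset.mem_inter]
    intro h5
    exact hc1 ⟨fun h6 => (h5.1 ⟨h1, h6⟩).2, fun h6 => (h5.2 ⟨ht1, h6⟩).2⟩
  have hout : e1 ∈ G.cut (U \ U') := by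
    rw [MG.mem_cut] at hc1 ⊢
    rw [Finset.mem_sdiff, Finset.mem_sdiff]
    intro h5
    apply hc1
    constructor
    · intro h6
      by_contra h7
      exact (h5.2 ⟨ht1, h7⟩).2 h6
    · intro h6
      by_contra h7
      exact (h5.1 ⟨h1, h7⟩).2 h6
  -- the cut of `U ∩ U'` contains exactly one of `f1`, `f2`
  by_contra hno
  rw [not_or] at hno
  have hf12 : ∀ W : Finset V, W = U ∩ U' ∨ W = U \ U' → e1 ∈ G.cut W →
      (f1 ∈ G.cut W ∧ f2 ∈ G.cut W) := by
    intro W hW heW
    have hA1 : f1 ∈ A := by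
      have h4 : f1 ∈ A ∩ G.cut U := by rw [hU]; exact Finset.mem_insert_self _ _
      exact (Finset.mem_inter.1 h4).1
    have hA2 : f2 ∈ A := by
      have h4 : f2 ∈ A ∩ G.cut U := by
        rw [hU]; exact Finset.mem_insert_of_mem (Finset.mem_singleton_self _)
      exact (Finset.mem_inter.1 h4).1
    by_cases c1 : f1 ∈ G.cut W
    · by_cases c2 : f2 ∈ G.cut W
      · exact ⟨c1, c2⟩
      · exfalso
        apply hno.1
        refine Eqv_of_cut G A f1 e1 W ?_
        ext e
        rw [Finset.mem_inter, Finset.mem_insert, Finset.mem_singleton]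
        constructor
        · rintro ⟨h5, h6⟩
          rcases key W hW e h5 h6 with h7 | h7 | h7
          · exact Or.inl h7
          · rw [h7] at h6
            exact absurd h6 c2
          · exact Or.inr h7
        · rintro (h7 | h7)
          · rw [h7]; exact ⟨hA1, c1⟩
          · rw [h7]; exact ⟨he1A, heW⟩
    · exfalso
      by_cases c2 : f2 ∈ G.cut W
      · apply hno.2
        refine Eqv_of_cut G A f2 e1 W ?_
        ext e
        rw [Finset.mem_inter, Finset.mem_insert, Finset.mem_singleton]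
        constructor
        · rintro ⟨h5, h6⟩
          rcases key W hW e h5 h6 with h7 | h7 | h7
          · rw [h7] at h6
            exact absurd h6 c1
          · exact Or.inl h7
          · exact Or.inr h7
        · rintro (h7 | h7)
          · rw [h7]; exact ⟨hA2, c2⟩
          · rw [h7]; exact ⟨he1A, heW⟩
      · have h8 := MG.Ev_cut G F hF W
        have h9 : F ∩ G.cut W = {e1} := by
          ext e
          rw [Finset.mem_inter, Finset.mem_singleton]
          constructor
          · rintro ⟨h5, h6⟩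
            rcases key W hW e (hFA h5) h6 with h7 | h7 | h7
            · rw [h7] at h6
              exact absurd h6 c1
            · rw [h7] at h6
              exact absurd h6 c2
            · exact h7
          · intro h7
            rw [h7]
            exact ⟨he1F, heW⟩
        rw [h9, Finset.card_singleton] at h8
        exact absurd h8 (by decide)
  obtain ⟨a1, -⟩ := hf12 _ (Or.inl rfl) hin
  obtain ⟨b1, -⟩ := hf12 _ (Or.inr rfl) hout
  -- `f1` is in the cuts of `U`, `U ∩ U'`, `U \ U'`: impossible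
  have h10 : f1 ∈ G.cut U := by
    have h4 : f1 ∈ A ∩ G.cut U := by rw [hU]; exact Finset.mem_insert_self _ _
    exact (Finset.mem_inter.1 h4).2
  rw [MG.mem_cut, Finset.mem_inter, Finset.mem_inter] at a1
  rw [MG.mem_cut, Finset.mem_sdiff, Finset.mem_sdiff] at b1
  rw [MG.mem_cut] at h10
  by_cases d1 : G.s f1 ∈ U
  · have d2 : G.t f1 ∉ U := fun h => h10 ⟨fun _ => h, fun _ => d1⟩
    by_cases d3 : G.s f1 ∈ U'
    · exact b1 ⟨fun h => absurd d3 h.2, fun h => absurd h.1 d2⟩
    · exact a1 ⟨fun h => absurd h.2 d3, fun h => absurd h.1 d2⟩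
  · have d2 : G.t f1 ∈ U := by
      by_contra h
      exact h10 ⟨fun h' => absurd h' d1, fun h' => absurd h' h⟩
    by_cases d3 : G.t f1 ∈ U'
    · exact b1 ⟨fun h => absurd h.1 d1, fun h => absurd d3 h.2⟩
    · exact a1 ⟨fun h => absurd h.1 d1, fun h => absurd h.2 d3⟩

/-- the sign of an element of `ZMod 2` -/
def sq (z : ZMod 2) : ℚ := if z = 0 then 1 else -1

theorem sq_add (a b : ZMod 2) : sq (a + b) = sq a * sq b := by
  have h : ∀ a b : ZMod 2, (a = 0 ∧ b = 0 ∧ a + b = 0) ∨ (a = 0 ∧ b ≠ 0 ∧ a + b ≠ 0) ∨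
      (a ≠ 0 ∧ b = 0 ∧ a + b ≠ 0) ∨ (a ≠ 0 ∧ b ≠ 0 ∧ a + b = 0) := by decide
  rcases h a b with ⟨h1, h2, h3⟩ | ⟨h1, h2, h3⟩ | ⟨h1, h2, h3⟩ | ⟨h1, h2, h3⟩
  · rw [sq, sq, sq, if_pos h1, if_pos h2, if_pos h3]; norm_num
  · rw [sq, sq, sq, if_pos h1, if_neg h2, if_neg h3]; norm_num
  · rw [sq, sq, sq, if_neg h1, if_pos h2, if_neg h3]; norm_num
  · rw [sq, sq, sq, if_neg h1, if_neg h2, if_pos h3]; norm_num

theorem sq_abs (a : ZMod 2) : |sq a| = 1 := by
  unfold sq
  split_ifs
  · exact abs_one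
  · rw [abs_neg, abs_one]

/-- linear forms on the Klein four group -/
def bf (b z : K4) : ZMod 2 := b.1 * z.1 + b.2 * z.2

theorem bf_add (b z z' : K4) : bf b (z + z') = bf b z + bf b z' := by
  revert b z z'
  decide

private theorem bf_ex : ∀ a : K4, a ≠ 0 → ∃ b : K4, b ≠ 0 ∧ bf b a = 1 := by
  decide

private theorem bf_four : ∀ b : K4, b ≠ 0 → ∃ s1 s2 t1 t2 : K4, s1 ≠ s2 ∧ t1 ≠ t2 ∧
    s1 ≠ t1 ∧ s1 ≠ t2 ∧ s2 ≠ t1 ∧ s2 ≠ t2 ∧
    bf b s1 = 0 ∧ bf b s2 = 0 ∧ bf b t1 = 1 ∧ bf b t2 = 1 ∧
    ∀ z, z = s1 ∨ z = s2 ∨ z = t1 ∨ z = t2 := by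
  intro b hb
  have h : ∀ b : K4, b ≠ 0 → b = (1, 0) ∨ b = (0, 1) ∨ b = (1, 1) := by decide
  rcases h b hb with rfl | rfl | rfl
  · exact ⟨(0, 0), (0, 1), (1, 0), (1, 1), by decide, by decide, by decide, by decide, by decide,
      by decide, by decide, by decide, by decide, by decide, by decide⟩
  · exact ⟨(0, 0), (1, 0), (0, 1), (1, 1), by decide, by decide, by decide, by decide, by decide,
      by decide, by decide, by decide, by decide, by decide, by decide⟩
  · exact ⟨(0, 0), (1, 1), (0, 1), (1, 0), by decide, by decide, by decide, by decide, by decide,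
      by decide, by decide, by decide, by decide, by decide, by decide⟩

omit [Fintype V] [DecidableEq V] [Fintype E] [DecidableEq E] in
/-- the lightest of the four states of a circuit -/
theorem best_state (w : E → ℕ) (C : Finset E) (y : E → K4) (b : K4) (hb : b ≠ 0) :
    ∃ s : K4, 4 * ∑ e ∈ C.filter (fun e => y e = s), (w e : ℚ) ≤
      (∑ e ∈ C, (w e : ℚ)) - |∑ e ∈ C, (w e : ℚ) * sq (bf b (y e))| := by
  classical
  obtain ⟨s1, s2, t1, t2, h1, h2, h3, h4, h5, h6, v1, v2, v3, v4, hall⟩ := bf_four b hb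
  have e1 : (∑ e ∈ C, (w e : ℚ)) = (∑ e ∈ C.filter (fun e => y e = s1), (w e : ℚ))
      + (∑ e ∈ C.filter (fun e => y e = s2), (w e : ℚ))
      + (∑ e ∈ C.filter (fun e => y e = t1), (w e : ℚ))
      + (∑ e ∈ C.filter (fun e => y e = t2), (w e : ℚ)) := by
    rw [Finset.sum_filter, Finset.sum_filter, Finset.sum_filter, Finset.sum_filter,
      ← Finset.sum_add_distrib, ← Finset.sum_add_distrib, ← Finset.sum_add_distrib]
    refine Finset.sum_congr rfl fun e _ => ?_
    rcases hall (y e) with h | h | h | h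
    · rw [h, if_pos rfl, if_neg h1, if_neg h3, if_neg h4]; ring
    · rw [h, if_neg h1.symm, if_pos rfl, if_neg h5, if_neg h6]; ring
    · rw [h, if_neg h3.symm, if_neg h5.symm, if_pos rfl, if_neg h2]; ring
    · rw [h, if_neg h4.symm, if_neg h6.symm, if_neg h2.symm, if_pos rfl]; ring
  have e2 : (∑ e ∈ C, (w e : ℚ) * sq (bf b (y e))) =
      (∑ e ∈ C.filter (fun e => y e = s1), (w e : ℚ))
      + (∑ e ∈ C.filter (fun e => y e = s2), (w e : ℚ))
      - (∑ e ∈ C.filter (fun e => y e = t1), (w e : ℚ))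
      - (∑ e ∈ C.filter (fun e => y e = t2), (w e : ℚ)) := by
    rw [Finset.sum_filter, Finset.sum_filter, Finset.sum_filter, Finset.sum_filter,
      ← Finset.sum_add_distrib, ← Finset.sum_sub_distrib, ← Finset.sum_sub_distrib]
    refine Finset.sum_congr rfl fun e _ => ?_
    have q0 : sq 0 = 1 := by rw [sq, if_pos rfl]
    have q1 : sq 1 = -1 := by rw [sq, if_neg (by decide)]
    rcases hall (y e) with h | h | h | h
    · rw [h, if_pos rfl, if_neg h1, if_neg h3, if_neg h4, v1, q0]; ring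
    · rw [h, if_neg h1.symm, if_pos rfl, if_neg h5, if_neg h6, v2, q0]; ring
    · rw [h, if_neg h3.symm, if_neg h5.symm, if_pos rfl, if_neg h2, v3, q1]; ring
    · rw [h, if_neg h4.symm, if_neg h6.symm, if_neg h2.symm, if_pos rfl, v4, q1]; ring
  obtain ⟨A1, hA1⟩ : ∃ A : ℚ, A = ∑ e ∈ C.filter (fun e => y e = s1), (w e : ℚ) := ⟨_, rfl⟩
  obtain ⟨A2, hA2⟩ : ∃ A : ℚ, A = ∑ e ∈ C.filter (fun e => y e = s2), (w e : ℚ) := ⟨_, rfl⟩
  obtain ⟨A3, hA3⟩ : ∃ A : ℚ, A = ∑ e ∈ C.filter (fun e => y e = t1), (w e : ℚ) := ⟨_, rfl⟩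
  obtain ⟨A4, hA4⟩ : ∃ A : ℚ, A = ∑ e ∈ C.filter (fun e => y e = t2), (w e : ℚ) := ⟨_, rfl⟩
  rw [e1, e2, ← hA1, ← hA2, ← hA3, ← hA4]
  rcases le_total 0 (A1 + A2 - A3 - A4) with h | h
  · rw [abs_of_nonneg h]
    rcases le_total A3 A4 with h' | h'
    · exact ⟨t1, by rw [← hA3]; linarith⟩
    · exact ⟨t2, by rw [← hA4]; linarith⟩
  · rw [abs_of_nonpos h]
    rcases le_total A1 A2 with h' | h'
    · exact ⟨s1, by rw [← hA1]; linarith⟩
    · exact ⟨s2, by rw [← hA2]; linarith⟩

/-- adding a constant on every component of an even set -/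
theorem Fl_shift (G : MG V E) (F : Finset E) (hF : G.Ev F) (y : E → K4) (hy : G.Fl y)
    (σ : V → K4) (hσ : ∀ e ∈ F, σ (G.s e) = σ (G.t e)) :
    G.Fl (fun e => y e + if e ∈ F then σ (G.s e) else 0) := by
  refine MG.Fl_add G y _ hy ?_
  intro v
  have h1 : ∀ e, G.inc e v • (if e ∈ F then σ (G.s e) else 0) =
      if e ∈ F then G.inc e v • σ v else 0 := by
    intro e
    by_cases he : e ∈ F
    · rw [if_pos he, if_pos he]
      unfold MG.inc
      by_cases h2 : G.s e = v
      · rw [h2]
      · by_cases h3 : G.t e = v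
        · rw [hσ e he, h3]
        · rw [if_neg h2, if_neg h3, add_zero, zero_smul, zero_smul]
    · rw [if_neg he, if_neg he, smul_zero]
  rw [Finset.sum_congr rfl fun e _ => h1 e, Finset.sum_ite_mem, Finset.univ_inter,
    ← Finset.sum_smul]
  have h2 : ∑ e ∈ F, G.inc e v = G.dg F v := rfl
  rw [h2]
  obtain ⟨m, hm⟩ := hF v
  rw [hm, add_smul, K4_two]

theorem ce_eq_of_Rch (G : MG V E) (F : Finset E) (a b : V) (h : G.Rch F a b) :
    G.ce F a = G.ce F b := by
  classical
  unfold MG.ce
  refine Finset.filter_congr fun e _ => ?_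
  exact ⟨fun h1 => MG.Rch_trans G F _ _ _ (MG.Rch_symm G F _ _ h) h1,
    fun h1 => MG.Rch_trans G F _ _ _ h h1⟩

theorem mem_ce (G : MG V E) (F : Finset E) (a : V) (e : E) :
    e ∈ G.ce F a ↔ e ∈ F ∧ G.Rch F a (G.s e) := by
  classical
  unfold MG.ce
  rw [Finset.mem_filter]

theorem ce_iff (G : MG V E) (F : Finset E) (e g : E) :
    (e ∈ F ∧ G.ce F (G.s e) = G.ce F (G.s g)) ↔ e ∈ G.ce F (G.s g) := by
  constructor
  · rintro ⟨h1, h2⟩
    rw [← h2, mem_ce]
    exact ⟨h1, MG.Rch_refl G F _⟩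
  · intro h
    rw [mem_ce] at h
    exact ⟨h.1, (ce_eq_of_Rch G F _ _ h.2).symm⟩

/-- covers from a flow, with the best constant added on every component of `F` -/
theorem Cov_shift (G : MG V E) (w : E → ℕ) (M : Finset E) (hF : G.Ev (univ \ M)) (y : E → K4)
    (hy : G.Fl y) (hnz : ∀ e ∈ M, y e ≠ 0) (b : K4) (hb : b ≠ 0) :
    G.Cov w (3 / 2 * (∑ e, (w e : ℚ)) + 1 / 2 * (∑ e ∈ M, (w e : ℚ))
      - 1 / 2 * ∑ C ∈ (univ \ M).image (fun e => G.ce (univ \ M) (G.s e)),
        |∑ e ∈ C, (w e : ℚ) * sq (bf b (y e))|) := by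
  classical
  choose σ hσ using fun C => best_state w C y b hb
  obtain ⟨F, hFd⟩ : ∃ F : Finset E, F = univ \ M := ⟨_, rfl⟩
  rw [← hFd] at hF
  have hFl := Fl_shift G F hF y hy (fun v => σ (G.ce F v)) (by
    intro e he
    show σ (G.ce F (G.s e)) = σ (G.ce F (G.t e))
    rw [ce_eq_of_Rch G F _ _ (MG.Rch_edge G F e he)])
  have hMF : ∀ e ∈ M, e ∉ F := by
    intro e he h
    rw [hFd, Finset.mem_sdiff] at h
    exact h.2 he
  have h1 := costZ G w M (by rw [← hFd]; exact hF) _ hFl (by
    intro e he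
    show y e + (if e ∈ F then σ (G.ce F (G.s e)) else 0) ≠ 0
    rw [if_neg (hMF e he), add_zero]
    exact hnz e he)
  rw [← hFd] at h1 ⊢
  obtain ⟨L, hL1, hL2, hL3⟩ := h1
  refine ⟨L, hL1, hL2, le_trans hL3 ?_⟩
  have hb1 := bcost_total w M
  rw [← hFd] at hb1
  -- the zero edges
  have h2 : (∑ e ∈ F.filter (fun e => y e + (if e ∈ F then σ (G.ce F (G.s e)) else 0) = 0),
      (w e : ℚ)) = ∑ C ∈ F.image (fun e => G.ce F (G.s e)),
        ∑ e ∈ C.filter (fun e => y e = σ C), (w e : ℚ) := by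
    rw [← Finset.sum_fiberwise_of_maps_to (s := F.filter _)
      (t := F.image (fun e => G.ce F (G.s e))) (g := fun e => G.ce F (G.s e)) (by
        intro e he
        exact Finset.mem_image_of_mem _ (Finset.mem_filter.1 he).1)]
    refine Finset.sum_congr rfl fun C hC => ?_
    rw [Finset.mem_image] at hC
    obtain ⟨g, hg, rfl⟩ := hC
    refine Finset.sum_congr ?_ fun _ _ => rfl
    ext e
    rw [Finset.mem_filter, Finset.mem_filter, Finset.mem_filter]
    constructor
    · rintro ⟨⟨h3, h4⟩, h5⟩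
      refine ⟨(ce_iff G F e g).1 ⟨h3, h5⟩, ?_⟩
      rw [if_pos h3, h5] at h4
      calc y e = y e + (σ (G.ce F (G.s g)) + σ (G.ce F (G.s g))) := by rw [K4_two, add_zero]
        _ = (y e + σ (G.ce F (G.s g))) + σ (G.ce F (G.s g)) := by rw [add_assoc]
        _ = σ (G.ce F (G.s g)) := by rw [h4, zero_add]
    · rintro ⟨h3, h4⟩
      obtain ⟨h5, h6⟩ := (ce_iff G F e g).2 h3
      refine ⟨⟨h5, ?_⟩, h6⟩
      rw [if_pos h5, h6, h4, K4_two]
  have h3 : (∑ e ∈ F, (w e : ℚ)) = ∑ C ∈ F.image (fun e => G.ce F (G.s e)), ∑ e ∈ C, (w e : ℚ) := by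
    rw [← Finset.sum_fiberwise_of_maps_to (s := F)
      (t := F.image (fun e => G.ce F (G.s e))) (g := fun e => G.ce F (G.s e)) (by
        intro e he
        exact Finset.mem_image_of_mem _ he)]
    refine Finset.sum_congr rfl fun C hC => ?_
    rw [Finset.mem_image] at hC
    obtain ⟨g, hg, rfl⟩ := hC
    refine Finset.sum_congr ?_ fun _ _ => rfl
    ext e
    rw [Finset.mem_filter]
    exact ce_iff G F e g
  have h4 : 4 * (∑ C ∈ F.image (fun e => G.ce F (G.s e)),
      ∑ e ∈ C.filter (fun e => y e = σ C), (w e : ℚ)) ≤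
      ∑ C ∈ F.image (fun e => G.ce F (G.s e)), ((∑ e ∈ C, (w e : ℚ))
        - |∑ e ∈ C, (w e : ℚ) * sq (bf b (y e))|) := by
    rw [Finset.mul_sum]
    exact Finset.sum_le_sum fun C _ => hσ C
  rw [Finset.sum_sub_distrib, ← h3] at h4
  rw [h2]
  linarith

/-- U1: the universal inequality -/
theorem univ_ineq (G : MG V E) (w : E → ℕ) (M : Finset E) (hF : G.Ev (univ \ M)) (x : E → K4)
    (hx : G.Fl x) (hnz : ∀ e ∈ M, x e ≠ 0) (a : K4) (ha : a ≠ 0) (P : Finset E)
    (hPM : ∀ g ∈ P, g ∉ M)
    (hP : ∀ g ∈ P, ∀ g' ∈ P, G.Rch (univ \ M) (G.s g) (G.s g') → g = g') :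
    G.Cov w (3 / 2 * (∑ e, (w e : ℚ)) + 1 / 2 * (∑ e ∈ M, (w e : ℚ))
      - 1 / 2 * ∑ g ∈ P, |∑ f ∈ G.ce (univ \ M) (G.s g),
        (open Classical in if Eqv G (Av M x a) f g then (if x f = x g then (w f : ℚ) else - (w f : ℚ))
          else 0)|) := by
  classical
  obtain ⟨b, hb, hba⟩ := bf_ex a ha
  obtain ⟨F, hFd⟩ : ∃ F : Finset E, F = univ \ M := ⟨_, rfl⟩
  have hMF : ∀ e, e ∈ F ↔ e ∉ M := by
    intro e
    rw [hFd, Finset.mem_sdiff]
    exact ⟨fun h => h.2, fun h => ⟨Finset.mem_univ e, h⟩⟩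
  -- the even sets
  obtain ⟨ZZ, hZZ⟩ : ∃ ZZ : Finset (Finset E),
      ZZ = univ.filter (fun Z => Z ⊆ Av M x a ∧ G.Ev Z) := ⟨_, rfl⟩
  have memZ : ∀ Z, Z ∈ ZZ ↔ Z ⊆ Av M x a ∧ G.Ev Z := by
    intro Z
    rw [hZZ, Finset.mem_filter]
    exact ⟨fun h => h.2, fun h => ⟨Finset.mem_univ Z, h⟩⟩
  have hZ0 : ∅ ∈ ZZ := (memZ ∅).2 ⟨Finset.empty_subset _, G.Ev_empty⟩
  obtain ⟨y, hy⟩ : ∃ y : Finset E → E → K4, y = fun Z e => x e + if e ∈ Z then a else 0 :=
    ⟨_, rfl⟩
  have hyFl : ∀ Z ∈ ZZ, G.Fl (y Z) := by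
    intro Z hZ
    rw [hy]
    exact MG.Fl_add G x _ hx (MG.Fl_ind G Z ((memZ Z).1 hZ).2 a)
  have hynz : ∀ Z ∈ ZZ, ∀ e ∈ M, y Z e ≠ 0 := by
    intro Z hZ e he
    rw [hy]
    show x e + (if e ∈ Z then a else 0) ≠ 0
    by_cases heZ : e ∈ Z
    · rw [if_pos heZ]
      intro h1
      have h2 := ((memZ Z).1 hZ).1 heZ
      rw [mem_Av] at h2
      apply h2
      refine ⟨he, ?_⟩
      calc x e = x e + (a + a) := by rw [K4_two, add_zero]
        _ = (x e + a) + a := by rw [add_assoc]
        _ = a := by rw [h1, zero_add]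
    · rw [if_neg heZ, add_zero]
      exact hnz e he
  -- the value of a set
  obtain ⟨R, hR⟩ : ∃ R : Finset E → ℚ, R = fun Z => ∑ g ∈ P,
      |∑ e ∈ G.ce F (G.s g), (w e : ℚ) * sq (bf b (y Z e))| := ⟨_, rfl⟩
  obtain ⟨Z, hZ, hmax⟩ := Finset.exists_max_image ZZ R ⟨∅, hZ0⟩
  have hcov := Cov_shift G w M hF (y Z) (hyFl Z hZ) (hynz Z hZ) b hb
  rw [← hFd] at hcov ⊢
  -- the circuits of `P` are different
  have hinj : ∀ Z, R Z ≤ ∑ C ∈ F.image (fun e => G.ce F (G.s e)),
      |∑ e ∈ C, (w e : ℚ) * sq (bf b (y Z e))| := by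
    intro Z
    rw [hR]
    show ∑ g ∈ P, |∑ e ∈ G.ce F (G.s g), (w e : ℚ) * sq (bf b (y Z e))| ≤ _
    rw [← Finset.sum_image (f := fun C => |∑ e ∈ C, (w e : ℚ) * sq (bf b (y Z e))|)
      (g := fun g => G.ce F (G.s g)) (s := P) (by
        intro g hg g' hg' h
        have h1 : g' ∈ G.ce F (G.s g) := by
          have h2 : G.ce F (G.s g) = G.ce F (G.s g') := h
          rw [h2, mem_ce]
          exact ⟨(hMF g').2 (hPM g' hg'), MG.Rch_refl G F _⟩
        rw [mem_ce] at h1
        apply hP g hg g' hg'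
        rw [← hFd]
        exact h1.2)]
    refine Finset.sum_le_sum_of_subset_of_nonneg ?_ (fun _ _ _ => abs_nonneg _)
    intro C hC
    rw [Finset.mem_image] at hC ⊢
    obtain ⟨g, hg, rfl⟩ := hC
    exact ⟨g, (hMF g).2 (hPM g hg), rfl⟩
  -- the average over `ZZ`
  have havg : ∀ g ∈ P, (ZZ.card : ℚ) * |∑ f ∈ G.ce F (G.s g),
      (if Eqv G (Av M x a) f g then (if x f = x g then (w f : ℚ) else - (w f : ℚ)) else 0)| ≤
      ∑ Z ∈ ZZ, |∑ e ∈ G.ce F (G.s g), (w e : ℚ) * sq (bf b (y Z e))| := by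
    intro g hg
    have h1 : ∀ Z ∈ ZZ, |∑ e ∈ G.ce F (G.s g), (w e : ℚ) * sq (bf b (y Z e))| =
        |∑ e ∈ G.ce F (G.s g), (w e : ℚ) * sq (bf b (y Z e + y Z g))| := by
      intro Z _
      have h2 : (∑ e ∈ G.ce F (G.s g), (w e : ℚ) * sq (bf b (y Z e + y Z g))) =
          sq (bf b (y Z g)) * ∑ e ∈ G.ce F (G.s g), (w e : ℚ) * sq (bf b (y Z e)) := by
        rw [Finset.mul_sum]
        refine Finset.sum_congr rfl fun e _ => ?_
        rw [bf_add, sq_add]
        ring
      rw [h2, abs_mul, sq_abs, one_mul]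
    rw [Finset.sum_congr rfl h1]
    refine le_trans ?_ (Finset.abs_sum_le_sum_abs _ _)
    rw [Finset.sum_comm]
    have h3 : ∀ f ∈ G.ce F (G.s g), ∑ Z ∈ ZZ, (w f : ℚ) * sq (bf b (y Z f + y Z g)) =
        (ZZ.card : ℚ) * (if Eqv G (Av M x a) f g then
          (if x f = x g then (w f : ℚ) else - (w f : ℚ)) else 0) := by
      intro f hf
      rw [mem_ce] at hf
      have hfM : f ∉ M := (hMF f).1 hf.1
      have hgM : g ∉ M := hPM g hg
      rw [← Finset.mul_sum]
      by_cases hE : Eqv G (Av M x a) f g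
      · rw [if_pos hE]
        have h4 : ∀ Z ∈ ZZ, sq (bf b (y Z f + y Z g)) = if x f = x g then 1 else -1 := by
          intro Z hZ'
          have h5 := hE Z ((memZ Z).1 hZ').1 ((memZ Z).1 hZ').2
          have h6 : y Z f + y Z g = x f + x g := by
            rw [hy]
            show (x f + if f ∈ Z then a else 0) + (x g + if g ∈ Z then a else 0) = x f + x g
            by_cases h7 : f ∈ Z
            · rw [if_pos h7, if_pos (h5.1 h7)]
              calc (x f + a) + (x g + a) = x f + x g + (a + a) := by abel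
                _ = x f + x g := by rw [K4_two, add_zero]
            · rw [if_neg h7, if_neg (fun h8 => h7 (h5.2 h8)), add_zero, add_zero]
          rw [h6]
          rcases Eqv_val G M x hx a (by rw [← hFd]; rw [← hFd] at hF; exact hF) f g hgM hE
            with h8 | h8
          · rw [if_pos h8, h8, K4_two]
            have h9 : bf b 0 = 0 := by
              unfold bf
              simp
            rw [h9, sq, if_pos rfl]
          · have h9 : x f ≠ x g := by
              intro h10
              rw [h10] at h8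
              apply ha
              calc a = (x g + x g) + a := by rw [K4_two, zero_add]
                _ = x g + (x g + a) := by rw [add_assoc]
                _ = x g + x g := by rw [← h8]
                _ = 0 := K4_two _
            rw [if_neg h9]
            have h10 : x f + x g = a := by
              rw [h8]
              calc x g + a + x g = (x g + x g) + a := by abel
                _ = a := by rw [K4_two, zero_add]
            rw [h10, hba, sq, if_neg (by decide)]
        rw [Finset.sum_congr rfl h4, Finset.sum_const, nsmul_eq_mul]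
        split_ifs <;> ring
      · rw [if_neg hE, mul_zero]
        -- an even set separating `f` and `g`
        obtain ⟨Z0, hZ0A, hZ0E, hsep⟩ : ∃ Z0 : Finset E, Z0 ⊆ Av M x a ∧ G.Ev Z0 ∧
            ¬ (f ∈ Z0 ↔ g ∈ Z0) := by
          unfold Eqv at hE
          rw [not_forall] at hE
          obtain ⟨Z0, h5⟩ := hE
          rw [Classical.not_imp, Classical.not_imp] at h5
          exact ⟨Z0, h5.1, h5.2.1, h5.2.2⟩
        have h5 : ∑ Z ∈ ZZ, sq (bf b (y Z f + y Z g)) =
            ∑ Z ∈ ZZ, sq (bf b (y (Z ∆ Z0) f + y (Z ∆ Z0) g)) := by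
          symm
          refine Finset.sum_nbij' (fun Z => Z ∆ Z0) (fun Z => Z ∆ Z0) ?_ ?_ ?_ ?_ ?_
          · intro Z hZ'
            rw [memZ] at hZ' ⊢
            refine ⟨?_, G.Ev_symm Z Z0 hZ'.2 hZ0E⟩
            intro e he
            rw [Finset.mem_symmDiff] at he
            rcases he with he | he
            · exact hZ'.1 he.1
            · exact hZ0A he.1
          · intro Z hZ'
            rw [memZ] at hZ' ⊢
            refine ⟨?_, G.Ev_symm Z Z0 hZ'.2 hZ0E⟩
            intro e he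
            rw [Finset.mem_symmDiff] at he
            rcases he with he | he
            · exact hZ'.1 he.1
            · exact hZ0A he.1
          · intro Z _
            exact symmDiff_symmDiff_cancel_right Z0 Z
          · intro Z _
            exact symmDiff_symmDiff_cancel_right Z0 Z
          · intro Z _
            rfl
        have h6 : ∀ Z ∈ ZZ, sq (bf b (y (Z ∆ Z0) f + y (Z ∆ Z0) g)) =
            - sq (bf b (y Z f + y Z g)) := by
          intro Z _
          have h7 : y (Z ∆ Z0) f + y (Z ∆ Z0) g = (y Z f + y Z g) + a := by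
            rw [hy]
            show (x f + if f ∈ Z ∆ Z0 then a else 0) + (x g + if g ∈ Z ∆ Z0 then a else 0) =
              ((x f + if f ∈ Z then a else 0) + (x g + if g ∈ Z then a else 0)) + a
            have k1 : ∀ e, (if e ∈ Z ∆ Z0 then a else 0) =
                (if e ∈ Z then a else 0) + (if e ∈ Z0 then a else 0) := by
              intro e
              by_cases m1 : e ∈ Z
              · by_cases m2 : e ∈ Z0
                · rw [if_neg, if_pos m1, if_pos m2, K4_two]
                  rw [Finset.mem_symmDiff]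
                  tauto
                · rw [if_pos, if_pos m1, if_neg m2, add_zero]
                  rw [Finset.mem_symmDiff]
                  tauto
              · by_cases m2 : e ∈ Z0
                · rw [if_pos, if_neg m1, if_pos m2, zero_add]
                  rw [Finset.mem_symmDiff]
                  tauto
                · rw [if_neg, if_neg m1, if_neg m2, add_zero]
                  rw [Finset.mem_symmDiff]
                  tauto
            rw [k1 f, k1 g]
            by_cases m1 : f ∈ Z0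
            · have m2 : g ∉ Z0 := fun h => hsep ⟨fun _ => h, fun _ => m1⟩
              rw [if_pos m1, if_neg m2]
              abel
            · have m2 : g ∈ Z0 := by
                by_contra h
                exact hsep ⟨fun h' => absurd h' m1, fun h' => absurd h' h⟩
              rw [if_neg m1, if_pos m2]
              abel
          rw [h7, bf_add, hba, sq_add]
          have h8 : sq 1 = -1 := by rw [sq, if_neg (by decide)]
          rw [h8]
          ring
        rw [Finset.sum_congr rfl h6, Finset.sum_neg_distrib] at h5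
        have h7 : ∑ Z ∈ ZZ, sq (bf b (y Z f + y Z g)) = 0 := by linarith
        rw [h7, mul_zero]
    rw [Finset.sum_congr rfl h3, ← Finset.mul_sum, abs_mul, Nat.abs_cast]
  have h1 : (ZZ.card : ℚ) * (∑ g ∈ P, |∑ f ∈ G.ce F (G.s g),
      (if Eqv G (Av M x a) f g then (if x f = x g then (w f : ℚ) else - (w f : ℚ)) else 0)|) ≤
      (ZZ.card : ℚ) * R Z := by
    rw [Finset.mul_sum]
    refine le_trans (Finset.sum_le_sum havg) ?_
    rw [Finset.sum_comm]
    have h2 : ∀ Z' ∈ ZZ, ∑ g ∈ P, |∑ e ∈ G.ce F (G.s g), (w e : ℚ) * sq (bf b (y Z' e))| ≤ R Z := by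
      intro Z' hZ'
      have h3 := hmax Z' hZ'
      rw [hR] at h3 ⊢
      exact h3
    refine le_trans (Finset.sum_le_sum h2) ?_
    rw [Finset.sum_const, nsmul_eq_mul]
  have hpos : (0 : ℚ) < (ZZ.card : ℚ) := by
    rw [Nat.cast_pos]
    exact Finset.card_pos.2 ⟨∅, hZ0⟩
  have h2 := le_of_mul_le_mul_left h1 hpos
  have h3 := hinj Z
  obtain ⟨L, hL1, hL2, hL3⟩ := hcov
  refine ⟨L, hL1, hL2, le_trans hL3 ?_⟩
  linarith

end Pool.Agent.Lib.MP_95e9b3_coG
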