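import Pool.Agent.Lib.MP_95e9b3_coG.R4Defs
import Pool.Agent.Lib.MP_95e9b3_coG.UnivIneq

/-! # Route G, block R4: the universal inequality and two-edge cuts, in the notation of `R4Defs` -/

set_option autoImplicit false

namespace Pool.Agent.Lib.MP_95e9b3_coG

open Finset Pool.Agent.Lib.MP_95e9b3_coC

variable {V E : Type} [Fintype V] [DecidableEq V] [Fintype E] [DecidableEq E]

private theorem r4u_sub (M : Finset E) (x : E → K4) (a : K4) (Z : Finset E) :
    Z ⊆ Av M x a ↔ Disjoint Z (Jd M x a) := by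
  rw [Finset.disjoint_left]
  constructor
  · intro h e he heJ
    have h1 := h he
    rw [mem_Av] at h1
    unfold Jd at heJ
    rw [mem_filter] at heJ
    exact h1 heJ
  · intro h e he
    rw [mem_Av]
    intro h1
    exact h he (by unfold Jd; rw [mem_filter]; exact h1)

theorem sc_iff (G : MG V E) (M : Finset E) (x : E → K4) (a : K4) (e f : E) :
    Sc G (Jd M x a) e f ↔ Eqv G (Av M x a) f e := by
  constructor
  · intro h Z hZ hE
    exact (h Z hE ((r4u_sub M x a Z).1 hZ)).symm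
  · intro h Z hE hZ
    exact (h Z ((r4u_sub M x a Z).2 hZ) hE).symm

theorem mem_Ce (G : MG V E) (M : Finset E) (e f : E) :
    f ∈ Ce G M e ↔ f ∉ M ∧ G.Rch (univ \ M) (G.s e) (G.s f) := by
  unfold Ce
  rw [mem_ce, Finset.mem_sdiff]
  exact ⟨fun h => ⟨h.1.2, h.2⟩, fun h => ⟨⟨Finset.mem_univ f, h.1⟩, h.2⟩⟩

/-- one random Kempe step in the direction `a`. `h c` is an edge of the circuit `c`. -/
theorem univ4 (G : MG V E) (w : E → ℕ) (M : Finset E) (hF : G.Ev (univ \ M)) (x : E → K4)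
    (hx : G.Fl x) (hnz : ∀ e ∈ M, x e ≠ 0) (a : K4) (ha : a ≠ 0) (C : Finset (Finset E))
    (hC : ∀ c ∈ C, ∃ e, e ∉ M ∧ c = Ce G M e)
    (h : Finset E → E) (hh : ∀ c ∈ C, h c ∈ c) (q : ℚ)
    (hq : (q : ℝ) ≤ 1 / 2 * ∑ c ∈ C, |clC G M w x a c (h c)|) :
    G.Cov w (3 / 2 * (∑ e, (w e : ℚ)) + 1 / 2 * (∑ e ∈ M, (w e : ℚ)) - q) := by
  classical
  -- the circuit of `h c` is `c`
  have hce : ∀ c ∈ C, h c ∉ M ∧ G.ce (univ \ M) (G.s (h c)) = c := by
    intro c hc
    obtain ⟨e, he, hce⟩ := hC c hc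
    obtain ⟨i, hi⟩ : ∃ i, i = h c := ⟨_, rfl⟩
    have h1 := hh c hc
    rw [← hi] at h1 ⊢
    rw [hce, mem_Ce] at h1
    refine ⟨h1.1, ?_⟩
    rw [← ce_eq_of_Rch G (univ \ M) _ _ h1.2]
    rw [hce]
    rfl
  have hinj : Set.InjOn h (C : Set (Finset E)) := by
    intro c hc c' hc' hcc
    have h1 := (hce c hc).2
    have h2 := (hce c' hc').2
    have h3 : h c = h c' := hcc
    rw [h3] at h1
    rw [← h1, h2]
  have key := univ_ineq G w M hF x hx hnz a ha (C.image h) (by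
      intro g hg
      rw [mem_image] at hg
      obtain ⟨c, hc, rfl⟩ := hg
      exact (hce c hc).1) (by
      intro g hg g' hg' hR
      rw [mem_image] at hg hg'
      obtain ⟨c, hc, rfl⟩ := hg
      obtain ⟨c', hc', rfl⟩ := hg'
      have h1 := ce_eq_of_Rch G (univ \ M) _ _ hR
      rw [(hce c hc).2, (hce c' hc').2] at h1
      rw [h1])
  refine G.Cov_mono w _ _ ?_ key
  rw [Finset.sum_image (by
    intro c hc c' hc' hcc
    exact hinj hc hc' hcc)]
  have h2 : ((∑ c ∈ C, |∑ f ∈ G.ce (univ \ M) (G.s (h c)),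
        (if Eqv G (Av M x a) f (h c) then (if x f = x (h c) then (w f : ℚ) else - (w f : ℚ))
          else 0)| : ℚ) : ℝ) = ∑ c ∈ C, |clC G M w x a c (h c)| := by
    push_cast
    refine Finset.sum_congr rfl fun c hc => ?_
    rw [(hce c hc).2]
    congr 1
    unfold clC
    rw [Finset.sum_filter]
    refine Finset.sum_congr rfl fun f _ => ?_
    by_cases h3 : Eqv G (Av M x a) f (h c)
    · rw [if_pos h3, if_pos ((sc_iff G M x a _ _).2 h3)]
      by_cases h4 : x f = x (h c)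
      · rw [if_pos h4, if_pos h4, mul_one]; simp
      · rw [if_neg h4, if_neg h4, mul_neg, mul_one]; simp
    · rw [if_neg h3, if_neg (fun h4 => h3 ((sc_iff G M x a _ _).1 h4))]; simp
  have h3 : (q : ℝ) ≤ ((1 / 2 * ∑ c ∈ C, |∑ f ∈ G.ce (univ \ M) (G.s (h c)),
        (if Eqv G (Av M x a) f (h c) then (if x f = x (h c) then (w f : ℚ) else - (w f : ℚ))
          else 0)| : ℚ) : ℝ) := by
    rw [Rat.cast_mul, h2]
    refine le_trans hq (le_of_eq ?_)
    push_cast
    rfl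
  have h4 : q ≤ 1 / 2 * ∑ c ∈ C, |∑ f ∈ G.ce (univ \ M) (G.s (h c)),
        (if Eqv G (Av M x a) f (h c) then (if x f = x (h c) then (w f : ℚ) else - (w f : ℚ))
          else 0)| := by exact_mod_cast h3
  linarith

/-- two edges of one circuit in the same class are the only edges outside `Jd` of some cut -/
theorem sc_cut (G : MG V E) (M : Finset E) (x : E → K4) (a : K4) (hF : G.Ev (univ \ M))
    (e f : E) (he : e ∉ M) (hf : f ∈ Ce G M e) (hef : e ≠ f) (h : Sc G (Jd M x a) e f) :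
    ∃ U : Finset V, e ∈ G.cut U ∧ f ∈ G.cut U ∧ G.cut U ⊆ insert e (insert f (Jd M x a)) := by
  have hFA : univ \ M ⊆ Av M x a := by
    intro i hi
    rw [Finset.mem_sdiff] at hi
    rw [mem_Av]
    exact fun h1 => hi.2 h1.1
  obtain ⟨U, hU⟩ := cut_of_Eqv G (Av M x a) (univ \ M) hFA hF f e
    (Finset.mem_sdiff.2 ⟨Finset.mem_univ _, he⟩) (Ne.symm hef) ((sc_iff G M x a e f).1 h)
  have h1 : ∀ i, i ∈ Av M x a ∩ G.cut U ↔ i = f ∨ i = e := by
    intro i
    rw [hU, mem_insert, mem_singleton]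
  refine ⟨U, (mem_inter.1 ((h1 e).2 (Or.inr rfl))).2, (mem_inter.1 ((h1 f).2 (Or.inl rfl))).2, ?_⟩
  intro i hi
  rw [mem_insert, mem_insert]
  by_cases h2 : i ∈ Jd M x a
  · exact Or.inr (Or.inr h2)
  · have h3 : i ∈ Av M x a := by
      rw [mem_Av]
      intro h4
      exact h2 (by unfold Jd; rw [mem_filter]; exact h4)
    rcases (h1 i).1 (mem_inter.2 ⟨h3, hi⟩) with h4 | h4
    · exact Or.inr (Or.inl h4)
    · exact Or.inl h4

/-- two states in a class -/
theorem sc_two (G : MG V E) (M : Finset E) (x : E → K4) (hx : G.Fl x) (a : K4)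
    (hF : G.Ev (univ \ M)) (e f : E) (he : e ∉ M) (hf : f ∈ Ce G M e)
    (h : Sc G (Jd M x a) e f) : x f = x e ∨ x f = x e + a :=
  Eqv_val G M x hx a hF f e he ((sc_iff G M x a e f).1 h)

end Pool.Agent.Lib.MP_95e9b3_coG
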