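import Pool.Agent.Lib.MP_95e9b3_coG.LawLam
import Pool.Agent.Lib.MP_95e9b3_coG.R4_main
import Pool.Agent.Lib.MP_95e9b3_coG.BCost
import Pool.Agent.Lib.MP_95e9b3_coG.Law
import Pool.Agent.Lib.MP_95e9b3_coG.Fin
import Pool.Agent.Lib.MP_95e9b3_coG.Count4
import Pool.Agent.Lib.MP_95e9b3_coG.L4Max
import Pool.Agent.Lib.MP_95e9b3_coG.L4CL

/-! # Route G: assembly for all 3-edge-connected cubic graphs -/

set_option autoImplicit false

namespace Pool.Agent.Lib.MP_95e9b3_coG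

open Finset Pool.Agent.Lib.MP_95e9b3_coC

/-- all 3-edge-connected cubic weighted multigraphs -/
theorem mainGen : ∃ ε : ℚ, 0 < ε ∧ ∀ (V E : Type) [Fintype V] [DecidableEq V] [Fintype E]
    [DecidableEq E] (G : MG V E) (_ : C3 G) (w : E → ℕ),
    G.Cov w ((5 / 3 - ε) * ∑ e, (w e : ℚ)) := by
  obtain ⟨c, hc, hR3⟩ := R4
  -- δ with 4/3 + 12 K δ ≤ 5/3 - δ, K = 100 (4/3 + 10 / c)
  refine ⟨1 / (6 * (1 + 6 * (100 * (4 / 3 + 10 / c)))), by positivity, ?_⟩
  intro V E _ _ _ _ G hG w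
  rcases isEmpty_or_nonempty V with hVe | hVe
  · exact ⟨[], by simp, fun e => (hVe.false (G.s e)).elim, by
      have : IsEmpty E := ⟨fun e => hVe.false (G.s e)⟩
      simp⟩
  obtain ⟨r⟩ := id hVe
  set δ : ℚ := 1 / (6 * (1 + 6 * (100 * (4 / 3 + 10 / c)))) with hδ
  by_contra hcov
  obtain ⟨μ, hμ, hμF⟩ := law_lam G hG (F4 G w r) (fun Z hZ => (F4_four G w r Z hZ).1)
    (fun X hX X' hX' => F4_lam G hG w r X hX X' hX')
  set T : ℕ := ∑ e, w e with hT
  have hTe : ∀ e, w e ≤ T := fun e => Finset.single_le_sum (fun _ _ => Nat.zero_le _) (mem_univ e)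
  have hwul : ∀ M, PM G M → ∃ Y : ℕ → Finset E, Cl G M w Y ∧ Mx G M w Y ∧
      ∃ S₁ ⊆ M, ∃ S₂ ⊆ M, Disjoint S₁ S₂ ∧
      (∀ a b, G.Rch ((univ \ M) ∪ S₁) a b) ∧ (∀ a b, G.Rch ((univ \ M) ∪ S₂) a b) ∧
      wt w S₁ + wt w S₂ ≤ ∑ t ∈ range T, rho G M w Y t := fun M hM => wulM G hG M hM w T hTe
  classical
  choose! Y hY using hwul
  have hYs : ∀ M, μ M ≠ 0 → Cl G M w (Y M) := fun M h => (hY M (hμ.supp M h)).1
  have h4 : ∀ t, ∀ M, μ M ≠ 0 → ∀ v, Gd G M w (Y M) t v → r ∉ pt G M (Y M) t v →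
      (G.cut (pt G M (Y M) t v)).card = 4 →
      ∃ e ∈ M, t < w e ∧ G.s e ∈ pt G M (Y M) t v ∧ G.t e ∈ pt G M (Y M) t v :=
    fun t M h v hv hr hc4 => no4 G hG M (hμ.supp M h) w (Y M) (hYs M h)
      (hY M (hμ.supp M h)).2.1 r (hμF M h) t v hv hr hc4
  set W : ℝ := wt w univ with hW
  have hW0 : 0 ≤ W := by rw [hW]; unfold wt; positivity
  have hWq : ((∑ e, (w e : ℚ) : ℚ) : ℝ) = W := by rw [hW]; unfold wt; push_cast; rfl
  -- expectations
  have hex : ∀ f g : Finset E → ℝ, (∀ M, PM G M → f M ≤ g M) →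
      ∑ M, μ M * f M ≤ ∑ M, μ M * g M := by
    intro f g hfg
    refine Finset.sum_le_sum fun M _ => ?_
    by_cases h : μ M = 0
    · simp [h]
    · exact mul_le_mul_of_nonneg_left (hfg M (hμ.supp M h)) (hμ.nonneg M)
  have hconst : ∀ a : ℝ, ∑ M, μ M * a = a := by
    intro a; rw [← Finset.sum_mul, hμ.one, one_mul]
  -- mean weight
  have hmean : ∑ M, μ M * wt w M = W / 3 := by
    have h1 : ∀ M, μ M * wt w M = ∑ e, (w e : ℝ) * (if e ∈ M then μ M else 0) := by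
      intro M
      unfold wt
      rw [Finset.mul_sum, ← Finset.sum_filter_add_sum_filter_not univ (fun e => e ∈ M)]
      rw [Finset.sum_eq_zero (s := univ.filter (fun e => ¬ e ∈ M)) (by
        intro e he; rw [if_neg (mem_filter.mp he).2, mul_zero]), add_zero]
      have h2 : univ.filter (fun e => e ∈ M) = M := by ext e; simp
      rw [h2]
      exact Finset.sum_congr rfl fun e he => by rw [if_pos he]; ring
    rw [Finset.sum_congr rfl fun M _ => h1 M, Finset.sum_comm]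
    have h3 : ∀ e, ∑ M, (w e : ℝ) * (if e ∈ M then μ M else 0) = (w e : ℝ) * (1 / 3) := by
      intro e; rw [← Finset.mul_sum, hμ.marg e]
    rw [Finset.sum_congr rfl fun e _ => h3 e, ← Finset.sum_mul, hW]
    unfold wt
    ring
  -- R2 in expectation
  have hr2 : ∀ M, PM G M → (2 / 9 - 4 / 3 * (δ : ℝ)) * W ≤
      ∑ t ∈ range T, rho G M w (Y M) t := by
    intro M hM
    obtain ⟨_, _, S₁, hS1, S₂, hS2, hd, hc1, hc2, hle⟩ := hY M hM
    have h := R2 G hG M hM w S₁ S₂ hS1 hS2 hd hc1 hc2 _ hcov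
    refine le_trans ?_ hle
    refine le_trans (le_of_eq ?_) h
    push_cast
    have : (∑ e, (w e : ℝ)) = W := by rw [hW]; rfl
    rw [this]
    ring
  have hr3 : ∀ M, PM G M → (c : ℝ) * ∑ t ∈ range T, (NS G M w (Y M) t : ℝ) ≤
      1 / 2 * wt w M - W / 6 + (δ : ℝ) * W := by
    intro M hM
    by_contra hlt
    push Not at hlt
    apply hcov
    refine G.Cov_mono w _ _ ?_ (hR3 V E G hG M hM w (Y M) (hY M hM).1 T)
    have h1 : ((3 / 2 * (∑ e, (w e : ℚ)) + 1 / 2 * (∑ e ∈ M, (w e : ℚ))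
      - c * ∑ t ∈ range T, (NS G M w (Y M) t : ℚ) : ℚ) : ℝ) ≤
        (((5 / 3 - δ) * ∑ e, (w e : ℚ) : ℚ) : ℝ) := by
      push_cast
      have e1 : (∑ e, (w e : ℝ)) = W := by rw [hW]; rfl
      have e2 : (∑ e ∈ M, (w e : ℝ)) = wt w M := rfl
      rw [e1, e2]
      linarith
    exact_mod_cast h1
  have hc' : (0 : ℝ) < (c : ℝ) := by exact_mod_cast hc
  -- swap sums
  have hswap : ∀ f : Finset E → ℕ → ℝ, ∑ t ∈ range T, ∑ M, μ M * f M t =
      ∑ M, μ M * ∑ t ∈ range T, f M t := by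
    intro f
    rw [Finset.sum_comm]
    exact Finset.sum_congr rfl fun M _ => by rw [Finset.mul_sum]
  have hcount := Finset.sum_le_sum (s := range T) (fun t _ => count4 G hG μ hμ w Y t r (h4 t) hYs)
  rw [hswap (fun M t => rho G M w (Y M) t - 2 / 3 * ((M ∩ hv w t).card : ℝ)),
    Finset.sum_add_distrib, ← Finset.mul_sum, ← Finset.mul_sum,
    hswap (fun M t => (NN G M w (Y M) t : ℝ) + (La G M w (Y M) t : ℝ)),
    hswap (fun M t => (NS G M w (Y M) t : ℝ))] at hcount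
  -- layer cake
  have hlay : ∀ M : Finset E, ∑ t ∈ range T, ((M ∩ hv w t).card : ℝ) = wt w M := by
    intro M
    have h1 : ∀ t, ((M ∩ hv w t).card : ℝ) = ∑ e ∈ M, (if t < w e then (1 : ℝ) else 0) := by
      intro t
      rw [Finset.sum_boole]
      congr 2
      ext e
      simp [hv]
    rw [Finset.sum_congr rfl fun t _ => h1 t, Finset.sum_comm]
    unfold wt
    refine Finset.sum_congr rfl fun e _ => ?_
    rw [Finset.sum_boole]
    congr 1
    have h2 : (range T).filter (fun t => t < w e) = range (w e) := by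
      ext t
      simp only [mem_filter, mem_range]
      have := hTe e
      omega
    rw [h2, card_range]
  have hl1 : (2 / 9 - 4 / 3 * (δ : ℝ)) * W - 2 / 3 * (W / 3) ≤
      ∑ M, μ M * ∑ t ∈ range T, (rho G M w (Y M) t - 2 / 3 * ((M ∩ hv w t).card : ℝ)) := by
    have h1 : ∑ M, μ M * ∑ t ∈ range T, (rho G M w (Y M) t - 2 / 3 * ((M ∩ hv w t).card : ℝ)) =
        ∑ M, μ M * (∑ t ∈ range T, rho G M w (Y M) t) - 2 / 3 * ∑ M, μ M * wt w M := by
      rw [Finset.mul_sum, ← Finset.sum_sub_distrib]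
      refine Finset.sum_congr rfl fun M _ => ?_
      rw [Finset.sum_sub_distrib, ← Finset.mul_sum, hlay M]
      ring
    rw [h1, hmean]
    have h2 := hex (fun _ => (2 / 9 - 4 / 3 * (δ : ℝ)) * W) (fun M => ∑ t ∈ range T, rho G M w (Y M) t) hr2
    rw [hconst] at h2
    linarith
  have hns : (c : ℝ) * ∑ M, μ M * ∑ t ∈ range T, (NS G M w (Y M) t : ℝ) ≤ (δ : ℝ) * W := by
    have h1 : ∑ M, μ M * ((c : ℝ) * ∑ t ∈ range T, (NS G M w (Y M) t : ℝ)) ≤
        ∑ M, μ M * (1 / 2 * wt w M - W / 6 + (δ : ℝ) * W) := by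
      refine Finset.sum_le_sum fun M _ => ?_
      by_cases h : μ M = 0
      · simp [h]
      · exact mul_le_mul_of_nonneg_left (hr3 M (hμ.supp M h)) (hμ.nonneg M)
    have h2 : ∑ M, μ M * (1 / 2 * wt w M - W / 6 + (δ : ℝ) * W) =
        1 / 2 * (∑ M, μ M * wt w M) + (- W / 6 + (δ : ℝ) * W) := by
      rw [Finset.mul_sum, ← hconst (- W / 6 + (δ : ℝ) * W), ← Finset.sum_add_distrib]
      exact Finset.sum_congr rfl fun M _ => by ring
    rw [h2, hmean] at h1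
    have h3 : ∑ M, μ M * ((c : ℝ) * ∑ t ∈ range T, (NS G M w (Y M) t : ℝ)) =
        (c : ℝ) * ∑ M, μ M * ∑ t ∈ range T, (NS G M w (Y M) t : ℝ) := by
      rw [Finset.mul_sum]
      exact Finset.sum_congr rfl fun M _ => by ring
    rw [h3] at h1
    linarith
  have hF := lemF G hG μ hμ w Y hYs T hTe
  obtain ⟨M0, hM0, hM0w⟩ := light_exists G hG w
  have hg := gain4 G hG M0 hM0 w
  set A : ℝ := ∑ M, μ M * ∑ t ∈ range T, ((NN G M w (Y M) t : ℝ) + (La G M w (Y M) t : ℝ)) with hA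
  set B : ℝ := ∑ M, μ M * ∑ t ∈ range T, (NS G M w (Y M) t : ℝ) with hB
  have hFA : wt w (Zs G w) ≤ 6 * A := by
    refine le_trans hF ?_
    rw [hA, show (6 : ℝ) = 3 * 2 by norm_num, mul_assoc, Finset.mul_sum (a := (2 : ℝ))]
    refine mul_le_mul_of_nonneg_left (Finset.sum_le_sum fun M _ => ?_) (by norm_num)
    rw [mul_left_comm]
    refine mul_le_mul_of_nonneg_left ?_ (hμ.nonneg M)
    rw [Finset.mul_sum]
    refine Finset.sum_le_sum fun t _ => ?_
    have : (0 : ℝ) ≤ (La G M w (Y M) t : ℝ) := Nat.cast_nonneg _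
    linarith
  have hBc : B ≤ (δ : ℝ) * W / c := by
    rw [le_div_iff₀ hc']
    linarith
  have hAle : A ≤ 100 * (4 / 3 + 10 / c) * (δ : ℝ) * W := by
    have hA0 : 0 ≤ A := by
      rw [hA]
      exact Finset.sum_nonneg fun M _ => mul_nonneg (hμ.nonneg M)
        (Finset.sum_nonneg fun t _ => by positivity)
    have hB0 : 0 ≤ B := by
      rw [hB]
      exact Finset.sum_nonneg fun M _ => mul_nonneg (hμ.nonneg M)
        (Finset.sum_nonneg fun t _ => by positivity)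
    have h1 : (1 / 100 : ℝ) * A ≤ 4 / 3 * (δ : ℝ) * W + 10 * B := by linarith
    have h2 : 10 * B ≤ 10 * ((δ : ℝ) * W / c) := by linarith
    have h3 : 100 * (4 / 3 + 10 / c) * (δ : ℝ) * W =
      100 * (4 / 3 * (δ : ℝ) * W + 10 * ((δ : ℝ) * W / c)) := by ring
    rw [h3]
    linarith
  apply hcov
  refine G.Cov_mono w _ _ ?_ hg
  have hfin : (((∑ e, (w e : ℚ)) + (∑ e ∈ M0, (w e : ℚ)) + 2 * ∑ e ∈ Zs G w, (w e : ℚ) : ℚ) : ℝ) ≤
      (((5 / 3 - δ) * ∑ e, (w e : ℚ) : ℚ) : ℝ) := by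
    have h0 : ((3 * (∑ e ∈ M0, (w e : ℚ)) : ℚ) : ℝ) ≤ ((∑ e, (w e : ℚ) : ℚ) : ℝ) := by
      exact_mod_cast hM0w
    push_cast at h0 ⊢
    have e1 : (∑ e, (w e : ℝ)) = W := by rw [hW]; rfl
    have e2 : (∑ e ∈ Zs G w, (w e : ℝ)) = wt w (Zs G w) := rfl
    rw [e1] at h0 ⊢
    rw [e2]
    set m0 := ∑ e ∈ M0, (w e : ℝ)
    have hδ' : (δ : ℝ) * (6 * (1 + 6 * (100 * (4 / 3 + 10 / (c : ℝ))))) = 1 := by
      have hδ2 : (δ : ℝ) = 1 / (6 * (1 + 6 * (100 * (4 / 3 + 10 / (c : ℝ))))) := by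
        rw [hδ]; push_cast; rfl
      rw [hδ2]
      field_simp
    set κ : ℝ := 100 * (4 / 3 + 10 / (c : ℝ)) with hκ
    have h4 : W + m0 + 2 * wt w (Zs G w) ≤ W + W / 3 + 12 * (κ * (δ : ℝ) * W) := by
      have := hAle
      linarith
    refine le_trans h4 ?_
    have hκ0 : 0 < κ := by positivity
    have hδ0 : 0 < (δ : ℝ) := by
      have : (0 : ℚ) < δ := by rw [hδ]; positivity
      exact_mod_cast this
    have h5' : (12 * κ * (δ : ℝ) + (δ : ℝ)) ≤ 1 / 3 := by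
      nlinarith
    nlinarith
  exact_mod_cast hfin

end Pool.Agent.Lib.MP_95e9b3_coG
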