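import Pool.Agent.Lib.MP_95e9b3_coG.Defs
import Pool.Agent.Lib.MP_95e9b3_coG.FL

/-!
# Route G, block R3: definitions

`F = univ \ M`. A region is a set `X` of vertices with `cut X ⊆ M` (a union of circuits of `F`).
`Lmr`: a laminar family `R` of regions. `Fam`: with a distinguished edge `g X` of `F` in every
proper region.
-/

set_option autoImplicit false

namespace Pool.Agent.Lib.MP_95e9b3_coG

open Finset Pool.Agent.Lib.MP_95e9b3_coC

variable {V E : Type} [Fintype V] [DecidableEq V] [Fintype E] [DecidableEq E]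

/-- the edges of `A` with both ends in `X` -/
def ins (G : MG V E) (A : Finset E) (X : Finset V) : Finset E :=
  A.filter (fun e => G.s e ∈ X ∧ G.t e ∈ X)

/-- the edges of `A` with no end in `B` -/
def avd (G : MG V E) (A : Finset E) (B : Finset V) : Finset E :=
  A.filter (fun e => G.s e ∉ B ∧ G.t e ∉ B)

/-- the edges of `A` inside `X` connect `X` -/
def Con (G : MG V E) (A : Finset E) (X : Finset V) : Prop :=
  ∀ a ∈ X, ∀ b ∈ X, G.Rch (ins G A X) a b

/-- the edges of `A` whose ends have different colours -/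
def crs (G : MG V E) (A : Finset E) (c : V → V) : Finset E :=
  A.filter (fun e => c (G.s e) ≠ c (G.t e))

/-- laminar families of regions -/
structure Lmr (G : MG V E) (M : Finset E) (R : Finset (Finset V)) : Prop where
  ne : ∀ X ∈ R, X.Nonempty
  nod : ∀ X ∈ R, G.cut X ⊆ M
  top : univ ∈ R
  lam : ∀ X ∈ R, ∀ Y ∈ R, X ⊆ Y ∨ Y ⊆ X ∨ Disjoint X Y

/-- laminar families of regions with `2 e(P) ≥ 5 |P| - 4` for all partitions `P` (colourings which
are constant on the circuits of `F`) with at least two parts; `g X` is a heaviest edge of its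
circuit of `F`, this circuit lies in `X` and in no smaller member of the family -/
structure Fam (G : MG V E) (M : Finset E) (w : E → ℕ) (R : Finset (Finset V))
    (g : Finset V → E) : Prop extends Lmr G M R where
  den : ∀ X ∈ R, ∀ c : V → V, (∀ e, e ∉ M → c (G.s e) = c (G.t e)) → 2 ≤ (X.image c).card →
    5 * (X.image c).card ≤ 2 * (crs G (ins G M X) c).card + 4
  small : ∀ X ∈ R, X ≠ univ → (G.cut X).card ≤ 7
  gF : ∀ X ∈ R, X ≠ univ → g X ∉ M
  gX : ∀ X ∈ R, X ≠ univ → G.s (g X) ∈ X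
  gmax : ∀ X ∈ R, X ≠ univ → ∀ e ∈ G.ce (univ \ M) (G.s (g X)), w e ≤ w (g X)
  direct : ∀ X ∈ R, ∀ Y ∈ R, Y ≠ univ → X ⊂ Y → G.s (g Y) ∉ X

/-- the edges of `M` inside `X` which are in no smaller member of the family -/
def own (G : MG V E) (M : Finset E) (R : Finset (Finset V)) (X : Finset V) : Finset E :=
  (ins G M X).filter (fun e => ∀ Y ∈ R, Y ⊂ X → ¬ (G.s e ∈ Y ∧ G.t e ∈ Y))

/-- the other edges inside `X`: the edges of `F` and the edges inside smaller members -/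
def low (G : MG V E) (M : Finset E) (R : Finset (Finset V)) (X : Finset V) : Finset E :=
  ins G univ X \ own G M R X

/-- the circuit of `F` through `e` (vertices) -/
noncomputable def Cv (G : MG V E) (M : Finset E) (e : E) : Finset V :=
  G.cv (univ \ M) (G.s e)

/-- the circuit of `F` through `e` (edges) -/
noncomputable def Ce (G : MG V E) (M : Finset E) (e : E) : Finset E :=
  G.ce (univ \ M) (G.s e)

/-- `S₁` and `S₂` are disjoint sets of edges of `M` -/
structure Two (M S₁ S₂ : Finset E) : Prop where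
  h1 : S₁ ⊆ M
  h2 : S₂ ⊆ M
  hd : Disjoint S₁ S₂

open Classical in
/-- the flows with first coordinate `1` on `S₁`, second coordinate `1` on `S₂`, nonzero on `M` -/
noncomputable def Om (G : MG V E) (M S₁ S₂ : Finset E) : Finset (E → K4) :=
  univ.filter (fun x => G.Fl x ∧ (∀ e ∈ S₁, (x e).1 = 1) ∧ (∀ e ∈ S₂, (x e).2 = 1) ∧
    ∀ e ∈ M, x e ≠ 0)

/-- `x + k` on `Z` -/
def tog (x : E → K4) (k : K4) (Z : Finset E) : E → K4 := fun e => x e + (if e ∈ Z then k else 0)

/-- exchange of `S₁` and `S₂` inside `X` (first set) -/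
def swp (G : MG V E) (X : Finset V) (S₁ S₂ : Finset E) : Finset E :=
  (S₁ \ ins G univ X) ∪ ins G S₂ X

/-- number of members of `D` around the edge `e` -/
def mult (G : MG V E) (D : Finset (Finset V)) (e : E) : ℕ :=
  (D.filter (fun X => G.s e ∈ X ∧ G.t e ∈ X)).card

/-- exchange of `S₁` and `S₂` inside all members of `D` (first set) -/
def tw (G : MG V E) (D : Finset (Finset V)) (S₁ S₂ : Finset E) : Finset E :=
  S₁.filter (fun e => Even (mult G D e)) ∪ S₂.filter (fun e => ¬ Even (mult G D e))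

/-- pairs `(v, v')` of edges of `M` which join the circuit `B` to the same component of `X \ B`,
one pair for every component at most -/
structure Prs (G : MG V E) (M : Finset E) (X B : Finset V) (Q : Finset (E × E)) : Prop where
  ne : ∀ p ∈ Q, p.1 ≠ p.2
  mem : ∀ p ∈ Q, p.1 ∈ M ∧ p.2 ∈ M
  far : ∀ p ∈ Q, ∃ a ∈ B, ∃ r ∈ X, ∃ a' ∈ B, ∃ r' ∈ X, r ∉ B ∧ r' ∉ B ∧ G.Jn p.1 a r ∧
    G.Jn p.2 a' r' ∧ G.Rch (avd G (ins G univ X) B) r r'
  sep : ∀ p ∈ Q, ∀ q ∈ Q, p ≠ q → ∀ a ∈ B, ∀ b ∈ B, ∀ r ∈ X, ∀ r' ∈ X, r ∉ B → r' ∉ B →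
    G.Jn p.1 a r → G.Jn q.1 b r' → ¬ G.Rch (avd G (ins G univ X) B) r r'

/-- the set `S` serves the pairs `Q`: the chords of `B` and the pairs are in `S`, and the far ends
of every pair are connected by edges of `A` (inside `X`, without touching `B`) -/
def Srv (G : MG V E) (M : Finset E) (X B : Finset V) (Q : Finset (E × E)) (S A : Finset E) : Prop :=
  ins G M B ⊆ S ∧ ∀ p ∈ Q, p.1 ∈ S ∧ p.2 ∈ S ∧ ∀ a ∈ B, ∀ r ∈ X, ∀ a' ∈ B, ∀ r' ∈ X,
    r ∉ B → r' ∉ B → G.Jn p.1 a r → G.Jn p.2 a' r' → G.Rch (avd G (ins G A X) B) r r'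

/-- character sum of the pattern `p` on the effective circle `A0`, `D` -/
noncomputable def val (w : E → ℕ) (A0 : Finset E) (D : E → Finset E) (i : Fin 3) (p : E → K4) : ℝ :=
  ∑ e ∈ A0, (w e : ℝ) * sg (lam i (∑ r ∈ D e, p r))

/-- `∑ |val|` over the three characters -/
noncomputable def vals (w : E → ℕ) (A0 : Finset E) (D : E → Finset E) (p : E → K4) : ℝ :=
  ∑ i : Fin 3, |val w A0 D i p|

/-- character sum of the flow `x` on the set `C` -/
noncomputable def fch (w : E → ℕ) (C : Finset E) (i : Fin 3) (x : E → K4) : ℝ :=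
  ∑ e ∈ C, (w e : ℝ) * sg (lam i (x e))

/-- the data of the effective circle of `g` in the region `X`: `A0` the uncovered gaps, `U e` the
side of the gap `e` -/
structure Eff (G : MG V E) (M : Finset E) (X : Finset V) (g : E) (Q : Finset (E × E))
    (A0 : Finset E) (U : E → Finset V) : Prop where
  prs : Prs G M X (Cv G M g) Q
  sub : A0 ⊆ Ce G M g
  gA : g ∈ A0
  Ug : U g = ∅
  UX : ∀ e ∈ A0, U e ⊆ X
  cutU : ∀ e ∈ A0, e ≠ g → G.cut (U e) \ G.cut X = {e, g}
  chain : ∀ e ∈ A0, ∀ f ∈ A0, U e ⊆ U f ∨ U f ⊆ U e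
  inj : ∀ e ∈ A0, ∀ f ∈ A0, e ≠ f → G.cut (U e) ∩ G.cut X ≠ G.cut (U f) ∩ G.cut X
  proper : ∀ e ∈ A0, G.cut (U e) ∩ G.cut X ≠ G.cut X
  cov : ∀ S ⊆ M, Srv G M X (Cv G M g) Q S ((univ \ M) ∪ S) → ∀ e ∈ Ce G M g, e ∉ A0 →
    ∃ Z, G.Ev Z ∧ Z ⊆ ins G ((univ \ M) ∪ S) X ∧ e ∈ Z ∧ g ∉ Z

end Pool.Agent.Lib.MP_95e9b3_coG
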