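import Pool.Agent.Lib.MP_95e9b3_coG.R3Defs

/-!
# Route G, block R3: `effsame`, `effval`, `finlemS`
-/

set_option autoImplicit false

namespace Pool.Agent.Lib.MP_95e9b3_coG

open Finset Pool.Agent.Lib.MP_95e9b3_coC

variable {V E : Type} [Fintype V] [DecidableEq V] [Fintype E] [DecidableEq E]

/-- an even set inside `X` contains all uncovered gaps or none -/
theorem effsame (G : MG V E) (M : Finset E) (X : Finset V) (g : E) (Q : Finset (E × E))
    (A0 : Finset E) (U : E → Finset V) (h : Eff G M X g Q A0 U) (Z : Finset E) (hZ : G.Ev Z)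
    (hZX : Z ⊆ ins G univ X) : ∀ e ∈ A0, (e ∈ Z ↔ g ∈ Z) := by
  intro e he
  by_cases heg : e = g
  · rw [heg]
  have hev := MG.Ev_cut G Z hZ (U e)
  have hcut := h.cutU e he heg
  have hnot : ∀ z ∈ Z, z ∉ G.cut X := by
    intro z hz hzX
    have h1 := hZX hz
    unfold ins at h1
    rw [Finset.mem_filter] at h1
    rw [MG.mem_cut] at hzX
    exact hzX ⟨fun _ => h1.2.2, fun _ => h1.2.1⟩
  have hEq : Z ∩ G.cut (U e) = Z.filter (fun z => z = e ∨ z = g) := by
    ext z
    rw [Finset.mem_inter, Finset.mem_filter]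
    constructor
    · rintro ⟨h1, h2⟩
      refine ⟨h1, ?_⟩
      have h3 : z ∈ G.cut (U e) \ G.cut X := Finset.mem_sdiff.2 ⟨h2, hnot z h1⟩
      rw [hcut, Finset.mem_insert, Finset.mem_singleton] at h3
      exact h3
    · rintro ⟨h1, h2⟩
      refine ⟨h1, ?_⟩
      have h3 : z ∈ G.cut (U e) \ G.cut X := by
        rw [hcut, Finset.mem_insert, Finset.mem_singleton]
        exact h2
      exact (Finset.mem_sdiff.1 h3).1
  rw [hEq] at hev
  by_cases h1 : e ∈ Z <;> by_cases h2 : g ∈ Z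
  · exact ⟨fun _ => h2, fun _ => h1⟩
  · exfalso
    have h3 : Z.filter (fun z => z = e ∨ z = g) = {e} := by
      ext z
      rw [Finset.mem_filter, Finset.mem_singleton]
      constructor
      · rintro ⟨h4, h5 | h5⟩
        · exact h5
        · exact absurd (h5 ▸ h4) h2
      · rintro rfl
        exact ⟨h1, Or.inl rfl⟩
    rw [h3, Finset.card_singleton] at hev
    exact absurd hev (by decide)
  · exfalso
    have h3 : Z.filter (fun z => z = e ∨ z = g) = {g} := by
      ext z
      rw [Finset.mem_filter, Finset.mem_singleton]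
      constructor
      · rintro ⟨h4, h5 | h5⟩
        · exact absurd (h5 ▸ h4) h1
        · exact h5
      · rintro rfl
        exact ⟨h2, Or.inr rfl⟩
    rw [h3, Finset.card_singleton] at hev
    exact absurd hev (by decide)
  · exact ⟨fun h3 => absurd h3 h1, fun h3 => absurd h3 h2⟩

private lemma k4_add_self (a : K4) : a + a = 0 := by
  obtain ⟨a1, a2⟩ := a
  exact Prod.ext (CharTwo.add_self_eq_zero _) (CharTwo.add_self_eq_zero _)

/-- the states of the uncovered gaps relative to `g` -/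
theorem effval (G : MG V E) (M : Finset E) (X : Finset V) (g : E) (Q : Finset (E × E))
    (A0 : Finset E) (U : E → Finset V) (h : Eff G M X g Q A0 U) (x : E → K4) (hx : G.Fl x) :
    ∀ e ∈ A0, x e + x g = ∑ r ∈ G.cut (U e) ∩ G.cut X, x r := by
  intro e he
  by_cases heg : e = g
  · subst heg
    have h0 : G.cut (U e) = ∅ := by
      rw [h.Ug]
      ext z
      rw [MG.mem_cut]
      simp
    rw [h0, Finset.empty_inter, Finset.sum_empty]
    exact k4_add_self _
  · have hs := MG.Fl_cut G x hx (U e)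
    have hcut := h.cutU e he heg
    have h1 : ∑ r ∈ G.cut (U e) ∩ G.cut X, x r + ∑ r ∈ G.cut (U e) \ G.cut X, x r
        = ∑ r ∈ G.cut (U e), x r := Finset.sum_inter_add_sum_sdiff _ _ _
    rw [hcut, Finset.sum_pair heg, hs] at h1
    have h2 := k4_add_self (x e + x g)
    have h3 : ∑ r ∈ G.cut (U e) ∩ G.cut X, x r + (x e + x g)
        = (x e + x g) + (x e + x g) := by rw [h1, h2]
    exact (add_right_cancel h3).symm

/-- the finite lemma of helper59 in the language of sets of edges -/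
theorem finlemS : ∃ c : ℝ, 0 < c ∧ ∀ (E : Type) [Fintype E] [DecidableEq E] (K A0 : Finset E)
    (D : E → Finset E) (g : E) (w : E → ℕ), K.Nonempty → K.card ≤ 7 → g ∈ A0 → D g = ∅ →
    (∀ e ∈ A0, D e ⊆ K) → (∀ e ∈ A0, D e ≠ K) → (∀ e ∈ A0, ∀ f ∈ A0, D e ⊆ D f ∨ D f ⊆ D e) →
    (∀ e ∈ A0, ∀ f ∈ A0, e ≠ f → D e ≠ D f) → (∀ e ∈ A0, w e ≤ w g) →
    ∃ l ∈ K, ∀ (p : E → K4), ∀ s ∈ K, s ≠ l → ∀ s' ∈ K, s' ≠ l →
      c * (w g : ℝ) ≤ vals w A0 D p + vals w A0 D (tog p (1, 0) {l, s})
        + vals w A0 D (tog p (0, 1) {l, s'}) := by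
  obtain ⟨c, hc, hfin⟩ := finiteLemma
  refine ⟨c, hc, ?_⟩
  intro E _ _ K A0 D g w hK hK7 hg hDg hDK hDne hch hinj hw
  have : Nonempty {r // r ∈ K} := ⟨⟨hK.choose, hK.choose_spec⟩⟩
  have hmem : ∀ (e : {e // e ∈ A0}) (r : {r // r ∈ K}),
      r ∈ (univ.filter (fun r : {r // r ∈ K} => r.1 ∈ D e.1)) ↔ r.1 ∈ D e.1 := by
    intro e r
    rw [Finset.mem_filter]
    exact ⟨fun h => h.2, fun h => ⟨Finset.mem_univ _, h⟩⟩
  obtain ⟨l, hl⟩ := hfin {e // e ∈ A0} {r // r ∈ K}
    (by rw [Fintype.card_coe]; exact hK7)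
    (fun e => univ.filter (fun r : {r // r ∈ K} => r.1 ∈ D e.1))
    (by
      intro e e'
      rcases hch e.1 e.2 e'.1 e'.2 with h | h
      · left
        intro r hr
        rw [hmem] at hr ⊢
        exact h hr
      · right
        intro r hr
        rw [hmem] at hr ⊢
        exact h hr)
    (by
      intro e e' h
      have h' : (univ.filter (fun r : {r // r ∈ K} => r.1 ∈ D e.1))
        = (univ.filter (fun r : {r // r ∈ K} => r.1 ∈ D e'.1)) := h
      by_contra hne
      have hne' : e.1 ≠ e'.1 := fun h1 => hne (Subtype.ext h1)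
      apply hinj e.1 e.2 e'.1 e'.2 hne'
      ext r
      constructor
      · intro hr
        have h1 := (hmem e ⟨r, hDK e.1 e.2 hr⟩).2 hr
        rw [h'] at h1
        exact (hmem e' _).1 h1
      · intro hr
        have h1 := (hmem e' ⟨r, hDK e'.1 e'.2 hr⟩).2 hr
        rw [← h'] at h1
        exact (hmem e _).1 h1)
    (by
      intro e h
      apply hDne e.1 e.2
      apply Finset.Subset.antisymm (hDK e.1 e.2)
      intro r hr
      have h1 : (⟨r, hr⟩ : {r // r ∈ K}) ∈ (univ.filter (fun r : {r // r ∈ K} => r.1 ∈ D e.1)) := by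
        rw [h]; exact Finset.mem_univ _
      exact (hmem e _).1 h1)
    ⟨g, hg⟩
    (by
      rw [Finset.eq_empty_iff_forall_notMem]
      intro r hr
      rw [hmem] at hr
      have h1 : r.1 ∈ D g := hr
      rw [hDg] at h1
      exact absurd h1 (Finset.notMem_empty _))
    (fun e => (w e.1 : ℝ)) (fun e => Nat.cast_nonneg _)
    (fun e => Nat.cast_le.2 (hw e.1 e.2))
  refine ⟨l.1, l.2, ?_⟩
  intro p s hs hsl s' hs' hsl'
  obtain ⟨j, k, hjk⟩ := hl (fun r => p r.1) ⟨s, hs⟩ ⟨s', hs'⟩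
    (fun h => hsl (congrArg Subtype.val h)) (fun h => hsl' (congrArg Subtype.val h))
  -- transfer of the character sums
  have hval : ∀ (q : E → K4) (q' : {r // r ∈ K} → K4), (∀ r, q' r = q r.1) →
      fval (fun e : {e // e ∈ A0} => univ.filter (fun r : {r // r ∈ K} => r.1 ∈ D e.1))
        (fun e => (w e.1 : ℝ)) q' k = val w A0 D k q := by
    intro q q' hq
    unfold fval val
    rw [← Finset.sum_coe_sort A0]
    apply Finset.sum_congr rfl
    intro e _
    have h1 : ∑ r ∈ univ.filter (fun r : {r // r ∈ K} => r.1 ∈ D e.1), q' r = ∑ r ∈ D e.1, q r := by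
      apply Finset.sum_bij (fun (r : {r // r ∈ K}) _ => r.1)
      · intro r hr
        exact (hmem e r).1 hr
      · intro a _ b _ hab
        exact Subtype.ext hab
      · intro r hr
        exact ⟨⟨r, hDK e.1 e.2 hr⟩, (hmem e _).2 hr, rfl⟩
      · intro r _
        exact hq r
    rw [h1]
  have hle : ∀ q : E → K4, |val w A0 D k q| ≤ vals w A0 D q := by
    intro q
    unfold vals
    exact Finset.single_le_sum (f := fun i : Fin 3 => |val w A0 D i q|)
      (fun i _ => abs_nonneg _) (Finset.mem_univ k)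
  have hnn : ∀ q : E → K4, 0 ≤ vals w A0 D q := fun q =>
    Finset.sum_nonneg (fun i _ => abs_nonneg _)
  have hchg : ∀ (s : E) (hs : s ∈ K) (d : K4) (r : {r // r ∈ K}),
      chg (fun r : {r // r ∈ K} => p r.1) l ⟨s, hs⟩ d r = tog p d {l.1, s} r.1 := by
    intro s hs d r
    unfold chg tog
    have h1 : (r = l ∨ r = ⟨s, hs⟩) ↔ r.1 ∈ ({l.1, s} : Finset E) := by
      rw [Finset.mem_insert, Finset.mem_singleton]
      constructor
      · rintro (h | h)
        · exact Or.inl (congrArg Subtype.val h)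
        · exact Or.inr (congrArg Subtype.val h)
      · rintro (h | h)
        · exact Or.inl (Subtype.ext h)
        · exact Or.inr (Subtype.ext h)
    by_cases h2 : r.1 ∈ ({l.1, s} : Finset E)
    · rw [if_pos (h1.2 h2), if_pos h2]
    · rw [if_neg (fun h3 => h2 (h1.1 h3)), if_neg h2, add_zero]
  have a0 := hnn p
  have a1 := hnn (tog p (1, 0) {l.1, s})
  have a2 := hnn (tog p (0, 1) {l.1, s'})
  fin_cases j
  · have h1 : fval (fun e : {e // e ∈ A0} => univ.filter (fun r : {r // r ∈ K} => r.1 ∈ D e.1))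
        (fun e => (w e.1 : ℝ)) (stt (fun r => p r.1) l ⟨s, hs⟩ ⟨s', hs'⟩ 0) k = val w A0 D k p :=
      hval _ _ (fun r => by rw [stt_zero])
    have h2 := hle p
    rw [← h1] at h2
    have h3 := le_trans hjk h2
    linarith
  · have h1 : fval (fun e : {e // e ∈ A0} => univ.filter (fun r : {r // r ∈ K} => r.1 ∈ D e.1))
        (fun e => (w e.1 : ℝ)) (stt (fun r => p r.1) l ⟨s, hs⟩ ⟨s', hs'⟩ 1) k
        = val w A0 D k (tog p (1, 0) {l.1, s}) :=
      hval _ _ (fun r => by rw [stt_one]; exact hchg s hs _ r)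
    have h2 := hle (tog p (1, 0) {l.1, s})
    rw [← h1] at h2
    have h3 := le_trans hjk h2
    linarith
  · have h1 : fval (fun e : {e // e ∈ A0} => univ.filter (fun r : {r // r ∈ K} => r.1 ∈ D e.1))
        (fun e => (w e.1 : ℝ)) (stt (fun r => p r.1) l ⟨s, hs⟩ ⟨s', hs'⟩ 2) k
        = val w A0 D k (tog p (0, 1) {l.1, s'}) :=
      hval _ _ (fun r => by rw [stt_two]; exact hchg s' hs' _ r)
    have h2 := hle (tog p (0, 1) {l.1, s'})
    rw [← h1] at h2
    have h3 := le_trans hjk h2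
    linarith

end Pool.Agent.Lib.MP_95e9b3_coG
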