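import Pool.Agent.Lib.MP_95e9b3_coG.R3Defs

/-!
# Route G, block R3: exchange of the two sets inside a region (`Om_swp`)
-/

set_option autoImplicit false
set_option linter.unusedSectionVars false
set_option linter.unusedVariables false

namespace Pool.Agent.Lib.MP_95e9b3_coG

open Finset Pool.Agent.Lib.MP_95e9b3_coC
open scoped symmDiff

variable {V E : Type} [Fintype V] [DecidableEq V] [Fintype E] [DecidableEq E]

/-- parity joins inside a connected region -/
theorem swp74_join (G : MG V E) (A : Finset E) (X : Finset V) (hA : Con G A X)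
    (D : Finset E) (hD : D ⊆ G.cut X) (hDe : Even D.card) :
    ∃ T ⊆ ins G A X, ∀ v ∈ X, G.dg T v % 2 = G.dg D v % 2 := by
  obtain ⟨f, hfin, hfout⟩ : ∃ f : V → Option V, (∀ v ∈ X, f v = some v) ∧
      (∀ v, v ∉ X → f v = none) :=
    ⟨fun v => if v ∈ X then some v else none, fun v hv => if_pos hv, fun v hv => if_neg hv⟩
  have hpar : ∀ U : Finset (Option V), ins G A X ∩ (G.mp f).cut U = ∅ →
      Even (D ∩ (G.mp f).cut U).card := by
    intro U hU
    rw [MG.cut_mp] at hU ⊢
    obtain ⟨W, hW⟩ : ∃ W, W = univ.filter (fun v => f v ∈ U) := ⟨_, rfl⟩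
    rw [← hW] at hU ⊢
    have key : (∀ a ∈ X, a ∈ W) ∨ (∀ a ∈ X, a ∉ W) := by
      by_cases h : ∃ a ∈ X, a ∈ W
      · obtain ⟨a, ha, haW⟩ := h
        left
        intro b hb
        exact MG.closed_Rch G (ins G A X) W hU a b haW (hA a ha b hb)
      · right
        intro a ha haW
        exact h ⟨a, ha, haW⟩
    have hout : (∀ a, a ∉ X → a ∈ W) ∨ (∀ a, a ∉ X → a ∉ W) := by
      by_cases h : (none : Option V) ∈ U
      · left
        intro a ha
        rw [hW, mem_filter, hfout a ha]
        exact ⟨mem_univ _, h⟩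
      · right
        intro a ha haW
        rw [hW, mem_filter, hfout a ha] at haW
        exact h haW.2
    have hres : D ∩ G.cut W = ∅ ∨ D ∩ G.cut W = D := by
      rcases key with k | k <;> rcases hout with o | o
      · left
        rw [Finset.eq_empty_iff_forall_notMem]
        intro e he
        rw [mem_inter, MG.mem_cut] at he
        have hall : ∀ a, a ∈ W := fun a => by
          by_cases ha : a ∈ X
          · exact k a ha
          · exact o a ha
        exact he.2 ⟨fun _ => hall _, fun _ => hall _⟩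
      · right
        have h1 : W = X := by
          ext a
          constructor
          · intro h
            by_contra ha
            exact o a ha h
          · exact k a
        rw [h1]
        exact Finset.inter_eq_left.2 hD
      · right
        have h1 : W = Xᶜ := by
          ext a
          rw [mem_compl]
          constructor
          · intro h ha
            exact k a ha h
          · exact o a
        rw [h1, MG.cut_compl]
        exact Finset.inter_eq_left.2 hD
      · left
        rw [Finset.eq_empty_iff_forall_notMem]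
        intro e he
        rw [mem_inter, MG.mem_cut] at he
        have hall : ∀ a, a ∉ W := fun a => by
          by_cases ha : a ∈ X
          · exact k a ha
          · exact o a ha
        exact he.2 ⟨fun h => absurd h (hall _), fun h => absurd h (hall _)⟩
    rcases hres with h | h
    · rw [h, card_empty]
      exact Even.zero
    · rw [h]
      exact hDe
  obtain ⟨J, hJ, hJS⟩ := MG.join_exists (G.mp f) (ins G A X) D hpar
  refine ⟨J, hJ, fun v hv => ?_⟩
  have h1 := hJS (some v)
  rw [MG.dg_mp, MG.dg_mp] at h1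
  have h2 : univ.filter (fun u => f u = some v) = {v} := by
    ext u
    rw [mem_filter, mem_singleton]
    constructor
    · rintro ⟨-, h⟩
      by_cases hu : u ∈ X
      · rw [hfin u hu] at h
        exact Option.some.inj h
      · rw [hfout u hu] at h
        exact absurd h (by simp)
    · intro h
      rw [h]
      exact ⟨mem_univ _, hfin v hv⟩
  rw [h2, sum_singleton, sum_singleton] at h1
  exact h1

/-- the edges of the cut with different coordinates -/
def swp74_dif (G : MG V E) (X : Finset V) (x : E → K4) : Finset E :=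
  (G.cut X).filter (fun e => (x e).1 + (x e).2 = 1)

/-- exchange of the coordinates inside `X`, plus a correction -/
def swp74_phi (G : MG V E) (X : Finset V) (T₁ T₂ : Finset E) (x : E → K4) : E → K4 :=
  fun e => if e ∈ ins G univ X then
    ((x e).2 + (if e ∈ T₁ then 1 else 0), (x e).1 + (if e ∈ T₂ then 1 else 0)) else x e

theorem swp74_mem_ins (G : MG V E) (A : Finset E) (X : Finset V) (e : E) :
    e ∈ ins G A X ↔ e ∈ A ∧ G.s e ∈ X ∧ G.t e ∈ X := by
  unfold ins
  rw [mem_filter]

theorem swp74_cut_ins (G : MG V E) (X : Finset V) (e : E) (he : e ∈ G.cut X) :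
    e ∉ ins G univ X := by
  intro h
  rw [swp74_mem_ins] at h
  rw [MG.mem_cut] at he
  exact he ⟨fun _ => h.2.2, fun _ => h.2.1⟩

theorem swp74_Om_mem (G : MG V E) (M S₁ S₂ : Finset E) (x : E → K4) :
    x ∈ Om G M S₁ S₂ ↔ G.Fl x ∧ (∀ e ∈ S₁, (x e).1 = 1) ∧ (∀ e ∈ S₂, (x e).2 = 1) ∧
      ∀ e ∈ M, x e ≠ 0 := by
  classical
  unfold Om
  rw [Finset.mem_filter]
  exact ⟨fun h => h.2, fun h => ⟨Finset.mem_univ x, h⟩⟩

/-- an even set restricted to the inside of `X`, corrected by a join of its boundary, is even -/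
theorem swp74_Ev (G : MG V E) (X : Finset V) (P T : Finset E) (hP : G.Ev P)
    (hT : T ⊆ ins G univ X) (hTd : ∀ v ∈ X, G.dg T v % 2 = G.dg (P ∩ G.cut X) v % 2) :
    G.Ev ((P ∩ ins G univ X) ∆ T) := by
  rw [← MG.Sim_iff]
  have hz : ∀ (v : V), v ∉ X → ∀ J : Finset E, J ⊆ ins G univ X → G.dg J v = 0 := by
    intro v hv J hJ
    unfold MG.dg
    apply Finset.sum_eq_zero
    intro e he
    have h1 := (swp74_mem_ins G univ X e).1 (hJ he)
    have h2 : ¬ (G.s e = v) := fun h => hv (by rw [← h]; exact h1.2.1)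
    have h3 : ¬ (G.t e = v) := fun h => hv (by rw [← h]; exact h1.2.2)
    unfold MG.inc
    rw [if_neg h2, if_neg h3, add_zero]
  intro v
  by_cases hv : v ∈ X
  · rw [hTd v hv]
    have h1 : G.dg P v = G.dg (P ∩ ins G univ X) v + G.dg (P ∩ G.cut X) v := by
      rw [← MG.dg_union]
      · unfold MG.dg
        symm
        apply Finset.sum_subset
        · intro e he
          rcases mem_union.1 he with h | h
          · exact (mem_inter.1 h).1
          · exact (mem_inter.1 h).1
        · intro e he hne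
          unfold MG.inc
          have h2 : ¬ (G.s e = v) := by
            intro h
            apply hne
            rw [mem_union, mem_inter, mem_inter, swp74_mem_ins, MG.mem_cut]
            by_cases ht : G.t e ∈ X
            · exact Or.inl ⟨he, mem_univ _, h ▸ hv, ht⟩
            · exact Or.inr ⟨he, fun hh => ht (hh.1 (h ▸ hv))⟩
          have h3 : ¬ (G.t e = v) := by
            intro h
            apply hne
            rw [mem_union, mem_inter, mem_inter, swp74_mem_ins, MG.mem_cut]
            by_cases ht : G.s e ∈ X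
            · exact Or.inl ⟨he, mem_univ _, ht, h ▸ hv⟩
            · exact Or.inr ⟨he, fun hh => ht (hh.2 (h ▸ hv))⟩
          rw [if_neg h2, if_neg h3, add_zero]
      · rw [Finset.disjoint_left]
        intro e he he'
        exact swp74_cut_ins G X e (mem_inter.1 he').2 (mem_inter.1 he).2
    have h2 := hP v
    rw [h1, Nat.even_iff] at h2
    omega
  · rw [hz v hv _ Finset.inter_subset_right, hz v hv _ hT]

theorem swp74_z2 (a b : ZMod 2) (h : ¬ (a + b = 1)) : a = b := by
  revert a b
  decide

theorem swp74_z2' (a b : ZMod 2) (h : a + b = 1) : b = a + 1 := by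
  revert a b
  decide

theorem swp74_phi_mem (G : MG V E) (M S₁ S₂ : Finset E) (hS : Two M S₁ S₂) (X : Finset V)
    (T₁ T₂ : Finset E) (hT1 : T₁ ⊆ ins G ((univ \ M) ∪ S₁) X)
    (hT2 : T₂ ⊆ ins G ((univ \ M) ∪ S₂) X) (x : E → K4) (hx : x ∈ Om G M S₁ S₂)
    (h1 : ∀ v ∈ X, G.dg T₁ v % 2 = G.dg (swp74_dif G X x) v % 2)
    (h2 : ∀ v ∈ X, G.dg T₂ v % 2 = G.dg (swp74_dif G X x) v % 2) :
    swp74_phi G X T₁ T₂ x ∈ Om G M (swp G X S₁ S₂) (swp G X S₂ S₁) := by
  rw [swp74_Om_mem] at hx ⊢
  obtain ⟨hF, hx1, hx2, hx0⟩ := hx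
  have hT1' : T₁ ⊆ ins G univ X := fun e he => by
    have := (swp74_mem_ins G _ X e).1 (hT1 he)
    exact (swp74_mem_ins G _ X e).2 ⟨mem_univ _, this.2⟩
  have hT2' : T₂ ⊆ ins G univ X := fun e he => by
    have := (swp74_mem_ins G _ X e).1 (hT2 he)
    exact (swp74_mem_ins G _ X e).2 ⟨mem_univ _, this.2⟩
  -- membership in `T₁`, `T₂` for the edges of `M`
  have hn1 : ∀ e ∈ M, e ∉ S₁ → e ∉ T₁ := by
    intro e he hs ht
    have := ((swp74_mem_ins G _ X e).1 (hT1 ht)).1
    rcases mem_union.1 this with h | h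
    · exact (mem_sdiff.1 h).2 he
    · exact hs h
  have hn2 : ∀ e ∈ M, e ∉ S₂ → e ∉ T₂ := by
    intro e he hs ht
    have := ((swp74_mem_ins G _ X e).1 (hT2 ht)).1
    rcases mem_union.1 this with h | h
    · exact (mem_sdiff.1 h).2 he
    · exact hs h
  have hin : ∀ e ∈ ins G univ X, swp74_phi G X T₁ T₂ x e =
      ((x e).2 + (if e ∈ T₁ then 1 else 0), (x e).1 + (if e ∈ T₂ then 1 else 0)) :=
    fun e he => if_pos he
  have hout : ∀ e, e ∉ ins G univ X → swp74_phi G X T₁ T₂ x e = x e :=
    fun e he => if_neg he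
  have hin2 : ∀ e ∈ S₂, e ∈ ins G univ X → (swp74_phi G X T₁ T₂ x e).1 = 1 := by
    intro e he hi
    rw [hin e hi]
    have hd : e ∉ S₁ := fun h => (Finset.disjoint_left.1 hS.hd) h he
    rw [if_neg (hn1 e (hS.h2 he) hd)]
    show (x e).2 + 0 = 1
    rw [hx2 e he, add_zero]
  have hin1 : ∀ e ∈ S₁, e ∈ ins G univ X → (swp74_phi G X T₁ T₂ x e).2 = 1 := by
    intro e he hi
    rw [hin e hi]
    have hd : e ∉ S₂ := fun h => (Finset.disjoint_left.1 hS.hd) he h
    rw [if_neg (hn2 e (hS.h1 he) hd)]
    show (x e).1 + 0 = 1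
    rw [hx1 e he, add_zero]
  refine ⟨?_, ?_, ?_, ?_⟩
  · -- flow
    have hφ : ∃ φ : K4 →+ ZMod 2, ∀ k, φ k = k.1 + k.2 :=
      ⟨AddMonoidHom.fst (ZMod 2) (ZMod 2) + AddMonoidHom.snd (ZMod 2) (ZMod 2), fun k => rfl⟩
    obtain ⟨φ, hφ⟩ := hφ
    have hP := MG.Fl_hom G x hF φ
    obtain ⟨P, hPd⟩ : ∃ P, P = univ.filter (fun e => φ (x e) = 1) := ⟨_, rfl⟩
    rw [← hPd] at hP
    have hPm : ∀ e, e ∈ P ↔ (x e).1 + (x e).2 = 1 := by
      intro e
      rw [hPd, mem_filter, hφ]
      exact ⟨fun h => h.2, fun h => ⟨mem_univ _, h⟩⟩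
    have hPc : P ∩ G.cut X = swp74_dif G X x := by
      ext e
      unfold swp74_dif
      rw [mem_inter, mem_filter, hPm]
      exact and_comm
    have e1 := swp74_Ev G X P T₁ hP hT1' (by rw [hPc]; exact h1)
    have e2 := swp74_Ev G X P T₂ hP hT2' (by rw [hPc]; exact h2)
    have hz := MG.Fl_add G x _ hF (MG.Fl_of_Ev G _ _ e1 e2)
    have heq : swp74_phi G X T₁ T₂ x = fun e => x e +
        ((if e ∈ (P ∩ ins G univ X) ∆ T₁ then 1 else 0 : ZMod 2),
          (if e ∈ (P ∩ ins G univ X) ∆ T₂ then 1 else 0 : ZMod 2)) := by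
      funext e
      by_cases hi : e ∈ ins G univ X
      · rw [hin e hi]
        have hgen : ∀ T : Finset E, (if e ∈ (P ∩ ins G univ X) ∆ T then 1 else 0 : ZMod 2) =
            (x e).1 + (x e).2 + (if e ∈ T then 1 else 0) := by
          intro T
          by_cases hp : (x e).1 + (x e).2 = 1
          · rw [hp]
            by_cases ht : e ∈ T
            · rw [if_pos ht, if_neg]
              · decide
              · rw [mem_symmDiff, mem_inter, hPm]
                tauto
            · rw [if_neg ht, if_pos]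
              · decide
              · rw [mem_symmDiff, mem_inter, hPm]
                tauto
          · have h0 : (x e).1 + (x e).2 = 0 := by
              rw [swp74_z2 _ _ hp]
              exact CharTwo.add_self_eq_zero _
            rw [h0]
            by_cases ht : e ∈ T
            · rw [if_pos ht, if_pos]
              · decide
              · rw [mem_symmDiff, mem_inter, hPm]
                tauto
            · rw [if_neg ht, if_neg]
              · decide
              · rw [mem_symmDiff, mem_inter, hPm]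
                tauto
        rw [hgen, hgen]
        have hx2 : ∀ a b c : ZMod 2, b + c = a + (a + b + c) := by decide
        have hx3 : ∀ a b c : ZMod 2, a + c = b + (a + b + c) := by decide
        apply Prod.ext
        · exact hx2 _ _ _
        · exact hx3 _ _ _
      · rw [hout e hi]
        have hgen : ∀ T : Finset E, T ⊆ ins G univ X → e ∉ (P ∩ ins G univ X) ∆ T := by
          intro T hT h
          rw [mem_symmDiff, mem_inter] at h
          rcases h with h | h
          · exact hi h.1.2
          · exact hi (hT h.1)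
        rw [if_neg (hgen T₁ hT1'), if_neg (hgen T₂ hT2')]
        show x e = x e + 0
        rw [add_zero]
    rw [heq]
    exact hz
  · intro e he
    unfold swp at he
    rcases mem_union.1 he with h | h
    · rw [hout e (mem_sdiff.1 h).2]
      exact hx1 e (mem_sdiff.1 h).1
    · have h' := (swp74_mem_ins G _ X e).1 h
      exact hin2 e h'.1 ((swp74_mem_ins G _ X e).2 ⟨mem_univ _, h'.2⟩)
  · intro e he
    unfold swp at he
    rcases mem_union.1 he with h | h
    · rw [hout e (mem_sdiff.1 h).2]
      exact hx2 e (mem_sdiff.1 h).1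
    · have h' := (swp74_mem_ins G _ X e).1 h
      exact hin1 e h'.1 ((swp74_mem_ins G _ X e).2 ⟨mem_univ _, h'.2⟩)
  · intro e he
    by_cases hi : e ∈ ins G univ X
    · by_cases hs1 : e ∈ S₁
      · intro h0
        have := hin1 e hs1 hi
        rw [h0] at this
        exact absurd this (by decide)
      · by_cases hs2 : e ∈ S₂
        · intro h0
          have := hin2 e hs2 hi
          rw [h0] at this
          exact absurd this (by decide)
        · rw [hin e hi, if_neg (hn1 e he hs1), if_neg (hn2 e he hs2), add_zero, add_zero]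
          intro h0
          apply hx0 e he
          have ha := congrArg Prod.fst h0
          have hb := congrArg Prod.snd h0
          exact Prod.ext hb ha
    · rw [hout e hi]
      exact hx0 e he

theorem swp74_swp (G : MG V E) (X : Finset V) (S₁ S₂ : Finset E) :
    swp G X (swp G X S₁ S₂) (swp G X S₂ S₁) = S₁ := by
  ext e
  unfold swp
  simp only [mem_union, mem_sdiff, swp74_mem_ins, mem_univ, true_and]
  tauto

theorem swp74_Two (G : MG V E) (M S₁ S₂ : Finset E) (hS : Two M S₁ S₂) (X : Finset V) :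
    Two M (swp G X S₁ S₂) (swp G X S₂ S₁) := by
  have h1 := hS.h1
  have h2 := hS.h2
  have hd := Finset.disjoint_left.1 hS.hd
  refine ⟨?_, ?_, ?_⟩
  · intro e he
    unfold swp at he
    simp only [mem_union, mem_sdiff, swp74_mem_ins, mem_univ, true_and] at he
    rcases he with h | h
    · exact h1 h.1
    · exact h2 h.1
  · intro e he
    unfold swp at he
    simp only [mem_union, mem_sdiff, swp74_mem_ins, mem_univ, true_and] at he
    rcases he with h | h
    · exact h2 h.1
    · exact h1 h.1
  · rw [Finset.disjoint_left]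
    intro e he he'
    unfold swp at he he'
    simp only [mem_union, mem_sdiff, swp74_mem_ins, mem_univ, true_and] at he he'
    have := @hd e
    tauto

theorem swp74_ins_swp (G : MG V E) (X : Finset V) (A S₁ S₂ : Finset E) :
    ins G (A ∪ swp G X S₁ S₂) X = ins G (A ∪ S₂) X := by
  ext e
  unfold swp
  simp only [mem_union, mem_sdiff, swp74_mem_ins, mem_univ, true_and]
  tauto

/-- JOB Om_swp: exchange of `S₁` and `S₂` inside a region does not change the law outside. -/
theorem Om_swp (G : MG V E) (M S₁ S₂ : Finset E) (hS : Two M S₁ S₂) (X : Finset V)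
    (hX : G.cut X ⊆ M) (c1 : Con G ((univ \ M) ∪ S₁) X) (c2 : Con G ((univ \ M) ∪ S₂) X)
    (h : (E → K4) → ℝ) (hh : ∀ x y : E → K4, (∀ e, e ∉ ins G univ X → x e = y e) → h x = h y) :
    ∑ x ∈ Om G M S₁ S₂, h x = ∑ x ∈ Om G M (swp G X S₁ S₂) (swp G X S₂ S₁), h x := by
  classical
  -- choice of the corrections
  have hc1 : ∀ D : Finset E, ∃ T ⊆ ins G ((univ \ M) ∪ S₁) X, (D ⊆ G.cut X → Even D.card →
      ∀ v ∈ X, G.dg T v % 2 = G.dg D v % 2) := by
    intro D
    by_cases hD : D ⊆ G.cut X ∧ Even D.card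
    · obtain ⟨T, hT, hT'⟩ := swp74_join G _ X c1 D hD.1 hD.2
      exact ⟨T, hT, fun _ _ => hT'⟩
    · exact ⟨∅, Finset.empty_subset _, fun h1 h2 => absurd ⟨h1, h2⟩ hD⟩
  have hc2 : ∀ D : Finset E, ∃ T ⊆ ins G ((univ \ M) ∪ S₂) X, (D ⊆ G.cut X → Even D.card →
      ∀ v ∈ X, G.dg T v % 2 = G.dg D v % 2) := by
    intro D
    by_cases hD : D ⊆ G.cut X ∧ Even D.card
    · obtain ⟨T, hT, hT'⟩ := swp74_join G _ X c2 D hD.1 hD.2
      exact ⟨T, hT, fun _ _ => hT'⟩
    · exact ⟨∅, Finset.empty_subset _, fun h1 h2 => absurd ⟨h1, h2⟩ hD⟩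
  choose T₁ hT1 hT1' using hc1
  choose T₂ hT2 hT2' using hc2
  have hdif : ∀ x : E → K4, G.Fl x → swp74_dif G X x ⊆ G.cut X ∧ Even (swp74_dif G X x).card := by
    intro x hx
    refine ⟨Finset.filter_subset _ _, ?_⟩
    have hφ : ∃ φ : K4 →+ ZMod 2, ∀ k, φ k = k.1 + k.2 :=
      ⟨AddMonoidHom.fst (ZMod 2) (ZMod 2) + AddMonoidHom.snd (ZMod 2) (ZMod 2), fun k => rfl⟩
    obtain ⟨φ, hφ⟩ := hφ
    have hP := MG.Ev_cut G _ (MG.Fl_hom G x hx φ) X
    have heq : (univ.filter (fun e => φ (x e) = 1)) ∩ G.cut X = swp74_dif G X x := by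
      ext e
      unfold swp74_dif
      rw [mem_inter, mem_filter, mem_filter, hφ]
      constructor
      · intro h
        exact ⟨h.2, h.1.2⟩
      · intro h
        exact ⟨⟨mem_univ _, h.2⟩, h.1⟩
    rw [heq] at hP
    exact hP
  have hdphi : ∀ (A B : Finset E) (x : E → K4),
      swp74_dif G X (swp74_phi G X A B x) = swp74_dif G X x := by
    intro A B x
    unfold swp74_dif
    apply Finset.filter_congr
    intro e he
    have : swp74_phi G X A B x e = x e := if_neg (swp74_cut_ins G X e he)
    rw [this]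
  have hinv : ∀ (A B : Finset E) (x : E → K4),
      swp74_phi G X B A (swp74_phi G X A B x) = x := by
    intro A B x
    funext e
    by_cases hi : e ∈ ins G univ X
    · have e1 : swp74_phi G X A B x e =
          ((x e).2 + (if e ∈ A then 1 else 0), (x e).1 + (if e ∈ B then 1 else 0)) := if_pos hi
      have e2 : swp74_phi G X B A (swp74_phi G X A B x) e =
          ((swp74_phi G X A B x e).2 + (if e ∈ B then 1 else 0),
            (swp74_phi G X A B x e).1 + (if e ∈ A then 1 else 0)) := if_pos hi
      rw [e2, e1]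
      have h3 : ∀ a b : ZMod 2, a + b + b = a := by decide
      apply Prod.ext
      · exact h3 _ _
      · exact h3 _ _
    · have e1 : swp74_phi G X A B x e = x e := if_neg hi
      have e2 : swp74_phi G X B A (swp74_phi G X A B x) e = swp74_phi G X A B x e := if_neg hi
      rw [e2, e1]
  have hTwo := swp74_Two G M S₁ S₂ hS X
  have hs1 := swp74_swp G X S₁ S₂
  have hs2 := swp74_swp G X S₂ S₁
  refine Finset.sum_bij'
    (fun x _ => swp74_phi G X (T₁ (swp74_dif G X x)) (T₂ (swp74_dif G X x)) x)
    (fun x _ => swp74_phi G X (T₂ (swp74_dif G X x)) (T₁ (swp74_dif G X x)) x) ?_ ?_ ?_ ?_ ?_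
  · intro x hx
    have hF := ((swp74_Om_mem G M S₁ S₂ x).1 hx).1
    obtain ⟨d1, d2⟩ := hdif x hF
    exact swp74_phi_mem G M S₁ S₂ hS X _ _ (hT1 _) (hT2 _) x hx (hT1' _ d1 d2) (hT2' _ d1 d2)
  · intro x hx
    have hF := ((swp74_Om_mem G M _ _ x).1 hx).1
    obtain ⟨d1, d2⟩ := hdif x hF
    have h5 := swp74_phi_mem G M _ _ hTwo X (T₂ (swp74_dif G X x)) (T₁ (swp74_dif G X x))
      (by rw [swp74_ins_swp]; exact hT2 _) (by rw [swp74_ins_swp]; exact hT1 _) x hx
      (hT2' _ d1 d2) (hT1' _ d1 d2)
    rw [hs1, hs2] at h5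
    exact h5
  · intro x _
    show swp74_phi G X (T₂ (swp74_dif G X (swp74_phi G X _ _ x)))
      (T₁ (swp74_dif G X (swp74_phi G X _ _ x))) (swp74_phi G X _ _ x) = x
    rw [hdphi]
    exact hinv _ _ x
  · intro x _
    show swp74_phi G X (T₁ (swp74_dif G X (swp74_phi G X _ _ x)))
      (T₂ (swp74_dif G X (swp74_phi G X _ _ x))) (swp74_phi G X _ _ x) = x
    rw [hdphi]
    exact hinv _ _ x
  · intro x _
    apply hh
    intro e he
    symm
    exact if_neg he

end Pool.Agent.Lib.MP_95e9b3_coG
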