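import Pool.Agent.Lib.MP_95e9b3_coG.R3Defs

/-!
# Route G, block R3: exchanges (`tw`), helper53
-/

set_option autoImplicit false

namespace Pool.Agent.Lib.MP_95e9b3_coG

open Finset Pool.Agent.Lib.MP_95e9b3_coC

variable {V E : Type} [Fintype V] [DecidableEq V] [Fintype E] [DecidableEq E]

theorem tw53_mem (G : MG V E) (D : Finset (Finset V)) (S₁ S₂ : Finset E) (e : E) :
    e ∈ tw G D S₁ S₂ ↔ (e ∈ S₁ ∧ Even (mult G D e)) ∨ (e ∈ S₂ ∧ ¬ Even (mult G D e)) := by
  unfold tw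
  rw [mem_union, mem_filter, mem_filter]

theorem tw53_mult (G : MG V E) (D : Finset (Finset V)) (X : Finset V) (hX : X ∉ D) (e : E) :
    mult G (insert X D) e = mult G D e + (if G.s e ∈ X ∧ G.t e ∈ X then 1 else 0) := by
  unfold mult
  rw [filter_insert]
  split_ifs with h
  · rw [card_insert_of_notMem]
    intro h1
    exact hX (mem_filter.1 h1).1
  · rfl

/-- JOB tw: rules for the exchanged sets -/
theorem tw_swp (G : MG V E) (M S₁ S₂ : Finset E) (hS : Two M S₁ S₂) (D : Finset (Finset V))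
    (X : Finset V) (hX : X ∉ D) :
    tw G (insert X D) S₁ S₂ = swp G X (tw G D S₁ S₂) (tw G D S₂ S₁) := by
  have _ := hS
  ext e
  unfold swp ins
  rw [tw53_mem, mem_union, mem_sdiff, mem_filter, mem_filter, tw53_mem, tw53_mem,
    tw53_mult G D X hX]
  by_cases h : G.s e ∈ X ∧ G.t e ∈ X
  · rw [if_pos h, Nat.even_add_one]
    have h0 := mem_univ e
    tauto
  · rw [if_neg h, add_zero]
    tauto

/-- JOB tw -/
theorem tw_Two (G : MG V E) (M S₁ S₂ : Finset E) (hS : Two M S₁ S₂) (D : Finset (Finset V)) :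
    Two M (tw G D S₁ S₂) (tw G D S₂ S₁) ∧ tw G D S₁ S₂ ∪ tw G D S₂ S₁ = S₁ ∪ S₂ := by
  refine ⟨⟨?_, ?_, ?_⟩, ?_⟩
  · intro e he
    rw [tw53_mem] at he
    rcases he with he | he
    · exact hS.h1 he.1
    · exact hS.h2 he.1
  · intro e he
    rw [tw53_mem] at he
    rcases he with he | he
    · exact hS.h2 he.1
    · exact hS.h1 he.1
  · rw [disjoint_left]
    intro e h1 h2
    rw [tw53_mem] at h1 h2
    have h3 : e ∈ S₁ → e ∉ S₂ := fun a => (disjoint_left.1 hS.hd) a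
    tauto
  · ext e
    rw [mem_union, tw53_mem, tw53_mem, mem_union]
    tauto

theorem own53_mem (G : MG V E) (M : Finset E) (R : Finset (Finset V)) (X : Finset V) (e : E) :
    e ∈ own G M R X ↔ e ∈ M ∧ G.s e ∈ X ∧ G.t e ∈ X ∧
      ∀ Y ∈ R, Y ⊂ X → ¬ (G.s e ∈ Y ∧ G.t e ∈ Y) := by
  unfold own ins
  rw [mem_filter, mem_filter]
  tauto

theorem own53_in (G : MG V E) (M : Finset E) (R : Finset (Finset V)) (hR : Lmr G M R)
    (X : Finset V) (hX : X ∈ R) (e : E) (he : e ∈ own G M R X) (Y : Finset V) (hY : Y ∈ R) :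
    (G.s e ∈ Y ∧ G.t e ∈ Y) ↔ X ⊆ Y := by
  rw [own53_mem] at he
  obtain ⟨_, hs, ht, h⟩ := he
  constructor
  · intro hy
    rcases hR.lam X hX Y hY with h1 | h1 | h1
    · exact h1
    · by_cases h2 : Y = X
      · rw [h2]
      · exact absurd hy (h Y hY (Finset.ssubset_iff_subset_ne.2 ⟨h1, h2⟩))
    · exact absurd hy.1 (disjoint_left.1 h1 hs)
  · intro h1
    exact ⟨h1 hs, h1 ht⟩

theorem own53_eq (G : MG V E) (M : Finset E) (R : Finset (Finset V)) (hR : Lmr G M R)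
    (X : Finset V) (hX : X ∈ R) (Y : Finset V) (hY : Y ∈ R) (e : E) (he : e ∈ own G M R X)
    (he' : e ∈ own G M R Y) : X = Y := by
  have h1 := (own53_mem G M R X e).1 he
  have h2 := (own53_mem G M R Y e).1 he'
  exact Finset.Subset.antisymm ((own53_in G M R hR X hX e he Y hY).1 ⟨h2.2.1, h2.2.2.1⟩)
    ((own53_in G M R hR Y hY e he' X hX).1 ⟨h1.2.1, h1.2.2.1⟩)

theorem tw53_own (G : MG V E) (M : Finset E) (R : Finset (Finset V)) (hR : Lmr G M R)
    (D : Finset (Finset V)) (hD : D ⊆ R) (X : Finset V) (hX : X ∈ R) (e : E)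
    (he : e ∈ own G M R X) : mult G D e = (D.filter (fun Y => X ⊆ Y)).card := by
  unfold mult
  congr 1
  ext Y
  rw [mem_filter, mem_filter]
  constructor
  · rintro ⟨h1, h2⟩
    exact ⟨h1, (own53_in G M R hR X hX e he Y (hD h1)).1 h2⟩
  · rintro ⟨h1, h2⟩
    exact ⟨h1, (own53_in G M R hR X hX e he Y (hD h1)).2 h2⟩

theorem tw53_even (G : MG V E) (M : Finset E) (R : Finset (Finset V)) (hR : Lmr G M R)
    (S₁ S₂ : Finset E) (D : Finset (Finset V)) (hD : D ⊆ R) (X : Finset V) (hX : X ∈ R)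
    (h : Even (D.filter (fun Y => X ⊆ Y)).card) :
    tw G D S₁ S₂ ∩ own G M R X = S₁ ∩ own G M R X := by
  ext e
  rw [mem_inter, mem_inter, tw53_mem]
  constructor
  · rintro ⟨h1, h2⟩
    rw [tw53_own G M R hR D hD X hX e h2] at h1
    tauto
  · rintro ⟨h1, h2⟩
    rw [tw53_own G M R hR D hD X hX e h2]
    tauto

theorem tw53_odd (G : MG V E) (M : Finset E) (R : Finset (Finset V)) (hR : Lmr G M R)
    (S₁ S₂ : Finset E) (D : Finset (Finset V)) (hD : D ⊆ R) (X : Finset V) (hX : X ∈ R)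
    (h : ¬ Even (D.filter (fun Y => X ⊆ Y)).card) :
    tw G D S₁ S₂ ∩ own G M R X = S₂ ∩ own G M R X := by
  ext e
  rw [mem_inter, mem_inter, tw53_mem]
  constructor
  · rintro ⟨h1, h2⟩
    rw [tw53_own G M R hR D hD X hX e h2] at h1
    tauto
  · rintro ⟨h1, h2⟩
    rw [tw53_own G M R hR D hD X hX e h2]
    tauto

end Pool.Agent.Lib.MP_95e9b3_coG
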