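import Pool.Agent.Lib.MP_95e9b3_coG.R3Defs

/-!
# Route G, block R4 (= R3 when `H` has 4-cuts): definitions

`R` a laminar family of regions (`Lmr`), `P ⊆ R` the regions with a distinguished edge `g X` of
`F = univ \ M`. The members of `R` with four boundary edges are the 4-members. Inside a 4-member
the coordinates of the flow are changed by the automorphism `sel G Q x`, which depends only on the
values of `x` on `cut Q`.
-/

set_option autoImplicit false

namespace Pool.Agent.Lib.MP_95e9b3_coG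

open Finset Pool.Agent.Lib.MP_95e9b3_coC

variable {V E : Type} [Fintype V] [DecidableEq V] [Fintype E] [DecidableEq E]

/-- `N` is a child of `X` in the family `R` -/
def Chd (R : Finset (Finset V)) (X N : Finset V) : Prop :=
  N ∈ R ∧ N ⊂ X ∧ ∀ N' ∈ R, N ⊂ N' → X ⊆ N'

open Classical in
/-- the edges of `own X` at children with at least five boundary edges -/
noncomputable def E5 (G : MG V E) (M : Finset E) (R : Finset (Finset V)) (X : Finset V) :
    Finset E :=
  (own G M R X).filter (fun e => ∃ N, Chd R X N ∧ e ∈ G.cut N ∧ 5 ≤ (G.cut N).card)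

/-- laminar families for the general case. `P`: the regions (never `univ`). -/
structure Fam4 (G : MG V E) (M : Finset E) (w : E → ℕ) (R P : Finset (Finset V))
    (g : Finset V → E) : Prop extends Lmr G M R where
  sub : P ⊆ R
  pu : ∀ X ∈ P, X ≠ univ
  four : ∀ X ∈ R, X ≠ univ → 4 ≤ (G.cut X).card
  small : ∀ X ∈ P, (G.cut X).card ≤ 7
  gF : ∀ X ∈ P, g X ∉ M
  gX : ∀ X ∈ P, G.s (g X) ∈ X
  gmax : ∀ X ∈ P, ∀ e ∈ G.ce (univ \ M) (G.s (g X)), w e ≤ w (g X)
  direct : ∀ X ∈ R, ∀ Y ∈ P, X ⊂ Y → G.s (g Y) ∉ X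
  denP : ∀ X ∈ P, ∀ c : V → V, (∀ e, e ∉ M → c (G.s e) = c (G.t e)) →
    (∀ e ∈ low G M R X, c (G.s e) = c (G.t e)) → 2 ≤ (X.image c).card →
    2 * (X.image c).card ≤ (crs G (own G M R X) c).card + 1
  denR : ∀ X ∈ R, ∀ c : V → V, (∀ e, e ∉ M → c (G.s e) = c (G.t e)) →
    (∀ e ∈ low G M R X, c (G.s e) = c (G.t e)) → 2 ≤ (X.image c).card →
    16 * (2 * (X.image c).card) + (crs G (E5 G M R X) c).card ≤
      16 * (crs G (own G M R X) c).card + 16 * 2

/-- connectors of all contracted regions without superfluous edges -/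
structure Trs (G : MG V E) (M : Finset E) (R : Finset (Finset V)) (T : Finset E) : Prop where
  sub : T ⊆ M
  con : ∀ X ∈ R, ∀ a ∈ X, ∀ b ∈ X, G.Rch ((T ∩ own G M R X) ∪ low G M R X) a b
  acy : ∀ X ∈ R, ∀ C, G.Ev C → C ⊆ (T ∩ own G M R X) ∪ low G M R X → C ∩ own G M R X = ∅

/-- `Q` is the smallest member with four boundary edges (or `univ`) which contains `X` -/
def Up (G : MG V E) (R : Finset (Finset V)) (X Q : Finset V) : Prop :=
  Q ∈ R ∧ (Q = univ ∨ (G.cut Q).card = 4) ∧ X ⊆ Q ∧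
    ∀ Q' ∈ R, (G.cut Q').card = 4 → X ⊆ Q' → Q ⊆ Q'

open Classical in
/-- an automorphism with the property `p`, if there is one -/
noncomputable def selp (p : (K4 ≃+ K4) → Prop) : K4 ≃+ K4 :=
  if h : ∃ σ, p σ then Classical.choose h else AddEquiv.refl K4

/-- the coordinates inside `Q` for the flow `x` -/
noncomputable def sel (G : MG V E) (Q : Finset V) (x : E → K4) : K4 ≃+ K4 :=
  selp (fun σ => (∀ e ∈ G.cut Q, (σ (x e)).2 = 1) ∧ ∃ e ∈ G.cut Q, σ (x e) = (1, 1))

/-- flows with first coordinate `1` on `T₁`, second coordinate `1` on `T₂` and value `val e` on the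
other edges of `M`, in the coordinates of the smallest 4-member around the edge -/
structure Val4 (G : MG V E) (M : Finset E) (R : Finset (Finset V)) (T₁ T₂ : Finset E)
    (val x : E → K4) : Prop where
  fl : G.Fl x
  loc : ∀ e ∈ M, ∀ Q, Up G R {G.s e, G.t e} Q →
    (e ∈ T₁ → (sel G Q x (x e)).1 = 1) ∧ (e ∈ T₂ → (sel G Q x (x e)).2 = 1) ∧
    (e ∉ T₁ → e ∉ T₂ → sel G Q x (x e) = val e)

/-- the edges of `M` with value `a` -/
def Jd (M : Finset E) (x : E → K4) (a : K4) : Finset E := M.filter (fun e => x e = a)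

/-- transparency: all edges of `cut X` with a value different from `a` end in the same component of
`X` minus the edges of value `a` -/
def TR (G : MG V E) (M : Finset E) (x : E → K4) (a : K4) (X : Finset V) : Prop :=
  ∀ e ∈ G.cut X, ∀ e' ∈ G.cut X, x e ≠ a → x e' ≠ a → ∀ p ∈ X, ∀ p' ∈ X,
    (G.s e = p ∨ G.t e = p) → (G.s e' = p' ∨ G.t e' = p') →
    G.Rch (ins G (univ \ Jd M x a) X) p p'

/-- `e` and `f` are in the same even sets outside `J` -/
def Sc (G : MG V E) (J : Finset E) (e f : E) : Prop :=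
  ∀ Z, G.Ev Z → Disjoint Z J → (e ∈ Z ↔ f ∈ Z)

/-- class relations on `A0` in the direction `a`; `∑ i ∈ D e, p i` is the label of `e` -/
structure Rel4 (A0 : Finset E) (D : E → Finset E) (p : E → K4) (a : K4) (r : E → E → Prop) :
    Prop where
  refl : ∀ e ∈ A0, r e e
  symm : ∀ e ∈ A0, ∀ f ∈ A0, r e f → r f e
  trans : ∀ e ∈ A0, ∀ f ∈ A0, ∀ h ∈ A0, r e f → r f h → r e h
  two : ∀ e ∈ A0, ∀ f ∈ A0, r e f → (∑ i ∈ D f, p i = ∑ i ∈ D e, p i ∨
    ∑ i ∈ D f, p i = (∑ i ∈ D e, p i) + a)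
  nc : ∀ e₁ ∈ A0, ∀ e₂ ∈ A0, ∀ e₃ ∈ A0, ∀ e₄ ∈ A0, D e₁ ⊂ D e₂ → D e₂ ⊂ D e₃ → D e₃ ⊂ D e₄ →
    r e₁ e₃ → r e₂ e₄ → r e₁ e₂

/-- the relation separates `e` and `f` if exactly one of `l`, `s` is in `D e ∆ D f` -/
def Spr (A0 : Finset E) (D : E → Finset E) (l s : E) (r : E → E → Prop) : Prop :=
  ∀ e ∈ A0, ∀ f ∈ A0, ¬ ((l ∈ D e ↔ l ∈ D f) ↔ (s ∈ D e ↔ s ∈ D f)) → ¬ r e f

open Classical in
/-- signed weight of the class of `e` -/
noncomputable def cls (w : E → ℕ) (A0 : Finset E) (D : E → Finset E) (p : E → K4)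
    (r : E → E → Prop) (e : E) : ℝ :=
  ∑ f ∈ A0.filter (fun f => r e f),
    (w f : ℝ) * (if ∑ i ∈ D f, p i = ∑ i ∈ D e, p i then 1 else -1)

open Classical in
/-- signed weight of the class of `h` on the circuit `C` -/
noncomputable def clC (G : MG V E) (M : Finset E) (w : E → ℕ) (x : E → K4) (a : K4)
    (C : Finset E) (h : E) : ℝ :=
  ∑ f ∈ C.filter (fun f => Sc G (Jd M x a) h f), (w f : ℝ) * (if x f = x h then 1 else -1)

/-- the three states -/
def st3 (i : Fin 3) : K4 := if i = 0 then (1, 1) else if i = 1 then (0, 1) else (1, 0)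

/-- the values of the free edges: three states on `Lf`, otherwise `(1, 1)` -/
def vst (Lf : Finset E) (s : E → Fin 3) (e : E) : K4 := if e ∈ Lf then st3 (s e) else (1, 1)

end Pool.Agent.Lib.MP_95e9b3_coG
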