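import Pool.Agent.Lib.MP_95e9b3_coG.R4Defs

/-!
# Route G, block R4: definitions (second part)
-/

set_option autoImplicit false

namespace Pool.Agent.Lib.MP_95e9b3_coG

open Finset Pool.Agent.Lib.MP_95e9b3_coC

variable {V E : Type} [Fintype V] [DecidableEq V] [Fintype E] [DecidableEq E]

/-- `l` is a good edge: among the outcomes with values `(1,1)`, `(0,1)`, `(1,0)` of `l` one has an
unbalanced class -/
def GoodL (c : ℝ) (K A0 : Finset E) (D : E → Finset E) (g : E) (w : E → ℕ) (l : E) : Prop :=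
  ∀ (p : E → K4), p l = (1, 1) → ∀ s ∈ K, s ≠ l → ∀ s' ∈ K, s' ≠ l → s ≠ s' →
    ∀ r r' r₁ r₂ : E → E → Prop,
      Rel4 A0 D p (1, 0) r → Spr A0 D l s r →
      Rel4 A0 D p (0, 1) r' → Spr A0 D l s' r' →
      Rel4 A0 D (tog p (1, 0) {l, s}) (0, 1) r₁ →
      Rel4 A0 D (tog p (0, 1) {l, s'}) (1, 0) r₂ →
      ∃ e ∈ A0, c * (w g : ℝ) ≤ |cls w A0 D p r e| ∨ c * (w g : ℝ) ≤ |cls w A0 D p r' e| ∨
        c * (w g : ℝ) ≤ |cls w A0 D (tog p (1, 0) {l, s}) r₁ e| ∨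
        c * (w g : ℝ) ≤ |cls w A0 D (tog p (0, 1) {l, s'}) r₂ e|

/-- every pattern with second coordinate `1` on `K0` has an unbalanced class -/
def GoodP (c : ℝ) (K K0 A0 : Finset E) (D : E → Finset E) (g : E) (w : E → ℕ) : Prop :=
  ∀ (p : E → K4), ∑ i ∈ K, p i = 0 → (∀ i ∈ K0, (p i).2 = 1) →
    ∀ r r' : E → E → Prop, Rel4 A0 D p (1, 0) r → Rel4 A0 D p (0, 1) r' →
      ∃ e ∈ A0, c * (w g : ℝ) ≤ |cls w A0 D p r e| ∨ c * (w g : ℝ) ≤ |cls w A0 D p r' e|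

/-- the setting of the averages -/
structure Set4 (G : MG V E) (M : Finset E) (w : E → ℕ) (R P : Finset (Finset V))
    (g : Finset V → E) (A : Finset (Finset V)) (S₁ S₂ T₁ T₂ : Finset E)
    (xf : Finset (Finset V) → (E → Fin 3) → E → K4) : Prop where
  fam : Fam4 G M w R P g
  pm : ∀ v, G.dg M v = 1
  ev : G.Ev (univ \ M)
  AP : A ⊆ P
  two : Two M S₁ S₂
  c₁ : ∀ X ∈ R, ∀ a ∈ X, ∀ b ∈ X, G.Rch ((S₁ ∩ own G M R X) ∪ low G M R X) a b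
  c₂ : ∀ X ∈ R, ∀ a ∈ X, ∀ b ∈ X, G.Rch ((S₂ ∩ own G M R X) ∪ low G M R X) a b
  ts₁ : T₁ ⊆ S₁
  ts₂ : T₂ ⊆ S₂
  t₁ : Trs G M R T₁
  t₂ : Trs G M R T₂
  hx : ∀ D ⊆ A, ∀ s, Val4 G M R (tw G D T₁ T₂) (tw G D T₂ T₁) (vst (M \ (S₁ ∪ S₂)) s) (xf D s)

end Pool.Agent.Lib.MP_95e9b3_coG
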