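import Pool.Agent.Lib.MP_95e9b3_coG.R4Defs

/-!
# Route G, block R4: coordinates inside 4-members (helper25)

`sel_congr`, `sel_univ`, `sel_spec`, `up_exists`, `up_own`, `up_cut`, `val_nz`.
-/

set_option autoImplicit false
set_option linter.unusedSectionVars false

namespace Pool.Agent.Lib.MP_95e9b3_coG

open Finset Pool.Agent.Lib.MP_95e9b3_coC

variable {V E : Type} [Fintype V] [DecidableEq V] [Fintype E] [DecidableEq E]

private theorem selp_spec (p : (K4 ≃+ K4) → Prop) (h : ∃ σ, p σ) : p (selp p) := by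
  unfold selp
  rw [dif_pos h]
  exact Classical.choose_spec h

/-- the additive map `(s, t) ↦ s (u + v) + t v` -/
private def gmap (u v : K4) : K4 →+ K4 where
  toFun p := (p.1 * (u + v).1 + p.2 * v.1, p.1 * (u + v).2 + p.2 * v.2)
  map_zero' := by simp
  map_add' p q := by
    ext
    · show (p + q).1 * (u + v).1 + (p + q).2 * v.1 = (p.1 * (u + v).1 + p.2 * v.1) +
        (q.1 * (u + v).1 + q.2 * v.1)
      simp only [Prod.fst_add, Prod.snd_add]
      ring
    · show (p + q).1 * (u + v).2 + (p + q).2 * v.2 = (p.1 * (u + v).2 + p.2 * v.2) +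
        (q.1 * (u + v).2 + q.2 * v.2)
      simp only [Prod.fst_add, Prod.snd_add]
      ring

private theorem sel_basis (u v : K4) (hu : u ≠ 0) (hv : v ≠ 0) (huv : u ≠ v) :
    ∃ σ : K4 ≃+ K4, σ u = (1, 1) ∧ σ v = (0, 1) := by
  have h0 : ∀ u v : K4, u ≠ 0 → v ≠ 0 → u ≠ v → ∀ p : K4,
      ((p.1 * (u + v).1 + p.2 * v.1, p.1 * (u + v).2 + p.2 * v.2) : K4) = 0 → p = 0 := by decide
  have hinj : Function.Injective (gmap u v) := by
    rw [injective_iff_map_eq_zero]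
    exact fun p hp => h0 u v hu hv huv p hp
  have hbij : Function.Bijective (gmap u v) := Finite.injective_iff_bijective.1 hinj
  refine ⟨(AddEquiv.ofBijective (gmap u v) hbij).symm, ?_, ?_⟩
  · rw [AddEquiv.symm_apply_eq]
    show u = ((1 : ZMod 2) * (u + v).1 + 1 * v.1, (1 : ZMod 2) * (u + v).2 + 1 * v.2)
    have h1 : ∀ u v : K4,
      u = ((1 : ZMod 2) * (u + v).1 + 1 * v.1, (1 : ZMod 2) * (u + v).2 + 1 * v.2) := by decide
    exact h1 u v
  · rw [AddEquiv.symm_apply_eq]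
    show v = ((0 : ZMod 2) * (u + v).1 + 1 * v.1, (0 : ZMod 2) * (u + v).2 + 1 * v.2)
    have h1 : ∀ u v : K4,
      v = ((0 : ZMod 2) * (u + v).1 + 1 * v.1, (0 : ZMod 2) * (u + v).2 + 1 * v.2) := by decide
    exact h1 u v

/-- four nonzero values with sum zero: at most two different values -/
private theorem sel_four (a b c d : K4) (ha : a ≠ 0) (hb : b ≠ 0) (hc : c ≠ 0) (hd : d ≠ 0)
    (hs : a + b + c + d = 0) :
    ∃ v : K4, v ≠ 0 ∧ v ≠ a ∧ (b = a ∨ b = v) ∧ (c = a ∨ c = v) ∧ (d = a ∨ d = v) := by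
  have h1 : d = a + b + c := by
    have h2 : ∀ u v : K4, u + v = 0 → v = u := by decide
    exact h2 _ _ hs
  rw [h1] at hd ⊢
  have key : ∀ a b c : K4, a ≠ 0 → b ≠ 0 → c ≠ 0 → a + b + c ≠ 0 →
      ∃ v : K4, (v ≠ 0 ∧ v ≠ a) ∧ (b = a ∨ b = v) ∧ (c = a ∨ c = v) ∧
        (a + b + c = a ∨ a + b + c = v) := by decide
  obtain ⟨v, ⟨h3, h4⟩, h5⟩ := key a b c ha hb hc hd
  exact ⟨v, h3, h4, h5⟩

/-- JOB sel_congr: `sel G Q x` depends only on the values on `cut Q` -/
theorem sel_congr (G : MG V E) (Q : Finset V) (x y : E → K4) (h : ∀ e ∈ G.cut Q, x e = y e) :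
    sel G Q x = sel G Q y := by
  unfold sel
  congr 1
  funext σ
  refine propext (and_congr ?_ ?_)
  · exact forall_congr' fun e => forall_congr' fun he => by rw [h e he]
  · exact exists_congr fun e => and_congr_right fun he => by rw [h e he]

/-- JOB sel_univ -/
theorem sel_univ (G : MG V E) (x : E → K4) : sel G univ x = AddEquiv.refl K4 := by
  unfold sel selp
  rw [dif_neg]
  rintro ⟨σ, -, e, he, -⟩
  rw [MG.mem_cut] at he
  exact he ⟨fun _ => mem_univ _, fun _ => mem_univ _⟩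

/-- JOB sel_spec: four nonzero values with sum zero are `u, u, v, v` (or all equal) -/
theorem sel_spec (G : MG V E) (Q : Finset V) (x : E → K4) (hx : G.Fl x)
    (h4 : (G.cut Q).card = 4) (hnz : ∀ e ∈ G.cut Q, x e ≠ 0) :
    (∀ e ∈ G.cut Q, (sel G Q x (x e)).2 = 1) ∧ ∃ e ∈ G.cut Q, sel G Q x (x e) = (1, 1) := by
  unfold sel
  refine selp_spec (fun σ : K4 ≃+ K4 => (∀ e ∈ G.cut Q, (σ (x e)).2 = 1) ∧
    ∃ e ∈ G.cut Q, σ (x e) = (1, 1)) ?_
  have hs := G.Fl_cut x hx Q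
  obtain ⟨a, b, c, d, hab, hac, had, hbc, hbd, hcd, hK⟩ := Finset.card_eq_four.1 h4
  rw [hK] at hs hnz ⊢
  rw [Finset.sum_insert (by simp [hab, hac, had]), Finset.sum_insert (by simp [hbc, hbd]),
    Finset.sum_pair hcd] at hs
  have ha := hnz a (by simp)
  have hb := hnz b (by simp)
  have hc := hnz c (by simp)
  have hd := hnz d (by simp)
  obtain ⟨v, hv0, hva, h1, h2, h3⟩ := sel_four (x a) (x b) (x c) (x d) ha hb hc hd
    (by rw [← hs]; ring)
  obtain ⟨σ, hσ1, hσ2⟩ := sel_basis (x a) v ha hv0 (Ne.symm hva)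
  have key : ∀ y : K4, (y = x a ∨ y = v) → (σ y).2 = 1 := by
    rintro y (rfl | rfl)
    · rw [hσ1]
    · rw [hσ2]
  refine ⟨σ, ?_, a, by simp, hσ1⟩
  intro e he
  rw [mem_insert, mem_insert, mem_insert, mem_singleton] at he
  rcases he with rfl | rfl | rfl | rfl
  · exact key _ (Or.inl rfl)
  · exact key _ h1
  · exact key _ h2
  · exact key _ h3

/-- JOB up_exists: the smallest 4-member (or `univ`) around a nonempty set -/
theorem up_exists (G : MG V E) (M : Finset E) (R : Finset (Finset V)) (hR : Lmr G M R)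
    (X : Finset V) (hX : X.Nonempty) : ∃ Q, Up G R X Q := by
  classical
  set L : Finset (Finset V) := R.filter (fun Q => (Q = univ ∨ (G.cut Q).card = 4) ∧ X ⊆ Q) with hL
  have hmem : ∀ Q, Q ∈ L ↔ Q ∈ R ∧ (Q = univ ∨ (G.cut Q).card = 4) ∧ X ⊆ Q := fun Q => by
    rw [hL, mem_filter]
  have hne : L.Nonempty := ⟨univ, (hmem _).2 ⟨hR.top, Or.inl rfl, subset_univ _⟩⟩
  obtain ⟨Q, hQ, hmin⟩ := L.exists_min_image (fun Q => Q.card) hne
  have h1 := (hmem Q).1 hQ
  refine ⟨Q, h1.1, h1.2.1, h1.2.2, fun Q' hQ' h4 hXQ' => ?_⟩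
  rcases hR.lam Q h1.1 Q' hQ' with h | h | h
  · exact h
  · have h2 := hmin Q' ((hmem Q').2 ⟨hQ', Or.inr h4, hXQ'⟩)
    have h3 := Finset.eq_of_subset_of_card_le h h2
    rw [h3]
  · obtain ⟨a, ha⟩ := hX
    exact absurd (hXQ' ha) (Finset.disjoint_left.1 h (h1.2.2 ha))

/-- JOB up_own: the edges of `own X` have the level of `X` -/
theorem up_own (G : MG V E) (M : Finset E) (R : Finset (Finset V)) (hR : Lmr G M R)
    (X Q : Finset V) (hX : X ∈ R) (e : E) (he : e ∈ own G M R X) (hQ : Up G R X Q) :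
    Up G R {G.s e, G.t e} Q := by
  unfold own ins at he
  rw [mem_filter, mem_filter] at he
  obtain ⟨⟨-, hs, ht⟩, hno⟩ := he
  refine ⟨hQ.1, hQ.2.1, ?_, fun Q' hQ' h4 hsub => ?_⟩
  · intro a ha
    rw [mem_insert, mem_singleton] at ha
    rcases ha with rfl | rfl
    · exact hQ.2.2.1 hs
    · exact hQ.2.2.1 ht
  · have hs' : G.s e ∈ Q' := hsub (by simp)
    have ht' : G.t e ∈ Q' := hsub (by simp)
    refine hQ.2.2.2 Q' hQ' h4 ?_
    rcases hR.lam X hX Q' hQ' with h | h | h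
    · exact h
    · by_contra hn
      exact hno Q' hQ' ⟨h, hn⟩ ⟨hs', ht'⟩
    · exact absurd hs' (Finset.disjoint_left.1 h hs)

/-- JOB up_cut: the edges of `cut X` inside `Q` have the level `Q`, if `X` is no 4-member -/
theorem up_cut (G : MG V E) (M : Finset E) (R : Finset (Finset V)) (hR : Lmr G M R)
    (X Q : Finset V) (hX : X ∈ R) (hX4 : (G.cut X).card ≠ 4) (hXu : X ≠ univ) (hQ : Up G R X Q)
    (e : E) (he : e ∈ G.cut X) (heQ : e ∈ ins G univ Q) : Up G R {G.s e, G.t e} Q := by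
  unfold ins at heQ
  rw [mem_filter] at heQ
  obtain ⟨-, hs, ht⟩ := heQ
  refine ⟨hQ.1, hQ.2.1, ?_, fun Q' hQ' h4 hsub => ?_⟩
  · intro a ha
    rw [mem_insert, mem_singleton] at ha
    rcases ha with rfl | rfl
    · exact hs
    · exact ht
  · have hs' : G.s e ∈ Q' := hsub (by simp)
    have ht' : G.t e ∈ Q' := hsub (by simp)
    rw [MG.mem_cut] at he
    refine hQ.2.2.2 Q' hQ' h4 ?_
    rcases hR.lam X hX Q' hQ' with h | h | h
    · exact h
    · exact absurd ⟨fun _ => h ht', fun _ => h hs'⟩ he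
    · have h1 : G.s e ∉ X := fun h2 => Finset.disjoint_left.1 h h2 hs'
      have h2 : G.t e ∉ X := fun h2 => Finset.disjoint_left.1 h h2 ht'
      exact absurd ⟨fun h3 => absurd h3 h1, fun h3 => absurd h3 h2⟩ he

/-- JOB val_nz -/
theorem val_nz (G : MG V E) (M : Finset E) (R : Finset (Finset V)) (hR : Lmr G M R)
    (T₁ T₂ : Finset E) (val x : E → K4) (hval : ∀ e, val e ≠ 0) (hx : Val4 G M R T₁ T₂ val x) :
    ∀ e ∈ M, x e ≠ 0 := by
  intro e he h0
  obtain ⟨Q, hQ⟩ := up_exists G M R hR {G.s e, G.t e} ⟨G.s e, by simp⟩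
  obtain ⟨h1, h2, h3⟩ := hx.loc e he Q hQ
  rw [h0, map_zero] at h1 h2 h3
  by_cases hT1 : e ∈ T₁
  · exact absurd (h1 hT1) (by decide)
  · by_cases hT2 : e ∈ T₂
    · exact absurd (h2 hT2) (by decide)
    · exact hval e (h3 hT1 hT2).symm

end Pool.Agent.Lib.MP_95e9b3_coG
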