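import Pool.Agent.Lib.MP_95e9b3_coG.R4Defs

/-!
# Route G, block R4: fundamental cuts, uniqueness lemma, crossing circuits (helper53)
-/

set_option autoImplicit false

namespace Pool.Agent.Lib.MP_95e9b3_coG

open Finset Pool.Agent.Lib.MP_95e9b3_coC
open scoped symmDiff

variable {V E : Type} [Fintype V] [DecidableEq V] [Fintype E] [DecidableEq E]

/-- JOB fcut: fundamental cuts. -/
theorem fcut (G : MG V E) (M : Finset E) (T : Finset E) (hT : T ⊆ M)
    (acy : ∀ C, G.Ev C → C ⊆ (univ \ M) ∪ T → C ∩ M = ∅) (e : E) (he : e ∈ T) :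
    ∃ U : Finset V, ((univ \ M) ∪ T) ∩ G.cut U = {e} := by
  refine ⟨G.cv (((univ \ M) ∪ T).erase e) (G.s e), ?_⟩
  have heS : e ∈ (univ \ M) ∪ T := mem_union_right _ he
  have hs : G.s e ∈ G.cv (((univ \ M) ∪ T).erase e) (G.s e) := by
    rw [MG.mem_cv]
    exact G.Rch_refl _ _
  have ht : G.t e ∉ G.cv (((univ \ M) ∪ T).erase e) (G.s e) := by
    intro h
    rw [MG.mem_cv] at h
    obtain ⟨P, hP, hd⟩ := G.Rch_join _ _ _ h
    have heP : e ∉ P := fun h1 => (mem_erase.1 (hP h1)).1 rfl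
    have hev : G.Ev (P ∆ {e}) := by
      intro v
      have h1 := G.dg_symm P {e} v
      have h2 : G.dg {e} v = G.inc e v := by
        unfold MG.dg
        rw [sum_singleton]
      rw [h2, G.inc_Jn e (G.s e) (G.t e) (Or.inl ⟨rfl, rfl⟩) v] at h1
      have h3 := hd v
      rw [Nat.even_iff]
      omega
    have h1 := acy (P ∆ {e}) hev (by
      intro x hx
      rw [mem_symmDiff, mem_singleton] at hx
      rcases hx with hx | hx
      · exact mem_of_mem_erase (hP hx.1)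
      · rw [hx.1]
        exact heS)
    have h2 : e ∈ (P ∆ {e}) ∩ M := by
      rw [mem_inter, mem_symmDiff, mem_singleton]
      exact ⟨Or.inr ⟨rfl, heP⟩, hT he⟩
    rw [h1] at h2
    exact notMem_empty _ h2
  ext x
  rw [mem_inter, mem_singleton]
  constructor
  · rintro ⟨h1, h2⟩
    by_contra hne
    have h3 : x ∈ (((univ \ M) ∪ T).erase e) ∩
        G.cut (G.cv (((univ \ M) ∪ T).erase e) (G.s e)) :=
      mem_inter.2 ⟨mem_erase.2 ⟨hne, h1⟩, h2⟩
    rw [G.cv_cut] at h3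
    exact notMem_empty _ h3
  · intro h
    rw [h]
    refine ⟨heS, ?_⟩
    rw [MG.mem_cut]
    exact fun h1 => ht (h1.1 hs)

/-- JOB ul (uniqueness lemma) -/
theorem ul (G : MG V E) (M : Finset E) (T : Finset E) (hT : T ⊆ M)
    (acy : ∀ C, G.Ev C → C ⊆ (univ \ M) ∪ T → C ∩ M = ∅)
    (W : Finset (Finset V)) (hW : ∀ X ∈ W, Con G ((univ \ M) ∪ T) X) (C : Finset E)
    (hC : G.Ev C) (hCs : ∀ e ∈ C, e ∈ (univ \ M) ∪ T ∨ ∃ X ∈ W, e ∈ ins G univ X) :
    ∀ e ∈ C, e ∈ M → ∃ X ∈ W, e ∈ ins G univ X := by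
  intro e heC heM
  by_contra hno
  have heT : e ∈ T := by
    rcases hCs e heC with h | h
    · rw [mem_union, mem_sdiff] at h
      rcases h with h | h
      · exact absurd heM h.2
      · exact h
    · exact absurd h hno
  obtain ⟨U, hU⟩ := fcut G M T hT acy e heT
  have h1 : C ∩ G.cut U = {e} := by
    ext f
    rw [mem_inter, mem_singleton]
    constructor
    · rintro ⟨hfC, hfU⟩
      rcases hCs f hfC with h | ⟨X, hX, hfX⟩
      · have h2 : f ∈ ((univ \ M) ∪ T) ∩ G.cut U := mem_inter.2 ⟨h, hfU⟩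
        rw [hU, mem_singleton] at h2
        exact h2
      · exfalso
        have hc : ins G ((univ \ M) ∪ T) X ∩ G.cut U = ∅ := by
          rw [eq_empty_iff_forall_notMem]
          intro x hx
          rw [mem_inter] at hx
          unfold ins at hx
          rw [mem_filter] at hx
          have h2 : x ∈ ((univ \ M) ∪ T) ∩ G.cut U := mem_inter.2 ⟨hx.1.1, hx.2⟩
          rw [hU, mem_singleton] at h2
          rw [h2] at hx
          refine hno ⟨X, hX, ?_⟩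
          unfold ins
          rw [mem_filter]
          exact ⟨mem_univ _, hx.1.2⟩
        unfold ins at hfX
        rw [mem_filter] at hfX
        have h3 := hW X hX _ hfX.2.1 _ hfX.2.2
        rw [MG.mem_cut] at hfU
        exact hfU ⟨fun h => G.closed_Rch _ U hc _ _ h h3,
          fun h => G.closed_Rch _ U hc _ _ h (G.Rch_symm _ _ _ h3)⟩
    · intro h
      rw [h]
      have h2 : e ∈ ((univ \ M) ∪ T) ∩ G.cut U := by
        rw [hU]
        exact mem_singleton_self e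
      exact ⟨heC, (mem_inter.1 h2).2⟩
  have h2 := G.Ev_cut C hC U
  rw [h1, card_singleton] at h2
  exact absurd h2 (by decide)

/-- an edge of `A` which leaves the set of the vertices connected to `q` without touching `X` -/
theorem fcut_exit (G : MG V E) (A : Finset E) (X : Finset V) (q p : V) (hq : q ∉ X) (hp : p ∈ X)
    (h : G.Rch A q p) : ∃ s ∈ A, ∃ a b, G.Jn s a b ∧ G.Rch (avd G A X) q a ∧ a ∉ X ∧ b ∈ X := by
  have hU : ∀ v ∈ G.cv (avd G A X) q, v ∉ X := by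
    intro v hv hvX
    rw [MG.mem_cv] at hv
    have hc : avd G A X ∩ G.cut X = ∅ := by
      rw [eq_empty_iff_forall_notMem]
      intro e he
      rw [mem_inter] at he
      unfold avd at he
      rw [mem_filter, MG.mem_cut] at he
      exact he.2 ⟨fun h1 => absurd h1 he.1.2.1, fun h1 => absurd h1 he.1.2.2⟩
    exact hq (G.closed_Rch _ X hc v q hvX (G.Rch_symm _ _ _ hv))
  have hqU : q ∈ G.cv (avd G A X) q := by
    rw [MG.mem_cv]
    exact G.Rch_refl _ _
  have hne : A ∩ G.cut (G.cv (avd G A X) q) ≠ ∅ := by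
    intro h0
    exact hU p (G.closed_Rch A _ h0 q p hqU h) hp
  obtain ⟨s, hs⟩ := nonempty_iff_ne_empty.2 hne
  rw [mem_inter] at hs
  have hsa : s ∉ avd G A X := by
    intro h1
    have h2 : s ∈ avd G A X ∩ G.cut (G.cv (avd G A X) q) := mem_inter.2 ⟨h1, hs.2⟩
    rw [G.cv_cut] at h2
    exact notMem_empty _ h2
  unfold avd at hsa
  rw [mem_filter] at hsa
  have hs2 := hs.2
  rw [MG.mem_cut] at hs2
  by_cases h1 : G.s s ∈ G.cv (avd G A X) q
  · have h2 := hU _ h1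
    have h3 : G.t s ∈ X := by
      by_contra h3
      exact hsa ⟨hs.1, h2, h3⟩
    rw [MG.mem_cv] at h1
    exact ⟨s, hs.1, G.s s, G.t s, Or.inl ⟨rfl, rfl⟩, h1, h2, h3⟩
  · have h1' : G.t s ∈ G.cv (avd G A X) q := by
      by_contra h4
      exact hs2 ⟨fun h5 => absurd h5 h1, fun h5 => absurd h5 h4⟩
    have h2 := hU _ h1'
    have h3 : G.s s ∈ X := by
      by_contra h3
      exact hsa ⟨hs.1, h3, h2⟩
    rw [MG.mem_cv] at h1'
    exact ⟨s, hs.1, G.t s, G.s s, Or.inr ⟨rfl, rfl⟩, h1', h2, h3⟩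

/-- JOB crossing4: an edge `l` of `cut X` inside `Q` closes a circuit in `F ∪ T` inside `Q` which
meets `cut X` in exactly two edges. -/
theorem crossing4 (G : MG V E) (M T : Finset E) (hT : T ⊆ M) (X Q : Finset V) (hX : G.cut X ⊆ M)
    (hXQ : X ⊆ Q) (c1 : Con G ((univ \ M) ∪ T) X) (c2 : Con G ((univ \ M) ∪ T) Q) (l : E)
    (hl : l ∈ G.cut X) (hlQ : l ∈ ins G univ Q) (hlT : l ∉ T) :
    ∃ Z, G.Ev Z ∧ l ∈ Z ∧ Z ⊆ ins G univ Q ∧ Z.erase l ⊆ (univ \ M) ∪ T ∧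
      ∃ s, s ≠ l ∧ s ∈ G.cut X ∧ s ∈ T ∧ Z ∩ G.cut X = {l, s} := by
  have _ := hT
  have hlS : l ∉ (univ \ M) ∪ T := by
    rw [mem_union, mem_sdiff]
    rintro (h | h)
    · exact h.2 (hX hl)
    · exact hlT h
  unfold ins at hlQ
  rw [mem_filter] at hlQ
  -- the ends of `l`
  obtain ⟨p, q, hpq, hp, hq, hpQ, hqQ⟩ : ∃ p q, G.Jn l p q ∧ p ∈ X ∧ q ∉ X ∧ p ∈ Q ∧ q ∈ Q := by
    have h1 := hl
    rw [MG.mem_cut] at h1
    by_cases h2 : G.s l ∈ X
    · exact ⟨G.s l, G.t l, Or.inl ⟨rfl, rfl⟩, h2, fun h3 => h1 ⟨fun _ => h3, fun _ => h2⟩,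
        hlQ.2.1, hlQ.2.2⟩
    · have h3 : G.t l ∈ X := by
        by_contra h4
        exact h1 ⟨fun h5 => absurd h5 h2, fun h5 => absurd h5 h4⟩
      exact ⟨G.t l, G.s l, Or.inr ⟨rfl, rfl⟩, h3, h2, hlQ.2.2, hlQ.2.1⟩
  obtain ⟨s, hs, a, b, hab, hqa, haX, hbX⟩ :=
    fcut_exit G (ins G ((univ \ M) ∪ T) Q) X q p hq hp (c2 q hqQ p hpQ)
  unfold ins at hs
  rw [mem_filter] at hs
  have hsX : s ∈ G.cut X := by
    rw [MG.mem_cut]
    rcases hab with ⟨h1, h2⟩ | ⟨h1, h2⟩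
    · rw [h1, h2]
      exact fun h => haX (h.2 hbX)
    · rw [h1, h2]
      exact fun h => haX (h.1 hbX)
  have hsT : s ∈ T := by
    have h1 := hs.1
    rw [mem_union, mem_sdiff] at h1
    rcases h1 with h1 | h1
    · exact absurd (hX hsX) h1.2
    · exact h1
  have hsl : s ≠ l := fun h => hlT (h ▸ hsT)
  obtain ⟨P₁, hP₁, hd₁⟩ := G.Rch_join _ _ _ hqa
  obtain ⟨P₂, hP₂, hd₂⟩ := G.Rch_join _ _ _ (c1 b hbX p hp)
  -- facts on the two paths
  have f1 : ∀ e ∈ P₁, e ∈ (univ \ M) ∪ T ∧ G.s e ∈ Q ∧ G.t e ∈ Q ∧ G.s e ∉ X ∧ G.t e ∉ X := by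
    intro e he
    have h1 := hP₁ he
    unfold avd ins at h1
    rw [mem_filter, mem_filter] at h1
    exact ⟨h1.1.1, h1.1.2.1, h1.1.2.2, h1.2.1, h1.2.2⟩
  have f2 : ∀ e ∈ P₂, e ∈ (univ \ M) ∪ T ∧ G.s e ∈ X ∧ G.t e ∈ X := by
    intro e he
    have h1 := hP₂ he
    unfold ins at h1
    rw [mem_filter] at h1
    exact ⟨h1.1, h1.2.1, h1.2.2⟩
  have g1 : ∀ e ∈ P₁, e ∉ G.cut X := by
    intro e he h
    have h1 := f1 e he
    rw [MG.mem_cut] at h
    exact h ⟨fun h2 => absurd h2 h1.2.2.2.1, fun h2 => absurd h2 h1.2.2.2.2⟩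
  have g2 : ∀ e ∈ P₂, e ∉ G.cut X := by
    intro e he h
    have h1 := f2 e he
    rw [MG.mem_cut] at h
    exact h ⟨fun _ => h1.2.2, fun _ => h1.2.1⟩
  have s1 : s ∉ P₁ := fun h => g1 s h hsX
  have s2 : s ∉ P₂ := fun h => g2 s h hsX
  have l1 : l ∉ P₁ := fun h => g1 l h hl
  have l2 : l ∉ P₂ := fun h => g2 l h hl
  refine ⟨((P₁ ∆ {s}) ∆ P₂) ∆ {l}, ?_, ?_, ?_, ?_, s, hsl, hsX, hsT, ?_⟩
  · intro v
    have h1 := G.dg_symm P₁ {s} v
    have h2 := G.dg_symm (P₁ ∆ {s}) P₂ v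
    have h3 := G.dg_symm ((P₁ ∆ {s}) ∆ P₂) {l} v
    have h4 : G.dg {s} v = G.inc s v := by
      unfold MG.dg
      rw [sum_singleton]
    have h5 : G.dg {l} v = G.inc l v := by
      unfold MG.dg
      rw [sum_singleton]
    rw [h4, G.inc_Jn s a b hab v] at h1
    rw [h5, G.inc_Jn l p q hpq v] at h3
    have h6 := hd₁ v
    have h7 := hd₂ v
    rw [Nat.even_iff]
    omega
  · rw [mem_symmDiff, mem_symmDiff, mem_symmDiff, mem_singleton, mem_singleton]
    have := hsl.symm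
    tauto
  · intro e he
    rw [mem_symmDiff, mem_symmDiff, mem_symmDiff, mem_singleton, mem_singleton] at he
    unfold ins
    rw [mem_filter]
    refine ⟨mem_univ _, ?_⟩
    have h1 : e ∈ P₁ ∨ e = s ∨ e ∈ P₂ ∨ e = l := by tauto
    rcases h1 with h1 | h1 | h1 | h1
    · exact ⟨(f1 e h1).2.1, (f1 e h1).2.2.1⟩
    · rw [h1]
      exact hs.2
    · exact ⟨hXQ (f2 e h1).2.1, hXQ (f2 e h1).2.2⟩
    · rw [h1]
      exact hlQ.2
  · intro e he
    rw [mem_erase, mem_symmDiff, mem_symmDiff, mem_symmDiff, mem_singleton, mem_singleton] at he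
    have h1 : e ∈ P₁ ∨ e = s ∨ e ∈ P₂ := by tauto
    rcases h1 with h1 | h1 | h1
    · exact (f1 e h1).1
    · rw [h1]
      exact hs.1
    · exact (f2 e h1).1
  · ext e
    rw [mem_inter, mem_symmDiff, mem_symmDiff, mem_symmDiff, mem_singleton, mem_singleton,
      mem_insert, mem_singleton]
    constructor
    · rintro ⟨h1, h2⟩
      have h3 : e ∉ P₁ := fun h => g1 e h h2
      have h4 : e ∉ P₂ := fun h => g2 e h h2
      tauto
    · rintro (h | h)
      · rw [h]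
        have := hsl.symm
        exact ⟨by tauto, hl⟩
      · rw [h]
        exact ⟨by tauto, hsX⟩

end Pool.Agent.Lib.MP_95e9b3_coG
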