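import Pool.Agent.Lib.MP_95e9b3_coG.R4Defs
import Pool.Agent.Lib.MP_95e9b3_coG.R3_con

/-!
# Route G, block R4: minimal connectors
-/

set_option autoImplicit false

namespace Pool.Agent.Lib.MP_95e9b3_coG

open Finset Pool.Agent.Lib.MP_95e9b3_coC

variable {V E : Type} [Fintype V] [DecidableEq V] [Fintype E] [DecidableEq E]

/-- the ends of an edge of an even set are connected by the other edges -/
theorem trees_ev (G : MG V E) (C : Finset E) (hC : G.Ev C) (e : E) (he : e ∈ C) :
    G.Rch (C.erase e) (G.s e) (G.t e) := by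
  by_contra hn
  have h1 : C ∩ G.cut (G.cv (C.erase e) (G.s e)) = {e} := by
    ext f
    rw [mem_inter, mem_singleton]
    constructor
    · rintro ⟨hf, hc⟩
      by_contra hfe
      have h2 : f ∈ C.erase e ∩ G.cut (G.cv (C.erase e) (G.s e)) :=
        mem_inter.mpr ⟨mem_erase.mpr ⟨hfe, hf⟩, hc⟩
      rw [G.cv_cut] at h2
      exact notMem_empty _ h2
    · intro hf
      rw [hf]
      refine ⟨he, ?_⟩
      rw [MG.mem_cut, MG.mem_cv, MG.mem_cv]
      intro h2
      exact hn (h2.mp (G.Rch_refl _ _))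
  have h2 := G.Ev_cut C hC (G.cv (C.erase e) (G.s e))
  rw [h1, card_singleton] at h2
  exact absurd h2 (by decide)

/-- JOB trees -/
theorem trees (G : MG V E) (M : Finset E) (R : Finset (Finset V)) (hR : Lmr G M R) (S : Finset E)
    (hS : S ⊆ M) (c : ∀ X ∈ R, ∀ a ∈ X, ∀ b ∈ X, G.Rch ((S ∩ own G M R X) ∪ low G M R X) a b) :
    ∃ T ⊆ S, Trs G M R T := by
  classical
  obtain ⟨T, hT, hmin⟩ := exists_min_image (S.powerset.filter (fun T => ∀ X ∈ R, ∀ a ∈ X, ∀ b ∈ X,
    G.Rch ((T ∩ own G M R X) ∪ low G M R X) a b)) (fun T => T.card)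
    ⟨S, mem_filter.mpr ⟨mem_powerset.mpr (Subset.refl _), c⟩⟩
  rw [mem_filter, mem_powerset] at hT
  obtain ⟨hTS, hcon⟩ := hT
  refine ⟨T, hTS, ⟨hTS.trans hS, hcon, ?_⟩⟩
  intro X hX C hC hCs
  rw [eq_empty_iff_forall_notMem]
  intro e he
  rw [mem_inter] at he
  have heT : e ∈ T := by
    have h1 := hCs he.1
    rw [mem_union, mem_inter] at h1
    rcases h1 with h1 | h1
    · exact h1.1
    · unfold low at h1
      exact absurd he.2 (mem_sdiff.mp h1).2
  have h2 := hmin (T.erase e) (by
    rw [mem_filter, mem_powerset]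
    refine ⟨(erase_subset _ _).trans hTS, ?_⟩
    intro Z hZ a ha b hb
    by_cases hZX : Z = X
    · refine glue_lift G _ _ ?_ a b (hcon Z hZ a ha b hb)
      intro f hf
      by_cases hfe : f = e
      · rw [hfe]
        refine G.Rch_mono _ _ ?_ _ _ (trees_ev G C hC e he.1)
        intro f' hf'
        rw [mem_erase] at hf'
        have h3 := hCs hf'.2
        rw [hZX]
        rw [mem_union, mem_inter] at h3 ⊢
        rcases h3 with h3 | h3
        · exact Or.inl ⟨mem_erase.mpr ⟨hf'.1, h3.1⟩, h3.2⟩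
        · exact Or.inr h3
      · refine glue_edge G _ f ?_
        rw [mem_union, mem_inter] at hf ⊢
        rcases hf with h3 | h3
        · exact Or.inl ⟨mem_erase.mpr ⟨hfe, h3.1⟩, h3.2⟩
        · exact Or.inr h3
    · refine G.Rch_mono _ _ ?_ _ _ (hcon Z hZ a ha b hb)
      intro f hf
      rw [mem_union, mem_inter] at hf ⊢
      rcases hf with h3 | h3
      · refine Or.inl ⟨mem_erase.mpr ⟨?_, h3.1⟩, h3.2⟩
        intro hfe
        rw [hfe] at h3
        exact hZX (own53_eq G M R hR Z hZ X hX e h3.2 he.2)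
      · exact Or.inr h3)
  have h3 := card_erase_lt_of_mem heT
  omega

/-- JOB tw_trees -/
theorem tw_trees (G : MG V E) (M : Finset E) (R : Finset (Finset V)) (hR : Lmr G M R)
    (T₁ T₂ : Finset E) (t₁ : Trs G M R T₁) (t₂ : Trs G M R T₂) (D : Finset (Finset V))
    (hD : D ⊆ R) : Trs G M R (tw G D T₁ T₂) := by
  refine ⟨?_, ?_, ?_⟩
  · intro e he
    rw [tw53_mem] at he
    rcases he with he | he
    · exact t₁.sub he.1
    · exact t₂.sub he.1
  · intro X hX
    by_cases h : Even (D.filter (fun Y => X ⊆ Y)).card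
    · rw [tw53_even G M R hR T₁ T₂ D hD X hX h]
      exact t₁.con X hX
    · rw [tw53_odd G M R hR T₁ T₂ D hD X hX h]
      exact t₂.con X hX
  · intro X hX
    by_cases h : Even (D.filter (fun Y => X ⊆ Y)).card
    · rw [tw53_even G M R hR T₁ T₂ D hD X hX h]
      exact t₁.acy X hX
    · rw [tw53_odd G M R hR T₁ T₂ D hD X hX h]
      exact t₂.acy X hX

/-- JOB trs_con: from `glue` -/
theorem trs_con (G : MG V E) (M : Finset E) (R : Finset (Finset V)) (hR : Lmr G M R)
    (T : Finset E) (t : Trs G M R T) : ∀ X ∈ R, Con G ((univ \ M) ∪ T) X :=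
  glue G M R hR T t.con

/-- the edges inside `X` of an even set without edges in `cut X` -/
theorem trees_ins (G : MG V E) (C : Finset E) (hC : G.Ev C) (X : Finset V)
    (hX : C ∩ G.cut X = ∅) : G.Ev (ins G C X) := by
  intro v
  have hsub : ins G C X ⊆ C := filter_subset _ _
  by_cases hv : v ∈ X
  · have h1 := G.dg_sdiff (ins G C X) C hsub v
    have h2 : G.dg (C \ ins G C X) v = 0 := by
      unfold MG.dg
      refine sum_eq_zero fun e he => ?_
      rw [mem_sdiff, glue_mem_ins] at he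
      have h3 : e ∉ G.cut X := by
        intro h4
        have h5 : e ∈ C ∩ G.cut X := mem_inter.mpr ⟨he.1, h4⟩
        rw [hX] at h5
        exact notMem_empty _ h5
      rw [MG.mem_cut, not_not] at h3
      have h4 : G.s e ≠ v := by
        intro h5
        rw [← h5] at hv
        exact he.2 ⟨he.1, hv, h3.mp hv⟩
      have h5 : G.t e ≠ v := by
        intro h5
        rw [← h5] at hv
        exact he.2 ⟨he.1, h3.mpr hv, hv⟩
      unfold MG.inc
      rw [if_neg h4, if_neg h5, add_zero]
    have h3 := hC v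
    rw [← h1, h2, zero_add] at h3
    exact h3
  · have h2 : G.dg (ins G C X) v = 0 := by
      unfold MG.dg
      refine sum_eq_zero fun e he => ?_
      rw [glue_mem_ins] at he
      have h4 : G.s e ≠ v := by
        intro h5
        rw [← h5] at hv
        exact hv he.2.1
      have h5 : G.t e ≠ v := by
        intro h5
        rw [← h5] at hv
        exact hv he.2.2
      unfold MG.inc
      rw [if_neg h4, if_neg h5, add_zero]
    rw [h2]
    exact ⟨0, rfl⟩

/-- JOB trs_acy -/
theorem trs_acy (G : MG V E) (M : Finset E) (R : Finset (Finset V)) (hR : Lmr G M R)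
    (T : Finset E) (t : Trs G M R T) (C : Finset E) (hC : G.Ev C) (hCs : C ⊆ (univ \ M) ∪ T) :
    C ∩ M = ∅ := by
  classical
  rw [eq_empty_iff_forall_notMem]
  intro e he
  rw [mem_inter] at he
  obtain ⟨X0, hX0, heX0, _⟩ := own_unique G M R hR e he.2
  obtain ⟨X, hX, hmax⟩ := exists_max_image (R.filter (fun X => (C ∩ own G M R X).Nonempty))
    (fun X => X.card) ⟨X0, mem_filter.mpr ⟨hX0, e, mem_inter.mpr ⟨he.1, heX0⟩⟩⟩
  rw [mem_filter] at hX
  obtain ⟨hXR, f0, hf0⟩ := hX
  have hcut : C ∩ G.cut X = ∅ := by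
    rw [eq_empty_iff_forall_notMem]
    intro f hf
    rw [mem_inter] at hf
    have hfM := hR.nod X hXR hf.2
    obtain ⟨Z, hZ, hfZ, hall⟩ := own_unique G M R hR f hfM
    have h1 := hmax Z (mem_filter.mpr ⟨hZ, f, mem_inter.mpr ⟨hf.1, hfZ⟩⟩)
    have h2 := (hall X hXR).1
    have h3 := (hall Z hZ).1.mpr (Subset.refl _)
    have h4 := hf.2
    rw [MG.mem_cut] at h4
    rcases hR.lam X hXR Z hZ with h5 | h5 | h5
    · have h6 : X ≠ Z := by
        intro h7
        rw [h7] at h4
        exact h4 ⟨fun _ => h3.2, fun _ => h3.1⟩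
      have h7 := card_lt_card (Finset.ssubset_iff_subset_ne.mpr ⟨h5, h6⟩)
      omega
    · have h6 := h2.mpr h5
      exact h4 ⟨fun _ => h6.2, fun _ => h6.1⟩
    · rw [disjoint_left] at h5
      apply h4
      exact ⟨fun h6 => absurd h3.1 (h5 h6), fun h6 => absurd h3.2 (h5 h6)⟩
  have hev := trees_ins G C hC X hcut
  have h1 := t.acy X hXR (ins G C X) hev (by
    intro f hf
    rw [glue_mem_ins] at hf
    rw [mem_union, mem_inter]
    by_cases hfo : f ∈ own G M R X
    · left
      refine ⟨?_, hfo⟩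
      have h2 := hCs hf.1
      rw [mem_union, mem_sdiff] at h2
      rcases h2 with h2 | h2
      · exact absurd ((glue_mem_own G M R X f).mp hfo).1.1 h2.2
      · exact h2
    · right
      unfold low
      rw [mem_sdiff, glue_mem_ins]
      exact ⟨⟨mem_univ _, hf.2⟩, hfo⟩)
  have h2 : f0 ∈ ins G C X ∩ own G M R X := by
    rw [mem_inter] at hf0 ⊢
    refine ⟨?_, hf0.2⟩
    rw [glue_mem_ins]
    exact ⟨hf0.1, ((glue_mem_own G M R X f0).mp hf0.2).1.2⟩
  rw [h1] at h2
  exact notMem_empty _ h2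

end Pool.Agent.Lib.MP_95e9b3_coG
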