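import Pool.Agent.Lib.MP_95e9b3_coG.R3_swp
import Pool.Agent.Lib.MP_95e9b3_coG.R4_trees
import Pool.Agent.Lib.MP_95e9b3_coG.R4_fcut
import Pool.Agent.Lib.MP_95e9b3_coG.R4_coord

/-!
# Route G, block R4: comparison of two flows (`cmpA`, `cmpB`)
-/

set_option autoImplicit false
set_option linter.unusedSectionVars false
set_option linter.unusedVariables false

namespace Pool.Agent.Lib.MP_95e9b3_coG

open Finset Pool.Agent.Lib.MP_95e9b3_coC
open scoped symmDiff

variable {V E : Type} [Fintype V] [DecidableEq V] [Fintype E] [DecidableEq E]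

theorem cmp74_ends (G : MG V E) (e : E) (Q : Finset V) :
    e ∈ ins G univ Q ↔ ({G.s e, G.t e} : Finset V) ⊆ Q := by
  rw [swp74_mem_ins, Finset.insert_subset_iff, Finset.singleton_subset_iff]
  exact ⟨fun h => h.2, fun h => ⟨mem_univ _, h⟩⟩

/-- one level: an even set whose edges of level `Q` outside `X` are in `T` has none of them -/
theorem cmp74_lvl (G : MG V E) (M : Finset E) (R : Finset (Finset V)) (hR : Lmr G M R)
    (T : Finset E) (t : Trs G M R T) (X Q : Finset V) (hX : X ∈ R) (hQ : Q ∈ R)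
    (hQ4 : Q = univ ∨ (G.cut Q).card = 4) (C : Finset E) (hC : G.Ev C)
    (hCc : ∀ e ∈ G.cut Q, e ∉ C)
    (hCs : ∀ e ∈ C, e ∈ M → Up G R {G.s e, G.t e} Q → e ∉ ins G univ X → e ∈ T) :
    ∀ e ∈ M, Up G R {G.s e, G.t e} Q → e ∉ ins G univ X → e ∉ C := by
  classical
  obtain ⟨W, hW⟩ : ∃ W, W = insert X (R.filter (fun Y => (G.cut Y).card = 4 ∧ Y ⊂ Q)) := ⟨_, rfl⟩
  have hWR : ∀ Y ∈ W, Y ∈ R := by
    intro Y hY
    rw [hW, mem_insert, mem_filter] at hY
    rcases hY with h | h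
    · rw [h]
      exact hX
    · exact h.1
  have hC' : G.Ev (C ∩ ins G univ Q) := by
    have h := swp74_Ev G Q C ∅ hC (Finset.empty_subset _) (by
      intro v _
      have h0 : C ∩ G.cut Q = ∅ := by
        rw [Finset.eq_empty_iff_forall_notMem]
        intro e he
        exact hCc e (mem_inter.1 he).2 (mem_inter.1 he).1
      rw [h0])
    rw [show (C ∩ ins G univ Q) ∆ ∅ = C ∩ ins G univ Q from symmDiff_bot _] at h
    exact h
  have hCs' : ∀ e ∈ C ∩ ins G univ Q, e ∈ (univ \ M) ∪ T ∨ ∃ Y ∈ W, e ∈ ins G univ Y := by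
    intro e he
    by_cases heM : e ∈ M
    · have heQ := (cmp74_ends G e Q).1 (mem_inter.1 he).2
      obtain ⟨Qe, hQe⟩ := up_exists G M R hR {G.s e, G.t e} ⟨G.s e, mem_insert_self _ _⟩
      have hsub : Qe ⊆ Q := by
        rcases hQ4 with h | h
        · rw [h]
          exact Finset.subset_univ _
        · exact hQe.2.2.2 Q hQ h heQ
      by_cases hqq : Qe = Q
      · by_cases hx : e ∈ ins G univ X
        · exact Or.inr ⟨X, by rw [hW]; exact mem_insert_self _ _, hx⟩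
        · left
          rw [hqq] at hQe
          exact mem_union.2 (Or.inr (hCs e (mem_inter.1 he).1 heM hQe hx))
      · right
        have hss : Qe ⊂ Q := Finset.ssubset_iff_subset_ne.2 ⟨hsub, hqq⟩
        refine ⟨Qe, ?_, (cmp74_ends G e Qe).2 hQe.2.2.1⟩
        rw [hW, mem_insert, mem_filter]
        right
        refine ⟨hQe.1, ?_, hss⟩
        rcases hQe.2.1 with h | h
        · exfalso
          apply hqq
          rw [h] at hsub ⊢
          exact (Finset.univ_subset_iff.1 hsub).symm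
        · exact h
    · left
      exact mem_union.2 (Or.inl (mem_sdiff.2 ⟨mem_univ _, heM⟩))
  have hu := ul G M T t.sub (fun C hC hCs => trs_acy G M R hR T t C hC hCs) W
    (fun Y hY => trs_con G M R hR T t Y (hWR Y hY)) (C ∩ ins G univ Q) hC' hCs'
  intro e he hup hX' heC
  obtain ⟨Y, hY, heY⟩ := hu e (mem_inter.2 ⟨heC, (cmp74_ends G e Q).2 hup.2.2.1⟩) he
  rw [hW, mem_insert, mem_filter] at hY
  rcases hY with h | h
  · rw [h] at heY
    exact hX' heY
  · exact h.2.2.2 (hup.2.2.2 Y h.1 h.2.1 ((cmp74_ends G e Y).1 heY))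

theorem cmp74_eq (a b : ZMod 2) (h : ¬ (a + b = 1)) : a = b := by
  revert a b
  decide

/-- the comparison in one level -/
theorem cmp74_L (G : MG V E) (M : Finset E) (R : Finset (Finset V)) (hR : Lmr G M R)
    (T₁ T₂ T₁' T₂' : Finset E) (t₁ : Trs G M R T₁) (t₂ : Trs G M R T₂)
    (val val' x x' : E → K4) (hx : Val4 G M R T₁ T₂ val x) (hx' : Val4 G M R T₁' T₂' val' x')
    (X Q : Finset V) (hX : X ∈ R) (hQ : Q ∈ R) (hQ4 : Q = univ ∨ (G.cut Q).card = 4)
    (ho : ∀ e, e ∉ ins G univ X → ((e ∈ T₁ ↔ e ∈ T₁') ∧ (e ∈ T₂ ↔ e ∈ T₂') ∧ val e = val' e))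
    (hcut : ∀ e ∈ G.cut Q, x e = x' e) :
    ∀ e ∈ M, Up G R {G.s e, G.t e} Q → e ∉ ins G univ X → x e = x' e := by
  have hσ : sel G Q x' = sel G Q x := (sel_congr G Q x x' hcut).symm
  have hz : G.Fl (fun e => x e + x' e) := MG.Fl_add G x x' hx.fl hx'.fl
  have h20 : ∀ a : ZMod 2, a + a ≠ 1 := by decide
  -- the comparison for one coordinate
  have key : ∀ (φ : K4 →+ ZMod 2) (T : Finset E), Trs G M R T →
      (∀ e ∈ M, Up G R {G.s e, G.t e} Q → e ∉ ins G univ X → e ∉ T → φ (x e) = φ (x' e)) →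
      ∀ e ∈ M, Up G R {G.s e, G.t e} Q → e ∉ ins G univ X → φ (x e) = φ (x' e) := by
    intro φ T t hφ
    have hC := MG.Fl_hom G _ hz φ
    have hm : ∀ e, e ∈ univ.filter (fun e => φ (x e + x' e) = 1) ↔ φ (x e) + φ (x' e) = 1 := by
      intro e
      rw [mem_filter, map_add]
      exact ⟨fun h => h.2, fun h => ⟨mem_univ _, h⟩⟩
    have h1 := cmp74_lvl G M R hR T t X Q hX hQ hQ4
      (univ.filter (fun e => φ (x e + x' e) = 1)) hC
      (by
        intro e he h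
        rw [hm, hcut e he] at h
        exact h20 _ h)
      (by
        intro e he heM hup hX'
        by_contra hT
        rw [hm, hφ e heM hup hX' hT] at he
        exact h20 _ he)
    intro e he hup hX'
    have h2 := h1 e he hup hX'
    rw [hm] at h2
    exact cmp74_eq _ _ h2
  obtain ⟨φ₁, hφ₁⟩ : ∃ φ : K4 →+ ZMod 2, ∀ k, φ k = (sel G Q x k).1 :=
    ⟨(AddMonoidHom.fst (ZMod 2) (ZMod 2)).comp (sel G Q x).toAddMonoidHom, fun k => rfl⟩
  obtain ⟨φ₂, hφ₂⟩ : ∃ φ : K4 →+ ZMod 2, ∀ k, φ k = (sel G Q x k).2 :=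
    ⟨(AddMonoidHom.snd (ZMod 2) (ZMod 2)).comp (sel G Q x).toAddMonoidHom, fun k => rfl⟩
  have k1 := key φ₁ T₂ t₂ (by
    intro e he hup hX' hT
    obtain ⟨a1, a2, a3⟩ := hx.loc e he Q hup
    obtain ⟨b1, b2, b3⟩ := hx'.loc e he Q hup
    obtain ⟨o1, o2, o3⟩ := ho e hX'
    rw [hσ] at b1 b2 b3
    rw [hφ₁, hφ₁]
    by_cases h1 : e ∈ T₁
    · rw [a1 h1, b1 (o1.1 h1)]
    · rw [a3 h1 hT, b3 (fun h => h1 (o1.2 h)) (fun h => hT (o2.2 h)), o3])
  have k2 := key φ₂ T₁ t₁ (by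
    intro e he hup hX' hT
    obtain ⟨a1, a2, a3⟩ := hx.loc e he Q hup
    obtain ⟨b1, b2, b3⟩ := hx'.loc e he Q hup
    obtain ⟨o1, o2, o3⟩ := ho e hX'
    rw [hσ] at b1 b2 b3
    rw [hφ₂, hφ₂]
    by_cases h2 : e ∈ T₂
    · rw [a2 h2, b2 (o2.1 h2)]
    · rw [a3 hT h2, b3 (fun h => hT (o1.2 h)) (fun h => h2 (o2.2 h)), o3])
  intro e he hup hX'
  have e1 := k1 e he hup hX'
  have e2 := k2 e he hup hX'
  rw [hφ₁, hφ₁] at e1
  rw [hφ₂, hφ₂] at e2
  exact (sel G Q x).injective (Prod.ext e1 e2)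

/-- JOB cmpA: outside `X` the flow does not depend on the data inside `X` -/
theorem cmpA (G : MG V E) (M : Finset E) (R : Finset (Finset V)) (hR : Lmr G M R)
    (T₁ T₂ T₁' T₂' : Finset E) (hT : Two M T₁ T₂) (hT' : Two M T₁' T₂')
    (t₁ : Trs G M R T₁) (t₂ : Trs G M R T₂) (t₁' : Trs G M R T₁') (t₂' : Trs G M R T₂')
    (val val' x x' : E → K4) (hx : Val4 G M R T₁ T₂ val x) (hx' : Val4 G M R T₁' T₂' val' x')
    (X : Finset V) (hX : X ∈ R)
    (ho : ∀ e, e ∉ ins G univ X → ((e ∈ T₁ ↔ e ∈ T₁') ∧ (e ∈ T₂ ↔ e ∈ T₂') ∧ val e = val' e)) :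
    ∀ e ∈ M, e ∉ ins G univ X → x e = x' e := by
  -- all 4-members which are not inside `X`
  have hP : ∀ n : ℕ, ∀ Q ∈ R, (Q = univ ∨ (G.cut Q).card = 4) → ¬ Q ⊆ X → Qᶜ.card = n →
      ∀ e ∈ G.cut Q, x e = x' e := by
    intro n
    induction n using Nat.strong_induction_on with
    | _ n ih =>
      intro Q hQ hQ4 hQX hn e he
      by_cases hQu : Q = univ
      · exfalso
        rw [hQu, MG.mem_cut] at he
        exact he ⟨fun _ => mem_univ _, fun _ => mem_univ _⟩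
      have heM : e ∈ M := hR.nod Q hQ he
      obtain ⟨Qe, hQe⟩ := up_exists G M R hR {G.s e, G.t e} ⟨G.s e, mem_insert_self _ _⟩
      have heQe := hQe.2.2.1
      rw [Finset.insert_subset_iff, Finset.singleton_subset_iff] at heQe
      rw [MG.mem_cut] at he
      -- general fact: a member which contains both ends contains `Q` properly
      have hgen : ∀ Y ∈ R, G.s e ∈ Y → G.t e ∈ Y → Q ⊆ Y ∧ ¬ Y ⊆ Q := by
        intro Y hY hs ht
        have hn1 : ¬ Y ⊆ Q := fun h => he ⟨fun _ => h ht, fun _ => h hs⟩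
        rcases hR.lam Q hQ Y hY with h | h | h
        · exact ⟨h, hn1⟩
        · exact absurd h hn1
        · exfalso
          rw [Finset.disjoint_left] at h
          by_cases hsq : G.s e ∈ Q
          · exact h hsq hs
          · have htq : G.t e ∈ Q := by
              by_contra hc
              exact he ⟨fun hh => absurd hh hsq, fun hh => absurd hh hc⟩
            exact h htq ht
      obtain ⟨hq1, hq2⟩ := hgen Qe hQe.1 heQe.1 heQe.2
      have hlt : Qeᶜ.card < n := by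
        rw [← hn]
        apply Finset.card_lt_card
        rw [Finset.ssubset_iff_subset_ne]
        refine ⟨Finset.compl_subset_compl.2 hq1, fun h => hq2 ?_⟩
        rw [compl_inj_iff.1 h]
      have hcutQe := ih _ hlt Qe hQe.1 hQe.2.1 (fun h => hQX (hq1.trans h)) rfl
      have heX : e ∉ ins G univ X := by
        intro h
        have h' := (swp74_mem_ins G univ X e).1 h
        exact hQX (hgen X hX h'.2.1 h'.2.2).1
      exact cmp74_L G M R hR T₁ T₂ T₁' T₂' t₁ t₂ val val' x x' hx hx' X Qe hX hQe.1 hQe.2.1 ho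
        hcutQe e heM hQe heX
  intro e he heX
  obtain ⟨Qe, hQe⟩ := up_exists G M R hR {G.s e, G.t e} ⟨G.s e, mem_insert_self _ _⟩
  have hQX : ¬ Qe ⊆ X := by
    intro h
    apply heX
    rw [cmp74_ends]
    exact hQe.2.2.1.trans h
  exact cmp74_L G M R hR T₁ T₂ T₁' T₂' t₁ t₂ val val' x x' hx hx' X Qe hX hQe.1 hQe.2.1 ho
    (hP _ Qe hQe.1 hQe.2.1 hQX rfl) e he hQe heX

theorem cmp74_z (a b : ZMod 2) (h : a + b = 1) : b = a + 1 := by
  revert a b
  decide

/-- the comparison of one coordinate when one free edge is changed -/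
theorem cmp74_B (G : MG V E) (M : Finset E) (R : Finset (Finset V)) (hR : Lmr G M R)
    (x x' : E → K4) (hx : G.Fl x) (hx' : G.Fl x')
    (X : Finset V) (hX : X ∈ R) (hX4 : (G.cut X).card ≠ 4) (hXu : X ≠ univ)
    (Q : Finset V) (hQ : Up G R X Q) (l : E) (hl : l ∈ G.cut X) (hlQ : l ∈ ins G univ Q)
    (hcut : ∀ e ∈ G.cut Q, x e = x' e) (φ : K4 →+ ZMod 2) (T Z : Finset E) (s : E)
    (t : Trs G M R T) (hZ : G.Ev Z) (hlZ : l ∈ Z) (hZQ : Z ⊆ ins G univ Q)
    (hZT : Z.erase l ⊆ (univ \ M) ∪ T) (hs : Z ∩ G.cut X = {l, s})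
    (hφ : ∀ e ∈ M, Up G R {G.s e, G.t e} Q → e ∉ ins G univ X → e ≠ l → e ∉ T →
      φ (x e) = φ (x' e)) :
    ∀ e ∈ G.cut X, φ (x' e) = φ (x e) +
      (if e ∈ ({l, s} : Finset E) then φ (x l) + φ (x' l) else 0) := by
  have h20 : ∀ a : ZMod 2, a + a ≠ 1 := by decide
  have hz : G.Fl (fun e => x e + x' e) := MG.Fl_add G x x' hx hx'
  obtain ⟨C, hCd⟩ : ∃ C, C = univ.filter (fun e => φ (x e + x' e) = 1) := ⟨_, rfl⟩
  have hC : G.Ev C := by
    rw [hCd]
    exact MG.Fl_hom G _ hz φ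
  have hm : ∀ e, e ∈ C ↔ φ (x e) + φ (x' e) = 1 := by
    intro e
    rw [hCd, mem_filter, map_add]
    exact ⟨fun h => h.2, fun h => ⟨mem_univ _, h⟩⟩
  have hcC : ∀ e ∈ G.cut Q, e ∉ C := by
    intro e he h
    rw [hm, hcut e he] at h
    exact h20 _ h
  -- the edges of `cut X` are inside `Q` or in `cut Q`
  have hcases : ∀ e ∈ G.cut X, e ∉ ins G univ Q → e ∈ G.cut Q := by
    intro e he hn
    rw [MG.mem_cut] at he ⊢
    intro h
    apply hn
    rw [swp74_mem_ins]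
    by_cases hsx : G.s e ∈ X
    · have h1 := hQ.2.2.1 hsx
      exact ⟨mem_univ _, h1, h.1 h1⟩
    · have htx : G.t e ∈ X := by
        by_contra hc
        exact he ⟨fun hh => absurd hh hsx, fun hh => absurd hh hc⟩
      have h1 := hQ.2.2.1 htx
      exact ⟨mem_univ _, h.2 h1, h1⟩
  have hls : ∀ e ∈ G.cut X, (e ∈ ({l, s} : Finset E) ↔ e ∈ Z) := by
    intro e he
    rw [← hs, mem_inter]
    exact ⟨fun h => h.1, fun h => ⟨h, he⟩⟩
  by_cases hδ : φ (x l) + φ (x' l) = 1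
  · have hCZ : G.Ev (C ∆ Z) := MG.Ev_symm G C Z hC hZ
    have h1 := cmp74_lvl G M R hR T t X Q hX hQ.1 hQ.2.1 (C ∆ Z) hCZ
      (by
        intro e he h
        rw [mem_symmDiff] at h
        rcases h with h | h
        · exact hcC e he h.1
        · exact swp74_cut_ins G Q e he (hZQ h.1))
      (by
        intro e he heM hup hX'
        by_contra hT
        have hne : e ≠ l := by
          intro h
          rw [h, mem_symmDiff, hm] at he
          rcases he with h2 | h2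
          · exact h2.2 hlZ
          · exact h2.2 hδ
        have hnZ : e ∉ Z := by
          intro h
          rcases mem_union.1 (hZT (mem_erase.2 ⟨hne, h⟩)) with h2 | h2
          · exact (mem_sdiff.1 h2).2 heM
          · exact hT h2
        rw [mem_symmDiff, hm] at he
        rcases he with h2 | h2
        · rw [hφ e heM hup hX' hne hT] at h2
          exact h20 _ h2.1
        · exact hnZ h2.1)
    intro e he
    rw [hδ]
    by_cases heQ : e ∈ ins G univ Q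
    · have h2 := h1 e (hR.nod X hX he) (up_cut G M R hR X Q hX hX4 hXu hQ e he heQ)
        (swp74_cut_ins G X e he)
      rw [mem_symmDiff, hm] at h2
      by_cases heZ : e ∈ Z
      · rw [if_pos ((hls e he).2 heZ)]
        apply cmp74_z
        by_contra hc
        exact h2 (Or.inr ⟨heZ, hc⟩)
      · rw [if_neg (fun h => heZ ((hls e he).1 h)), add_zero]
        symm
        apply cmp74_eq
        intro hc
        exact h2 (Or.inl ⟨hc, heZ⟩)
    · have h3 := hcases e he heQ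
      rw [if_neg (fun h => heQ (hZQ ((hls e he).1 h))), add_zero, hcut e h3]
  · have h1 := cmp74_lvl G M R hR T t X Q hX hQ.1 hQ.2.1 C hC hcC
      (by
        intro e he heM hup hX'
        by_contra hT
        have hne : e ≠ l := by
          intro h
          rw [h, hm] at he
          exact hδ he
        rw [hm, hφ e heM hup hX' hne hT] at he
        exact h20 _ he)
    intro e he
    have h0 : φ (x l) + φ (x' l) = 0 := by
      rw [cmp74_eq _ _ hδ]
      exact CharTwo.add_self_eq_zero _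
    rw [h0, ite_self, add_zero]
    by_cases heQ : e ∈ ins G univ Q
    · have h2 := h1 e (hR.nod X hX he) (up_cut G M R hR X Q hX hX4 hXu hQ e he heQ)
        (swp74_cut_ins G X e he)
      rw [hm] at h2
      exact (cmp74_eq _ _ h2).symm
    · rw [hcut e (hcases e he heQ)]

/-- JOB cmpB: change of the value of one free edge `l ∈ cut X` -/
theorem cmpB (G : MG V E) (M : Finset E) (R : Finset (Finset V)) (hR : Lmr G M R)
    (T₁ T₂ T₁' T₂' : Finset E) (hT : Two M T₁ T₂) (hT' : Two M T₁' T₂')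
    (t₁ : Trs G M R T₁) (t₂ : Trs G M R T₂) (t₁' : Trs G M R T₁') (t₂' : Trs G M R T₂')
    (val val' x x' : E → K4) (hx : Val4 G M R T₁ T₂ val x) (hx' : Val4 G M R T₁' T₂' val' x')
    (X : Finset V) (hX : X ∈ R) (hX4 : (G.cut X).card ≠ 4) (hXu : X ≠ univ)
    (Q : Finset V) (hQ : Up G R X Q) (l : E) (hl : l ∈ G.cut X) (hlQ : l ∈ ins G univ Q)
    (hl₁ : l ∉ T₁) (hl₂ : l ∉ T₂)
    (ho : ∀ e, e ∉ ins G univ X → e ≠ l →
      ((e ∈ T₁ ↔ e ∈ T₁') ∧ (e ∈ T₂ ↔ e ∈ T₂') ∧ val e = val' e))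
    (hol : l ∉ T₁' ∧ l ∉ T₂')
    (Z₁ Z₂ : Finset E) (s₁ s₂ : E) (hZ₁ : G.Ev Z₁) (hZ₂ : G.Ev Z₂) (hlZ₁ : l ∈ Z₁) (hlZ₂ : l ∈ Z₂)
    (hZQ₁ : Z₁ ⊆ ins G univ Q) (hZQ₂ : Z₂ ⊆ ins G univ Q)
    (hZT₁ : Z₁.erase l ⊆ (univ \ M) ∪ T₁) (hZT₂ : Z₂.erase l ⊆ (univ \ M) ∪ T₂)
    (hs₁ : Z₁ ∩ G.cut X = {l, s₁}) (hs₂ : Z₂ ∩ G.cut X = {l, s₂}) :
    (∀ e ∈ G.cut Q, x e = x' e) ∧
    ∀ e ∈ G.cut X, sel G Q x (x' e) = sel G Q x (x e) +
      ((if e ∈ ({l, s₂} : Finset E) then (val l + val' l).1 else 0),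
        (if e ∈ ({l, s₁} : Finset E) then (val l + val' l).2 else 0)) := by
  have hAQ := cmpA G M R hR T₁ T₂ T₁' T₂' hT hT' t₁ t₂ t₁' t₂' val val' x x' hx hx' Q hQ.1 (by
    intro e he
    have hX' : e ∉ ins G univ X := fun h =>
      he ((cmp74_ends G e Q).2 (((cmp74_ends G e X).1 h).trans hQ.2.2.1))
    have hl' : e ≠ l := by
      intro h
      rw [h] at he
      exact he hlQ
    exact ho e hX' hl')
  have hcut : ∀ e ∈ G.cut Q, x e = x' e := fun e he =>
    hAQ e (hR.nod Q hQ.1 he) (swp74_cut_ins G Q e he)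
  refine ⟨hcut, ?_⟩
  have hσ : sel G Q x' = sel G Q x := (sel_congr G Q x x' hcut).symm
  have hupl := up_cut G M R hR X Q hX hX4 hXu hQ l hl hlQ
  have hlM : l ∈ M := hR.nod X hX hl
  have vl : sel G Q x (x l) = val l := (hx.loc l hlM Q hupl).2.2 hl₁ hl₂
  have vl' : sel G Q x (x' l) = val' l := by
    have h := (hx'.loc l hlM Q hupl).2.2 hol.1 hol.2
    rw [hσ] at h
    exact h
  obtain ⟨φ₁, hφ₁⟩ : ∃ φ : K4 →+ ZMod 2, ∀ k, φ k = (sel G Q x k).1 :=
    ⟨(AddMonoidHom.fst (ZMod 2) (ZMod 2)).comp (sel G Q x).toAddMonoidHom, fun k => rfl⟩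
  obtain ⟨φ₂, hφ₂⟩ : ∃ φ : K4 →+ ZMod 2, ∀ k, φ k = (sel G Q x k).2 :=
    ⟨(AddMonoidHom.snd (ZMod 2) (ZMod 2)).comp (sel G Q x).toAddMonoidHom, fun k => rfl⟩
  have k1 := cmp74_B G M R hR x x' hx.fl hx'.fl X hX hX4 hXu Q hQ l hl hlQ hcut φ₁ T₂ Z₂ s₂ t₂
    hZ₂ hlZ₂ hZQ₂ hZT₂ hs₂ (by
      intro e he hup hX' hne hT
      obtain ⟨a1, a2, a3⟩ := hx.loc e he Q hup
      obtain ⟨b1, b2, b3⟩ := hx'.loc e he Q hup
      obtain ⟨o1, o2, o3⟩ := ho e hX' hne
      rw [hσ] at b1 b2 b3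
      rw [hφ₁, hφ₁]
      by_cases h1 : e ∈ T₁
      · rw [a1 h1, b1 (o1.1 h1)]
      · rw [a3 h1 hT, b3 (fun h => h1 (o1.2 h)) (fun h => hT (o2.2 h)), o3])
  have k2 := cmp74_B G M R hR x x' hx.fl hx'.fl X hX hX4 hXu Q hQ l hl hlQ hcut φ₂ T₁ Z₁ s₁ t₁
    hZ₁ hlZ₁ hZQ₁ hZT₁ hs₁ (by
      intro e he hup hX' hne hT
      obtain ⟨a1, a2, a3⟩ := hx.loc e he Q hup
      obtain ⟨b1, b2, b3⟩ := hx'.loc e he Q hup
      obtain ⟨o1, o2, o3⟩ := ho e hX' hne
      rw [hσ] at b1 b2 b3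
      rw [hφ₂, hφ₂]
      by_cases h2 : e ∈ T₂
      · rw [a2 h2, b2 (o2.1 h2)]
      · rw [a3 hT h2, b3 (fun h => hT (o1.2 h)) (fun h => h2 (o2.2 h)), o3])
  intro e he
  have e1 := k1 e he
  have e2 := k2 e he
  rw [hφ₁, hφ₁, hφ₁, hφ₁, vl, vl'] at e1
  rw [hφ₂, hφ₂, hφ₂, hφ₂, vl, vl'] at e2
  exact Prod.ext e1 e2

end Pool.Agent.Lib.MP_95e9b3_coG
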