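import Pool.Agent.Lib.MP_95e9b3_coG.R4_sp4
import Pool.Agent.Lib.MP_95e9b3_coG.R4_cmp

/-!
# Route G, block R4: lower bound for one region (`r4lowP`, `r4lowL`)
-/

set_option autoImplicit false
set_option linter.unusedSectionVars false
set_option linter.unusedVariables false

namespace Pool.Agent.Lib.MP_95e9b3_coG

open Finset Pool.Agent.Lib.MP_95e9b3_coC

variable {V E : Type} [Fintype V] [DecidableEq V] [Fintype E] [DecidableEq E]

/-! ## Averages -/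

private theorem low_pairs (A : Finset (Finset V)) (X : Finset V) (hX : X ∈ A)
    (f : Finset (Finset V) → ℝ) :
    ∑ D ∈ A.powerset, f D = ∑ D ∈ (A.erase X).powerset, (f D + f (insert X D)) := by
  have h1 : insert X (A.erase X) = A := Finset.insert_erase hX
  have h2 := Finset.sum_powerset_insert (Finset.notMem_erase X A) f
  rw [h1] at h2
  rw [h2, Finset.sum_add_distrib]

private theorem low_upd (l : E) (F : (E → Fin 3) → ℝ) :
    ∑ s : E → Fin 3, ∑ i : Fin 3, F (Function.update s l i) = 3 * ∑ s : E → Fin 3, F s := by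
  let e : (E → Fin 3) × Fin 3 ≃ (E → Fin 3) × Fin 3 :=
    { toFun := fun q => (Function.update q.1 l q.2, q.1 l)
      invFun := fun q => (Function.update q.1 l q.2, q.1 l)
      left_inv := by
        rintro ⟨s, i⟩
        simp
      right_inv := by
        rintro ⟨s, i⟩
        simp }
  have h1 : ∑ q : (E → Fin 3) × Fin 3, F (Function.update q.1 l q.2) =
      ∑ q : (E → Fin 3) × Fin 3, F q.1 :=
    Fintype.sum_equiv e _ _ (fun q => rfl)
  rw [Fintype.sum_prod_type, Fintype.sum_prod_type] at h1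
  rw [h1]
  simp only [Finset.sum_const, Finset.card_univ, Fintype.card_fin]
  rw [Finset.mul_sum]
  refine Finset.sum_congr rfl fun s _ => ?_
  simp

private theorem low_avg (A : Finset (Finset V)) (X : Finset V) (hX : X ∈ A) (l : E) (κ : ℝ)
    (f : Finset (Finset V) → (E → Fin 3) → ℝ)
    (h : ∀ D ⊆ A, X ∉ D → ∀ s, κ ≤ ∑ i : Fin 3,
      (f D (Function.update s l i) + f (insert X D) (Function.update s l i))) :
    κ * ((A.powerset.card : ℝ) * (Fintype.card (E → Fin 3) : ℝ)) ≤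
      6 * ∑ D ∈ A.powerset, ∑ s : E → Fin 3, f D s := by
  have hc : (A.powerset.card : ℝ) = 2 * ((A.erase X).powerset.card : ℝ) := by
    have := low_pairs A X hX (fun _ => (1 : ℝ))
    rw [Finset.sum_const, Finset.sum_const, nsmul_eq_mul, nsmul_eq_mul] at this
    linarith
  rw [low_pairs A X hX]
  have h1 : ∑ D ∈ (A.erase X).powerset, ∑ s : E → Fin 3, κ ≤
      ∑ D ∈ (A.erase X).powerset, 3 * (∑ s : E → Fin 3, f D s + ∑ s : E → Fin 3,
        f (insert X D) s) := by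
    refine Finset.sum_le_sum fun D hD => ?_
    have hD' : D ⊆ A.erase X := Finset.mem_powerset.1 hD
    have hDA : D ⊆ A := hD'.trans (Finset.erase_subset _ _)
    have hXD : X ∉ D := fun hh => Finset.notMem_erase X A (hD' hh)
    calc ∑ s : E → Fin 3, κ ≤ ∑ s : E → Fin 3, ∑ i : Fin 3,
          (f D (Function.update s l i) + f (insert X D) (Function.update s l i)) :=
          Finset.sum_le_sum fun s _ => h D hDA hXD s
      _ = 3 * ∑ s : E → Fin 3, (f D s + f (insert X D) s) :=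
          low_upd l (fun s => f D s + f (insert X D) s)
      _ = _ := by rw [Finset.sum_add_distrib]
  rw [Finset.sum_const, Finset.sum_const, Finset.card_univ, ← Finset.mul_sum, nsmul_eq_mul,
    nsmul_eq_mul] at h1
  rw [hc]
  nlinarith [h1]

/-! ## Congruence -/

private theorem low_rel_congr (A0 : Finset E) (D : E → Finset E) (p p' : E → K4) (a : K4)
    (r : E → E → Prop) (hD : ∀ e ∈ A0, ∀ i ∈ D e, p i = p' i) (h : Rel4 A0 D p a r) :
    Rel4 A0 D p' a r := by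
  have hs : ∀ e ∈ A0, ∑ i ∈ D e, p i = ∑ i ∈ D e, p' i :=
    fun e he => Finset.sum_congr rfl (hD e he)
  refine ⟨h.refl, h.symm, h.trans, ?_, h.nc⟩
  intro e he f hf hr
  rw [← hs e he, ← hs f hf]
  exact h.two e he f hf hr

private theorem low_cls_congr (w : E → ℕ) (A0 : Finset E) (D : E → Finset E) (p p' : E → K4)
    (r : E → E → Prop) (hD : ∀ e ∈ A0, ∀ i ∈ D e, p i = p' i) (e : E) (he : e ∈ A0) :
    cls w A0 D p r e = cls w A0 D p' r e := by
  classical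
  have hs : ∀ e ∈ A0, ∑ i ∈ D e, p i = ∑ i ∈ D e, p' i :=
    fun e he => Finset.sum_congr rfl (hD e he)
  unfold cls
  refine Finset.sum_congr rfl fun f hf => ?_
  rw [hs f (Finset.mem_filter.1 hf).1, hs e he]

/-! ## Connectors -/

private theorem low_mult (G : MG V E) (D : Finset (Finset V)) (X : Finset V) (e : E)
    (he : e ∉ ins G univ X) : mult G (insert X D) e = mult G D e := by
  unfold mult
  rw [Finset.filter_insert, if_neg]
  intro h
  exact he (Finset.mem_filter.2 ⟨Finset.mem_univ _, h⟩)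

private theorem low_tw (G : MG V E) (D D' : Finset (Finset V)) (S₁ S₂ : Finset E) (e : E)
    (h : mult G D e = mult G D' e) : e ∈ tw G D S₁ S₂ ↔ e ∈ tw G D' S₁ S₂ := by
  unfold tw
  simp only [Finset.mem_union, Finset.mem_filter, h]

private theorem low_tw_not (G : MG V E) (D : Finset (Finset V)) (S₁ S₂ : Finset E) (e : E)
    (h : e ∉ S₁ ∪ S₂) : e ∉ tw G D S₁ S₂ := by
  unfold tw
  simp only [Finset.mem_union, Finset.mem_filter] at h ⊢
  tauto

private theorem low_par (D : Finset (Finset V)) (X : Finset V) (hX : X ∉ D) :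
    Even ((insert X D).filter (fun Y => X ⊆ Y)).card ↔
      ¬ Even (D.filter (fun Y => X ⊆ Y)).card := by
  rw [Finset.filter_insert, if_pos (Finset.Subset.refl X), Finset.card_insert_of_notMem,
    Nat.even_add_one]
  intro h
  exact hX (Finset.mem_filter.1 h).1

private theorem low_Two (M S₁ S₂ T₁ T₂ : Finset E) (h : Two M S₁ S₂) (h₁ : T₁ ⊆ S₁)
    (h₂ : T₂ ⊆ S₂) : Two M T₁ T₂ :=
  ⟨h₁.trans h.h1, h₂.trans h.h2, Finset.disjoint_of_subset_left h₁
    (Finset.disjoint_of_subset_right h₂ h.hd)⟩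

/-! ## One pair of flows -/

/-- flows of `D`, `D'` which agree above `X` agree outside `X` -/
private theorem low_ag (G : MG V E) (M : Finset E) (w : E → ℕ) (R P : Finset (Finset V))
    (g : Finset V → E) (A : Finset (Finset V)) (S₁ S₂ T₁ T₂ : Finset E)
    (xf : Finset (Finset V) → (E → Fin 3) → E → K4)
    (hS : Set4 G M w R P g A S₁ S₂ T₁ T₂ xf) (X : Finset V) (hX : X ∈ R)
    (D D' : Finset (Finset V)) (hD : D ⊆ A) (hD' : D' ⊆ A)
    (hm : ∀ e, e ∉ ins G univ X → mult G D e = mult G D' e) (s : E → Fin 3) :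
    ∀ e ∈ M, e ∉ ins G univ X → xf D s e = xf D' s e := by
  have hR : Lmr G M R := hS.fam.toLmr
  have hT : Two M T₁ T₂ := low_Two M S₁ S₂ T₁ T₂ hS.two hS.ts₁ hS.ts₂
  have hT' : Two M T₂ T₁ := ⟨hT.h2, hT.h1, hT.hd.symm⟩
  have hDR : D ⊆ R := hD.trans (hS.AP.trans hS.fam.sub)
  have hDR' : D' ⊆ R := hD'.trans (hS.AP.trans hS.fam.sub)
  exact cmpA G M R hR (tw G D T₁ T₂) (tw G D T₂ T₁) (tw G D' T₁ T₂) (tw G D' T₂ T₁)
    (tw_Two G M T₁ T₂ hT D).1 (tw_Two G M T₁ T₂ hT D').1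
    (tw_trees G M R hR T₁ T₂ hS.t₁ hS.t₂ D hDR) (tw_trees G M R hR T₂ T₁ hS.t₂ hS.t₁ D hDR)
    (tw_trees G M R hR T₁ T₂ hS.t₁ hS.t₂ D' hDR') (tw_trees G M R hR T₂ T₁ hS.t₂ hS.t₁ D' hDR')
    _ _ _ _ (hS.hx D hD s) (hS.hx D' hD' s) X hX
    (fun e he => ⟨low_tw G D D' T₁ T₂ e (hm e he), low_tw G D D' T₂ T₁ e (hm e he), rfl⟩)

private theorem low_vst (Lf : Finset E) (s : E → Fin 3) (e : E) : vst Lf s e ≠ 0 := by
  unfold vst
  split_ifs
  · unfold st3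
    split_ifs <;> decide
  · decide

private theorem low_cutX (G : MG V E) (X : Finset V) (e : E) (he : e ∈ G.cut X) :
    e ∉ ins G univ X := by
  intro h
  have h1 := (MG.mem_cut G X e).1 he
  have h2 := (Finset.mem_filter.1 h).2
  tauto

private theorem low_cutQ (G : MG V E) (X Q : Finset V) (hXQ : X ⊆ Q) (e : E)
    (he : e ∈ G.cut Q) : e ∉ ins G univ X := by
  intro h
  have h1 := (MG.mem_cut G Q e).1 he
  have h2 := (Finset.mem_filter.1 h).2
  have h3 := hXQ h2.1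
  have h4 := hXQ h2.2
  tauto

private theorem low_sum (Ψ : K4 → ℝ) (h0 : ∀ a, 0 ≤ Ψ a) (a : K4) (ha : a ≠ 0) (κ : ℝ)
    (h : κ ≤ Ψ a) : κ ≤ ∑ a ∈ univ.erase (0 : K4), Ψ a :=
  h.trans (Finset.single_le_sum (f := Ψ) (fun b _ => h0 b)
    (Finset.mem_erase.2 ⟨ha, Finset.mem_univ _⟩))

/-- the step of `r4lowP` -/
private theorem low_stepP (G : MG V E) (M : Finset E) (w : E → ℕ) (R P : Finset (Finset V))
    (g : Finset V → E) (A : Finset (Finset V)) (S₁ S₂ T₁ T₂ : Finset E)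
    (xf : Finset (Finset V) → (E → Fin 3) → E → K4)
    (hS : Set4 G M w R P g A S₁ S₂ T₁ T₂ xf)
    (X : Finset V) (hX : X ∈ A) (pr : Finset (E × E)) (A0 : Finset E) (U : E → Finset V)
    (hE : Eff G M X (g X) pr A0 U)
    (srv : Srv G M X (Cv G M (g X)) pr (S₂ ∩ own G M R X) ((S₂ ∩ own G M R X) ∪ low G M R X))
    (Q : Finset V) (hQ : Up G R X Q) (h4 : (G.cut Q).card = 4) (c : ℝ)
    (hgood : GoodP c (G.cut X) (G.cut X ∩ G.cut Q) A0 (fun e => G.cut (U e) ∩ G.cut X) (g X) w)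
    (Φ : Finset (Finset V) → (E → Fin 3) → K4 → ℝ) (hΦ0 : ∀ D s a, 0 ≤ Φ D s a)
    (hΦ : ∀ D ⊆ A, ∀ s, ∀ a, a ≠ 0 → ∀ h ∈ A0, |clC G M w (xf D s) a (Ce G M (g X)) h| ≤ Φ D s a)
    (D D' : Finset (Finset V)) (hD : D ⊆ A) (hD' : D' ⊆ A)
    (he : Even (D.filter (fun Y => X ⊆ Y)).card) (ho : ¬ Even (D'.filter (fun Y => X ⊆ Y)).card)
    (hm : ∀ e, e ∉ ins G univ X → mult G D e = mult G D' e) (s : E → Fin 3) :
    c * (w (g X) : ℝ) ≤ ∑ a ∈ univ.erase (0 : K4), Φ D s a +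
      ∑ a ∈ univ.erase (0 : K4), Φ D' s a := by
  have hR : Lmr G M R := hS.fam.toLmr
  have hXR : X ∈ R := hS.fam.sub (hS.AP hX)
  have hT : Two M T₁ T₂ := low_Two M S₁ S₂ T₁ T₂ hS.two hS.ts₁ hS.ts₂
  have hag := low_ag G M w R P g A S₁ S₂ T₁ T₂ xf hS X hXR D D' hD hD' hm s
  have hXM : G.cut X ⊆ M := hR.nod X hXR
  have hQM : G.cut Q ⊆ M := hR.nod Q hQ.1
  obtain ⟨x, hx⟩ : ∃ x, x = xf D s := ⟨_, rfl⟩
  obtain ⟨y, hy⟩ : ∃ y, y = xf D' s := ⟨_, rfl⟩
  rw [← hx, ← hy] at hag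
  have hsel : sel G Q y = sel G Q x :=
    sel_congr G Q y x (fun e he => (hag e (hQM he) (low_cutQ G X Q hQ.2.2.1 e he)).symm)
  obtain ⟨σ, hσ⟩ : ∃ σ, σ = sel G Q x := ⟨_, rfl⟩
  have hxV := hS.hx D hD s
  rw [← hx] at hxV
  have hnz : ∀ e ∈ M, x e ≠ 0 :=
    val_nz G M R hR _ _ _ x (low_vst _ _) hxV
  have hsp := sel_spec G Q x hxV.fl h4 (fun e he => hnz e (hQM he))
  -- directions
  have ha : sel G Q (xf D s) (σ.symm (1, 0)) =
      if Even (D.filter (fun Y => X ⊆ Y)).card then ((1, 0) : K4) else (0, 1) := by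
    rw [if_pos he, ← hx, ← hσ, AddEquiv.apply_symm_apply]
  have hb : sel G Q (xf D' s) (σ.symm (0, 1)) =
      if Even (D'.filter (fun Y => X ⊆ Y)).card then ((1, 0) : K4) else (0, 1) := by
    rw [if_neg ho, ← hy, hsel, ← hσ, AddEquiv.apply_symm_apply]
  have h1 := sp4 G M w R P g A S₁ S₂ T₁ T₂ xf hS X hX pr A0 U hE srv Q hQ D hD s _ ha
  have h2 := sp4 G M w R P g A S₁ S₂ T₁ T₂ xf hS X hX pr A0 U hE srv Q hQ D' hD' s _ hb
  rw [← hx, ← hσ, AddEquiv.apply_symm_apply] at h1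
  rw [← hy, hsel, ← hσ, AddEquiv.apply_symm_apply] at h2
  have hpp : ∀ e ∈ A0, ∀ i ∈ G.cut (U e) ∩ G.cut X, σ (y i) = σ (x i) := by
    intro e _ i hi
    have hiX := (Finset.mem_inter.1 hi).2
    rw [hag i (hXM hiX) (low_cutX G X i hiX)]
  have h3 := low_rel_congr A0 _ _ (fun e => σ (x e)) _ _ hpp h2.1
  have hs0 : ∑ i ∈ G.cut X, σ (x i) = 0 := by
    rw [← map_sum, MG.Fl_cut G x hxV.fl X, map_zero]
  have hs2 : ∀ i ∈ G.cut X ∩ G.cut Q, (σ (x i)).2 = 1 := by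
    intro i hi
    rw [hσ]
    exact hsp.1 i (Finset.mem_inter.1 hi).2
  obtain ⟨e, heA, h⟩ := hgood (fun e => σ (x e)) hs0 hs2 _ _ h1.1 h3
  have hn1 : σ.symm (1, 0) ≠ 0 := by
    intro hh
    have := congrArg σ hh
    rw [AddEquiv.apply_symm_apply, map_zero] at this
    exact absurd this (by decide)
  have hn2 : σ.symm (0, 1) ≠ 0 := by
    intro hh
    have := congrArg σ hh
    rw [AddEquiv.apply_symm_apply, map_zero] at this
    exact absurd this (by decide)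
  have hz1 : 0 ≤ ∑ a ∈ univ.erase (0 : K4), Φ D s a := Finset.sum_nonneg fun a _ => hΦ0 _ _ _
  have hz2 : 0 ≤ ∑ a ∈ univ.erase (0 : K4), Φ D' s a := Finset.sum_nonneg fun a _ => hΦ0 _ _ _
  rcases h with h | h
  · have h5 := hΦ D hD s _ hn1 e heA
    rw [← hx, h1.2 e heA] at h5
    have := low_sum (Φ D s) (hΦ0 D s) _ hn1 _ (h.trans h5)
    linarith
  · have h5 := hΦ D' hD' s _ hn2 e heA
    rw [← hy, h2.2 e heA, low_cls_congr w A0 _ _ (fun e => σ (x e)) _ hpp e heA] at h5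
    have := low_sum (Φ D' s) (hΦ0 D' s) _ hn2 _ (h.trans h5)
    linarith

/-- JOB r4lowP: lower bound, case `GoodP`. For every pair `D`, `D ∆ {X}` and every `s` the flows
agree outside `X` (`cmpA`), so they have the same pattern on `cut X`; one of the two classes is
unbalanced. -/
theorem r4lowP (G : MG V E) (M : Finset E) (w : E → ℕ) (R P : Finset (Finset V))
    (g : Finset V → E) (A : Finset (Finset V)) (S₁ S₂ T₁ T₂ : Finset E)
    (xf : Finset (Finset V) → (E → Fin 3) → E → K4)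
    (hS : Set4 G M w R P g A S₁ S₂ T₁ T₂ xf)
    (X : Finset V) (hX : X ∈ A) (pr : Finset (E × E)) (A0 : Finset E) (U : E → Finset V)
    (hE : Eff G M X (g X) pr A0 U)
    (srv : Srv G M X (Cv G M (g X)) pr (S₂ ∩ own G M R X) ((S₂ ∩ own G M R X) ∪ low G M R X))
    (Q : Finset V) (hQ : Up G R X Q) (h4 : (G.cut Q).card = 4) (c : ℝ) (hc : 0 ≤ c)
    (hgood : GoodP c (G.cut X) (G.cut X ∩ G.cut Q) A0 (fun e => G.cut (U e) ∩ G.cut X) (g X) w)
    (Φ : Finset (Finset V) → (E → Fin 3) → K4 → ℝ) (hΦ0 : ∀ D s a, 0 ≤ Φ D s a)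
    (hΦ : ∀ D ⊆ A, ∀ s, ∀ a, a ≠ 0 → ∀ h ∈ A0, |clC G M w (xf D s) a (Ce G M (g X)) h| ≤ Φ D s a) :
    c * (w (g X) : ℝ) * ((A.powerset.card : ℝ) * (Fintype.card (E → Fin 3) : ℝ)) ≤
      6 * ∑ D ∈ A.powerset, ∑ s : E → Fin 3, ∑ a ∈ univ.erase (0 : K4), Φ D s a := by
  refine low_avg A X hX (g X) _ (fun D s => ∑ a ∈ univ.erase (0 : K4), Φ D s a) ?_
  intro D hD hXD s
  have hD' : insert X D ⊆ A := Finset.insert_subset hX hD
  have hm : ∀ e, e ∉ ins G univ X → mult G D e = mult G (insert X D) e :=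
    fun e he => (low_mult G D X e he).symm
  have hnn : ∀ D s, 0 ≤ ∑ a ∈ univ.erase (0 : K4), Φ D s a :=
    fun D s => Finset.sum_nonneg fun a _ => hΦ0 _ _ _
  have h1 : c * (w (g X) : ℝ) ≤
      ∑ a ∈ univ.erase (0 : K4), Φ D (Function.update s (g X) 0) a +
      ∑ a ∈ univ.erase (0 : K4), Φ (insert X D) (Function.update s (g X) 0) a := by
    by_cases he : Even (D.filter (fun Y => X ⊆ Y)).card
    · exact low_stepP G M w R P g A S₁ S₂ T₁ T₂ xf hS X hX pr A0 U hE srv Q hQ h4 c hgood Φ hΦ0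
        hΦ D (insert X D) hD hD' he (fun hh => (low_par D X hXD).1 hh he) hm _
    · rw [add_comm]
      exact low_stepP G M w R P g A S₁ S₂ T₁ T₂ xf hS X hX pr A0 U hE srv Q hQ h4 c hgood Φ hΦ0
        hΦ (insert X D) D hD' hD ((low_par D X hXD).2 he) he (fun e he => (hm e he).symm) _
  refine h1.trans ?_
  exact Finset.single_le_sum (f := fun i : Fin 3 =>
    (∑ a ∈ univ.erase (0 : K4), Φ D (Function.update s (g X) i) a +
      ∑ a ∈ univ.erase (0 : K4), Φ (insert X D) (Function.update s (g X) i) a))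
    (fun i _ => add_nonneg (hnn _ _) (hnn _ _)) (Finset.mem_univ (0 : Fin 3))

/-! ## Free edges -/

private theorem low_vst_upd (Lf : Finset E) (s : E → Fin 3) (l e : E) (i j : Fin 3) (h : e ≠ l) :
    vst Lf (Function.update s l i) e = vst Lf (Function.update s l j) e := by
  unfold vst
  rw [Function.update_of_ne h, Function.update_of_ne h]

/-- the edge where the second crossing of `cut X` happens does not depend on the inside -/
private theorem low_uniq (G : MG V E) (M : Finset E) (R : Finset (Finset V)) (hR : Lmr G M R)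
    (T T' : Finset E) (hT : T ⊆ M) (t : Trs G M R T) (X : Finset V) (hX : X ∈ R)
    (ha : ∀ e, e ∉ ins G univ X → (e ∈ T' ↔ e ∈ T)) (l s s' : E) (Z Z' : Finset E)
    (hZ : G.Ev Z) (hZ' : G.Ev Z') (hl : l ∈ Z) (hl' : l ∈ Z')
    (hZT : Z.erase l ⊆ (univ \ M) ∪ T) (hZT' : Z'.erase l ⊆ (univ \ M) ∪ T')
    (hs : Z ∩ G.cut X = {l, s}) (hs' : Z' ∩ G.cut X = {l, s'}) (hsl : s' ≠ l) : s' = s := by
  by_contra hne
  have hacy := trs_acy G M R hR T t
  have hcon := trs_con G M R hR T t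
  have h1 : s' ∈ Z' ∧ s' ∈ G.cut X := by
    have : s' ∈ Z' ∩ G.cut X := by rw [hs']; simp
    exact Finset.mem_inter.1 this
  have h2 : s' ∉ Z := by
    intro hh
    have : s' ∈ Z ∩ G.cut X := Finset.mem_inter.2 ⟨hh, h1.2⟩
    rw [hs] at this
    simp only [Finset.mem_insert, Finset.mem_singleton] at this
    tauto
  have h3 := ul G M T hT hacy {X} (by
    intro Y hY
    rw [Finset.mem_singleton.1 hY]
    exact hcon X hX) (symmDiff Z' Z) (MG.Ev_symm G Z' Z hZ' hZ) (by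
    intro e he
    by_cases heX : e ∈ ins G univ X
    · exact Or.inr ⟨X, Finset.mem_singleton_self X, heX⟩
    · left
      have hel : e ≠ l := by
        rintro rfl
        rw [Finset.mem_symmDiff] at he
        tauto
      rw [Finset.mem_symmDiff] at he
      rcases he with he | he
      · have h5 := hZT' (Finset.mem_erase.2 ⟨hel, he.1⟩)
        rcases Finset.mem_union.1 h5 with h6 | h6
        · exact Finset.mem_union_left _ h6
        · exact Finset.mem_union_right _ ((ha e heX).1 h6)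
      · exact hZT (Finset.mem_erase.2 ⟨hel, he.1⟩)) s'
    (Finset.mem_symmDiff.2 (Or.inl ⟨h1.1, h2⟩)) (hR.nod X hX h1.2)
  obtain ⟨Y, hY, hsY⟩ := h3
  rw [Finset.mem_singleton.1 hY] at hsY
  exact low_cutX G X s' h1.2 hsY

/-- the step of `r4lowL` -/
private theorem low_stepL (G : MG V E) (M : Finset E) (w : E → ℕ) (R P : Finset (Finset V))
    (g : Finset V → E) (A : Finset (Finset V)) (S₁ S₂ T₁ T₂ : Finset E)
    (xf : Finset (Finset V) → (E → Fin 3) → E → K4)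
    (hS : Set4 G M w R P g A S₁ S₂ T₁ T₂ xf)
    (X : Finset V) (hX : X ∈ A) (pr : Finset (E × E)) (A0 : Finset E) (U : E → Finset V)
    (hE : Eff G M X (g X) pr A0 U)
    (srv : Srv G M X (Cv G M (g X)) pr (S₂ ∩ own G M R X) ((S₂ ∩ own G M R X) ∪ low G M R X))
    (Q : Finset V) (hQ : Up G R X Q) (hX4 : (G.cut X).card ≠ 4) (l : E) (hl : l ∈ G.cut X)
    (hlQ : l ∉ G.cut Q) (hlS : l ∉ S₁ ∪ S₂) (c : ℝ)
    (hgood : GoodL c (G.cut X) A0 (fun e => G.cut (U e) ∩ G.cut X) (g X) w l)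
    (Φ : Finset (Finset V) → (E → Fin 3) → K4 → ℝ) (hΦ0 : ∀ D s a, 0 ≤ Φ D s a)
    (hΦ : ∀ D ⊆ A, ∀ s, ∀ a, a ≠ 0 → ∀ h ∈ A0, |clC G M w (xf D s) a (Ce G M (g X)) h| ≤ Φ D s a)
    (D D' : Finset (Finset V)) (hD : D ⊆ A) (hD' : D' ⊆ A)
    (he : Even (D.filter (fun Y => X ⊆ Y)).card) (ho : ¬ Even (D'.filter (fun Y => X ⊆ Y)).card)
    (hm : ∀ e, e ∉ ins G univ X → mult G D e = mult G D' e) (s : E → Fin 3) :
    c * (w (g X) : ℝ) ≤ ∑ i : Fin 3,
      (∑ a ∈ univ.erase (0 : K4), Φ D (Function.update s l i) a +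
      ∑ a ∈ univ.erase (0 : K4), Φ D' (Function.update s l i) a) := by
  have hR : Lmr G M R := hS.fam.toLmr
  have hXR : X ∈ R := hS.fam.sub (hS.AP hX)
  have hXP : X ∈ P := hS.AP hX
  have hXu : X ≠ univ := hS.fam.pu X hXP
  have hT : Two M T₁ T₂ := low_Two M S₁ S₂ T₁ T₂ hS.two hS.ts₁ hS.ts₂
  have hDR : D ⊆ R := hD.trans (hS.AP.trans hS.fam.sub)
  have hDR' : D' ⊆ R := hD'.trans (hS.AP.trans hS.fam.sub)
  have hag := low_ag G M w R P g A S₁ S₂ T₁ T₂ xf hS X hXR D D' hD hD' hm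
    (Function.update s l 0)
  have hXM : G.cut X ⊆ M := hR.nod X hXR
  have hQM : G.cut Q ⊆ M := hR.nod Q hQ.1
  have hXQ : X ⊆ Q := hQ.2.2.1
  have hlM : l ∈ M := hXM hl
  have hlQi : l ∈ ins G univ Q := by
    have h1 := (MG.mem_cut G X l).1 hl
    have h2 : ¬ ¬ (G.s l ∈ Q ↔ G.t l ∈ Q) := fun h => hlQ ((MG.mem_cut G Q l).2 h)
    refine Finset.mem_filter.2 ⟨Finset.mem_univ _, ?_⟩
    have h3 : G.s l ∈ X → G.s l ∈ Q := fun h => hXQ h
    have h4 : G.t l ∈ X → G.t l ∈ Q := fun h => hXQ h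
    tauto
  have hlT : l ∉ T₁ ∪ T₂ := by
    intro hh
    rcases Finset.mem_union.1 hh with h | h
    · exact hlS (Finset.mem_union_left _ (hS.ts₁ h))
    · exact hlS (Finset.mem_union_right _ (hS.ts₂ h))
  have hlT' : l ∉ T₂ ∪ T₁ := by rw [Finset.union_comm]; exact hlT
  have hlLf : l ∈ M \ (S₁ ∪ S₂) := Finset.mem_sdiff.2 ⟨hlM, hlS⟩
  -- connectors
  have tD := tw_Two G M T₁ T₂ hT D
  have tD' := tw_Two G M T₁ T₂ hT D'
  have r₁ := tw_trees G M R hR T₁ T₂ hS.t₁ hS.t₂ D hDR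
  have r₂ := tw_trees G M R hR T₂ T₁ hS.t₂ hS.t₁ D hDR
  have r₁' := tw_trees G M R hR T₁ T₂ hS.t₁ hS.t₂ D' hDR'
  have r₂' := tw_trees G M R hR T₂ T₁ hS.t₂ hS.t₁ D' hDR'
  have hl₁ : l ∉ tw G D T₁ T₂ := low_tw_not G D T₁ T₂ l hlT
  have hl₂ : l ∉ tw G D T₂ T₁ := low_tw_not G D T₂ T₁ l hlT'
  have hl₁' : l ∉ tw G D' T₁ T₂ := low_tw_not G D' T₁ T₂ l hlT
  have hl₂' : l ∉ tw G D' T₂ T₁ := low_tw_not G D' T₂ T₁ l hlT'
  obtain ⟨Z₁, hZ₁, hlZ₁, hZQ₁, hZT₁, s₁, hsl₁, hsX₁, hsT₁, hZX₁⟩ :=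
    crossing4 G M (tw G D T₁ T₂) tD.1.h1 X Q hXM hXQ (trs_con G M R hR _ r₁ X hXR)
      (trs_con G M R hR _ r₁ Q hQ.1) l hl hlQi hl₁
  obtain ⟨Z₂, hZ₂, hlZ₂, hZQ₂, hZT₂, s₂, hsl₂, hsX₂, hsT₂, hZX₂⟩ :=
    crossing4 G M (tw G D T₂ T₁) tD.1.h2 X Q hXM hXQ (trs_con G M R hR _ r₂ X hXR)
      (trs_con G M R hR _ r₂ Q hQ.1) l hl hlQi hl₂
  obtain ⟨Z₃, hZ₃, hlZ₃, hZQ₃, hZT₃, s₃, hsl₃, hsX₃, hsT₃, hZX₃⟩ :=
    crossing4 G M (tw G D' T₁ T₂) tD'.1.h1 X Q hXM hXQ (trs_con G M R hR _ r₁' X hXR)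
      (trs_con G M R hR _ r₁' Q hQ.1) l hl hlQi hl₁'
  have h31 : s₃ = s₁ := low_uniq G M R hR (tw G D T₁ T₂) (tw G D' T₁ T₂) tD.1.h1 r₁ X hXR
    (fun e he => (low_tw G D D' T₁ T₂ e (hm e he)).symm) l s₁ s₃ Z₁ Z₃ hZ₁ hZ₃ hlZ₁ hlZ₃
    hZT₁ hZT₃ hZX₁ hZX₃ hsl₃
  have h12 : s₂ ≠ s₁ := by
    rintro rfl
    exact Finset.disjoint_left.1 tD.1.hd hsT₁ hsT₂
  -- flows
  obtain ⟨x, hx⟩ : ∃ x, x = xf D (Function.update s l 0) := ⟨_, rfl⟩
  obtain ⟨y, hy⟩ : ∃ y, y = xf D' (Function.update s l 0) := ⟨_, rfl⟩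
  obtain ⟨z, hz⟩ : ∃ z, z = xf D' (Function.update s l 1) := ⟨_, rfl⟩
  obtain ⟨u, hu⟩ : ∃ u, u = xf D (Function.update s l 2) := ⟨_, rfl⟩
  rw [← hx, ← hy] at hag
  have hxV := hS.hx D hD (Function.update s l 0)
  rw [← hx] at hxV
  have hyV := hS.hx D' hD' (Function.update s l 0)
  rw [← hy] at hyV
  have hzV := hS.hx D' hD' (Function.update s l 1)
  rw [← hz] at hzV
  have huV := hS.hx D hD (Function.update s l 2)
  rw [← hu] at huV
  have hsely : sel G Q y = sel G Q x :=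
    sel_congr G Q y x (fun e he => (hag e (hQM he) (low_cutQ G X Q hXQ e he)).symm)
  obtain ⟨bz1, bz2⟩ := cmpB G M R hR (tw G D T₁ T₂) (tw G D T₂ T₁) (tw G D' T₁ T₂)
    (tw G D' T₂ T₁) tD.1 tD'.1 r₁ r₂ r₁' r₂' _ _ x z hxV hzV X hXR hX4 hXu Q hQ l hl hlQi hl₁ hl₂
    (fun e he hel => ⟨low_tw G D D' T₁ T₂ e (hm e he), low_tw G D D' T₂ T₁ e (hm e he),
      low_vst_upd _ s l e 0 1 hel⟩) ⟨hl₁', hl₂'⟩ Z₁ Z₂ s₁ s₂ hZ₁ hZ₂ hlZ₁ hlZ₂ hZQ₁ hZQ₂ hZT₁
    hZT₂ hZX₁ hZX₂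
  obtain ⟨bu1, bu2⟩ := cmpB G M R hR (tw G D T₁ T₂) (tw G D T₂ T₁) (tw G D T₁ T₂)
    (tw G D T₂ T₁) tD.1 tD.1 r₁ r₂ r₁ r₂ _ _ x u hxV huV X hXR hX4 hXu Q hQ l hl hlQi hl₁ hl₂
    (fun e he hel => ⟨Iff.rfl, Iff.rfl, low_vst_upd _ s l e 0 2 hel⟩) ⟨hl₁, hl₂⟩ Z₁ Z₂ s₁ s₂
    hZ₁ hZ₂ hlZ₁ hlZ₂ hZQ₁ hZQ₂ hZT₁ hZT₂ hZX₁ hZX₂
  have hselz : sel G Q z = sel G Q x := sel_congr G Q z x (fun e he => (bz1 e he).symm)
  have hselu : sel G Q u = sel G Q x := sel_congr G Q u x (fun e he => (bu1 e he).symm)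
  have hv0 : vst (M \ (S₁ ∪ S₂)) (Function.update s l 0) l = (1, 1) := by
    unfold vst
    rw [if_pos hlLf, Function.update_self]
    rfl
  have hv1 : vst (M \ (S₁ ∪ S₂)) (Function.update s l 1) l = (0, 1) := by
    unfold vst
    rw [if_pos hlLf, Function.update_self]
    rfl
  have hv2 : vst (M \ (S₁ ∪ S₂)) (Function.update s l 2) l = (1, 0) := by
    unfold vst
    rw [if_pos hlLf, Function.update_self]
    rfl
  rw [hv0, hv1] at bz2
  rw [hv0, hv2] at bu2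
  have hupl := up_cut G M R hR X Q hXR hX4 hXu hQ l hl hlQi
  have hxl : sel G Q x (x l) = (1, 1) := by
    rw [(hxV.loc l hlM Q hupl).2.2 hl₁ hl₂, hv0]
  have hyl : sel G Q x (y l) = (1, 1) := by
    rw [← hsely, (hyV.loc l hlM Q hupl).2.2 hl₁' hl₂', hv0]
  obtain ⟨σ, hσ⟩ : ∃ σ, σ = sel G Q x := ⟨_, rfl⟩
  have hn1 : σ.symm (1, 0) ≠ 0 := by
    intro hh
    have := congrArg σ hh
    rw [AddEquiv.apply_symm_apply, map_zero] at this
    exact absurd this (by decide)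
  have hn2 : σ.symm (0, 1) ≠ 0 := by
    intro hh
    have := congrArg σ hh
    rw [AddEquiv.apply_symm_apply, map_zero] at this
    exact absurd this (by decide)
  -- separation
  have hsep1 : Spr A0 (fun e => G.cut (U e) ∩ G.cut X) l s₂ (Sc G (Jd M x (σ.symm (1, 0)))) := by
    refine cls_sep G M R P w g hS.fam x (σ.symm (1, 0)) (tw G D T₂ T₁) tD.1.h2 X Q hXP hX4 hQ ?_ ?_
      pr A0 U hE l s₂ ?_ hsl₂ Z₂ hZ₂ hZQ₂ hZT₂ hZX₂
    · intro e he hup hh
      have h1 := (hxV.loc e (tD.1.h2 he) Q hup).2.1 he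
      rw [hh, ← hσ, AddEquiv.apply_symm_apply] at h1
      exact absurd h1 (by decide)
    · intro Y hY hY4
      obtain ⟨Q', hQ'⟩ := up_exists G M R hR Y (hR.ne Y hY)
      have hYu : Y ≠ univ := by
        rintro rfl
        have : G.cut univ = ∅ := by
          ext e
          rw [MG.mem_cut]
          simp
        rw [this] at hY4
        simp at hY4
      exact tr4 G M hS.pm R hR _ _ tD.1 r₁ r₂ _ x (low_vst _ _) hxV Y Q' hY hYu hQ' _ hn1
        (Or.inr (Or.inr hY4))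
    · intro hh
      rw [hh, ← hσ, AddEquiv.apply_symm_apply] at hxl
      exact absurd hxl (by decide)
  have hsep2 : Spr A0 (fun e => G.cut (U e) ∩ G.cut X) l s₁ (Sc G (Jd M y (σ.symm (0, 1)))) := by
    rw [← h31]
    refine cls_sep G M R P w g hS.fam y (σ.symm (0, 1)) (tw G D' T₁ T₂) tD'.1.h1 X Q hXP hX4 hQ
      ?_ ?_ pr A0 U hE l s₃ ?_ hsl₃ Z₃ hZ₃ hZQ₃ hZT₃ hZX₃
    · intro e he hup hh
      have h1 := (hyV.loc e (tD'.1.h1 he) Q hup).1 he
      rw [hh, hsely, ← hσ, AddEquiv.apply_symm_apply] at h1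
      exact absurd h1 (by decide)
    · intro Y hY hY4
      obtain ⟨Q', hQ'⟩ := up_exists G M R hR Y (hR.ne Y hY)
      have hYu : Y ≠ univ := by
        rintro rfl
        have : G.cut univ = ∅ := by
          ext e
          rw [MG.mem_cut]
          simp
        rw [this] at hY4
        simp at hY4
      exact tr4 G M hS.pm R hR _ _ tD'.1 r₁' r₂' _ y (low_vst _ _) hyV Y Q' hY hYu hQ' _ hn2
        (Or.inr (Or.inr hY4))
    · intro hh
      rw [hh, ← hσ, AddEquiv.apply_symm_apply] at hyl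
      exact absurd hyl (by decide)
  -- class relations
  have ha : sel G Q (xf D (Function.update s l 0)) (σ.symm (1, 0)) =
      if Even (D.filter (fun Y => X ⊆ Y)).card then ((1, 0) : K4) else (0, 1) := by
    rw [if_pos he, ← hx, ← hσ, AddEquiv.apply_symm_apply]
  have hb : sel G Q (xf D' (Function.update s l 0)) (σ.symm (0, 1)) =
      if Even (D'.filter (fun Y => X ⊆ Y)).card then ((1, 0) : K4) else (0, 1) := by
    rw [if_neg ho, ← hy, hsely, ← hσ, AddEquiv.apply_symm_apply]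
  have hcz : sel G Q (xf D' (Function.update s l 1)) (σ.symm (0, 1)) =
      if Even (D'.filter (fun Y => X ⊆ Y)).card then ((1, 0) : K4) else (0, 1) := by
    rw [if_neg ho, ← hz, hselz, ← hσ, AddEquiv.apply_symm_apply]
  have hcu : sel G Q (xf D (Function.update s l 2)) (σ.symm (1, 0)) =
      if Even (D.filter (fun Y => X ⊆ Y)).card then ((1, 0) : K4) else (0, 1) := by
    rw [if_pos he, ← hu, hselu, ← hσ, AddEquiv.apply_symm_apply]
  have h1 := sp4 G M w R P g A S₁ S₂ T₁ T₂ xf hS X hX pr A0 U hE srv Q hQ D hD _ _ ha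
  have h2 := sp4 G M w R P g A S₁ S₂ T₁ T₂ xf hS X hX pr A0 U hE srv Q hQ D' hD' _ _ hb
  have h3 := sp4 G M w R P g A S₁ S₂ T₁ T₂ xf hS X hX pr A0 U hE srv Q hQ D' hD' _ _ hcz
  have h4 := sp4 G M w R P g A S₁ S₂ T₁ T₂ xf hS X hX pr A0 U hE srv Q hQ D hD _ _ hcu
  rw [← hx, ← hσ, AddEquiv.apply_symm_apply] at h1
  rw [← hy, hsely, ← hσ, AddEquiv.apply_symm_apply] at h2
  rw [← hz, hselz, ← hσ, AddEquiv.apply_symm_apply] at h3
  rw [← hu, hselu, ← hσ, AddEquiv.apply_symm_apply] at h4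
  have hppy : ∀ e ∈ A0, ∀ i ∈ G.cut (U e) ∩ G.cut X, σ (y i) = σ (x i) := by
    intro e _ i hi
    have hiX := (Finset.mem_inter.1 hi).2
    rw [hag i (hXM hiX) (low_cutX G X i hiX)]
  have hppz : ∀ e ∈ A0, ∀ i ∈ G.cut (U e) ∩ G.cut X,
      σ (z i) = tog (fun e => σ (x e)) (1, 0) {l, s₂} i := by
    intro e _ i hi
    have hiX := (Finset.mem_inter.1 hi).2
    have h5 := bz2 i hiX
    rw [← hσ] at h5
    rw [h5]
    unfold tog
    have h6 : (((1, 1) : K4) + (0, 1)) = (1, 0) := by decide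
    rw [h6]
    split_ifs <;> rfl
  have hppu : ∀ e ∈ A0, ∀ i ∈ G.cut (U e) ∩ G.cut X,
      σ (u i) = tog (fun e => σ (x e)) (0, 1) {l, s₁} i := by
    intro e _ i hi
    have hiX := (Finset.mem_inter.1 hi).2
    have h5 := bu2 i hiX
    rw [← hσ] at h5
    rw [h5]
    unfold tog
    have h6 : (((1, 1) : K4) + (1, 0)) = (0, 1) := by decide
    rw [h6]
    split_ifs <;> rfl
  have g2 := low_rel_congr A0 _ _ (fun e => σ (x e)) _ _ hppy h2.1
  have g3 := low_rel_congr A0 _ _ _ _ _ hppz h3.1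
  have g4 := low_rel_congr A0 _ _ _ _ _ hppu h4.1
  rw [← hσ] at hxl
  obtain ⟨e, heA, h⟩ := hgood (fun e => σ (x e)) hxl s₂ hsX₂ hsl₂ s₁ hsX₁ hsl₁ h12 _ _ _ _
    h1.1 hsep1 g2 hsep2 g3 g4
  have hnn : ∀ D s, 0 ≤ ∑ a ∈ univ.erase (0 : K4), Φ D s a :=
    fun D s => Finset.sum_nonneg fun a _ => hΦ0 _ _ _
  rw [Fin.sum_univ_three]
  have n1 := hnn D (Function.update s l 0)
  have n2 := hnn D (Function.update s l 1)
  have n3 := hnn D (Function.update s l 2)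
  have n4 := hnn D' (Function.update s l 0)
  have n5 := hnn D' (Function.update s l 1)
  have n6 := hnn D' (Function.update s l 2)
  rcases h with h | h | h | h
  · have h5 := hΦ D hD (Function.update s l 0) _ hn1 e heA
    rw [← hx, h1.2 e heA] at h5
    have := low_sum (Φ D (Function.update s l 0)) (hΦ0 D _) _ hn1 _ (h.trans h5)
    linarith
  · have h5 := hΦ D' hD' (Function.update s l 0) _ hn2 e heA
    rw [← hy, h2.2 e heA, low_cls_congr w A0 _ _ (fun e => σ (x e)) _ hppy e heA] at h5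
    have := low_sum (Φ D' (Function.update s l 0)) (hΦ0 D' _) _ hn2 _ (h.trans h5)
    linarith
  · have h5 := hΦ D' hD' (Function.update s l 1) _ hn2 e heA
    rw [← hz, h3.2 e heA, low_cls_congr w A0 _ _ _ _ hppz e heA] at h5
    have := low_sum (Φ D' (Function.update s l 1)) (hΦ0 D' _) _ hn2 _ (h.trans h5)
    linarith
  · have h5 := hΦ D hD (Function.update s l 2) _ hn1 e heA
    rw [← hu, h4.2 e heA, low_cls_congr w A0 _ _ _ _ hppu e heA] at h5
    have := low_sum (Φ D (Function.update s l 2)) (hΦ0 D _) _ hn1 _ (h.trans h5)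
    linarith

/-- JOB r4lowL: lower bound, case `GoodL`: pairs `D`, `D ∆ {X}` and triples of values of `l` -/
theorem r4lowL (G : MG V E) (M : Finset E) (w : E → ℕ) (R P : Finset (Finset V))
    (g : Finset V → E) (A : Finset (Finset V)) (S₁ S₂ T₁ T₂ : Finset E)
    (xf : Finset (Finset V) → (E → Fin 3) → E → K4)
    (hS : Set4 G M w R P g A S₁ S₂ T₁ T₂ xf)
    (X : Finset V) (hX : X ∈ A) (pr : Finset (E × E)) (A0 : Finset E) (U : E → Finset V)
    (hE : Eff G M X (g X) pr A0 U)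
    (srv : Srv G M X (Cv G M (g X)) pr (S₂ ∩ own G M R X) ((S₂ ∩ own G M R X) ∪ low G M R X))
    (Q : Finset V) (hQ : Up G R X Q) (hX4 : (G.cut X).card ≠ 4) (l : E) (hl : l ∈ G.cut X)
    (hlQ : l ∉ G.cut Q) (hlS : l ∉ S₁ ∪ S₂) (c : ℝ) (hc : 0 ≤ c)
    (hgood : GoodL c (G.cut X) A0 (fun e => G.cut (U e) ∩ G.cut X) (g X) w l)
    (Φ : Finset (Finset V) → (E → Fin 3) → K4 → ℝ) (hΦ0 : ∀ D s a, 0 ≤ Φ D s a)
    (hΦ : ∀ D ⊆ A, ∀ s, ∀ a, a ≠ 0 → ∀ h ∈ A0, |clC G M w (xf D s) a (Ce G M (g X)) h| ≤ Φ D s a) :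
    c * (w (g X) : ℝ) * ((A.powerset.card : ℝ) * (Fintype.card (E → Fin 3) : ℝ)) ≤
      6 * ∑ D ∈ A.powerset, ∑ s : E → Fin 3, ∑ a ∈ univ.erase (0 : K4), Φ D s a := by
  refine low_avg A X hX l _ (fun D s => ∑ a ∈ univ.erase (0 : K4), Φ D s a) ?_
  intro D hD hXD s
  have hD' : insert X D ⊆ A := Finset.insert_subset hX hD
  have hm : ∀ e, e ∉ ins G univ X → mult G D e = mult G (insert X D) e :=
    fun e he => (low_mult G D X e he).symm
  by_cases he : Even (D.filter (fun Y => X ⊆ Y)).card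
  · exact low_stepL G M w R P g A S₁ S₂ T₁ T₂ xf hS X hX pr A0 U hE srv Q hQ hX4 l hl hlQ hlS c
      hgood Φ hΦ0 hΦ D (insert X D) hD hD' he (fun hh => (low_par D X hXD).1 hh he) hm s
  · have h1 := low_stepL G M w R P g A S₁ S₂ T₁ T₂ xf hS X hX pr A0 U hE srv Q hQ hX4 l hl hlQ
      hlS c hgood Φ hΦ0 hΦ (insert X D) D hD' hD ((low_par D X hXD).2 he) he
      (fun e he => (hm e he).symm) s
    refine h1.trans (le_of_eq ?_)
    exact Finset.sum_congr rfl fun i _ => add_comm _ _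

end Pool.Agent.Lib.MP_95e9b3_coG
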