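import Pool.Agent.Lib.MP_95e9b3_coG.R3_glue
import Pool.Agent.Lib.MP_95e9b3_coG.R3_effs
import Pool.Agent.Lib.MP_95e9b3_coG.R3_cross
import Pool.Agent.Lib.MP_95e9b3_coG.R3_series
import Pool.Agent.Lib.MP_95e9b3_coG.R3_con
import Pool.Agent.Lib.MP_95e9b3_coG.R4_univ
import Pool.Agent.Lib.MP_95e9b3_coG.R4_sel
import Pool.Agent.Lib.MP_95e9b3_coG.R4_trees
import Pool.Agent.Lib.MP_95e9b3_coG.R4_exists_val
import Pool.Agent.Lib.MP_95e9b3_coG.R4_e5mem
import Pool.Agent.Lib.MP_95e9b3_coG.R4_r4sets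
import Pool.Agent.Lib.MP_95e9b3_coG.R4_low
import Pool.Agent.Lib.MP_95e9b3_coG.R4Defs2
import Pool.Agent.Lib.MP_95e9b3_coG.R4_coord
/-! # Route G, block R4: assembly -/

set_option autoImplicit false

namespace Pool.Agent.Lib.MP_95e9b3_coG

open Finset Pool.Agent.Lib.MP_95e9b3_coC

variable {V E : Type} [Fintype V] [DecidableEq V] [Fintype E] [DecidableEq E]

/-- a set which is a union of circuits of `F` -/
private theorem r4m_closed (G : MG V E) (M : Finset E) (X : Finset V) (hX : G.cut X ⊆ M) (a b : V)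
    (ha : a ∈ X) (h : G.Rch (univ \ M) a b) : b ∈ X := by
  refine G.closed_Rch (univ \ M) X ?_ a b ha h
  rw [Finset.eq_empty_iff_forall_notMem]
  intro e he
  rw [mem_inter, mem_sdiff] at he
  exact he.1.2 (hX he.2)

/-- `2 |cut X ∩ cut Q| ≤ |cut X| + |cut Q| - |cut (Q \ X)|` -/
private theorem r4m_count (G : MG V E) (X Q : Finset V) (h : X ⊆ Q) :
    (G.cut (Q \ X)).card + 2 * (G.cut X ∩ G.cut Q).card ≤ (G.cut X).card + (G.cut Q).card := by
  have h1 : G.cut (Q \ X) = symmDiff (G.cut X) (G.cut Q) := by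
    rw [← G.cut_symm]
    congr 1
    ext v
    rw [mem_sdiff, mem_symmDiff]
    constructor
    · intro hv; exact Or.inr hv
    · rintro (hv | hv)
      · exact absurd (h hv.1) hv.2
      · exact hv
  rw [h1]
  have h2 : (symmDiff (G.cut X) (G.cut Q)).card = (G.cut X \ G.cut Q).card + (G.cut Q \ G.cut X).card := by
    rw [show symmDiff (G.cut X) (G.cut Q) = (G.cut X \ G.cut Q) ∪ (G.cut Q \ G.cut X) from rfl]
    refine card_union_of_disjoint ?_
    rw [Finset.disjoint_left]
    intro e he he'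
    exact (mem_sdiff.1 he').2 (mem_sdiff.1 he).1
  have h3 := card_sdiff_add_card_inter (G.cut X) (G.cut Q)
  have h4 := card_sdiff_add_card_inter (G.cut Q) (G.cut X)
  rw [inter_comm (G.cut Q)] at h4
  omega

/-- monotonicity of the boundary sets -/
private theorem r4m_mono (G : MG V E) (X A B : Finset V) (hA : A ⊆ B) (hB : B ⊆ X) :
    G.cut A ∩ G.cut X ⊆ G.cut B ∩ G.cut X := by
  intro e he
  rw [mem_inter, MG.mem_cut, MG.mem_cut] at he ⊢
  refine ⟨?_, he.2⟩
  intro h
  obtain ⟨h1, h2⟩ := he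
  by_cases h3 : G.s e ∈ A
  · have h4 := h.1 (hA h3)
    exact h2 ⟨fun _ => hB h4, fun _ => hB (hA h3)⟩
  · by_cases h4 : G.t e ∈ A
    · have h5 := h.2 (hA h4)
      exact h2 ⟨fun _ => hB (hA h4), fun _ => hB h5⟩
    · exact h1 ⟨fun h5 => absurd h5 h3, fun h5 => absurd h5 h4⟩

/-- the finite lemma with the constant `c` -/
def FLc (c : ℝ) : Prop :=
  ∀ (E : Type) [Fintype E] [DecidableEq E] (K K0 A0 : Finset E)
    (D : E → Finset E) (g : E) (w : E → ℕ), 4 ≤ K.card → K.card ≤ 7 → K0 ⊆ K →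
    (2 * K0.card ≤ K.card ∨ (K0 = K ∧ K.card = 4)) → g ∈ A0 → D g = ∅ →
    (∀ e ∈ A0, D e ⊆ K) → (∀ e ∈ A0, D e ≠ K) → (∀ e ∈ A0, ∀ f ∈ A0, D e ⊆ D f ∨ D f ⊆ D e) →
    (∀ e ∈ A0, ∀ f ∈ A0, e ≠ f → D e ≠ D f) → (∀ e ∈ A0, w e ≤ w g) →
    (∃ l ∈ K, l ∉ K0 ∧ GoodL c K A0 D g w l) ∨
      ((K0.card = 3 ∨ K0 = K) ∧ GoodP c K K0 A0 D g w)

/-- R3 without the hypothesis H5, with the constant in terms of the constant of the finite lemma -/
theorem R4Of (c : ℝ) (hc : 0 < c) (hfl : FLc c) (c' : ℚ) (hc'0 : (0 : ℝ) < (c' : ℝ))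
    (hc' : (c' : ℝ) ≤ c / 1152) :
    ∀ (V E : Type) [Fintype V] [DecidableEq V] [Fintype E]
    [DecidableEq E] (G : MG V E) (_ : C3 G) (M : Finset E) (_ : PM G M)
    (w : E → ℕ) (Y : ℕ → Finset E) (_ : Cl G M w Y) (T : ℕ),
    G.Cov w (3 / 2 * (∑ e, (w e : ℚ)) + 1 / 2 * (∑ e ∈ M, (w e : ℚ))
      - c' * ∑ t ∈ range T, (NS G M w Y t : ℚ)) := by
  intro V E _ _ _ _ G hG M hM w Y hY T
  rcases isEmpty_or_nonempty V with hV | hV
  · -- no vertices
    have hE : IsEmpty E := ⟨fun e => hV.elim (G.s e)⟩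
    refine ⟨[], by simp, fun e => hE.elim e, ?_⟩
    have h1 : ∀ t, NS G M w Y t = 0 := by
      intro t
      unfold NS parts
      simp
    have h2 : ∀ A : Finset E, ∑ e ∈ A, (w e : ℚ) = 0 := by
      intro A
      exact Finset.sum_eq_zero fun e _ => hE.elim e
    simp [h1, h2]
  classical
  obtain ⟨R, P, g, hF, hsum⟩ := r4sel G hG M hM w Y hY T
  have hR : Lmr G M R := hF.toLmr
  have hPR : ∀ X ∈ P, X ∈ R := fun X hX => hF.sub hX
  have hev : G.Ev (univ \ M) := by
    intro v
    have h1 := G.dg_sdiff M univ (subset_univ M) v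
    rw [hG.deg, hM.deg] at h1
    have h2 : G.dg (univ \ M) v = 2 := by omega
    rw [h2]
    exact even_two
  -- effective circles
  have hser : ∀ X, ∃ (Q : Finset (E × E)) (A0 : Finset E) (U : E → Finset V),
      X ∈ P → Eff G M X (g X) Q A0 U := by
    intro X
    by_cases hX : X ∈ P
    · obtain ⟨Q, A0, U, h⟩ := series G hG M hM X (hF.pu X hX) (hR.nod X (hPR X hX)) (g X)
        (hF.gF X hX) (hF.gX X hX)
      exact ⟨Q, A0, U, fun _ => h⟩
    · exact ⟨∅, ∅, fun _ => ∅, fun h => absurd h hX⟩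
  choose pr A0 U hE using hser
  -- levels
  have hup : ∀ X, ∃ Q, X ∈ R → Up G R X Q := by
    intro X
    by_cases hX : X ∈ R
    · obtain ⟨Q, h⟩ := up_exists G M R hR X (hR.ne X hX)
      exact ⟨Q, fun _ => h⟩
    · exact ⟨univ, fun h => absurd h hX⟩
  choose Qm hQm using hup
  -- the finite lemma
  have hK4 : ∀ X ∈ R, (G.cut X).card = 4 → Qm X = X := by
    intro X hX h4
    have h1 := hQm X hX
    exact Finset.Subset.antisymm (h1.2.2.2 X hX h4 (Finset.Subset.refl X)) h1.2.2.1
  have hl0 : ∀ X, ∃ l, (X ∈ R → X ≠ univ → l ∈ G.cut X) ∧ (X ∈ P →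
      ((l ∉ G.cut (Qm X) ∧
        GoodL c (G.cut X) (A0 X) (fun e => G.cut (U X e) ∩ G.cut X) (g X) w l) ∨
      ((G.cut (Qm X)).card = 4 ∧
        GoodP c (G.cut X) (G.cut X ∩ G.cut (Qm X)) (A0 X) (fun e => G.cut (U X e) ∩ G.cut X)
          (g X) w))) := by
    intro X
    by_cases hX : X ∈ R
    · by_cases hXu : X = univ
      · obtain ⟨v⟩ := hV
        by_cases hne : (univ : Finset E).Nonempty
        · obtain ⟨e, _⟩ := hne
          exact ⟨e, fun _ h => absurd hXu h, fun h => absurd hXu (hF.pu X h)⟩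
        · exfalso
          have h1 := hG.deg v
          rw [Finset.not_nonempty_iff_eq_empty] at hne
          rw [hne, MG.dg_empty] at h1
          omega
      · have hcard := hF.four X hX hXu
        obtain ⟨l, hl⟩ : (G.cut X).Nonempty := by
          rw [← Finset.card_pos]; omega
        by_cases hXP : X ∈ P
        · have hEX := hE X hXP
          have hQX := hQm X hX
          have hK0 : 2 * (G.cut X ∩ G.cut (Qm X)).card ≤ (G.cut X).card ∨
              (G.cut X ∩ G.cut (Qm X) = G.cut X ∧ (G.cut X).card = 4) := by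
            by_cases h4 : (G.cut X).card = 4
            · right
              rw [hK4 X hX h4, Finset.inter_self]
              exact ⟨rfl, h4⟩
            · left
              rcases hQX.2.1 with hu | hq4
              · have h1 : G.cut (Qm X) = ∅ := by
                  rw [hu]
                  ext e
                  simp [MG.mem_cut]
                rw [h1, Finset.inter_empty, Finset.card_empty]
                omega
              · have h1 := r4m_count G X (Qm X) hQX.2.2.1
                have hne : (Qm X \ X).Nonempty := by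
                  rw [Finset.nonempty_iff_ne_empty]
                  intro h0
                  rw [Finset.sdiff_eq_empty_iff_subset] at h0
                  have h2 := Finset.Subset.antisymm hQX.2.2.1 h0
                  rw [← h2] at hq4
                  exact h4 hq4
                have hqu : Qm X \ X ≠ univ := by
                  intro h0
                  obtain ⟨v, hv⟩ := hR.ne X hX
                  have h2 : v ∈ Qm X \ X := by rw [h0]; exact mem_univ v
                  exact (mem_sdiff.1 h2).2 hv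
                have h3 := hG.cut (Qm X \ X) hne hqu
                have hsub : G.cut (Qm X \ X) ⊆ M := by
                  intro e he
                  have h5 : e ∈ G.cut X ∨ e ∈ G.cut (Qm X) := by
                    by_contra hcon
                    rw [not_or, MG.mem_cut, MG.mem_cut, not_not, not_not] at hcon
                    rw [MG.mem_cut, mem_sdiff, mem_sdiff, hcon.1, hcon.2] at he
                    exact he Iff.rfl
                  rcases h5 with h5 | h5
                  · exact hR.nod X hX h5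
                  · exact hR.nod _ hQX.1 h5
                have h4' : 4 ≤ (G.cut (Qm X \ X)).card := by
                  by_contra hlt
                  have h6 : (G.cut (Qm X \ X)).card = 3 := by omega
                  have h7 := hM.three _ h6
                  rw [Finset.inter_eq_right.2 hsub, h6] at h7
                  omega
                omega
          have hcut0 : G.cut (∅ : Finset V) = ∅ := by
            ext e
            simp [MG.mem_cut]
          have hfin := hfl E (G.cut X) (G.cut X ∩ G.cut (Qm X)) (A0 X)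
            (fun e => G.cut (U X e) ∩ G.cut X) (g X) w hcard (hF.small X hXP)
            Finset.inter_subset_left hK0 hEX.gA (by
              show G.cut (U X (g X)) ∩ G.cut X = ∅
              rw [hEX.Ug, hcut0, Finset.empty_inter])
            (fun e _ => Finset.inter_subset_right) (fun e he => hEX.proper e he)
            (fun e he f hf => by
              rcases hEX.chain e he f hf with h | h
              · exact Or.inl (r4m_mono G X _ _ h (hEX.UX f hf))
              · exact Or.inr (r4m_mono G X _ _ h (hEX.UX e he)))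
            (fun e he f hf hef => hEX.inj e he f hf hef)
            (fun e he => hF.gmax X hXP e (hEX.sub he))
          rcases hfin with ⟨l', hl'K, hl'0, hgood⟩ | ⟨hK03, hgood⟩
          · refine ⟨l', fun _ _ => hl'K, fun _ => Or.inl ⟨?_, hgood⟩⟩
            intro h1
            exact hl'0 (mem_inter.2 ⟨hl'K, h1⟩)
          · refine ⟨l, fun _ _ => hl, fun _ => Or.inr ⟨?_, hgood⟩⟩
            rcases hQX.2.1 with hu | hq4
            · exfalso
              have h1 : G.cut (Qm X) = ∅ := by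
                rw [hu]
                ext e
                simp [MG.mem_cut]
              rw [h1, Finset.inter_empty, Finset.card_empty] at hK03
              rcases hK03 with h2 | h2
              · omega
              · rw [← h2] at hl
                exact absurd hl (Finset.notMem_empty l)
            · exact hq4
        · exact ⟨l, fun _ _ => hl, fun h => absurd h hXP⟩
    · by_cases hne : (univ : Finset E).Nonempty
      · obtain ⟨e, _⟩ := hne
        exact ⟨e, fun h => absurd h hX, fun h => absurd (hPR X h) hX⟩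
      · exfalso
        obtain ⟨v⟩ := hV
        have h1 := hG.deg v
        rw [Finset.not_nonempty_iff_eq_empty] at hne
        rw [hne, MG.dg_empty] at h1
        omega
  choose l hl1 hl2 using hl0
  -- modes
  obtain ⟨B0, hB0, hB1, hB2⟩ := modes G M R hR l (fun X hX hXu => hl1 X hX hXu)
    (fun X => if X ∈ P then w (g X) else 0)
  set A : Finset (Finset V) := B0.filter (fun X => X ∈ P) with hA
  have hAP : A ⊆ P := fun X hX => (mem_filter.1 hX).2
  have hsumA : ∑ X ∈ P, w (g X) ≤ 2 * ∑ X ∈ A, w (g X) := by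
    have h1 : ∑ X ∈ R.erase univ, (if X ∈ P then w (g X) else 0) = ∑ X ∈ P, w (g X) := by
      rw [← Finset.sum_filter]
      refine Finset.sum_congr ?_ fun _ _ => rfl
      ext X
      rw [mem_filter, mem_erase]
      exact ⟨fun h => h.2, fun h => ⟨⟨hF.pu X h, hPR X h⟩, h⟩⟩
    have h2 : ∑ X ∈ B0, (if X ∈ P then w (g X) else 0) = ∑ X ∈ A, w (g X) := by
      rw [hA, ← Finset.sum_filter]
    rw [h1, h2] at hB2
    exact hB2
  set A1 : Finset (Finset V) := A.filter (fun X => l X ∉ G.cut (Qm X) ∧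
        GoodL c (G.cut X) (A0 X) (fun e => G.cut (U X e) ∩ G.cut X) (g X) w (l X)) with hA1
  have hX4 : ∀ X ∈ A1, (G.cut X).card ≠ 4 := by
    intro X hX h4
    have h1 := mem_filter.1 hX
    have h2 := hPR X (hAP h1.1)
    apply h1.2.1
    rw [hK4 X h2 h4]
    exact hl1 X h2 (hF.pu X (hAP h1.1))
  obtain ⟨S₁, S₂, hS, c1, c2, hsrv, hS5⟩ := r4sets G M w R P g hF A hAP l (by
      intro X hX
      obtain ⟨Z, hZ, hZB, hZl⟩ := hB1 X (mem_filter.1 hX).1
      exact ⟨Z, hZ, fun h => hZB (mem_filter.1 h).1, hZl⟩) A1 (Finset.filter_subset _ _) (by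
      intro X hX Z hZ hlZ
      have h1 := mem_filter.1 hX
      have h2 := hPR X (hAP h1.1)
      exact e5mem G M w R P g hF X (Qm X) h2 (hX4 X hX) (hF.pu X (hAP h1.1)) (hQm X h2) (l X)
        (hl1 X h2 (hF.pu X (hAP h1.1))) h1.2.1 Z hZ hlZ) pr (fun X hX => (hE X (hAP hX)).prs)
  obtain ⟨T₁, hT₁S, t₁⟩ := trees G M R hR S₁ hS.h1 c1
  obtain ⟨T₂, hT₂S, t₂⟩ := trees G M R hR S₂ hS.h2 c2
  have hT : Two M T₁ T₂ := ⟨hT₁S.trans hS.h1, hT₂S.trans hS.h2,
    Finset.disjoint_of_subset_left hT₁S (Finset.disjoint_of_subset_right hT₂S hS.hd)⟩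
  have hAR : A ⊆ R := fun X hX => hPR X (hAP hX)
  -- the flows
  have hval : ∀ (D : Finset (Finset V)) (s : E → Fin 3), ∃ x, D ⊆ A →
      Val4 G M R (tw G D T₁ T₂) (tw G D T₂ T₁) (vst (M \ (S₁ ∪ S₂)) s) x := by
    intro D s
    by_cases hD : D ⊆ A
    · have h1 := r3con G M R hR T₁ T₂ hT t₁.con t₂.con D (hD.trans hAR)
      obtain ⟨x, hx⟩ := exists_val G M R hR (tw G D T₁ T₂) (tw G D T₂ T₁)
        (tw_Two G M T₁ T₂ hT D).1 (fun X hX => (h1 X hX).1) (fun X hX => (h1 X hX).2)
        (vst (M \ (S₁ ∪ S₂)) s)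
      exact ⟨x, fun _ => hx⟩
    · exact ⟨fun _ => 0, fun h => absurd h hD⟩
  choose xf hxf using hval
  have hSet : Set4 G M w R P g A S₁ S₂ T₁ T₂ xf := {
    fam := hF
    pm := hM.deg
    ev := hev
    AP := hAP
    two := hS
    c₁ := c1
    c₂ := c2
    ts₁ := hT₁S
    ts₂ := hT₂S
    t₁ := t₁
    t₂ := t₂
    hx := fun D hD s => hxf D s hD }
  -- best edges
  have hbest : ∀ (D : Finset (Finset V)) (s : E → Fin 3) (a : K4) (C : Finset E), ∃ h : E,
      C.Nonempty → h ∈ C ∧ ∀ e ∈ C, |clC G M w (xf D s) a C e| ≤ |clC G M w (xf D s) a C h| := by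
    intro D s a C
    by_cases hC : C.Nonempty
    · obtain ⟨h, h1, h2⟩ := Finset.exists_max_image C (fun e => |clC G M w (xf D s) a C e|) hC
      exact ⟨h, fun _ => ⟨h1, h2⟩⟩
    · by_cases hne : (univ : Finset E).Nonempty
      · obtain ⟨e, _⟩ := hne
        exact ⟨e, fun h => absurd h hC⟩
      · exfalso
        obtain ⟨v⟩ := hV
        have h1 := hG.deg v
        rw [Finset.not_nonempty_iff_eq_empty] at hne
        rw [hne, MG.dg_empty] at h1
        omega
  choose hm hhm using hbest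
  set Φ : Finset V → Finset (Finset V) → (E → Fin 3) → K4 → ℝ := fun X D s a =>
    |clC G M w (xf D s) a (Ce G M (g X)) (hm D s a (Ce G M (g X)))| with hΦ
  have hΦ0 : ∀ X D s a, 0 ≤ Φ X D s a := fun X D s a => abs_nonneg _
  have hCne : ∀ X ∈ P, (Ce G M (g X)).Nonempty := fun X hX => ⟨g X, (hE X hX).sub (hE X hX).gA⟩
  have hΦle : ∀ X ∈ P, ∀ D ⊆ A, ∀ s, ∀ a, a ≠ 0 → ∀ h ∈ A0 X,
      |clC G M w (xf D s) a (Ce G M (g X)) h| ≤ Φ X D s a := by
    intro X hX D _ s a _ h hh
    exact (hhm D s a (Ce G M (g X)) (hCne X hX)).2 h ((hE X hX).sub hh)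
  set A' : Finset (Finset V) := A.filter (fun X => X ∈ A1 → l X ∉ S₁ ∪ S₂) with hA'
  set N : ℝ := (A.powerset.card : ℝ) * (Fintype.card (E → Fin 3) : ℝ) with hN
  have hlow : ∀ X ∈ A', c * (w (g X) : ℝ) * N ≤
      6 * ∑ D ∈ A.powerset, ∑ s : E → Fin 3, ∑ a ∈ univ.erase (0 : K4), Φ X D s a := by
    intro X hX
    have hXA : X ∈ A := (mem_filter.1 hX).1
    have hXP := hAP hXA
    have hXR := hPR X hXP
    by_cases hX1 : X ∈ A1
    · have h1 := (mem_filter.1 hX1).2
      exact r4lowL G M w R P g A S₁ S₂ T₁ T₂ xf hSet X hXA (pr X) (A0 X) (U X) (hE X hXP)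
        (hsrv X hXA) (Qm X) (hQm X hXR) (hX4 X hX1) (l X) (hl1 X hXR (hF.pu X hXP)) h1.1
        ((mem_filter.1 hX).2 hX1) c hc.le h1.2 (Φ X) (hΦ0 X) (hΦle X hXP)
    · rcases hl2 X hXP with h1 | h1
      · exact absurd (mem_filter.2 ⟨hXA, h1⟩) hX1
      · exact r4lowP G M w R P g A S₁ S₂ T₁ T₂ xf hSet X hXA (pr X) (A0 X) (U X) (hE X hXP)
          (hsrv X hXA) (Qm X) (hQm X hXR) h1.1 c hc.le h1.2 (Φ X) (hΦ0 X) (hΦle X hXP)
  -- weights
  have hW : ∑ X ∈ A, w (g X) ≤ 16 * ∑ X ∈ A', w (g X) := by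
    have h1 : ∑ X ∈ A, w (g X) = ∑ X ∈ A1, w (g X) +
        ∑ X ∈ A.filter (fun X => X ∉ A1), w (g X) := by
      rw [← Finset.sum_filter_add_sum_filter_not A (fun X => X ∈ A1)]
      congr 1
      refine Finset.sum_congr ?_ fun _ _ => rfl
      ext X
      rw [mem_filter]
      exact ⟨fun h => h.2, fun h => ⟨(mem_filter.1 h).1, h⟩⟩
    have h2 : ∑ X ∈ A', w (g X) = ∑ X ∈ A1.filter (fun X => l X ∉ S₁ ∪ S₂), w (g X) +
        ∑ X ∈ A.filter (fun X => X ∉ A1), w (g X) := by
      rw [← Finset.sum_filter_add_sum_filter_not A' (fun X => X ∈ A1)]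
      congr 1
      · refine Finset.sum_congr ?_ fun _ _ => rfl
        ext X
        constructor
        · intro h
          have h3 := mem_filter.1 h
          exact mem_filter.2 ⟨h3.2, (mem_filter.1 h3.1).2 h3.2⟩
        · intro h
          have h3 := mem_filter.1 h
          exact mem_filter.2 ⟨mem_filter.2 ⟨(mem_filter.1 h3.1).1, fun _ => h3.2⟩, h3.1⟩
      · refine Finset.sum_congr ?_ fun _ _ => rfl
        ext X
        constructor
        · intro h
          have h3 := mem_filter.1 h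
          exact mem_filter.2 ⟨(mem_filter.1 h3.1).1, h3.2⟩
        · intro h
          have h3 := mem_filter.1 h
          exact mem_filter.2 ⟨mem_filter.2 ⟨h3.1, fun h4 => absurd h4 h3.2⟩, h3.2⟩
    rw [h1, h2]
    omega
  set W' : ℝ := ∑ X ∈ A', (w (g X) : ℝ) with hW'
  -- choice of the flow and of the direction
  obtain ⟨D, hD, s, a, ha, hbig⟩ : ∃ D ∈ A.powerset, ∃ s : E → Fin 3, ∃ a ∈ univ.erase (0 : K4),
      c / 18 * W' ≤ ∑ X ∈ A', Φ X D s a := by
    by_contra hcon
    push Not at hcon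
    have h1 : ∑ X ∈ A', c * (w (g X) : ℝ) * N ≤ ∑ X ∈ A', 6 * ∑ D ∈ A.powerset,
        ∑ s : E → Fin 3, ∑ a ∈ univ.erase (0 : K4), Φ X D s a := Finset.sum_le_sum hlow
    have h2 : ∑ X ∈ A', 6 * ∑ D ∈ A.powerset, ∑ s : E → Fin 3, ∑ a ∈ univ.erase (0 : K4),
        Φ X D s a = 6 * ∑ D ∈ A.powerset, ∑ s : E → Fin 3, ∑ a ∈ univ.erase (0 : K4),
          ∑ X ∈ A', Φ X D s a := by
      rw [← Finset.mul_sum]
      congr 1
      rw [Finset.sum_comm]
      refine Finset.sum_congr rfl fun D _ => ?_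
      rw [Finset.sum_comm]
      refine Finset.sum_congr rfl fun s _ => ?_
      rw [Finset.sum_comm]
    have h3 : ∑ D ∈ A.powerset, ∑ s : E → Fin 3, ∑ a ∈ univ.erase (0 : K4),
          ∑ X ∈ A', Φ X D s a < ∑ D ∈ A.powerset, ∑ s : E → Fin 3, ∑ a ∈ univ.erase (0 : K4),
            c / 18 * W' := by
      refine Finset.sum_lt_sum_of_nonempty ⟨∅, Finset.empty_mem_powerset A⟩ fun D hD => ?_
      refine Finset.sum_lt_sum_of_nonempty ⟨fun _ => 0, mem_univ _⟩ fun s _ => ?_
      refine Finset.sum_lt_sum_of_nonempty ⟨(1, 0), by decide⟩ fun a ha => ?_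
      exact hcon D hD s a ha
    have h4 : ∑ D ∈ A.powerset, ∑ s : E → Fin 3, ∑ a ∈ univ.erase (0 : K4), c / 18 * W' =
        c / 6 * W' * N := by
      rw [Finset.sum_const, Finset.sum_const, Finset.sum_const]
      have h5 : (univ.erase (0 : K4)).card = 3 := by decide
      rw [h5, hN, Finset.card_univ]
      simp only [nsmul_eq_mul]
      push_cast
      ring
    have h6 : ∑ X ∈ A', c * (w (g X) : ℝ) * N = c * W' * N := by
      rw [← Finset.sum_mul, ← Finset.mul_sum]
    rw [h6, h2] at h1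
    rw [h4] at h3
    linarith
  have ha0 : a ≠ 0 := (mem_erase.1 ha).1
  have hvst : ∀ e, vst (M \ (S₁ ∪ S₂)) s e ≠ 0 := by
    intro e
    unfold vst st3
    split_ifs <;> decide
  have hx := hxf D s (mem_powerset.1 hD)
  have hnz := val_nz G M R hR _ _ _ _ hvst hx
  -- circuits of different regions are different
  have hinj : ∀ X ∈ A', ∀ X' ∈ A', Ce G M (g X) = Ce G M (g X') → X = X' := by
    intro X hX X' hX' hcc
    have hXP := hAP (mem_filter.1 hX).1
    have hXP' := hAP (mem_filter.1 hX').1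
    by_contra hne
    have hgX : g X ∈ Ce G M (g X') := by
      rw [← hcc]
      exact (hE X hXP).sub (hE X hXP).gA
    have hRch : G.Rch (univ \ M) (G.s (g X')) (G.s (g X)) := by
      unfold Ce at hgX
      rw [MG.mem_ce] at hgX
      exact hgX.2
    have h1 : G.s (g X) ∈ X' := r4m_closed G M X' (hR.nod X' (hPR X' hXP')) _ _
      (hF.gX X' hXP') hRch
    have h2 : G.s (g X') ∈ X := r4m_closed G M X (hR.nod X (hPR X hXP)) _ _
      (hF.gX X hXP) (G.Rch_symm _ _ _ hRch)
    rcases hR.lam X (hPR X hXP) X' (hPR X' hXP') with h3 | h3 | h3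
    · exact hF.direct X (hPR X hXP) X' hXP' (Finset.ssubset_iff_subset_ne.2 ⟨h3, hne⟩) h2
    · exact hF.direct X' (hPR X' hXP') X hXP
        (Finset.ssubset_iff_subset_ne.2 ⟨h3, fun h => hne h.symm⟩) h1
    · exact (Finset.disjoint_left.1 h3) (hF.gX X hXP) h1
  have hfinal := univ4 G w M hev (xf D s) hx.fl hnz a ha0 (A'.image (fun X => Ce G M (g X))) (by
      intro C hC
      rw [mem_image] at hC
      obtain ⟨X, hX, rfl⟩ := hC
      exact ⟨g X, hF.gF X (hAP (mem_filter.1 hX).1), rfl⟩) (hm D s a) (by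
      intro C hC
      rw [mem_image] at hC
      obtain ⟨X, hX, rfl⟩ := hC
      exact (hhm D s a _ (hCne X (hAP (mem_filter.1 hX).1))).1)
    (c' * ∑ t ∈ range T, (NS G M w Y t : ℚ)) (by
      rw [Finset.sum_image (fun X hX X' hX' h => hinj X hX X' hX' h)]
      have h1 : ∑ t ∈ range T, NS G M w Y t ≤ 32 * ∑ X ∈ A', w (g X) := by omega
      have h2 : (∑ t ∈ range T, (NS G M w Y t : ℝ)) ≤ 32 * W' := by
        rw [hW']
        exact_mod_cast h1
      have hW0 : 0 ≤ W' := by rw [hW']; positivity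
      push_cast
      have h3 : (c' : ℝ) * (∑ t ∈ range T, (NS G M w Y t : ℝ)) ≤ c' * (32 * W') :=
        mul_le_mul_of_nonneg_left h2 hc'0.le
      have h4 : (c' : ℝ) * (32 * W') ≤ c / 1152 * (32 * W') :=
        mul_le_mul_of_nonneg_right hc' (by positivity)
      have h5 : ∑ X ∈ A', Φ X D s a = ∑ X ∈ A', |clC G M w (xf D s) a (Ce G M (g X))
          (hm D s a (Ce G M (g X)))| := rfl
      rw [h5] at hbig
      linarith)
  exact hfinal

end Pool.Agent.Lib.MP_95e9b3_coG
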