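import Pool.Agent.Lib.MP_95e9b3_coG.R3_effs
import Pool.Agent.Lib.MP_95e9b3_coG.R4_univ

/-!
# Route G, block R4: `cls_nc`, `cls_rel`, `cls_sum`
-/

set_option autoImplicit false
set_option linter.unusedSectionVars false
set_option linter.unusedVariables false

namespace Pool.Agent.Lib.MP_95e9b3_coG

open Finset Pool.Agent.Lib.MP_95e9b3_coC
open scoped symmDiff

variable {V E : Type} [Fintype V] [DecidableEq V] [Fintype E] [DecidableEq E]

private lemma cl_mem_ins (G : MG V E) (A : Finset E) (X : Finset V) (e : E) :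
    e ∈ ins G A X ↔ e ∈ A ∧ G.s e ∈ X ∧ G.t e ∈ X := by
  unfold ins
  rw [Finset.mem_filter]

private lemma cl_mem_Jd (M : Finset E) (x : E → K4) (a : K4) (e : E) :
    e ∈ Jd M x a ↔ e ∈ M ∧ x e = a := by
  unfold Jd
  rw [Finset.mem_filter]

private lemma cl_mem_Ce (G : MG V E) (M : Finset E) (g e : E) :
    e ∈ Ce G M g ↔ e ∉ M ∧ G.Rch (univ \ M) (G.s g) (G.s e) := by
  unfold Ce
  rw [MG.mem_ce, Finset.mem_sdiff]
  exact ⟨fun h => ⟨h.1.2, h.2⟩, fun h => ⟨⟨Finset.mem_univ _, h.1⟩, h.2⟩⟩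

private lemma cl_Ce_of (G : MG V E) (M : Finset E) (g e f : E) (he : e ∈ Ce G M g)
    (hf : f ∈ Ce G M g) : f ∈ Ce G M e := by
  rw [cl_mem_Ce] at he hf ⊢
  exact ⟨hf.1, MG.Rch_trans G _ _ _ _ (MG.Rch_symm G _ _ _ he.2) hf.2⟩

private lemma cl_Sc_symm (G : MG V E) (J : Finset E) (e f : E) (h : Sc G J e f) : Sc G J f e :=
  fun Z h1 h2 => (h Z h1 h2).symm

/-- an even set which avoids a cut splits along the cut -/
private lemma cl_split (G : MG V E) (Z : Finset E) (hZ : G.Ev Z) (U : Finset V)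
    (h : ∀ e ∈ Z, e ∉ G.cut U) : G.Ev (ins G Z U) := by
  intro v
  by_cases hv : v ∈ U
  · have h1 : G.dg (ins G Z U) v = G.dg Z v := by
      unfold MG.dg
      apply Finset.sum_subset
      · intro e he
        exact ((cl_mem_ins G Z U e).1 he).1
      · intro e he hne
        have h2 := h e he
        rw [MG.mem_cut, not_not] at h2
        rw [cl_mem_ins] at hne
        have h3 : G.s e ∉ U := fun h3 => hne ⟨he, h3, h2.1 h3⟩
        have h4 : G.t e ∉ U := fun h4 => h3 (h2.2 h4)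
        unfold MG.inc
        rw [if_neg (fun h5 : G.s e = v => h3 (h5 ▸ hv)),
          if_neg (fun h5 : G.t e = v => h4 (h5 ▸ hv)), add_zero]
    rw [h1]
    exact hZ v
  · have h1 : G.dg (ins G Z U) v = 0 := by
      unfold MG.dg
      apply Finset.sum_eq_zero
      intro e he
      rw [cl_mem_ins] at he
      unfold MG.inc
      rw [if_neg (fun h5 : G.s e = v => hv (h5 ▸ he.2.1)),
        if_neg (fun h5 : G.t e = v => hv (h5 ▸ he.2.2)), add_zero]
    rw [h1]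
    exact Even.zero

/-- the cut of a side of a gap -/
private lemma cl_cutU (G : MG V E) (M : Finset E) (X : Finset V) (hX : G.cut X ⊆ M) (g : E)
    (Q : Finset (E × E)) (A0 : Finset E) (U : E → Finset V) (hE : Eff G M X g Q A0 U)
    (e f : E) (he : e ∈ A0) (heg : e ≠ g) (hf : f ∉ M) : f ∈ G.cut (U e) ↔ f = e ∨ f = g := by
  have h1 := hE.cutU e he heg
  have h2 : f ∉ G.cut X := fun h => hf (hX h)
  constructor
  · intro h
    have h3 : f ∈ G.cut (U e) \ G.cut X := Finset.mem_sdiff.2 ⟨h, h2⟩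
    rw [h1, Finset.mem_insert, Finset.mem_singleton] at h3
    exact h3
  · intro h
    have h3 : f ∈ G.cut (U e) \ G.cut X := by
      rw [h1, Finset.mem_insert, Finset.mem_singleton]
      exact h
    exact (Finset.mem_sdiff.1 h3).1

/-- classes are non-crossing -/
theorem cls_nc (G : MG V E) (M : Finset E) (hF : G.Ev (univ \ M)) (x : E → K4) (a : K4)
    (X : Finset V) (hX : G.cut X ⊆ M) (g : E) (hg : g ∉ M) (Q : Finset (E × E)) (A0 : Finset E)
    (U : E → Finset V) (hE : Eff G M X g Q A0 U) :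
    ∀ e₁ ∈ A0, ∀ e₂ ∈ A0, ∀ e₃ ∈ A0, ∀ e₄ ∈ A0, U e₁ ⊂ U e₂ → U e₂ ⊂ U e₃ → U e₃ ⊂ U e₄ →
      Sc G (Jd M x a) e₁ e₃ → Sc G (Jd M x a) e₂ e₄ → Sc G (Jd M x a) e₁ e₂ := by
  intro e₁ m₁ e₂ m₂ e₃ m₃ e₄ m₄ u12 u23 u34 s13 s24
  -- basic facts
  have nM : ∀ e ∈ A0, e ∉ M := fun e he => ((cl_mem_Ce G M g e).1 (hE.sub he)).1
  have hne0 : ∀ e f, U e ⊂ U f → f ≠ g := by
    intro e f h hf
    rw [hf, hE.Ug] at h
    exact absurd h (Finset.not_ssubset_empty _)
  have g2 : e₂ ≠ g := hne0 _ _ u12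
  have g3 : e₃ ≠ g := hne0 _ _ u23
  have g4 : e₄ ≠ g := hne0 _ _ u34
  have n12 : e₁ ≠ e₂ := fun h => (h ▸ u12).ne rfl
  have n23 : e₂ ≠ e₃ := fun h => (h ▸ u23).ne rfl
  have n34 : e₃ ≠ e₄ := fun h => (h ▸ u34).ne rfl
  have n14 : e₁ ≠ e₄ := fun h => ((u12.trans u23).trans u34).ne (by rw [h])
  have n24 : e₂ ≠ e₄ := fun h => (u23.trans u34).ne (by rw [h])
  have k2 := cl_cutU G M X hX g Q A0 U hE e₂
  have k3 := cl_cutU G M X hX g Q A0 U hE e₃
  have k4 := cl_cutU G M X hX g Q A0 U hE e₄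
  -- the cut of the pair
  obtain ⟨W, hW2, hW4, hWs⟩ := sc_cut G M x a hF e₂ e₄ (nM e₂ m₂)
    (cl_Ce_of G M g e₂ e₄ (hE.sub m₂) (hE.sub m₄)) n24 s24
  have hWin : ∀ e, e ∈ G.cut W → e = e₂ ∨ e = e₄ ∨ e ∈ Jd M x a := by
    intro e he
    have h := hWs he
    rw [Finset.mem_insert, Finset.mem_insert] at h
    exact h
  -- the band
  obtain ⟨B, hB⟩ : ∃ B : Finset V, B = U e₄ ∆ U e₂ := ⟨_, rfl⟩
  have hmemB : ∀ v, v ∈ B ↔ v ∈ U e₄ ∧ v ∉ U e₂ := by
    intro v
    rw [hB, Finset.mem_symmDiff]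
    constructor
    · rintro (h | h)
      · exact h
      · exact absurd ((u23.trans u34).1 h.1) h.2
    · intro h
      exact Or.inl h
  have hclosed : (univ \ M) ∩ G.cut (B ∆ W) = ∅ := by
    rw [Finset.eq_empty_iff_forall_notMem]
    intro e he
    rw [Finset.mem_inter, Finset.mem_sdiff] at he
    obtain ⟨⟨-, heM⟩, hec⟩ := he
    have c1 : e ∈ G.cut B ↔ (e = e₄ ∨ e = e₂) := by
      rw [hB, MG.cut_symm, Finset.mem_symmDiff, k4 e m₄ g4 heM, k2 e m₂ g2 heM]
      constructor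
      · rintro (⟨h1, h2⟩ | ⟨h1, h2⟩)
        · rcases h1 with h1 | h1
          · exact Or.inl h1
          · exact absurd (Or.inr h1) h2
        · rcases h1 with h1 | h1
          · exact Or.inr h1
          · exact absurd (Or.inr h1) h2
      · rintro (h | h)
        · left
          refine ⟨Or.inl h, ?_⟩
          rintro (h' | h')
          · exact n24 (h' ▸ h)
          · exact g4 (h ▸ h')
        · right
          refine ⟨Or.inl h, ?_⟩
          rintro (h' | h')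
          · exact n24 (h ▸ h')
          · exact g2 (h ▸ h')
    have c2 : e ∈ G.cut W ↔ (e = e₄ ∨ e = e₂) := by
      constructor
      · intro h
        rcases hWin e h with h1 | h1 | h1
        · exact Or.inr h1
        · exact Or.inl h1
        · exact absurd ((cl_mem_Jd M x a e).1 h1).1 heM
      · rintro (h | h)
        · rw [h]; exact hW4
        · rw [h]; exact hW2
    rw [MG.cut_symm, Finset.mem_symmDiff, c1, c2] at hec
    rcases hec with ⟨h1, h2⟩ | ⟨h1, h2⟩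
    · exact h2 h1
    · exact h2 h1
  -- position of `e₁` and `e₃`
  have pos1 : G.s e₁ ∉ B := by
    rw [hmemB]
    rintro ⟨h1, h2⟩
    by_cases hg1 : e₁ = g
    · -- `g` has exactly one end in `U e₄`, which is in `U e₂`
      have a2 : e₁ ∈ G.cut (U e₂) := (k2 e₁ m₂ g2 (nM e₁ m₁)).2 (Or.inr hg1)
      have a4 : e₁ ∈ G.cut (U e₄) := (k4 e₁ m₄ g4 (nM e₁ m₁)).2 (Or.inr hg1)
      rw [MG.mem_cut] at a2 a4
      have b2 : G.t e₁ ∈ U e₂ := by
        by_contra h3
        exact a2 ⟨fun h => absurd h h2, fun h => absurd h h3⟩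
      have b4 : G.t e₁ ∈ U e₄ := (u23.trans u34).1 b2
      exact a4 ⟨fun _ => b4, fun _ => h1⟩
    · have a1 : e₁ ∈ G.cut (U e₁) :=
        (cl_cutU G M X hX g Q A0 U hE e₁ e₁ m₁ hg1 (nM e₁ m₁)).2 (Or.inl rfl)
      have a2 : e₁ ∉ G.cut (U e₂) := by
        rw [k2 e₁ m₂ g2 (nM e₁ m₁)]
        rintro (h | h)
        · exact n12 h
        · exact hg1 h
      rw [MG.mem_cut] at a1 a2
      rw [not_not] at a2
      have b1 : G.s e₁ ∉ U e₁ := fun h => h2 (u12.1 h)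
      have b2 : G.t e₁ ∈ U e₁ := by
        by_contra h3
        exact a1 ⟨fun h => absurd h b1, fun h => absurd h h3⟩
      exact h2 (a2.2 (u12.1 b2))
  have pos3 : G.s e₃ ∈ B := by
    have a3 : e₃ ∈ G.cut (U e₃) := (k3 e₃ m₃ g3 (nM e₃ m₃)).2 (Or.inl rfl)
    have a2 : e₃ ∉ G.cut (U e₂) := by
      rw [k2 e₃ m₂ g2 (nM e₃ m₃)]
      rintro (h | h)
      · exact n23 h.symm
      · exact g3 h
    have a4 : e₃ ∉ G.cut (U e₄) := by
      rw [k4 e₃ m₄ g4 (nM e₃ m₃)]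
      rintro (h | h)
      · exact n34 h
      · exact g3 h
    rw [MG.mem_cut] at a3 a2 a4
    rw [not_not] at a2 a4
    rw [hmemB]
    by_cases h : G.s e₃ ∈ U e₃
    · have ht : G.t e₃ ∉ U e₃ := fun h1 => a3 ⟨fun _ => h1, fun _ => h⟩
      exact ⟨u34.1 h, fun h1 => ht (u23.1 (a2.1 h1))⟩
    · have ht : G.t e₃ ∈ U e₃ := by
        by_contra h1
        exact a3 ⟨fun h2 => absurd h2 h, fun h2 => absurd h2 h1⟩
      exact ⟨a4.2 (u34.1 ht), fun h1 => h (u23.1 h1)⟩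
  -- they are on different sides of `W`
  have hR : G.Rch (univ \ M) (G.s e₁) (G.s e₃) :=
    ((cl_mem_Ce G M e₁ e₃).1 (cl_Ce_of G M g e₁ e₃ (hE.sub m₁) (hE.sub m₃))).2
  have hside : G.s e₁ ∈ W ↔ G.s e₃ ∉ W := by
    have h1 : G.s e₁ ∈ B ∆ W ↔ G.s e₃ ∈ B ∆ W :=
      ⟨fun h => MG.closed_Rch G _ _ hclosed _ _ h hR,
        fun h => MG.closed_Rch G _ _ hclosed _ _ h (MG.Rch_symm G _ _ _ hR)⟩
    rw [Finset.mem_symmDiff, Finset.mem_symmDiff] at h1
    constructor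
    · intro h
      rcases h1.1 (Or.inr ⟨h, pos1⟩) with h2 | h2
      · exact h2.2
      · exact absurd pos3 h2.2
    · intro h
      rcases h1.2 (Or.inl ⟨pos3, h⟩) with h2 | h2
      · exact absurd h2.1 pos1
      · exact h2.1
  -- edges of `F` which are not `e₂`, `e₄` are not in the cut of `W`
  have hin : ∀ e, e ∉ M → e ≠ e₂ → e ≠ e₄ → (G.s e ∈ W ↔ G.t e ∈ W) := by
    intro e h1 h2 h3
    by_contra h4
    have h5 : e ∈ G.cut W := (MG.mem_cut G W e).2 h4
    rcases hWin e h5 with h | h | h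
    · exact h2 h
    · exact h3 h
    · exact h1 ((cl_mem_Jd M x a e).1 h).1
  -- an even set which contains `e₁`, `e₃` and not `e₂`, `e₄` is impossible
  have key : ∀ Z : Finset E, G.Ev Z → Disjoint Z (Jd M x a) → e₁ ∈ Z → e₂ ∉ Z → False := by
    intro Z hZ hZJ h1 h2
    have h3 : e₃ ∈ Z := (s13 Z hZ hZJ).1 h1
    have h4 : e₄ ∉ Z := fun h => h2 ((s24 Z hZ hZJ).2 h)
    have hno : ∀ e ∈ Z, e ∉ G.cut W := by
      intro e he hc
      rcases hWin e hc with h | h | h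
      · exact h2 (h ▸ he)
      · exact h4 (h ▸ he)
      · exact Finset.disjoint_left.1 hZJ he h
    have hev := cl_split G Z hZ W hno
    have hdis : Disjoint (ins G Z W) (Jd M x a) := by
      rw [Finset.disjoint_left]
      intro e he
      exact Finset.disjoint_left.1 hZJ ((cl_mem_ins G Z W e).1 he).1
    have h5 := s13 _ hev hdis
    rw [cl_mem_ins, cl_mem_ins] at h5
    have h6 := hin e₁ (nM e₁ m₁) n12 n14
    have h7 := hin e₃ (nM e₃ m₃) n23.symm n34
    by_cases h8 : G.s e₁ ∈ W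
    · have h9 := h5.1 ⟨h1, h8, h6.1 h8⟩
      exact hside.1 h8 h9.2.1
    · have h9 : G.s e₃ ∈ W := by
        by_contra h9
        exact h8 (hside.2 h9)
      exact h8 (h5.2 ⟨h3, h9, h7.1 h9⟩).2.1
  intro Z hZ hZJ
  constructor
  · intro h1
    by_contra h2
    exact key Z hZ hZJ h1 h2
  · intro h2
    by_contra h1
    apply key (Z ∆ (univ \ M)) (MG.Ev_symm G _ _ hZ hF)
    · rw [Finset.disjoint_left]
      intro e he hJ
      rw [Finset.mem_symmDiff] at he
      rcases he with he | he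
      · exact Finset.disjoint_left.1 hZJ he.1 hJ
      · exact (Finset.mem_sdiff.1 he.1).2 ((cl_mem_Jd M x a e).1 hJ).1
    · rw [Finset.mem_symmDiff]
      exact Or.inr ⟨Finset.mem_sdiff.2 ⟨Finset.mem_univ _, nM e₁ m₁⟩, h1⟩
    · rw [Finset.mem_symmDiff]
      rintro (h | h)
      · exact h.2 (Finset.mem_sdiff.2 ⟨Finset.mem_univ _, nM e₂ m₂⟩)
      · exact h.2 h2

/-- the label of a gap -/
private lemma cl_label (G : MG V E) (M : Finset E) (x : E → K4) (hx : G.Fl x) (X : Finset V)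
    (g : E) (Q : Finset (E × E)) (A0 : Finset E) (U : E → Finset V) (hE : Eff G M X g Q A0 U)
    (σ : K4 ≃+ K4) (e : E) (he : e ∈ A0) :
    ∑ i ∈ G.cut (U e) ∩ G.cut X, σ (x i) = σ (x e) + σ (x g) := by
  rw [← map_sum, ← effval G M X g Q A0 U hE x hx e he, map_add]

/-- the class relation on the effective circle -/
theorem cls_rel (G : MG V E) (M : Finset E) (hF : G.Ev (univ \ M)) (x : E → K4) (hx : G.Fl x)
    (a : K4) (X : Finset V) (hX : G.cut X ⊆ M) (g : E) (hg : g ∉ M) (Q : Finset (E × E))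
    (A0 : Finset E) (U : E → Finset V) (hE : Eff G M X g Q A0 U) (σ : K4 ≃+ K4) :
    Rel4 A0 (fun e => G.cut (U e) ∩ G.cut X) (fun e => σ (x e)) (σ a) (Sc G (Jd M x a)) := by
  have nM : ∀ e ∈ A0, e ∉ M := fun e he => ((cl_mem_Ce G M g e).1 (hE.sub he)).1
  -- monotonicity of the labels
  have hmono : ∀ e ∈ A0, ∀ f ∈ A0, U e ⊆ U f →
      G.cut (U e) ∩ G.cut X ⊆ G.cut (U f) ∩ G.cut X := by
    intro e he f hf hef r hr
    rw [Finset.mem_inter] at hr ⊢
    refine ⟨?_, hr.2⟩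
    have h1 := hr.1
    have h2 := hr.2
    rw [MG.mem_cut] at h1 h2 ⊢
    have he' := hE.UX e he
    have hf' := hE.UX f hf
    by_cases h3 : G.s r ∈ U e
    · have h4 : G.t r ∉ X := fun h4 => h2 ⟨fun _ => h4, fun _ => he' h3⟩
      exact fun h5 => h4 (hf' (h5.1 (hef h3)))
    · by_cases h4 : G.t r ∈ U e
      · have h5 : G.s r ∉ X := fun h5 => h2 ⟨fun _ => he' h4, fun _ => h5⟩
        exact fun h6 => h5 (hf' (h6.2 (hef h4)))
      · exact absurd ⟨fun h => absurd h h3, fun h => absurd h h4⟩ h1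
  have hss : ∀ e ∈ A0, ∀ f ∈ A0,
      G.cut (U e) ∩ G.cut X ⊂ G.cut (U f) ∩ G.cut X → U e ⊂ U f := by
    intro e he f hf h
    rcases hE.chain e he f hf with h1 | h1
    · refine ⟨h1, fun h2 => ?_⟩
      exact h.2 (hmono f hf e he h2)
    · exact absurd (hmono f hf e he h1) h.2
  refine ⟨?_, ?_, ?_, ?_, ?_⟩
  · intro e _ Z _ _
    exact Iff.rfl
  · intro e _ f _ h
    exact cl_Sc_symm G _ _ _ h
  · intro e _ f _ k _ h1 h2 Z h3 h4
    exact (h1 Z h3 h4).trans (h2 Z h3 h4)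
  · intro e he f hf h
    have h1 := sc_two G M x hx a hF e f (nM e he)
      (cl_Ce_of G M g e f (hE.sub he) (hE.sub hf)) h
    have h2 := cl_label G M x hx X g Q A0 U hE σ e he
    have h3 := cl_label G M x hx X g Q A0 U hE σ f hf
    change (∑ i ∈ G.cut (U f) ∩ G.cut X, σ (x i) = ∑ i ∈ G.cut (U e) ∩ G.cut X, σ (x i)) ∨
      (∑ i ∈ G.cut (U f) ∩ G.cut X, σ (x i) = (∑ i ∈ G.cut (U e) ∩ G.cut X, σ (x i)) + σ a)
    rw [h2, h3]
    rcases h1 with h1 | h1
    · left; rw [h1]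
    · right; rw [h1, map_add, add_right_comm]
  · intro e₁ m₁ e₂ m₂ e₃ m₃ e₄ m₄ h12 h23 h34 r13 r24
    exact cls_nc G M hF x a X hX g hg Q A0 U hE e₁ m₁ e₂ m₂ e₃ m₃ e₄ m₄
      (hss e₁ m₁ e₂ m₂ h12) (hss e₂ m₂ e₃ m₃ h23) (hss e₃ m₃ e₄ m₄ h34) r13 r24

/-- the class sum on the circuit is the class sum on the effective circle -/
theorem cls_sum (G : MG V E) (M : Finset E) (x : E → K4) (hx : G.Fl x) (a : K4)
    (X : Finset V) (g : E) (w : E → ℕ) (Q : Finset (E × E))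
    (A0 : Finset E) (U : E → Finset V) (hE : Eff G M X g Q A0 U) (σ : K4 ≃+ K4)
    (hcov : ∀ e ∈ A0, ∀ f ∈ Ce G M g, f ∉ A0 → ¬ Sc G (Jd M x a) e f) :
    ∀ e ∈ A0, clC G M w x a (Ce G M g) e =
      cls w A0 (fun e => G.cut (U e) ∩ G.cut X) (fun e => σ (x e)) (Sc G (Jd M x a)) e := by
  classical
  intro e he
  unfold clC cls
  have h1 : (Ce G M g).filter (fun f => Sc G (Jd M x a) e f)
      = A0.filter (fun f => Sc G (Jd M x a) e f) := by
    ext f
    rw [Finset.mem_filter, Finset.mem_filter]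
    constructor
    · rintro ⟨h1, h2⟩
      refine ⟨?_, h2⟩
      by_contra h3
      exact hcov e he f h1 h3 h2
    · rintro ⟨h1, h2⟩
      exact ⟨hE.sub h1, h2⟩
  rw [h1]
  apply Finset.sum_congr rfl
  intro f hf
  have hf' := (Finset.mem_filter.1 hf).1
  have h2 := cl_label G M x hx X g Q A0 U hE σ e he
  have h3 := cl_label G M x hx X g Q A0 U hE σ f hf'
  have h4 : (∑ i ∈ G.cut (U f) ∩ G.cut X, σ (x i) = ∑ i ∈ G.cut (U e) ∩ G.cut X, σ (x i)) ↔
      x f = x e := by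
    rw [h2, h3]
    constructor
    · intro h
      exact σ.injective (add_right_cancel h)
    · intro h
      rw [h]
  by_cases h5 : x f = x e
  · rw [if_pos h5, if_pos (h4.2 h5)]
  · rw [if_neg h5, if_neg (fun h => h5 (h4.1 h))]

end Pool.Agent.Lib.MP_95e9b3_coG
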