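import Pool.Agent.Lib.MP_95e9b3_coG.R4Defs

/-!
# Route G, block R4: rerouting of even sets inside transparent members
-/

set_option autoImplicit false

namespace Pool.Agent.Lib.MP_95e9b3_coG

open Finset Pool.Agent.Lib.MP_95e9b3_coC

variable {V E : Type} [Fintype V] [DecidableEq V] [Fintype E] [DecidableEq E]

private lemma rr_even (G : MG V E) (M : Finset E) (x : E → K4) (a : K4) (X : Finset V)
    (htr : TR G M x a X) (Z : Finset E) (hZ : G.Ev Z)
    (hc : ∀ e ∈ Z, e ∈ G.cut X → x e ≠ a) (U : Finset V)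
    (hU : ins G (univ \ Jd M x a) X ∩ G.cut U = ∅) :
    Even ((Z ∩ ins G univ X) ∩ G.cut U).card := by
  classical
  have h1 := G.Ev_cut Z hZ (U ∩ X)
  have h2 := G.Ev_cut Z hZ X
  have h3 : Z ∩ G.cut (U ∩ X) = ((Z ∩ ins G univ X) ∩ G.cut U) ∪
      (Z ∩ G.cut X).filter (fun e => (G.s e ∈ X ∧ G.s e ∈ U) ∨ (G.t e ∈ X ∧ G.t e ∈ U)) := by
    ext e
    unfold ins
    simp only [mem_inter, mem_union, mem_filter, MG.mem_cut, mem_univ, true_and]
    tauto
  have h4 : Disjoint ((Z ∩ ins G univ X) ∩ G.cut U) ((Z ∩ G.cut X).filter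
      (fun e => (G.s e ∈ X ∧ G.s e ∈ U) ∨ (G.t e ∈ X ∧ G.t e ∈ U))) := by
    rw [disjoint_left]
    intro e
    unfold ins
    simp only [mem_inter, mem_filter, MG.mem_cut, mem_univ, true_and]
    tauto
  rw [h3, card_union_of_disjoint h4] at h1
  have h5 : Even ((Z ∩ G.cut X).filter
      (fun e => (G.s e ∈ X ∧ G.s e ∈ U) ∨ (G.t e ∈ X ∧ G.t e ∈ U))).card := by
    by_cases h6 : ∃ e ∈ Z ∩ G.cut X, (G.s e ∈ X ∧ G.s e ∈ U) ∨ (G.t e ∈ X ∧ G.t e ∈ U)
    · obtain ⟨e, he, hpe⟩ := h6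
      obtain ⟨p, hpX, hpU, hp⟩ : ∃ p ∈ X, p ∈ U ∧ (G.s e = p ∨ G.t e = p) := by
        rcases hpe with h | h
        · exact ⟨_, h.1, h.2, Or.inl rfl⟩
        · exact ⟨_, h.1, h.2, Or.inr rfl⟩
      rw [mem_inter] at he
      rw [filter_true_of_mem]
      · exact h2
      · intro f hf
        rw [mem_inter] at hf
        have hcut := (G.mem_cut X f).1 hf.2
        have key : ∀ q ∈ X, (G.s f = q ∨ G.t f = q) → q ∈ U := by
          intro q hq hfq
          exact G.closed_Rch _ U hU p q hpU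
            (htr e he.2 f hf.2 (hc e he.1 he.2) (hc f hf.1 hf.2) p hpX q hq hp hfq)
        by_cases h7 : G.s f ∈ X
        · exact Or.inl ⟨h7, key _ h7 (Or.inl rfl)⟩
        · have h8 : G.t f ∈ X := by
            by_contra h8
            exact hcut ⟨fun h => absurd h h7, fun h => absurd h h8⟩
          exact Or.inr ⟨h8, key _ h8 (Or.inr rfl)⟩
    · rw [filter_false_of_mem]
      · simp
      · intro e he hp
        exact h6 ⟨e, he, hp⟩
  exact (Nat.even_add.1 h1).2 h5

/-- one member -/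
private lemma rr_one (G : MG V E) (M : Finset E) (x : E → K4) (a : K4) (X : Finset V)
    (htr : TR G M x a X) (Z : Finset E) (hZ : G.Ev Z)
    (hc : ∀ e ∈ Z, e ∈ G.cut X → x e ≠ a) :
    ∃ Z', G.Ev Z' ∧ (∀ e ∈ Z', e ∉ ins G univ X → e ∈ Z) ∧
      (∀ e ∈ Z, e ∉ ins G univ X → e ∈ Z') ∧ ∀ e ∈ Z', e ∈ ins G univ X → e ∉ Jd M x a := by
  obtain ⟨J, hJ, hS⟩ := G.join_exists (ins G (univ \ Jd M x a) X) (Z ∩ ins G univ X)
    (rr_even G M x a X htr Z hZ hc)
  have hJm : ∀ e ∈ J, e ∉ Jd M x a ∧ e ∈ ins G univ X := by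
    intro e he
    have h1 := hJ he
    unfold ins at h1 ⊢
    rw [mem_filter, mem_sdiff] at h1
    rw [mem_filter]
    exact ⟨h1.1.2, mem_univ _, h1.2⟩
  have hd : Disjoint (Z \ ins G univ X) J := by
    rw [disjoint_left]
    intro e h1 h2
    exact (mem_sdiff.1 h1).2 (hJm e h2).2
  refine ⟨(Z \ ins G univ X) ∪ J, ?_, ?_, ?_, ?_⟩
  · intro v
    rw [G.dg_union _ _ hd]
    have h1 := hS v
    have h2 := G.dg_sdiff (Z ∩ ins G univ X) Z inter_subset_left v
    have h3 : Z \ (Z ∩ ins G univ X) = Z \ ins G univ X := by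
      ext e; simp only [mem_sdiff, mem_inter]; tauto
    rw [h3] at h2
    have h4 := hZ v
    rw [Nat.even_iff] at h4 ⊢
    omega
  · intro e he hn
    rw [mem_union, mem_sdiff] at he
    rcases he with he | he
    · exact he.1
    · exact absurd (hJm e he).2 hn
  · intro e he hn
    rw [mem_union, mem_sdiff]
    exact Or.inl ⟨he, hn⟩
  · intro e he hi
    rw [mem_union, mem_sdiff] at he
    rcases he with he | he
    · exact absurd hi he.2
    · exact (hJm e he).1

/-- replace an even set inside transparent members -/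
theorem reroute (G : MG V E) (M : Finset E) (x : E → K4) (a : K4)
    (W : Finset (Finset V)) (hW : ∀ X ∈ W, G.cut X ⊆ M)
    (hd : ∀ X ∈ W, ∀ Y ∈ W, X ≠ Y → Disjoint X Y) (htr : ∀ X ∈ W, TR G M x a X)
    (Z : Finset E) (hZ : G.Ev Z)
    (hZa : ∀ e ∈ Z, e ∉ Jd M x a ∨ ∃ X ∈ W, e ∈ ins G univ X) :
    ∃ Z', G.Ev Z' ∧ Disjoint Z' (Jd M x a) ∧
      ∀ e, (∀ X ∈ W, e ∉ ins G univ X) → (e ∈ Z' ↔ e ∈ Z) := by
  induction W using Finset.induction_on generalizing Z with
  | empty =>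
    refine ⟨Z, hZ, ?_, fun e _ => Iff.rfl⟩
    rw [disjoint_left]
    intro e he
    rcases hZa e he with h | ⟨X, hX, _⟩
    · exact h
    · exact absurd hX (notMem_empty X)
  | insert X W hXW ih =>
    have hc : ∀ e ∈ Z, e ∈ G.cut X → x e ≠ a := by
      intro e he hcut hxa
      rcases hZa e he with h | ⟨Y, hY, hi⟩
      · apply h
        unfold Jd
        rw [mem_filter]
        exact ⟨hW X (mem_insert_self X W) hcut, hxa⟩
      · unfold ins at hi
        rw [mem_filter] at hi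
        obtain ⟨_, h1, h2⟩ := hi
        have h3 := (G.mem_cut X e).1 hcut
        by_cases h4 : X = Y
        · rw [h4] at h3
          exact h3 ⟨fun _ => h2, fun _ => h1⟩
        · have h5 := hd X (mem_insert_self X W) Y hY h4
          rw [disjoint_right] at h5
          exact h3 ⟨fun h => absurd h (h5 h1), fun h => absurd h (h5 h2)⟩
    obtain ⟨Z₁, e1, e2, e3, e4⟩ := rr_one G M x a X (htr X (mem_insert_self X W)) Z hZ hc
    obtain ⟨Z', f1, f2, f3⟩ := ih (fun Y hY => hW Y (mem_insert_of_mem hY))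
      (fun Y hY Y' hY' => hd Y (mem_insert_of_mem hY) Y' (mem_insert_of_mem hY'))
      (fun Y hY => htr Y (mem_insert_of_mem hY)) Z₁ e1 (by
        intro e he
        by_cases h1 : e ∈ ins G univ X
        · exact Or.inl (e4 e he h1)
        · rcases hZa e (e2 e he h1) with h | ⟨Y, hY, hi⟩
          · exact Or.inl h
          · rw [mem_insert] at hY
            rcases hY with rfl | hY
            · exact absurd hi h1
            · exact Or.inr ⟨Y, hY, hi⟩)
    refine ⟨Z', f1, f2, fun e he => ?_⟩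
    rw [f3 e (fun Y hY => he Y (mem_insert_of_mem hY))]
    have h1 := he X (mem_insert_self X W)
    exact ⟨fun h => e2 e h h1, fun h => e3 e h h1⟩

end Pool.Agent.Lib.MP_95e9b3_coG
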