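import Pool.Agent.Lib.MP_95e9b3_coG.R3_effs
import Pool.Agent.Lib.MP_95e9b3_coG.R4_reroute

/-!
# Route G, block R4: `cls_cov`, `cls_sep`

Even sets are rerouted inside the largest 4-members below `X` (respectively below the level of
`X`).
-/

set_option autoImplicit false
set_option linter.unusedSectionVars false

namespace Pool.Agent.Lib.MP_95e9b3_coG

open Finset Pool.Agent.Lib.MP_95e9b3_coC

variable {V E : Type} [Fintype V] [DecidableEq V] [Fintype E] [DecidableEq E]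

/-- the largest 4-members properly inside `X` -/
private noncomputable def cvW (G : MG V E) (R : Finset (Finset V)) (X : Finset V) :
    Finset (Finset V) := by
  classical
  exact R.filter (fun Y => (G.cut Y).card = 4 ∧ Y ⊂ X ∧
    ∀ Y' ∈ R, (G.cut Y').card = 4 → Y' ⊂ X → Y ⊆ Y' → Y' = Y)

private theorem cv_mem (G : MG V E) (R : Finset (Finset V)) (X Y : Finset V) :
    Y ∈ cvW G R X ↔ Y ∈ R ∧ (G.cut Y).card = 4 ∧ Y ⊂ X ∧
      ∀ Y' ∈ R, (G.cut Y').card = 4 → Y' ⊂ X → Y ⊆ Y' → Y' = Y := by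
  classical
  unfold cvW
  rw [mem_filter]

private theorem cv_above (G : MG V E) (R : Finset (Finset V)) (X Y : Finset V) (hY : Y ∈ R)
    (h4 : (G.cut Y).card = 4) (hYX : Y ⊂ X) : ∃ Y' ∈ cvW G R X, Y ⊆ Y' := by
  classical
  set L := R.filter (fun Y' => (G.cut Y').card = 4 ∧ Y' ⊂ X ∧ Y ⊆ Y') with hL
  have hne : L.Nonempty := ⟨Y, by rw [hL, mem_filter]; exact ⟨hY, h4, hYX, Subset.refl _⟩⟩
  obtain ⟨Y', hY', hmax⟩ := L.exists_max_image Finset.card hne
  rw [hL, mem_filter] at hY'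
  refine ⟨Y', ?_, hY'.2.2.2⟩
  rw [cv_mem]
  refine ⟨hY'.1, hY'.2.1, hY'.2.2.1, ?_⟩
  intro Y'' h1 h2 h3 h5
  have h6 : Y'' ∈ L := by
    rw [hL, mem_filter]
    exact ⟨h1, h2, h3, hY'.2.2.2.trans h5⟩
  exact (eq_of_subset_of_card_le h5 (hmax Y'' h6)).symm

private theorem cv_disj (G : MG V E) (M : Finset E) (R : Finset (Finset V)) (hR : Lmr G M R)
    (X : Finset V) : ∀ Y ∈ cvW G R X, ∀ Y' ∈ cvW G R X, Y ≠ Y' → Disjoint Y Y' := by
  intro Y hY Y' hY' hne
  rw [cv_mem] at hY hY'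
  rcases hR.lam Y hY.1 Y' hY'.1 with h | h | h
  · exact absurd (hY.2.2.2 Y' hY'.1 hY'.2.1 hY'.2.2.1 h).symm hne
  · exact absurd (hY'.2.2.2 Y hY.1 hY.2.1 hY.2.2.1 h) hne
  · exact h

private theorem cv_ins (G : MG V E) (X : Finset V) (e : E) :
    e ∈ ins G univ X ↔ G.s e ∈ X ∧ G.t e ∈ X := by
  unfold ins
  rw [mem_filter]
  exact ⟨fun h => h.2, fun h => ⟨mem_univ _, h⟩⟩

private theorem cv_Jd (M : Finset E) (x : E → K4) (a : K4) (e : E) :
    e ∈ Jd M x a ↔ e ∈ M ∧ x e = a := by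
  unfold Jd
  rw [mem_filter]

/-- an edge inside `Q'` which is not of level `Q'` is inside a largest 4-member -/
private theorem cv_level (G : MG V E) (M : Finset E) (R : Finset (Finset V)) (hR : Lmr G M R)
    (X Q' : Finset V) (hX : X ∈ R) (hQ' : Up G R X Q') (Y : Finset V) (hY : Y ∈ R)
    (hYX : X ⊆ Y ∨ Y = Q')
    (hmin : ∀ N ∈ R, (G.cut N).card = 4 → ¬ Q' ⊆ N → ¬ Y ⊆ N) (hYQ : Y ⊆ Q')
    (e : E) (he : e ∈ ins G univ Y) (hn : ¬ Up G R {G.s e, G.t e} Q') :
    ∃ N ∈ cvW G R Y, e ∈ ins G univ N := by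
  rw [cv_ins] at he
  have h1 : ∃ N ∈ R, (G.cut N).card = 4 ∧ {G.s e, G.t e} ⊆ N ∧ ¬ Q' ⊆ N := by
    by_contra hcon
    push Not at hcon
    apply hn
    refine ⟨hQ'.1, hQ'.2.1, ?_, hcon⟩
    intro v hv
    rw [mem_insert, mem_singleton] at hv
    rcases hv with rfl | rfl
    · exact hYQ he.1
    · exact hYQ he.2
  obtain ⟨N, hN, hN4, hNe, hNQ⟩ := h1
  have hs : G.s e ∈ N := hNe (mem_insert_self _ _)
  have ht : G.t e ∈ N := hNe (mem_insert_of_mem (mem_singleton_self _))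
  have hNY : N ⊂ Y := by
    rcases hR.lam N hN Y hY with h | h | h
    · refine lt_of_le_of_ne h ?_
      rintro rfl
      exact hmin N hN hN4 hNQ (Subset.refl _)
    · exact absurd h (hmin N hN hN4 hNQ)
    · exact absurd he.1 (disjoint_left.mp h hs)
  obtain ⟨N', hN', hNN'⟩ := cv_above G R Y N hN hN4 hNY
  exact ⟨N', hN', by rw [cv_ins]; exact ⟨hNN' hs, hNN' ht⟩⟩

/-- covered gaps are in no class of an uncovered gap -/
theorem cls_cov (G : MG V E) (M : Finset E) (R P : Finset (Finset V)) (w : E → ℕ)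
    (gg : Finset V → E) (hR : Fam4 G M w R P gg) (x : E → K4) (a : K4) (S : Finset E)
    (hS : S ⊆ M) (X Q' : Finset V) (hX : X ∈ P) (hQ' : Up G R X Q')
    (hSa : ∀ e ∈ S, Up G R {G.s e, G.t e} Q' → x e ≠ a)
    (htr : ∀ Y ∈ R, (G.cut Y).card = 4 → TR G M x a Y)
    (Q : Finset (E × E)) (A0 : Finset E) (U : E → Finset V) (hE : Eff G M X (gg X) Q A0 U)
    (hs : Srv G M X (Cv G M (gg X)) Q S ((univ \ M) ∪ S)) :
    ∀ e ∈ A0, ∀ f ∈ Ce G M (gg X), f ∉ A0 → ¬ Sc G (Jd M x a) e f := by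
  intro e he f hf hfA hsc
  have hXR : X ∈ R := hR.sub hX
  obtain ⟨Z, hZ, hZi, hfZ, hgZ⟩ := hE.cov S hS hs f hf hfA
  have hZX : Z ⊆ ins G univ X := by
    intro z hz
    have h1 := hZi hz
    unfold ins at h1
    rw [mem_filter] at h1
    rw [cv_ins]
    exact h1.2
  have heZ : e ∉ Z := fun h => hgZ ((effsame G M X (gg X) Q A0 U hE Z hZ hZX e he).mp h)
  obtain ⟨Z', hZ', hdis, hag⟩ := reroute G M x a (cvW G R X)
    (fun Y hY => hR.nod Y ((cv_mem G R X Y).mp hY).1) (cv_disj G M R hR.toLmr X)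
    (fun Y hY => htr Y ((cv_mem G R X Y).mp hY).1 ((cv_mem G R X Y).mp hY).2.1) Z hZ
    (by
      intro z hz
      have h1 := hZi hz
      unfold ins at h1
      rw [mem_filter, mem_union, mem_sdiff] at h1
      by_cases hJ : z ∈ Jd M x a
      · right
        rw [cv_Jd] at hJ
        rcases h1.1 with h2 | h2
        · exact absurd hJ.1 h2.2
        · refine cv_level G M R hR.toLmr X Q' hXR hQ' X hXR (Or.inl (Subset.refl _)) ?_
            hQ'.2.2.1 z (by rw [cv_ins]; exact h1.2) (fun hup => hSa z h2 hup hJ.2)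
          intro N hN hN4 hNQ hXN
          exact hNQ (hQ'.2.2.2 N hN hN4 hXN)
      · exact Or.inl hJ)
  have hout : ∀ c ∈ Ce G M (gg X), ∀ Y ∈ cvW G R X, c ∉ ins G univ Y := by
    intro c hc Y hY hcY
    rw [cv_mem] at hY
    rw [cv_ins] at hcY
    unfold Ce at hc
    rw [G.mem_ce] at hc
    have h1 : (univ \ M) ∩ G.cut Y = ∅ := by
      rw [eq_empty_iff_forall_notMem]
      intro z hz
      rw [mem_inter, mem_sdiff] at hz
      exact hz.1.2 (hR.nod Y hY.1 hz.2)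
    have h2 := G.closed_Rch _ Y h1 (G.s c) (G.s (gg X)) hcY.1 (G.Rch_symm _ _ _ hc.2)
    exact hR.direct Y hY.1 X hX hY.2.2.1 h2
  have h1 : e ∉ Z' := fun h => heZ ((hag e (hout e (hE.sub he))).mp h)
  have h2 : f ∈ Z' := (hag f (hout f hf)).mpr hfZ
  exact h1 ((hsc Z' hZ' hdis).mpr h2)

private theorem cv_par (G : MG V E) (M : Finset E) (X : Finset V) (g : E) (Q : Finset (E × E))
    (A0 : Finset E) (U : E → Finset V) (hE : Eff G M X g Q A0 U) (l s : E) (hls : s ≠ l)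
    (Z : Finset E) (hZ : G.Ev Z) (hZX : Z ∩ G.cut X = {l, s}) (h : E) (hh : h ∈ A0) :
    Even ((if h ∈ Z then 1 else 0) + (if g ∈ Z then 1 else 0) +
      ((if l ∈ G.cut (U h) ∩ G.cut X then 1 else 0) +
        (if s ∈ G.cut (U h) ∩ G.cut X then 1 else 0))) := by
  classical
  by_cases hg : h = g
  · subst hg
    have h0 : G.cut (U h) = ∅ := by
      rw [hE.Ug]
      ext z
      rw [MG.mem_cut]
      simp
    rw [h0]
    simp only [empty_inter, notMem_empty, if_false, add_zero]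
    split_ifs <;> decide
  · have hev := G.Ev_cut Z hZ (U h)
    have hcut := hE.cutU h hh hg
    have hlX : l ∈ Z ∧ l ∈ G.cut X := by
      have : l ∈ Z ∩ G.cut X := by rw [hZX]; exact mem_insert_self _ _
      rwa [mem_inter] at this
    have hsX : s ∈ Z ∧ s ∈ G.cut X := by
      have : s ∈ Z ∩ G.cut X := by rw [hZX]; exact mem_insert_of_mem (mem_singleton_self _)
      rwa [mem_inter] at this
    have e1 : Z ∩ G.cut (U h) = (Z.filter (fun z => z = h ∨ z = g)) ∪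
        (({l, s} : Finset E).filter (fun z => z ∈ G.cut (U h) ∩ G.cut X)) := by
      ext z
      rw [mem_inter, mem_union, mem_filter, mem_filter, ← hZX, mem_inter, mem_inter]
      have hz : z ∈ G.cut (U h) \ G.cut X ↔ z = h ∨ z = g := by
        rw [hcut, mem_insert, mem_singleton]
      rw [← hz, mem_sdiff]
      tauto
    have e2 : Disjoint (Z.filter (fun z => z = h ∨ z = g))
        (({l, s} : Finset E).filter (fun z => z ∈ G.cut (U h) ∩ G.cut X)) := by
      rw [disjoint_left]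
      intro z hz hz'
      rw [mem_filter] at hz hz'
      have h1 : z ∈ G.cut (U h) \ G.cut X := by
        rw [hcut, mem_insert, mem_singleton]
        exact hz.2
      exact (mem_sdiff.mp h1).2 (mem_inter.mp hz'.2).2
    rw [e1, card_union_of_disjoint e2] at hev
    have e3 : (Z.filter (fun z => z = h ∨ z = g)).card =
        (if h ∈ Z then 1 else 0) + (if g ∈ Z then 1 else 0) := by
      have : Z.filter (fun z => z = h ∨ z = g) = ({h, g} : Finset E).filter (fun z => z ∈ Z) := by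
        ext z
        rw [mem_filter, mem_filter, mem_insert, mem_singleton]
        tauto
      rw [this, card_filter, sum_pair hg]
    have e4 : (({l, s} : Finset E).filter (fun z => z ∈ G.cut (U h) ∩ G.cut X)).card =
        (if l ∈ G.cut (U h) ∩ G.cut X then 1 else 0) +
          (if s ∈ G.cut (U h) ∩ G.cut X then 1 else 0) := by
      rw [card_filter, sum_pair (fun h => hls h.symm)]
    rw [e3, e4] at hev
    exact hev

/-- an even set `Z` inside `Q'` with `Z ∩ cut X = {l, s}` separates -/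
theorem cls_sep (G : MG V E) (M : Finset E) (R P : Finset (Finset V)) (w : E → ℕ)
    (gg : Finset V → E) (hR : Fam4 G M w R P gg) (x : E → K4) (a : K4) (T : Finset E)
    (hT : T ⊆ M) (X Q' : Finset V) (hX : X ∈ P) (hX4 : (G.cut X).card ≠ 4) (hQ' : Up G R X Q')
    (hSa : ∀ e ∈ T, Up G R {G.s e, G.t e} Q' → x e ≠ a)
    (htr : ∀ Y ∈ R, (G.cut Y).card = 4 → TR G M x a Y)
    (Q : Finset (E × E)) (A0 : Finset E) (U : E → Finset V) (hE : Eff G M X (gg X) Q A0 U)
    (l s : E) (hla : x l ≠ a) (hls : s ≠ l) (Z : Finset E) (hZ : G.Ev Z)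
    (hZQ : Z ⊆ ins G univ Q') (hZT : Z.erase l ⊆ (univ \ M) ∪ T) (hZX : Z ∩ G.cut X = {l, s}) :
    Spr A0 (fun e => G.cut (U e) ∩ G.cut X) l s (Sc G (Jd M x a)) := by
  intro e he f hf hne hsc
  have hXR : X ∈ R := hR.sub hX
  obtain ⟨Z', hZ', hdis, hag⟩ := reroute G M x a (cvW G R Q')
    (fun Y hY => hR.nod Y ((cv_mem G R Q' Y).mp hY).1) (cv_disj G M R hR.toLmr Q')
    (fun Y hY => htr Y ((cv_mem G R Q' Y).mp hY).1 ((cv_mem G R Q' Y).mp hY).2.1) Z hZ
    (by
      intro z hz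
      by_cases hJ : z ∈ Jd M x a
      · right
        rw [cv_Jd] at hJ
        have hzl : z ≠ l := by
          rintro rfl
          exact hla hJ.2
        have h1 := hZT (mem_erase.mpr ⟨hzl, hz⟩)
        rw [mem_union, mem_sdiff] at h1
        rcases h1 with h2 | h2
        · exact absurd hJ.1 h2.2
        · exact cv_level G M R hR.toLmr X Q' hXR hQ' Q' hQ'.1 (Or.inr rfl)
            (fun N _ _ hNQ => hNQ) (Subset.refl _) z (hZQ hz)
            (fun hup => hSa z h2 hup hJ.2)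
      · exact Or.inl hJ)
  have hcut : ∀ z ∈ G.cut X, ∀ Y ∈ cvW G R Q', z ∉ ins G univ Y := by
    intro z hz Y hY hzY
    rw [cv_mem] at hY
    rw [cv_ins] at hzY
    rw [MG.mem_cut] at hz
    rcases hR.lam Y hY.1 X hXR with h | h | h
    · exact hz ⟨fun _ => h hzY.2, fun _ => h hzY.1⟩
    · exact hY.2.2.1.2 (hQ'.2.2.2 Y hY.1 hY.2.1 h)
    · exact hz ⟨fun h1 => absurd h1 (disjoint_left.mp h hzY.1),
        fun h1 => absurd h1 (disjoint_left.mp h hzY.2)⟩
  have hZX' : Z' ∩ G.cut X = {l, s} := by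
    rw [← hZX]
    ext z
    rw [mem_inter, mem_inter]
    constructor
    · rintro ⟨h1, h2⟩
      exact ⟨(hag z (hcut z h2)).mp h1, h2⟩
    · rintro ⟨h1, h2⟩
      exact ⟨(hag z (hcut z h2)).mpr h1, h2⟩
  have p1 := cv_par G M X (gg X) Q A0 U hE l s hls Z' hZ' hZX' e he
  have p2 := cv_par G M X (gg X) Q A0 U hE l s hls Z' hZ' hZX' f hf
  have h3 := hsc Z' hZ' hdis
  have h4 : (if f ∈ Z' then 1 else 0 : ℕ) = (if e ∈ Z' then 1 else 0) := by
    by_cases c : e ∈ Z'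
    · rw [if_pos c, if_pos (h3.mp c)]
    · rw [if_neg c, if_neg (fun h => c (h3.mpr h))]
  rw [h4] at p2
  generalize (if e ∈ Z' then 1 else 0 : ℕ) + (if gg X ∈ Z' then 1 else 0) = k at p1 p2
  apply hne
  rw [Nat.even_iff] at p1 p2
  show (l ∈ G.cut (U e) ∩ G.cut X ↔ l ∈ G.cut (U f) ∩ G.cut X) ↔
    (s ∈ G.cut (U e) ∩ G.cut X ↔ s ∈ G.cut (U f) ∩ G.cut X)
  by_cases c4 : l ∈ G.cut (U e) ∩ G.cut X <;> by_cases c5 : s ∈ G.cut (U e) ∩ G.cut X <;>
  by_cases c6 : l ∈ G.cut (U f) ∩ G.cut X <;> by_cases c7 : s ∈ G.cut (U f) ∩ G.cut X <;>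
  simp only [c4, c5, c6, c7, if_true, if_false, iff_true, iff_false, true_iff, false_iff,
    not_true_eq_false, not_false_eq_true, iff_self] at p1 p2 ⊢ <;> omega

end Pool.Agent.Lib.MP_95e9b3_coG
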