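import Pool.Agent.Lib.MP_95e9b3_coG.R4_coord

/-!
# Route G, block R4: transparency
-/

set_option autoImplicit false

namespace Pool.Agent.Lib.MP_95e9b3_coG

open Finset Pool.Agent.Lib.MP_95e9b3_coC

variable {V E : Type} [Fintype V] [DecidableEq V] [Fintype E] [DecidableEq E]

private lemma tr_Jn (G : MG V E) (e : E) (u v : V) (h : G.Jn e u v) :
    (G.s e = u ∨ G.t e = u) ∧ (G.s e = v ∨ G.t e = v) := by
  rcases h with ⟨h1, h2⟩ | ⟨h1, h2⟩
  · exact ⟨Or.inl h1, Or.inr h2⟩
  · exact ⟨Or.inr h2, Or.inl h1⟩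

/-- a walk with edges of `univ \ M` stays in a set whose cut is in `M` -/
private lemma tr_F (G : MG V E) (M : Finset E) (X : Finset V) (hX : G.cut X ⊆ M) (u v : V)
    (h : G.Rch (univ \ M) u v) (hu : u ∈ X) : v ∈ X ∧ G.Rch (ins G (univ \ M) X) u v := by
  unfold MG.Rch at h
  induction h with
  | refl => exact ⟨hu, G.Rch_refl _ _⟩
  | tail _ hb ih =>
    obtain ⟨hb1, hb2⟩ := ih
    obtain ⟨e, he, hj⟩ := hb
    rename_i b c _
    have hc : c ∈ X := by
      by_contra hc
      have h1 : e ∈ G.cut X := by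
        rw [G.mem_cut]
        rcases hj with ⟨h3, h4⟩ | ⟨h3, h4⟩
        · rw [h3, h4]; exact fun h => hc (h.1 hb1)
        · rw [h3, h4]; exact fun h => hc (h.2 hb1)
      exact (mem_sdiff.1 he).2 (hX h1)
    refine ⟨hc, G.Rch_trans _ _ _ _ hb2 (Relation.ReflTransGen.single ⟨e, ?_, hj⟩)⟩
    unfold ins
    rw [mem_filter]
    rcases hj with ⟨h3, h4⟩ | ⟨h3, h4⟩
    · rw [h3, h4]; exact ⟨he, hb1, hc⟩
    · rw [h3, h4]; exact ⟨he, hc, hb1⟩

private lemma ins_mono_tr (G : MG V E) (A B : Finset E) (X Y : Finset V) (h : A ⊆ B)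
    (h' : X ⊆ Y) : ins G A X ⊆ ins G B Y := by
  intro e he
  unfold ins at he ⊢
  rw [mem_filter] at he ⊢
  exact ⟨h he.1, h' he.2.1, h' he.2.2⟩

/-- the main step: the members inside `X` are transparent and `T` has no value `a` on `own X` -/
private lemma tr_step (G : MG V E) (M : Finset E) (R : Finset (Finset V))
    (hR : Lmr G M R) (T : Finset E) (t : Trs G M R T) (x : E → K4)
    (X : Finset V) (hX : X ∈ R) (a : K4)
    (hT : ∀ e ∈ T, e ∈ own G M R X → x e ≠ a)
    (htr : ∀ N ∈ R, N ⊂ X → ∃ N' ∈ R, N ⊆ N' ∧ N' ⊂ X ∧ TR G M x a N') : TR G M x a X := by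
  classical
  intro e he e' he' hea hea' p hp p' hp' hep hep'
  set B := ins G (univ \ Jd M x a) X with hB
  -- ports
  let Prt : V → Prop := fun v => v ∈ X ∧ ∃ f, (G.s f = v ∨ G.t f = v) ∧ x f ≠ a ∧
    (f ∈ own G M R X ∨ f ∈ G.cut X)
  -- the same node
  let Nd : V → V → Prop := fun u v => (∃ N ∈ R, N ⊂ X ∧ u ∈ N ∧ v ∈ N) ∨ G.Rch (univ \ M) u v
  have nd_trans : ∀ u v z, Nd u v → Nd v z → Nd u z := by
    rintro u v z (⟨N, hN, hNX, h1, h2⟩ | h1) (⟨N', hN', hNX', h3, h4⟩ | h3)
    · rcases hR.lam N hN N' hN' with h | h | h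
      · exact Or.inl ⟨N', hN', hNX', h h1, h4⟩
      · exact Or.inl ⟨N, hN, hNX, h1, h h4⟩
      · exact absurd h3 (disjoint_left.1 h h2)
    · exact Or.inl ⟨N, hN, hNX, h1, (tr_F G M N (hR.nod N hN) v z h3 h2).1⟩
    · exact Or.inl ⟨N', hN', hNX',
        (tr_F G M N' (hR.nod N' hN') v u (G.Rch_symm _ _ _ h1) h3).1, h4⟩
    · exact Or.inr (G.Rch_trans _ _ _ _ h1 h3)
  have claimA : ∀ u v, Prt u → Prt v → Nd u v → G.Rch B u v := by
    rintro u v ⟨huX, f, hf, hfa, hfo⟩ ⟨hvX, f', hf', hfa', hfo'⟩ (⟨N, hN, hNX, h1, h2⟩ | h1)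
    · obtain ⟨N', hN', hNN', hNX', htN⟩ := htr N hN hNX
      have hcut : ∀ q z, z ∈ N' → (G.s q = z ∨ G.t q = z) →
          (q ∈ own G M R X ∨ q ∈ G.cut X) → q ∈ G.cut N' := by
        intro q z hz hqz hq
        rw [G.mem_cut]
        intro hiff
        have hboth : G.s q ∈ N' ∧ G.t q ∈ N' := by
          rcases hqz with h | h
          · rw [← h] at hz; exact ⟨hz, hiff.1 hz⟩
          · rw [← h] at hz; exact ⟨hiff.2 hz, hz⟩
        rcases hq with h | h
        · unfold own at h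
          rw [mem_filter] at h
          exact h.2 N' hN' hNX' hboth
        · exact (G.mem_cut X q).1 h ⟨fun _ => hNX'.1 hboth.2, fun _ => hNX'.1 hboth.1⟩
      have h3 := htN f (hcut f u (hNN' h1) hf hfo) f' (hcut f' v (hNN' h2) hf' hfo') hfa hfa'
        u (hNN' h1) v (hNN' h2) hf hf'
      exact G.Rch_mono _ _ (ins_mono_tr G _ _ _ _ (Subset.refl _) hNX'.1) _ _ h3
    · have h3 := (tr_F G M X (hR.nod X hX) u v h1 huX).2
      refine G.Rch_mono _ _ (ins_mono_tr G _ _ _ _ ?_ (Subset.refl _)) _ _ h3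
      apply sdiff_subset_sdiff (Subset.refl _)
      unfold Jd
      exact filter_subset _ _
  -- the closed set
  set U : Finset V := univ.filter (fun v => ∃ u, Prt u ∧ G.Rch B p u ∧ Nd u v) with hU
  have pp : Prt p := ⟨hp, e, hep, hea, Or.inr he⟩
  have pp' : Prt p' := ⟨hp', e', hep', hea', Or.inr he'⟩
  have hpU : p ∈ U := by
    rw [hU, mem_filter]
    exact ⟨mem_univ _, p, pp, G.Rch_refl _ _, Or.inr (G.Rch_refl _ _)⟩
  -- one step
  have step : ∀ q ∈ (T ∩ own G M R X) ∪ low G M R X, ∀ v v', G.Jn q v v' → v ∈ U → v' ∈ U := by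
    intro q hq v v' hj hv
    rw [hU, mem_filter] at hv ⊢
    obtain ⟨_, u, hu, hru, hnd⟩ := hv
    refine ⟨mem_univ _, ?_⟩
    obtain ⟨j1, j2⟩ := tr_Jn G q v v' hj
    rw [mem_union, mem_inter] at hq
    rcases hq with ⟨hqT, hqo⟩ | hql
    · have hqa := hT q hqT hqo
      have hqi : G.s q ∈ X ∧ G.t q ∈ X := by
        unfold own ins at hqo
        rw [mem_filter, mem_filter] at hqo
        exact hqo.1.2
      have hvX : v ∈ X := by
        rcases j1 with h | h
        · rw [← h]; exact hqi.1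
        · rw [← h]; exact hqi.2
      have hvX' : v' ∈ X := by
        rcases j2 with h | h
        · rw [← h]; exact hqi.1
        · rw [← h]; exact hqi.2
      have hv1 : Prt v := ⟨hvX, q, j1, hqa, Or.inl hqo⟩
      have hv2 : Prt v' := ⟨hvX', q, j2, hqa, Or.inl hqo⟩
      have h1 := claimA u v hu hv1 hnd
      have h2 : G.Rch B v v' := by
        refine Relation.ReflTransGen.single ⟨q, ?_, hj⟩
        rw [hB]
        unfold ins Jd
        rw [mem_filter, mem_sdiff, mem_filter]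
        exact ⟨⟨mem_univ _, fun h => hqa h.2⟩, hqi⟩
      exact ⟨v', hv2, G.Rch_trans _ _ _ _ hru (G.Rch_trans _ _ _ _ h1 h2),
        Or.inr (G.Rch_refl _ _)⟩
    · refine ⟨u, hu, hru, nd_trans u v v' hnd ?_⟩
      unfold low at hql
      rw [mem_sdiff] at hql
      obtain ⟨hqi, hqn⟩ := hql
      have hqi' : G.s q ∈ X ∧ G.t q ∈ X := by
        unfold ins at hqi
        rw [mem_filter] at hqi
        exact hqi.2
      by_cases hqM : q ∈ M
      · have h1 : ∃ Y ∈ R, Y ⊂ X ∧ G.s q ∈ Y ∧ G.t q ∈ Y := by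
          by_contra hcon
          apply hqn
          unfold own ins
          rw [mem_filter, mem_filter]
          exact ⟨⟨hqM, hqi'⟩, fun Y hY hYX h => hcon ⟨Y, hY, hYX, h⟩⟩
        obtain ⟨Y, hY, hYX, h2, h3⟩ := h1
        refine Or.inl ⟨Y, hY, hYX, ?_, ?_⟩
        · rcases j1 with h | h
          · rw [← h]; exact h2
          · rw [← h]; exact h3
        · rcases j2 with h | h
          · rw [← h]; exact h2
          · rw [← h]; exact h3
      · exact Or.inr (Relation.ReflTransGen.single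
          ⟨q, mem_sdiff.2 ⟨mem_univ _, hqM⟩, hj⟩)
  have hcl : ((T ∩ own G M R X) ∪ low G M R X) ∩ G.cut U = ∅ := by
    rw [eq_empty_iff_forall_notMem]
    intro q hq
    rw [mem_inter, G.mem_cut] at hq
    apply hq.2
    exact ⟨step q hq.1 _ _ (Or.inl ⟨rfl, rfl⟩), step q hq.1 _ _ (Or.inr ⟨rfl, rfl⟩)⟩
  have hp'U := G.closed_Rch _ U hcl p p' hpU (t.con X hX p hp p' hp')
  rw [hU, mem_filter] at hp'U
  obtain ⟨_, u, hu, hru, hnd⟩ := hp'U
  exact G.Rch_trans _ _ _ _ hru (claimA u p' hu pp' hnd)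

/-- the third direction of a set with four boundary edges -/
private lemma tr_par (G : MG V E) (M : Finset E) (x : E → K4) (hx : G.Fl x) (X : Finset V)
    (hX : G.cut X ⊆ M) (a : K4) (σ : K4 ≃+ K4) (ha : σ a = (1, 1)) (h4 : (G.cut X).card = 4)
    (h2 : ∀ e ∈ G.cut X, (σ (x e)).2 = 1) (e₀ : E) (he₀ : e₀ ∈ G.cut X)
    (h0 : σ (x e₀) = (1, 1)) : TR G M x a X := by
  classical
  let φ : K4 →+ ZMod 2 :=
    (AddMonoidHom.fst (ZMod 2) (ZMod 2) + AddMonoidHom.snd (ZMod 2) (ZMod 2)).comp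
      σ.toAddMonoidHom
  have hφ : ∀ k, φ k = (σ k).1 + (σ k).2 := fun k => rfl
  have z2 : ∀ b : ZMod 2, b = 0 ∨ b = 1 := by decide
  have h11 : (1 : ZMod 2) + 1 = 0 := by decide
  have hφa : ∀ f ∈ G.cut X, x f ≠ a → φ (x f) = 1 := by
    intro f hf hfa
    rw [hφ, h2 f hf]
    rcases z2 (σ (x f)).1 with h | h
    · rw [h, zero_add]
    · exfalso
      apply hfa
      apply σ.injective
      rw [ha]
      exact Prod.ext h (h2 f hf)
  have hφ0 : ∀ f, x f = a → φ (x f) = 0 := by
    intro f hf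
    rw [hφ, hf, ha]
    exact h11
  set Y : Finset E := univ.filter (fun f => φ (x f) = 1) with hY
  have hYe : G.Ev Y := G.Fl_hom x hx φ
  intro e he e' he' hea hea' p hp p' hp' hep hep'
  set C := G.cv (ins G (univ \ Jd M x a) X) p with hC
  have hCX : C ⊆ X := by
    intro v hv
    rw [hC, G.mem_cv] at hv
    refine G.closed_Rch _ X ?_ p v hp hv
    rw [eq_empty_iff_forall_notMem]
    intro q hq
    rw [mem_inter, G.mem_cut] at hq
    unfold ins at hq
    rw [mem_filter] at hq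
    exact hq.2 ⟨fun _ => hq.1.2.2, fun _ => hq.1.2.1⟩
  have hpC : p ∈ C := by rw [hC, G.mem_cv]; exact G.Rch_refl _ _
  have hnot : ∀ f ∈ G.cut X, ∀ q ∈ X, (G.s f = q ∨ G.t f = q) → ∀ q' ∈ X,
      (G.s f = q' ∨ G.t f = q') → q = q' := by
    intro f hf q hq hfq q' hq' hfq'
    have h1 := (G.mem_cut X f).1 hf
    rcases hfq with h | h <;> rcases hfq' with h' | h'
    · rw [← h, ← h']
    · exfalso; rw [h, h'] at h1; exact h1 ⟨fun _ => hq', fun _ => hq⟩
    · exfalso; rw [h, h'] at h1; exact h1 ⟨fun _ => hq, fun _ => hq'⟩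
    · rw [← h, ← h']
  by_cases hee : e = e'
  · rw [hnot e he p hp hep p' hp' (hee ▸ hep')]
    exact G.Rch_refl _ _
  -- `Y ∩ cut X = {e, e'}`
  have hYX : Y ∩ G.cut X = {e, e'} := by
    have h5 : ({e, e'} : Finset E) ⊆ Y ∩ G.cut X := by
      intro f hf
      rw [mem_insert, mem_singleton] at hf
      rw [mem_inter, hY, mem_filter]
      rcases hf with rfl | rfl
      · exact ⟨⟨mem_univ _, hφa _ he hea⟩, he⟩
      · exact ⟨⟨mem_univ _, hφa _ he' hea'⟩, he'⟩
    have h6 : Y ∩ G.cut X ⊆ (G.cut X).erase e₀ := by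
      intro f hf
      rw [mem_inter, hY, mem_filter] at hf
      rw [mem_erase]
      refine ⟨?_, hf.2⟩
      rintro rfl
      have h7 := hf.1.2
      rw [hφ, h0] at h7
      exact absurd (h11.symm.trans h7) (by decide)
    have h7 := card_le_card h6
    rw [card_erase_of_mem he₀, h4] at h7
    have h8 := G.Ev_cut Y hYe X
    have h9 := card_le_card h5
    rw [card_pair hee] at h9
    refine (eq_of_subset_of_card_le h5 ?_).symm
    rw [card_pair hee]
    rw [Nat.even_iff] at h8
    omega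
  have hYC : Y ∩ G.cut C ⊆ Y ∩ G.cut X := by
    intro f hf
    rw [mem_inter] at hf ⊢
    refine ⟨hf.1, ?_⟩
    by_contra hfX
    have h5 := (G.mem_cut C f).1 hf.2
    have h6 : ¬ ¬ (G.s f ∈ X ↔ G.t f ∈ X) := fun h => hfX ((G.mem_cut X f).2 h)
    rw [not_not] at h6
    have h7 : G.s f ∈ X ∧ G.t f ∈ X := by
      by_cases h8 : G.s f ∈ C
      · exact ⟨hCX h8, h6.1 (hCX h8)⟩
      · have h9 : G.t f ∈ C := by
          by_contra h9
          exact h5 ⟨fun h => absurd h h8, fun h => absurd h h9⟩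
        exact ⟨h6.2 (hCX h9), hCX h9⟩
    by_cases h8 : f ∈ Jd M x a
    · have h9 : x f = a := by
        unfold Jd at h8
        rw [mem_filter] at h8
        exact h8.2
      have h10 := hf.1
      rw [hY, mem_filter, hφ0 f h9] at h10
      exact absurd h10.2 (by decide)
    · have h9 : f ∈ ins G (univ \ Jd M x a) X ∩ G.cut C := by
        rw [mem_inter]
        refine ⟨?_, hf.2⟩
        unfold ins
        rw [mem_filter, mem_sdiff]
        exact ⟨⟨mem_univ _, h8⟩, h7⟩
      rw [hC, G.cv_cut] at h9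
      exact notMem_empty _ h9
  have heC : e ∈ Y ∩ G.cut C := by
    rw [mem_inter, hY, mem_filter]
    refine ⟨⟨mem_univ _, hφa e he hea⟩, ?_⟩
    rw [G.mem_cut]
    intro h
    have h5 := (G.mem_cut X e).1 he
    rcases hep with h6 | h6
    · rw [← h6] at hpC
      exact h5 ⟨fun _ => hCX (h.1 hpC), fun _ => hCX hpC⟩
    · rw [← h6] at hpC
      exact h5 ⟨fun _ => hCX hpC, fun _ => hCX (h.2 hpC)⟩
  have heq : Y ∩ G.cut C = Y ∩ G.cut X := by
    refine eq_of_subset_of_card_le hYC ?_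
    rw [hYX, card_pair hee]
    have h5 := G.Ev_cut Y hYe C
    have h6 : 0 < (Y ∩ G.cut C).card := card_pos.2 ⟨e, heC⟩
    rw [Nat.even_iff] at h5
    omega
  have he'C : e' ∈ Y ∩ G.cut C := by
    rw [heq, hYX]
    simp
  have h5 := (G.mem_cut C e').1 (mem_inter.1 he'C).2
  have h6 : ∃ q ∈ C, G.s e' = q ∨ G.t e' = q := by
    by_contra hcon
    apply h5
    exact ⟨fun h => absurd ⟨_, h, Or.inl rfl⟩ hcon, fun h => absurd ⟨_, h, Or.inr rfl⟩ hcon⟩
  obtain ⟨q, hq, hq'⟩ := h6
  have h7 := hnot e' he' q (hCX hq) hq' p' hp' hep'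
  rw [h7, hC, G.mem_cv] at hq
  exact hq

/-- 4-members are transparent in all directions, the other members in the directions
`(1, 0)` (by `T₂`) and `(0, 1)` (by `T₁`) of their coordinates -/
theorem tr4 (G : MG V E) (M : Finset E) (hM : ∀ v, G.dg M v = 1) (R : Finset (Finset V))
    (hR : Lmr G M R) (T₁ T₂ : Finset E) (hT : Two M T₁ T₂)
    (t₁ : Trs G M R T₁) (t₂ : Trs G M R T₂) (val x : E → K4) (hval : ∀ e, val e ≠ 0)
    (hx : Val4 G M R T₁ T₂ val x) (X Q : Finset V) (hX : X ∈ R) (hXu : X ≠ univ)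
    (hQ : Up G R X Q) (a : K4) (ha : a ≠ 0)
    (h : sel G Q x a = (1, 0) ∨ sel G Q x a = (0, 1) ∨ (G.cut X).card = 4) : TR G M x a X := by
  classical
  induction hn : X.card using Nat.strong_induction_on generalizing X Q with
  | _ n ih =>
    -- the two good directions
    have main : sel G Q x a = (1, 0) ∨ sel G Q x a = (0, 1) → TR G M x a X := by
      intro hdir
      have htr : ∀ N ∈ R, N ⊂ X → ∃ N' ∈ R, N ⊆ N' ∧ N' ⊂ X ∧ TR G M x a N' := by
        intro N hN hNX
        obtain ⟨N', hN', hmax⟩ := exists_max_image (R.filter (fun Y => N ⊆ Y ∧ Y ⊂ X)) card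
          ⟨N, mem_filter.2 ⟨hN, Subset.refl _, hNX⟩⟩
        rw [mem_filter] at hN'
        obtain ⟨hN'R, hNN', hN'X⟩ := hN'
        refine ⟨N', hN'R, hNN', hN'X, ?_⟩
        have hcard := card_lt_card hN'X
        have hN'u : N' ≠ univ := by
          rintro rfl
          exact hN'X.2 (subset_univ _)
        by_cases h4 : (G.cut N').card = 4
        · refine ih N'.card (by omega) N' N' hN'R hN'u
            ⟨hN'R, Or.inr h4, Subset.refl _, fun Q' _ _ h => h⟩ (Or.inr (Or.inr h4)) rfl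
        · refine ih N'.card (by omega) N' Q hN'R hN'u ?_ ?_ rfl
          · refine ⟨hQ.1, hQ.2.1, hN'X.1.trans hQ.2.2.1, ?_⟩
            intro Q' hQ' h4' hNQ'
            apply hQ.2.2.2 Q' hQ' h4'
            rcases hR.lam X hX Q' hQ' with h1 | h1 | h1
            · exact h1
            · by_contra h2
              have h3 : N' ⊂ Q' := by
                refine ⟨hNQ', fun h5 => h4 ?_⟩
                rw [Subset.antisymm hNQ' h5]
                exact h4'
              have h5 := hmax Q' (mem_filter.2 ⟨hQ', hNN'.trans hNQ', h1, h2⟩)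
              have h6 := card_lt_card h3
              omega
            · exfalso
              obtain ⟨v, hv⟩ := hR.ne N' hN'R
              exact disjoint_left.1 h1 (hN'X.1 hv) (hNQ' hv)
          · rcases hdir with h1 | h1
            · exact Or.inl h1
            · exact Or.inr (Or.inl h1)
      rcases hdir with h1 | h1
      · refine tr_step G M R hR T₂ t₂ x X hX a ?_ htr
        intro e he heo hea
        have hup := up_own G M R hR X Q hX e heo hQ
        have h2 := (hx.loc e (hT.h2 he) Q hup).2.1 he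
        rw [hea, h1] at h2
        exact absurd h2 (by decide)
      · refine tr_step G M R hR T₁ t₁ x X hX a ?_ htr
        intro e he heo hea
        have hup := up_own G M R hR X Q hX e heo hQ
        have h2 := (hx.loc e (hT.h1 he) Q hup).1 he
        rw [hea, h1] at h2
        exact absurd h2 (by decide)
    rcases h with h | h | h
    · exact main (Or.inl h)
    · exact main (Or.inr h)
    · have hQX : Q = X := Subset.antisymm (hQ.2.2.2 X hX h (Subset.refl _)) hQ.2.2.1
      subst hQX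
      have hσ : sel G Q x a ≠ 0 := by
        intro h0
        apply ha
        apply (sel G Q x).injective
        rw [h0, map_zero]
      have k4 : ∀ k : K4, k = 0 ∨ k = (1, 0) ∨ k = (0, 1) ∨ k = (1, 1) := by decide
      rcases k4 (sel G Q x a) with h1 | h1 | h1 | h1
      · exact absurd h1 hσ
      · exact main (Or.inl h1)
      · exact main (Or.inr h1)
      · obtain ⟨h2, e₀, he₀, h0⟩ := sel_spec G Q x hx.fl h
          (fun e he => val_nz G M R hR T₁ T₂ val x hval hx e (hR.nod Q hX he))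
        exact tr_par G M x hx.fl Q (hR.nod Q hX) a (sel G Q x) h1 h h2 e₀ he₀ h0

end Pool.Agent.Lib.MP_95e9b3_coG
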