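import Pool.Agent.Lib.MP_95e9b3_coG.R4Defs2
import Pool.Agent.Lib.MP_95e9b3_coG.R3_con
import Pool.Agent.Lib.MP_95e9b3_coG.R4_trees
import Pool.Agent.Lib.MP_95e9b3_coG.R4_coord
import Pool.Agent.Lib.MP_95e9b3_coG.R4_tr
import Pool.Agent.Lib.MP_95e9b3_coG.R4_cls
import Pool.Agent.Lib.MP_95e9b3_coG.R4_cov

/-!
# Route G, block R4: one region, one flow (`sp4`)
-/

set_option autoImplicit false

namespace Pool.Agent.Lib.MP_95e9b3_coG

open Finset Pool.Agent.Lib.MP_95e9b3_coC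

variable {V E : Type} [Fintype V] [DecidableEq V] [Fintype E] [DecidableEq E]

/-! ## Small facts -/

private lemma sq_vst_ne (Lf : Finset E) (s : E → Fin 3) (e : E) : vst Lf s e ≠ 0 := by
  unfold vst st3
  split_ifs <;> decide

private lemma sq_two (M S₁ S₂ T₁ T₂ : Finset E) (h : Two M S₁ S₂) (h1 : T₁ ⊆ S₁) (h2 : T₂ ⊆ S₂) :
    Two M T₁ T₂ :=
  ⟨h1.trans h.h1, h2.trans h.h2,
    Finset.disjoint_of_subset_left h1 (Finset.disjoint_of_subset_right h2 h.hd)⟩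

private lemma sq_cut_univ (G : MG V E) : G.cut univ = ∅ := by
  ext e
  simp [MG.mem_cut]

/-! ## One flow -/

section one

variable (G : MG V E) (M : Finset E) (w : E → ℕ) (R P : Finset (Finset V))
    (g : Finset V → E) (A : Finset (Finset V)) (S₁ S₂ T₁ T₂ : Finset E)
    (xf : Finset (Finset V) → (E → Fin 3) → E → K4)

private lemma sq_DR (hS : Set4 G M w R P g A S₁ S₂ T₁ T₂ xf) (D : Finset (Finset V))
    (hD : D ⊆ A) : D ⊆ R := hD.trans (hS.AP.trans hS.fam.sub)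

private lemma sq_twT (hS : Set4 G M w R P g A S₁ S₂ T₁ T₂ xf) (D : Finset (Finset V)) :
    Two M (tw G D T₁ T₂) (tw G D T₂ T₁) :=
  (tw_Two G M T₁ T₂ (sq_two M S₁ S₂ T₁ T₂ hS.two hS.ts₁ hS.ts₂) D).1

private lemma sq_t1 (hS : Set4 G M w R P g A S₁ S₂ T₁ T₂ xf) (D : Finset (Finset V))
    (hD : D ⊆ A) : Trs G M R (tw G D T₁ T₂) :=
  tw_trees G M R hS.fam.toLmr T₁ T₂ hS.t₁ hS.t₂ D (sq_DR G M w R P g A S₁ S₂ T₁ T₂ xf hS D hD)

private lemma sq_t2 (hS : Set4 G M w R P g A S₁ S₂ T₁ T₂ xf) (D : Finset (Finset V))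
    (hD : D ⊆ A) : Trs G M R (tw G D T₂ T₁) :=
  tw_trees G M R hS.fam.toLmr T₂ T₁ hS.t₂ hS.t₁ D (sq_DR G M w R P g A S₁ S₂ T₁ T₂ xf hS D hD)

private lemma sq_val2 (hS : Set4 G M w R P g A S₁ S₂ T₁ T₂ xf) (D : Finset (Finset V))
    (hD : D ⊆ A) (s : E → Fin 3) (Q : Finset V) (e : E) (he : e ∈ tw G D S₂ S₁)
    (hu : Up G R {G.s e, G.t e} Q) : (sel G Q (xf D s) (xf D s e)).2 = 1 := by
  have he12 : e ∈ S₁ ∪ S₂ := by
    rw [← (tw_Two G M S₁ S₂ hS.two D).2]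
    exact Finset.mem_union_right _ he
  have heM : e ∈ M := (Finset.union_subset hS.two.h1 hS.two.h2) he12
  obtain ⟨h1, h2, h3⟩ := (hS.hx D hD s).loc e heM Q hu
  by_cases he2 : e ∈ tw G D T₂ T₁
  · exact h2 he2
  · have he1 : e ∉ tw G D T₁ T₂ := by
      intro h
      simp only [tw, Finset.mem_union, Finset.mem_filter] at h he
      rcases he with ⟨a, b⟩ | ⟨a, b⟩ <;> rcases h with ⟨c, d⟩ | ⟨c, d⟩
      · exact Finset.disjoint_left.1 hS.two.hd (hS.ts₁ c) a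
      · exact d b
      · exact b d
      · exact Finset.disjoint_left.1 hS.two.hd a (hS.ts₂ c)
    rw [h3 he1 he2, vst, if_neg]
    intro h
    exact (Finset.mem_sdiff.1 h).2 he12

private lemma sq_val1 (hS : Set4 G M w R P g A S₁ S₂ T₁ T₂ xf) (D : Finset (Finset V))
    (hD : D ⊆ A) (s : E → Fin 3) (Q : Finset V) (e : E) (he : e ∈ tw G D S₁ S₂)
    (hu : Up G R {G.s e, G.t e} Q) : (sel G Q (xf D s) (xf D s e)).1 = 1 := by
  have he12 : e ∈ S₁ ∪ S₂ := by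
    rw [← (tw_Two G M S₁ S₂ hS.two D).2]
    exact Finset.mem_union_left _ he
  have heM : e ∈ M := (Finset.union_subset hS.two.h1 hS.two.h2) he12
  obtain ⟨h1, h2, h3⟩ := (hS.hx D hD s).loc e heM Q hu
  by_cases he1 : e ∈ tw G D T₁ T₂
  · exact h1 he1
  · have he2 : e ∉ tw G D T₂ T₁ := by
      intro h
      simp only [tw, Finset.mem_union, Finset.mem_filter] at h he
      rcases he with ⟨a, b⟩ | ⟨a, b⟩ <;> rcases h with ⟨c, d⟩ | ⟨c, d⟩
      · exact Finset.disjoint_left.1 hS.two.hd a (hS.ts₂ c)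
      · exact d b
      · exact b d
      · exact Finset.disjoint_left.1 hS.two.hd (hS.ts₁ c) a
    rw [h3 he1 he2, vst, if_neg]
    intro h
    exact (Finset.mem_sdiff.1 h).2 he12

/-- the 4-members are transparent -/
private lemma sq_tr (hS : Set4 G M w R P g A S₁ S₂ T₁ T₂ xf) (D : Finset (Finset V))
    (hD : D ⊆ A) (s : E → Fin 3) (a : K4) (ha : a ≠ 0) :
    ∀ Y ∈ R, (G.cut Y).card = 4 → TR G M (xf D s) a Y := by
  intro Y hY h4
  have hYu : Y ≠ univ := by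
    rintro rfl
    rw [sq_cut_univ] at h4
    simp at h4
  obtain ⟨Q, hQ⟩ := up_exists G M R hS.fam.toLmr Y (hS.fam.ne Y hY)
  exact tr4 G M hS.pm R hS.fam.toLmr (tw G D T₁ T₂) (tw G D T₂ T₁)
    (sq_twT G M w R P g A S₁ S₂ T₁ T₂ xf hS D)
    (sq_t1 G M w R P g A S₁ S₂ T₁ T₂ xf hS D hD) (sq_t2 G M w R P g A S₁ S₂ T₁ T₂ xf hS D hD)
    (vst (M \ (S₁ ∪ S₂)) s) (xf D s) (sq_vst_ne _ s) (hS.hx D hD s) Y Q hY hYu hQ a ha
    (Or.inr (Or.inr h4))

private lemma sq_ne_zero (σ : K4 ≃+ K4) (a b : K4) (h : σ a = b) (hb : b ≠ 0) : a ≠ 0 := by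
  rintro rfl
  rw [map_zero] at h
  exact hb h.symm

end one

/-- JOB sp4: one flow, one region: the class relation for the direction served in `D` and the
comparison of the class sums. (`cls_rel`, `cls_cov`, `cls_sum`, `tr4`, `r3srv`; on the free edges
in `S₁ ∪ S₂` the value is `(1, 1)`.) -/
theorem sp4 (G : MG V E) (M : Finset E) (w : E → ℕ) (R P : Finset (Finset V))
    (g : Finset V → E) (A : Finset (Finset V)) (S₁ S₂ T₁ T₂ : Finset E)
    (xf : Finset (Finset V) → (E → Fin 3) → E → K4)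
    (hS : Set4 G M w R P g A S₁ S₂ T₁ T₂ xf)
    (X : Finset V) (hX : X ∈ A) (pr : Finset (E × E)) (A0 : Finset E) (U : E → Finset V)
    (hE : Eff G M X (g X) pr A0 U)
    (srv : Srv G M X (Cv G M (g X)) pr (S₂ ∩ own G M R X) ((S₂ ∩ own G M R X) ∪ low G M R X))
    (Q : Finset V) (hQ : Up G R X Q) (D : Finset (Finset V)) (hD : D ⊆ A) (s : E → Fin 3)
    (a : K4) (ha : sel G Q (xf D s) a =
      if Even (D.filter (fun Y => X ⊆ Y)).card then ((1, 0) : K4) else (0, 1)) :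
    Rel4 A0 (fun e => G.cut (U e) ∩ G.cut X) (fun e => sel G Q (xf D s) (xf D s e))
      (sel G Q (xf D s) a) (Sc G (Jd M (xf D s) a)) ∧
    ∀ e ∈ A0, clC G M w (xf D s) a (Ce G M (g X)) e =
      cls w A0 (fun e => G.cut (U e) ∩ G.cut X) (fun e => sel G Q (xf D s) (xf D s e))
        (Sc G (Jd M (xf D s) a)) e := by
  have hR : Lmr G M R := hS.fam.toLmr
  have hXP : X ∈ P := hS.AP hX
  have hXR : X ∈ R := hS.fam.sub hXP
  have hDR : D ⊆ R := sq_DR G M w R P g A S₁ S₂ T₁ T₂ xf hS D hD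
  have hfl : G.Fl (xf D s) := (hS.hx D hD s).fl
  have hane : a ≠ 0 := by
    refine sq_ne_zero (sel G Q (xf D s)) a _ ha ?_
    split_ifs <;> decide
  have htr := sq_tr G M w R P g A S₁ S₂ T₁ T₂ xf hS D hD s a hane
  have hsv := r3srv G M R hR S₁ S₂ hS.two hS.c₁ hS.c₂ D hDR X hXR (G.s (g X))
    (hS.fam.gX X hXP) (fun Y hY hYX => hS.fam.direct Y hY X hXP hYX) pr hE.prs srv
  refine ⟨cls_rel G M hS.ev (xf D s) hfl a X (hR.nod X hXR) (g X) (hS.fam.gF X hXP) pr A0 U hE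
    (sel G Q (xf D s)), ?_⟩
  refine cls_sum G M (xf D s) hfl a X (g X) w pr A0 U hE (sel G Q (xf D s)) ?_
  by_cases hpar : Even (D.filter (fun Y => X ⊆ Y)).card
  · rw [if_pos hpar] at ha
    refine cls_cov G M R P w g hS.fam (xf D s) a (tw G D S₂ S₁)
      (tw_Two G M S₁ S₂ hS.two D).1.h2 X Q hXP hQ ?_ htr pr A0 U hE (hsv.1 hpar)
    intro e he hu hea
    have h := sq_val2 G M w R P g A S₁ S₂ T₁ T₂ xf hS D hD s Q e he hu
    rw [hea, ha] at h
    exact absurd h (by decide)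
  · rw [if_neg hpar] at ha
    refine cls_cov G M R P w g hS.fam (xf D s) a (tw G D S₁ S₂)
      (tw_Two G M S₁ S₂ hS.two D).1.h1 X Q hXP hQ ?_ htr pr A0 U hE (hsv.2 hpar)
    intro e he hu hea
    have h := sq_val1 G M w R P g A S₁ S₂ T₁ T₂ xf hS D hD s Q e he hu
    rw [hea, ha] at h
    exact absurd h (by decide)

end Pool.Agent.Lib.MP_95e9b3_coG
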