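import Pool.Agent.Lib.MP_95e9b3_coG.Defs

/-!
# Reduction to connected cubic graphs in which all cuts have at least 3 edges

`exch G a b x y`: the end `x` of the edge `a` becomes `y`, the end `y` of `b` becomes `x`.
-/

set_option autoImplicit false
set_option linter.unusedSectionVars false
set_option linter.unusedVariables false

namespace Pool.Agent.Lib.MP_95e9b3_coG

open Finset Pool.Agent.Lib.MP_95e9b3_coC
open scoped symmDiff

variable {V E : Type} [Fintype V] [DecidableEq V] [Fintype E] [DecidableEq E]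

/-- exchange of two ends -/
def exch (G : MG V E) (a b : E) (x y : V) : MG V E :=
  ⟨fun g => if g = a ∧ G.s g = x then y else if g = b ∧ G.s g = y then x else G.s g,
   fun g => if g = a ∧ G.t g = x then y else if g = b ∧ G.t g = y then x else G.t g⟩

theorem mem_cut_Jn (G : MG V E) (e : E) (p q : V) (h : G.Jn e p q) (U : Finset V) :
    e ∈ G.cut U ↔ ¬ (p ∈ U ↔ q ∈ U) := by
  rw [G.mem_cut]
  rcases h with ⟨h1, h2⟩ | ⟨h1, h2⟩
  · rw [h1, h2]
  · rw [h1, h2]
    tauto

theorem exch_cut_same (G : MG V E) (a b : E) (x y : V) (W : Finset V) (h : x ∈ W ↔ y ∈ W) :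
    (exch G a b x y).cut W = G.cut W := by
  have key : ∀ (g : E) (u : V),
      (if g = a ∧ u = x then y else if g = b ∧ u = y then x else u) ∈ W ↔ u ∈ W := by
    intro g u
    split_ifs with h1 h2
    · rw [h1.2, h]
    · rw [h2.2, h]
    · exact Iff.rfl
  ext g
  rw [MG.mem_cut, MG.mem_cut]
  show ¬ ((if g = a ∧ G.s g = x then y else if g = b ∧ G.s g = y then x else G.s g) ∈ W ↔
    (if g = a ∧ G.t g = x then y else if g = b ∧ G.t g = y then x else G.t g) ∈ W) ↔ _
  rw [key g (G.s g), key g (G.t g)]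

/-- data for an exchange -/
structure Ex (G : MG V E) (a b : E) (x y a' b' : V) : Prop where
  ab : a ≠ b
  ja : G.Jn a x a'
  jb : G.Jn b y b'
  xa : a' ≠ x
  yb : b' ≠ y

theorem Ex.other {G : MG V E} {a b : E} {x y a' b' : V} (h : Ex G a b x y a' b') (g : E)
    (ga : g ≠ a) (gb : g ≠ b) :
    (exch G a b x y).s g = G.s g ∧ (exch G a b x y).t g = G.t g := by
  constructor
  · show (if g = a ∧ G.s g = x then y else if g = b ∧ G.s g = y then x else G.s g) = _
    rw [if_neg (fun h => ga h.1), if_neg (fun h => gb h.1)]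
  · show (if g = a ∧ G.t g = x then y else if g = b ∧ G.t g = y then x else G.t g) = _
    rw [if_neg (fun h => ga h.1), if_neg (fun h => gb h.1)]

theorem Ex.ja' {G : MG V E} {a b : E} {x y a' b' : V} (h : Ex G a b x y a' b') :
    (exch G a b x y).Jn a y a' := by
  rcases h.ja with ⟨h1, h2⟩ | ⟨h1, h2⟩
  · left
    constructor
    · show (if a = a ∧ G.s a = x then y else if a = b ∧ G.s a = y then x else G.s a) = _
      rw [if_pos ⟨rfl, h1⟩]
    · show (if a = a ∧ G.t a = x then y else if a = b ∧ G.t a = y then x else G.t a) = _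
      rw [if_neg (fun h' => h.xa (h2.symm.trans h'.2)), if_neg (fun h' => h.ab h'.1), h2]
  · right
    constructor
    · show (if a = a ∧ G.s a = x then y else if a = b ∧ G.s a = y then x else G.s a) = _
      rw [if_neg (fun h' => h.xa (h1.symm.trans h'.2)), if_neg (fun h' => h.ab h'.1), h1]
    · show (if a = a ∧ G.t a = x then y else if a = b ∧ G.t a = y then x else G.t a) = _
      rw [if_pos ⟨rfl, h2⟩]

theorem Ex.jb' {G : MG V E} {a b : E} {x y a' b' : V} (h : Ex G a b x y a' b') :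
    (exch G a b x y).Jn b x b' := by
  rcases h.jb with ⟨h1, h2⟩ | ⟨h1, h2⟩
  · left
    constructor
    · show (if b = a ∧ G.s b = x then y else if b = b ∧ G.s b = y then x else G.s b) = _
      rw [if_neg (fun h' => h.ab h'.1.symm), if_pos ⟨rfl, h1⟩]
    · show (if b = a ∧ G.t b = x then y else if b = b ∧ G.t b = y then x else G.t b) = _
      rw [if_neg (fun h' => h.ab h'.1.symm), if_neg (fun h' => h.yb (h2.symm.trans h'.2)), h2]
  · right
    constructor
    · show (if b = a ∧ G.s b = x then y else if b = b ∧ G.s b = y then x else G.s b) = _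
      rw [if_neg (fun h' => h.ab h'.1.symm), if_neg (fun h' => h.yb (h1.symm.trans h'.2)), h1]
    · show (if b = a ∧ G.t b = x then y else if b = b ∧ G.t b = y then x else G.t b) = _
      rw [if_neg (fun h' => h.ab h'.1.symm), if_pos ⟨rfl, h2⟩]

theorem Ex.inc_other {G : MG V E} {a b : E} {x y a' b' : V} (h : Ex G a b x y a' b') (g : E)
    (ga : g ≠ a) (gb : g ≠ b) (v : V) : (exch G a b x y).inc g v = G.inc g v := by
  unfold MG.inc
  rw [(h.other g ga gb).1, (h.other g ga gb).2]

/-- incidences do not change away from `x`, `y` -/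
theorem Ex.inc_away {G : MG V E} {a b : E} {x y a' b' : V} (h : Ex G a b x y a' b') (g : E)
    (v : V) (hx : v ≠ x) (hy : v ≠ y) : (exch G a b x y).inc g v = G.inc g v := by
  by_cases ga : g = a
  · rw [ga, MG.inc_Jn _ a y a' h.ja' v, MG.inc_Jn _ a x a' h.ja v, if_neg hx, if_neg hy]
  · by_cases gb : g = b
    · rw [gb, MG.inc_Jn _ b x b' h.jb' v, MG.inc_Jn _ b y b' h.jb v, if_neg hx, if_neg hy]
    · exact h.inc_other g ga gb v

/-- sets containing both or none of `a`, `b` keep their degrees -/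
theorem Ex.dg_both {G : MG V E} {a b : E} {x y a' b' : V} (h : Ex G a b x y a' b')
    (C : Finset E) (hC : a ∈ C ↔ b ∈ C) (v : V) : (exch G a b x y).dg C v = G.dg C v := by
  unfold MG.dg
  by_cases ha : a ∈ C
  · have hb : b ∈ C := hC.1 ha
    have hb' : b ∈ C.erase a := mem_erase.2 ⟨h.ab.symm, hb⟩
    rw [← Finset.add_sum_erase C _ ha, ← Finset.add_sum_erase (C.erase a) _ hb',
      ← Finset.add_sum_erase C (fun e => G.inc e v) ha,
      ← Finset.add_sum_erase (C.erase a) (fun e => G.inc e v) hb']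
    rw [MG.inc_Jn _ a y a' h.ja' v, MG.inc_Jn _ a x a' h.ja v, MG.inc_Jn _ b x b' h.jb' v,
      MG.inc_Jn _ b y b' h.jb v]
    have h1 : ∑ e ∈ (C.erase a).erase b, (exch G a b x y).inc e v =
        ∑ e ∈ (C.erase a).erase b, G.inc e v := by
      refine Finset.sum_congr rfl fun e he => ?_
      have h2 := mem_erase.1 he
      have h3 := mem_erase.1 h2.2
      exact h.inc_other e h3.1 h2.1 v
    rw [h1]
    ring
  · have hb : b ∉ C := fun hb => ha (hC.2 hb)
    refine Finset.sum_congr rfl fun e he => ?_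
    exact h.inc_other e (fun h' => ha (h' ▸ he)) (fun h' => hb (h' ▸ he)) v

theorem Ex.dg_univ {G : MG V E} {a b : E} {x y a' b' : V} (h : Ex G a b x y a' b') (v : V) :
    (exch G a b x y).dg univ v = G.dg univ v :=
  h.dg_both univ (iff_of_true (mem_univ _) (mem_univ _)) v

/-- cubic, connected, no bridges -/
structure C2 (G : MG V E) : Prop where
  deg : ∀ v, G.dg univ v = 3
  cut : ∀ U : Finset V, U.Nonempty → U ≠ univ → 2 ≤ (G.cut U).card

theorem C2.br {G : MG V E} (h : C2 G) : G.Br0 := by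
  intro U hU
  by_cases h1 : U.Nonempty
  · by_cases h2 : U = univ
    · rw [h2] at hU
      have : G.cut univ = ∅ := by ext e; simp [MG.mem_cut]
      rw [this] at hU
      simp at hU
    · have := h.cut U h1 h2
      omega
  · rw [Finset.not_nonempty_iff_eq_empty] at h1
    rw [h1] at hU
    have : G.cut (∅ : Finset V) = ∅ := by ext e; simp [MG.mem_cut]
    rw [this] at hU
    simp at hU

theorem star_card (G : MG V E) (hc : ∀ v, G.dg univ v = 3) (hb : G.Br0) (x : V) :
    (G.cut {x}).card = 3 := by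
  have h1 := G.dg_eq univ x
  rw [hc, univ_inter] at h1
  have h2 : (univ.filter (fun e => G.s e = x ∧ G.t e = x)) = ∅ := by
    apply Finset.eq_empty_of_forall_notMem
    intro e he
    have h3 := (mem_filter.mp he).2
    exact G.loopless hc hb e (by rw [h3.1, h3.2])
  rw [h2, card_empty] at h1
  omega

/-- an edge at `x` outside a set of at most two edges -/
theorem edge_at (G : MG V E) (hc : ∀ v, G.dg univ v = 3) (hb : G.Br0) (x : V) (e f : E) :
    ∃ a, a ≠ e ∧ a ≠ f ∧ ∃ a', G.Jn a x a' ∧ a' ≠ x := by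
  have h1 := star_card G hc hb x
  have h2 : ¬ G.cut {x} ⊆ {e, f} := by
    intro h
    have h3 := card_le_card h
    have h4 : ({e, f} : Finset E).card ≤ 2 := card_le_two
    omega
  rw [Finset.not_subset] at h2
  obtain ⟨a, ha, hn⟩ := h2
  rw [mem_insert, mem_singleton, not_or] at hn
  refine ⟨a, hn.1, hn.2, ?_⟩
  rw [MG.mem_cut, mem_singleton, mem_singleton] at ha
  by_cases h5 : G.s a = x
  · exact ⟨G.t a, Or.inl ⟨h5, rfl⟩, fun h => ha (iff_of_true h5 h)⟩
  · have h6 : G.t a = x := by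
      by_contra h7
      exact ha (iff_of_false h5 h7)
    exact ⟨G.s a, Or.inr ⟨rfl, h6⟩, h5⟩

/-- adjacent edges do not form a cut -/
theorem adj_not_cut (G : MG V E) (hc : ∀ v, G.dg univ v = 3) (hb : G.Br0) (x : V) (a f : E)
    (haf : a ≠ f) (ha : a ∈ G.cut {x}) (hf : f ∈ G.cut {x}) (W : Finset V) :
    G.cut W ≠ {a, f} := by
  intro hW
  have h1 := star_card G hc hb x
  have h2 : G.cut (W ∆ {x}) = {a, f} ∆ G.cut {x} := by rw [G.cut_symm, hW]
  have h3 : ({a, f} : Finset E) ∆ G.cut {x} = G.cut {x} \ {a, f} := by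
    ext g
    rw [Finset.mem_symmDiff, mem_sdiff, mem_insert, mem_singleton]
    constructor
    · rintro (⟨h4 | h4, h5⟩ | h4)
      · exact (h5 (h4 ▸ ha)).elim
      · exact (h5 (h4 ▸ hf)).elim
      · exact h4
    · intro h4
      exact Or.inr h4
  apply hb (W ∆ {x})
  rw [h2, h3, card_sdiff_of_subset, h1, card_pair haf]
  intro g hg
  rw [mem_insert, mem_singleton] at hg
  rcases hg with h | h
  · rw [h]; exact ha
  · rw [h]; exact hf

/-- the key step: a second edge inside `U` crossing `W` -/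
theorem lemA (G : MG V E) (h : C2 G) (U : Finset V) (e f a : E) (hU : G.cut U = {e, f})
    (hef : e ≠ f) (x y a' : V) (hx : x ∈ U) (hy : y ∉ U) (jf : G.Jn f x y) (ja : G.Jn a x a')
    (xa : a' ≠ x) (hae : a ≠ e) (haf : a ≠ f) (W : Finset V) (hxW : x ∈ W) (hyW : y ∉ W)
    (ha'W : a' ∉ W) : ∃ g, g ≠ a ∧ G.s g ∈ U ∧ G.t g ∈ U ∧ g ∈ G.cut W := by
  have haU : a ∉ G.cut U := by
    rw [hU, mem_insert, mem_singleton]
    tauto
  have ha'U : a' ∈ U := by
    rw [mem_cut_Jn G a x a' ja] at haU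
    tauto
  set X := U \ W with hX
  have hXn : X.Nonempty := ⟨a', mem_sdiff.2 ⟨ha'U, ha'W⟩⟩
  have hXu : X ≠ univ := by
    intro h1
    have h2 : x ∈ X := by rw [h1]; exact mem_univ _
    exact (mem_sdiff.1 h2).2 hxW
  have h2 := h.cut X hXn hXu
  have hex : ∃ g ∈ G.cut X, g ≠ a ∧ g ≠ e := by
    by_contra hcon
    push Not at hcon
    have h3 : G.cut X ⊆ {a, e} := by
      intro g hg
      rw [mem_insert, mem_singleton]
      by_cases h4 : g = a
      · exact Or.inl h4
      · exact Or.inr (hcon g hg h4)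
    have h4 : ({a, e} : Finset E).card = 2 := card_pair hae
    have h5 : G.cut X = {a, e} := Finset.eq_of_subset_of_card_le h3 (by omega)
    have h6 : G.Ser a e := Or.inr ⟨X, h5⟩
    have h7 : G.Ser e f := Or.inr ⟨U, hU⟩
    rcases G.Ser_trans a e f h6 h7 with h8 | ⟨W', h8⟩
    · exact haf h8
    · refine adj_not_cut G h.deg h.br x a f haf ?_ ?_ W' h8
      · rw [mem_cut_Jn G a x a' ja, mem_singleton, mem_singleton]
        tauto
      · rw [mem_cut_Jn G f x y jf, mem_singleton, mem_singleton]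
        have : y ≠ x := fun h => hy (h ▸ hx)
        tauto
  obtain ⟨g, hg, hga, hge⟩ := hex
  have hgf : g ≠ f := by
    intro h3
    rw [h3, mem_cut_Jn G f x y jf, hX, mem_sdiff, mem_sdiff] at hg
    tauto
  have hgU : g ∉ G.cut U := by
    rw [hU, mem_insert, mem_singleton]
    tauto
  rw [MG.mem_cut] at hg hgU
  rw [hX, mem_sdiff, mem_sdiff] at hg
  refine ⟨g, hga, ?_, ?_, ?_⟩
  · tauto
  · tauto
  · rw [MG.mem_cut]
    tauto

/-- separated sets have at least three edges after the exchange -/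
theorem exch_sep (G : MG V E) (h : C2 G) (U : Finset V) (e f a b : E) (hU : G.cut U = {e, f})
    (hef : e ≠ f) (x y a' b' : V) (hx : x ∈ U) (hy : y ∉ U) (jf : G.Jn f x y)
    (hE : Ex G a b x y a' b') (hae : a ≠ e) (haf : a ≠ f) (hbe : b ≠ e) (hbf : b ≠ f)
    (W : Finset V) (hxW : x ∈ W) (hyW : y ∉ W) : 3 ≤ ((exch G a b x y).cut W).card := by
  have haU : G.s a ∈ U ∧ G.t a ∈ U := by
    have h1 : a ∉ G.cut U := by
      rw [hU, mem_insert, mem_singleton]
      tauto
    have h2 := hE.ja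
    rw [MG.mem_cut] at h1
    rcases h2 with ⟨h3, h4⟩ | ⟨h3, h4⟩
    · have : G.s a ∈ U := by rw [h3]; exact hx
      tauto
    · have : G.t a ∈ U := by rw [h4]; exact hx
      tauto
  have hbU : G.s b ∉ U ∧ G.t b ∉ U := by
    have h1 : b ∉ G.cut U := by
      rw [hU, mem_insert, mem_singleton]
      tauto
    have h2 := hE.jb
    rw [MG.mem_cut] at h1
    rcases h2 with ⟨h3, h4⟩ | ⟨h3, h4⟩
    · have : G.s b ∉ U := by rw [h3]; exact hy
      tauto
    · have : G.t b ∉ U := by rw [h4]; exact hy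
      tauto
  have hcut : ∀ g, g ≠ a → g ≠ b → (g ∈ (exch G a b x y).cut W ↔ g ∈ G.cut W) := by
    intro g h1 h2
    rw [MG.mem_cut, MG.mem_cut, (hE.other g h1 h2).1, (hE.other g h1 h2).2]
  -- an edge inside U
  have hA : ∃ g, G.s g ∈ U ∧ G.t g ∈ U ∧ g ∈ (exch G a b x y).cut W := by
    by_cases h1 : a' ∈ W
    · refine ⟨a, haU.1, haU.2, ?_⟩
      rw [mem_cut_Jn _ a y a' hE.ja']
      tauto
    · obtain ⟨g, hg1, hg2, hg3, hg4⟩ := lemA G h U e f a hU hef x y a' hx hy jf hE.ja hE.xa hae haf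
        W hxW hyW h1
      refine ⟨g, hg2, hg3, (hcut g hg1 ?_).2 hg4⟩
      intro h2
      rw [h2] at hg2
      exact hbU.1 hg2
  have hB : ∃ g, G.s g ∉ U ∧ G.t g ∉ U ∧ g ∈ (exch G a b x y).cut W := by
    by_cases h1 : b' ∈ W
    · have hU' : G.cut Uᶜ = {e, f} := by rw [G.cut_compl, hU]
      obtain ⟨g, hg1, hg2, hg3, hg4⟩ := lemA G h Uᶜ e f b hU' hef y x b' (mem_compl.2 hy)
        (fun h2 => (mem_compl.1 h2) hx) (by
          rcases jf with h2 | h2
          · exact Or.inr h2
          · exact Or.inl h2) hE.jb hE.yb hbe hbf Wᶜ (mem_compl.2 hyW)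
        (fun h2 => (mem_compl.1 h2) hxW) (fun h2 => (mem_compl.1 h2) h1)
      rw [G.cut_compl] at hg4
      rw [mem_compl] at hg2 hg3
      refine ⟨g, hg2, hg3, (hcut g ?_ hg1).2 hg4⟩
      intro h2
      rw [h2] at hg2
      exact hg2 haU.1
    · refine ⟨b, hbU.1, hbU.2, ?_⟩
      rw [mem_cut_Jn _ b x b' hE.jb']
      tauto
  have hf : f ∈ (exch G a b x y).cut W := by
    rw [hcut f haf.symm hbf.symm, mem_cut_Jn G f x y jf]
    tauto
  have hfU : f ∈ G.cut U := by rw [hU, mem_insert, mem_singleton]; exact Or.inr rfl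
  obtain ⟨g1, h1, h2, h3⟩ := hA
  obtain ⟨g2, k1, k2, k3⟩ := hB
  rw [MG.mem_cut] at hfU
  have d1 : g1 ≠ f := by
    intro h4
    rw [h4] at h1 h2
    tauto
  have d2 : g2 ≠ f := by
    intro h4
    rw [h4] at k1 k2
    tauto
  have d3 : g1 ≠ g2 := by
    intro h4
    rw [h4] at h1
    exact k1 h1
  have h5 : ({g1, g2, f} : Finset E) ⊆ (exch G a b x y).cut W := by
    intro g hg
    rw [mem_insert, mem_insert, mem_singleton] at hg
    rcases hg with hg | hg | hg
    · rw [hg]; exact h3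
    · rw [hg]; exact k3
    · rw [hg]; exact hf
  have h6 := card_le_card h5
  have h7 : ({g1, g2, f} : Finset E).card = 3 := by
    rw [card_insert_of_notMem, card_pair d2]
    rw [mem_insert, mem_singleton]
    tauto
  omega

end Pool.Agent.Lib.MP_95e9b3_coG
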