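import Pool.Agent.Lib.MP_95e9b3_coG.Red

/-!
# Reduction to 3-edge-connected cubic graphs: the two inductions
-/

set_option autoImplicit false
set_option linter.unusedSectionVars false
set_option linter.unusedVariables false

namespace Pool.Agent.Lib.MP_95e9b3_coG

open Finset Pool.Agent.Lib.MP_95e9b3_coC
open scoped symmDiff

variable {V E : Type} [Fintype V] [DecidableEq V] [Fintype E] [DecidableEq E]

/-- add or remove `f` so that `f ∈ C ↔ e ∈ C` -/
def twR (e f : E) (C : Finset E) : Finset E := if e ∈ C then insert f C else C.erase f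

theorem mem_twR (e f : E) (hef : e ≠ f) (C : Finset E) (g : E) :
    g ∈ twR e f C ↔ (g = f ∧ e ∈ C) ∨ (g ≠ f ∧ g ∈ C) := by
  unfold twR
  by_cases h : e ∈ C
  · rw [if_pos h, mem_insert]
    tauto
  · rw [if_neg h, mem_erase]
    tauto

theorem tw_Ev (G : MG V E) (h : C2 G) (U : Finset V) (e f a b : E) (hU : G.cut U = {e, f})
    (hef : e ≠ f) (x y a' b' : V) (hx : x ∈ U) (hy : y ∉ U) (jf : G.Jn f x y)
    (hE : Ex G a b x y a' b') (C : Finset E) (hC : (exch G a b x y).Ev C) : G.Ev (twR e f C) := by
  have hxy : x ≠ y := fun h1 => hy (h1 ▸ hx)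
  have haway : ∀ v, v ≠ x → v ≠ y → Even (G.dg (twR e f C) v) := by
    intro v hvx hvy
    have h1 : G.dg (twR e f C) v = G.dg C v := by
      have h2 : ∀ C : Finset E, G.dg C v = ∑ g, (if g ∈ C then G.inc g v else 0) := by
        intro C
        unfold MG.dg
        rw [Finset.sum_ite_mem, Finset.univ_inter]
      rw [h2, h2]
      refine Finset.sum_congr rfl fun g _ => ?_
      by_cases hg : g = f
      · have h3 : G.inc g v = 0 := by
          rw [hg, MG.inc_Jn G f x y jf v, if_neg hvx, if_neg hvy]
        rw [h3]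
        simp
      · have h3 : g ∈ twR e f C ↔ g ∈ C := by
          rw [mem_twR e f hef]
          tauto
        by_cases h4 : g ∈ C
        · rw [if_pos h4, if_pos (h3.2 h4)]
        · rw [if_neg h4, if_neg (fun h5 => h4 (h3.1 h5))]
    rw [h1]
    have h2 := hC v
    have h3 : (exch G a b x y).dg C v = G.dg C v := by
      unfold MG.dg
      exact Finset.sum_congr rfl fun g _ => hE.inc_away g v hvx hvy
    rw [← h3]
    exact h2
  have hxe : Even (G.dg (twR e f C) x) := by
    have h1 := G.sum_dg (twR e f C) U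
    have h2 : Even ((twR e f C) ∩ G.cut U).card := by
      rw [hU]
      by_cases he : e ∈ C
      · have h3 : twR e f C ∩ {e, f} = {e, f} := by
          ext g
          rw [mem_inter, mem_twR e f hef, mem_insert, mem_singleton]
          constructor
          · exact fun h4 => h4.2
          · rintro (h4 | h4)
            · refine ⟨Or.inr ⟨fun h5 => hef (h4.symm.trans h5), h4 ▸ he⟩, Or.inl h4⟩
            · exact ⟨Or.inl ⟨h4, he⟩, Or.inr h4⟩
        rw [h3, card_pair hef]
        exact ⟨1, rfl⟩
      · have h3 : twR e f C ∩ {e, f} = ∅ := by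
          apply Finset.eq_empty_of_forall_notMem
          intro g hg
          rw [mem_inter, mem_twR e f hef, mem_insert, mem_singleton] at hg
          rcases hg with ⟨⟨_, h4⟩ | ⟨h4, h5⟩, h6⟩
          · exact he h4
          · rcases h6 with h6 | h6
            · exact he (h6 ▸ h5)
            · exact h4 h6
        rw [h3, card_empty]
        exact ⟨0, rfl⟩
    rw [← Finset.add_sum_erase U _ hx] at h1
    have h3 : Even (∑ v ∈ U.erase x, G.dg (twR e f C) v) := by
      refine Finset.even_sum _ fun v hv => ?_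
      have h4 := mem_erase.1 hv
      exact haway v h4.1 (fun h5 => hy (h5 ▸ h4.2))
    rw [Nat.even_iff] at h2 h3 ⊢
    omega
  have hye : Even (G.dg (twR e f C) y) := by
    have h1 := G.sum_dg_univ (twR e f C)
    rw [← Finset.add_sum_erase univ _ (mem_univ y)] at h1
    have h3 : Even (∑ v ∈ univ.erase y, G.dg (twR e f C) v) := by
      refine Finset.even_sum _ fun v hv => ?_
      have h4 := mem_erase.1 hv
      by_cases h5 : v = x
      · rw [h5]; exact hxe
      · exact haway v h5 h4.1
    rw [Nat.even_iff] at h3 ⊢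
    omega
  intro v
  by_cases h1 : v = x
  · rw [h1]; exact hxe
  · by_cases h2 : v = y
    · rw [h2]; exact hye
    · exact haway v h1 h2

theorem tw_sum (e f : E) (hef : e ≠ f) (w : E → ℕ) (C : Finset E) :
    ∑ g ∈ twR e f C, w g =
      ∑ g ∈ C, (if g = f then 0 else if g = e then w e + w f else w g) := by
  have h1 : ∀ (D : Finset E) (φ : E → ℕ), ∑ g ∈ D, φ g = ∑ g, (if g ∈ D then φ g else 0) := by
    intro D φ
    rw [Finset.sum_ite_mem, Finset.univ_inter]
  rw [h1 (twR e f C) w, h1 C (fun g => if g = f then 0 else if g = e then w e + w f else w g),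
    ← Finset.add_sum_erase univ (fun g => if g ∈ twR e f C then w g else 0) (mem_univ e),
    ← Finset.add_sum_erase univ (fun g => if g ∈ C then
      (if g = f then 0 else if g = e then w e + w f else w g) else 0) (mem_univ e),
    ← Finset.add_sum_erase (univ.erase e) (fun g => if g ∈ twR e f C then w g else 0)
      (mem_erase.2 ⟨hef.symm, mem_univ f⟩),
    ← Finset.add_sum_erase (univ.erase e) (fun g => if g ∈ C then
      (if g = f then 0 else if g = e then w e + w f else w g) else 0)
      (mem_erase.2 ⟨hef.symm, mem_univ f⟩)]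
  have h2 : ∑ g ∈ (univ.erase e).erase f, (if g ∈ twR e f C then w g else 0) =
      ∑ g ∈ (univ.erase e).erase f, (if g ∈ C then
      (if g = f then 0 else if g = e then w e + w f else w g) else 0) := by
    refine Finset.sum_congr rfl fun g hg => ?_
    have h3 := mem_erase.1 hg
    have h4 := (mem_erase.1 h3.2).1
    have h5 : g ∈ twR e f C ↔ g ∈ C := by
      rw [mem_twR e f hef]
      tauto
    rw [if_neg h3.1, if_neg h4]
    by_cases h6 : g ∈ C
    · rw [if_pos h6, if_pos (h5.2 h6)]
    · rw [if_neg h6, if_neg (fun h7 => h6 (h5.1 h7))]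
  rw [h2]
  have h3 : e ∈ twR e f C ↔ e ∈ C := by
    rw [mem_twR e f hef]
    tauto
  have h4 : f ∈ twR e f C ↔ e ∈ C := by
    rw [mem_twR e f hef]
    tauto
  by_cases h5 : e ∈ C
  · rw [if_pos (h3.2 h5), if_pos (h4.2 h5), if_pos h5, if_neg hef, if_pos rfl]
    simp
    ring
  · rw [if_neg (fun h => h5 (h3.1 h)), if_neg (fun h => h5 (h4.1 h)), if_neg h5]
    simp

theorem tw_Cov (G : MG V E) (h : C2 G) (U : Finset V) (e f a b : E) (hU : G.cut U = {e, f})
    (hef : e ≠ f) (x y a' b' : V) (hx : x ∈ U) (hy : y ∉ U) (jf : G.Jn f x y)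
    (hE : Ex G a b x y a' b') (w : E → ℕ) (l : ℚ)
    (hc : (exch G a b x y).Cov
      (fun g => if g = f then 0 else if g = e then w e + w f else w g) l) : G.Cov w l := by
  obtain ⟨L, h1, h2, h3⟩ := hc
  refine ⟨L.map (twR e f), ?_, ?_, ?_⟩
  · intro C hC
    rw [List.mem_map] at hC
    obtain ⟨C', hC', rfl⟩ := hC
    exact tw_Ev G h U e f a b hU hef x y a' b' hx hy jf hE C' (h1 C' hC')
  · intro g
    by_cases hg : g = f
    · obtain ⟨C, hC, he⟩ := h2 e
      exact ⟨twR e f C, List.mem_map_of_mem hC, (mem_twR e f hef C g).2 (Or.inl ⟨hg, he⟩)⟩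
    · obtain ⟨C, hC, he⟩ := h2 g
      exact ⟨twR e f C, List.mem_map_of_mem hC, (mem_twR e f hef C g).2 (Or.inr ⟨hg, he⟩)⟩
  · rw [List.map_map]
    have h4 : (L.map ((fun C => ∑ e ∈ C, w e) ∘ twR e f)) =
        L.map (fun C => ∑ g ∈ C, (if g = f then 0 else if g = e then w e + w f else w g)) := by
      apply List.map_congr_left
      intro C _
      exact tw_sum e f hef w C
    rw [h4]
    exact h3

theorem two_sum (e f : E) (hef : e ≠ f) (w : E → ℕ) :
    ∑ g, (((if g = f then 0 else if g = e then w e + w f else w g : ℕ)) : ℚ) = ∑ g, (w g : ℚ) := by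
  have h1 := tw_sum e f hef w univ
  have h2 : twR e f (univ : Finset E) = univ := by
    ext g
    rw [mem_twR e f hef]
    have := mem_univ g
    have h3 := mem_univ e
    tauto
  rw [h2] at h1
  have h3 : ((∑ g, w g : ℕ) : ℚ) =
      ((∑ g, (if g = f then 0 else if g = e then w e + w f else w g) : ℕ) : ℚ) := by rw [h1]
  push_cast at h3 ⊢
  exact h3.symm

/-- second induction: 2-cuts -/
theorem red2 (c : ℚ) (H : ∀ G : MG V E, C3 G → ∀ w : E → ℕ, G.Cov w (c * ∑ e, (w e : ℚ))) :
    ∀ (n : ℕ) (G : MG V E), C2 G →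
      (univ.filter (fun U : Finset V => (G.cut U).card = 2)).card ≤ n →
      ∀ w : E → ℕ, G.Cov w (c * ∑ e, (w e : ℚ)) := by
  intro n
  induction n with
  | zero =>
    intro G h hn w
    apply H G ⟨h.deg, ?_⟩ w
    intro U h1 h2
    have h3 := h.cut U h1 h2
    by_contra h4
    have h5 : U ∈ univ.filter (fun U : Finset V => (G.cut U).card = 2) :=
      mem_filter.2 ⟨mem_univ _, by omega⟩
    have h6 := card_pos.2 ⟨U, h5⟩
    omega
  | succ n ih =>
    intro G h hn w
    by_cases hex : ∃ U : Finset V, (G.cut U).card = 2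
    · obtain ⟨U, hU2⟩ := hex
      obtain ⟨e, f, hef, hU⟩ := card_eq_two.1 hU2
      have hfU : f ∈ G.cut U := by rw [hU, mem_insert, mem_singleton]; exact Or.inr rfl
      obtain ⟨x, y, hx, hy, jf⟩ : ∃ x y, x ∈ U ∧ y ∉ U ∧ G.Jn f x y := by
        rw [MG.mem_cut] at hfU
        by_cases h1 : G.s f ∈ U
        · exact ⟨G.s f, G.t f, h1, by tauto, Or.inl ⟨rfl, rfl⟩⟩
        · exact ⟨G.t f, G.s f, by tauto, h1, Or.inr ⟨rfl, rfl⟩⟩
      obtain ⟨a, hae, haf, a', ja, xa⟩ := edge_at G h.deg h.br x e f
      obtain ⟨b, hbe, hbf, b', jb, yb⟩ := edge_at G h.deg h.br y e f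
      have hab : a ≠ b := by
        intro h1
        have h2 : a ∉ G.cut U := by
          rw [hU, mem_insert, mem_singleton]
          tauto
        rw [mem_cut_Jn G a x a' ja] at h2
        have h3 : b ∉ G.cut U := by rw [← h1, mem_cut_Jn G a x a' ja]; exact h2
        rw [mem_cut_Jn G b y b' jb] at h3
        have h4 : a' ∈ U := by tauto
        have h5 : b' ∉ U := by tauto
        rw [← h1] at jb
        rcases ja with ⟨k1, k2⟩ | ⟨k1, k2⟩ <;> rcases jb with ⟨m1, m2⟩ | ⟨m1, m2⟩
        · exact hy (m1 ▸ k1 ▸ hx)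
        · exact h5 (m1 ▸ k1 ▸ hx)
        · exact hy (m1 ▸ k1 ▸ h4)
        · exact h5 (m1 ▸ k1 ▸ h4)
      have hE : Ex G a b x y a' b' := ⟨hab, ja, jb, xa, yb⟩
      refine tw_Cov G h U e f a b hU hef x y a' b' hx hy jf hE w _ ?_
      have hsep : ∀ W : Finset V, ¬ (x ∈ W ↔ y ∈ W) → 3 ≤ ((exch G a b x y).cut W).card := by
        intro W hW
        by_cases h1 : x ∈ W
        · exact exch_sep G h U e f a b hU hef x y a' b' hx hy jf hE hae haf hbe hbf W h1 (by tauto)
        · rw [← MG.cut_compl]
          exact exch_sep G h U e f a b hU hef x y a' b' hx hy jf hE hae haf hbe hbf Wᶜ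
            (mem_compl.2 h1) (fun h2 => (mem_compl.1 h2) (by tauto))
      have hC2 : C2 (exch G a b x y) := by
        refine ⟨fun v => by rw [hE.dg_univ v]; exact h.deg v, ?_⟩
        intro W h1 h2
        by_cases h3 : x ∈ W ↔ y ∈ W
        · rw [exch_cut_same G a b x y W h3]
          exact h.cut W h1 h2
        · have := hsep W h3
          omega
      have hlt : (univ.filter (fun W : Finset V => ((exch G a b x y).cut W).card = 2)).card <
          (univ.filter (fun W : Finset V => (G.cut W).card = 2)).card := by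
        apply card_lt_card
        rw [Finset.ssubset_iff_of_subset]
        · refine ⟨U, mem_filter.2 ⟨mem_univ _, hU2⟩, ?_⟩
          intro h1
          have h2 := (mem_filter.1 h1).2
          have h3 := hsep U (by tauto)
          omega
        · intro W hW
          have h1 := (mem_filter.1 hW).2
          refine mem_filter.2 ⟨mem_univ _, ?_⟩
          by_cases h3 : x ∈ W ↔ y ∈ W
          · rw [exch_cut_same G a b x y W h3] at h1
            exact h1
          · have := hsep W h3
            omega
      have h1 := ih (exch G a b x y) hC2 (by omega)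
        (fun g => if g = f then 0 else if g = e then w e + w f else w g)
      rw [two_sum e f hef w] at h1
      exact h1
    · apply H G ⟨h.deg, ?_⟩ w
      intro U h1 h2
      have h3 := h.cut U h1 h2
      by_contra h4
      exact hex ⟨U, by omega⟩

/-- first induction: components -/
theorem red1 (c : ℚ) (H : ∀ G : MG V E, C3 G → ∀ w : E → ℕ, G.Cov w (c * ∑ e, (w e : ℚ))) :
    ∀ (n : ℕ) (G : MG V E), (∀ v, G.dg univ v = 3) → G.Br0 →
      (univ.filter (fun U : Finset V => U.Nonempty ∧ U ≠ univ ∧ (G.cut U).card = 0)).card ≤ n →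
      ∀ w : E → ℕ, G.Cov w (c * ∑ e, (w e : ℚ)) := by
  intro n
  have base : ∀ (G : MG V E), (∀ v, G.dg univ v = 3) → G.Br0 →
      (¬ ∃ U : Finset V, U.Nonempty ∧ U ≠ univ ∧ (G.cut U).card = 0) →
      ∀ w : E → ℕ, G.Cov w (c * ∑ e, (w e : ℚ)) := by
    intro G hc hb hno w
    refine red2 c H _ G ⟨hc, ?_⟩ le_rfl w
    intro U h1 h2
    have h3 := hb U
    have h4 : (G.cut U).card ≠ 0 := fun h5 => hno ⟨U, h1, h2, h5⟩
    omega
  induction n with
  | zero =>
    intro G hc hb hn w
    refine base G hc hb ?_ w
    rintro ⟨U, hU⟩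
    have h5 : U ∈ univ.filter (fun U : Finset V => U.Nonempty ∧ U ≠ univ ∧ (G.cut U).card = 0) :=
      mem_filter.2 ⟨mem_univ U, hU⟩
    have h6 := card_pos.2 ⟨U, h5⟩
    omega
  | succ n ih =>
    intro G hc hb hn w
    by_cases hex : ∃ U : Finset V, U.Nonempty ∧ U ≠ univ ∧ (G.cut U).card = 0
    · obtain ⟨U, ⟨x, hx⟩, hUu, hU0⟩ := hex
      obtain ⟨y, hy⟩ : ∃ y, y ∉ U := by
        by_contra h1
        push Not at h1
        exact hUu (Finset.eq_univ_iff_forall.2 h1)
      have hU : G.cut U = ∅ := card_eq_zero.1 hU0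
      obtain ⟨e0⟩ : Nonempty E := by
        have h1 := star_card G hc hb x
        have h2 : (G.cut {x}).Nonempty := card_pos.1 (by omega)
        exact ⟨h2.choose⟩
      obtain ⟨a, _, _, a', ja, xa⟩ := edge_at G hc hb x e0 e0
      obtain ⟨b, _, _, b', jb, yb⟩ := edge_at G hc hb y e0 e0
      have haU : a' ∈ U := by
        have h1 : a ∉ G.cut U := by rw [hU]; exact notMem_empty a
        rw [mem_cut_Jn G a x a' ja] at h1
        tauto
      have hbU : b' ∉ U := by
        have h1 : b ∉ G.cut U := by rw [hU]; exact notMem_empty b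
        rw [mem_cut_Jn G b y b' jb] at h1
        tauto
      have hab : a ≠ b := by
        intro h1
        rw [← h1] at jb
        rcases ja with ⟨k1, k2⟩ | ⟨k1, k2⟩ <;> rcases jb with ⟨m1, m2⟩ | ⟨m1, m2⟩
        · exact hy (m1 ▸ k1 ▸ hx)
        · exact hbU (m1 ▸ k1 ▸ hx)
        · exact hy (m1 ▸ k1 ▸ haU)
        · exact hbU (m1 ▸ k1 ▸ haU)
      have hE : Ex G a b x y a' b' := ⟨hab, ja, jb, xa, yb⟩
      -- the cut of U in the new graph is {a, b}
      have hcutU : (exch G a b x y).cut U = {a, b} := by
        ext g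
        rw [mem_insert, mem_singleton]
        by_cases ga : g = a
        · rw [ga, mem_cut_Jn _ a y a' hE.ja']
          tauto
        · by_cases gb : g = b
          · rw [gb, mem_cut_Jn _ b x b' hE.jb']
            tauto
          · rw [MG.mem_cut, (hE.other g ga gb).1, (hE.other g ga gb).2, ← MG.mem_cut, hU]
            simp [ga, gb]
      have hboth : ∀ C, (exch G a b x y).Ev C → (a ∈ C ↔ b ∈ C) := by
        intro C hC
        constructor
        · exact fun h => MG.Ev_ser _ C hC a b (Or.inr ⟨U, hcutU⟩) h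
        · exact fun h => MG.Ev_ser _ C hC b a (Or.inr ⟨U, by rw [hcutU, pair_comm]⟩) h
      have hsep : ∀ W : Finset V, x ∈ W → y ∉ W → 2 ≤ ((exch G a b x y).cut W).card := by
        intro W hxW hyW
        have hcut : ∀ g, g ≠ a → g ≠ b → (g ∈ (exch G a b x y).cut W ↔ g ∈ G.cut W) := by
          intro g h1 h2
          rw [MG.mem_cut, MG.mem_cut, (hE.other g h1 h2).1, (hE.other g h1 h2).2]
        have hinU : ∀ g, g ∉ G.cut U := by intro g; rw [hU]; exact notMem_empty g
        have hA : ∃ g, (G.s g ∈ U ∧ G.t g ∈ U) ∧ g ∈ (exch G a b x y).cut W := by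
          by_cases h1 : a' ∈ W
          · refine ⟨a, ?_, ?_⟩
            · rcases ja with ⟨h2, h3⟩ | ⟨h2, h3⟩
              · rw [h2, h3]; exact ⟨hx, haU⟩
              · rw [h2, h3]; exact ⟨haU, hx⟩
            · rw [mem_cut_Jn _ a y a' hE.ja']
              tauto
          · -- cut of U ∩ W in G has another edge
            have h2 : a ∈ G.cut (U ∩ W) := by
              rw [mem_cut_Jn G a x a' ja, mem_inter, mem_inter]
              tauto
            have h3 : (G.cut (U ∩ W)).card ≠ 1 := hb _
            have h4 : ∃ g ∈ G.cut (U ∩ W), g ≠ a := by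
              by_contra h5
              push Not at h5
              apply h3
              rw [card_eq_one]
              refine ⟨a, ?_⟩
              ext g
              rw [mem_singleton]
              exact ⟨h5 g, fun h6 => h6 ▸ h2⟩
            obtain ⟨g, hg, hga⟩ := h4
            have hgU := hinU g
            rw [MG.mem_cut] at hg hgU
            rw [mem_inter, mem_inter] at hg
            have h6 : G.s g ∈ U ∧ G.t g ∈ U := by tauto
            refine ⟨g, h6, (hcut g hga ?_).2 ?_⟩
            · intro h7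
              rw [h7] at h6
              rcases jb with ⟨k1, k2⟩ | ⟨k1, k2⟩
              · rw [k1] at h6; exact hy h6.1
              · rw [k2] at h6; exact hy h6.2
            · rw [MG.mem_cut]
              tauto
        have hB : ∃ g, (G.s g ∉ U ∧ G.t g ∉ U) ∧ g ∈ (exch G a b x y).cut W := by
          by_cases h1 : b' ∈ W
          · have h2 : b ∈ G.cut (W \ U) := by
              rw [mem_cut_Jn G b y b' jb, mem_sdiff, mem_sdiff]
              tauto
            have h3 : (G.cut (W \ U)).card ≠ 1 := hb _
            have h4 : ∃ g ∈ G.cut (W \ U), g ≠ b := by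
              by_contra h5
              push Not at h5
              apply h3
              rw [card_eq_one]
              refine ⟨b, ?_⟩
              ext g
              rw [mem_singleton]
              exact ⟨h5 g, fun h6 => h6 ▸ h2⟩
            obtain ⟨g, hg, hgb⟩ := h4
            have hgU := hinU g
            rw [MG.mem_cut] at hg hgU
            rw [mem_sdiff, mem_sdiff] at hg
            have h6 : G.s g ∉ U ∧ G.t g ∉ U := by tauto
            refine ⟨g, h6, (hcut g ?_ hgb).2 ?_⟩
            · intro h7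
              rw [h7] at h6
              rcases ja with ⟨k1, k2⟩ | ⟨k1, k2⟩
              · rw [k1] at h6; exact h6.1 hx
              · rw [k2] at h6; exact h6.2 hx
            · rw [MG.mem_cut]
              tauto
          · refine ⟨b, ?_, ?_⟩
            · rcases jb with ⟨h2, h3⟩ | ⟨h2, h3⟩
              · rw [h2, h3]; exact ⟨hy, hbU⟩
              · rw [h2, h3]; exact ⟨hbU, hy⟩
            · rw [mem_cut_Jn _ b x b' hE.jb']
              tauto
        obtain ⟨g1, h1, h2⟩ := hA
        obtain ⟨g2, k1, k2⟩ := hB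
        have h3 : g1 ≠ g2 := fun h4 => k1.1 (h4 ▸ h1.1)
        have h4 : ({g1, g2} : Finset E) ⊆ (exch G a b x y).cut W := by
          intro g hg
          rw [mem_insert, mem_singleton] at hg
          rcases hg with hg | hg
          · rw [hg]; exact h2
          · rw [hg]; exact k2
        have h5 := card_le_card h4
        rw [card_pair h3] at h5
        exact h5
      have hsep' : ∀ W : Finset V, ¬ (x ∈ W ↔ y ∈ W) → 2 ≤ ((exch G a b x y).cut W).card := by
        intro W hW
        by_cases h1 : x ∈ W
        · exact hsep W h1 (by tauto)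
        · rw [← MG.cut_compl]
          exact hsep Wᶜ (mem_compl.2 h1) (fun h2 => (mem_compl.1 h2) (by tauto))
      have hb' : (exch G a b x y).Br0 := by
        intro W
        by_cases h3 : x ∈ W ↔ y ∈ W
        · rw [exch_cut_same G a b x y W h3]
          exact hb W
        · have := hsep' W h3
          omega
      have hlt : (univ.filter (fun W : Finset V => W.Nonempty ∧ W ≠ univ ∧
            ((exch G a b x y).cut W).card = 0)).card <
          (univ.filter (fun W : Finset V => W.Nonempty ∧ W ≠ univ ∧ (G.cut W).card = 0)).card := by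
        apply card_lt_card
        rw [Finset.ssubset_iff_of_subset]
        · refine ⟨U, mem_filter.2 ⟨mem_univ _, ⟨x, hx⟩, hUu, hU0⟩, ?_⟩
          intro h1
          have h2 := (mem_filter.1 h1).2.2.2
          have h3 := hsep' U (by tauto)
          omega
        · intro W hW
          have h1 := (mem_filter.1 hW).2
          refine mem_filter.2 ⟨mem_univ _, h1.1, h1.2.1, ?_⟩
          by_cases h3 : x ∈ W ↔ y ∈ W
          · have h2 := h1.2.2
            rw [exch_cut_same G a b x y W h3] at h2
            exact h2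
          · have := hsep' W h3
            have h2 := h1.2.2
            omega
      obtain ⟨L, h1, h2, h3⟩ := ih (exch G a b x y)
        (fun v => by rw [hE.dg_univ v]; exact hc v) hb' (by omega) w
      refine ⟨L, ?_, h2, h3⟩
      intro C hC v
      rw [← hE.dg_both C (hboth C (h1 C hC)) v]
      exact h1 C hC v
    · exact base G hc hb hex w

/-- cubic bridgeless graphs -/
theorem red_cubic (c : ℚ)
    (H : ∀ G : MG V E, C3 G → ∀ w : E → ℕ, G.Cov w (c * ∑ e, (w e : ℚ)))
    (G : MG V E) (hc : ∀ v, G.dg univ v = 3) (hb : G.Br0) (w : E → ℕ) :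
    G.Cov w (c * ∑ e, (w e : ℚ)) :=
  red1 c H _ G hc hb le_rfl w

end Pool.Agent.Lib.MP_95e9b3_coG
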